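import Pool.Agent.P.MP_0f25e6_al.VT.Spec

/-!
Finiteness for the families `bm` with finitely many maps.
-/

set_option autoImplicit false

open MulAction

noncomputable section

namespace Pool.Agent.P.MP_0f25e6_al.VT

universe u

open Sys

namespace PBM

variable {s : Sys.{u}} {V W I : Type u} [AddCommGroup V] [Module s.D V] [MulAction s.Γ W]

theorem mem_sum_pi {m : ℕ} (𝓕 : s.Fam V W) (𝓖 : s.Fam (Fin m → V) W)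
    (h : ∀ w v, v ∈ 𝓖.F w ↔ ∀ i, v i ∈ 𝓕.F w) (c : I → W) (S : Finset I) (v : Fin m → V) :
    v ∈ 𝓖.sum c S ↔ ∀ i, v i ∈ 𝓕.sum c S := by
  constructor
  · intro hv i
    refine (iSup₂_le (a := (𝓕.sum c S).comap (Pi.evalAddMonoidHom (fun _ : Fin m => V) i))
      fun k hk x hx => ?_) hv
    exact (le_iSup₂_of_le (f := fun k (_ : k ∈ S) => 𝓕.F (c k)) k hk le_rfl :
      _ ≤ 𝓕.sum c S) ((h _ _).1 hx i)
  · intro hv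
    rw [← Finset.univ_sum_single v]
    refine sum_mem fun i _ => ?_
    refine (iSup₂_le (a := (𝓖.sum c S).comap (AddMonoidHom.single (fun _ : Fin m => V) i))
      fun k hk x hx => ?_) (hv i)
    refine (le_iSup₂_of_le (f := fun k (_ : k ∈ S) => 𝓖.F (c k)) k hk le_rfl :
      _ ≤ 𝓖.sum c S) ((h _ _).2 fun j => ?_)
    by_cases hj : j = i
    · subst hj
      simpa using hx
    · simp [Pi.single_eq_of_ne hj]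

theorem sum_map {V₂ : Type u} [AddCommGroup V₂] [Module s.D V₂] (𝓕 : s.Fam V W) (𝓖 : s.Fam V₂ W)
    (g : V →ₗ[s.D] V₂) (h : ∀ w, 𝓖.F w = (𝓕.F w).map g.toAddMonoidHom) (c : I → W)
    (S : Finset I) : 𝓖.sum c S = (𝓕.sum c S).map g.toAddMonoidHom := by
  simp only [Fam.sum, AddSubgroup.map_iSup, h]

variable {E : Type u} [AddCommGroup E] [Module s.D E]

theorem mem_bm (𝓕 : s.Fam V W) (μ : ℕ → E →ₗ[s.D] V) (J : Set ℕ) (c : I → W) (S : Finset I)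
    (x : E) : x ∈ 𝓕.bm μ J c S ↔ ∀ i ∈ J, μ i x ∈ 𝓕.sum c S := by
  simp [Fam.bm, AddSubgroup.mem_iInf]

theorem stab_bm (𝓕 : s.Fam V W) (μ : ℕ → E →ₗ[s.D] V) (J : Set ℕ) (c : I → W) (S : Finset I) :
    Stab (s.fld (stabilizer s.Γ c)) (𝓕.bm μ J c S) := fun κ hκ x hx => by
  rw [mem_bm] at hx ⊢
  intro i hi
  rw [map_smul]
  exact 𝓕.stab_sum c S κ hκ _ (hx i hi)

theorem bm_mono (𝓕 : s.Fam V W) (μ : ℕ → E →ₗ[s.D] V) (J : Set ℕ) (c : I → W) :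
    Monotone (𝓕.bm μ J c) := fun S T h x hx => by
  rw [mem_bm] at hx ⊢
  exact fun i hi => 𝓕.sum_mono c h (hx i hi)

theorem ses {V₁ V₂ : Type u} [AddCommGroup V₁] [Module s.D V₁] [AddCommGroup V₂] [Module s.D V₂]
    (𝓖₁ : s.Fam V₁ W) (𝓖₂ : s.Fam V₂ W) (f : E →ₗ[s.D] V₁) (g : V₁ →ₗ[s.D] V₂)
    (hf : ∀ x, f x = 0 → x = 0) (hg : ∀ y, g y = 0 ↔ ∃ x, f x = y)
    (h : ∀ w, 𝓖₂.F w = (𝓖₁.F w).map g.toAddMonoidHom) (c : I → W)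
    (B : Finset I → AddSubgroup E) (hB : Monotone B)
    (hS : ∀ S, Stab (s.fld (stabilizer s.Γ c)) (B S))
    (hm : ∀ S x, x ∈ B S ↔ f x ∈ 𝓖₁.sum c S) :
    Ses (f.restrictScalars (s.fld (stabilizer s.Γ c)))
      (g.restrictScalars (s.fld (stabilizer s.Γ c)))
      (spF (s.fld (stabilizer s.Γ c)) B) (𝓖₁.Bc c) (𝓖₂.Bc c) := by
  refine ⟨spF_mono _ hB, spF_mono _ (𝓖₁.sum_mono c), spF_mono _ (𝓖₂.sum_mono c), fun S _ => ?_⟩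
  have h0 : ∀ x, x ∈ spF (s.fld (stabilizer s.Γ c)) B S ↔ f x ∈ 𝓖₁.sum c S := fun x =>
    (mem_spF (hS S)).trans (hm S x)
  have h1 : ∀ x, x ∈ 𝓖₁.Bc c S ↔ x ∈ 𝓖₁.sum c S := fun x => mem_spF (𝓖₁.stab_sum c S)
  have h2 : ∀ x, x ∈ 𝓖₂.Bc c S ↔ ∃ y ∈ 𝓖₁.sum c S, g y = x := fun x => by
    rw [mem_spF (𝓖₂.stab_sum c S), sum_map 𝓖₁ 𝓖₂ g h]
    rfl
  refine ⟨fun x _ hx => hf x hx, fun x hx => ⟨(h1 _).2 ((h0 x).1 hx), (hg _).2 ⟨x, rfl⟩⟩,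
    fun x hx hx' => ?_, fun x hx => (h2 _).2 ⟨x, (h1 x).1 hx, rfl⟩, fun y hy => ?_⟩
  · obtain ⟨y, rfl⟩ := (hg x).1 hx'
    exact ⟨y, (h0 y).2 ((h1 _).1 hx), rfl⟩
  · obtain ⟨x, hx, rfl⟩ := (h2 y).1 hy
    exact ⟨x, (h1 x).2 hx, rfl⟩

end PBM

theorem p_bm (hSES : S_SESa.{u}) (hF : S_FAMS.{u}) : S_BM.{u} := by
  intro n hFIN m s hs V W E _ _ _ _ _ _ _ 𝓕 μ hμ I _ _ _
  classical
  let f : E →ₗ[s.D] (Fin m → V) := LinearMap.pi fun i : Fin m => μ i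
  obtain ⟨𝓖₁, hs₁, h₁⟩ := hF.1 s V W 𝓕 m
  obtain ⟨𝓖₂, hs₂, h₂⟩ := hF.2.1 s (Fin m → V) ((Fin m → V) ⧸ LinearMap.range f) W 𝓖₁
    (LinearMap.range f).mkQ (LinearMap.range f).mkQ_surjective
  have a₁ : ∀ c : I → W, 𝓖₁.act c = 𝓕.act c := fun c => by simp only [Fam.act, hs₁]
  have a₂ : ∀ c : I → W, 𝓖₂.act c = 𝓕.act c := fun c => by simp only [Fam.act, hs₂, hs₁]
  obtain ⟨t₁, c₁⟩ := hFIN s hs (Fin m → V) W 𝓖₁ I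
  obtain ⟨t₂, c₂⟩ := hFIN s hs ((Fin m → V) ⧸ LinearMap.range f) W 𝓖₂ I
  have hf : ∀ x, f x = 0 → x = 0 := fun x hx => hμ x fun i hi =>
    congrFun hx ⟨i, by exact_mod_cast hi⟩
  have key := fun c : I → W => hSES _ _ _ _ _ _ _ _ _ _
    (PBM.ses 𝓖₁ 𝓖₂ f (LinearMap.range f).mkQ hf
      (fun y => (Submodule.Quotient.mk_eq_zero _).trans LinearMap.mem_range) h₂ c
      (𝓕.bm μ {i | (i : ℕ∞) < (m : ℕ∞)} c) (PBM.bm_mono 𝓕 μ _ c) (PBM.stab_bm 𝓕 μ _ c)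
      fun S x => by
        rw [PBM.mem_bm, PBM.mem_sum_pi 𝓕 𝓖₁ h₁]
        exact ⟨fun h i => h i (by
          change ((i : ℕ) : ℕ∞) < (m : ℕ∞)
          exact_mod_cast i.2), fun h i hi => h ⟨i, by
          change (i : ℕ∞) < (m : ℕ∞) at hi
          exact_mod_cast hi⟩⟩)
  refine ⟨fun c hc => (key c).1 (t₁ c (a₁ c ▸ hc)) (t₂ c (a₂ c ▸ hc)), ?_⟩
  obtain ⟨u₁, hu₁⟩ := c₁
  obtain ⟨u₂, hu₂⟩ := c₂
  refine ⟨u₁ ∪ u₂, fun c hc => ?_⟩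
  by_cases h : Acyc (𝓖₁.Bc c)
  · obtain ⟨g, hg⟩ := hu₂ c ⟨a₂ c ▸ hc.1, fun h' => hc.2 ((key c).2 h h')⟩
    exact ⟨g, Finset.mem_union_right _ hg⟩
  · obtain ⟨g, hg⟩ := hu₁ c ⟨a₁ c ▸ hc.1, h⟩
    exact ⟨g, Finset.mem_union_left _ hg⟩

end Pool.Agent.P.MP_0f25e6_al.VT
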