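import Pool.Agent.P.MP_0f25e6_al.VT.Spec

/-!
Exactness at the vertices of the chain complex of a tree with constant coefficients.
-/

set_option autoImplicit false

open MulAction

noncomputable section

namespace Pool.Agent.P.MP_0f25e6_al.VT

universe u

open Sys

namespace CL0P

variable {s : Sys.{u}} {V Vt E : Type u} [AddCommGroup V] [Module s.D V] [MulAction s.Γ Vt]
  [MulAction s.Γ E]

/-- The boundaries of the chains with coefficients in `P`. -/
def M (Tr : HN.TreeData s.Γ Vt E) (A : Subgroup s.Γ) (P : AddSubgroup V) :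
    AddSubgroup (s.Ten Vt V) :=
  (s.T A fun _ : E => P).map (bd V Tr).toAddMonoidHom

variable {Tr : HN.TreeData s.Γ Vt E} {A : Subgroup s.Γ} {P : AddSubgroup V}

theorem smul_M {d : s.D} (hd : d ∈ s.fld A) {x : s.Ten Vt V} (hx : x ∈ M Tr A P) :
    d • x ∈ M Tr A P := by
  obtain ⟨y, hy, rfl⟩ := hx
  exact ⟨d • y, smul_mem_T hd hy, map_smul (bd V Tr) d y⟩

theorem edge_M (e : E) {p : V} (hp : p ∈ P) : s.t (Tr.t e) p - s.t (Tr.o e) p ∈ M Tr A P := by
  have h : (1 : s.D) • s.t e p ∈ s.T A fun _ : E => P := mem_T (one_mem _) hp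
  rw [one_smul] at h
  exact ⟨_, h, bd_t Tr e p⟩

theorem diff_M (v₀ w : Vt) {p : V} (hp : p ∈ P) : s.t w p - s.t v₀ p ∈ M Tr A P := by
  refine Tr.conn {v | s.t v p - s.t v₀ p ∈ M Tr A P} (fun e => ⟨fun h => ?_, fun h => ?_⟩) v₀ ?_ w
  · have := add_mem (edge_M (A := A) (Tr := Tr) e hp) h
    rwa [sub_add_sub_cancel] at this
  · have := sub_mem h (edge_M (A := A) (Tr := Tr) e hp)
    rwa [sub_sub_sub_cancel_left] at this
  · change s.t v₀ p - s.t v₀ p ∈ M Tr A P
    rw [sub_self]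
    exact zero_mem _

theorem base_M (v₀ : Vt) (hP : Stab (s.fld A) P) {d : s.D} (hd : d ∈ s.fld A) :
    ∀ p ∈ P, d • s.t v₀ p - s.t v₀ (d • p) ∈ M Tr A P := by
  refine fld_induction (P := fun d => ∀ p ∈ P, d • s.t v₀ p - s.t v₀ (d • p) ∈ M Tr A P)
    (fun c p _ => ?_) (fun g hg p hp => ?_) (fun x _ y _ hx hy p hp => ?_)
    (fun x hx y hy h1 h2 p hp => ?_) (fun x hx h0 h1 p hp => ?_) hd
  · rw [t_smul (alg_mem _ c), sub_self]
    exact zero_mem _
  · rw [← t_act]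
    exact diff_M v₀ _ (hP _ (ι_mem hg) p hp)
  · have := add_mem (hx p hp) (hy p hp)
    rwa [sub_add_sub_comm, ← add_smul, ← map_add, ← add_smul] at this
  · have := add_mem (smul_M hx (h2 p hp)) (h1 _ (hP y hy p hp))
    rwa [smul_sub, sub_add_sub_cancel, smul_smul, smul_smul] at this
  · have := neg_mem (smul_M (inv_mem hx) (h1 _ (hP _ (inv_mem hx) p hp)))
    rwa [smul_sub, neg_sub, smul_smul, smul_smul, inv_mul_cancel₀ h0, mul_inv_cancel₀ h0, one_smul,
      one_smul] at this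

end CL0P

theorem p_cl0 : S_CL0.{u} := by
  intro s V Vt E _ _ _ _ Tr A P v₀ hP ε hε
  have h : (s.T A fun _ : Vt => P) ≤ (CL0P.M Tr A P).comap
      (AddMonoidHom.id _ - (s.t v₀).comp (s.mu Vt V).toAddMonoidHom) := by
    refine T_le fun d hd w z hz => ?_
    change d • s.t w z - s.t v₀ (s.mu Vt V (d • s.t w z)) ∈ CL0P.M Tr A P
    have := add_mem (CL0P.smul_M hd (CL0P.diff_M (Tr := Tr) (A := A) v₀ w hz))
      (CL0P.base_M v₀ hP hd z hz)
    rw [map_smul, mu_t]
    rwa [smul_sub, sub_add_sub_cancel] at this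
  obtain ⟨η, hη, h2⟩ := h hε
  exact ⟨η, hη, h2⟩

end Pool.Agent.P.MP_0f25e6_al.VT
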