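import Pool.Agent.P.MP_0f25e6_al.VT.Spec

/-!
The derivations of a lamp extension.
-/

set_option autoImplicit false

open MulAction SemidirectProduct

noncomputable section

namespace Pool.Agent.P.MP_0f25e6_al.VT

universe u

open Sys

namespace DER

variable {s : Sys.{u}} {Vt E W : Type u} [MulAction s.Γ Vt] [MulAction s.Γ E] [MulAction s.Γ W]

theorem bd_map {V V' : Type u} [AddCommGroup V] [Module s.D V] [AddCommGroup V'] [Module s.D V']
    (Tr : HN.TreeData s.Γ Vt E) (f : V →ₗ[s.D] V') (η : s.Ten E V) :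
    bd V' Tr (map E f η) = map Vt f (bd V Tr η) :=
  DFunLike.congr_fun (Ten.ext_lin (f := (bd V' Tr).comp (map E f))
    (g := (map Vt f).comp (bd V Tr)) fun w v => by simp) η

/-- The universal derivation of a tree. -/
theorem exists_delta (h0 : S_CL0.{u}) (hG : s.Gen) (h1 : s.CL1) (Tr : HN.TreeData s.Γ Vt E)
    (v₀ : Vt) : ∃ δ : s.D →+ s.Ten E s.D,
      (∀ d d', δ (d * d') = d • δ d' + map E (LinearMap.toSpanSingleton s.D s.D d') (δ d)) ∧
      (∀ κ ∈ s.fld (stabilizer s.Γ v₀), δ κ = 0) ∧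
      ∀ (e : E) (g : s.Γ), Tr.o e = v₀ → Tr.t e = g • v₀ → δ (s.ι g) = s.t e (s.ι g) := by
  have inj := h1 s.D Vt E Tr
  have h : ∀ d : s.D, ∃ η : s.Ten E s.D, bd s.D Tr η = d • s.t v₀ 1 - s.t v₀ d := fun d => by
    obtain ⟨η, -, hη⟩ := h0 s s.D Vt E Tr ⊤ ⊤ v₀ (fun _ _ _ _ => trivial) (d • s.t v₀ 1)
      (mem_T (hG d) trivial)
    exact ⟨η, by rw [hη, map_smul, mu_t, smul_eq_mul, mul_one]⟩
  choose δ hδ using h
  refine ⟨AddMonoidHom.mk' δ fun a b => inj ?_, fun d d' => inj ?_, fun κ hκ => inj ?_,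
    fun e g ho ht => inj ?_⟩
  · rw [map_add, hδ, hδ, hδ, map_add, add_smul]
    abel
  · change bd s.D Tr (δ _) = bd s.D Tr (d • δ d' + map E _ (δ d))
    rw [map_add, map_smul, bd_map, hδ, hδ, hδ, map_sub, map_smul, map_t, map_t, smul_sub,
      smul_smul]
    simp only [LinearMap.toSpanSingleton_apply, smul_eq_mul, one_mul]
    abel
  · change bd s.D Tr (δ _) = _
    rw [hδ, map_zero, ← t_smul hκ, smul_eq_mul, mul_one, sub_self]
  · change bd s.D Tr (δ _) = _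
    rw [hδ, bd_t, ho, ht, ← t_act, smul_eq_mul, mul_one]

theorem y_comm (y : E → s.Γ) (hy : ∀ (g : s.Γ) e, y (g • e) = g * y e * g⁻¹) (e : E) {κ : s.D}
    (h : κ ∈ s.fld (stabilizer s.Γ e)) : s.ι (y e)⁻¹ * κ = κ * s.ι (y e)⁻¹ := by
  refine fld_induction (P := fun κ => s.ι (y e)⁻¹ * κ = κ * s.ι (y e)⁻¹)
    (fun c => (Algebra.commutes c _).symm) (fun g hg => ?_)
    (fun _ _ _ _ h h' => Commute.add_right h h') (fun _ _ _ _ h h' => Commute.mul_right h h')
    (fun _ _ _ h => Commute.inv_right₀ h) h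
  have := hy g e
  rw [hg, eq_mul_inv_iff_mul_eq] at this
  have h2 : (y e)⁻¹ * g = g * (y e)⁻¹ := by
    rw [inv_mul_eq_iff_eq_mul, ← mul_assoc, this, mul_inv_cancel_right]
  rw [← map_mul, ← map_mul, h2]

/-- The projections to the colours. -/
theorem exists_pr (π : E → W) (hπ : ∀ (g : s.Γ) e, π (g • e) = g • π e) (k : E → ℕ)
    (hk : ∀ (g : s.Γ) e, k (g • e) = k e) (y : E → s.Γ)
    (hy : ∀ (g : s.Γ) e, y (g • e) = g * y e * g⁻¹) (i : ℕ) :
    ∃ pr : s.Ten E s.D →ₗ[s.D] s.Ten W s.D,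
      (∀ e v, k e = i → pr (s.t e v) = s.t (π e) (s.ι (y e)⁻¹ * v)) ∧
      (∀ e v, k e ≠ i → pr (s.t e v) = 0) ∧
      ∀ d η, pr (map E (LinearMap.toSpanSingleton s.D s.D d) η) =
        map W (LinearMap.toSpanSingleton s.D s.D d) (pr η) := by
  let τ : E → s.D →+ s.Ten W s.D := fun e =>
    if k e = i then (s.t (π e)).comp (AddMonoidHom.mulLeft (s.ι (y e)⁻¹)) else 0
  have a1 : ∀ e v, k e = i → τ e v = s.t (π e) (s.ι (y e)⁻¹ * v) := fun e v h => by
    simp only [τ, if_pos h]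
    rfl
  have a2 : ∀ e v, k e ≠ i → τ e v = 0 := fun e v h => by
    simp only [τ, if_neg h]
    rfl
  have b1 : ∀ w κ v, κ ∈ s.fld (stabilizer s.Γ w) → τ w (κ • v) = κ • τ w v := fun e κ v h => by
    by_cases hi : k e = i
    · rw [a1 _ _ hi, a1 _ _ hi, smul_eq_mul, ← mul_assoc, y_comm y hy e h, mul_assoc,
        ← smul_eq_mul κ]
      refine t_smul (fld_mono (fun g hg => ?_) h) _
      rw [mem_stabilizer_iff] at hg ⊢
      rw [← hπ, hg]
    · rw [a2 _ _ hi, a2 _ _ hi, smul_zero]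
  have b2 : ∀ (g : s.Γ) w v, τ (g • w) (s.ι g • v) = s.ι g • τ w v := fun g e v => by
    by_cases hi : k e = i
    · rw [a1 _ _ hi, a1 _ _ ((hk g e).trans hi), hπ, ← t_act, smul_eq_mul, smul_eq_mul,
        ← mul_assoc, ← mul_assoc, ← map_mul, ← map_mul, hy]
      congr 3
      group
    · rw [a2 _ _ hi, a2 _ _ (by rwa [hk]), smul_zero]
  refine ⟨lift τ b1 b2, fun e v h => by rw [lift_t, a1 _ _ h], fun e v h => by rw [lift_t, a2 _ _ h],
    fun d η => DFunLike.congr_fun (Ten.ext_lin (f := (lift τ b1 b2).comp (Sys.map E _))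
      (g := (Sys.map W _).comp (lift τ b1 b2)) fun e v => ?_) η⟩
  simp only [LinearMap.comp_apply, map_t, lift_t]
  by_cases hi : k e = i
  · rw [a1 _ _ hi, a1 _ _ hi, map_t]
    simp [mul_assoc]
  · rw [a2 _ _ hi, a2 _ _ hi, map_zero]

end DER

open DER in
theorem p_der (h0 : S_CL0.{u}) : S_DER.{u} := by
  intro s s' W _ φ j hja hjι hG hG' h1
  let L := HN.Tw W ℕ
  let ψ := TP.actF s.Γ L
  let _ : MulAction s'.Γ (TP.Ex ψ PUnit.{u + 1}) := MulAction.compHom _ φ.toMonoidHom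
  let _ : MulAction s'.Γ (TP.Ex ψ L) := MulAction.compHom _ φ.toMonoidHom
  let _ : MulAction s'.Γ (TP.Ex ψ W) := MulAction.compHom _ φ.toMonoidHom
  have sV : ∀ (g : s'.Γ) (v : TP.Ex ψ PUnit.{u + 1}), g • v = φ g • v := fun _ _ => rfl
  have sE : ∀ (g : s'.Γ) (v : TP.Ex ψ L), g • v = φ g • v := fun _ _ => rfl
  have sW : ∀ (g : s'.Γ) (v : TP.Ex ψ W), g • v = φ g • v := fun _ _ => rfl
  let Tr : HN.TreeData s'.Γ (TP.Ex ψ PUnit.{u + 1}) (TP.Ex ψ L) :=
    TP.comap (TP.exTree s.Γ L) φ.toMonoidHom (fun _ _ => rfl) fun _ _ => rfl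
  let x : ℕ → TP.Ex ψ W → s'.Γ := fun i w =>
    φ.symm (inl (w.m * FreeGroup.of (⟨w.z, i⟩ : L) * w.m⁻¹))
  have hx : ∀ i (g : s'.Γ) w, x i (g • w) = g * x i w * g⁻¹ := fun i g w => by
    apply φ.injective
    have h2 : ψ (φ g).right (FreeGroup.of (⟨w.z, i⟩ : L)) =
        FreeGroup.of (⟨(φ g).right • w.z, i⟩ : L) := rfl
    simp only [x, sW, map_mul, map_inv, MulEquiv.apply_symm_apply, TP.Ex.smul_m, TP.Ex.smul_z]
    refine SemidirectProduct.ext ?_ ?_
    · simp [← h2, ψ, L, mul_assoc]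
    · simp
  obtain ⟨δ, d1, d2, d3⟩ := exists_delta h0 hG' h1 Tr ⟨1, ⟨⟩⟩
  have hp := exists_pr (s := s') (E := TP.Ex ψ L) (W := TP.Ex ψ W) (fun e => ⟨e.m, e.z.y⟩)
    (fun _ _ => rfl) (fun e => e.z.k) (fun _ _ => rfl) (fun e => x e.z.k ⟨e.m, e.z.y⟩)
    fun g e => hx e.z.k g ⟨e.m, e.z.y⟩
  choose pr p1 p2 p3 using hp
  have d4 : ∀ i w, δ (s'.ι (x i ⟨1, w⟩)) = s'.t (⟨1, ⟨w, i⟩⟩ : TP.Ex ψ L) (s'.ι (x i ⟨1, w⟩)) :=
    fun i w => d3 _ _ rfl (TP.Ex.ext (by
      change (1 : FreeGroup L) * FreeGroup.of (⟨w, i⟩ : L) = _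
      simp [sV, x]) rfl)
  refine ⟨{
    e := φ.symm.toMonoidHom.comp inr
    p := rightHom.comp φ.toMonoidHom
    j := j
    W' := TP.Ex ψ W
    sec := fun w => ⟨1, w⟩
    q := fun w => w.z
    x := x
    der := fun i => (pr i).toAddMonoidHom.comp δ
    p_e := fun g => by simp
    j_alg := hja
    j_ι := hjι
    q_sec := fun _ => rfl
    q_smul := fun _ _ => rfl
    sec_smul := fun g w => TP.Ex.ext (by simp [sW]) (by simp [sW])
    surj := fun w => ⟨φ.symm (inl w.m), by simp, TP.Ex.ext (by simp [sW]) (by simp [sW])⟩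
    stab := fun w => ?_
    p_x := fun i w => by simp [x]
    x_smul := hx
    ker := fun n hn => ?_
    leib := fun i d d' => ?_
    der_j := fun i d => ?_
    der_alg := fun i c => ?_
    der_self := fun i w => ?_
    der_ne := fun i i' w h => ?_ }⟩
  · ext g
    rw [mem_stabilizer_iff, Subgroup.mem_map]
    constructor
    · intro h
      have a1 := congrArg TP.Ex.m h
      have a2 := congrArg TP.Ex.z h
      refine ⟨(φ g).right, a2, φ.injective (SemidirectProduct.ext ?_ ?_)⟩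
      · simpa [sW] using a1.symm
      · simp
    · rintro ⟨a, ha, rfl⟩
      exact TP.Ex.ext (by simp [sW]) (by simpa [sW] using ha)
  · have h2 : n = φ.symm (inl (φ n).left) := φ.injective (SemidirectProduct.ext (by simp) (by
      simpa using hn))
    rw [h2]
    generalize (φ n).left = m
    induction m using FreeGroup.induction_on with
    | C1 => simp
    | of l => exact Subgroup.subset_closure ⟨l.k, l.y, by simp [x]⟩
    | inv_of l h => rw [map_inv, map_inv]; exact inv_mem h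
    | mul a b ha hb => rw [map_mul, map_mul]; exact mul_mem ha hb
  · change pr i (δ _) = d • pr i (δ d') + Sys.map _ _ (pr i (δ d))
    rw [d1, map_add, map_smul, p3]
  · change pr i (δ _) = 0
    rw [d2, map_zero]
    refine fld_le (L := (s'.fld _).comap j) (fun c => ?_) (fun g _ => ?_) (hG d)
    · change j _ ∈ s'.fld _
      rw [hja]
      exact alg_mem _ c
    · change j _ ∈ s'.fld _
      rw [hjι]
      exact ι_mem (TP.Ex.ext (by simp [sV]) rfl)
  · change pr i (δ _) = 0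
    rw [d2 _ (alg_mem _ c), map_zero]
  · change pr i (δ _) = _
    rw [d4, p1 i _ _ rfl, ι_inv_mul]
  · change pr i (δ _) = 0
    rw [d4, p2 _ _ _ h.symm]

end Pool.Agent.P.MP_0f25e6_al.VT
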