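import Pool.Agent.P.MP_0f25e6_al.VT.Spec

/-!
Dimensions of spaces with a semilinear action are divisible by the index.
-/

set_option autoImplicit false

open MulAction

noncomputable section

namespace Pool.Agent.P.MP_0f25e6_al.VT

universe u

open Sys

namespace PDIV

section Abs

variable {L R E B : Type*} [DivisionRing L] [Ring R] [AddCommGroup E] [Module L E] [Group B]
  (j : L →+* R) (ι : B →* R) (σ : B →* AddMonoid.End E) {N : ℕ} (b : Fin N → B)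

/-- A monomial of the crossed product together with its action. -/
def gen (κ : L) (c : B) : R × AddMonoid.End E := (j κ * ι c, Module.toAddMonoidEnd L E κ * σ c)

/-- Sums of monomials at the representatives. -/
def Φ : (Fin N → L) →+ R × AddMonoid.End E :=
  AddMonoidHom.mk' (fun l => ∑ a, gen j ι σ (l a) (b a)) fun l l' => by
    simp only [gen, Pi.add_apply, map_add, add_mul, ← Prod.mk_add_mk, Finset.sum_add_distrib]

theorem Φ_fst (l : Fin N → L) : (Φ j ι σ b l).1 = ∑ a, j (l a) * ι (b a) := Prod.fst_sum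

theorem Φ_snd (l : Fin N → L) (v : E) : (Φ j ι σ b l).2 v = ∑ a, l a • σ (b a) v := by
  have : (Φ j ι σ b l).2 = ∑ a, Module.toAddMonoidEnd L E (l a) * σ (b a) := Prod.snd_sum
  rw [this]
  exact AddMonoidHom.finsetSum_apply _ _ _

variable {j ι σ b}

theorem gen_mem (h2 : ∀ c, ∃ a κ, ι c = j κ * ι (b a) ∧ ∀ v, σ c v = κ • σ (b a) v) (κ : L)
    (c : B) : gen j ι σ κ c ∈ (Φ j ι σ b).range := by
  obtain ⟨a, κ', e1, e2⟩ := h2 c
  refine ⟨Pi.single a (κ * κ'), ?_⟩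
  change ∑ a', gen j ι σ ((Pi.single a (κ * κ') : Fin N → L) a') (b a') = _
  refine (Finset.sum_eq_single a (fun a' _ h => ?_) (by simp)).trans ?_
  · simp [gen, Pi.single_eq_of_ne h]
  · rw [Pi.single_eq_same, gen, gen, e1, map_mul, mul_assoc]
    exact Prod.ext rfl (AddMonoidHom.ext fun v => (mul_smul κ κ' _).trans
      (congrArg (κ • ·) (e2 v).symm))

theorem mul_mem' (h1 : ∀ c κ, ∃ κ', ι c * j κ = j κ' * ι c ∧ ∀ v, σ c (κ • v) = κ' • σ c v)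
    (h2 : ∀ c, ∃ a κ, ι c = j κ * ι (b a) ∧ ∀ v, σ c v = κ • σ (b a) v)
    {p q : R × AddMonoid.End E} (hp : p ∈ (Φ j ι σ b).range) (hq : q ∈ (Φ j ι σ b).range) :
    p * q ∈ (Φ j ι σ b).range := by
  obtain ⟨l, rfl⟩ := hp
  obtain ⟨l', rfl⟩ := hq
  change (∑ a, gen j ι σ (l a) (b a)) * (∑ a, gen j ι σ (l' a) (b a)) ∈ _
  rw [Finset.sum_mul_sum]
  refine sum_mem fun a _ => sum_mem fun a' _ => ?_
  obtain ⟨κ, e1, e2⟩ := h1 (b a) (l' a')
  have : gen j ι σ (l a) (b a) * gen j ι σ (l' a') (b a') = gen j ι σ (l a * κ) (b a * b a') := by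
    refine Prod.ext ?_ (AddMonoidHom.ext fun v => ?_)
    · change j _ * ι _ * (j _ * ι _) = j _ * ι _
      rw [map_mul, map_mul, mul_assoc, ← mul_assoc (ι _), e1, mul_assoc, mul_assoc]
    · change l a • σ (b a) (l' a' • σ (b a') v) = (l a * κ) • σ (b a * b a') v
      rw [e2, map_mul, mul_smul]
      rfl
  rw [this]
  exact gen_mem h2 _ _

theorem inv_act (h1 : ∀ c κ, ∃ κ', ι c * j κ = j κ' * ι c ∧ ∀ v, σ c (κ • v) = κ' • σ c v)
    (h2 : ∀ c, ∃ a κ, ι c = j κ * ι (b a) ∧ ∀ v, σ c v = κ • σ (b a) v)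
    (h3 : ∀ l : Fin N → L, ∑ a, j (l a) * ι (b a) = 0 → l = 0) {l : Fin N → L}
    (h4 : IsUnit (Φ j ι σ b l).1) : ∃ l', ∀ v, (Φ j ι σ b l').2 ((Φ j ι σ b l).2 v) = v := by
  let _ : Module L R := Module.compHom R j
  let Ψ : (Fin N → L) →ₗ[L] R := Fintype.linearCombination L fun a => ι (b a)
  have hΨ : ∀ l, Ψ l = (Φ j ι σ b l).1 := fun l => (Φ_fst j ι σ b l).symm
  let f : R →ₗ[L] R :=
    { toFun := fun y => y * (Φ j ι σ b l).1
      map_add' := fun _ _ => add_mul _ _ _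
      map_smul' := fun _ _ => mul_assoc _ _ _ }
  have hf : ∀ y ∈ LinearMap.range Ψ, f y ∈ LinearMap.range Ψ := by
    rintro _ ⟨l', rfl⟩
    obtain ⟨l'', e⟩ := mul_mem' h1 h2 ⟨l', rfl⟩ ⟨l, rfl⟩
    exact ⟨l'', by rw [hΨ, hΨ, e]; rfl⟩
  have one : (1 : R × AddMonoid.End E) ∈ (Φ j ι σ b).range := by
    simpa [gen, Prod.mk_one_one] using gen_mem h2 1 1
  obtain ⟨l₁, e₁⟩ := one
  obtain ⟨⟨_, l', rfl⟩, e⟩ := LinearMap.surjective_of_injective (f := f.restrict hf)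
    (fun x y e => Subtype.ext (h4.mul_left_injective (congrArg Subtype.val e)))
    ⟨1, l₁, by rw [hΨ, e₁]; rfl⟩
  have e' : (Φ j ι σ b l').1 * (Φ j ι σ b l).1 = 1 := hΨ l' ▸ congrArg Subtype.val e
  obtain ⟨l₂, e₂⟩ := mul_mem' h1 h2 ⟨l', rfl⟩ ⟨l, rfl⟩
  have e₃ : l₂ - l₁ = 0 := h3 _ (by
    rw [← Φ_fst j ι σ, map_sub, e₁, e₂, Prod.fst_sub, Prod.fst_mul, e', Prod.fst_one, sub_self])
  rw [sub_eq_zero.1 e₃, e₁] at e₂
  exact ⟨l', fun v => (DFunLike.congr_fun (congrArg Prod.snd e₂) v).symm⟩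

theorem abs [Module.Finite L E] (hN : N ≠ 0)
    (h1 : ∀ c κ, ∃ κ', ι c * j κ = j κ' * ι c ∧ ∀ v, σ c (κ • v) = κ' • σ c v)
    (h2 : ∀ c, ∃ a κ, ι c = j κ * ι (b a) ∧ ∀ v, σ c v = κ • σ (b a) v)
    (h3 : ∀ l : Fin N → L, ∑ a, j (l a) * ι (b a) = 0 → l = 0)
    (h4 : ∀ l : Fin N → L, l ≠ 0 → IsUnit (∑ a, j (l a) * ι (b a))) :
    N ∣ Module.finrank L E := by
  suffices H : ∀ n, ∀ U : Submodule L E, (∀ c, ∀ v ∈ U, σ c v ∈ U) →
      Module.finrank L E = Module.finrank L U + n → N ∣ n from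
    H _ ⊥ (fun c v hv => by rw [(Submodule.mem_bot L).1 hv, map_zero]; exact zero_mem _) (by simp)
  intro n
  induction n using Nat.strong_induction_on with
  | _ n ih =>
  intro U hU hn
  by_cases ht : U = ⊤
  · rw [ht, finrank_top] at hn
    rw [show n = 0 by omega]
    exact dvd_zero _
  obtain ⟨v, hv⟩ : ∃ v, v ∉ U := not_forall.1 fun h => ht (Submodule.eq_top_iff'.2 h)
  let ρ : (Fin N → L) →ₗ[L] E := Fintype.linearCombination L fun a => σ (b a) v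
  have hρ : ∀ l, ρ l = (Φ j ι σ b l).2 v := fun l => (Φ_snd j ι σ b l v).symm
  have k1 : ∀ l, ρ l ∈ U → l = 0 := fun l hl => by
    by_contra h0
    obtain ⟨l', e⟩ := inv_act h1 h2 h3 (l := l) (by rw [Φ_fst]; exact h4 l h0)
    refine hv ?_
    rw [← e v, ← hρ, Φ_snd]
    exact sum_mem fun a _ => U.smul_mem _ (hU _ _ hl)
  have k2 : Module.finrank L (LinearMap.range ρ) = N := by
    rw [LinearMap.finrank_range_of_inj ((injective_iff_map_eq_zero ρ).2 fun l hl =>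
      k1 l (hl ▸ zero_mem _)), Module.finrank_fin_fun]
  have k3 : U ⊓ LinearMap.range ρ = ⊥ := (Submodule.eq_bot_iff _).2 (by
    rintro _ ⟨h, l, rfl⟩
    rw [k1 l h, map_zero])
  have k4 := Submodule.finrank_sup_add_finrank_inf_eq U (LinearMap.range ρ)
  have k5 := Submodule.finrank_le (U ⊔ LinearMap.range ρ)
  rw [k3, finrank_bot, k2] at k4
  have k6 := ih (n - N) (by omega) (U ⊔ LinearMap.range ρ) (fun c x hx => by
    obtain ⟨y, hy, _, ⟨l, rfl⟩, rfl⟩ := Submodule.mem_sup.1 hx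
    obtain ⟨l', e⟩ := mul_mem' h1 h2 (gen_mem h2 1 c) ⟨l, rfl⟩
    rw [map_add]
    refine Submodule.add_mem_sup (hU c y hy) ⟨l', ?_⟩
    rw [hρ, hρ, e]
    exact one_smul L _) (by omega)
  rw [show n = N + (n - N) by omega]
  exact dvd_add dvd_rfl k6

end Abs

theorem reps {G : Type u} [Group G] (H B : Subgroup G) [H.Normal] [H.FiniteIndex] :
    ∃ b : Fin (H.relIndex B) → B, (∀ a a', (b a : G) * (b a' : G)⁻¹ ∈ H → a = a') ∧
      ∀ c : B, ∃ a, (c : G) * (b a : G)⁻¹ ∈ H := by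
  let e : B ⧸ H.subgroupOf B ≃ Fin (H.relIndex B) := Finite.equivFin _
  have h : ∀ x y : B, (x : G) * (y : G)⁻¹ ∈ H ↔ (x : B ⧸ H.subgroupOf B) = y := fun x y => by
    rw [QuotientGroup.eq_iff_div_mem, Subgroup.mem_subgroupOf, div_eq_mul_inv]
    rfl
  refine ⟨fun a => (e.symm a).out, fun a a' h' => ?_, fun c => ⟨e c, ?_⟩⟩
  · simpa using (h _ _).1 h'
  · rw [h]
    simp

end PDIV

open PDIV

theorem p_div : S_DIV.{u} := by
  intro s G _ inc 𝒢 B hn hf hz E _ _ _ σ s1 s2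
  obtain ⟨b, b1, b2⟩ := reps inc.range B
  have hα : ∀ c : B, s.fld (B.comap inc) ≤ (s.fld (B.comap inc)).comap (𝒢.α c).toRingHom :=
    fun c => fld_le (fun z => by
      change 𝒢.α c _ ∈ s.fld _
      rw [𝒢.α_alg]
      exact alg_mem _ z) fun g hg => by
      obtain ⟨h, e⟩ := hn.conj_mem _ ⟨g, rfl⟩ c
      change 𝒢.α c _ ∈ s.fld _
      rw [𝒢.α_ι c g h e]
      refine ι_mem ?_
      rw [Subgroup.mem_comap, e]
      exact mul_mem (mul_mem c.2 hg) (inv_mem c.2)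
  have h3 : ∀ l : Fin (inc.range.relIndex B) → s.fld (B.comap inc),
      ∑ a, 𝒢.jR (l a) * 𝒢.ιG (b a) = 0 → l = 0 := fun l hl =>
    funext fun a => Subtype.ext (𝒢.indep _ (fun a => l a) (fun a => b a) b1 hl a)
  refine PDIV.abs (j := 𝒢.jR.comp (s.fld (B.comap inc)).subtype) (ι := 𝒢.ιG.comp B.subtype)
    (σ := σ) (b := b) Subgroup.FiniteIndex.index_ne_zero
    (fun c κ => ⟨⟨𝒢.α c κ, hα c κ.2⟩, 𝒢.conj c κ, fun v => s1 c κ _ v rfl⟩) (fun c => ?_) h3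
    fun l hl => hz _ (sum_mem fun a _ => AddSubgroup.subset_closure
      ⟨l a, (l a).2, b a, (b a).2, rfl⟩) fun e => hl (h3 l e)
  obtain ⟨a, h, e⟩ := b2 c
  have hB : h ∈ B.comap inc := by
    rw [Subgroup.mem_comap, e]
    exact mul_mem c.2 (inv_mem (b a).2)
  refine ⟨a, ⟨s.ι h, ι_mem hB⟩, ?_, fun v => ?_⟩
  · change 𝒢.ιG c = 𝒢.jR (s.ι h) * 𝒢.ιG (b a)
    rw [𝒢.jι, e, ← map_mul, inv_mul_cancel_right]
  · rw [← s2 (c * (b a)⁻¹) h _ _ e rfl]
    change _ = (σ _ * σ _) v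
    rw [← map_mul, inv_mul_cancel_right]

end Pool.Agent.P.MP_0f25e6_al.VT
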