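import Pool.Agent.P.MP_0f25e6_al.VT.Spec

/-!
One step of the Euler characteristic formula.
-/

set_option autoImplicit false

open MulAction

noncomputable section

namespace Pool.Agent.P.MP_0f25e6_al.VT

universe u

open Sys

namespace Euler

variable {s : Sys.{u}} {V W I : Type u} [AddCommGroup V] [Module s.D V] [MulAction s.Γ W]

/-- The family attached to a set `Y` over `W`. -/
def BB (𝓕 : s.Fam V W) (c : I → W) {Y : Type u} [MulAction s.Γ Y] (i : Y → W) (S : Finset I) :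
    AddSubgroup (s.Ten Y V) :=
  s.T ⊤ (fun y => 𝓕.F (i y)) ⊓ ⨆ j ∈ S, s.T (stabilizer s.Γ (c j)) fun _ : Y => 𝓕.F (c j)

theorem stab_le (c : I → W) (j : I) : stabilizer s.Γ c ≤ stabilizer s.Γ (c j) :=
  fun _ hg => congrFun hg j

theorem BB_mono (𝓕 : s.Fam V W) (c : I → W) {Y : Type u} [MulAction s.Γ Y] (i : Y → W) :
    Monotone (BB 𝓕 c i) := fun _ _ h => inf_le_inf_left _ (biSup_monotone _ h)

theorem BB_stab (𝓕 : s.Fam V W) (c : I → W) {Y : Type u} [MulAction s.Γ Y] (i : Y → W)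
    (S : Finset I) : Stab (s.fld (stabilizer s.Γ c)) (BB 𝓕 c i S) :=
  ((stab_T ⊤ _).mono (fld_mono le_top)).inf
    (stab_biSup fun j _ => (stab_T _ _).mono (fld_mono (stab_le c j)))

theorem congr_fld [DecidableEq I] {A A' : Subgroup s.Γ} (h : A = A')
    (G : Finset I → AddSubgroup V) :
    (Tame (spF (s.fld A) G) ↔ Tame (spF (s.fld A') G)) ∧
      (Acyc (spF (s.fld A) G) ↔ Acyc (spF (s.fld A') G)) ∧
      chi (spF (s.fld A) G) = chi (spF (s.fld A') G) := by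
  subst h
  exact ⟨Iff.rfl, Iff.rfl, rfl⟩

theorem stab_eq {Y : Type u} [MulAction s.Γ Y] (i : Y → W)
    (hi : ∀ (g : s.Γ) y, i (g • y) = g • i y) (hinj : Function.Injective i) (c : I → W) (y : Y) :
    stabilizer s.Γ c ⊓ stabilizer s.Γ y = stabilizer s.Γ (i y, c) := by
  rw [stab_prod, inf_comm]
  congr 1
  ext g
  rw [mem_stabilizer_iff, mem_stabilizer_iff, ← hi, hinj.eq_iff]

/-- The pulled back family. -/
def pull (𝓕 : s.Fam V W) {Y : Type u} [MulAction s.Γ Y] (i : Y → W)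
    (hi : ∀ (g : s.Γ) y, i (g • y) = g • i y) : s.Fam0 V Y where
  F y := 𝓕.F (i y)
  stab y := (𝓕.stab (i y)).mono (fld_mono fun g hg => by
    rw [mem_stabilizer_iff] at hg ⊢
    rw [← hi, hg])
  eqv g y v hv := by
    rw [hi]
    exact 𝓕.eqv g (i y) v hv

theorem indData (𝓕 : s.Fam V W) {Y : Type u} [MulAction s.Γ Y] (i : Y → W)
    (hi : ∀ (g : s.Γ) y, i (g • y) = g • i y) (hinj : Function.Injective i) (c : I → W) :
    IndData s (stabilizer s.Γ c) fun (y : Y) (S : Finset I) => 𝓕.F (i y) ⊓ 𝓕.sum c S where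
  mono _ := fun _ _ h => inf_le_inf_left _ (𝓕.sum_mono c h)
  stab y S := by
    rw [stab_eq i hi hinj]
    exact 𝓕.stab_inf_sum (i y, c) S
  eqv g hg y S v hv := by
    refine ⟨?_, ?_⟩
    · rw [hi]
      exact 𝓕.eqv g (i y) v hv.1
    · have h := 𝓕.smul_mem_sum g c S hv.2
      rwa [mem_stabilizer_iff.1 hg] at h

theorem cof_pull (hOS : S_OS.{u}) {Y : Type u} [MulAction s.Γ Y] (i : Y → W)
    (hi : ∀ (g : s.Γ) y, i (g • y) = g • i y) (hinj : Function.Injective i) (c : I → W)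
    {Q : W × (I → W) → Prop} (hQ : CofOrb s.Γ Q) :
    CofOrb (stabilizer s.Γ c) fun y => Q (i y, c) := by
  classical
  obtain ⟨t, ht⟩ := hQ
  let φ : (I → W) × Y → W × (I → W) := fun q => (i q.2, q.1)
  have hφ : Function.Injective φ := fun q q' h =>
    Prod.ext (congrArg Prod.snd h) (hinj (congrArg Prod.fst h))
  have hφs : ∀ (g : s.Γ) q, φ (g • q) = g • φ q := fun g q => Prod.ext (hi g q.2) rfl
  have h1 : CofOrb s.Γ fun q => ∃ g : s.Γ, g • φ q ∈ t :=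
    ⟨t.preimage φ hφ.injOn, fun q ⟨g, hg⟩ => ⟨g, Finset.mem_preimage.2 (by rwa [hφs])⟩⟩
  obtain ⟨t', ht'⟩ := hOS.2.2.2.2 s.Γ (I → W) Y (fun q => ∃ g : s.Γ, g • φ q ∈ t) c
    (fun g q ⟨a, ha⟩ => ⟨a * g⁻¹, by rwa [hφs, mul_smul, inv_smul_smul]⟩) h1
  exact ⟨t', fun y hy => ht' y (ht _ hy)⟩

theorem qiso (h1 : S_IND1.{u}) (hS : ∀ n, SPL.{u} n) (hs : s.Good) [Fintype I]
    [DecidableEq I] (𝓕 : s.Fam V W) {Y : Type u} [MulAction s.Γ Y] (i : Y → W)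
    (hi : ∀ (g : s.Γ) y, i (g • y) = g • i y) (c : I → W) :
    QIso (spF (s.fld (stabilizer s.Γ c)) fun S =>
      s.T (stabilizer s.Γ c) fun y => 𝓕.F (i y) ⊓ 𝓕.sum c S)
      (spF (s.fld (stabilizer s.Γ c)) (BB 𝓕 c i)) := by
  have h : ∀ A : Subgroup s.Γ, A = ⨅ j, stabilizer s.Γ (c j) →
      QIso (spF (s.fld A) fun S => s.T A fun y => 𝓕.F (i y) ⊓ 𝓕.sum c S)
        (spF (s.fld A) (BB 𝓕 c i)) := by
    rintro A rfl
    exact h1 s V Y I (fun j => stabilizer s.Γ (c j)) (pull 𝓕 i hi) (fun j => 𝓕.F (c j)) hs.gen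
      (hS {j | stabilizer s.Γ (c j) ≠ ⊤}.ncard s hs Y I (fun j => stabilizer s.Γ (c j)) le_rfl)
      fun j => 𝓕.stab (c j)
  exact h _ (stab_pi c)

theorem congr_Bp [DecidableEq I] (𝓕 : s.Fam V W) {Y : Type u} [MulAction s.Γ Y] (i : Y → W)
    (hi : ∀ (g : s.Γ) y, i (g • y) = g • i y) (hinj : Function.Injective i) (c : I → W) (y : Y) :
    (Tame (spF (s.fld (stabilizer s.Γ c ⊓ stabilizer s.Γ y)) fun S => 𝓕.F (i y) ⊓ 𝓕.sum c S) ↔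
      Tame (𝓕.Bp (i y, c))) ∧
    (Acyc (spF (s.fld (stabilizer s.Γ c ⊓ stabilizer s.Γ y)) fun S => 𝓕.F (i y) ⊓ 𝓕.sum c S) ↔
      Acyc (𝓕.Bp (i y, c))) ∧
    chi (spF (s.fld (stabilizer s.Γ c ⊓ stabilizer s.Γ y)) fun S => 𝓕.F (i y) ⊓ 𝓕.sum c S) =
      chi (𝓕.Bp (i y, c)) :=
  congr_fld (stab_eq i hi hinj c y) fun S => 𝓕.F (i y) ⊓ 𝓕.sum c S

theorem key (h1 : S_IND1.{u}) (h2 : S_IND2.{u}) (hQ : S_QIP.{u}) (hOS : S_OS.{u})
    (hF : ∀ n, FINP.{u} n) (hS : ∀ n, SPL.{u} n) (hs : s.Good) [Module.Finite s.D V] [Fintype I]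
    [DecidableEq I] [Nonempty I] (𝓕 : s.Fam V W) {Y : Type u} [MulAction s.Γ Y] (i : Y → W)
    (hi : ∀ (g : s.Γ) y, i (g • y) = g • i y) (hinj : Function.Injective i) (c : I → W) :
    Tame (spF (s.fld (stabilizer s.Γ c)) (BB 𝓕 c i)) ∧
      chi (spF (s.fld (stabilizer s.Γ c)) (BB 𝓕 c i)) =
        osz (stabilizer s.Γ c) fun y => chi (𝓕.Bp (i y, c)) := by
  have m1 : Monotone fun S => s.T (stabilizer s.Γ c) fun y => 𝓕.F (i y) ⊓ 𝓕.sum c S :=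
    fun _ _ h => T_mono le_rfl fun _ => inf_le_inf_left _ (𝓕.sum_mono c h)
  obtain ⟨a1, -, a3, -⟩ := hQ _ _ _ _ _ (spF_mono _ m1) (spF_mono _ (BB_mono 𝓕 c i))
    (qiso h1 hS hs 𝓕 i hi c)
  obtain ⟨b1, -, b3⟩ := h2 s V Y I (stabilizer s.Γ c) _ hs.ldc (indData 𝓕 i hi hinj c)
  obtain ⟨f1, f2⟩ := hF (𝓕.act c) s hs V W 𝓕 I
  obtain ⟨t, ht⟩ := cof_pull hOS i hi hinj c f2
  have hT := b1.2 ⟨fun y => (congr_Bp 𝓕 i hi hinj c y).1.2 (f1 (i y, c) le_rfl),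
    t, fun y hy => ht y ⟨le_rfl, fun h => hy ((congr_Bp 𝓕 i hi hinj c y).2.1.2 h)⟩⟩
  refine ⟨a1.1 hT, ?_⟩
  rw [← a3, b3 hT]
  exact congrArg (osz (stabilizer s.Γ c)) (funext fun y => (congr_Bp 𝓕 i hi hinj c y).2.2)

section Tree

variable {Vt E : Type u} [MulAction s.Γ Vt] [MulAction s.Γ E] (Tr : HN.TreeData s.Γ Vt E)

theorem bd_mem {A : Subgroup s.Γ} {Z : E → AddSubgroup V} {Z' : Vt → AddSubgroup V}
    (h : ∀ e, Z e ≤ Z' (Tr.o e) ⊓ Z' (Tr.t e)) {x : s.Ten E V} (hx : x ∈ s.T A Z) :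
    bd V Tr x ∈ s.T A Z' :=
  T_le (M := (s.T A Z').comap (bd V Tr).toAddMonoidHom) (fun d hd e z hz => by
    change bd V Tr (d • s.t e z) ∈ s.T A Z'
    rw [map_smul, bd_t, smul_sub]
    exact sub_mem (mem_T hd (h e hz).2) (mem_T hd (h e hz).1)) hx

theorem mu_bd (x : s.Ten E V) : s.mu Vt V (bd V Tr x) = 0 := by
  have h : (s.mu Vt V).comp (bd V Tr) = 0 := Ten.ext_lin fun e v => by simp
  exact LinearMap.congr_fun h x

theorem mu_mem {A : Subgroup s.Γ} {P : AddSubgroup V} (hP : Stab (s.fld A) P) {x : s.Ten Vt V}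
    (hx : x ∈ s.T A fun _ : Vt => P) : s.mu Vt V x ∈ P :=
  T_le (M := P.comap (s.mu Vt V).toAddMonoidHom) (fun d hd w z hz => by
    change s.mu Vt V (d • s.t w z) ∈ P
    rw [map_smul, mu_t]
    exact hP d hd z hz) hx

theorem cl_sum (h0 : S_CL0.{u}) (A : I → Subgroup s.Γ) (P : I → AddSubgroup V)
    (hP : ∀ j, Stab (s.fld (A j)) (P j)) (v₀ : Vt) (S : Finset I) {x : s.Ten Vt V}
    (hx : x ∈ ⨆ j ∈ S, s.T (A j) fun _ : Vt => P j) :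
    ∃ η ∈ ⨆ j ∈ S, s.T (A j) fun _ : E => P j, bd V Tr η = x - s.t v₀ (s.mu Vt V x) := by
  let ψ : s.Ten Vt V →+ s.Ten Vt V :=
    AddMonoidHom.id _ - (s.t v₀).comp (s.mu Vt V).toAddMonoidHom
  have h : (⨆ j ∈ S, s.T (A j) fun _ : Vt => P j) ≤
      ((⨆ j ∈ S, s.T (A j) fun _ : E => P j).map (bd V Tr).toAddMonoidHom).comap ψ :=
    iSup₂_le fun j hj ε hε => by
      obtain ⟨η, hη, e⟩ := h0 s V Vt E Tr (A j) (P j) v₀ (hP j) ε hε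
      exact ⟨η, (le_iSup₂_of_le (f := fun j (_ : j ∈ S) => s.T (A j) fun _ : E => P j) j hj
        le_rfl : _ ≤ ⨆ j ∈ S, s.T (A j) fun _ : E => P j) hη, e⟩
  exact h hx

end Tree

theorem onto (𝓕 : s.Fam V W) (𝒞 : Cells 𝓕 I) (k : I) (c : I → W) (S : Finset I) {y : V}
    (hy : y ∈ 𝓕.sum c S) : ∃ x ∈ BB 𝓕 c (𝒞.iv k) S, s.mu _ V x = y := by
  have h : 𝓕.sum c S ≤ (BB 𝓕 c (𝒞.iv k) S).map (s.mu _ V).toAddMonoidHom :=
    iSup₂_le fun j hj z hz => by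
      have h3 := 𝒞.t3 k (c j) z hz
      have h4 : ∃ x ∈ s.T ⊤ (fun v => 𝓕.F (𝒞.iv k v)) ⊓
          s.T (stabilizer s.Γ (c j)) fun _ : 𝒞.Vt k => 𝓕.F (c j), s.mu _ V x = z := by
        clear hz
        induction h3 using Submodule.span_induction with
        | mem z hz =>
          obtain ⟨hz, v, hv⟩ := hz
          exact ⟨(1 : s.D) • s.t v z, ⟨mem_T (one_mem _) hv, mem_T (one_mem _) hz⟩, by simp⟩
        | zero => exact ⟨0, zero_mem _, map_zero _⟩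
        | add a b _ _ ha hb =>
          obtain ⟨x, hx, rfl⟩ := ha
          obtain ⟨x', hx', rfl⟩ := hb
          exact ⟨x + x', add_mem hx hx', map_add _ _ _⟩
        | smul a b _ hb =>
          obtain ⟨x, hx, rfl⟩ := hb
          exact ⟨(a : s.D) • x, ⟨smul_mem_T (fld_mono le_top a.2) hx.1, smul_mem_T a.2 hx.2⟩,
            map_smul _ _ _⟩
      obtain ⟨x, hx, e⟩ := h4
      exact ⟨x, ⟨hx.1, (le_iSup₂_of_le (f := fun j (_ : j ∈ S) =>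
        s.T (stabilizer s.Γ (c j)) fun _ : 𝒞.Vt k => 𝓕.F (c j)) j hj le_rfl :
          _ ≤ ⨆ j ∈ S, s.T (stabilizer s.Γ (c j)) fun _ : 𝒞.Vt k => 𝓕.F (c j)) hx.2⟩, e⟩
  exact h hy

theorem ses (h0 : S_CL0.{u}) (𝓕 : s.Fam V W) (𝒞 : Cells 𝓕 I) (k : I) (c : I → W) :
    Ses ((bd V (𝒞.Tr k)).restrictScalars (s.fld (stabilizer s.Γ c)))
      ((s.mu (𝒞.Vt k) V).restrictScalars (s.fld (stabilizer s.Γ c)))
      (spF _ (BB 𝓕 c (𝒞.ie k))) (spF _ (BB 𝓕 c (𝒞.iv k))) (𝓕.Bc c) := by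
  refine ⟨spF_mono _ (BB_mono 𝓕 c _), spF_mono _ (BB_mono 𝓕 c _), spF_mono _ (𝓕.sum_mono c),
    fun S _ => ?_⟩
  simp only [mem_spF (BB_stab 𝓕 c _ S), mem_spF (𝓕.stab_sum c S), LinearMap.restrictScalars_apply]
  refine ⟨fun x _ h => 𝒞.inj k (by rw [h, map_zero]), fun x hx => ⟨⟨bd_mem _ (𝒞.t1 k) hx.1, ?_⟩,
    mu_bd _ x⟩, fun x hx h => ?_, fun x hx => ?_, fun y hy => onto 𝓕 𝒞 k c S hy⟩
  · exact (iSup₂_le (a := (⨆ j ∈ S, s.T (stabilizer s.Γ (c j)) fun _ : 𝒞.Vt k =>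
      𝓕.F (c j)).comap (bd V (𝒞.Tr k)).toAddMonoidHom) fun j hj z hz =>
        (le_iSup₂_of_le (f := fun j (_ : j ∈ S) =>
          s.T (stabilizer s.Γ (c j)) fun _ : 𝒞.Vt k => 𝓕.F (c j)) j hj le_rfl :
          _ ≤ ⨆ j ∈ S, s.T (stabilizer s.Γ (c j)) fun _ : 𝒞.Vt k => 𝓕.F (c j))
          (bd_mem _ (fun _ => le_inf le_rfl le_rfl) hz)) hx.2
  · obtain ⟨ζ, hζ, e⟩ := 𝒞.t2 k x hx.1 h
    obtain ⟨v₀⟩ := (𝒞.Tr k).ne
    obtain ⟨η, hη, e'⟩ := cl_sum (𝒞.Tr k) h0 _ _ (fun j => 𝓕.stab (c j)) v₀ S hx.2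
    rw [h, map_zero, sub_zero] at e'
    have : ζ = η := 𝒞.inj k (e.trans e'.symm)
    exact ⟨ζ, ⟨hζ, this ▸ hη⟩, e⟩
  · exact (iSup₂_le (a := (𝓕.sum c S).comap (s.mu (𝒞.Vt k) V).toAddMonoidHom) fun j hj z hz =>
      (le_iSup₂_of_le (f := fun j (_ : j ∈ S) => 𝓕.F (c j)) j hj le_rfl : _ ≤ 𝓕.sum c S)
        (mu_mem (𝓕.stab (c j)) hz)) hx.2

end Euler

open Euler in
theorem p_euler (h1 : S_IND1.{u}) (h2 : S_IND2.{u}) (hb : S_SESb.{u}) (h0 : S_CL0.{u})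
    (hQ : S_QIP.{u}) (hC : S_QC.{u}) (hOS : S_OS.{u}) : S_EULER.{u} := by
  intro hN hF hS s hs V W I _ _ _ _ _ _ _ 𝓕 𝒞 k c hc
  obtain ⟨a1, a2⟩ := key h1 h2 hQ hOS hF hS hs 𝓕 (𝒞.iv k) (𝒞.iv_smul k) (𝒞.iv_inj k) c
  obtain ⟨b1, b2⟩ := key h1 h2 hQ hOS hF hS hs 𝓕 (𝒞.ie k) (𝒞.ie_smul k) (𝒞.ie_inj k) c
  have h := hb _ _ _ _ _ _ _ _ _ _ (ses h0 𝓕 𝒞 k c) b1 a1
    ((hN (𝓕.act c) s hs V W 𝓕 I).1 c le_rfl)
  have e : ∀ w, chi (𝓕.Bc (Function.update c k w)) = chi (𝓕.Bp (w, c)) := fun w =>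
    ((hC s V W I 𝓕).1 k c w hc).2.2
  simp only [e]
  rw [← a2, ← b2, h]
  ring

end Pool.Agent.P.MP_0f25e6_al.VT
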