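import Pool.Agent.P.MP_0f25e6_al.VT.Spec

/-!
The family of subspaces attached to a presentation and a finite family of trees.
-/

set_option autoImplicit false

open MulAction

noncomputable section

namespace Pool.Agent.P.MP_0f25e6_al.VT

universe u

open Sys

namespace PFAM

section Tree

variable {G : Type u} [Group G] (P : PT G)

/-- A finite subforest that is connected in each tree. -/
theorem exists_B (c₀ : P.I → P.Vt) (hc : ∀ i, P.π (c₀ i) = i) {U : Set P.Vt} (hU : U.Finite) :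
    ∃ (BV : Set P.Vt) (BE : Set P.Ed), (BV.Finite ∧ BE.Finite ∧
      (∀ e ∈ BE, P.o e ∈ BV ∧ P.t e ∈ BV) ∧
      ∀ S : Set P.Vt, (∀ e ∈ BE, P.o e ∈ S ↔ P.t e ∈ S) → ∀ v ∈ BV, c₀ (P.π v) ∈ S → v ∈ S) ∧
      U ⊆ BV := by
  let Good : Set P.Vt → Set P.Ed → Prop := fun BV BE => BV.Finite ∧ BE.Finite ∧
      (∀ e ∈ BE, P.o e ∈ BV ∧ P.t e ∈ BV) ∧
      ∀ S : Set P.Vt, (∀ e ∈ BE, P.o e ∈ S ↔ P.t e ∈ S) → ∀ v ∈ BV, c₀ (P.π v) ∈ S → v ∈ S
  have grow : ∀ BV BE e, Good BV BE → (P.o e ∈ BV ∨ P.t e ∈ BV) →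
      Good (BV ∪ {P.o e, P.t e}) (insert e BE) := by
    rintro BV BE e ⟨h1, h2, h4, h5⟩ he
    refine ⟨h1.union (Set.toFinite _), h2.insert e, ?_, ?_⟩
    · rintro e' (rfl | he')
      · exact ⟨Or.inr (by simp), Or.inr (by simp)⟩
      · exact ⟨Or.inl (h4 e' he').1, Or.inl (h4 e' he').2⟩
    · intro S hS v hv
      have h6 := h5 S fun e' he' => hS e' (Or.inr he')
      have h7 := hS e (Or.inl rfl)
      have h8 : c₀ (P.π (P.o e)) ∈ S → P.o e ∈ S := fun h =>
        he.elim (fun k => h6 _ k h) fun k => h7.2 (h6 _ k (by rwa [P.π_t]))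
      rcases hv with hv | rfl | rfl
      · exact h6 v hv
      · exact h8
      · exact fun h => h7.1 (h8 (by rwa [P.π_t] at h))
  have all : ∀ w, ∃ BV BE, Good BV BE ∧ w ∈ BV := fun w => by
    refine P.conn {w | ∃ BV BE, Good BV BE ∧ w ∈ BV} (fun e => ⟨?_, ?_⟩) (c₀ (P.π w))
      ⟨{c₀ (P.π w)}, ∅, ⟨Set.finite_singleton _, Set.finite_empty, fun _ h => h.elim, ?_⟩, rfl⟩
      w (hc _).symm
    · rintro ⟨BV, BE, h, he⟩
      exact ⟨_, _, grow BV BE e h (Or.inl he), Or.inr (by simp)⟩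
    · rintro ⟨BV, BE, h, he⟩
      exact ⟨_, _, grow BV BE e h (Or.inr he), Or.inr (by simp)⟩
    · rintro S - v rfl h
      rwa [hc] at h
  induction U, hU using Set.Finite.induction_on with
  | empty =>
    exact ⟨∅, ∅, ⟨Set.finite_empty, Set.finite_empty, fun _ h => h.elim, fun _ _ _ h => h.elim⟩,
      subset_rfl⟩
  | @insert w U _ _ ih =>
    obtain ⟨BV, BE, ⟨h1, h2, h4, h5⟩, hU⟩ := ih
    obtain ⟨V₁, E₁, ⟨k1, k2, k4, k5⟩, hw⟩ := all w
    refine ⟨BV ∪ V₁, BE ∪ E₁, ⟨h1.union k1, h2.union k2, ?_, ?_⟩, ?_⟩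
    · rintro e (he | he)
      · exact ⟨Or.inl (h4 e he).1, Or.inl (h4 e he).2⟩
      · exact ⟨Or.inr (k4 e he).1, Or.inr (k4 e he).2⟩
    · rintro S hS v (hv | hv)
      · exact h5 S (fun e he => hS e (Or.inl he)) v hv
      · exact k5 S (fun e he => hS e (Or.inr he)) v hv
    · exact Set.insert_subset (Or.inr hw) (hU.trans Set.subset_union_left)

variable {Γ : Type u} [Group Γ] (inc : Γ →* G)

/-- Cells together with a base point. -/
def WW (_ : Γ →* G) : Type u := Option (P.Vt ⊕ P.Ed)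

instance : MulAction G (WW P inc) := inferInstanceAs (MulAction G (Option (P.Vt ⊕ P.Ed)))

instance : MulAction Γ (WW P inc) := MulAction.compHom _ inc

/-- The subgroup fixes every tree. -/
def Fix : Prop := ∀ (h : Γ) (i : P.I), inc h • i = i

/-- a vertex as a cell -/
def wv (v : P.Vt) : WW P inc := some (Sum.inl v)

/-- an edge as a cell -/
def we (e : P.Ed) : WW P inc := some (Sum.inr e)

/-- the base point -/
def ws : WW P inc := none

/-- the label of a cell -/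
def lab : WW P inc → Option (P.I × Bool)
  | none => none
  | some (Sum.inl v) => some (P.π v, false)
  | some (Sum.inr e) => some (P.π (P.o e), true)

/-- the finite set of cells -/
def BB (BV : Set P.Vt) (BE : Set P.Ed) : Set (WW P inc) :=
  insert (ws P inc) (wv P inc '' BV ∪ we P inc '' BE)

variable {P inc}

theorem wv_inj : Function.Injective (wv P inc) := fun _ _ h =>
  Sum.inl_injective (Option.some_injective _ h)

theorem we_inj : Function.Injective (we P inc) := fun _ _ h =>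
  Sum.inr_injective (Option.some_injective _ h)

theorem wv_mem {BV : Set P.Vt} {BE : Set P.Ed} {v : P.Vt} : wv P inc v ∈ BB P inc BV BE ↔ v ∈ BV := by
  refine ⟨?_, fun h => Or.inr (Or.inl ⟨v, h, rfl⟩)⟩
  rintro (h | ⟨v', h, e⟩ | ⟨e, -, h⟩)
  · cases h
  · exact wv_inj e ▸ h
  · cases h

theorem we_mem {BV : Set P.Vt} {BE : Set P.Ed} {e : P.Ed} : we P inc e ∈ BB P inc BV BE ↔ e ∈ BE := by
  refine ⟨?_, fun h => Or.inr (Or.inr ⟨e, h, rfl⟩)⟩
  rintro (h | ⟨v, -, h⟩ | ⟨e', h, e⟩)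
  · cases h
  · cases h
  · exact we_inj e ▸ h

/-- The vertices of one tree. -/
def VV (_ : Fix P inc) (i : P.I) : Type u := {v : P.Vt // P.π v = i}

/-- The edges of one tree. -/
def EE (_ : Fix P inc) (i : P.I) : Type u := {e : P.Ed // P.π (P.o e) = i}

variable (hI : Fix P inc) (i : P.I)

instance : MulAction Γ (VV hI i) where
  smul h v := ⟨inc h • v.1, by rw [P.π_smul, v.2, hI]⟩
  one_smul v := Subtype.ext (show inc 1 • v.1 = v.1 by rw [map_one, one_smul])
  mul_smul a b v := Subtype.ext (show inc (a * b) • v.1 = inc a • inc b • v.1 by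
    rw [map_mul, mul_smul])

instance : MulAction Γ (EE hI i) where
  smul h e := ⟨inc h • e.1, by rw [P.o_smul, P.π_smul, e.2, hI]⟩
  one_smul v := Subtype.ext (show inc 1 • v.1 = v.1 by rw [map_one, one_smul])
  mul_smul a b v := Subtype.ext (show inc (a * b) • v.1 = inc a • inc b • v.1 by
    rw [map_mul, mul_smul])

/-- One tree. -/
def tree : HN.TreeData Γ (VV hI i) (EE hI i) where
  o e := ⟨P.o e.1, e.2⟩
  t e := ⟨P.t e.1, (P.π_t _).trans e.2⟩
  o_smul _ _ := Subtype.ext (P.o_smul _ _)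
  t_smul _ _ := Subtype.ext (P.t_smul _ _)
  ne := let ⟨v, h⟩ := P.surj i; ⟨⟨v, h⟩⟩
  conn S hS v hv w := by
    refine P.conn {x | ∀ h : P.π x = i, (⟨x, h⟩ : VV hI i) ∈ S} (fun e => ⟨fun h k => ?_, fun h k => ?_⟩)
      v.1 (fun _ => hv) w.1 (w.2.trans v.2.symm) w.2
    · exact (hS ⟨e, (P.π_t e).symm.trans k⟩).1 (h _)
    · exact (hS ⟨e, k⟩).2 (h _)
  cut e := by
    obtain ⟨S, h1, h2, h3⟩ := P.cut e.1
    exact ⟨{v | v.1 ∈ S}, h1, h2, fun e' h => h3 e'.1 fun k => h (Subtype.ext k)⟩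

end Tree

theorem span_le {D V : Type*} [DivisionRing D] [AddCommGroup V] [Module D V] {L : Subfield D}
    {X : Set V} {Q : AddSubgroup V} (h : X ⊆ Q) (hQ : Stab L Q) {v : V}
    (hv : v ∈ Submodule.span L X) : v ∈ Q := by
  induction hv using Submodule.span_induction with
  | mem x hx => exact h hx
  | zero => exact zero_mem _
  | add x y _ _ hx hy => exact add_mem hx hy
  | smul a x _ hx => exact hQ a a.2 x hx

section Fam

variable {s : Sys.{u}} {V G W : Type u} [AddCommGroup V] [Module s.D V] [Group G]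
  [DistribMulAction G V] [MulAction s.Γ W] [MulAction G W] {inc : s.Γ →* G} {𝒢 : s.GS G inc}
  {n : ℕ} (y : Fin n → V) (B : Set W)

variable (G) in
/-- the generators at a cell -/
def gen (w : W) : Set V := {v | ∃ (g : G) (j : Fin n), g⁻¹ • w ∈ B ∧ v = g • y j}

variable (s G) in
/-- the subspace at a cell -/
def FF (w : W) : AddSubgroup V :=
  (Submodule.span (s.fld (stabilizer s.Γ w)) (gen G y B w)).toAddSubgroup

variable {y B}

theorem gen_mem {w : W} {g : G} (h : g⁻¹ • w ∈ B) (j : Fin n) : g • y j ∈ FF s G y B w :=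
  Submodule.subset_span ⟨g, j, h, rfl⟩

theorem stab_FF (w : W) : Stab (s.fld (stabilizer s.Γ w)) (FF s G y B w) := fun κ hκ _ hv =>
  Submodule.smul_mem _ (⟨κ, hκ⟩ : s.fld (stabilizer s.Γ w)) hv

theorem FF_le {w : W} {Q : AddSubgroup V} (h : ∀ (g : G) j, g⁻¹ • w ∈ B → g • y j ∈ Q)
    (hQ : Stab (s.fld (stabilizer s.Γ w)) Q) : FF s G y B w ≤ Q := fun _ hv =>
  span_le (by rintro _ ⟨g, j, hg, rfl⟩; exact h g j hg) hQ hv

theorem alpha_mem (hN : inc.range.Normal) (hW : ∀ (h : s.Γ) (w : W), inc h • w = h • w) (g : G)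
    {w : W} {κ : s.D} (hκ : κ ∈ s.fld (stabilizer s.Γ w)) :
    𝒢.α g κ ∈ s.fld (stabilizer s.Γ (g • w)) :=
  fld_le (L := (s.fld (stabilizer s.Γ (g • w))).comap (𝒢.α g).toRingHom) (fun c => by
    change 𝒢.α g _ ∈ s.fld _
    rw [𝒢.α_alg]
    exact alg_mem _ c) (fun h hh => by
    obtain ⟨h', e⟩ := hN.conj_mem _ ⟨h, rfl⟩ g
    change 𝒢.α g _ ∈ s.fld _
    rw [𝒢.α_ι g h h' e]
    refine ι_mem ?_
    rw [mem_stabilizer_iff] at hh ⊢
    rw [← hW, e, mul_smul, mul_smul, inv_smul_smul, hW, hh]) hκ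

theorem FF_smul (hN : inc.range.Normal) (hW : ∀ (h : s.Γ) (w : W), inc h • w = h • w)
    (hS : 𝒢.Semi V) (g : G) (w : W) {v : V} (hv : v ∈ FF s G y B w) :
    g • v ∈ FF s G y B (g • w) :=
  FF_le (Q := (FF s G y B (g • w)).comap (DistribSMul.toAddMonoidHom V g)) (fun a j ha => by
    change g • a • y j ∈ FF s G y B (g • w)
    rw [smul_smul]
    exact gen_mem (by rwa [mul_inv_rev, mul_smul, inv_smul_smul]) j) (fun κ hκ v hv => by
    change g • κ • v ∈ FF s G y B (g • w)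
    rw [hS.smul]
    exact stab_FF _ _ (alpha_mem hN hW g hκ) _ hv) hv

theorem FF_fd (hF : inc.range.FiniteIndex) (hW : ∀ (h : s.Γ) (w : W), inc h • w = h • w)
    (hS : 𝒢.Semi V) (hB : B.Finite) (w : W) : ∃ t : Finset V, ∀ v,
    v ∈ FF s G y B w ↔ v ∈ Submodule.span (s.fld (stabilizer s.Γ w)) (t : Set V) := by
  let Φ : G → W × (G ⧸ inc.range) := fun g => (g⁻¹ • w, (g⁻¹ : G))
  have h1 : (Φ '' {g | g⁻¹ • w ∈ B}).Finite :=
    (hB.prod Set.finite_univ).subset (by rintro _ ⟨g, hg, rfl⟩; exact ⟨hg, trivial⟩)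
  obtain ⟨X, hX, hX1, hX2⟩ := (Set.exists_subset_image_finite_and
    (p := fun t => Φ '' {g | g⁻¹ • w ∈ B} ⊆ t)).1 ⟨_, subset_rfl, h1, subset_rfl⟩
  have h2 := hX1.image2 (fun (g : G) j => g • y j) (Set.finite_univ (α := Fin n))
  refine ⟨h2.toFinset, fun v => ?_⟩
  rw [h2.coe_toFinset]
  refine ⟨fun hv => FF_le (Q := (Submodule.span (s.fld (stabilizer s.Γ w)) _).toAddSubgroup)
    (fun g j hg => ?_) (fun κ hκ _ hv =>
      Submodule.smul_mem _ (⟨κ, hκ⟩ : s.fld (stabilizer s.Γ w)) hv) hv, fun hv => ?_⟩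
  · obtain ⟨a, ha, e⟩ := hX2 ⟨g, hg, rfl⟩
    obtain ⟨e1, e2⟩ := Prod.mk.inj e
    obtain ⟨h, e3⟩ := QuotientGroup.eq.1 e2.symm
    rw [inv_inv] at e3
    have h3 : h ∈ stabilizer s.Γ w := by
      rw [mem_stabilizer_iff, ← hW, e3, mul_smul, e1, smul_inv_smul]
    have h4 : g • y j = (⟨_, ι_mem h3⟩ : s.fld (stabilizer s.Γ w)) • a • y j := by
      change _ = s.ι h • a • y j
      rw [← hS.inc, e3, smul_smul, inv_mul_cancel_right]
    rw [h4]
    exact Submodule.smul_mem _ _ (Submodule.subset_span ⟨a, ha, j, trivial, rfl⟩)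
  · exact Submodule.span_mono (by rintro _ ⟨a, ha, j, -, rfl⟩; exact ⟨a, j, hX ha, rfl⟩) hv

theorem FF_cof (hF : inc.range.FiniteIndex) (hW : ∀ (h : s.Γ) (w : W), inc h • w = h • w)
    (hB : B.Finite) : CofOrb s.Γ fun w => FF s G y B w ≠ ⊥ := by
  have h2 := (Set.finite_univ (α := G ⧸ inc.range)).image2 (fun q b => q.out⁻¹ • b) hB
  refine ⟨h2.toFinset, fun w hw => ?_⟩
  obtain ⟨g, hg⟩ : ∃ g : G, g⁻¹ • w ∈ B := by
    by_contra h
    exact hw (le_bot_iff.1 (FF_le (fun g _ hg => (h ⟨g, hg⟩).elim) fun κ _ v hv => by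
      rw [AddSubgroup.mem_bot.1 hv, smul_zero]
      exact zero_mem _))
  obtain ⟨⟨_, h, rfl⟩, e⟩ := QuotientGroup.mk_out_eq_mul inc.range g⁻¹
  refine ⟨h⁻¹, h2.mem_toFinset.2 ⟨(g⁻¹ : G), trivial, _, hg, ?_⟩⟩
  simp only [e, mul_inv_rev, inv_inv, mul_smul, smul_inv_smul, ← hW, map_inv]

theorem FF_top (hG : s.Gen) {w : W} (h1 : ∀ g : s.Γ, g • w = w) (h2 : ∀ g : G, g • w ∈ B)
    (h : Submodule.span s.D {v | ∃ (g : G) (j : Fin n), v = g • y j} = ⊤) : FF s G y B w = ⊤ := by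
  refine eq_top_iff.2 fun v hv => ?_
  clear hv
  have hv : v ∈ Submodule.span s.D {v | ∃ (g : G) (j : Fin n), v = g • y j} := h ▸ trivial
  induction hv using Submodule.span_induction with
  | mem x hx => obtain ⟨g, j, rfl⟩ := hx; exact gen_mem (h2 _) j
  | zero => exact zero_mem _
  | add x y _ _ hx hy => exact add_mem hx hy
  | smul a x _ hx => exact stab_FF w a (fld_mono (fun g _ => h1 g) (hG a)) x hx

end Fam

section Main

variable {s : Sys.{u}} {V G : Type u} [AddCommGroup V] [Module s.D V] [Group G]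
  [DistribMulAction G V] {inc : s.Γ →* G} {𝒢 : s.GS G inc} {m n : ℕ}
  {A : Fin m → Fin n → G →₀ ℂ} {y : Fin n → V} {P : PT G} {BV : Set P.Vt} {BE : Set P.Ed}
  {c₀ : P.I → P.Vt}

/-- exactness at the vertices -/
theorem exact_v (hI : Fix P inc) (i : P.I) (hG : s.Gen) (hS : 𝒢.Semi V) (hP : Pres inc A y)
    (hc : ∀ i, P.π (c₀ i) = i) (h0 : ∀ i, c₀ i ∈ BV)
    (h1 : ∀ a j, ∀ k ∈ (A a j).support, ∀ i, k⁻¹ • c₀ i ∈ BV)
    (h2 : ∀ S : Set P.Vt, (∀ e ∈ BE, P.o e ∈ S ↔ P.t e ∈ S) → ∀ v ∈ BV, c₀ (P.π v) ∈ S → v ∈ S)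
    {ε : s.Ten (VV hI i) V}
    (hε : ε ∈ s.T ⊤ fun v : VV hI i => FF s G y (BB P inc BV BE) (wv P inc v.1))
    (hμ : s.mu _ V ε = 0) :
    ∃ ζ ∈ s.T ⊤ fun e : EE hI i => FF s G y (BB P inc BV BE) (we P inc e.1),
      bd V (tree hI i) ζ = ε := by
  let N₀ : Submodule s.D (s.Ten (EE hI i) V) :=
    { (s.T ⊤ fun e : EE hI i => FF s G y (BB P inc BV BE) (we P inc e.1)) with
      smul_mem' := fun d _ h => smul_mem_T (hG d) h }
  let N := N₀.map (bd V (tree hI i))
  let vg : G → VV hI i := fun g => ⟨g • c₀ (g⁻¹ • i), by rw [P.π_smul, hc, smul_inv_smul]⟩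
  let ψ : G → Fin n → s.Ten (VV hI i) V ⧸ N := fun g j => N.mkQ (s.t (vg g) (g • y j))
  have ind : ∀ (g : G) j (v : VV hI i), g⁻¹ • v.1 ∈ BV → N.mkQ (s.t v (g • y j)) = ψ g j := by
    intro g j v hv
    have h3 := h2 {b | ∀ x : VV hI i, x.1 = g • b → N.mkQ (s.t x (g • y j)) = ψ g j}
      (fun e he => ?_) _ hv (fun x hx => ?_) v (smul_inv_smul _ _).symm
    · exact h3
    · have h4 : ∀ k : P.π (P.o (g • e)) = i,
          N.mkQ (s.t ((tree hI i).t ⟨g • e, k⟩) (g • y j)) =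
            N.mkQ (s.t ((tree hI i).o ⟨g • e, k⟩) (g • y j)) := fun k => by
        rw [← sub_eq_zero, ← map_sub, ← bd_t]
        refine (Submodule.Quotient.mk_eq_zero _).2 ⟨_, ?_, rfl⟩
        have := mem_T (s := s) (A := ⊤)
          (Z := fun e : EE hI i => FF s G y (BB P inc BV BE) (we P inc e.1)) (one_mem _)
          (w := ⟨g • e, k⟩) (gen_mem (g := g) (we_mem.2 (show g⁻¹ • g • e ∈ BE by
            rwa [inv_smul_smul])) j)
        rwa [one_smul] at this
      refine ⟨fun h x hx => ?_, fun h x hx => ?_⟩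
      · have k : P.π (P.o (g • e)) = i := by rw [← P.π_t, P.t_smul, ← hx, x.2]
        rw [show x = (tree hI i).t ⟨g • e, k⟩ from Subtype.ext (hx.trans (P.t_smul _ _).symm), h4]
        exact h _ (P.o_smul _ _)
      · have k : P.π (P.o (g • e)) = i := by rw [P.o_smul, ← hx, x.2]
        rw [show x = (tree hI i).o ⟨g • e, k⟩ from Subtype.ext (hx.trans (P.o_smul _ _).symm), ← h4]
        exact h _ (P.t_smul _ _)
    · rw [P.π_smul, v.2] at hx
      rw [show x = vg g from Subtype.ext hx]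
  obtain ⟨Ψ, hΨ⟩ := hP.univ _ ψ (fun h g j => by
    rw [← map_smul, ← t_act, ← hS.inc, smul_smul]
    refine (ind _ j _ ?_).symm
    change (inc h * g)⁻¹ • inc h • g • c₀ (g⁻¹ • i) ∈ BV
    rw [← mul_smul (inc h), inv_smul_smul]
    exact h0 _) fun g a => by
      have h3 := congrArg (fun v => N.mkQ (s.t (vg g) v)) (hP.rel g a)
      simp only [map_sum, map_zero, t_smul (alg_mem _ _), map_smul] at h3
      rw [← h3]
      refine Finset.sum_congr rfl fun j _ => Finset.sum_congr rfl fun k hk => ?_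
      rw [ind (g * k) j (vg g) ?_]
      change (g * k)⁻¹ • g • c₀ (g⁻¹ • i) ∈ BV
      rw [mul_inv_rev, mul_smul, inv_smul_smul]
      exact h1 a j k hk _
  have h3 : ∀ v : VV hI i, FF s G y (BB P inc BV BE) (wv P inc v.1) ≤
      Ψ.toAddMonoidHom.eqLocus (N.mkQ.toAddMonoidHom.comp (s.t v)) := fun v =>
    FF_le (fun g j hg => (hΨ g j).trans (ind g j v (wv_mem.1 hg)).symm) fun κ hκ x hx => by
      have hx' : Ψ x = N.mkQ (s.t v x) := hx
      change Ψ (κ • x) = N.mkQ (s.t v (κ • x))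
      rw [t_smul (w := v) (fld_mono (fun g hg => Subtype.ext (wv_inj hg)) hκ), map_smul, map_smul,
        hx']
  have h4 := T_le (M := (Ψ.comp (s.mu _ V)).toAddMonoidHom.eqLocus N.mkQ.toAddMonoidHom)
    (fun d _ v z hz => by
      have hz' : Ψ z = N.mkQ (s.t v z) := h3 v hz
      change Ψ (s.mu _ V (d • s.t v z)) = N.mkQ (d • s.t v z)
      rw [map_smul, mu_t, map_smul, map_smul, hz']) hε
  have h5 : Ψ (s.mu _ V ε) = N.mkQ ε := h4
  rw [hμ, map_zero] at h5
  exact (Submodule.Quotient.mk_eq_zero _).1 h5.symm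

end Main

end PFAM

open PFAM in
theorem p_fam : S_FAM.{u} := by
  intro s V G _ _ _ _ _ inc 𝒢 m n A y P hG hC hN hF hS hP hI
  change Fix P inc at hI
  choose c₀ hc using P.surj
  have hU : (Set.range c₀ ∪ ⋃ a, ⋃ j, Set.image2 (fun (k : G) i => k⁻¹ • c₀ i)
      (A a j).support Set.univ).Finite := (Set.finite_range _).union
    (Set.finite_iUnion fun _ => Set.finite_iUnion fun _ =>
      (Finset.finite_toSet _).image2 _ Set.finite_univ)
  obtain ⟨BV, BE, ⟨b1, b2, b3, b4⟩, b5⟩ := exists_B P c₀ hc hU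
  have h0 : ∀ i, c₀ i ∈ BV := fun i => b5 (Or.inl ⟨i, rfl⟩)
  have h1 : ∀ a j, ∀ k ∈ (A a j).support, ∀ i, k⁻¹ • c₀ i ∈ BV := fun a j k hk i =>
    b5 (Or.inr (Set.mem_iUnion₂.2 ⟨a, j, k, hk, i, trivial, rfl⟩))
  have hB : (BB P inc BV BE).Finite := ((b1.image _).union (b2.image _)).insert _
  have hW : ∀ (h : s.Γ) (w : WW P inc), inc h • w = h • w := fun _ _ => rfl
  let 𝓕 : s.Fam V (WW P inc) :=
    { F := FF s G y (BB P inc BV BE)
      stab := stab_FF
      eqv := fun g w v hv => by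
        rw [← hS.inc]
        exact FF_smul hN hW hS (inc g) w hv
      fd := FF_fd hF hW hS hB
      cof := FF_cof hF hW hB
      star := ws P inc
      star_fix := fun _ => rfl
      F_star := FF_top hG (fun _ => rfl) (fun _ => Or.inl rfl) hP.span }
  let 𝒞 : Cells 𝓕 P.I :=
    { Vt := VV hI
      Ed := EE hI
      Tr := tree hI
      iv := fun _ v => wv P inc v.1
      ie := fun _ e => we P inc e.1
      lab := lab P inc
      iv_smul := fun _ _ _ => rfl
      ie_smul := fun _ _ _ => rfl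
      iv_inj := fun _ _ _ h => Subtype.ext (wv_inj h)
      ie_inj := fun _ _ _ h => Subtype.ext (we_inj h)
      lab_iv := fun i w => ⟨fun h => by
        rcases w with _ | v | e
        · cases h
        · exact ⟨⟨v, (Prod.mk.inj (Option.some.inj h)).1⟩, rfl⟩
        · exact absurd (Prod.mk.inj (Option.some.inj h)).2 (by simp), by
        rintro ⟨⟨v, rfl⟩, rfl⟩
        rfl⟩
      lab_ie := fun i w => ⟨fun h => by
        rcases w with _ | v | e
        · cases h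
        · cases (Prod.mk.inj (Option.some.inj h)).2
        · exact ⟨⟨e, (Prod.mk.inj (Option.some.inj h)).1⟩, rfl⟩, by
        rintro ⟨⟨v, rfl⟩, rfl⟩
        rfl⟩
      lab_star := rfl
      inj := fun i => hC V _ _ (tree hI i)
      t1 := fun i e => le_inf
        (FF_le (fun g j hg => gen_mem (wv_mem.2 (show g⁻¹ • P.o e.1 ∈ BV from
          P.o_smul _ _ ▸ (b3 _ (we_mem.1 hg)).1)) j) ((stab_FF _).mono (fld_mono fun g hg =>
            congrArg (wv P inc) ((P.o_smul _ _).symm.trans (congrArg P.o (we_inj hg))))))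
        (FF_le (fun g j hg => gen_mem (wv_mem.2 (show g⁻¹ • P.t e.1 ∈ BV from
          P.t_smul _ _ ▸ (b3 _ (we_mem.1 hg)).2)) j) ((stab_FF _).mono (fld_mono fun g hg =>
            congrArg (wv P inc) ((P.t_smul _ _).symm.trans (congrArg P.t (we_inj hg))))))
      t2 := fun i _ hε hμ => exact_v hI i hG hS hP hc h0 h1 b4 hε hμ
      t3 := fun i w z hz => Submodule.span_mono (by
        rintro _ ⟨g, j, hg, rfl⟩
        exact ⟨gen_mem hg j, ⟨g • c₀ (g⁻¹ • i), by rw [P.π_smul, hc, smul_inv_smul]⟩,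
          gen_mem (wv_mem.2 (show g⁻¹ • g • c₀ (g⁻¹ • i) ∈ BV by
            rw [inv_smul_smul]; exact h0 _)) j⟩) hz }
  refine ⟨WW P inc, inferInstance, inferInstance, 𝓕, 𝒞,
    ⟨hW, hI, fun g w v hv => FF_smul hN hW hS g w hv, fun g w i b h => ?_⟩, fun c hc => ?_⟩
  · rcases w with _ | v | e
    · cases h
    · obtain ⟨rfl, rfl⟩ := Prod.mk.inj (Option.some.inj h)
      exact congrArg (fun i => some (i, false)) (P.π_smul g v)
    · obtain ⟨rfl, rfl⟩ := Prod.mk.inj (Option.some.inj h)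
      exact congrArg (fun i => some (i, true)) ((congrArg P.π (P.o_smul g e)).trans (P.π_smul g _))
  · have h : ∀ i, ∃ x : P.Vt ⊕ P.Ed, c i = some x ∧ Sum.elim P.π (fun e => P.π (P.o e)) x = i := by
      intro i
      obtain ⟨b, h⟩ := hc i
      generalize c i = w at h
      rcases w with _ | v | e
      · cases h
      · exact ⟨_, rfl, (Prod.mk.inj (Option.some.inj h)).1⟩
      · exact ⟨_, rfl, (Prod.mk.inj (Option.some.inj h)).1⟩
    choose c' h1 h2 using h
    refine ⟨c', h2, Subgroup.ext fun g => forall_congr' fun i => ?_⟩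
    rw [h1, h1]
    exact Option.some_inj

end Pool.Agent.P.MP_0f25e6_al.VT
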