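import Pool.Agent.P.MP_0f25e6_al.VT.Spec

/-!
Powers, images and base changes of families.
-/

set_option autoImplicit false

open MulAction

noncomputable section

namespace Pool.Agent.P.MP_0f25e6_al.VT

universe u

open Sys

namespace PFAMS

theorem fd_of {D V : Type*} [DivisionRing D] [AddCommGroup V] [Module D V] {L : Subfield D}
    {P : AddSubgroup V} {t : Set V} (h : Stab L P) (ht : ∀ y ∈ t, y ∈ P)
    (hs : ∀ v ∈ P, v ∈ Submodule.span L t) (v : V) : v ∈ P ↔ v ∈ Submodule.span L t :=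
  ⟨hs v, fun hv => (mem_spF (G := fun _ : Finset Unit => P) (S := ∅) h).1
    (Submodule.span_mono ht hv)⟩

variable {s : Sys.{u}} {V V₂ W : Type u} [AddCommGroup V] [Module s.D V] [AddCommGroup V₂]
  [MulAction s.Γ W] (𝓕 : s.Fam V W)

/-- The power of a family. -/
def pw (m : ℕ) : s.Fam (Fin m → V) W where
  F w := AddSubgroup.pi Set.univ fun _ => 𝓕.F w
  stab w κ hκ v hv i hi := 𝓕.stab w κ hκ (v i) (hv i hi)
  eqv g w v hv i hi := 𝓕.eqv g w (v i) (hv i hi)
  fd w := by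
    classical
    obtain ⟨t, ht⟩ := 𝓕.fd w
    refine ⟨Finset.univ.biUnion fun i => t.image (Pi.single i), fd_of
      (fun κ hκ v hv i hi => 𝓕.stab w κ hκ (v i) (hv i hi)) (fun y hy => ?_) fun v hv => ?_⟩
    · obtain ⟨i, -, hy⟩ := Finset.mem_biUnion.1 hy
      obtain ⟨x, hx, rfl⟩ := Finset.mem_image.1 hy
      exact (AddSubgroup.single_mem_pi (H := fun _ : Fin m => 𝓕.F w) i x).2 fun _ =>
        (ht x).2 (Submodule.subset_span hx)
    · rw [← Finset.univ_sum_single v]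
      refine sum_mem fun i _ => Submodule.span_mono ?_ (Submodule.apply_mem_span_image_of_mem_span
        (LinearMap.single (s.fld (stabilizer s.Γ w)) (fun _ : Fin m => V) i)
        ((ht _).1 (hv i trivial)))
      rintro _ ⟨x, hx, rfl⟩
      exact Finset.mem_biUnion.2 ⟨i, Finset.mem_univ i, Finset.mem_image_of_mem _ hx⟩
  cof := by
    obtain ⟨t, ht⟩ := 𝓕.cof
    refine ⟨t, fun w hw => ht w fun e => hw ?_⟩
    rw [e]
    exact AddSubgroup.pi_bot
  star := 𝓕.star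
  star_fix := 𝓕.star_fix
  F_star := by
    rw [𝓕.F_star]
    exact AddSubgroup.pi_top _

theorem stab_map [Module s.D V₂] (f : V →ₗ[s.D] V₂) (w : W) :
    Stab (s.fld (stabilizer s.Γ w)) ((𝓕.F w).map f.toAddMonoidHom) := by
  rintro κ hκ _ ⟨v, hv, rfl⟩
  exact ⟨_, 𝓕.stab w κ hκ v hv, f.map_smul κ v⟩

/-- The image of a family. -/
def im [Module s.D V₂] (f : V →ₗ[s.D] V₂) (hf : Function.Surjective f) : s.Fam V₂ W where
  F w := (𝓕.F w).map f.toAddMonoidHom
  stab := stab_map 𝓕 f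
  eqv := by
    rintro g w _ ⟨v, hv, rfl⟩
    exact ⟨_, 𝓕.eqv g w v hv, f.map_smul _ v⟩
  fd w := by
    classical
    obtain ⟨t, ht⟩ := 𝓕.fd w
    refine ⟨t.image f, fd_of (stab_map 𝓕 f w) (fun y hy => ?_) ?_⟩
    · obtain ⟨x, hx, rfl⟩ := Finset.mem_image.1 hy
      exact ⟨x, (ht x).2 (Submodule.subset_span hx), rfl⟩
    · rintro _ ⟨v, hv, rfl⟩
      rw [Finset.coe_image]
      exact Submodule.apply_mem_span_image_of_mem_span
        (f.restrictScalars (s.fld (stabilizer s.Γ w))) ((ht v).1 hv)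
  cof := by
    obtain ⟨t, ht⟩ := 𝓕.cof
    refine ⟨t, fun w hw => ht w fun e => hw ?_⟩
    rw [e]
    exact AddSubgroup.map_bot _
  star := 𝓕.star
  star_fix := 𝓕.star_fix
  F_star := by
    rw [𝓕.F_star]
    exact AddSubgroup.map_top_of_surjective _ hf

variable {s' : Sys.{u}} {W₀ : Type u} [MulAction s.Γ W₀] {𝓛 : s.Lamp s' W₀} [Module s'.D V₂]
  (β : 𝓛.BC V V₂) [MulAction s'.Γ W]

theorem stab_eq (h : ∀ (g : s'.Γ) (w : W), g • w = 𝓛.p g • w) (w : W) :
    stabilizer s'.Γ w = (stabilizer s.Γ w).comap 𝓛.p := by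
  ext g
  rw [Subgroup.mem_comap, mem_stabilizer_iff, mem_stabilizer_iff, h]

theorem gen_mem {A : Subgroup s.Γ} {P : AddSubgroup V} {a : s'.D} (ha : a ∈ s'.fld (A.comap 𝓛.p))
    {v : V} (hv : v ∈ P) : a • β.f v ∈ β.til A P :=
  AddSubgroup.subset_closure ⟨a, ha, v, hv, rfl⟩

theorem til_le {A : Subgroup s.Γ} {P : AddSubgroup V} {Q : AddSubgroup V₂}
    (h : ∀ a ∈ s'.fld (A.comap 𝓛.p), ∀ v ∈ P, a • β.f v ∈ Q) : β.til A P ≤ Q :=
  (AddSubgroup.closure_le _).2 (by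
    rintro _ ⟨a, ha, v, hv, rfl⟩
    exact h a ha v hv)

theorem stab_til (A : Subgroup s.Γ) (P : AddSubgroup V) :
    Stab (s'.fld (A.comap 𝓛.p)) (β.til A P) := fun κ hκ _ hv =>
  til_le β (Q := (β.til A P).comap (DistribSMul.toAddMonoidHom V₂ κ)) (fun a ha v hv => by
    change κ • a • β.f v ∈ β.til A P
    rw [smul_smul]
    exact gen_mem β (mul_mem hκ ha) hv) hv

/-- The base change of a family. -/
def bc (hG : s'.Gen) (h : ∀ (g : s'.Γ) (w : W), g • w = 𝓛.p g • w) : s'.Fam V₂ W where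
  F w := β.til (stabilizer s.Γ w) (𝓕.F w)
  stab w := by
    rw [stab_eq h]
    exact stab_til β _ _
  eqv g w _ hy := til_le β (Q := (β.til (stabilizer s.Γ (g • w)) (𝓕.F (g • w))).comap
    (DistribSMul.toAddMonoidHom V₂ (s'.ι g))) (fun a ha v hv => by
      change s'.ι g • a • β.f v ∈ β.til _ _
      have h1 := 𝓕.eqv (𝓛.p g) w v hv
      rw [← stab_eq h] at ha
      have h2 := mul_mem (conj_stab g ha) (ι_mem (A := stabilizer s'.Γ (g • w))
        (g := g * (𝓛.e (𝓛.p g))⁻¹) (by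
          rw [mem_stabilizer_iff, h, map_mul, map_inv, 𝓛.p_e, mul_inv_cancel, one_smul]))
      rw [stab_eq h] at h2
      have h3 := gen_mem β h2 (h g w ▸ h1 : s.ι (𝓛.p g) • v ∈ 𝓕.F (g • w))
      rwa [β.f_smul, 𝓛.j_ι, smul_smul, mul_assoc, mul_assoc, ← map_mul, ← map_mul,
        inv_mul_cancel_right, inv_mul_cancel, map_one, mul_one, mul_smul] at h3) hy
  fd w := by
    classical
    obtain ⟨t, ht⟩ := 𝓕.fd w
    rw [stab_eq h]
    refine ⟨t.image β.f, fd_of (stab_til β _ _) (fun y hy => ?_) fun y hy =>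
      til_le β (Q := (Submodule.span (s'.fld ((stabilizer s.Γ w).comap 𝓛.p))
        (t.image β.f : Set V₂)).toAddSubgroup) (fun a ha v hv => ?_) hy⟩
    · obtain ⟨x, hx, rfl⟩ := Finset.mem_image.1 hy
      simpa using gen_mem β (one_mem _) ((ht x).2 (Submodule.subset_span hx))
    · refine Submodule.smul_mem _ (⟨a, ha⟩ : s'.fld _) ?_
      replace hv := (ht v).1 hv
      induction hv using Submodule.span_induction with
      | mem x hx => exact Submodule.subset_span (Finset.mem_image_of_mem _ hx)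
      | zero => simp
      | add x y _ _ hx hy => rw [map_add]; exact add_mem hx hy
      | smul κ x _ hx =>
        rw [Subfield.smul_def, β.f_smul]
        exact Submodule.smul_mem _ (⟨𝓛.j κ, 𝓛.j_mem (fun a ha => by
          rwa [Subgroup.mem_comap, 𝓛.p_e]) κ.2⟩ : s'.fld _) hx
  cof := by
    obtain ⟨t, ht⟩ := 𝓕.cof
    refine ⟨t, fun w hw => ?_⟩
    obtain ⟨g, hg⟩ := ht w fun e => hw (le_bot_iff.1 (til_le β fun a _ v hv => by
      rw [e, AddSubgroup.mem_bot] at hv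
      simp [hv]))
    exact ⟨𝓛.e g, by rwa [h, 𝓛.p_e]⟩
  star := 𝓕.star
  star_fix g := by rw [h, 𝓕.star_fix]
  F_star := by
    refine top_le_iff.1 fun v _ => ?_
    rw [← β.b'.sum_repr v]
    refine sum_mem fun k _ => ?_
    rw [← β.f_b]
    exact gen_mem β (fld_mono (fun g _ => 𝓕.star_fix _) (hG _))
      (by rw [𝓕.F_star]; exact AddSubgroup.mem_top _)

end PFAMS

open PFAMS

theorem p_fams : S_FAMS.{u} :=
  ⟨fun _ _ _ _ _ _ 𝓕 m => ⟨pw 𝓕 m, rfl, fun _ _ => ⟨fun h i => h i trivial, fun h i _ => h i⟩⟩,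
    fun _ _ _ _ _ _ _ _ _ 𝓕 f hf => ⟨im 𝓕 f hf, rfl, fun _ => rfl⟩,
    fun _ _ _ _ _ _ _ _ _ _ _ _ β _ _ 𝓕 hG h => ⟨bc 𝓕 β hG h, rfl, fun _ => rfl⟩⟩

end Pool.Agent.P.MP_0f25e6_al.VT
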