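import Pool.Agent.P.MP_0f25e6_al.VT.Spec

/-!
Cohomology of an induced family: finiteness, vanishing and the Euler characteristic.
-/

set_option autoImplicit false

open MulAction

noncomputable section

namespace Pool.Agent.P.MP_0f25e6_al.VT

universe u

open Sys

namespace PIND2

section Count

variable {Q : Type u} {J : ℕ → Q → Type u}

theorem fin_of (h1 : ∀ n, Finite (Σ q, J n q)) {N : ℕ} (h2 : ∀ n, N ≤ n → IsEmpty (Σ q, J n q)) :
    {q | ¬ ∀ n, IsEmpty (J n q)}.Finite := by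
  refine ((Set.finite_lt_nat N).biUnion fun n _ =>
    Set.finite_range (Sigma.fst : (Σ q, J n q) → Q)).subset fun q hq => ?_
  obtain ⟨n, hn⟩ := not_forall.1 hq
  obtain ⟨x⟩ := not_isEmpty_iff.1 hn
  exact Set.mem_biUnion (not_le.1 fun e => (h2 n e).false ⟨q, x⟩) ⟨⟨q, x⟩, rfl⟩

theorem tame_iff : ((∀ n, Finite (Σ q, J n q)) ∧ ∃ N, ∀ n, N ≤ n → IsEmpty (Σ q, J n q)) ↔
    (∀ q, (∀ n, Finite (J n q)) ∧ ∃ N, ∀ n, N ≤ n → IsEmpty (J n q)) ∧
      {q | ¬ ∀ n, IsEmpty (J n q)}.Finite := by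
  constructor
  · rintro ⟨h1, N, h2⟩
    exact ⟨fun q => ⟨fun n => Finite.of_injective (Sigma.mk (β := J n) q) sigma_mk_injective, N,
      fun n hn => ⟨fun x => (h2 n hn).false ⟨q, x⟩⟩⟩, fin_of h1 h2⟩
  · rintro ⟨h1, h2⟩
    choose h3 N h4 using h1
    refine ⟨fun n => Set.finite_univ_iff.1 ((h2.biUnion fun q _ =>
      Set.finite_range (Sigma.mk (β := J n) q)).subset fun p _ =>
        Set.mem_biUnion (x := p.1) (fun e => (e n).false p.2) ⟨p.2, rfl⟩), h2.toFinset.sup N,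
      fun n hn => ⟨fun p => (h4 p.1 n ((Finset.le_sup (h2.mem_toFinset.2
        fun e => (e n).false p.2)).trans hn)).false p.2⟩⟩

theorem chi_eq (h1 : ∀ n, Finite (Σ q, J n q)) {N : ℕ} (h2 : ∀ n, N ≤ n → IsEmpty (Σ q, J n q)) :
    ∑ᶠ n : ℕ, (-1 : ℤ) ^ n * (Nat.card (Σ q, J n q) : ℤ) =
      ∑ᶠ q, ∑ᶠ n : ℕ, (-1 : ℤ) ^ n * (Nat.card (J n q) : ℤ) := by
  have h3 := fin_of h1 h2
  have h4 : ∀ n q, Finite (J n q) := fun n q =>
    Finite.of_injective (Sigma.mk (β := J n) q) sigma_mk_injective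
  have h5 : ∀ X : ℕ → Type u, (∀ n, N ≤ n → IsEmpty (X n)) →
      ∑ᶠ n : ℕ, (-1 : ℤ) ^ n * (Nat.card (X n) : ℤ) =
        ∑ n ∈ Finset.range N, (-1 : ℤ) ^ n * (Nat.card (X n) : ℤ) := fun X h =>
    finsum_eq_sum_of_support_subset _ fun n hn => Finset.mem_coe.2 (Finset.mem_range.2
      (not_le.1 fun e => hn (by have := h n e; simp)))
  have h6 : ∀ n, (Nat.card (Σ q, J n q) : ℤ) = ∑ q ∈ h3.toFinset, (Nat.card (J n q) : ℤ) :=
    fun n => by
      rw [← Nat.card_congr (Equiv.sigmaSubtypeEquivOfSubset (J n) (· ∈ h3.toFinset)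
        fun q x => h3.mem_toFinset.2 fun e => (e n).false x), Nat.card_sigma, Nat.cast_sum,
        ← Finset.sum_coe_sort h3.toFinset]
  rw [h5 _ h2, finsum_eq_sum_of_support_subset (s := h3.toFinset) _ fun q hq =>
    Finset.mem_coe.2 (h3.mem_toFinset.2 fun e => hq (finsum_eq_zero_of_forall_eq_zero fun n => by
      have := e n; simp))]
  simp only [h6, Finset.mul_sum]
  rw [Finset.sum_comm]
  exact Finset.sum_congr rfl fun q _ => (h5 _ fun n hn => ⟨fun x => (h2 n hn).false ⟨q, x⟩⟩).symm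

end Count

theorem exists_out {Γ X : Type*} [Group Γ] [MulAction Γ X] (x : X) :
    ∃ g : Γ, g • x = (Quotient.mk _ x : orbitRel.Quotient Γ X).out :=
  Quotient.exact (Quotient.out_eq (Quotient.mk (orbitRel Γ X) x))

theorem cof_iff {Γ X : Type*} [Group Γ] [MulAction Γ X] {P : X → Prop}
    (h : ∀ (g : Γ) x, P x → P (g • x)) :
    CofOrb Γ P ↔ {q : orbitRel.Quotient Γ X | P q.out}.Finite := by
  classical
  constructor
  · rintro ⟨t, ht⟩
    refine (t.finite_toSet.image (Quotient.mk _)).subset fun q hq => ?_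
    obtain ⟨g, hg⟩ := ht _ hq
    exact ⟨_, hg, (Quotient.sound (s := orbitRel Γ X) ⟨g, rfl⟩).trans (Quotient.out_eq q)⟩
  · intro hf
    refine ⟨hf.toFinset.image Quotient.out, fun x hx => ?_⟩
    obtain ⟨g, hg⟩ := exists_out (Γ := Γ) x
    exact ⟨g, hg ▸ Finset.mem_image_of_mem _ (hf.mem_toFinset.2 (by
      rw [Set.mem_ofPred_eq, ← hg]; exact h g x hx))⟩

/-- Conjugation by a group element. -/
def cj (s : Sys.{u}) (g : s.Γ) : s.D →+* s.D where
  toFun d := s.ι g * d * s.ι g⁻¹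
  map_one' := by rw [mul_one, ι_mul_inv]
  map_mul' x y := by
    simp only [mul_assoc]
    rw [← mul_assoc (s.ι g⁻¹), ι_inv_mul, one_mul]
  map_zero' := by rw [mul_zero, zero_mul]
  map_add' x y := by rw [mul_add, add_mul]

theorem conj_inf {s : Sys.{u}} {W : Type u} [MulAction s.Γ W] {A : Subgroup s.Γ} {g : s.Γ}
    (hg : g ∈ A) (w : W) {d : s.D} (hd : d ∈ s.fld (A ⊓ stabilizer s.Γ w)) :
    s.ι g * d * s.ι g⁻¹ ∈ s.fld (A ⊓ stabilizer s.Γ (g • w)) :=
  conj_mem (A := A ⊓ stabilizer s.Γ w) g (fun a ha => Subgroup.mem_inf.2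
    ⟨mul_mem (mul_mem hg ha.1) (inv_mem hg), by
    have h : a • w = w := ha.2
    change (g * a * g⁻¹) • g • w = g • w
    rw [mul_smul, mul_smul, inv_smul_smul, h]⟩) hd

theorem move (hTR : S_TR.{u}) {s : Sys.{u}} {V W I : Type u} [AddCommGroup V] [Module s.D V]
    [MulAction s.Γ W] [DecidableEq I] {A : Subgroup s.Γ} {G : W → Finset I → AddSubgroup V}
    (h : IndData s A G) {g : s.Γ} (hg : g ∈ A) (w : W) :
    (Tame (spF (s.fld (A ⊓ stabilizer s.Γ w)) (G w)) ↔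
      Tame (spF (s.fld (A ⊓ stabilizer s.Γ (g • w))) (G (g • w)))) ∧
    (Acyc (spF (s.fld (A ⊓ stabilizer s.Γ w)) (G w)) ↔
      Acyc (spF (s.fld (A ⊓ stabilizer s.Γ (g • w))) (G (g • w)))) := by
  have := hTR s.D s.D V V I I (cj s g) (s.fld (A ⊓ stabilizer s.Γ w))
    (s.fld (A ⊓ stabilizer s.Γ (g • w))) (DistribSMul.toAddMonoidHom V (s.ι g)) (Equiv.refl I)
    (G w) (G (g • w)) (le_antisymm (fun d hd => ?_) ?_)
    (fun v v' e => ?_) (fun d _ v => ?_) (h.stab w) fun S => ?_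
  · exact ⟨this.1, this.2.1⟩
  · have h1 := conj_inf (inv_mem hg) _ hd
    rw [inv_smul_smul, inv_inv] at h1
    refine ⟨_, h1, ?_⟩
    change s.ι g * (s.ι g⁻¹ * d * s.ι g) * s.ι g⁻¹ = d
    rw [← mul_assoc, ← mul_assoc, ι_mul_inv, one_mul, mul_assoc, ι_mul_inv, mul_one]
  · rintro _ ⟨d, hd, rfl⟩
    exact conj_inf hg w hd
  · have e' : s.ι g • v = s.ι g • v' := e
    rw [← ι_inv_smul g v, e', ι_inv_smul]
  · change s.ι g • d • v = (s.ι g * d * s.ι g⁻¹) • s.ι g • v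
    rw [mul_smul, mul_smul, ι_inv_smul]
  · rw [Equiv.refl_toEmbedding, Finset.map_refl]
    refine le_antisymm (fun v hv => ?_) ?_
    · have h1 := h.eqv _ (inv_mem hg) _ S v hv
      rw [inv_smul_smul] at h1
      exact ⟨_, h1, ι_smul_inv g v⟩
    · rintro _ ⟨v, hv, rfl⟩
      exact h.eqv g hg w S v hv

end PIND2

open PIND2 in
theorem p_ind2 (h1 : S_IND2a.{u}) (hHB : S_HB.{u}) (hTR : S_TR.{u}) : S_IND2.{u} := by
  intro s V W I _ _ _ _ _ A G hL hG
  choose J z hz using fun (n : ℕ) (q : orbitRel.Quotient A W) =>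
    (hHB _ V I (spF (s.fld (A ⊓ stabilizer s.Γ q.out)) (G q.out)) n).1
  have a := fun n q => (hHB _ V I _ n).2 _ _ (hz n q)
  have b := fun n => (hHB _ _ I _ n).2 _ _ (h1 s V W I A G hL hG n (J n) (z n) (hz n))
  have tb : Tame (spF (s.fld A) fun S => s.T A fun w => G w S) ↔
      ((∀ n, Finite (Σ q, J n q)) ∧ ∃ N, ∀ n, N ≤ n → IsEmpty (Σ q, J n q)) :=
    and_congr (forall_congr' fun n => (b n).1)
      (exists_congr fun N => forall₂_congr fun n _ => (b n).2.2)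
  have ta : ∀ q : orbitRel.Quotient A W, Tame (spF (s.fld (A ⊓ stabilizer s.Γ q.out)) (G q.out)) ↔
      ((∀ n, Finite (J n q)) ∧ ∃ N, ∀ n, N ≤ n → IsEmpty (J n q)) := fun q =>
    and_congr (forall_congr' fun n => (a n q).1)
      (exists_congr fun N => forall₂_congr fun n _ => (a n q).2.2)
  have aa : ∀ q : orbitRel.Quotient A W, Acyc (spF (s.fld (A ⊓ stabilizer s.Γ q.out)) (G q.out)) ↔
      ∀ n, IsEmpty (J n q) := fun q => forall_congr' fun n => (a n q).2.2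
  have red : ∀ P : W → Prop, (∀ (g : A) w, P (g • w) → P w) →
      (∀ q : orbitRel.Quotient A W, P q.out) → ∀ w, P w := fun P h h' w => by
    obtain ⟨g, hg⟩ := exists_out (Γ := A) w
    exact h g w (hg ▸ h' _)
  refine ⟨?_, fun h => red _ (fun g w => (move hTR hG g.2 w).2.2) fun q =>
    (aa q).2 fun n => ⟨fun x => ((b n).2.2.1 (h n)).false ⟨q, x⟩⟩, fun h => ?_⟩
  · rw [tb, tame_iff, cof_iff fun (g : A) w => mt (move hTR hG g.2 w).2.2]
    simp only [aa]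
    exact and_congr_left fun _ => ⟨fun h => red _ (fun g w => (move hTR hG g.2 w).1.2)
      fun q => (ta q).2 (h q), fun h q => (ta q).1 (h _)⟩
  · obtain ⟨h2, N, h3⟩ := tb.1 h
    simp only [osz, chi, fun n q => (a n q).2.1, fun n => (b n).2.1]
    exact chi_eq h2 h3

end Pool.Agent.P.MP_0f25e6_al.VT
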