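import Pool.Agent.P.MP_0f25e6_al.VT.Spec

/-!
Bases of the cohomology at orbit representatives give a basis for the induced family.
-/

set_option autoImplicit false

open MulAction

noncomputable section

namespace Pool.Agent.P.MP_0f25e6_al.VT

universe u

open Sys

namespace PIND2a

section Co

variable {L L' E E' I : Type*} [DivisionRing L] [DivisionRing L'] [AddCommGroup E] [Module L E]
  [AddCommGroup E'] [Module L' E']

variable (L L') in
theorem dd_comp (f : E →+ E') (n : ℕ) (φ : Co I E n) :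
    dd L' n (fun τ => f (φ τ)) = fun τ => f (dd L n φ τ) := by
  ext τ
  simp only [dd_apply, map_sum, map_zsmul]

variable [DecidableEq I] {B : Finset I → Submodule L E} {B' : Finset I → Submodule L' E'}

theorem comp_Zn (f : E →+ E') (hf : ∀ S, ∀ x ∈ B S, f x ∈ B' S) {n : ℕ} {φ : Co I E n}
    (h : φ ∈ Zn B n) : (fun τ => f (φ τ)) ∈ Zn B' n := by
  refine mem_Zn.2 ⟨fun τ => hf _ _ (h.1 τ), ?_⟩
  rw [dd_comp L L', (mem_Zn.1 h).2]
  ext τ
  exact map_zero f

theorem comp_Bn (f : E →+ E') (hf : ∀ S, ∀ x ∈ B S, f x ∈ B' S) {n : ℕ} {φ : Co I E n}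
    (h : φ ∈ Bn B n) : (fun τ => f (φ τ)) ∈ Bn B' n := by
  cases n with
  | zero =>
    rw [mem_Bn_zero] at h ⊢
    subst h
    ext τ
    exact map_zero f
  | succ n =>
    obtain ⟨ψ, hψ, rfl⟩ := mem_Bn_succ.1 h
    exact mem_Bn_succ.2 ⟨fun τ => f (ψ τ), fun τ => hf _ _ (hψ τ), dd_comp L L' f n ψ⟩

end Co

variable {s : Sys.{u}} {V W : Type u} [AddCommGroup V] [Module s.D V] [MulAction s.Γ W]
  {A : Subgroup s.Γ}

theorem exists_out (w : W) : ∃ (q : orbitRel.Quotient A W), ∃ α ∈ A, α • q.out = w := by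
  have h : orbitRel A W w (Quotient.mk'' w : orbitRel.Quotient A W).out :=
    Quotient.exact' (Quotient.out_eq' _).symm
  obtain ⟨α, hα⟩ := orbitRel_apply.1 h
  exact ⟨_, α, α.2, hα⟩

theorem out_ne {q q' : orbitRel.Quotient A W} (h : q' ≠ q) : ∀ α ∈ A, α • q.out ≠ q'.out :=
  fun α hα e => h (by
    rw [← Quotient.out_eq' q, ← Quotient.out_eq' q']
    exact Quotient.sound' (orbitRel_apply.2 ⟨⟨α, hα⟩, e⟩))

/-- generators at the orbit representatives are enough -/
theorem T_le' {Z : W → AddSubgroup V} (hZ : ∀ g ∈ A, ∀ w, ∀ v ∈ Z w, s.ι g • v ∈ Z (g • w))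
    {M : AddSubgroup (s.Ten W V)}
    (h : ∀ d ∈ s.fld A, ∀ q : orbitRel.Quotient A W, ∀ z ∈ Z q.out, d • s.t q.out z ∈ M) :
    s.T A Z ≤ M := T_le fun d hd w z hz => by
  obtain ⟨q, α, hα, rfl⟩ := exists_out (A := A) w
  rw [t_act', smul_smul]
  refine h _ (mul_mem hd (ι_mem hα)) q _ ?_
  simpa only [inv_smul_smul] using hZ _ (inv_mem hα) _ _ hz

variable (s V W A) in
/-- the coordinates -/
theorem coords (hRB : S_RB.{u}) (hL : s.LDC) :
    ∃ (K : orbitRel.Quotient A W → Type u) (a : ∀ q, K q → s.D) (l : ∀ q, K q → s.D →+ s.D)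
      (Λ : ∀ q, K q → s.Ten W V →+ V), (∀ q j, a q j ∈ s.fld A) ∧
      (∀ q j d, l q j d ∈ s.fld (A ⊓ stabilizer s.Γ q.out)) ∧
      (∀ q, ∀ d ∈ s.fld A, {j | l q j d ≠ 0}.Finite ∧ d = ∑ᶠ j, a q j * l q j d) ∧
      (∀ q j, ∀ d ∈ s.fld A, ∀ z, Λ q j (d • s.t q.out z) = l q j d • z) ∧
      ∀ q j q', q' ≠ q → ∀ d ∈ s.fld A, ∀ z, Λ q j (d • s.t q'.out z) = 0 := by
  choose K a l h1 h2 h3 _ _ _ h4 using fun q : orbitRel.Quotient A W =>
    hRB s.D (s.fld (A ⊓ stabilizer s.Γ q.out)) ⊥ (s.fld A).toAddSubgroup bot_le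
      (fun y hy κ _ => by rw [AddSubgroup.mem_bot.1 hy, zero_mul]; exact zero_mem _)
      fun y hy κ hκ => (s.fld A).mul_mem hy (fld_mono inf_le_left hκ)
  choose C h5 h6 using fun (q : orbitRel.Quotient A W) (j : K q) =>
    hL W q.out A (l q j) (fun d _ => h2 q j d) fun d _ κ hκ => h3 q j d κ hκ
  refine ⟨K, a, l, fun q j => (C q j).Λ V, h1, h2, fun q d hd => ⟨(h4 q d hd).1,
    sub_eq_zero.1 (AddSubgroup.mem_bot.1 (h4 q d hd).2)⟩, fun q j d hd z => ?_,
    fun q j q' hq d hd z => ?_⟩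
  · rw [Coord.Λ_t, h5 q j d hd]
  · rw [Coord.Λ_t, h6 q j d hd _ (out_ne hq), zero_smul]

section

variable {K : orbitRel.Quotient A W → Type u} {a : ∀ q, K q → s.D} {l : ∀ q, K q → s.D →+ s.D}
  {Λ : ∀ q, K q → s.Ten W V →+ V}

/-- the expansion of an element in the coordinates -/
theorem expand (h2 : ∀ q j d, l q j d ∈ s.fld (A ⊓ stabilizer s.Γ q.out))
    (h3 : ∀ q, ∀ d ∈ s.fld A, {j | l q j d ≠ 0}.Finite ∧ d = ∑ᶠ j, a q j * l q j d)
    (h4 : ∀ q j, ∀ d ∈ s.fld A, ∀ z, Λ q j (d • s.t q.out z) = l q j d • z)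
    (h5 : ∀ q j q', q' ≠ q → ∀ d ∈ s.fld A, ∀ z, Λ q j (d • s.t q'.out z) = 0)
    {ε : s.Ten W V} (hε : ε ∈ s.T A fun _ => ⊤) : ∀ᶠ t : Finset (Σ q, K q) in Filter.atTop,
      ε = ∑ p ∈ t, a p.1 p.2 • s.t p.1.out (Λ p.1 p.2 ε) := by
  classical
  let M : AddSubgroup (s.Ten W V) :=
    { carrier := {ε | ∀ᶠ t : Finset (Σ q, K q) in Filter.atTop,
        ε = ∑ p ∈ t, a p.1 p.2 • s.t p.1.out (Λ p.1 p.2 ε)}
      add_mem' := fun {x y} hx hy => (Filter.Eventually.and hx hy).mono fun t h => by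
        simp only [map_add, smul_add, Finset.sum_add_distrib]
        rw [← h.1, ← h.2]
      zero_mem' := Filter.Eventually.of_forall fun t => by simp
      neg_mem' := fun {x} hx => Filter.Eventually.mono hx fun t h => by
        simp only [map_neg, smul_neg, Finset.sum_neg_distrib]
        rw [← h] }
  refine T_le' (M := M) (fun _ _ _ _ _ => AddSubgroup.mem_top _) (fun d hd q z _ => ?_) hε
  obtain ⟨h6, h7⟩ := h3 q d hd
  refine (Filter.eventually_ge_atTop (h6.toFinset.map (Function.Embedding.sigmaMk q))).mono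
    fun t ht => ?_
  rw [← Finset.sum_subset ht, Finset.sum_map]
  · rw [finsum_eq_sum_of_support_subset (s := h6.toFinset) _ fun j hj => by
      simpa using right_ne_zero_of_mul hj] at h7
    conv_lhs => rw [h7, Finset.sum_smul]
    refine Finset.sum_congr rfl fun j _ => ?_
    change _ = a q j • s.t q.out (Λ q j _)
    rw [h4 q j d hd, t_smul (fld_mono inf_le_right (h2 q j d)), mul_smul]
  · rintro ⟨q', j⟩ - hp
    by_cases e : q = q'
    · subst e
      have : l q j d = 0 := by simpa using hp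
      rw [h4 q j d hd, this, zero_smul, map_zero, smul_zero]
    · rw [h5 q' j q e d hd, map_zero, smul_zero]

end

end PIND2a

open PIND2a

theorem p_ind2a (hRB : S_RB.{u}) : S_IND2a.{u} := by
  intro s V W I _ _ _ _ _ A G hL hG n J z hz
  classical
  obtain ⟨K, a, l, Λ, h1, h2, h3, h4, h5⟩ := coords s V W A hRB hL
  have ht : ∀ (q : orbitRel.Quotient A W) S, ∀ x ∈ spF (s.fld (A ⊓ stabilizer s.Γ q.out)) (G q.out) S,
      s.t q.out x ∈ spF (s.fld A) (fun S => s.T A fun w => G w S) S := fun q S x hx => by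
    have := mem_T (Z := fun w => G w S) (one_mem (s.fld A)) ((mem_spF (hG.stab _ S)).1 hx)
    rw [one_smul] at this
    exact Submodule.subset_span this
  have hΛ : ∀ (q : orbitRel.Quotient A W) j S,
      ∀ x ∈ spF (s.fld A) (fun S => s.T A fun w => G w S) S,
      Λ q j x ∈ spF (s.fld (A ⊓ stabilizer s.Γ q.out)) (G q.out) S := fun q j S x hx => by
    refine Submodule.subset_span (T_le' (M := (G q.out S).comap (Λ q j))
      (fun g hg w => hG.eqv g hg w S) (fun d hd q' y hy => ?_) ((mem_spF (stab_T _ _)).1 hx))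
    change Λ q j _ ∈ G q.out S
    by_cases e : q' = q
    · subst e
      rw [h4 q' j d hd]
      exact hG.stab _ S _ (h2 q' j d) y hy
    · rw [h5 q j q' e d hd]
      exact zero_mem _
  refine ⟨fun p => comp_Zn (s.t p.1.out) (ht p.1) ((hz p.1).1 p.2), fun φ hφ => ?_, fun c hc => ?_⟩
  · obtain ⟨t, h6⟩ := (Filter.eventually_all.2 fun τ => expand h2 h3 h4 h5 (ε := φ τ)
      (T_mono le_rfl (fun _ => le_top) ((mem_spF (stab_T _ _)).1 (hφ.1 τ)))).exists
    have e : φ = ∑ p ∈ t, (⟨a p.1 p.2, h1 p.1 p.2⟩ : s.fld A) •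
        fun τ => s.t p.1.out (Λ p.1 p.2 (φ τ)) := by
      ext τ
      rw [Finset.sum_apply]
      exact h6 τ
    rw [e]
    refine Submodule.sum_mem _ fun p _ => Submodule.smul_mem _ _ ?_
    obtain ⟨x, hx, y, hy, h7⟩ :=
      Submodule.mem_sup.1 ((hz p.1).2.1 (comp_Zn (Λ p.1 p.2) (hΛ p.1 p.2) hφ))
    refine Submodule.mem_sup.2 ⟨fun τ => s.t p.1.out (x τ), ?_, fun τ => s.t p.1.out (y τ),
      comp_Bn _ (ht p.1) hy, ?_⟩
    · clear h7
      induction hx using Submodule.span_induction with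
      | mem x hx =>
        obtain ⟨i, rfl⟩ := hx
        exact Submodule.subset_span ⟨⟨p.1, i⟩, rfl⟩
      | zero => simp only [Pi.zero_apply, map_zero]; exact zero_mem _
      | add x y _ _ hx hy => simp only [Pi.add_apply, map_add]; exact add_mem hx hy
      | smul κ x _ hx =>
        have := Submodule.smul_mem _ (⟨κ, fld_mono inf_le_left κ.2⟩ : s.fld A) hx
        convert this using 1
        ext τ
        exact t_smul (fld_mono inf_le_right κ.2) (x τ)
    · ext τ
      rw [Pi.add_apply, ← map_add]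
      exact congrArg _ (congrFun h7 τ)
  · have key : ∀ q j (c : (Σ q, J q) →₀ s.fld A),
        ∃ b : J q →₀ s.fld (A ⊓ stabilizer s.Γ q.out), (∀ i, (b i : s.D) = l q j (c ⟨q, i⟩)) ∧
          (fun τ => Λ q j (Finsupp.linearCombination (s.fld A)
            (fun (p : Σ q, J q) τ => s.t p.1.out (z p.1 p.2 τ)) c τ)) =
          Finsupp.linearCombination _ (z q) b := by
      intro q j c
      induction c using Finsupp.induction_linear with
      | zero => exact ⟨0, by simp, by ext; simp⟩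
      | add c c' hc hc' =>
        obtain ⟨b, e1, e2⟩ := hc
        obtain ⟨b', e1', e2'⟩ := hc'
        refine ⟨b + b', fun i => by simp [e1, e1'], ?_⟩
        rw [map_add, map_add, ← e2, ← e2']
        ext τ
        simp
      | single p d =>
        obtain ⟨q', i'⟩ := p
        by_cases e : q' = q
        · subst e
          refine ⟨Finsupp.single i' ⟨l q' j d, h2 q' j d⟩, fun i => ?_, ?_⟩
          · by_cases e : i' = i
            · simp [e]
            · simp [e]
          · ext τ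
            rw [Finsupp.linearCombination_single, Finsupp.linearCombination_single]
            exact h4 q' j d d.2 _
        · refine ⟨0, fun i => by simp [e], ?_⟩
          ext τ
          rw [Finsupp.linearCombination_single, map_zero]
          exact h5 q j q' e d d.2 _
    ext ⟨q, i⟩
    have h6 : ∀ j, l q j (c ⟨q, i⟩) = 0 := fun j => by
      obtain ⟨b, e1, e2⟩ := key q j c
      rw [← e1, (hz q).2.2 b (e2 ▸ comp_Bn _ (hΛ q j) hc)]
      rfl
    rw [(h3 q _ (c ⟨q, i⟩).2).2]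
    simp [h6]

end Pool.Agent.P.MP_0f25e6_al.VT
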