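import Pool.Agent.P.MP_0f25e6_al.VT.Spec

/-!
Invariance of the families under the group, comparison of the two kinds of families, and the
step from `FINP n` to `FIN (n + 1)`.
-/

set_option autoImplicit false

open MulAction

noncomputable section

namespace Pool.Agent.P.MP_0f25e6_al.VT

universe u

open Sys

namespace INV

/-- Conjugation by a group element. -/
def cj (s : Sys.{u}) (g : s.Γ) : s.D →+* s.D where
  toFun d := s.ι g * d * s.ι g⁻¹
  map_one' := by rw [mul_one, ι_mul_inv]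
  map_mul' a b := by
    rw [mul_assoc _ (s.ι g⁻¹), ← mul_assoc (s.ι g⁻¹), ← mul_assoc (s.ι g⁻¹), ι_inv_mul, one_mul]
    simp only [mul_assoc]
  map_zero' := by rw [mul_zero, zero_mul]
  map_add' a b := by rw [mul_add, add_mul]

theorem cj_apply (s : Sys.{u}) (g : s.Γ) (d : s.D) : cj s g d = s.ι g * d * s.ι g⁻¹ := rfl

theorem fld_smul (s : Sys.{u}) {X : Type u} [MulAction s.Γ X] (g : s.Γ) (x : X) :
    s.fld (stabilizer s.Γ (g • x)) = (s.fld (stabilizer s.Γ x)).map (cj s g) := by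
  ext d
  constructor
  · intro hd
    have h := conj_stab g⁻¹ hd
    rw [inv_smul_smul, inv_inv] at h
    refine ⟨_, h, ?_⟩
    rw [cj_apply, ← mul_assoc, ← mul_assoc, ι_mul_inv, one_mul, mul_assoc, ι_mul_inv, mul_one]
  · rintro ⟨d, hd, rfl⟩
    exact conj_stab g hd

theorem inv_aux (h : S_TR.{u}) (s : Sys.{u}) {V X I : Type u} [AddCommGroup V] [Module s.D V]
    [MulAction s.Γ X] [DecidableEq I] (g : s.Γ) (x : X) (G G' : Finset I → AddSubgroup V)
    (hs : ∀ S, Stab (s.fld (stabilizer s.Γ x)) (G S))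
    (h1 : ∀ S, ∀ v ∈ G S, s.ι g • v ∈ G' S) (h2 : ∀ S, ∀ v ∈ G' S, s.ι g⁻¹ • v ∈ G S) :
    (Tame (spF (s.fld (stabilizer s.Γ (g • x))) G') ↔ Tame (spF (s.fld (stabilizer s.Γ x)) G)) ∧
      (Acyc (spF (s.fld (stabilizer s.Γ (g • x))) G') ↔
        Acyc (spF (s.fld (stabilizer s.Γ x)) G)) ∧
      chi (spF (s.fld (stabilizer s.Γ (g • x))) G') = chi (spF (s.fld (stabilizer s.Γ x)) G) := by
  have key := h s.D s.D V V I I (cj s g) (s.fld (stabilizer s.Γ x))
    (s.fld (stabilizer s.Γ (g • x))) (DistribSMul.toAddMonoidHom V (s.ι g)) (Equiv.refl I) G G'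
    (fld_smul s g x)
    (fun a b hab => by
      have hab' : s.ι g • a = s.ι g • b := hab
      rw [← ι_inv_smul g a, hab', ι_inv_smul])
    (fun d _ v => by
      change s.ι g • d • v = cj s g d • s.ι g • v
      rw [cj_apply, mul_smul, mul_smul, ι_inv_smul])
    hs
    (fun S => by
      have hS : S.map (Equiv.refl I).toEmbedding = S := by
        ext i
        simp
      rw [hS]
      ext v
      constructor
      · intro hv
        exact ⟨_, h2 S v hv, ι_smul_inv g v⟩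
      · rintro ⟨v, hv, rfl⟩
        exact h1 S v hv)
  exact ⟨key.1.symm, key.2.1.symm, key.2.2.symm⟩

theorem tr_eq {s : Sys.{u}} {V I : Type u} [AddCommGroup V] [Module s.D V] [DecidableEq I]
    {A B : Subgroup s.Γ} (h : A = B) (G : Finset I → AddSubgroup V) :
    (Tame (spF (s.fld A) G) ↔ Tame (spF (s.fld B) G)) ∧
      (Acyc (spF (s.fld A) G) ↔ Acyc (spF (s.fld B) G)) ∧
      chi (spF (s.fld A) G) = chi (spF (s.fld B) G) := by
  subst h
  exact ⟨Iff.rfl, Iff.rfl, rfl⟩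

section Upd

variable {s : Sys.{u}} {V W I : Type u} [AddCommGroup V] [Module s.D V] [MulAction s.Γ W]
  [DecidableEq I] (𝓕 : s.Fam V W)

theorem stab_update {k : I} {c : I → W} (w : W) (hc : c k = 𝓕.star) :
    stabilizer s.Γ (Function.update c k w) = stabilizer s.Γ (w, c) := by
  ext g
  simp only [mem_stabilizer_iff, Prod.smul_mk, Prod.mk.injEq, funext_iff, Pi.smul_apply]
  constructor
  · intro h
    refine ⟨by simpa using h k, fun i => ?_⟩
    by_cases hi : i = k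
    · rw [hi, hc, 𝓕.star_fix]
    · simpa [Function.update_of_ne hi] using h i
  · rintro ⟨h1, h2⟩ i
    by_cases hi : i = k
    · rw [hi, Function.update_self, h1]
    · rw [Function.update_of_ne hi, h2]

omit [DecidableEq I] in
theorem le_sum (c : I → W) {S : Finset I} {i : I} (hi : i ∈ S) : 𝓕.F (c i) ≤ 𝓕.sum c S :=
  le_iSup₂_of_le (f := fun i (_ : i ∈ S) => 𝓕.F (c i)) i hi le_rfl

omit [DecidableEq I] in
theorem sum_top {k : I} {c : I → W} (hc : c k = 𝓕.star) {S : Finset I} (hk : k ∈ S) :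
    𝓕.sum c S = ⊤ := by
  have h := le_sum 𝓕 c hk
  rwa [hc, 𝓕.F_star, top_le_iff] at h

theorem sum_update {k : I} (c : I → W) (w : W) {S : Finset I} (hk : k ∉ S) :
    𝓕.sum (Function.update c k w) S = 𝓕.sum c S :=
  biSup_congr fun i hi => by rw [Function.update_of_ne (by rintro rfl; exact hk hi)]

theorem sum_insert {k : I} (c : I → W) (w : W) (S : Finset I) :
    𝓕.sum (Function.update c k w) (insert k S) = 𝓕.F w ⊔ 𝓕.sum (Function.update c k w) S := by
  unfold Fam.sum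
  rw [Finset.iSup_insert, Function.update_self]

theorem qiso (h1 : S_QI.{u}) {k : I} {c : I → W} (w : W) (hc : c k = 𝓕.star) :
    QIso (𝓕.Bp (w, c)) (spF (s.fld (stabilizer s.Γ (w, c))) (𝓕.sum (Function.update c k w))) := by
  have hB : ∀ S, Stab (s.fld (stabilizer s.Γ (w, c))) (𝓕.sum (Function.update c k w) S) :=
    fun S => stab_update 𝓕 w hc ▸ 𝓕.stab_sum (Function.update c k w) S
  have hB' : ∀ S, Stab (s.fld (stabilizer s.Γ (w, c))) (𝓕.F w ⊓ 𝓕.sum c S) :=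
    𝓕.stab_inf_sum (w, c)
  have m1 : ∀ S v, v ∈ spF (s.fld (stabilizer s.Γ (w, c))) (𝓕.sum (Function.update c k w)) S ↔
      v ∈ 𝓕.sum (Function.update c k w) S := fun S v => mem_spF (hB S)
  have m2 : ∀ S v, v ∈ 𝓕.Bp (w, c) S ↔ v ∈ 𝓕.F w ⊓ 𝓕.sum c S := fun S v =>
    mem_spF (G := fun S => 𝓕.F w ⊓ 𝓕.sum c S) (hB' S)
  refine h1 _ V I _ _ k (spF_mono _ fun S T h => inf_le_inf_left _ (𝓕.sum_mono c h))
    (spF_mono _ (𝓕.sum_mono _)) (fun S v hv => ?_) ?_ (fun S v hv => ?_) fun S v hv => ?_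
  · rw [m2] at hv
    rw [m1]
    by_cases hk : k ∈ S
    · have h := le_sum 𝓕 (Function.update c k w) hk
      rw [Function.update_self] at h
      exact h hv.1
    · rw [sum_update 𝓕 c w hk]
      exact hv.2
  · rw [eq_bot_iff]
    intro v hv
    rw [m1, 𝓕.sum_empty] at hv
    exact hv
  · rw [m1, sum_insert, AddSubgroup.mem_sup] at hv
    obtain ⟨a, ha, b, hb, rfl⟩ := hv
    rw [add_comm]
    refine Submodule.add_mem_sup ((m1 _ _).2 hb) ((m2 _ _).2 ⟨ha, ?_⟩)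
    rw [sum_top 𝓕 hc (Finset.mem_insert_self k S)]
    trivial
  · obtain ⟨ha, hb⟩ := hv
    have ha' := (m1 _ _).1 ha
    have hb' := (m2 _ _).1 hb
    refine (m2 _ _).2 ⟨hb'.1, ?_⟩
    by_cases hk : k ∈ S
    · rw [sum_top 𝓕 hc hk]
      trivial
    · rw [← sum_update 𝓕 c w hk]
      exact ha'

end Upd

theorem fin_top {s : Sys.{u}} {V W : Type u} [AddCommGroup V] [Module s.D V] [MulAction s.Γ W]
    (𝓕 : s.Fam V W) {A : Subgroup s.Γ} (hA : A = stabilizer s.Γ 𝓕.star) :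
    Module.Finite (s.fld A) V := by
  subst hA
  obtain ⟨t, ht⟩ := 𝓕.fd 𝓕.star
  refine ⟨⟨t, eq_top_iff.2 fun v _ => (ht v).1 ?_⟩⟩
  rw [𝓕.F_star]
  trivial

theorem finrank_full {D V : Type u} [DivisionRing D] [AddCommGroup V] [Module D V]
    (L : Subfield D) (hL : ∀ d, d ∈ L) : Module.finrank L V = Module.finrank D V := by
  have h1 : Module.finrank L D = 1 :=
    finrank_eq_one (1 : D) one_ne_zero fun w => ⟨⟨w, hL w⟩, mul_one w⟩
  rw [← Module.finrank_mul_finrank L D V, h1, one_mul]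

theorem act_zero {s : Sys.{u}} {V W I : Type u} [AddCommGroup V] [Module s.D V] [MulAction s.Γ W]
    [Finite I] (𝓕 : s.Fam V W) {c : I → W} (h : 𝓕.act c ≤ 0) : c = fun _ => 𝓕.star := by
  have h' : {i | c i ≠ 𝓕.star} = ∅ := (Set.ncard_eq_zero (Set.toFinite _)).1 (Nat.le_zero.1 h)
  funext i
  by_contra hi
  exact (Set.eq_empty_iff_forall_notMem.1 h') i hi

theorem act_update {s : Sys.{u}} {V W I : Type u} [AddCommGroup V] [Module s.D V]
    [MulAction s.Γ W] [Finite I] [DecidableEq I] (𝓕 : s.Fam V W) {c : I → W} {k : I}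
    (hk : c k ≠ 𝓕.star) {n : ℕ} (h : 𝓕.act c ≤ n + 1) :
    𝓕.act (Function.update c k 𝓕.star) ≤ n := by
  have h1 : {i | Function.update c k 𝓕.star i ≠ 𝓕.star} = {i | c i ≠ 𝓕.star} \ {k} := by
    ext i
    by_cases hi : i = k
    · simp [hi]
    · simp [hi]
  have h2 := Set.ncard_sdiff_singleton_add_one (s := {i | c i ≠ 𝓕.star}) (a := k) hk
  unfold Fam.act at h ⊢
  rw [h1]
  omega

end INV

open INV

theorem p_inv (h : S_TR.{u}) : S_INV.{u} := by
  intro s V W I _ _ _ _ 𝓕 g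
  refine ⟨fun c => ?_, fun p => ?_⟩
  · refine inv_aux h s g c (𝓕.sum c) (𝓕.sum (g • c)) (𝓕.stab_sum c)
      (fun S v hv => 𝓕.smul_mem_sum g c S hv) fun S v hv => ?_
    have h := 𝓕.smul_mem_sum g⁻¹ (g • c) S hv
    rwa [inv_smul_smul] at h
  · refine inv_aux h s g p (fun S => 𝓕.F p.1 ⊓ 𝓕.sum p.2 S)
      (fun S => 𝓕.F (g • p).1 ⊓ 𝓕.sum (g • p).2 S) (𝓕.stab_inf_sum p)
      (fun S v hv => ⟨𝓕.eqv g p.1 v hv.1, 𝓕.smul_mem_sum g p.2 S hv.2⟩) fun S v hv => ?_
    have h1 := 𝓕.eqv g⁻¹ (g • p.1) v hv.1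
    have h2 := 𝓕.smul_mem_sum g⁻¹ (g • p.2) S hv.2
    rw [inv_smul_smul] at h1 h2
    exact ⟨h1, h2⟩

theorem p_qc (h1 : S_QI.{u}) (h2 : S_QIP.{u}) (h3 : S_CONST.{u}) : S_QC.{u} := by
  intro s V W I _ _ _ _ 𝓕
  refine ⟨fun k c w hc => ?_, fun hI hs => ?_⟩
  · have a := tr_eq (stab_update 𝓕 w hc) (𝓕.sum (Function.update c k w))
    have b := h2 _ V I _ _ (spF_mono _ fun S T h => inf_le_inf_left _ (𝓕.sum_mono c h))
      (spF_mono _ (𝓕.sum_mono _)) (qiso 𝓕 h1 w hc)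
    exact ⟨a.1.trans b.1.symm, a.2.1.trans b.2.1.symm, a.2.2.trans b.2.2.1.symm⟩
  · have e1 : stabilizer s.Γ (fun _ : I => 𝓕.star) = ⊤ :=
      eq_top_iff.2 fun g _ => funext fun _ => 𝓕.star_fix g
    have e2 : stabilizer s.Γ 𝓕.star = ⊤ := eq_top_iff.2 fun g _ => 𝓕.star_fix g
    have := fin_top 𝓕 (e1.trans e2.symm)
    have a := h3 _ V I (𝓕.Bc fun _ : I => 𝓕.star) fun S ⟨k, hk⟩ => eq_top_iff.2 fun v _ => by
      rw [mem_spF (𝓕.stab_sum _ S), sum_top 𝓕 (c := fun _ => 𝓕.star) rfl hk]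
      trivial
    refine ⟨a.1, a.2.trans ?_⟩
    rw [finrank_full _ fun d => e1 ▸ hs d]

theorem p_fins (h : S_QC.{u}) : S_FINS.{u} := by
  classical
  refine ⟨fun s hs V W _ _ _ _ 𝓕 I _ _ hI => ⟨fun c hc => ?_, {fun _ => 𝓕.star}, ?_⟩,
    fun n hn s hs V W _ _ _ _ 𝓕 I _ _ hI => ?_⟩
  · rw [act_zero 𝓕 hc]
    exact ((h s V W I 𝓕).2 hI hs.gen).1
  · rintro c ⟨hc, -⟩
    exact ⟨1, by rw [one_smul, act_zero 𝓕 hc]; exact Finset.mem_singleton_self _⟩
  · obtain ⟨hT, t, ht⟩ := hn s hs V W 𝓕 I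
    have key : ∀ (c : I → W) (k : I),
        (Tame (𝓕.Bc c) ↔ Tame (𝓕.Bp (c k, Function.update c k 𝓕.star))) ∧
        (Acyc (𝓕.Bc c) ↔ Acyc (𝓕.Bp (c k, Function.update c k 𝓕.star))) := fun c k => by
      have a := (h s V W I 𝓕).1 k (Function.update c k 𝓕.star) (c k) (Function.update_self _ _ _)
      rw [Function.update_idem, Function.update_eq_self] at a
      exact ⟨a.1, a.2.1⟩
    refine ⟨fun c hc => ?_, insert (fun _ => 𝓕.star)
      (Finset.univ.biUnion fun k => t.image fun p => Function.update p.2 k p.1), ?_⟩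
    · by_cases h0 : c = fun _ => 𝓕.star
      · rw [h0]
        exact ((h s V W I 𝓕).2 hI hs.gen).1
      · obtain ⟨k, hk⟩ := Function.ne_iff.1 h0
        exact (key c k).1.2 (hT _ (act_update 𝓕 hk hc))
    · rintro c ⟨hc, ha⟩
      by_cases h0 : c = fun _ => 𝓕.star
      · exact ⟨1, by rw [one_smul, h0]; exact Finset.mem_insert_self _ _⟩
      · obtain ⟨k, hk⟩ := Function.ne_iff.1 h0
        obtain ⟨g, hg⟩ := ht (c k, Function.update c k 𝓕.star)
          ⟨act_update 𝓕 hk hc, fun h' => ha ((key c k).2.2 h')⟩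
        refine ⟨g, Finset.mem_insert_of_mem (Finset.mem_biUnion.2 ⟨k, Finset.mem_univ _,
          Finset.mem_image.2 ⟨_, hg, ?_⟩⟩)⟩
        funext i
        by_cases hi : i = k
        · subst hi
          simp
        · simp [hi]

end Pool.Agent.P.MP_0f25e6_al.VT
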