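import Pool.Agent.P.MP_0f25e6_al.VT.Spec

/-!
The derivations of a lamp extension: support, base change, and the key left inverse.
-/

set_option autoImplicit false

open MulAction

noncomputable section

namespace Pool.Agent.P.MP_0f25e6_al.VT

universe u

open Sys

namespace KEY

variable {s s' : Sys.{u}} {W : Type u} [MulAction s.Γ W] (𝓛 : s.Lamp s' W)

theorem der_one (i : ℕ) : 𝓛.der i 1 = 0 := by
  have h := 𝓛.der_alg i 1
  rwa [map_one] at h

theorem der_inv (i : ℕ) {x : s'.D} (hx : x ≠ 0) :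
    𝓛.der i x⁻¹ =
      -(x⁻¹ • map 𝓛.W' (LinearMap.toSpanSingleton s'.D s'.D x⁻¹) (𝓛.der i x)) := by
  have h := 𝓛.leib i x x⁻¹
  rw [mul_inv_cancel₀ hx, der_one] at h
  have h2 : x • 𝓛.der i x⁻¹ =
      -(map 𝓛.W' (LinearMap.toSpanSingleton s'.D s'.D x⁻¹) (𝓛.der i x)) :=
    eq_neg_of_add_eq_zero_left h.symm
  rw [← smul_neg, ← h2, smul_smul, inv_mul_cancel₀ hx, one_smul]

theorem grp {Q : s'.D → Prop} (h1 : Q 1) (hmul : ∀ x y, Q x → Q y → Q (x * y))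
    (hinv : ∀ x, x ≠ 0 → Q x → Q x⁻¹) (hx : ∀ i w, Q (s'.ι (𝓛.x i (𝓛.sec w)))) (g : s'.Γ)
    (hg : Q (s'.ι (𝓛.e (𝓛.p g)))) : Q (s'.ι g) := by
  have hn : 𝓛.p (g * (𝓛.e (𝓛.p g))⁻¹) = 1 := by
    rw [map_mul, map_inv, 𝓛.p_e, mul_inv_cancel]
  have hQ : ∀ n ∈ Subgroup.closure {y | ∃ i w, y = 𝓛.x i (𝓛.sec w)}, Q (s'.ι n) := by
    intro n hn
    induction hn using Subgroup.closure_induction with
    | mem y hy =>
      obtain ⟨i, w, rfl⟩ := hy
      exact hx i w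
    | one => rwa [map_one]
    | mul a b _ _ ha hb =>
      rw [map_mul]
      exact hmul _ _ ha hb
    | inv a _ ha =>
      rw [map_inv]
      exact hinv _ (ι_ne_zero a) ha
  have h := hmul _ _ (hQ _ (𝓛.ker _ hn)) hg
  rwa [← map_mul, inv_mul_cancel_right] at h

theorem map_mem_T {W' V' : Type u} [MulAction s'.Γ W'] [AddCommGroup V'] [Module s'.D V']
    {B : Subgroup s'.Γ} {Z : AddSubgroup s'.D} {Z' : AddSubgroup V'} {v : V'}
    (h : ∀ z ∈ Z, z • v ∈ Z') {η : s'.Ten W' s'.D} (hη : η ∈ s'.T B fun _ => Z) :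
    map W' (LinearMap.toSpanSingleton s'.D V' v) η ∈ s'.T B fun _ => Z' :=
  T_le (M := (s'.T B fun _ => Z').comap
    (map W' (LinearMap.toSpanSingleton s'.D V' v)).toAddMonoidHom) (fun d hd w z hz => by
      change map W' (LinearMap.toSpanSingleton s'.D V' v) (d • s'.t w z) ∈ s'.T B fun _ => Z'
      rw [map_smul, map_t, LinearMap.toSpanSingleton_apply]
      exact mem_T hd (h z hz)) hη

theorem sup1 (i : ℕ) (A : Subgroup s.Γ) : ∀ a ∈ s'.fld (A.comap 𝓛.p),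
    𝓛.der i a ∈ s'.T (A.comap 𝓛.p) fun _ => (s'.fld (A.comap 𝓛.p)).toAddSubgroup := by
  set B := A.comap 𝓛.p with hB
  let Q : s'.D → Prop := fun d =>
    d ∈ s'.fld B ∧ 𝓛.der i d ∈ s'.T B fun _ => (s'.fld B).toAddSubgroup
  have hR : ∀ y ∈ s'.fld B, ∀ η ∈ s'.T B fun _ : 𝓛.W' => (s'.fld B).toAddSubgroup,
      map 𝓛.W' (LinearMap.toSpanSingleton s'.D s'.D y) η ∈
        s'.T B fun _ => (s'.fld B).toAddSubgroup := fun y hy η hη =>
    map_mem_T (fun z hz => (s'.fld B).mul_mem hz hy) hη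
  have hmul : ∀ x y, Q x → Q y → Q (x * y) := fun x y hx hy => ⟨mul_mem hx.1 hy.1, by
    rw [𝓛.leib]
    exact add_mem (smul_mem_T hx.1 hy.2) (hR y hy.1 _ hx.2)⟩
  have hinv : ∀ x, x ≠ 0 → Q x → Q x⁻¹ := fun x h0 hx => ⟨inv_mem hx.1, by
    rw [der_inv 𝓛 i h0]
    exact neg_mem (smul_mem_T (inv_mem hx.1) (hR _ (inv_mem hx.1) _ hx.2))⟩
  have h1 : Q 1 := ⟨one_mem _, by rw [der_one]; exact zero_mem _⟩
  have hx : ∀ i' w, Q (s'.ι (𝓛.x i' (𝓛.sec w))) := fun i' w => by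
    refine ⟨ι_mem ?_, ?_⟩
    · rw [hB, Subgroup.mem_comap, 𝓛.p_x]
      exact one_mem _
    · by_cases h : i = i'
      · subst h
        rw [𝓛.der_self, ← one_smul s'.D (s'.t (𝓛.sec w) (1 : s'.D))]
        exact mem_T (one_mem _) (one_mem (s'.fld B))
      · rw [𝓛.der_ne i i' w h]
        exact zero_mem _
  intro a ha
  refine (fld_induction (P := Q) (fun c => ⟨alg_mem _ c, ?_⟩) (fun g hg => ?_)
    (fun x _ y _ hx hy => ⟨add_mem hx.1 hy.1, ?_⟩) (fun x _ y _ hx hy => hmul x y hx hy)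
    (fun x _ h0 hx => hinv x h0 hx) ha).2
  · rw [𝓛.der_alg]
    exact zero_mem _
  · refine grp 𝓛 h1 hmul hinv hx g ⟨ι_mem ?_, ?_⟩
    · rw [hB, Subgroup.mem_comap, 𝓛.p_e]
      exact hg
    · rw [← 𝓛.j_ι, 𝓛.der_j]
      exact zero_mem _
  · rw [map_add]
    exact add_mem hx.2 hy.2

theorem sup2 (h : s'.Gen) (d : s'.D) : ∃ N, ∀ i, N ≤ i → 𝓛.der i d = 0 := by
  let Q : s'.D → Prop := fun d => ∃ N, ∀ i, N ≤ i → 𝓛.der i d = 0
  have hmul : ∀ x y, Q x → Q y → Q (x * y) := by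
    rintro x y ⟨N, hN⟩ ⟨M, hM⟩
    refine ⟨max N M, fun i hi => ?_⟩
    rw [𝓛.leib, hN i (le_of_max_le_left hi), hM i (le_of_max_le_right hi), smul_zero, map_zero,
      add_zero]
  have hinv : ∀ x, x ≠ 0 → Q x → Q x⁻¹ := by
    rintro x h0 ⟨N, hN⟩
    refine ⟨N, fun i hi => ?_⟩
    rw [der_inv 𝓛 i h0, hN i hi, map_zero, smul_zero, neg_zero]
  have h1 : Q 1 := ⟨0, fun i _ => der_one 𝓛 i⟩
  have hx : ∀ i' w, Q (s'.ι (𝓛.x i' (𝓛.sec w))) := fun i' w =>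
    ⟨i' + 1, fun i hi => 𝓛.der_ne i i' w (by omega)⟩
  refine fld_induction (P := Q) (fun c => ⟨0, fun i _ => 𝓛.der_alg i c⟩) (fun g _ => ?_)
    (fun x _ y _ hx hy => ?_) (fun x _ y _ hx hy => hmul x y hx hy)
    (fun x _ h0 hx => hinv x h0 hx) (h d)
  · refine grp 𝓛 h1 hmul hinv hx g ⟨0, fun i _ => ?_⟩
    rw [← 𝓛.j_ι, 𝓛.der_j]
  · obtain ⟨N, hN⟩ := hx
    obtain ⟨M, hM⟩ := hy
    refine ⟨max N M, fun i hi => ?_⟩
    rw [map_add, hN i (le_of_max_le_left hi), hM i (le_of_max_le_right hi), add_zero]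

section BC

variable {𝓛} {V V' : Type u} [AddCommGroup V] [Module s.D V] [AddCommGroup V'] [Module s'.D V']
  (β : 𝓛.BC V V')

theorem f_eq (v : V) : β.f v = ∑ k, 𝓛.j (β.b.repr v k) • β.b' k := by
  conv_lhs => rw [← β.b.sum_repr v]
  rw [map_sum]
  exact Finset.sum_congr rfl fun k _ => by rw [β.f_smul, β.f_b]

theorem repr_f (v : V) (k : Fin β.n) : β.b'.repr (β.f v) k = 𝓛.j (β.b.repr v k) := by
  rw [f_eq, β.b'.repr_sum_self]

theorem f_inj : Function.Injective β.f := by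
  intro v v' h
  refine β.b.ext_elem fun k => 𝓛.j.injective ?_
  rw [← repr_f, ← repr_f, h]

/-- The derivation on the extended space. -/
def DD (i : ℕ) : V' →+ s'.Ten 𝓛.W' V' :=
  ∑ k, (map 𝓛.W' (LinearMap.toSpanSingleton s'.D V' (β.b' k))).toAddMonoidHom.comp
    ((𝓛.der i).comp (β.b'.coord k).toAddMonoidHom)

theorem DD_apply (i : ℕ) (v : V') : DD β i v =
    ∑ k, map 𝓛.W' (LinearMap.toSpanSingleton s'.D V' (β.b' k)) (𝓛.der i (β.b'.repr v k)) := by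
  rw [DD, AddMonoidHom.finsetSum_apply]
  rfl

theorem sum_map (v : V') (η : s'.Ten 𝓛.W' s'.D) :
    ∑ k, map 𝓛.W' (LinearMap.toSpanSingleton s'.D V' (β.b' k))
      (map 𝓛.W' (LinearMap.toSpanSingleton s'.D s'.D (β.b'.repr v k)) η) =
      map 𝓛.W' (LinearMap.toSpanSingleton s'.D V' v) η := by
  have h : ∑ k, (map 𝓛.W' (LinearMap.toSpanSingleton s'.D V' (β.b' k))).comp
      (map 𝓛.W' (LinearMap.toSpanSingleton s'.D s'.D (β.b'.repr v k))) =
      map 𝓛.W' (LinearMap.toSpanSingleton s'.D V' v) := by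
    refine Ten.ext_lin fun w z => ?_
    rw [LinearMap.sum_apply, map_t, LinearMap.toSpanSingleton_apply]
    conv_rhs => rw [← β.b'.sum_repr v, Finset.smul_sum, map_sum]
    refine Finset.sum_congr rfl fun k _ => ?_
    rw [LinearMap.comp_apply, map_t, map_t, LinearMap.toSpanSingleton_apply,
      LinearMap.toSpanSingleton_apply, smul_smul, smul_eq_mul]
  rw [← h, LinearMap.sum_apply]
  rfl

theorem DD_smul (i : ℕ) (d : s'.D) (v : V') : DD β i (d • v) =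
    d • DD β i v + map 𝓛.W' (LinearMap.toSpanSingleton s'.D V' v) (𝓛.der i d) := by
  rw [DD_apply, DD_apply, ← sum_map β v, Finset.smul_sum, ← Finset.sum_add_distrib]
  refine Finset.sum_congr rfl fun k _ => ?_
  rw [map_smul, Finsupp.smul_apply, smul_eq_mul, 𝓛.leib, map_add, map_smul]

theorem DD_f (i : ℕ) (v : V) : DD β i (β.f v) = 0 := by
  rw [DD_apply]
  exact Finset.sum_eq_zero fun k _ => by rw [repr_f, 𝓛.der_j, map_zero]

theorem DD_eventually (h : s'.Gen) (v : V') : ∃ N, ∀ i, N ≤ i → DD β i v = 0 := by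
  choose N hN using fun k => sup2 𝓛 h (β.b'.repr v k)
  refine ⟨Finset.univ.sup N, fun i hi => ?_⟩
  rw [DD_apply]
  exact Finset.sum_eq_zero fun k _ => by
    rw [hN k i ((Finset.le_sup (Finset.mem_univ k)).trans hi), map_zero]

theorem DD_mu (h : s'.Gen) (ε : s'.Ten 𝓛.W' V') :
    ∃ N, ∀ i, N ≤ i → DD β i (𝓛.mu V' i ε) = ε := by
  induction ε using Ten.ind with
  | h0 => exact ⟨0, fun i _ => by rw [map_zero, map_zero]⟩
  | hadd x y hx hy =>
    obtain ⟨N, hN⟩ := hx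
    obtain ⟨M, hM⟩ := hy
    refine ⟨max N M, fun i hi => ?_⟩
    rw [map_add, map_add, hN i (le_of_max_le_left hi), hM i (le_of_max_le_right hi)]
  | ht d w' v =>
    obtain ⟨n, -, hn⟩ := 𝓛.surj w'
    obtain ⟨N, hN⟩ := sup2 𝓛 h (d * s'.ι n)
    obtain ⟨M, hM⟩ := DD_eventually β h (s'.ι n⁻¹ • v)
    refine ⟨max N M, fun i hi => ?_⟩
    have e1 : d • s'.t w' v = (d * s'.ι n) • s'.t (𝓛.sec (𝓛.q w')) (s'.ι n⁻¹ • v) := by
      rw [mul_smul, ← t_act', ← hn]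
    rw [e1, map_smul, Lamp.mu_t, DD_smul, DD_smul, hN i (le_of_max_le_left hi),
      hM i (le_of_max_le_right hi), 𝓛.der_self, map_t, LinearMap.toSpanSingleton_apply, one_smul,
      smul_zero, zero_add, map_zero, add_zero]

theorem DD_til (i : ℕ) (A : Subgroup s.Γ) (P : AddSubgroup V) : ∀ v ∈ β.til A P,
    DD β i v ∈ s'.T (A.comap 𝓛.p) fun _ => β.til A P := by
  intro v hv
  refine (AddSubgroup.closure_le
    ((s'.T (A.comap 𝓛.p) fun _ => β.til A P).comap (DD β i))).2 ?_ hv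
  rintro _ ⟨a, ha, y, hy, rfl⟩
  change DD β i (a • β.f y) ∈ s'.T (A.comap 𝓛.p) fun _ => β.til A P
  rw [DD_smul, DD_f, smul_zero, zero_add]
  refine map_mem_T (fun z hz => ?_) (sup1 𝓛 i A a ha)
  exact AddSubgroup.subset_closure (k := {y | ∃ a ∈ s'.fld (A.comap 𝓛.p), ∃ v ∈ P, y = a • β.f v})
    ⟨z, hz, y, hy, rfl⟩

end BC

/-- Base change with coordinates. -/
def bc1 (V : Type u) [AddCommGroup V] [Module s.D V] [Module.Finite s.D V] :
    𝓛.BC V (Fin (Module.finrank s.D V) → s'.D) where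
  f := AddMonoidHom.mk' (fun v k => 𝓛.j ((Module.finBasis s.D V).repr v k)) fun v v' => by
    funext k
    simp
  n := Module.finrank s.D V
  b := Module.finBasis s.D V
  b' := Pi.basisFun s'.D _
  f_smul d v := by
    funext k
    simp
  f_b k := by
    funext l
    simp only [AddMonoidHom.mk'_apply, Module.Basis.repr_self, Pi.basisFun_apply]
    by_cases h : l = k
    · subst h
      simp
    · rw [Finsupp.single_eq_of_ne h, Pi.single_eq_of_ne h, map_zero]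

/-- Base change of the skew field itself. -/
def bc2 : 𝓛.BC s.D s'.D where
  f := 𝓛.j.toAddMonoidHom
  n := 1
  b := Module.Basis.singleton (Fin 1) s.D
  b' := Module.Basis.singleton (Fin 1) s'.D
  f_smul d v := by simp
  f_b k := by simp

end KEY

theorem p_sup0 : S_SUP0.{u} := fun _ _ _ _ 𝓛 => ⟨KEY.sup1 𝓛, KEY.sup2 𝓛⟩

theorem p_bc : S_BC.{u} := fun _ _ _ _ 𝓛 =>
  ⟨fun V _ _ _ => ⟨_, ⟨KEY.bc1 𝓛 V⟩⟩, ⟨KEY.bc2 𝓛, fun _ => rfl⟩,
    fun _ _ _ _ _ _ β => KEY.f_inj β⟩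

theorem p_key (_h : S_SUP0.{u}) : S_KEY.{u} := fun _ _ _ _ _ _ _ _ _ _ _ β h =>
  ⟨KEY.DD β, KEY.DD_mu β h, KEY.DD_til β⟩

end Pool.Agent.P.MP_0f25e6_al.VT
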