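import Pool.Agent.P.MP_0f25e6_al.VT.Spec

/-!
From linear disjointness to the extension property for coordinates.
-/

set_option autoImplicit false

open MulAction

noncomputable section

namespace Pool.Agent.P.MP_0f25e6_al.VT

universe u

open Sys

namespace PLDC

open Classical in
/-- A relation survives the form. -/
theorem key {s : Sys.{u}} (h : s.LD) {A K : Subgroup s.Γ} (l : s.D →+ s.D)
    (hl : ∀ a ∈ s.fld A, ∀ κ ∈ s.fld (A ⊓ K), l (a * κ) = l a * κ) (n : ℕ) :
    ∀ (a k : Fin n → s.D) (γ : Fin n → s.Γ), (∀ j, a j ∈ s.fld A) → (∀ j, k j ∈ s.fld K) →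
      (∀ j, γ j = 1 ∨ ∀ α ∈ A, ∀ κ ∈ K, γ j ≠ α * κ) → ∑ j, a j * s.ι (γ j) * k j = 0 →
      ∑ j, (if γ j = 1 then l (a j) else 0) * k j = 0 := by
  induction n with
  | zero => intros; exact Finset.sum_of_isEmpty _
  | succ n ih =>
    intro a k γ ha hk hγ e
    by_cases hc : ∀ c : Fin (n + 1) → s.D, (∀ j, c j ∈ s.fld (A ⊓ K)) → (∀ j, γ j ≠ 1 → c j = 0) →
        ∑ j, c j * k j = 0 → ∀ j, c j = 0
    · refine Finset.sum_eq_zero fun j _ => ?_
      split_ifs with h1
      · rw [h A K _ a k γ ha hk hγ hc e j h1, map_zero, zero_mul]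
      · exact zero_mul _
    · push Not at hc
      obtain ⟨c, c1, c2, c3, j, c4⟩ := hc
      have g1 : γ j = 1 := by_contra fun g => c4 (c2 j g)
      have m (i) : (c j)⁻¹ * c i ∈ s.fld (A ⊓ K) := mul_mem (inv_mem (c1 j)) (c1 i)
      have c5 (x : s.D) : ∑ i : Fin n, x * ((c j)⁻¹ * c (j.succAbove i)) * k (j.succAbove i) =
          -(x * k j) := by
        rw [Fin.sum_univ_succAbove _ j, add_eq_zero_iff_neg_eq] at c3
        simp only [mul_assoc, ← Finset.mul_sum]
        rw [← c3, mul_neg, inv_mul_cancel_left₀ c4, mul_neg]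
      have := ih (fun i => a (j.succAbove i) - a j * ((c j)⁻¹ * c (j.succAbove i)))
        (fun i => k (j.succAbove i)) (fun i => γ (j.succAbove i))
        (fun i => sub_mem (ha _) (mul_mem (ha _) (fld_mono inf_le_left (m _)))) (fun i => hk _)
        (fun i => hγ _) (by
          rw [Fin.sum_univ_succAbove _ j, g1, map_one, mul_one] at e
          rw [← e, add_comm, ← sub_neg_eq_add, ← c5, ← Finset.sum_sub_distrib]
          refine Finset.sum_congr rfl fun i _ => ?_
          by_cases g : γ (j.succAbove i) = 1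
          · simp only [g, map_one, mul_one, sub_mul]
          · simp only [c2 _ g, mul_zero, sub_zero, zero_mul])
      refine Eq.trans ?_ this
      rw [Fin.sum_univ_succAbove _ j, if_pos g1, add_comm, ← sub_neg_eq_add, ← c5,
        ← Finset.sum_sub_distrib]
      refine Finset.sum_congr rfl fun i _ => ?_
      by_cases g : γ (j.succAbove i) = 1
      · simp only [if_pos g, map_sub, hl _ (ha j) _ (m _), sub_mul]
      · simp only [if_neg g, c2 _ g, mul_zero, sub_zero, zero_mul]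

theorem sum_fin {J D : Type*} [AddCommMonoid D] (t : Finset J) (f : J → D) :
    ∑ i, f (t.equivFin.symm i) = ∑ j ∈ t, f j :=
  (t.equivFin.symm.sum_comp fun j => f j).trans (Finset.sum_coe_sort t f)

end PLDC

open PLDC in
theorem p_ldc (hR : S_REXT.{u}) : S_LDC.{u} := by
  classical
  intro s h W _ w A l h1 h2
  obtain ⟨l', m1, m2, m3⟩ := hR s.D {p : s.D × s.Γ // p.1 ∈ s.fld A ∧
      (p.2 = 1 ∨ ∀ α ∈ A, ∀ κ ∈ stabilizer s.Γ w, p.2 ≠ α * κ)} (s.fld (stabilizer s.Γ w))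
    (fun j => j.1.1 * s.ι j.1.2) (fun j => if j.1.2 = 1 then l j.1.1 else 0)
    (fun j => by
      split_ifs
      exacts [fld_mono inf_le_right (h1 _ j.2.1), zero_mem _])
    fun t κ hκ e => by
      rw [← sum_fin] at e ⊢
      exact key h l h2 _ _ _ _ (fun i => (t.equivFin.symm i).1.2.1) (fun i => hκ _)
        (fun i => (t.equivFin.symm i).1.2.2) e
  obtain ⟨C, hC⟩ := exists_coord w l' m1 m2
  refine ⟨C, fun a ha => ?_, fun a ha x hx => ?_⟩
  · have e := hC 1 a
    rw [m3 ⟨(a, 1), ha, Or.inl rfl⟩] at e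
    simpa using e
  · by_cases hg : ∃ g : s.Γ, g • w = x
    · obtain ⟨g, rfl⟩ := hg
      have g1 : g ≠ 1 := fun e => hx 1 A.one_mem (by rw [e])
      rw [hC, m3 ⟨(a, g), ha, Or.inr fun α hα κ hκ e => hx α hα (by
        rw [show g = α * κ from e, mul_smul, hκ])⟩,
        if_neg g1, zero_mul]
    · exact C.zero x a fun g e => hg ⟨g, e⟩

theorem p_int (hR : S_REXT.{u}) : S_INT.{u} := by
  intro s h A K d hd
  obtain ⟨l, m1, m2, m3⟩ := hR s.D PUnit (s.fld (A ⊓ K)) (fun _ => 1) (fun _ => 1)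
    (fun _ => one_mem _) fun _ _ _ e => e
  have e : stabilizer s.Γ ((1 : s.Γ) : s.Γ ⧸ K) = K := stabilizer_quotient K
  obtain ⟨C, hC, -⟩ := h (s.Γ ⧸ K) ((1 : s.Γ) : s.Γ ⧸ K) A l (fun a _ => e.symm ▸ m1 a)
    fun a _ κ hκ => m2 a κ (e ▸ hκ)
  have h1 := C.bal _ 1 d (e.symm ▸ hd.2)
  rw [one_mul, hC d hd.1, hC 1 (one_mem _), m3 ⟨⟩, one_mul] at h1
  exact h1 ▸ m1 d

end Pool.Agent.P.MP_0f25e6_al.VT
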