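import Pool.Agent.P.MP_0f25e6_al.VT.Spec

/-!
The inductive step for the distributivity of the spaces `X`.
-/

set_option autoImplicit false

open MulAction

noncomputable section

namespace Pool.Agent.P.MP_0f25e6_al.VT

universe u

open Sys

namespace PMD

section Basic

variable {s : Sys.{u}}

/-- The left span of a set over the skew field of a subgroup. -/
def Z (s : Sys.{u}) (B : Subgroup s.Γ) (Q : Set s.D) : AddSubgroup s.D :=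
  (Submodule.span (s.fld B) Q).toAddSubgroup

theorem stab_Z (B : Subgroup s.Γ) (Q : Set s.D) : Stab (s.fld B) (Z s B Q) :=
  fun κ hκ _ hv => Submodule.smul_mem (Submodule.span (s.fld B) Q) (⟨κ, hκ⟩ : s.fld B) hv

theorem mem_Z {B : Subgroup s.Γ} {Q : Set s.D} {v : s.D} (h : v ∈ Q) : v ∈ Z s B Q :=
  Submodule.subset_span (R := s.fld B) h

theorem Z_le {B : Subgroup s.Γ} {Q : Set s.D} {M : AddSubgroup s.D} (h : Stab (s.fld B) M)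
    (h' : ∀ q ∈ Q, q ∈ M) : Z s B Q ≤ M := by
  intro v hv
  change v ∈ Submodule.span (s.fld B) Q at hv
  induction hv using Submodule.span_induction with
  | mem x hx => exact h' x hx
  | zero => exact zero_mem _
  | add x y _ _ hx hy => exact add_mem hx hy
  | smul a x _ hx => exact h a a.2 x hx

theorem Z_mono (B : Subgroup s.Γ) {Q Q' : Set s.D} (h : Q ⊆ Q') : Z s B Q ≤ Z s B Q' :=
  Z_le (stab_Z B Q') fun _ hq => mem_Z (h hq)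

theorem mem_X {C K : Subgroup s.Γ} {a κ : s.D} (ha : a ∈ s.fld C) (g : s.Γ) (hκ : κ ∈ s.fld K) :
    a * s.ι g * κ ∈ s.X C K := AddSubgroup.subset_closure ⟨a, ha, g, κ, hκ, rfl⟩

theorem X_le {C K : Subgroup s.Γ} {M : AddSubgroup s.D}
    (h : ∀ a ∈ s.fld C, ∀ g, ∀ κ ∈ s.fld K, a * s.ι g * κ ∈ M) : s.X C K ≤ M :=
  (AddSubgroup.closure_le _).2 (by rintro _ ⟨a, ha, g, κ, hκ, rfl⟩; exact h a ha g κ hκ)

theorem stab_X (C K : Subgroup s.Γ) : Stab (s.fld C) (s.X C K) := fun b hb _ hv =>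
  X_le (M := (s.X C K).comap (AddMonoidHom.mulLeft b)) (fun a ha g κ hκ => by
    change b * (a * s.ι g * κ) ∈ s.X C K
    rw [← mul_assoc, ← mul_assoc]
    exact mem_X (mul_mem hb ha) g hκ) hv

theorem exFam0 (hs : s.Gen) {W J : Type u} [MulAction s.Γ W] [Finite J] (c : J → W)
    (Q : J → Finset s.D) (hc : ∀ j j' (g : s.Γ), g • c j = c j' → j = j')
    (hW : ∀ w, ∃ (j : J) (g : s.Γ), g • c j = w) (j₀ : J) (h0 : ∀ g : s.Γ, g • c j₀ = c j₀)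
    (h1 : 1 ∈ Q j₀) :
    ∃ 𝓕 : s.Fam s.D W, ∀ j, 𝓕.F (c j) = Z s (stabilizer s.Γ (c j)) (Q j) := by
  classical
  let F : W → AddSubgroup s.D := fun w => Z s (stabilizer s.Γ w)
    {v | ∃ (j : J) (g : s.Γ), g • c j = w ∧ ∃ q ∈ Q j, v = s.ι g * q}
  have key : ∀ j (g₀ : s.Γ), F (g₀ • c j) =
      Z s (stabilizer s.Γ (g₀ • c j)) ((Q j).image (s.ι g₀ * ·) : Finset s.D) := fun j g₀ => by
    refine le_antisymm (Z_le (stab_Z _ _) ?_) (Z_mono _ ?_)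
    · rintro _ ⟨j', g, hg, q, hq, rfl⟩
      obtain rfl : j' = j := hc j' j (g₀⁻¹ * g) (by rw [mul_smul, hg, inv_smul_smul])
      have h2 : g * g₀⁻¹ ∈ stabilizer s.Γ (g₀ • c j') := by
        rw [mem_stabilizer_iff, mul_smul, inv_smul_smul, hg]
      have h3 := stab_Z _ ((Q j').image (s.ι g₀ * ·) : Finset s.D) _ (ι_mem h2) _
        (mem_Z (Finset.mem_coe.2 (Finset.mem_image_of_mem _ hq)))
      rwa [smul_eq_mul, ← mul_assoc, ← map_mul, inv_mul_cancel_right] at h3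
    · intro v hv
      obtain ⟨q, hq, rfl⟩ := Finset.mem_image.1 (Finset.mem_coe.1 hv)
      exact ⟨j, g₀, rfl, q, hq, rfl⟩
  have key1 : ∀ j, F (c j) = Z s (stabilizer s.Γ (c j)) (Q j) := fun j => by
    simpa using key j 1
  have := Fintype.ofFinite J
  refine ⟨⟨⟨F, fun w => stab_Z _ _, fun h w v hv => ?_⟩, fun w => ?_,
    ⟨Finset.univ.image c, fun w _ => ?_⟩, c j₀, h0, ?_⟩, key1⟩
  · refine Z_le (M := (F (h • w)).comap (AddMonoidHom.mulLeft (s.ι h))) (fun κ hκ y hy => ?_) ?_ hv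
    · have h2 := stab_Z _ _ _ (conj_stab h hκ) _ hy
      change s.ι h * κ * s.ι h⁻¹ * (s.ι h * y) ∈ _ at h2
      rw [mul_assoc _ (s.ι h⁻¹), ← mul_assoc (s.ι h⁻¹), ι_inv_mul, one_mul, mul_assoc] at h2
      exact h2
    · rintro _ ⟨j, g, hg, q, hq, rfl⟩
      exact mem_Z ⟨j, h * g, by rw [mul_smul, hg], q, hq, by
        rw [map_mul s.ι, mul_assoc]; rfl⟩
  · obtain ⟨j, g, rfl⟩ := hW w
    exact ⟨_, fun v => by change v ∈ F _ ↔ _; rw [key]; rfl⟩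
  · obtain ⟨j, g, rfl⟩ := hW w
    exact ⟨g⁻¹, by rw [inv_smul_smul]; exact Finset.mem_image_of_mem _ (Finset.mem_univ j)⟩
  · change F (c j₀) = ⊤
    rw [key1, eq_top_iff]
    intro d _
    have h2 := stab_Z _ (Q j₀ : Set s.D) d
      (fld_mono (fun g _ => mem_stabilizer_iff.2 (h0 g)) (hs d)) 1 (mem_Z h1)
    rwa [smul_eq_mul, mul_one] at h2

theorem exFam (hs : s.Gen) {J : Type u} [Finite J] (B : J → Subgroup s.Γ) (Q : Finset s.D) :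
    ∃ (W : Type u) (_ : MulAction s.Γ W) (𝓕 : s.Fam s.D W) (c : J → W),
      (∀ j, stabilizer s.Γ (c j) = B j) ∧ ∀ j, 𝓕.F (c j) = Z s (B j) Q := by
  let B' : Option J → Subgroup s.Γ := fun o => o.elim ⊤ B
  let c : Option J → Σ o, s.Γ ⧸ B' o := fun o => ⟨o, ((1 : s.Γ) : s.Γ ⧸ B' o)⟩
  have hst : ∀ o, stabilizer s.Γ (c o) = B' o := fun o => by
    ext g
    conv_rhs => rw [← stabilizer_quotient (B' o)]
    simp only [mem_stabilizer_iff, c, Sigma.smul_mk, Sigma.mk.injEq, heq_eq_eq, true_and]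
  obtain ⟨𝓕, h⟩ := exFam0 hs c (fun o => o.elim {1} fun _ => Q)
    (fun j j' g h => congrArg Sigma.fst h)
    (fun ⟨o, x⟩ => ⟨o, x.out, by simp [c, Sigma.smul_mk]⟩) none
    (fun g => (hst none).ge (Subgroup.mem_top g)) (Finset.mem_singleton_self _)
  exact ⟨_, inferInstance, 𝓕, fun j => c (some j), fun j => hst _, fun j => by
    rw [h, hst]; rfl⟩

theorem dep {L E : Type*} [DivisionRing L] [AddCommGroup E] [Module L E] (Y : Submodule L E)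
    (t : Finset E) (y : ℕ → E) (h : ∀ l, y l ∈ Submodule.span L (t : Set E) ⊔ Y) :
    ∃ (T : Finset ℕ) (α : ℕ → L), ∑ l ∈ T, α l • y l ∈ Y ∧ ∃ l ∈ T, α l ≠ 0 := by
  let P := (Submodule.span L (t : Set E)).map Y.mkQ
  have hP : ∀ l, Y.mkQ (y l) ∈ P := fun l => by
    obtain ⟨a, ha, b, hb, e⟩ := Submodule.mem_sup.1 (h l)
    refine ⟨a, ha, ?_⟩
    rw [← e, map_add, Submodule.mkQ_apply Y b, (Submodule.Quotient.mk_eq_zero _).2 hb, add_zero]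
  have h1 : ¬LinearIndependent L fun l => (⟨_, hP l⟩ : P) := fun h1 =>
    have := h1.finite
    not_finite ℕ
  obtain ⟨T, α, h2, h3⟩ := not_linearIndependent_iff.1 h1
  refine ⟨T, α, ?_, h3⟩
  have h4 := congrArg Subtype.val h2
  rw [AddSubmonoidClass.coe_finsetSum] at h4
  rw [← Submodule.Quotient.mk_eq_zero, ← Submodule.mkQ_apply, map_sum]
  exact h4

end Basic

section Lamp

variable {s s' : Sys.{u}} {W : Type u} [MulAction s.Γ W] (𝓛 : s.Lamp s' W) (w : W)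

theorem j_stab {κ : s.D} (h : κ ∈ s.fld (stabilizer s.Γ w)) :
    𝓛.j κ ∈ s'.fld (stabilizer s'.Γ (𝓛.sec w)) :=
  𝓛.j_mem (fun _ ha => by rw [𝓛.stab]; exact Subgroup.mem_map_of_mem _ ha) h

theorem ker_mem {n : s'.Γ} (h : 𝓛.p n = 1) (C : Subgroup s.Γ) : s'.ι n ∈ s'.fld (C.comap 𝓛.p) :=
  ι_mem (by rw [Subgroup.mem_comap, h]; exact one_mem _)

/-- Generators of the extended space. -/
theorem X_le' {C : Subgroup s.Γ} {M : AddSubgroup s'.D}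
    (h : ∀ a ∈ s'.fld (C.comap 𝓛.p), ∀ g, ∀ κ ∈ s.fld (stabilizer s.Γ w),
      a * 𝓛.j (s.ι g * κ) ∈ M) : s'.X (C.comap 𝓛.p) (stabilizer s'.Γ (𝓛.sec w)) ≤ M := by
  refine X_le fun a ha g κ hκ => ?_
  rw [𝓛.stab, 𝓛.fld_map] at hκ
  obtain ⟨κ, hκ, rfl⟩ := hκ
  have h1 := h _ (mul_mem ha (ker_mem 𝓛 (n := g * (𝓛.e (𝓛.p g))⁻¹) (by simp [𝓛.p_e]) C))
    (𝓛.p g) κ hκ
  rwa [map_mul 𝓛.j, 𝓛.j_ι, ← mul_assoc, mul_assoc a, ← map_mul, inv_mul_cancel_right] at h1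

/-- Finite sets of elements of the form `g κ`. -/
def Ok (Q : Finset s'.D) : Prop :=
  ∀ q ∈ Q, ∃ g, ∃ κ ∈ s.fld (stabilizer s.Γ w), q = 𝓛.j (s.ι g * κ)

/-- Elements whose products with all the lamps lie in one finitely generated space. -/
def M (G : Finset s'.D → AddSubgroup s'.D) (hG : Monotone G) : AddSubgroup s.D where
  carrier := {y | ∃ Q, Ok 𝓛 w Q ∧ ∀ l, 𝓛.j y * s'.ι (𝓛.x l (𝓛.sec w)) ∈ G Q}
  zero_mem' := ⟨∅, fun _ h => absurd h (Finset.notMem_empty _), fun l => by simp⟩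
  add_mem' := by
    classical
    rintro a b ⟨Q, h1, h2⟩ ⟨Q', h3, h4⟩
    refine ⟨Q ∪ Q', fun q hq => (Finset.mem_union.1 hq).elim (h1 q) (h3 q), fun l => ?_⟩
    rw [map_add, add_mul]
    exact add_mem (hG Finset.subset_union_left (h2 l)) (hG Finset.subset_union_right (h4 l))
  neg_mem' := by
    rintro a ⟨Q, h1, h2⟩
    exact ⟨Q, h1, fun l => by rw [map_neg, neg_mul]; exact neg_mem (h2 l)⟩

theorem X_le_M (C : Subgroup s.Γ) (G : Finset s'.D → AddSubgroup s'.D) (hG : Monotone G)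
    (h : ∀ Q : Finset s'.D, Z s' (C.comap 𝓛.p) Q ≤ G Q) :
    s.X C (stabilizer s.Γ w) ≤ M 𝓛 w G hG := by
  refine X_le fun a ha g κ hκ => ⟨{𝓛.j (s.ι g * κ)}, fun q hq =>
    ⟨g, κ, hκ, Finset.mem_singleton.1 hq⟩, fun l => h _ ?_⟩
  have h1 := stab_Z (C.comap 𝓛.p) (({𝓛.j (s.ι g * κ)} : Finset s'.D) : Set s'.D) _
    (mul_mem (𝓛.j_mem (B := C.comap 𝓛.p) (fun b hb => by rwa [Subgroup.mem_comap, 𝓛.p_e]) ha)
      (ker_mem 𝓛 (n := 𝓛.e g * 𝓛.x l (𝓛.sec w) * (𝓛.e g)⁻¹) (by simp [𝓛.p_x]) C)) _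
    (mem_Z (Finset.mem_coe.2 (Finset.mem_singleton_self _)))
  convert h1 using 1
  rw [smul_eq_mul, map_mul, map_mul, map_mul 𝓛.j, 𝓛.j_ι, mul_assoc _ (𝓛.j κ),
    ← 𝓛.x_comm l _ (j_stab 𝓛 w hκ), ← mul_assoc _ (s'.ι (𝓛.e g)), mul_assoc (𝓛.j a) _ (s'.ι _),
    ← map_mul, inv_mul_cancel_right, map_mul]
  simp only [mul_assoc]

theorem Z_le_X {Q : Finset s'.D} (h : Ok 𝓛 w Q) (B : Subgroup s'.Γ) :
    Z s' B Q ≤ s'.X B (stabilizer s'.Γ (𝓛.sec w)) := by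
  refine Z_le (stab_X _ _) fun q hq => ?_
  obtain ⟨g, κ, hκ, rfl⟩ := h q hq
  have h1 := mem_X (one_mem (s'.fld B)) (𝓛.e g) (j_stab 𝓛 w hκ)
  rwa [one_mul, ← 𝓛.j_ι, ← map_mul] at h1

/-- The additive map that removes the lamp number `l`. -/
theorem exPsi (h0 : S_SUP0.{u}) (l : ℕ) : ∃ Ψ : s'.D →+ s'.D,
    (∀ d, Ψ (𝓛.j d) = 0) ∧ (∀ d, Ψ (𝓛.j d * s'.ι (𝓛.x l (𝓛.sec w))) = 𝓛.j d) ∧
    (∀ d l', l ≠ l' → Ψ (𝓛.j d * s'.ι (𝓛.x l' (𝓛.sec w))) = 0) ∧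
    ∀ (C : Subgroup s.Γ), ∀ a ∈ s'.fld (C.comap 𝓛.p), ∀ y,
      Ψ (a * y) - a * Ψ y ∈ s'.X (C.comap 𝓛.p) (stabilizer s'.Γ (𝓛.sec w)) := by
  obtain ⟨ν, hν⟩ := (LinearMap.toSpanSingleton (s'.fld (stabilizer s'.Γ (𝓛.sec w))) s'.D
    1).exists_leftInverse_of_injective (LinearMap.ker_toSpanSingleton _ one_ne_zero)
  have hν1 : ν 1 = 1 := by simpa using LinearMap.congr_fun hν 1
  obtain ⟨Φ, h1, h2⟩ := exists_dual (V := s'.D) (𝓛.sec w)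
    ((s'.fld (stabilizer s'.Γ (𝓛.sec w))).subtype.toAddMonoidHom.comp ν.toAddMonoidHom)
    fun κ hκ v => congrArg Subtype.val (ν.map_smul ⟨κ, hκ⟩ v)
  refine ⟨Φ.toAddMonoidHom.comp (𝓛.der l), fun d => ?_, fun d => ?_, fun d l' hl => ?_,
    fun C a ha y => ?_⟩
  · simp [𝓛.der_j]
  · have h3 := h1 1 1
    rw [one_smul] at h3
    simp [𝓛.leib, 𝓛.der_j, 𝓛.der_self, h3, hν1]
  · simp [𝓛.leib, 𝓛.der_j, 𝓛.der_ne _ _ _ hl]
  · change Φ (𝓛.der l (a * y)) - a * Φ (𝓛.der l y) ∈ _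
    rw [𝓛.leib, map_add, map_smul, smul_eq_mul, add_sub_cancel_left]
    refine T_le (M := AddSubgroup.comap (Φ.comp (map 𝓛.W'
      (LinearMap.toSpanSingleton s'.D s'.D y))).toAddMonoidHom
      (s'.X (C.comap 𝓛.p) (stabilizer s'.Γ (𝓛.sec w)))) (fun δ hδ x z _ => ?_)
      ((h0 s s' W 𝓛).1 l C a ha)
    change Φ (map _ _ (δ • s'.t x z)) ∈ s'.X _ _
    rw [map_smul, map_smul, map_t, smul_eq_mul]
    by_cases hx : ∃ g : s'.Γ, g • 𝓛.sec w = x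
    · obtain ⟨g, rfl⟩ := hx
      rw [h1, ← mul_assoc]
      exact mem_X hδ g (ν _).2
    · rw [h2 x _ fun g hg => hx ⟨g, hg⟩, mul_zero]
      exact zero_mem _

end Lamp

theorem core (hT : S_TOP.{u}) (h0 : S_SUP0.{u}) (hB : S_BC.{u}) {r : ℕ} (hF : FINP.{u} (r + 1))
    (hM : MD.{u} r) (hR : RL.{u} (r + 1)) {s : Sys.{u}} (hs : s.Good) {I : Type u} [Fintype I]
    [Nonempty I] (hI : Fintype.card I ≤ r + 1) {W₀ : Type u} [MulAction s.Γ W₀] (w : W₀)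
    (A₀ : Subgroup s.Γ) (A : I → Subgroup s.Γ) {d : s.D} (hd₀ : d ∈ s.X A₀ (stabilizer s.Γ w))
    (hd : d ∈ ⨆ i, s.X (A i) (stabilizer s.Γ w)) :
    d ∈ ⨆ i, s.X (A₀ ⊓ A i) (stabilizer s.Γ w) := by
  classical
  obtain ⟨s', hs', ⟨𝓛⟩⟩ := hs.lamp W₀
  have hn : ∀ P : I → Prop, {i | P i}.ncard ≤ r + 1 := fun P =>
    (Set.ncard_le_card _).trans (by rwa [Nat.card_eq_fintype_card])
  obtain ⟨Q₀, o₀, z₀⟩ := X_le_M 𝓛 w A₀ (fun Q => Z s' (A₀.comap 𝓛.p) Q)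
    (fun _ _ h => Z_mono _ h) (fun _ => le_rfl) hd₀
  obtain ⟨Q₁, o₁, z₁⟩ := iSup_le (a := M 𝓛 w (fun Q => ⨆ i, Z s' ((A i).comap 𝓛.p) Q)
    fun _ _ h => iSup_mono fun _ => Z_mono _ h) (fun i => X_le_M 𝓛 w (A i) _ _ fun Q =>
      le_iSup (fun i => Z s' ((A i).comap 𝓛.p) Q) i) hd
  have o : Ok 𝓛 w (Q₀ ∪ Q₁) := fun q hq => (Finset.mem_union.1 hq).elim (o₀ q) (o₁ q)
  obtain ⟨W, _, 𝓕, c, hc, hZ⟩ := exFam hs'.gen
    (fun i : Option I => (i.elim A₀ A).comap 𝓛.p) (Q₀ ∪ Q₁)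
  let p : W × (I → W) := (c none, fun i => c (some i))
  have hL : ∀ i, s'.fld (stabilizer s'.Γ p) ≤ s'.fld ((A₀ ⊓ A i).comap 𝓛.p) := fun i =>
    fld_mono fun g hg => ⟨(hc none).le (congrArg Prod.fst hg),
      (hc (some i)).le (congrFun (congrArg Prod.snd hg) i)⟩
  obtain ⟨t, -, ht⟩ := (hT _ _ I (𝓕.Bp p) (spF_mono _ fun _ _ h =>
    inf_le_inf_left _ (𝓕.sum_mono _ h)) (by
      rw [eq_bot_iff]
      intro v hv
      have h1 := ((mem_spF (𝓕.stab_inf_sum p ∅)).1 hv).2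
      rwa [𝓕.sum_empty] at h1)).1 ((hF s' hs' s'.D W 𝓕 I).1 p (hn _))
  obtain ⟨T, α, hα, l, hl, hl0⟩ := dep _ t (fun l => 𝓛.j d * s'.ι (𝓛.x l (𝓛.sec w))) fun l =>
    ht ((mem_spF (𝓕.stab_inf_sum p _)).2 ⟨by
      rw [show 𝓕.F p.1 = _ from hZ none]
      exact Z_mono _ (by simp) (z₀ l), by
      refine iSup_le (a := 𝓕.sum p.2 Finset.univ) (fun i => ?_) (z₁ l)
      refine le_iSup₂_of_le (f := fun i (_ : i ∈ Finset.univ) => 𝓕.F (p.2 i)) i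
        (Finset.mem_univ i) ?_
      rw [show 𝓕.F (p.2 i) = _ from hZ (some i)]
      exact Z_mono _ (by simp)⟩)
  let N : AddSubgroup s'.D := ⨆ i, s'.X ((A₀ ⊓ A i).comap 𝓛.p) (stabilizer s'.Γ (𝓛.sec w))
  have hN : ∀ i, s'.X ((A₀ ⊓ A i).comap 𝓛.p) (stabilizer s'.Γ (𝓛.sec w)) ≤ N := fun i =>
    le_iSup (fun i => s'.X ((A₀ ⊓ A i).comap 𝓛.p) (stabilizer s'.Γ (𝓛.sec w))) i
  have sN : Stab (s'.fld (stabilizer s'.Γ p)) N := stab_iSup fun i => (stab_X _ _).mono (hL i)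
  have hY : ∀ k, ∀ v ∈ 𝓕.Bp p (Finset.univ.erase k), v ∈ N := fun k v hv => by
    obtain ⟨h1, h2⟩ := (mem_spF (𝓕.stab_inf_sum p _)).1 hv
    rw [show 𝓕.F p.1 = _ from hZ none] at h1
    refine iSup₂_le (a := N) (fun i _ => ?_) (hM s' hs' I (Finset.univ.erase k) (by
      rw [Finset.card_erase_of_mem (Finset.mem_univ k), Finset.card_univ]
      omega) (A₀.comap 𝓛.p) _ (fun i => (A i).comap 𝓛.p) ⟨Z_le_X 𝓛 w o _ h1,
        iSup₂_mono (fun i _ => (hZ (some i)).le.trans (Z_le_X 𝓛 w o _)) h2⟩)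
    rw [← Subgroup.comap_inf]
    exact hN i
  have h3 : ∑ l ∈ T, (α l : s'.D) * (𝓛.j d * s'.ι (𝓛.x l (𝓛.sec w))) ∈ N := by
    refine (mem_spF (I := Unit) (G := fun _ => N) (S := ∅) sN).1 (iSup_le (a := spF _ _ _)
      (fun k v hv => ?_) hα)
    exact (mem_spF sN).2 (hY k v hv)
  obtain ⟨Ψ, p1, p2, p3, p4⟩ := exPsi 𝓛 w h0 l
  have h4 : N ≤ N.comap Ψ := iSup_le fun i => X_le' 𝓛 w fun a ha g κ _ => hN i (by
    have h5 := p4 _ a ha (𝓛.j (s.ι g * κ))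
    rwa [p1, mul_zero, sub_zero] at h5)
  have h5 : (α l : s'.D) * 𝓛.j d ∈ N := by
    obtain ⟨i⟩ := ‹Nonempty I›
    have h6 := sub_mem (AddSubgroup.mem_comap.1 (h4 h3)) (sum_mem fun l' (_ : l' ∈ T) =>
      hN i (p4 _ _ (hL i (α l').2) (𝓛.j d * s'.ι (𝓛.x l' (𝓛.sec w)))))
    rwa [map_sum, Finset.sum_sub_distrib, sub_sub_cancel, Finset.sum_eq_single_of_mem l hl
      (fun l' _ h => by rw [p3 d l' h.symm, mul_zero]), p2] at h6
  have h6 := sN _ (inv_mem (α l).2) _ h5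
  rw [smul_eq_mul, inv_mul_cancel_left₀ (fun h => hl0 (Subtype.ext h))] at h6
  obtain ⟨β, hβ⟩ := (hB s s' W₀ 𝓛).2.1
  have h7 := hR s s' W₀ 𝓛 s.D s'.D β hs.gen hs' I (fun i => A₀ ⊓ A i)
    (fun i => s.X (A₀ ⊓ A i) (stabilizer s.Γ w)) (hn _) (fun i => stab_X _ _) Finset.univ d (by
      rw [hβ]
      refine iSup_le (a := ⨆ i ∈ Finset.univ, β.til (A₀ ⊓ A i) (s.X (A₀ ⊓ A i) _))
        (fun i => le_iSup₂_of_le i (Finset.mem_univ i) (X_le' 𝓛 w fun a ha g κ hκ => ?_)) h6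
      refine AddSubgroup.subset_closure ⟨a, ha, s.ι g * κ, ?_, by rw [hβ]; rfl⟩
      simpa using mem_X (one_mem (s.fld (A₀ ⊓ A i))) g hκ)
  simpa using h7

end PMD

theorem p_md (hT : S_TOP.{u}) (h0 : S_SUP0.{u}) (hB : S_BC.{u}) : S_MD.{u} := by
  intro r hF hM hR s hs I S hS A₀ K A d hd
  obtain ⟨h1, h2⟩ := hd
  rcases S.eq_empty_or_nonempty with rfl | hne
  · simpa using h2
  have := hne.to_subtype
  rw [iSup_subtype'] at h2 ⊢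
  rw [← stabilizer_quotient K] at h1 h2 ⊢
  exact PMD.core hT h0 hB hF hM hR hs (I := S) (by simpa using hS) _ A₀ (fun i => A i) h1 h2

end Pool.Agent.P.MP_0f25e6_al.VT
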