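import Pool.Agent.P.MP_0f25e6_al.VT.Spec

/-!
Divisibility of orbit sums by the index of a normal subgroup.
-/

set_option autoImplicit false

open MulAction
open scoped Pointwise

namespace Pool.Agent.P.MP_0f25e6_al.VT

universe u

namespace OD

variable {Γ G X : Type u} [Group Γ] [Group G] [MulAction Γ X] [MulAction G X] (inc : Γ →* G)

theorem mk_eq [hN : inc.range.Normal] (hinc : ∀ (h : Γ) (x : X), inc h • x = h • x) (x : X)
    (g g' : G) : (Quotient.mk _ (g • x) : orbitRel.Quotient Γ X) = Quotient.mk _ (g' • x) ↔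
      g⁻¹ * g' ∈ inc.range ⊔ stabilizer G x := by
  rw [eq_comm, Quotient.eq, orbitRel_apply, mem_orbit_iff]
  constructor
  · rintro ⟨h, e⟩
    have h1 : g⁻¹ * inc h * g⁻¹⁻¹ ∈ inc.range := hN.conj_mem _ ⟨h, rfl⟩ _
    have h2 : (inc h * g)⁻¹ * g' ∈ stabilizer G x := by
      rw [mem_stabilizer_iff, mul_smul, inv_smul_eq_iff, mul_smul, hinc, e]
    have := Subgroup.mul_mem_sup h1 h2
    simpa [mul_assoc] using this
  · intro h
    have h' : g⁻¹ * g' ∈ (inc.range : Set G) * (stabilizer G x : Set G) := by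
      rw [← Subgroup.normal_mul]; exact h
    obtain ⟨a, ha, s, hs, e⟩ := h'
    obtain ⟨h, e'⟩ := hN.conj_mem a ha g
    refine ⟨h, ?_⟩
    have e2 : g' = g * (a * s) := by rw [show a * s = g⁻¹ * g' from e, mul_inv_cancel_left]
    rw [← hinc, e', e2, mul_smul, inv_smul_smul, mul_smul, mul_smul, mul_smul,
      mem_stabilizer_iff.1 hs]

/-- The number of small orbits inside a large orbit. -/
theorem ncard_eq [inc.range.Normal] (hinc : ∀ (h : Γ) (x : X), inc h • x = h • x) (x : X) :
    {q : orbitRel.Quotient Γ X | q.out ∈ orbit G x}.ncard = (inc.range ⊔ stabilizer G x).index := by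
  let φ : G ⧸ (inc.range ⊔ stabilizer G x) → orbitRel.Quotient Γ X :=
    Quotient.lift (fun g => Quotient.mk _ (g • x)) fun g g' e =>
      (mk_eq inc hinc x g g').2 (QuotientGroup.leftRel_apply.1 e)
  have h1 : Function.Injective φ := by
    rintro ⟨g⟩ ⟨g'⟩ e
    exact QuotientGroup.eq.2 ((mk_eq inc hinc x g g').1 e)
  have h2 : {q : orbitRel.Quotient Γ X | q.out ∈ orbit G x} = Set.range φ := by
    ext q
    constructor
    · rintro ⟨g, e⟩
      refine ⟨QuotientGroup.mk g, ?_⟩
      change Quotient.mk _ (g • x) = q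
      rw [show g • x = q.out from e, Quotient.out_eq]
    · rintro ⟨⟨g⟩, rfl⟩
      obtain ⟨h, e⟩ := orbitRel_apply.1 (Quotient.mk_out (s := orbitRel Γ X) (g • x))
      exact ⟨inc h * g, by change (inc h * g) • x = _; rw [mul_smul, hinc]; exact e⟩
  rw [h2, Set.ncard_range_of_injective h1, Subgroup.index]

theorem finite_supp (f : X → ℤ) (h : CofOrb Γ fun x => f x ≠ 0) :
    (Function.support fun q : orbitRel.Quotient Γ X => f q.out).Finite := by
  obtain ⟨t, ht⟩ := h
  refine (t.finite_toSet.image (Quotient.mk (orbitRel Γ X))).subset fun q hq => ?_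
  obtain ⟨g, hg⟩ := ht _ hq
  refine ⟨_, hg, ?_⟩
  rw [← q.out_eq, Quotient.out_eq, ← Quotient.out_eq q, Quotient.eq, Quotient.out_eq]
  exact orbitRel_apply.2 (mem_orbit _ g)

end OD

open OD in
theorem p_od : S_OD.{u} := by
  intro Γ G X _ _ _ _ inc f hN _ hinc hf hc hd
  classical
  have hs := finite_supp f hc
  rw [osz, finsum_eq_sum _ hs, ← Finset.sum_fiberwise_of_maps_to
    (g := fun q : orbitRel.Quotient Γ X => (Quotient.mk _ q.out : orbitRel.Quotient G X))
    fun q hq => Finset.mem_image_of_mem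
      (fun q : orbitRel.Quotient Γ X => (Quotient.mk _ q.out : orbitRel.Quotient G X)) hq]
  refine Finset.dvd_sum fun p hp => ?_
  obtain ⟨q₀, h0, rfl⟩ := Finset.mem_image.1 hp
  have hx : f q₀.out ≠ 0 := hs.mem_toFinset.1 h0
  generalize q₀.out = x at hx
  have e : ∀ q : orbitRel.Quotient Γ X, q.out ∈ orbit G x → f q.out = f x := by
    rintro q ⟨g, e⟩
    rw [← e]
    exact hf g x
  have e1 : ((hs.toFinset.filter fun q : orbitRel.Quotient Γ X =>
      (Quotient.mk _ q.out : orbitRel.Quotient G X) = Quotient.mk _ x : Finset _) : Set _) =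
      {q : orbitRel.Quotient Γ X | q.out ∈ orbit G x} := by
    ext q
    rw [Finset.mem_coe, Finset.mem_filter, Quotient.eq, orbitRel_apply]
    exact and_iff_right_iff_imp.2 fun h => hs.mem_toFinset.2 (by rw [Function.mem_support, e q h]; exact hx)
  rw [Finset.sum_congr rfl fun q hq => e q (by rw [← Finset.mem_coe, e1] at hq; exact hq),
    Finset.sum_const, ← Set.ncard_coe_finset, e1, ncard_eq inc hinc, nsmul_eq_mul,
    ← Subgroup.relIndex_mul_index (le_sup_left : inc.range ≤ inc.range ⊔ stabilizer G x),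
    Subgroup.relIndex_sup_left, Nat.cast_mul, mul_comm]
  exact mul_dvd_mul_left _ (hd x)

end Pool.Agent.P.MP_0f25e6_al.VT
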