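import Pool.Agent.P.MP_0f25e6_al.VT.Spec

/-! Sums over orbits. -/

set_option autoImplicit false

open MulAction Function

namespace Pool.Agent.P.MP_0f25e6_al.VT

universe u

namespace POS

theorem finsum_sigma {A : Type*} {B : A → Type*} (F : (Σ a, B a) → ℤ) (h : (support F).Finite) :
    ∑ᶠ x, F x = ∑ᶠ a, ∑ᶠ b, F ⟨a, b⟩ := by
  classical
  have e : ∀ a, ∑ᶠ b, F ⟨a, b⟩ =
      ∑ b ∈ h.toFinset.preimage (Sigma.mk a) sigma_mk_injective.injOn, F ⟨a, b⟩ := fun a =>
    finsum_eq_sum_of_support_subset _ fun b hb => by simpa using hb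
  rw [finsum_eq_sum _ h, finsum_eq_sum_of_support_subset (s := h.toFinset.image Sigma.fst) _ ?_]
  · simp only [e]
    rw [Finset.sum_sigma', Finset.sigma_image_fst_preimage_mk]
  · intro a ha
    obtain ⟨b, hb⟩ := not_forall.1 fun z => ha (finsum_eq_zero_of_forall_eq_zero z)
    exact Finset.mem_coe.2 (Finset.mem_image.2 ⟨⟨a, b⟩, h.mem_toFinset.2 hb, rfl⟩)

variable {Γ X : Type*} [Group Γ] [MulAction Γ X]

variable (Γ) in
/-- The orbit of a point. -/
def mk (x : X) : orbitRel.Quotient Γ X := Quotient.mk (orbitRel Γ X) x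

theorem mk_eq {x y : X} : mk Γ x = mk Γ y ↔ ∃ g : Γ, g • y = x := Quotient.eq

theorem mk_out (q : orbitRel.Quotient Γ X) : mk Γ q.out = q := Quotient.out_eq q

theorem out_mk (x : X) : ∃ g : Γ, g • x = (mk Γ x).out := mk_eq.1 (mk_out _)

theorem mk_smul (g : Γ) (x : X) : mk Γ (g • x) = mk Γ x := mk_eq.2 ⟨g, rfl⟩

theorem apply_out {f : X → ℤ} (h : ∀ (g : Γ) x, f (g • x) = f x) (x : X) :
    f (mk Γ x).out = f x := by
  obtain ⟨g, e⟩ := out_mk (Γ := Γ) x
  rw [← e, h]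

theorem fin_supp {f : X → ℤ} (h : CofOrb Γ fun x => f x ≠ 0) :
    (support fun q : orbitRel.Quotient Γ X => f q.out).Finite := by
  obtain ⟨t, ht⟩ := h
  refine (t.finite_toSet.image (mk Γ)).subset fun q hq => ?_
  obtain ⟨g, hg⟩ := ht _ hq
  exact ⟨_, hg, by rw [mk_smul, mk_out]⟩

theorem bij (Y W : Type*) [MulAction Γ Y] [MulAction Γ W] : Bijective
    fun x : Σ q : orbitRel.Quotient Γ Y, orbitRel.Quotient (stabilizer Γ q.out) W =>
      mk Γ (x.1.out, x.2.out) := by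
  constructor
  · rintro ⟨q, r⟩ ⟨q', r'⟩ e
    obtain ⟨g, hg⟩ := mk_eq.1 e
    have h1 : g • q'.out = q.out := congrArg Prod.fst hg
    have h2 : g • r'.out = r.out := congrArg Prod.snd hg
    obtain rfl : q = q' := by rw [← mk_out q, ← h1, mk_smul, mk_out]
    obtain rfl : r = r' := by
      rw [← mk_out r, ← mk_out r']
      exact mk_eq.2 ⟨⟨g, h1⟩, h2⟩
    rfl
  · intro p
    obtain ⟨g, hg⟩ := out_mk (Γ := Γ) p.out.1
    obtain ⟨a, ha⟩ := out_mk (Γ := stabilizer Γ (mk Γ p.out.1).out) (g • p.out.2)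
    refine ⟨⟨mk Γ p.out.1, mk _ (g • p.out.2)⟩, (mk_eq.2 ⟨a * g, Prod.ext ?_ ?_⟩).trans (mk_out p)⟩
    · rw [Prod.smul_fst, mul_smul, hg]
      exact a.2
    · rw [Prod.smul_snd, mul_smul]
      exact ha

end POS

open POS in
theorem p_os : S_OS.{u} := by
  refine ⟨fun Γ Y W _ _ _ f hf hc => ?_, fun Γ X X' _ _ _ i f f' hi hf hf' h1 h2 h3 => ?_,
    fun Γ X _ _ f f' _ _ h h' => finsum_add_distrib (fin_supp h) (fin_supp h'),
    fun Γ X _ _ f a => (smul_finsum a _).symm, fun Γ Y W _ _ _ P y _ ⟨t, ht⟩ => ?_⟩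
  · have e : ∀ x : Σ q : orbitRel.Quotient Γ Y, orbitRel.Quotient (stabilizer Γ q.out) W,
        f (x.1.out, x.2.out) = f (mk Γ (x.1.out, x.2.out)).out := fun x => (apply_out hf _).symm
    refine (finsum_eq_of_bijective _ (bij Y W) e).symm.trans (finsum_sigma _ ?_)
    exact ((fin_supp hc).preimage (bij Y W).1.injOn).subset fun x hx a => hx ((e x).trans a)
  · rw [osz, osz, ← finsum_mem_support, ← finsum_mem_support fun q => f' (Quotient.out q)]
    have e : ∀ q : orbitRel.Quotient Γ X', f' q.out ≠ 0 → f' q.out = f (mk Γ (i q.out)).out :=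
      fun q hq => by rw [apply_out hf, h1 _ hq]
    refine (finsum_mem_eq_of_bijOn (s := support fun q : orbitRel.Quotient Γ X' => f' q.out)
      (t := support fun q : orbitRel.Quotient Γ X => f q.out) (f := fun q => f' q.out)
      (g := fun q => f q.out) (fun q => mk Γ (i q.out))
      ⟨fun q hq => (e q hq).symm.trans_ne hq, fun q hq q' hq' a => ?_, fun q hq => ?_⟩ e).symm
    · obtain ⟨g, hg⟩ := mk_eq.1 a
      have z : g • q'.out = q.out := h2 ((hf' g _).trans_ne hq') hq ((hi _ _).trans hg)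
      rw [← mk_out q, ← z, mk_smul, mk_out]
    · obtain ⟨y, a, b⟩ := h3 _ hq
      obtain ⟨g, hg⟩ := out_mk (Γ := Γ) y
      exact ⟨mk Γ y, (apply_out hf' y).trans_ne a, by
        simp only [← hg, hi, mk_smul, b, mk_out]⟩
  · classical
    refine ⟨t.image fun p => if h : ∃ g : Γ, g • p.1 = y then h.choose • p.2 else p.2,
      fun w hw => ?_⟩
    obtain ⟨g, hg⟩ := ht _ hw
    have h : ∃ a : Γ, a • (g • (y, w)).1 = y := ⟨g⁻¹, inv_smul_smul g y⟩
    refine ⟨⟨h.choose * g, (mul_smul _ _ _).trans h.choose_spec⟩, Finset.mem_image.2 ⟨_, hg, ?_⟩⟩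
    rw [dif_pos h]
    exact (mul_smul _ _ _).symm

end Pool.Agent.P.MP_0f25e6_al.VT
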