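import Pool.Agent.P.MP_0f25e6_al.VT.Spec

/-!
Quasi-isomorphisms of families and the constant family.
-/

set_option autoImplicit false

noncomputable section

namespace Pool.Agent.P.MP_0f25e6_al.VT

universe u

namespace QI

variable {L : Type*} [DivisionRing L] {E : Type*} [AddCommGroup E] [Module L E] {I : Type*}
  [DecidableEq I]

theorem image_cons {n : ℕ} (k : I) (τ : Fin n → I) :
    Finset.univ.image (Fin.cons k τ : Fin (n + 1) → I) = insert k (Finset.univ.image τ) := by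
  ext i
  simp only [Finset.mem_image, Finset.mem_univ, true_and, Finset.mem_insert, Fin.exists_fin_succ,
    Fin.cons_zero, Fin.cons_succ]
  exact or_congr_left eq_comm

theorem key {B' B : Finset I → Submodule L E} (k : I) (hB' : Monotone B') (hB : Monotone B)
    (h0 : B ∅ = ⊥) (h1 : ∀ S, B (insert k S) ≤ B S ⊔ B' (insert k S))
    (h2 : ∀ S, B S ⊓ B' (insert k S) ≤ B' S) (n : ℕ) (φ : Co I E n) (hφ : φ ∈ Cn B n)
    (hd : dd L n φ ∈ Cn B' (n + 1)) : ∃ φ' ∈ Cn B' n, ∃ β ∈ Bn B n, φ = φ' + β := by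
  cases n with
  | zero =>
    refine ⟨φ, fun τ => h2 _ ⟨hφ τ, ?_⟩, 0, zero_mem _, (add_zero _).symm⟩
    have e : φ τ = cone L k 0 (dd L 0 φ) τ + φ fun _ => k := by
      rw [cone_dd_zero, sub_add_cancel]
    rw [e]
    refine add_mem ?_ ?_
    · rw [cone_apply, ← image_cons]
      exact hd _
    · have h3 := hφ fun _ => k
      have e2 : Finset.univ.image (fun _ : Fin (0 + 1) => k) = insert k ∅ := by
        ext i
        simp [eq_comm]
      rw [e2] at h3
      have h4 := h1 ∅ h3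
      rw [h0, bot_sup_eq] at h4
      exact hB' (Finset.insert_subset_insert k (Finset.empty_subset _)) h4
  | succ n =>
    have h3 : ∀ τ : Fin (n + 1) → I, ∃ y ∈ B (Finset.univ.image τ),
        ∃ z ∈ B' (insert k (Finset.univ.image τ)), y + z = cone L k n φ τ := fun τ => by
      refine Submodule.mem_sup.1 (h1 _ ?_)
      rw [cone_apply, ← image_cons]
      exact hφ _
    choose ψ₁ m₁ ψ₂ m₂ hs using h3
    have hs' : cone L k n φ = ψ₁ + ψ₂ := funext fun τ => (hs τ).symm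
    have e : φ - dd L n ψ₁ = cone L k (n + 1) (dd L (n + 1) φ) + dd L n ψ₂ := by
      rw [cone_dd_succ, hs', map_add]
      abel
    refine ⟨φ - dd L n ψ₁, fun τ => h2 _ ⟨?_, ?_⟩, dd L n ψ₁, ⟨ψ₁, m₁, rfl⟩,
      (sub_add_cancel _ _).symm⟩
    · exact (sub_mem hφ (dd_mem_Cn hB m₁) : _ ∈ Cn B (n + 1)) τ
    · rw [e, Pi.add_apply]
      refine add_mem ?_ ?_
      · rw [cone_apply, ← image_cons]
        exact hd _
      · rw [dd_apply]
        refine Submodule.sum_mem _ fun l _ => zsmul_mem (hB' ?_ (m₂ (τ ∘ l.succAbove))) _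
        refine Finset.insert_subset_insert k fun i hi => ?_
        obtain ⟨a, -, rfl⟩ := Finset.mem_image.1 hi
        exact Finset.mem_image_of_mem τ (Finset.mem_univ _)

/-- The isomorphism on cohomology. -/
theorem equiv {B' B : Finset I → Submodule L E} (h : QIso B' B) (n : ℕ) :
    Nonempty (Hn B' n ≃ₗ[L] Hn B n) := by
  let f : Hn B' n →ₗ[L] Hn B n :=
    Submodule.mapQ _ _ (Submodule.inclusion (Zn_mono h.1 n)) fun x hx => Bn_mono h.1 n hx
  refine ⟨LinearEquiv.ofBijective f ⟨?_, ?_⟩⟩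
  · rw [injective_iff_map_eq_zero]
    intro x hx
    obtain ⟨x, rfl⟩ := Submodule.Quotient.mk_surjective _ x
    have h1 : (x : Co I E n) ∈ Bn B n :=
      (Submodule.Quotient.mk_eq_zero ((Bn B n).submoduleOf (Zn B n))).1 hx
    exact (Submodule.Quotient.mk_eq_zero _).2 ((h.2 n).2 ⟨x.2, h1⟩)
  · intro y
    obtain ⟨y, rfl⟩ := Submodule.Quotient.mk_surjective _ y
    obtain ⟨a, ha, b, hb, e⟩ := Submodule.mem_sup.1 ((h.2 n).1 y.2)
    refine ⟨Submodule.Quotient.mk ⟨a, ha⟩, ?_⟩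
    refine (Submodule.Quotient.eq _).2 ?_
    change a - (y : Co I E n) ∈ Bn B n
    rw [← e, sub_add_cancel_left]
    exact neg_mem hb

theorem le_iff {B' B : Finset I → Submodule L E} (h : QIso B' B) (n : ℕ) :
    Zn B' n ≤ Bn B' n ↔ Zn B n ≤ Bn B n :=
  ⟨fun h1 => (h.2 n).1.trans (sup_le (h1.trans (Bn_mono h.1 n)) le_rfl),
    fun h1 => le_trans (le_inf le_rfl ((Zn_mono h.1 n).trans h1)) (h.2 n).2⟩

end QI

open QI

theorem p_qi : S_QI.{u} := by
  intro L E I _ _ _ _ B' B k hB' hB hle h0 h1 h2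
  refine ⟨hle, fun n => ⟨fun z hz => ?_, fun z hz => ?_⟩⟩
  · obtain ⟨φ, hφ, β, hβ, e⟩ := key k hB' hB h0 h1 h2 n z hz.1 (by
      rw [(mem_Zn.1 hz).2]
      exact zero_mem _)
    refine Submodule.mem_sup.2 ⟨φ, mem_Zn.2 ⟨hφ, ?_⟩, β, hβ, e.symm⟩
    have h3 := (mem_Zn.1 hz).2
    rwa [e, map_add, (mem_Zn.1 (Bn_le_Zn hB n hβ)).2, add_zero] at h3
  · cases n with
    | zero => exact hz.2
    | succ n =>
      obtain ⟨hz1, ψ, hψ, rfl⟩ := hz
      obtain ⟨φ, hφ, β, hβ, e⟩ := key k hB' hB h0 h1 h2 n ψ hψ hz1.1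
      refine ⟨φ, hφ, ?_⟩
      rw [e, map_add, (mem_Zn.1 (Bn_le_Zn hB n hβ)).2, add_zero]

theorem p_qip : S_QIP.{u} := by
  intro L E I _ _ _ _ B' B _ _ h
  refine ⟨and_congr (forall_congr' fun n => ?_) (exists_congr fun N => forall_congr' fun n =>
    imp_congr_right fun _ => le_iff h n), forall_congr' fun n => le_iff h n, ?_,
    fun B'' h' => ⟨h'.1.trans h.1, fun n => ⟨?_, ?_⟩⟩⟩
  · obtain ⟨e⟩ := equiv h n
    exact Module.Finite.equiv_iff e
  · refine finsum_congr fun n => ?_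
    obtain ⟨e⟩ := equiv h n
    rw [hd, hd, e.finrank_eq]
  · exact (h.2 n).1.trans (sup_le ((h'.2 n).1.trans (sup_le_sup_left (Bn_mono h.1 n) _))
      le_sup_right)
  · exact le_trans (le_inf inf_le_left (le_trans (inf_le_inf_right _ (Zn_mono h'.1 n))
      (h.2 n).2)) (h'.2 n).2

theorem p_const : S_CONST.{u} := by
  intro L E I _ _ _ _ _ hI B hB
  obtain ⟨k⟩ := hI
  have hC : ∀ n (φ : Co I E n), φ ∈ Cn B n := fun n φ τ => by
    rw [hB _ (Finset.univ_nonempty.image τ)]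
    trivial
  have hs : ∀ n, Zn B (n + 1) ≤ Bn B (n + 1) := fun n z hz => by
    refine ⟨cone L k n z, hC _ _, ?_⟩
    have h := cone_dd_succ L k n z
    rw [(mem_Zn.1 hz).2, map_zero] at h
    exact (sub_eq_zero.1 h.symm).symm
  let f : Zn B 0 →ₗ[L] E := (LinearMap.proj fun _ => k) ∘ₗ (Zn B 0).subtype
  have hf : Function.Bijective f := by
    constructor
    · rw [injective_iff_map_eq_zero]
      intro x hx
      ext τ
      have h := cone_dd_zero L k (x : Co I E 0) τ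
      rw [(mem_Zn.1 x.2).2, map_zero] at h
      have h2 : (x : Co I E 0) (fun _ => k) = 0 := hx
      rw [h2, sub_zero] at h
      exact h.symm
    · intro y
      refine ⟨⟨fun _ => y, mem_Zn.2 ⟨hC _ _, ?_⟩⟩, rfl⟩
      ext τ
      rw [dd_apply, Fin.sum_univ_two]
      simp
  have hb : (Bn B 0).submoduleOf (Zn B 0) = ⊥ := by
    rw [eq_bot_iff]
    intro x hx
    exact Subtype.ext ((mem_Bn_zero (B := B)).1 hx)
  let e : Hn B 0 ≃ₗ[L] E :=
    (Submodule.quotEquivOfEqBot _ hb).trans (LinearEquiv.ofBijective f hf)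
  refine ⟨⟨fun n => ?_, 1, fun n hn => ?_⟩, ?_⟩
  · cases n with
    | zero => exact (Module.Finite.equiv_iff e).2 inferInstance
    | succ n =>
      have := hd_eq_zero (hs n)
      infer_instance
  · obtain ⟨m, rfl⟩ := Nat.exists_eq_add_of_le' hn
    exact hs m
  · rw [chi, finsum_eq_single _ 0 fun n hn => ?_]
    · rw [hd, e.finrank_eq]
      simp
    · obtain ⟨m, rfl⟩ := Nat.exists_eq_succ_of_ne_zero hn
      have := hd_eq_zero (hs m)
      rw [hd, Module.finrank_zero_of_subsingleton]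
      simp

end Pool.Agent.P.MP_0f25e6_al.VT
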