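import Pool.Agent.P.MP_0f25e6_al.VT.Spec

/-!
Right linear algebra over a subfield.
-/

set_option autoImplicit false

open MulOpposite

noncomputable section

namespace Pool.Agent.P.MP_0f25e6_al.VT

universe u

namespace RB2

variable {D : Type u} [DivisionRing D] (L : Subfield D)

/-- The opposite subfield. -/
def opf : Subfield Dᵐᵒᵖ :=
  { L.toSubring.op with inv_mem' := fun _ h => L.inv_mem h }

/-- A right subspace as a submodule. -/
def sub (Y : AddSubgroup D) (h : ∀ y ∈ Y, ∀ κ ∈ L, y * κ ∈ Y) : Submodule (opf L) D where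
  carrier := Y
  add_mem' := add_mem
  zero_mem' := zero_mem _
  smul_mem' c y hy := h y hy c.1.unop c.2

/-- A linear form as an additive map. -/
def frm (f : D →ₗ[opf L] opf L) : D →+ D :=
  AddMonoidHom.mk' (fun d => (f d).1.unop) fun a b => by rw [map_add]; rfl

theorem frm_mem (f : D →ₗ[opf L] opf L) (d : D) : frm L f d ∈ L := (f d).2

theorem frm_mul (f : D →ₗ[opf L] opf L) (d : D) {κ : D} (h : κ ∈ L) :
    frm L f (d * κ) = frm L f d * κ :=
  congrArg (fun x : opf L => x.1.unop) (f.map_smul ⟨op κ, h⟩ d)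

end RB2

open RB2 in
theorem p_rb' : S_RB.{u} := by
  intro D _ L Y M hYM hY hM
  obtain ⟨Z, hZ⟩ := Submodule.exists_isCompl (sub L Y hY)
  let C := sub L M hM ⊓ Z
  let b := Module.Basis.ofVectorSpace (opf L) C
  obtain ⟨r, hr⟩ := LinearMap.exists_leftInverse_of_injective C.subtype C.ker_subtype
  let π : D →ₗ[opf L] D := Z.subtype ∘ₗ Submodule.projectionOnto Z _ hZ.symm
  have h1 : ∀ x ∈ Z, π x = x := fun x hx =>
    congrArg Subtype.val (Submodule.projectionOnto_apply_left hZ.symm ⟨x, hx⟩)
  have h2 : ∀ x ∈ Y, π x = 0 := fun x hx =>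
    congrArg Subtype.val (Submodule.projectionOnto_apply_right hZ.symm ⟨x, hx⟩)
  have h3 : ∀ x, x - π x ∈ Y := fun x => by
    obtain ⟨y, hy, z, hz, rfl⟩ := Submodule.mem_sup.1 (hZ.sup_eq_top.ge (Submodule.mem_top (x := x)))
    rw [map_add, h1 z hz, h2 y hy, zero_add, add_sub_cancel_right]
    exact hy
  have h4 : ∀ x : C, r x = x := fun x => LinearMap.congr_fun hr x
  have h5 : ∀ j, r (π (b j)) = b j := fun j => by rw [h1 _ (b j).2.2, h4]
  refine ⟨_, fun j => b j, fun j => frm L (b.coord j ∘ₗ r ∘ₗ π), fun j => (b j).2.1,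
    fun j => frm_mem L _, fun j d κ h => frm_mul L _ d h, fun j => ?_, fun j j' h => ?_,
    fun j y hy => ?_, fun d hd => ?_⟩
  · change (b.repr (r (π (b j))) j).1.unop = 1
    rw [h5, b.repr_self, Finsupp.single_eq_same]
    rfl
  · change (b.repr (r (π (b j))) j').1.unop = 0
    rw [h5, b.repr_self, Finsupp.single_eq_of_ne h.symm]
    rfl
  · change (b.repr (r (π y)) j).1.unop = 0
    rw [h2 y hy, map_zero, map_zero]
    rfl
  · have h6 : π d ∈ C := ⟨by
      have := sub_mem hd (hYM (h3 d))
      rwa [sub_sub_cancel] at this, (Submodule.projectionOnto Z _ hZ.symm d).2⟩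
    have h7 : Function.support (fun j => (b j : D) * (b.repr (r (π d)) j).1.unop) ⊆
        (b.repr (r (π d))).support := fun j hj => Finsupp.mem_support_iff.2 fun h => hj (by
      simp [h])
    refine ⟨(b.repr (r (π d))).hasFiniteSupport.subset fun j hj h => hj ?_, ?_⟩
    · change (b.repr (r (π d)) j).1.unop = 0
      rw [h]
      rfl
    · have h8 : ∑ᶠ j, (b j : D) * (b.repr (r (π d)) j).1.unop = π d := by
        rw [finsum_eq_sum_of_support_subset _ h7]
        have h9 := congrArg Subtype.val (b.linearCombination_repr (r (π d)))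
        rw [Finsupp.linearCombination_apply, Finsupp.sum, Submodule.coe_sum] at h9
        exact h9.trans (congrArg Subtype.val (h4 ⟨_, h6⟩))
      exact h8 ▸ h3 d

open RB2 in
theorem p_rext' : S_REXT.{u} := by
  intro D J _ L p q hq h
  let q' : J → opf L := fun j => ⟨op (q j), hq j⟩
  let P := Finsupp.linearCombination (opf L) p
  have h1 : LinearMap.ker P ≤ LinearMap.ker (Finsupp.linearCombination (opf L) q') := fun a ha => by
    have h2 := h a.support (fun j => (a j).1.unop) (fun j => (a j).2) ha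
    refine Subtype.ext (unop_injective ?_)
    rw [Finsupp.linearCombination_apply, Finsupp.sum]
    simpa [q'] using h2
  obtain ⟨f, hf⟩ := LinearMap.exists_extend
    ((LinearMap.ker P).liftQ _ h1 ∘ₗ (P.quotKerEquivRange.symm : LinearMap.range P →ₗ[opf L] _))
  refine ⟨frm L f, frm_mem L f, fun d κ hκ => frm_mul L f d hκ, fun j => ?_⟩
  have h2 : f (P (Finsupp.single j 1)) = Finsupp.linearCombination (opf L) q'
      (Finsupp.single j 1) :=
    (LinearMap.congr_fun hf ⟨P (Finsupp.single j 1), _, rfl⟩).trans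
      (congrArg ((LinearMap.ker P).liftQ _ h1) (P.quotKerEquivRange_symm_apply_image _ _))
  rw [Finsupp.linearCombination_single, Finsupp.linearCombination_single, one_smul,
    one_smul] at h2
  change (f (p j)).1.unop = _
  rw [h2]
  rfl

end Pool.Agent.P.MP_0f25e6_al.VT
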