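import Pool.Agent.P.MP_0f25e6_al.VT.Spec

/-!
Sums of extended subspaces meet the original space in the original sums.
-/

set_option autoImplicit false

open MulAction

namespace Pool.Agent.P.MP_0f25e6_al.VT

universe u

open Sys

namespace PRL

variable {s s' : Sys.{u}} {W : Type u} [MulAction s.Γ W] (𝓛 : s.Lamp s' W)

theorem form (hI : S_INT.{u}) {n : ℕ} (h : SPL.{u} n) (hs : s.Gen) (hs' : s'.Good) {I : Type u}
    [Finite I] (A : I → Subgroup s.Γ) (hn : {i | A i ≠ ⊤}.ncard ≤ n) :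
    ∃ l : s'.D →+ s.D, l 1 ≠ 0 ∧ (∀ d κ, l (d * 𝓛.j κ) = l d * κ) ∧
      ∀ i, ∀ d ∈ s'.fld ((A i).comap 𝓛.p), l d ∈ s.fld (A i) := by
  obtain ⟨P⟩ := h s' hs' (s'.Γ ⧸ 𝓛.e.range) I (fun i => (A i).comap 𝓛.p)
    (le_trans (Set.ncard_le_ncard (t := {i | A i ≠ ⊤}) fun i hi (e : A i = ⊤) =>
      hi (by simp only [e, Subgroup.comap_top])) hn)
  have h0 := stabilizer_quotient 𝓛.e.range
  obtain ⟨b, hb⟩ : ∃ b, (P.C b).c ((1 : s'.Γ) : s'.Γ ⧸ 𝓛.e.range) 1 ≠ 0 := by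
    by_contra! h1
    simpa [h1] using P.sum ((1 : s'.Γ) : s'.Γ ⧸ 𝓛.e.range) 1
  obtain ⟨g, hg, hw⟩ : ∃ g : s'.Γ, 𝓛.p g = 1 ∧ g • P.w b = ((1 : s'.Γ) : s'.Γ ⧸ 𝓛.e.range) := by
    obtain ⟨a, ha⟩ := QuotientGroup.mk_surjective (P.w b)
    refine ⟨𝓛.e (𝓛.p a) * a⁻¹, by simp [𝓛.p_e], ?_⟩
    rw [← ha, mul_smul, Quotient.smul_mk, smul_eq_mul, inv_mul_cancel, ← mem_stabilizer_iff, h0]
    exact ⟨_, rfl⟩
  generalize ((1 : s'.Γ) : s'.Γ ⧸ 𝓛.e.range) = x at h0 hb hw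
  have h1 : ∀ d, s'.ι g * (P.C b).c x d ∈ s'.fld 𝓛.e.range := fun d => by
    have := conj_stab g ((P.C b).val (d * s'.ι g))
    rwa [(P.C b).eqv, hw, h0, mul_assoc, mul_assoc, ι_mul_inv, mul_one] at this
  have h2 : ∀ d, ∃ y, 𝓛.j y = s'.ι g * (P.C b).c x d := fun d => by
    have := fld_mono 𝓛.e.range_eq_map.le (h1 d)
    rw [𝓛.fld_map] at this
    exact this.imp fun _ e => e.2
  choose l hl using h2
  have hj := 𝓛.j.injective
  refine ⟨AddMonoidHom.mk' l fun d d' => hj (by simp only [hl, map_add, mul_add]), fun e => ?_,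
    fun d κ => hj ?_, fun i d hd => ?_⟩
  · have := hl 1
    rw [show l 1 = 0 from e, map_zero] at this
    exact mul_ne_zero (ι_ne_zero g) hb this.symm
  · simp only [AddMonoidHom.mk'_apply, map_mul, hl]
    rw [(P.C b).bal x d _ (𝓛.j_mem (fun a _ => h0.ge ⟨a, rfl⟩) (hs κ)), mul_assoc]
  · have h3 : (P.C b).c x d ∈ s'.fld ((A i).comap 𝓛.p) := by
      by_cases e : (P.C b).c x d = 0
      · rw [e]; exact zero_mem _
      · simpa using (P.ctl {i} x b d (by simpa using hd) e).2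
    have h4 := fld_mono (B := (A i).map 𝓛.e) (by
      rintro _ ⟨ha, a, rfl⟩
      exact ⟨a, by simpa [𝓛.p_e] using ha, rfl⟩) (hI s' hs'.ldc _ _ ⟨mul_mem (ι_mem (by
        simp [hg])) h3, h1 d⟩)
    rw [𝓛.fld_map, ← hl] at h4
    obtain ⟨y, hy, e⟩ := h4
    rwa [hj e] at hy

end PRL

theorem p_rl (hI : S_INT.{u}) : S_RL.{u} := by
  intro n h s s' W _ 𝓛 V V' _ _ _ _ β hs hs' I _ A P hn hP S v hv
  obtain ⟨l, h1, h2, h3⟩ := PRL.form 𝓛 hI h hs hs' A hn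
  let Λ : V' →+ V := AddMonoidHom.mk' (fun y => ∑ k, ((l 1)⁻¹ * l (β.b'.repr y k)) • β.b k)
    fun y y' => by simp [mul_add, add_smul, Finset.sum_add_distrib]
  have h4 : ∀ (d : s'.D) z, Λ (d • β.f z) = ((l 1)⁻¹ * l d) • z := fun d z => by
    have e : β.f z = ∑ k, 𝓛.j (β.b.repr z k) • β.b' k := by
      conv_lhs => rw [← β.b.sum_repr z, map_sum]
      simp only [β.f_smul, β.f_b]
    conv_rhs => rw [← β.b.sum_repr z, Finset.smul_sum]
    simp only [Λ, AddMonoidHom.mk'_apply]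
    refine Finset.sum_congr rfl fun k _ => ?_
    rw [map_smul, e, Finsupp.smul_apply, β.b'.repr_sum_self, smul_eq_mul, smul_smul, mul_assoc,
      ← h2]
  have h5 : (⨆ i ∈ S, β.til (A i) (P i)) ≤ (⨆ i ∈ S, P i).comap Λ := iSup₂_le fun i hi =>
    (AddSubgroup.closure_le _).2 (by
      rintro _ ⟨a, ha, z, hz, rfl⟩
      rw [SetLike.mem_coe, AddSubgroup.mem_comap, h4]
      exact (le_iSup₂_of_le (f := fun i (_ : i ∈ S) => P i) i hi le_rfl : _ ≤ ⨆ i ∈ S, P i)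
        (hP i _ (mul_mem (inv_mem (h3 i 1 (one_mem _))) (h3 i a ha)) z hz))
  have h6 := h4 1 v
  rw [one_smul, inv_mul_cancel₀ h1, one_smul] at h6
  exact h6 ▸ h5 hv

end Pool.Agent.P.MP_0f25e6_al.VT
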