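import Pool.Agent.P.MP_0f25e6_al.VT.Spec

/-!
Integrality for kernels of matrices acting by right convolution gives the internal property.
-/

set_option autoImplicit false

open MulAction

noncomputable section

namespace Pool.Agent.P.MP_0f25e6_al.VT

universe u

open HN

attribute [local instance] HN.rtAction

theorem p_rsac : S_RSAC.{u} := by
  intro G _ h
  refine MatSAC.sac (fun m n A W hW => ?_)
  let a : Fin m → L2 (G × Fin n) := fun i =>
    ∑ j, ∑ k ∈ (A i j).support, starRingEnd ℂ (A i j k) • delta (k⁻¹, j)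
  have h1 : W = sol G a := by
    ext f
    rw [hW, mem_sol_iff A a (fun _ => rfl)]
  have hc : Cls W := h1 ▸ (cut_sol (fun i =>
    finS_sum _ (fun j _ => finS_sum _ (fun k _ => (finS_delta _).smul _)))).cls
  have hi : Inv G W := h1 ▸ inv_sol a
  let j : G × Fin n → Tw G (Fin n) := fun p => ⟨p.1⁻¹, p.2⟩
  have hj : Function.Injective j := fun p q e =>
    Prod.ext (inv_injective (congrArg Tw.y e)) (congrArg Tw.k e)
  have hs : Function.Surjective j := fun p => ⟨(p.y⁻¹, p.k), by simp [j]⟩
  have hje : ∀ (c : G) p, j (c • p) = c • j p := fun c p => by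
    change (⟨(p.1 * c⁻¹)⁻¹, p.2⟩ : Tw G (Fin n)) = ⟨c * p.1⁻¹, p.2⟩
    rw [mul_inv_rev, inv_inv]
  have hpp : ∀ f, push j hj (pull j hj f) = f := fun f => by
    rw [push_pull, hs.range_eq]
    exact res_eq_self (by rw [supp_univ]; trivial)
  obtain ⟨d, hd⟩ := h m n A (img (push j hj) W) (fun f => by
    have h2 : f ∈ img (push j hj) W ↔ pull j hj f ∈ W :=
      ⟨by rintro ⟨F, hF, rfl⟩; exact (pull_push j hj F).symm ▸ hF, fun hf => ⟨_, hf, hpp f⟩⟩
    rw [h2, hW]
    simp only [pull_apply, j, mul_inv_rev, inv_inv]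
    exact ⟨fun hf g i => by simpa using hf g⁻¹ i, fun hf g i => hf g⁻¹ i⟩)
  rw [edim_img_of_inj (free_rt n) (free_tw free_self) (eqv_push hj hje)
    (fun f hf => by rw [← pull_push j hj f, hf, map_zero]) hc hi, edim_rt hi] at hd
  refine ⟨d, ?_⟩
  have h2 := congrArg ENNReal.toReal hd
  rwa [ENNReal.toReal_ofReal (Finset.sum_nonneg (fun _ _ => by positivity)),
    ENNReal.toReal_natCast] at h2

end Pool.Agent.P.MP_0f25e6_al.VT
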