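import Pool.Agent.P.MP_0f25e6_al.VT.PSESb

/-!
Finiteness of the cohomology of the kernel in a short exact sequence of families.
-/

set_option autoImplicit false

noncomputable section

namespace Pool.Agent.P.MP_0f25e6_al.VT

universe u

namespace SESa2

open PSESb

theorem fin_range {L M N P : Type*} [DivisionRing L] [AddCommGroup M] [Module L M]
    [AddCommGroup N] [Module L N] [AddCommGroup P] [Module L P] [Module.Finite L N]
    (p : M →ₗ[L] N) (q : M →ₗ[L] P) (h : LinearMap.ker p ≤ LinearMap.ker q) :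
    Module.Finite L (LinearMap.range q) := by
  have h1 : Module.Finite L (M ⧸ LinearMap.ker p) := Module.Finite.equiv p.quotKerEquivRange.symm
  rw [← Submodule.range_liftQ _ q h]
  infer_instance

variable {L E' E E'' I : Type u} [DivisionRing L] [AddCommGroup E'] [Module L E'] [AddCommGroup E]
  [Module L E] [AddCommGroup E''] [Module L E''] [DecidableEq I] {f : E' →ₗ[L] E} {g : E →ₗ[L] E''}
  {B' : Finset I → Submodule L E'} {B : Finset I → Submodule L E}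
  {B'' : Finset I → Submodule L E''} (s : Ses f g B' B B'')

include s

theorem chase {n : ℕ} {c : Co I E n} {z : Co I E' (n + 1)} (hc : c ∈ Cn B n)
    (hz : z ∈ Cn B' (n + 1)) (h : dd L n c = cm I f (n + 1) z) (hg : cm I g n c ∈ Bn B'' n) :
    z ∈ Bn B' (n + 1) := by
  obtain ⟨b, b1, b2⟩ := surB s hg
  have b3 := Bn_le_Zn s.2.1 n b1
  obtain ⟨w, w1, w2⟩ := mid s (sub_mem hc b3.1) (by rw [map_sub, b2, sub_self])
  refine mem_Bn_succ.2 ⟨w, w1, sub_eq_zero.1 (inj s (sub_mem (dd_mem_Cn s.1 w1) hz) ?_)⟩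
  rw [map_sub, ← dd_cm, w2, map_sub, (mem_Zn.1 b3).2, sub_zero, h, sub_self]

theorem van_zero (h : Zn B 0 ≤ Bn B 0) : Zn B' 0 ≤ Bn B' 0 := fun _ hz =>
  mem_Bn_zero.2 (inj s hz.1 (mem_Bn_zero.1 (h (cm_Z (fC s) hz))))

theorem van_succ {n : ℕ} (h : Zn B (n + 1) ≤ Bn B (n + 1)) (h' : Zn B'' n ≤ Bn B'' n) :
    Zn B' (n + 1) ≤ Bn B' (n + 1) := fun z hz => by
  obtain ⟨c, c1, c2⟩ := mem_Bn_succ.1 (h (cm_Z (fC s) hz))
  exact chase s c1 hz.1 c2 (h' (mem_Zn.2 ⟨gC s n c c1, by rw [dd_cm, c2, gf s hz.1]⟩))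

theorem fin_ker (n : ℕ) [Module.Finite L (Hn B'' n)] :
    Module.Finite L (LinearMap.ker (hm (fC s) (n + 1))) := by
  let M : Submodule L (Cn B n × Zn B' (n + 1)) := LinearMap.eqLocus
    (dd L n ∘ₗ (Cn B n).subtype ∘ₗ LinearMap.fst L _ _)
    (cm I f (n + 1) ∘ₗ (Zn B' (n + 1)).subtype ∘ₗ LinearMap.snd L _ _)
  have hM : ∀ m : Cn B n × Zn B' (n + 1), m ∈ M ↔ dd L n m.1 = cm I f (n + 1) m.2 :=
    fun _ => Iff.rfl
  have hz : ∀ m : M, cm I g n m.1.1 ∈ Zn B'' n := fun m =>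
    mem_Zn.2 ⟨gC s n _ m.1.1.2, by rw [dd_cm, (hM _).1 m.2, gf s m.1.2.2.1]⟩
  let p : M →ₗ[L] Hn B'' n := Submodule.mkQ _ ∘ₗ LinearMap.codRestrict (Zn B'' n)
    (cm I g n ∘ₗ (Cn B n).subtype ∘ₗ LinearMap.fst L _ _ ∘ₗ M.subtype) hz
  let q : M →ₗ[L] Hn B' (n + 1) := Submodule.mkQ _ ∘ₗ LinearMap.snd L _ _ ∘ₗ M.subtype
  have pq : LinearMap.ker p ≤ LinearMap.ker q := fun m h =>
    (mk_zero _).2 (chase s m.1.1.2 m.1.2.2.1 ((hM _).1 m.2) ((mk_zero ⟨_, hz m⟩).1 h))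
  have h1 := fin_range (M := M) (N := Hn B'' n) (P := Hn B' (n + 1)) p q pq
  have h2 : LinearMap.ker (hm (fC s) (n + 1)) ≤ LinearMap.range q := by
    intro x h
    obtain ⟨y, rfl⟩ := Submodule.Quotient.mk_surjective _ x
    rw [LinearMap.mem_ker, hm_mk, mk_zero] at h
    obtain ⟨c, c1, c2⟩ := mem_Bn_succ.1 h
    exact ⟨⟨(⟨c, c1⟩, y), (hM _).2 c2⟩, rfl⟩
  exact Module.Finite.of_injective (Submodule.inclusion h2) (Submodule.inclusion_injective h2)

end SESa2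

open SESa2 PSESb in
theorem p_sesa' : S_SESa.{u} := by
  intro L E' E E'' I _ _ _ _ _ _ _ _ f g B' B B'' s
  refine ⟨fun ⟨f1, N1, h1⟩ ⟨f2, N2, h2⟩ => ⟨fun n => ?_, N1 + N2 + 1, fun n hn => ?_⟩,
    fun h1 h2 n => ?_⟩
  · have h3 : Module.Finite L (LinearMap.ker (hm (fC s) n)) := by
      cases n with
      | zero => rw [ker_zero s]; infer_instance
      | succ n => exact fin_ker s n
    have h4 : Module.Finite L (Hn B' n ⧸ LinearMap.ker (hm (fC s) n)) :=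
      Module.Finite.equiv (LinearMap.quotKerEquivRange (hm (fC s) n)).symm
    exact Module.Finite.of_submodule_quotient (LinearMap.ker (hm (fC s) n))
  · obtain ⟨n, rfl⟩ : ∃ k, n = k + 1 := ⟨n - 1, by omega⟩
    exact van_succ s (h1 _ (by omega)) (h2 _ (by omega))
  · cases n with
    | zero => exact van_zero s (h1 0)
    | succ n => exact van_succ s (h1 _) (h2 _)

end Pool.Agent.P.MP_0f25e6_al.VT
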