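import Pool.Agent.P.MP_0f25e6_al.VT.Spec

/-!
Existence of adapted bases.
-/

set_option autoImplicit false

open MulAction

noncomputable section

namespace Pool.Agent.P.MP_0f25e6_al.VT

universe u

open Sys

namespace SPLa

variable {s : Sys.{u}} {W : Type u} [MulAction s.Γ W]

variable (s) in
/-- The span of the products `g κ` with `g x = w` and `κ` in the field of the stabiliser of `x`. -/
def Tp (x w : W) : AddSubgroup s.D :=
  AddSubgroup.closure {e | ∃ g : s.Γ, g • x = w ∧ ∃ κ ∈ s.fld (stabilizer s.Γ x), e = s.ι g * κ}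

theorem mem_Tp {x w : W} {g : s.Γ} (hg : g • x = w) {κ : s.D}
    (hκ : κ ∈ s.fld (stabilizer s.Γ x)) : s.ι g * κ ∈ Tp s x w :=
  AddSubgroup.subset_closure ⟨g, hg, κ, hκ, rfl⟩

theorem mem_Tp' {x w : W} {g : s.Γ} (hg : g • x = w) {κ : s.D}
    (hκ : κ ∈ s.fld (stabilizer s.Γ w)) : κ * s.ι g ∈ Tp s x w := by
  have h := conj_stab g⁻¹ hκ
  rw [← hg, inv_smul_smul, inv_inv] at h
  have h2 := mem_Tp hg h
  rwa [← mul_assoc, ← mul_assoc, ι_mul_inv, one_mul] at h2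

theorem Tp_le {x w : W} {M : AddSubgroup s.D}
    (h : ∀ g : s.Γ, g • x = w → ∀ κ ∈ s.fld (stabilizer s.Γ x), s.ι g * κ ∈ M) : Tp s x w ≤ M :=
  (AddSubgroup.closure_le _).2 (by rintro _ ⟨g, hg, κ, hκ, rfl⟩; exact h g hg κ hκ)

theorem coord_Tp {w₀ x w : W} (C : s.Coord w₀) (d : s.D) {e : s.D} (he : e ∈ Tp s x w) :
    C.c x (d * e) = C.c w d * e := by
  have h := Tp_le (x := x) (w := w) (M := AddMonoidHom.eqLocus
    ((C.c x).comp (AddMonoidHom.mulLeft d)) (AddMonoidHom.mulLeft (C.c w d)))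
    (fun g hg κ hκ => by
      change C.c x (d * (s.ι g * κ)) = C.c w d * (s.ι g * κ)
      rw [← mul_assoc, C.bal x _ κ hκ, C.eqv, hg, mul_assoc]) he
  exact h

theorem Tp_mul {x y z : W} {e e' : s.D} (he : e ∈ Tp s y z) (he' : e' ∈ Tp s x y) :
    e * e' ∈ Tp s x z := by
  refine Tp_le (M := (Tp s x z).comap (AddMonoidHom.mulLeft e)) (fun g hg κ hκ => ?_) he'
  change e * (s.ι g * κ) ∈ Tp s x z
  refine Tp_le (M := (Tp s x z).comap (AddMonoidHom.mulRight (s.ι g * κ)))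
    (fun g' hg' κ' hκ' => ?_) he
  change s.ι g' * κ' * (s.ι g * κ) ∈ Tp s x z
  have h := conj_stab g⁻¹ hκ'
  rw [← hg, inv_smul_smul, inv_inv] at h
  have h2 := mem_Tp (g := g' * g) (x := x) (w := z) (by rw [mul_smul, hg, hg']) (mul_mem h hκ)
  have h3 : s.ι (g' * g) * (s.ι g⁻¹ * κ' * s.ι g * κ) = s.ι g' * κ' * (s.ι g * κ) := by
    rw [map_mul, mul_assoc (s.ι g'), ← mul_assoc (s.ι g), ← mul_assoc (s.ι g), ← mul_assoc (s.ι g),
      ι_mul_inv, one_mul]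
    simp only [mul_assoc]
  rwa [h3] at h2

theorem mul_mem_X {A : Subgroup s.Γ} {a : s.D} (ha : a ∈ s.fld A) {x w : W} {e : s.D}
    (he : e ∈ Tp s x w) : a * e ∈ s.X A (stabilizer s.Γ x) :=
  Tp_le (M := (s.X A (stabilizer s.Γ x)).comap (AddMonoidHom.mulLeft a)) (fun g _ κ hκ =>
    AddSubgroup.subset_closure ⟨a, ha, g, κ, hκ, (mul_assoc _ _ _).symm⟩) he

variable {I : Type u}

variable (s) in
/-- The elements that have an expansion at `x` with types containing `S`. -/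
def Ex (A : I → Subgroup s.Γ) {B : Type u} (w : B → W) (U : B → Finset I) (a : B → s.D)
    (S : Finset I) (x : W) : AddSubgroup s.D :=
  AddSubgroup.closure
    {y | ∃ β, S ⊆ U β ∧ ∃ e ∈ s.fld (⨅ i ∈ S, A i), e ∈ Tp s x (w β) ∧ y = a β * e}

theorem Ex_mul {A : I → Subgroup s.Γ} {B : Type u} {w : B → W} {U : B → Finset I} {a : B → s.D}
    {S T : Finset I} (hST : S ⊆ T) {x y : W} {d e : s.D} (hd : d ∈ Ex s A w U a T y)
    (he : e ∈ s.fld (⨅ i ∈ S, A i)) (he' : e ∈ Tp s x y) : d * e ∈ Ex s A w U a S x := by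
  refine (AddSubgroup.closure_le ((Ex s A w U a S x).comap (AddMonoidHom.mulRight e))).2 ?_ hd
  rintro _ ⟨β, hβ, e', h1, h2, rfl⟩
  change a β * e' * e ∈ Ex s A w U a S x
  rw [mul_assoc]
  exact AddSubgroup.subset_closure ⟨β, hST.trans hβ, e' * e,
    mul_mem (fld_mono (biInf_mono fun i hi => hST hi) h1) he, Tp_mul h2 he', rfl⟩

variable (s W) in
/-- A spanning family with coordinates that are correct on elements of the same type. -/
structure Pre (A : I → Subgroup s.Γ) where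
  /-- index type -/
  B : Type u
  /-- the point -/
  w : B → W
  /-- the type of a basis element -/
  U : B → Finset I
  /-- the basis element -/
  a : B → s.D
  /-- the first coordinate -/
  C : ∀ β, s.Coord (w β)
  a_mem : ∀ β, a β ∈ s.fld (⨅ i ∈ U β, A i)
  self : ∀ β, (C β).c (w β) (a β) = 1
  ne : ∀ β β', β ≠ β' → U β = U β' → (C β').c (w β) (a β) = 0
  low : ∀ β k, k ∉ U β → ∀ x, ∀ d ∈ s.fld ((⨅ i ∈ U β, A i) ⊓ A k), (C β).c x d = 0
  exp : ∀ (S : Finset I) x, ∀ d ∈ s.fld (⨅ i ∈ S, A i), d ∈ Ex s A w U a S x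

variable (s) in
/-- The part of the field of `A₀` that comes from smaller groups. -/
def Yy (A : I → Subgroup s.Γ) (S : Finset I) (w : W) : AddSubgroup s.D :=
  AddSubgroup.closure {y | ∃ k, k ∉ S ∧ ∃ a ∈ s.fld ((⨅ i ∈ S, A i) ⊓ A k), ∃ α ∈ ⨅ i ∈ S, A i,
    ∃ κ ∈ s.fld ((⨅ i ∈ S, A i) ⊓ stabilizer s.Γ w), y = a * s.ι α * κ}

theorem Yy_le (A : I → Subgroup s.Γ) (S : Finset I) (w : W) :
    Yy s A S w ≤ (s.fld (⨅ i ∈ S, A i)).toAddSubgroup := by
  refine (AddSubgroup.closure_le _).2 ?_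
  rintro _ ⟨k, _, a, ha, α, hα, κ, hκ, rfl⟩
  exact Subfield.mul_mem _ (mul_mem (fld_mono inf_le_left ha) (ι_mem hα)) (fld_mono inf_le_left hκ)

theorem Yy_mul (A : I → Subgroup s.Γ) (S : Finset I) (w : W) :
    ∀ y ∈ Yy s A S w, ∀ κ ∈ s.fld ((⨅ i ∈ S, A i) ⊓ stabilizer s.Γ w), y * κ ∈ Yy s A S w := by
  intro y hy κ hκ
  refine (AddSubgroup.closure_le ((Yy s A S w).comap (AddMonoidHom.mulRight κ))).2 ?_ hy
  rintro _ ⟨k, hk, a, ha, α, hα, κ', hκ', rfl⟩
  change a * s.ι α * κ' * κ ∈ Yy s A S w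
  rw [mul_assoc]
  exact AddSubgroup.subset_closure ⟨k, hk, a, ha, α, hα, _, mul_mem hκ' hκ, rfl⟩

theorem exists_pre (hRB : S_RB.{u}) (hL : s.LDC) [Finite I] (A : I → Subgroup s.Γ) :
    Nonempty (Pre s W A) := by
  classical
  let P : Type u := Σ S : Finset I, orbitRel.Quotient (⨅ i ∈ S, A i : Subgroup s.Γ) W
  have h1 := fun p : P => hRB s.D (s.fld ((⨅ i ∈ p.1, A i) ⊓ stabilizer s.Γ p.2.out))
    (Yy s A p.1 p.2.out) (s.fld (⨅ i ∈ p.1, A i)).toAddSubgroup (Yy_le A _ _) (Yy_mul A _ _)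
    (fun y hy κ hκ => Subfield.mul_mem _ hy (fld_mono inf_le_left hκ))
  choose J a l ha hl hlin hself hne hY hexp using h1
  have h2 := fun β : (Σ p : P, J p) => hL W β.1.2.out (⨅ i ∈ β.1.1, A i) (l β.1 β.2)
    (fun d _ => hl β.1 β.2 d) (fun d _ κ hκ => hlin β.1 β.2 d κ hκ)
  choose C hC hC0 using h2
  refine ⟨⟨Σ p : P, J p, fun β => β.1.2.out, fun β => β.1.1, fun β => a β.1 β.2, C,
    fun β => ha β.1 β.2, fun β => ?_, ?_, fun β k hk x d hd => ?_, fun S => ?_⟩⟩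
  · rw [hC β _ (ha β.1 β.2), hself]
  · rintro ⟨⟨S, q⟩, j⟩ ⟨⟨S', q'⟩, j'⟩ hβ hS
    obtain rfl : S = S' := hS
    by_cases hq : q = q'
    · subst hq
      exact (hC ⟨⟨S, q⟩, j'⟩ _ (ha ⟨S, q⟩ j)).trans
        (hne ⟨S, q⟩ j j' fun h => hβ (by rw [h]))
    · refine hC0 ⟨⟨S, q'⟩, j'⟩ _ (ha ⟨S, q⟩ j) _ fun α hα h => hq ?_
      rw [← q.out_eq, ← q'.out_eq]
      exact Quotient.sound ⟨⟨α, hα⟩, h⟩
  · by_cases hx : ∃ α ∈ ⨅ i ∈ β.1.1, A i, α • β.1.2.out = x
    · obtain ⟨α, hα, rfl⟩ := hx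
      have h3 := (C β).eqv α β.1.2.out d
      rw [hC β _ (mul_mem (fld_mono inf_le_left hd) (ι_mem hα)), hY β.1 β.2 _
        (AddSubgroup.subset_closure ⟨k, hk, d, hd, α, hα, 1, one_mem _, (mul_one _).symm⟩)] at h3
      exact (mul_eq_zero.1 h3.symm).resolve_right (ι_ne_zero α)
    · exact hC0 β d (fld_mono inf_le_left hd) x fun α hα h => hx ⟨α, hα, h⟩
  · induction S using WellFoundedGT.induction with
    | ind S ih =>
      intro x d hd
      let p : P := ⟨S, Quotient.mk _ x⟩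
      obtain ⟨⟨α, hα⟩, hx⟩ : p.2.out ∈ orbit (⨅ i ∈ S, A i : Subgroup s.Γ) x :=
        Quotient.exact (Quotient.out_eq (s := orbitRel _ W) (Quotient.mk _ x))
      replace hx : α • x = p.2.out := hx
      have hd' : d * s.ι α⁻¹ ∈ s.fld (⨅ i ∈ S, A i) := mul_mem hd (ι_mem (inv_mem hα))
      obtain ⟨hfin, hy⟩ := hexp p _ hd'
      have h3 : d = (∑ᶠ j, a p j * l p j (d * s.ι α⁻¹)) * s.ι α +
          (d * s.ι α⁻¹ - ∑ᶠ j, a p j * l p j (d * s.ι α⁻¹)) * s.ι α := by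
        rw [← add_mul, add_sub_cancel, mul_assoc, ι_inv_mul, mul_one]
      rw [h3]
      refine add_mem ?_ ?_
      · rw [finsum_eq_sum_of_support_subset (s := hfin.toFinset) _ (fun j hj => by
          simp only [Set.Finite.coe_toFinset, Set.mem_ofPred_eq]
          exact right_ne_zero_of_mul hj), Finset.sum_mul]
        refine sum_mem fun j _ => ?_
        rw [mul_assoc]
        exact AddSubgroup.subset_closure ⟨⟨p, j⟩, subset_rfl, _,
          mul_mem (fld_mono inf_le_left (hl p j _)) (ι_mem hα),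
          mem_Tp' hx (fld_mono inf_le_right (hl p j _)), rfl⟩
      · refine (AddSubgroup.closure_le ((Ex s A (fun β : (Σ p : P, J p) => β.1.2.out)
          (fun β => β.1.1) (fun β => a β.1 β.2) S x).comap
          (AddMonoidHom.mulRight (s.ι α)))).2 ?_ hy
        rintro _ ⟨k, hk, a', ha', α', hα', κ, hκ, rfl⟩
        change a' * s.ι α' * κ * s.ι α ∈ Ex s A _ _ _ S x
        have h4 : a' ∈ s.fld (⨅ i ∈ insert k S, A i) := by
          rwa [Finset.iInf_insert, inf_comm]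
        rw [mul_assoc, mul_assoc]
        refine Ex_mul (Finset.subset_insert k S)
          (ih (insert k S) (Finset.ssubset_insert hk) (α' • p.2.out) a' h4)
          (mul_mem (ι_mem hα') (mul_mem (fld_mono inf_le_left hκ) (ι_mem hα))) ?_
        have h5 := Tp_mul (mem_Tp (g := α') (x := p.2.out) rfl (one_mem _))
          (mem_Tp' hx (fld_mono inf_le_right hκ))
        rwa [mul_one] at h5

theorem dist {r : ℕ} (hMD : MD.{u} r) (hs : s.Good) [Fintype I] [DecidableEq I]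
    {A : I → Subgroup s.Γ} (hA : {i | A i ≠ ⊤}.ncard ≤ r + 1) (S : Finset I)
    (hS : ∀ k, k ∉ S → A k ≠ ⊤) (K : Subgroup s.Γ) :
    s.X (⨅ i ∈ S, A i) K ⊓ ⨆ k ∈ Sᶜ, s.X (A k) K ≤ ⨆ k ∈ Sᶜ, s.X ((⨅ i ∈ S, A i) ⊓ A k) K := by
  by_cases h : ∀ i ∈ S, A i = ⊤
  · have h1 : (⨅ i ∈ S, A i) = ⊤ := by simpa using h
    simp only [h1, top_inf_eq]
    exact inf_le_right
  · push Not at h
    obtain ⟨i, hi, hi'⟩ := h
    refine hMD s hs I Sᶜ ?_ _ K A
    have h1 : ((insert i Sᶜ : Finset I) : Set I) ⊆ {i | A i ≠ ⊤} := by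
      intro k hk
      rcases Finset.mem_insert.1 hk with rfl | hk
      · exact hi'
      · exact hS k (Finset.mem_compl.1 hk)
    have h2 := Set.ncard_le_ncard h1 (Set.toFinite _)
    rw [Set.ncard_coe_finset, Finset.card_insert_of_notMem (by simpa using hi)] at h2
    omega

theorem indep {r : ℕ} (hMD : MD.{u} r) (hs : s.Good) [Finite I] {A : I → Subgroup s.Γ}
    (hA : {i | A i ≠ ⊤}.ncard ≤ r + 1) (P : Pre s W A) (x : W) (t : Finset P.B) (e : P.B → s.D)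
    (he : ∀ β, e β ∈ Tp s x (P.w β)) (h0 : ∑ β ∈ t, P.a β * e β = 0) : ∀ β ∈ t, e β = 0 := by
  classical
  have := Fintype.ofFinite I
  by_contra hne
  push Not at hne
  obtain ⟨β₀, hβ₀, hmin⟩ := Finset.exists_min_image (t.filter fun β => e β ≠ 0)
    (fun β => (P.U β).card) (let ⟨β, h1, h2⟩ := hne; ⟨β, Finset.mem_filter.2 ⟨h1, h2⟩⟩)
  obtain ⟨hβt, hβe⟩ := Finset.mem_filter.1 hβ₀
  have hS : ∀ k, k ∉ P.U β₀ → A k ≠ ⊤ := fun k hk h => by
    have h1 := P.low β₀ k hk (P.w β₀) (P.a β₀) (by rw [h, inf_top_eq]; exact P.a_mem β₀)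
    rw [P.self] at h1
    exact one_ne_zero h1
  rw [← Finset.sum_filter_add_sum_filter_not t fun β => P.U β = P.U β₀] at h0
  have h1 : ∑ β ∈ t with P.U β = P.U β₀, P.a β * e β ∈
      s.X (⨅ i ∈ P.U β₀, A i) (stabilizer s.Γ x) :=
    sum_mem fun β hβ => mul_mem_X ((Finset.mem_filter.1 hβ).2 ▸ P.a_mem β) (he β)
  have h2 : ∑ β ∈ t with P.U β = P.U β₀, P.a β * e β ∈
      ⨆ k ∈ (P.U β₀)ᶜ, s.X (A k) (stabilizer s.Γ x) := by
    rw [eq_neg_of_add_eq_zero_left h0]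
    refine neg_mem (sum_mem fun β hβ => ?_)
    obtain ⟨hβ1, hβ2⟩ := Finset.mem_filter.1 hβ
    by_cases hz : e β = 0
    · rw [hz, mul_zero]
      exact zero_mem _
    · have h3 : ¬P.U β ⊆ P.U β₀ := fun h => hβ2
        (Finset.eq_of_subset_of_card_le h (hmin β (Finset.mem_filter.2 ⟨hβ1, hz⟩)))
      obtain ⟨k, hk, hk'⟩ := Finset.not_subset.1 h3
      exact (le_iSup₂_of_le (f := fun k (_ : k ∈ (P.U β₀)ᶜ) => s.X (A k) (stabilizer s.Γ x)) k
        (Finset.mem_compl.2 hk') le_rfl : _ ≤ ⨆ k ∈ (P.U β₀)ᶜ, s.X (A k) (stabilizer s.Γ x))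
        (mul_mem_X (fld_mono (biInf_le _ hk) (P.a_mem β)) (he β))
  have h3 := dist hMD hs hA (P.U β₀) hS (stabilizer s.Γ x) ⟨h1, h2⟩
  have h4 : (⨆ k ∈ (P.U β₀)ᶜ, s.X ((⨅ i ∈ P.U β₀, A i) ⊓ A k) (stabilizer s.Γ x)) ≤
      ((P.C β₀).c x).ker := by
    refine iSup₂_le fun k hk => (AddSubgroup.closure_le _).2 ?_
    rintro _ ⟨a, ha, g, κ, hκ, rfl⟩
    change (P.C β₀).c x (a * s.ι g * κ) = 0
    rw [mul_assoc, coord_Tp _ a (mem_Tp rfl hκ), P.low β₀ k (Finset.mem_compl.1 hk) _ a ha,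
      zero_mul]
  have h5 : (P.C β₀).c x (∑ β ∈ t with P.U β = P.U β₀, P.a β * e β) = 0 := h4 h3
  have h6 : β₀ ∈ t.filter fun β => P.U β = P.U β₀ := Finset.mem_filter.2 ⟨hβt, rfl⟩
  rw [map_sum, Finset.sum_eq_single_of_mem β₀ h6 (fun β hβ hb => by
    rw [coord_Tp _ _ (he β), P.ne β β₀ hb (Finset.mem_filter.1 hβ).2, zero_mul]),
    coord_Tp _ _ (he β₀), P.self, one_mul] at h5
  exact hβe h5

theorem coords (hRE : S_REXT.{u}) {B : Type u} (w : B → W) (a : B → s.D)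
    (hind : ∀ (x : W) (t : Finset B) (e : B → s.D), (∀ β, e β ∈ Tp s x (w β)) →
      ∑ β ∈ t, a β * e β = 0 → ∀ β ∈ t, e β = 0) (β₀ : B) :
    ∃ C : s.Coord (w β₀), C.c (w β₀) (a β₀) = 1 ∧ ∀ β, β ≠ β₀ → C.c (w β) (a β) = 0 := by
  classical
  obtain ⟨l, h1, h2, h3⟩ := hRE s.D {p : B × s.Γ // p.2 • w β₀ = w p.1}
    (s.fld (stabilizer s.Γ (w β₀))) (fun p => a p.1.1 * s.ι p.1.2)
    (fun p => if p.1.1 = β₀ then s.ι p.1.2 else 0) (fun p => by
      split_ifs with h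
      · exact ι_mem (p.2.trans (by rw [h]))
      · exact zero_mem _) (fun t κ hκ h0 => by
      have h4 := hind (w β₀) (insert β₀ (t.image fun p => p.1.1))
        (fun β => ∑ p ∈ t with p.1.1 = β, s.ι p.1.2 * κ p)
        (fun β => sum_mem fun p hp =>
          mem_Tp (p.2.trans (by rw [(Finset.mem_filter.1 hp).2])) (hκ p))
        (by
          rw [← h0, ← Finset.sum_fiberwise_of_maps_to (s := t)
            (t := insert β₀ (t.image fun p => p.1.1)) (g := fun p => p.1.1)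
            (fun p hp => Finset.mem_insert_of_mem (Finset.mem_image_of_mem _ hp))]
          refine Finset.sum_congr rfl fun β _ => ?_
          rw [Finset.mul_sum]
          refine Finset.sum_congr rfl fun p hp => ?_
          rw [(Finset.mem_filter.1 hp).2, mul_assoc]) β₀ (Finset.mem_insert_self _ _)
      rw [Finset.sum_filter] at h4
      refine (Finset.sum_congr rfl fun p _ => ?_).trans h4
      rw [ite_mul, zero_mul])
  obtain ⟨C, hC⟩ := exists_coord (w β₀) l h1 h2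
  refine ⟨C, ?_, fun β hβ => ?_⟩
  · have h4 := hC 1 (a β₀)
    rw [one_smul, h3 ⟨(β₀, 1), one_smul _ _⟩, if_pos rfl, ι_mul_inv] at h4
    exact h4
  · by_cases h : ∃ g : s.Γ, g • w β₀ = w β
    · obtain ⟨g, hg⟩ := h
      have h4 := hC g (a β)
      rw [hg, h3 ⟨(β, g), hg⟩, if_neg hβ, zero_mul] at h4
      exact h4
    · exact C.zero _ _ fun g hg => h ⟨g, hg⟩

theorem expand {A : I → Subgroup s.Γ} {B : Type u} {w : B → W} {U : B → Finset I} {a : B → s.D}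
    (C : ∀ β, s.Coord (w β)) (h1 : ∀ β, (C β).c (w β) (a β) = 1)
    (h2 : ∀ β β', β ≠ β' → (C β').c (w β) (a β) = 0) {S : Finset I} {x : W} {d : s.D}
    (hd : d ∈ Ex s A w U a S x) :
    {β | (C β).c x d ≠ 0}.Finite ∧ ∑ᶠ β, a β * (C β).c x d = d ∧
      ∀ β, (C β).c x d ∈ s.fld (⨅ i ∈ S, A i) ∧ (¬S ⊆ U β → (C β).c x d = 0) := by
  have hsup : ∀ d, {β | (C β).c x d ≠ 0}.Finite →
      (Function.support fun β => a β * (C β).c x d).Finite := fun d h =>
    h.subset fun β hβ => right_ne_zero_of_mul hβ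
  induction hd using AddSubgroup.closure_induction with
  | mem y hy =>
    obtain ⟨β, hβ, e, he, he', rfl⟩ := hy
    have h3 : (C β).c x (a β * e) = e := by rw [coord_Tp _ _ he', h1, one_mul]
    have h4 : ∀ β', β' ≠ β → (C β').c x (a β * e) = 0 := fun β' h => by
      rw [coord_Tp _ _ he', h2 β β' h.symm, zero_mul]
    refine ⟨(Set.finite_singleton β).subset fun β' h => by_contra fun h' => h (h4 β' h'), ?_,
      fun β' => ?_⟩
    · rw [finsum_eq_single _ β fun β' h => by rw [h4 β' h, mul_zero], h3]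
    · by_cases h : β' = β
      · subst h
        rw [h3]
        exact ⟨he, fun h => absurd hβ h⟩
      · rw [h4 β' h]
        exact ⟨zero_mem _, fun _ => rfl⟩
  | zero => simp
  | add y z _ _ hy hz =>
    refine ⟨(hy.1.union hz.1).subset fun β hβ => ?_, ?_, fun β => ?_⟩
    · by_contra h
      simp only [Set.mem_union, Set.mem_ofPred_eq, not_or, not_not] at h
      exact hβ (by rw [map_add, h.1, h.2, add_zero])
    · simp only [map_add, mul_add]
      rw [finsum_add_distrib (hsup y hy.1) (hsup z hz.1), hy.2.1, hz.2.1]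
    · rw [map_add]
      exact ⟨add_mem (hy.2.2 β).1 (hz.2.2 β).1, fun h => by
        rw [(hy.2.2 β).2 h, (hz.2.2 β).2 h, add_zero]⟩
  | neg y _ hy =>
    simp only [map_neg, mul_neg, ne_eq, neg_eq_zero, neg_mem_iff]
    rw [finsum_neg_distrib, hy.2.1]
    exact ⟨hy.1, rfl, hy.2.2⟩

end SPLa

open SPLa in
theorem p_spl (hRB : S_RB.{u}) (hRE : S_REXT.{u}) : S_SPL.{u} := by
  intro r hMD s hs W _ I _ A hA
  obtain ⟨P⟩ := exists_pre (W := W) hRB hs.ldc A
  choose C h1 h2 using coords hRE P.w P.a (indep hMD hs hA P)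
  have h2' : ∀ β β', β ≠ β' → (C β').c (P.w β) (P.a β) = 0 := fun β β' h => h2 β' β h
  have h3 := fun x d => expand C h1 h2' (P.exp ∅ x d (by simpa using hs.gen d))
  refine ⟨⟨P.B, P.w, P.U, P.a, C, P.a_mem, fun x d => (h3 x d).1, fun x d => (h3 x d).2.1, h1, h2',
    fun S x β d hd h => ?_⟩⟩
  have h4 := (expand C h1 h2' (P.exp S x d hd)).2.2 β
  exact ⟨by_contra fun h' => h (h4.2 h'), h4.1⟩

end Pool.Agent.P.MP_0f25e6_al.VT
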