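import Pool.Agent.P.MP_0f25e6_al.VT.Spec

/-!
Stabilisation of the families `bm`.
-/

set_option autoImplicit false

open MulAction

noncomputable section

namespace Pool.Agent.P.MP_0f25e6_al.VT

universe u

open Sys

namespace PSTAB

/-- A decreasing chain between `Y` and a finite extension of `Y` is eventually constant. -/
theorem chain {L E : Type*} [DivisionRing L] [AddCommGroup E] [Module L E] (Y : Submodule L E)
    (t : Finset E) (Z : ℕ → Submodule L E) (hZ : Antitone Z) (hY : ∀ M, Y ≤ Z M)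
    (h0 : Z 0 ≤ Submodule.span L (t : Set E) ⊔ Y) : ∃ N, ∀ M, Z N ≤ Z M := by
  classical
  let A : Submodule L E := Submodule.span L (t : Set E)
  have hA : Module.Finite L A := Module.Finite.span_of_finite L t.finite_toSet
  have hfin : ∀ M, Module.Finite L (Z M ⊓ A : Submodule L E) := fun M =>
    Submodule.finiteDimensional_inf_right _ _
  let f : ℕ → ℕ := fun M => Module.finrank L (Z M ⊓ A : Submodule L E)
  obtain ⟨N, hN⟩ : ∃ N, ∀ M, f N ≤ f M :=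
    ⟨Function.argmin f, fun M => Function.argmin_le f M⟩
  refine ⟨N, fun M x hx => ?_⟩
  rcases le_total M N with hM | hM
  · exact hZ hM hx
  have he : Z M ⊓ A = Z N ⊓ A :=
    Submodule.eq_of_le_of_finrank_le (inf_le_inf_right _ (hZ hM)) (hN M)
  obtain ⟨a, ha, y, hy, rfl⟩ := Submodule.mem_sup.1 (h0 (hZ (Nat.zero_le N) hx))
  have h1 : a ∈ Z N ⊓ A := ⟨by simpa using (Z N).sub_mem hx (hY N hy), ha⟩
  rw [← he] at h1
  exact add_mem h1.1 (hY M hy)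

variable {s : Sys.{u}} {V W E : Type u} [AddCommGroup V] [Module s.D V] [MulAction s.Γ W]
  [AddCommGroup E] [Module s.D E] (𝓕 : s.Fam V W) (μ : ℕ → E →ₗ[s.D] V)

theorem mem_bm {I : Type u} {J : Set ℕ} {c : I → W} {S : Finset I} {x : E} :
    x ∈ 𝓕.bm μ J c S ↔ ∀ i ∈ J, μ i x ∈ 𝓕.sum c S := by
  simp only [Fam.bm, AddSubgroup.mem_iInf, AddSubgroup.mem_comap, LinearMap.toAddMonoidHom_coe]

theorem bm_mono {I : Type u} (J : Set ℕ) (c : I → W) : Monotone (𝓕.bm μ J c) :=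
  fun _ _ h _ hx => (mem_bm 𝓕 μ).2 fun i hi => 𝓕.sum_mono c h ((mem_bm 𝓕 μ).1 hx i hi)

theorem bm_anti {I : Type u} {J J' : Set ℕ} (h : J ⊆ J') (c : I → W) (S : Finset I) :
    𝓕.bm μ J' c S ≤ 𝓕.bm μ J c S :=
  fun _ hx => (mem_bm 𝓕 μ).2 fun i hi => (mem_bm 𝓕 μ).1 hx i (h hi)

theorem bm_stab {I : Type u} (J : Set ℕ) (c : I → W) (S : Finset I) :
    Stab (s.fld (stabilizer s.Γ c)) (𝓕.bm μ J c S) := fun κ hκ v hv =>
  (mem_bm 𝓕 μ).2 fun i hi => by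
    rw [map_smul]
    exact 𝓕.stab_sum c S κ hκ _ ((mem_bm 𝓕 μ).1 hv i hi)

theorem bm_smul {I : Type u} (J : Set ℕ) (g : s.Γ) (c : I → W) (S : Finset I) {x : E}
    (hx : x ∈ 𝓕.bm μ J c S) : s.ι g • x ∈ 𝓕.bm μ J (g • c) S :=
  (mem_bm 𝓕 μ).2 fun i hi => by
    rw [map_smul]
    exact 𝓕.smul_mem_sum g c S ((mem_bm 𝓕 μ).1 hx i hi)

theorem sum_sub {I : Type u} (c : I → W) (S : Finset I) :
    𝓕.sum (fun i : S => c i) Finset.univ = 𝓕.sum c S := by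
  simp only [Fam.sum, Finset.mem_univ, iSup_pos]
  exact (iSup_subtype' (p := fun i => i ∈ S) (f := fun i _ => 𝓕.F (c i))).symm

theorem bm_sub {I : Type u} (J : Set ℕ) (c : I → W) (S : Finset I) :
    𝓕.bm μ J (fun i : S => c i) Finset.univ = 𝓕.bm μ J c S := by
  simp only [Fam.bm, sum_sub]

theorem act_sub {I : Type u} [Finite I] (c : I → W) (S : Finset I) :
    𝓕.act (fun i : S => c i) ≤ 𝓕.act c :=
  Set.ncard_le_ncard_of_injOn (fun i : S => (i : I)) (fun _ hi => hi)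
    Subtype.val_injective.injOn (Set.toFinite _)

theorem set_nat (M : ℕ) : {i : ℕ | (i : ℕ∞) < (M : ℕ∞)} = Set.Iio M := by
  ext i
  simp

theorem set_top : {i : ℕ | (i : ℕ∞) < ⊤} = Set.univ := by
  ext i
  simp

theorem exists_m0 [Module.Finite s.D E] (h : ∀ ε, (∀ i : ℕ, μ i ε = 0) → ε = 0) :
    ∃ m : ℕ, ∀ ε, (∀ i < m, μ i ε = 0) → ε = 0 := by
  obtain ⟨t, ht⟩ := Module.Finite.fg_top (R := s.D) (M := E)
  obtain ⟨N, hN⟩ := chain (L := s.D) ⊥ t (fun m => ⨅ i ∈ Set.Iio m, LinearMap.ker (μ i))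
    (fun a b hab => biInf_mono fun i hi => lt_of_lt_of_le hi hab) (fun _ => bot_le)
    (by rw [ht]; exact le_sup_of_le_left le_top)
  refine ⟨N, fun ε hε => h ε fun i => ?_⟩
  have h1 : ε ∈ ⨅ i ∈ Set.Iio N, LinearMap.ker (μ i) := by
    simpa only [Submodule.mem_iInf, LinearMap.mem_ker, Set.mem_Iio] using hε
  have h2 := hN (i + 1) h1
  simp only [Submodule.mem_iInf, LinearMap.mem_ker] at h2
  exact h2 i (Nat.lt_succ_self i)

theorem bm_empty {I : Type u} {m : ℕ} (hm : ∀ ε, (∀ i < m, μ i ε = 0) → ε = 0) (c : I → W) :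
    𝓕.bm μ (Set.Iio m) c ∅ = ⊥ :=
  eq_bot_iff.2 fun x hx => hm x fun i hi => by
    simpa [Fam.sum_empty] using (mem_bm 𝓕 μ).1 hx i hi

/-- The sum of the proper parts lies in the smallest family. -/
theorem sup_le {I : Type u} [Fintype I] [DecidableEq I] {m : ℕ} (c : I → W)
    (h : ∀ j, 𝓕.bm μ (Set.Iio m) c (Finset.univ.erase j) ≤
      𝓕.bm μ Set.univ c (Finset.univ.erase j)) :
    ⨆ j, spF (s.fld (stabilizer s.Γ c)) (𝓕.bm μ (Set.Iio m) c) (Finset.univ.erase j) ≤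
      spF (s.fld (stabilizer s.Γ c)) (𝓕.bm μ Set.univ c) Finset.univ :=
  iSup_le fun j => Submodule.span_mono
    ((h j).trans (bm_mono 𝓕 μ Set.univ c (Finset.subset_univ _)))

theorem spF_empty {I : Type u} {m : ℕ} (hm : ∀ ε, (∀ i < m, μ i ε = 0) → ε = 0) (c : I → W) :
    spF (s.fld (stabilizer s.Γ c)) (𝓕.bm μ (Set.Iio m) c) ∅ = ⊥ := by
  rw [spF, bm_empty 𝓕 μ hm]
  simp

theorem of_acyc (h : S_TOP.{u}) {I : Type u} [Fintype I] [DecidableEq I] [Nonempty I] {m : ℕ}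
    (hm : ∀ ε, (∀ i < m, μ i ε = 0) → ε = 0) (c : I → W)
    (h1 : ∀ j, 𝓕.bm μ (Set.Iio m) c (Finset.univ.erase j) ≤
      𝓕.bm μ Set.univ c (Finset.univ.erase j))
    (h2 : Acyc (spF (s.fld (stabilizer s.Γ c)) (𝓕.bm μ (Set.Iio m) c))) :
    𝓕.bm μ (Set.Iio m) c Finset.univ ≤ 𝓕.bm μ Set.univ c Finset.univ := fun _ hx =>
  (mem_spF (bm_stab 𝓕 μ _ c _)).1 (sup_le 𝓕 μ c h1
    ((h _ E I _ (spF_mono _ (bm_mono 𝓕 μ _ c)) (spF_empty 𝓕 μ hm c)).2 h2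
      ((mem_spF (bm_stab 𝓕 μ _ c _)).2 hx)))

theorem of_tame (h : S_TOP.{u}) {I : Type u} [Fintype I] [DecidableEq I] [Nonempty I] {m : ℕ}
    (hm : ∀ ε, (∀ i < m, μ i ε = 0) → ε = 0) (c : I → W)
    (h1 : ∀ j, 𝓕.bm μ (Set.Iio m) c (Finset.univ.erase j) ≤
      𝓕.bm μ Set.univ c (Finset.univ.erase j))
    (h2 : Tame (spF (s.fld (stabilizer s.Γ c)) (𝓕.bm μ (Set.Iio m) c))) :
    ∃ M, 𝓕.bm μ (Set.Iio M) c Finset.univ ≤ 𝓕.bm μ Set.univ c Finset.univ := by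
  obtain ⟨t, -, ht⟩ := (h _ E I _ (spF_mono _ (bm_mono 𝓕 μ _ c)) (spF_empty 𝓕 μ hm c)).1 h2
  obtain ⟨N, hN⟩ := chain _ t
    (fun M => spF (s.fld (stabilizer s.Γ c)) (𝓕.bm μ (Set.Iio (m + M)) c) Finset.univ)
    (fun a b hab => Submodule.span_mono (bm_anti 𝓕 μ (Set.Iio_subset_Iio (by omega)) c _))
    (fun M => (sup_le 𝓕 μ c h1).trans
      (Submodule.span_mono (bm_anti 𝓕 μ (Set.subset_univ _) c _))) ht
  refine ⟨m + N, fun x hx => (mem_bm 𝓕 μ).2 fun i _ => ?_⟩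
  have h3 := (mem_spF (bm_stab 𝓕 μ _ c _)).1 (hN (i + 1) ((mem_spF (bm_stab 𝓕 μ _ c _)).2 hx))
  exact (mem_bm 𝓕 μ).1 h3 i (Set.mem_Iio.2 (by omega))

/-- One bound for finitely many parameters. -/
theorem unif {X : Type*} (t : Finset X) (P : X → ℕ → Prop) (hP : ∀ x a b, a ≤ b → P x a → P x b)
    (h : ∀ x ∈ t, ∃ M, P x M) (m : ℕ) : ∃ M, m ≤ M ∧ ∀ x ∈ t, P x M := by
  classical
  choose! f hf using h
  exact ⟨max m (t.sup f), le_max_left _ _, fun x hx =>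
    hP x _ _ ((Finset.le_sup hx).trans (le_max_right _ _)) (hf x hx)⟩

variable [Module.Finite s.D V] [Module.Finite s.D E]

theorem top_case (h : S_TOP.{u}) {n : ℕ} (hB : ∀ m : ℕ, BM.{u} n m) (hs : s.Good) {m : ℕ}
    (hm : ∀ ε, (∀ i < m, μ i ε = 0) → ε = 0) (k : ℕ) :
    ∀ (I : Type u) [Fintype I], Fintype.card I ≤ k → ∃ M, ∀ c : I → W, 𝓕.act c ≤ n →
      𝓕.bm μ (Set.Iio M) c Finset.univ ≤ 𝓕.bm μ Set.univ c Finset.univ := by
  classical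
  induction k with
  | zero =>
    intro I _ hI
    refine ⟨m, fun c _ => ?_⟩
    rw [Finset.card_eq_zero.1 (Nat.le_zero.1 hI), bm_empty 𝓕 μ hm]
    exact bot_le
  | succ k ih =>
    intro I _ hI
    rcases isEmpty_or_nonempty I with hE | hE
    · exact ih I (by simp)
    obtain ⟨M₁, hM₁, h1⟩ := unif (Finset.univ : Finset I)
      (fun j M => ∀ c : I → W, 𝓕.act c ≤ n → 𝓕.bm μ (Set.Iio M) c (Finset.univ.erase j) ≤
        𝓕.bm μ Set.univ c (Finset.univ.erase j))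
      (fun j a b hab hh c hc => (bm_anti 𝓕 μ (Set.Iio_subset_Iio hab) c _).trans (hh c hc))
      (fun j _ => by
        obtain ⟨M, hM⟩ := ih (Finset.univ.erase j : Finset I) (by
          rw [Fintype.card_coe, Finset.card_erase_of_mem (Finset.mem_univ j), Finset.card_univ]
          omega)
        refine ⟨M, fun c hc => ?_⟩
        have := hM (fun i => c i) ((act_sub 𝓕 c _).trans hc)
        rwa [bm_sub, bm_sub] at this) m
    have hm₁ : ∀ ε, (∀ i < M₁, μ i ε = 0) → ε = 0 := fun ε hε =>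
      hm ε fun i hi => hε i (lt_of_lt_of_le hi hM₁)
    obtain ⟨hT, t, ht⟩ := hB M₁ s hs V W E 𝓕 μ
      (fun ε hε => hm₁ ε fun i hi => hε i (by exact_mod_cast hi)) I
    rw [set_nat] at hT ht
    obtain ⟨M₂, hM₂, h2⟩ := unif t
      (fun c M => 𝓕.act c ≤ n →
        𝓕.bm μ (Set.Iio M) c Finset.univ ≤ 𝓕.bm μ Set.univ c Finset.univ)
      (fun c a b hab hh hc => (bm_anti 𝓕 μ (Set.Iio_subset_Iio hab) c _).trans (hh hc))
      (fun c _ => by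
        by_cases hc : 𝓕.act c ≤ n
        · obtain ⟨M, hM⟩ := of_tame 𝓕 μ h hm₁ c (fun j => h1 j (Finset.mem_univ j) c hc) (hT c hc)
          exact ⟨M, fun _ => hM⟩
        · exact ⟨0, fun hc' => absurd hc' hc⟩) M₁
    refine ⟨M₂, fun c hc => ?_⟩
    by_cases ha : Acyc (spF (s.fld (stabilizer s.Γ c)) (𝓕.bm μ (Set.Iio M₁) c))
    · exact (bm_anti 𝓕 μ (Set.Iio_subset_Iio hM₂) c _).trans
        (of_acyc 𝓕 μ h hm₁ c (fun j => h1 j (Finset.mem_univ j) c hc) ha)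
    obtain ⟨g, hg⟩ := ht c ⟨hc, ha⟩
    intro x hx
    have h3 := bm_smul 𝓕 μ _ g⁻¹ _ _
      (h2 _ hg (by rwa [𝓕.act_smul]) (bm_smul 𝓕 μ _ g c _ hx))
    rwa [ι_inv_smul, inv_smul_smul] at h3

theorem all_case (h : S_TOP.{u}) {n : ℕ} (hB : ∀ m : ℕ, BM.{u} n m) (hs : s.Good) {m : ℕ}
    (hm : ∀ ε, (∀ i < m, μ i ε = 0) → ε = 0) (I : Type u) [Fintype I] :
    ∃ M, m ≤ M ∧ ∀ c : I → W, 𝓕.act c ≤ n → 𝓕.bm μ Set.univ c = 𝓕.bm μ (Set.Iio M) c := by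
  classical
  obtain ⟨M, hM, h1⟩ := unif (Finset.univ : Finset (Finset I))
    (fun S M => ∀ c : I → W, 𝓕.act c ≤ n → 𝓕.bm μ (Set.Iio M) c S ≤ 𝓕.bm μ Set.univ c S)
    (fun S a b hab hh c hc => (bm_anti 𝓕 μ (Set.Iio_subset_Iio hab) c _).trans (hh c hc))
    (fun S _ => by
      obtain ⟨M, hM⟩ := top_case 𝓕 μ h hB hs hm _ S le_rfl
      refine ⟨M, fun c hc => ?_⟩
      have := hM (fun i => c i) ((act_sub 𝓕 c _).trans hc)
      rwa [bm_sub, bm_sub] at this) m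
  exact ⟨M, hM, fun c hc => funext fun S =>
    le_antisymm (bm_anti 𝓕 μ (Set.subset_univ _) c S) (h1 S (Finset.mem_univ S) c hc)⟩

end PSTAB

theorem p_stab (h : S_TOP.{u}) : S_STAB.{u} := by
  intro n hB s hs V W E _ _ _ _ _ _ _ 𝓕 μ hμ I _ _ _
  obtain ⟨m, hm⟩ := PSTAB.exists_m0 μ fun ε hε => hμ ε fun i _ => hε i
  obtain ⟨M, hM, h1⟩ := PSTAB.all_case 𝓕 μ h hB hs hm I
  obtain ⟨hT, t, ht⟩ := hB M s hs V W E 𝓕 μ
    (fun ε hε => hm ε fun i hi => hε i (by exact_mod_cast lt_of_lt_of_le hi hM)) I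
  rw [PSTAB.set_nat] at hT ht
  rw [PSTAB.set_top]
  refine ⟨fun c hc => ?_, t, fun c hc => ht c ⟨hc.1, ?_⟩⟩
  · rw [h1 c hc]
    exact hT c hc
  · rw [← h1 c hc.1]
    exact hc.2

end Pool.Agent.P.MP_0f25e6_al.VT
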