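import Pool.Agent.P.MP_0f25e6_al.VT.Spec

/-!
The dimension is the signed sum of the local Euler characteristics.
-/

set_option autoImplicit false

open MulAction

noncomputable section

namespace Pool.Agent.P.MP_0f25e6_al.VT

universe u

open Sys

namespace PSUM

theorem osz_single {Γ X : Type u} [Group Γ] [MulAction Γ X] (x₀ : X)
    (hx : ∀ g : Γ, g • x₀ = x₀) (f : X → ℤ) (hf : ∀ x, x ≠ x₀ → f x = 0) : osz Γ f = f x₀ := by
  have h0 : (Quotient.mk (orbitRel Γ X) x₀).out = x₀ := by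
    obtain ⟨g, hg⟩ := orbitRel_apply.1 (Quotient.mk_out (s := orbitRel Γ X) x₀)
    exact hg.symm.trans (hx g)
  unfold osz
  rw [finsum_eq_single _ (Quotient.mk (orbitRel Γ X) x₀)]
  · exact congrArg f h0
  · intro q hq
    refine hf _ fun h => hq ?_
    rw [← h]
    exact (Quotient.out_eq q).symm

theorem osz_split (hOS : S_OS.{u}) {Γ Y Y₁ Y₂ : Type u} [Group Γ] [MulAction Γ Y]
    [MulAction Γ Y₁] [MulAction Γ Y₂] (i₁ : Y₁ → Y) (i₂ : Y₂ → Y)
    (e₁ : ∀ (g : Γ) y, i₁ (g • y) = g • i₁ y) (e₂ : ∀ (g : Γ) y, i₂ (g • y) = g • i₂ y)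
    (j₁ : Function.Injective i₁) (j₂ : Function.Injective i₂) (hd : ∀ a b, i₁ a ≠ i₂ b)
    (hc : ∀ y, (∃ a, i₁ a = y) ∨ ∃ b, i₂ b = y) (h : Y → ℤ) (hi : ∀ (g : Γ) y, h (g • y) = h y)
    (hf : CofOrb Γ fun y => h y ≠ 0) :
    osz Γ h = osz Γ (fun a => h (i₁ a)) + osz Γ fun b => h (i₂ b) := by
  classical
  have r₁ : ∀ (g : Γ) y, (∃ a, i₁ a = g • y) ↔ ∃ a, i₁ a = y := fun g y =>
    ⟨fun ⟨a, ha⟩ => ⟨g⁻¹ • a, by rw [e₁, ha, inv_smul_smul]⟩,
      fun ⟨a, ha⟩ => ⟨g • a, by rw [e₁, ha]⟩⟩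
  let h₁ : Y → ℤ := fun y => if ∃ a, i₁ a = y then h y else 0
  let h₂ : Y → ℤ := fun y => if ∃ a, i₁ a = y then 0 else h y
  have hs : h = h₁ + h₂ := by
    funext y
    simp only [h₁, h₂, Pi.add_apply]
    split_ifs <;> simp
  have i1 : ∀ (g : Γ) y, h₁ (g • y) = h₁ y := fun g y => by simp only [h₁, r₁, hi]
  have i2 : ∀ (g : Γ) y, h₂ (g • y) = h₂ y := fun g y => by simp only [h₂, r₁, hi]
  have n1 : ∀ y, h₁ y ≠ 0 → h y ≠ 0 ∧ ∃ a, i₁ a = y := fun y hy => by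
    by_cases hh : ∃ a, i₁ a = y
    · exact ⟨by simpa only [h₁, if_pos hh] using hy, hh⟩
    · exact absurd (if_neg hh) hy
  have n2 : ∀ y, h₂ y ≠ 0 → h y ≠ 0 ∧ ∃ b, i₂ b = y := fun y hy => by
    by_cases hh : ∃ a, i₁ a = y
    · exact absurd (if_pos hh) hy
    · exact ⟨by simpa only [h₂, if_neg hh] using hy, (hc y).resolve_left hh⟩
  obtain ⟨t, ht⟩ := hf
  have a1 : osz Γ h₁ = osz Γ fun a => h (i₁ a) :=
    hOS.2.1 Γ Y Y₁ i₁ h₁ _ e₁ i1 (fun g a => by rw [e₁, hi]) (fun a _ => if_pos ⟨a, rfl⟩)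
      j₁.injOn fun y hy => by
        obtain ⟨h1, a, rfl⟩ := n1 y hy
        exact ⟨a, h1, rfl⟩
  have a2 : osz Γ h₂ = osz Γ fun b => h (i₂ b) :=
    hOS.2.1 Γ Y Y₂ i₂ h₂ _ e₂ i2 (fun g a => by rw [e₂, hi])
      (fun b _ => if_neg fun ⟨a, ha⟩ => hd a b ha) j₂.injOn fun y hy => by
        obtain ⟨h1, a, rfl⟩ := n2 y hy
        exact ⟨a, h1, rfl⟩
  rw [← a1, ← a2, ← hOS.2.2.1 Γ Y h₁ h₂ i1 i2 ⟨t, fun y hy => ht y (n1 y hy).1⟩
    ⟨t, fun y hy => ht y (n2 y hy).1⟩, ← hs]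

section Main

variable {s : Sys.{u}} {V W I : Type u} [AddCommGroup V] [Module s.D V] [MulAction s.Γ W]
  {𝓕 : s.Fam V W} (𝒞 : Cells 𝓕 I)

theorem lab_smul' (g : s.Γ) {w : W} {i : I} {b : Bool} (h : 𝒞.lab w = some (i, b)) :
    𝒞.lab (g • w) = some (i, b) := by
  cases b
  · obtain ⟨v, rfl⟩ := (𝒞.lab_iv i w).1 h
    exact (𝒞.lab_iv i _).2 ⟨g • v, 𝒞.iv_smul i g v⟩
  · obtain ⟨v, rfl⟩ := (𝒞.lab_ie i w).1 h
    exact (𝒞.lab_ie i _).2 ⟨g • v, 𝒞.ie_smul i g v⟩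

theorem lab_smul (g : s.Γ) (w : W) (i : I) (b : Bool) :
    𝒞.lab (g • w) = some (i, b) ↔ 𝒞.lab w = some (i, b) :=
  ⟨fun h => by simpa only [inv_smul_smul] using lab_smul' 𝒞 g⁻¹ h, lab_smul' 𝒞 g⟩

/-- `c` chooses cells on `T` and is the base point elsewhere. -/
def Ok (T : Finset I) (c : I → W) : Prop :=
  (∀ i ∈ T, ∃ b, 𝒞.lab (c i) = some (i, b)) ∧ ∀ i, i ∉ T → c i = 𝓕.star

/-- The sign of a partial cell. -/
def sg (c : I → W) : ℤ := (-1) ^ {i | 𝒞.lab (c i) = some (i, true)}.ncard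

theorem ok_smul (T : Finset I) (g : s.Γ) (c : I → W) : Ok 𝒞 T (g • c) ↔ Ok 𝒞 T c := by
  simp only [Ok, Pi.smul_apply, lab_smul, smul_eq_iff_eq_inv_smul, 𝓕.star_fix]

theorem sg_smul (g : s.Γ) (c : I → W) : sg 𝒞 (g • c) = sg 𝒞 c := by
  simp only [sg, Pi.smul_apply, lab_smul]

/-- The cells of the tree number `k` as points of `W`. -/
def cel (k : I) : 𝒞.Vt k ⊕ 𝒞.Ed k → W := Sum.elim (𝒞.iv k) (𝒞.ie k)

/-- The sign of a cell. -/
def eps (k : I) : 𝒞.Vt k ⊕ 𝒞.Ed k → ℤ := Sum.elim (fun _ => 1) fun _ => -1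

theorem cel_smul (k : I) (g : s.Γ) (y : 𝒞.Vt k ⊕ 𝒞.Ed k) :
    cel 𝒞 k (g • y) = g • cel 𝒞 k y := by
  rcases y with v | e
  · exact 𝒞.iv_smul k g v
  · exact 𝒞.ie_smul k g e

theorem eps_smul (k : I) (g : s.Γ) (y : 𝒞.Vt k ⊕ 𝒞.Ed k) : eps 𝒞 k (g • y) = eps 𝒞 k y := by
  rcases y with v | e <;> rfl

theorem lab_v (k : I) (v : 𝒞.Vt k) : 𝒞.lab (𝒞.iv k v) = some (k, false) :=
  (𝒞.lab_iv k _).2 ⟨v, rfl⟩

theorem lab_e (k : I) (e : 𝒞.Ed k) : 𝒞.lab (𝒞.ie k e) = some (k, true) :=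
  (𝒞.lab_ie k _).2 ⟨e, rfl⟩

theorem cel_inj (k : I) : Function.Injective (cel 𝒞 k) := by
  rintro (v | e) (v' | e') h
  · exact congrArg Sum.inl (𝒞.iv_inj k h)
  · have h1 := lab_v 𝒞 k v
    rw [show 𝒞.iv k v = 𝒞.ie k e' from h, lab_e] at h1
    simp at h1
  · have h1 := lab_e 𝒞 k e
    rw [show 𝒞.ie k e = 𝒞.iv k v' from h, lab_v] at h1
    simp at h1
  · exact congrArg Sum.inr (𝒞.ie_inj k h)

theorem lab_cel (k : I) (y : 𝒞.Vt k ⊕ 𝒞.Ed k) : ∃ b, 𝒞.lab (cel 𝒞 k y) = some (k, b) := by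
  rcases y with v | e
  · exact ⟨_, lab_v 𝒞 k v⟩
  · exact ⟨_, lab_e 𝒞 k e⟩

theorem exists_cel {k : I} {w : W} {b : Bool} (h : 𝒞.lab w = some (k, b)) :
    ∃ y, cel 𝒞 k y = w := by
  cases b
  · obtain ⟨v, hv⟩ := (𝒞.lab_iv k w).1 h
    exact ⟨Sum.inl v, hv⟩
  · obtain ⟨v, hv⟩ := (𝒞.lab_ie k w).1 h
    exact ⟨Sum.inr v, hv⟩

variable [DecidableEq I]

theorem ok_update {T : Finset I} {k : I} {c : I → W} (h : Ok 𝒞 T c)
    (y : 𝒞.Vt k ⊕ 𝒞.Ed k) : Ok 𝒞 (insert k T) (Function.update c k (cel 𝒞 k y)) := by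
  refine ⟨fun i hi => ?_, fun i hi => ?_⟩
  · by_cases hik : i = k
    · subst hik
      rw [Function.update_self]
      exact lab_cel 𝒞 i y
    · rw [Function.update_of_ne hik]
      exact h.1 i ((Finset.mem_insert.1 hi).resolve_left hik)
  · rw [Finset.mem_insert, not_or] at hi
    rw [Function.update_of_ne hi.1]
    exact h.2 i hi.2

theorem ok_erase {T : Finset I} {k : I} (hk : k ∉ T) {c : I → W} (h : Ok 𝒞 (insert k T) c) :
    Ok 𝒞 T (Function.update c k 𝓕.star) := by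
  refine ⟨fun i hi => ?_, fun i hi => ?_⟩
  · rw [Function.update_of_ne (ne_of_mem_of_not_mem hi hk)]
    exact h.1 i (Finset.mem_insert_of_mem hi)
  · by_cases hik : i = k
    · subst hik
      exact Function.update_self ..
    · rw [Function.update_of_ne hik]
      exact h.2 i fun hi' => hi ((Finset.mem_insert.1 hi').resolve_left hik)

theorem sg_update [Finite I] {k : I} {c : I → W} (hc : c k = 𝓕.star)
    (y : 𝒞.Vt k ⊕ 𝒞.Ed k) :
    sg 𝒞 (Function.update c k (cel 𝒞 k y)) = sg 𝒞 c * eps 𝒞 k y := by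
  have hk : k ∉ {i | 𝒞.lab (c i) = some (i, true)} := by
    simp [hc, 𝒞.lab_star]
  rcases y with v | e
  · have : {i | 𝒞.lab (Function.update c k (cel 𝒞 k (Sum.inl v)) i) = some (i, true)} =
        {i | 𝒞.lab (c i) = some (i, true)} := by
      ext i
      by_cases hik : i = k
      · subst hik
        refine iff_of_false ?_ hk
        rw [Set.mem_ofPred_eq, Function.update_self]
        change ¬𝒞.lab (𝒞.iv i v) = _
        rw [lab_v]
        simp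
      · simp only [Set.mem_ofPred_eq, Function.update_of_ne hik]
    rw [sg, this]
    exact (mul_one _).symm
  · have : {i | 𝒞.lab (Function.update c k (cel 𝒞 k (Sum.inr e)) i) = some (i, true)} =
        insert k {i | 𝒞.lab (c i) = some (i, true)} := by
      ext i
      by_cases hik : i = k
      · subst hik
        refine iff_of_true ?_ (Set.mem_insert _ _)
        rw [Set.mem_ofPred_eq, Function.update_self]
        exact lab_e 𝒞 i e
      · simp only [Set.mem_ofPred_eq, Function.update_of_ne hik, Set.mem_insert_iff, hik, false_or]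
    rw [sg, this, Set.ncard_insert_of_notMem hk (Set.toFinite _), pow_succ]
    rfl

theorem update_smul' (g : s.Γ) (c : I → W) (k : I) (w : W) :
    Function.update (g • c) k (g • w) = g • Function.update c k w := by
  funext i
  by_cases hik : i = k
  · subst hik
    simp
  · simp [Function.update_of_ne hik]

open Classical in
/-- The weight of a partial cell. -/
def wtT (X : (I → W) → ℤ) (T : Finset I) (c : I → W) : ℤ :=
  if Ok 𝒞 T c then sg 𝒞 c * X c else 0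

theorem step [Finite I] (hOS : S_OS.{u}) (X : (I → W) → ℤ)
    (hX : ∀ (g : s.Γ) c, X (g • c) = X c) (hf : CofOrb s.Γ fun c => X c ≠ 0) (k : I)
    (hE : ∀ c : I → W, c k = 𝓕.star → X c =
      (osz (stabilizer s.Γ c) fun v => X (Function.update c k (𝒞.iv k v))) -
        osz (stabilizer s.Γ c) fun e => X (Function.update c k (𝒞.ie k e)))
    (T : Finset I) (hk : k ∉ T) :
    osz s.Γ (wtT 𝒞 X (insert k T)) = osz s.Γ (wtT 𝒞 X T) := by
  classical
  let j : (I → W) × (𝒞.Vt k ⊕ 𝒞.Ed k) → I → W := fun p => Function.update p.1 k (cel 𝒞 k p.2)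
  let f : (I → W) × (𝒞.Vt k ⊕ 𝒞.Ed k) → ℤ := fun p =>
    if Ok 𝒞 T p.1 then sg 𝒞 p.1 * (eps 𝒞 k p.2 * X (j p)) else 0
  have jg : ∀ (g : s.Γ) p, j (g • p) = g • j p := fun g p => by
    change Function.update (g • p.1) k (cel 𝒞 k (g • p.2)) = _
    rw [cel_smul, update_smul']
  have fg : ∀ (g : s.Γ) p, f (g • p) = f p := fun g p => by
    simp only [f, jg, hX, Prod.smul_fst, Prod.smul_snd, ok_smul, sg_smul, eps_smul]
  have fo : ∀ p, f p ≠ 0 → Ok 𝒞 T p.1 := fun p hp => by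
    by_contra h
    exact hp (if_neg h)
  have fj : ∀ p, Ok 𝒞 T p.1 → wtT 𝒞 X (insert k T) (j p) = f p := fun p hp => by
    have h1 : wtT 𝒞 X (insert k T) (j p) = sg 𝒞 (j p) * X (j p) := if_pos (ok_update 𝒞 hp p.2)
    have h2 : f p = sg 𝒞 p.1 * (eps 𝒞 k p.2 * X (j p)) := if_pos hp
    rw [h1, h2, ← mul_assoc, ← sg_update 𝒞 (hp.2 k hk)]
  have ji : Set.InjOn j {p | Ok 𝒞 T p.1} := by
    rintro ⟨c, y⟩ hp ⟨c', y'⟩ hp' h
    have h1 : y = y' := cel_inj 𝒞 k (by simpa [j] using congrFun h k)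
    refine Prod.ext (funext fun i => ?_) h1
    by_cases hik : i = k
    · subst hik
      exact (hp.2 i hk).trans (hp'.2 i hk).symm
    · simpa [j, Function.update_of_ne hik] using congrFun h i
  have fc : CofOrb s.Γ fun p => f p ≠ 0 := by
    obtain ⟨t, ht⟩ := hf
    have hfin : {p | Ok 𝒞 T p.1 ∧ j p ∈ t}.Finite :=
      Set.Finite.of_finite_image (f := j)
        (t.finite_toSet.subset (by rintro _ ⟨p, hp, rfl⟩; exact hp.2))
        (ji.mono fun p hp => hp.1)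
    refine ⟨hfin.toFinset, fun p hp => ?_⟩
    have h1 := fo p hp
    have h2 : X (j p) ≠ 0 := fun h => hp (by simp only [f, if_pos h1, h, mul_zero])
    obtain ⟨g, hg⟩ := ht _ h2
    refine ⟨g, hfin.mem_toFinset.2 ⟨(ok_smul 𝒞 T g p.1).2 h1, ?_⟩⟩
    rwa [jg]
  have a1 : osz s.Γ (wtT 𝒞 X (insert k T)) = osz s.Γ f := by
    refine hOS.2.1 s.Γ _ _ j _ f jg (fun g c => by simp only [wtT, ok_smul, sg_smul, hX]) fg
      (fun p hp => fj p (fo p hp)) (ji.mono fun p hp => fo p hp) fun c hc => ?_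
    have h1 : Ok 𝒞 (insert k T) c := by
      by_contra h
      exact hc (if_neg h)
    obtain ⟨b, hb⟩ := h1.1 k (Finset.mem_insert_self k T)
    obtain ⟨y, hy⟩ := exists_cel 𝒞 hb
    have h2 : j (Function.update c k 𝓕.star, y) = c := by
      simp only [j, hy, Function.update_idem, Function.update_eq_self]
    refine ⟨(Function.update c k 𝓕.star, y), ?_, h2⟩
    rwa [← fj _ (ok_erase 𝒞 hk h1), h2]
  rw [a1, hOS.1 s.Γ _ _ f fg fc]
  refine congrArg (osz s.Γ) (funext fun c => ?_)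
  have hc := hOS.2.2.2.2 s.Γ _ _ (fun p => f p ≠ 0) c (fun g p hp => by rwa [fg]) fc
  rw [osz_split hOS (Γ := stabilizer s.Γ c) (Sum.inl : 𝒞.Vt k → _) (Sum.inr : 𝒞.Ed k → _)
    (fun _ _ => rfl) (fun _ _ => rfl) Sum.inl_injective Sum.inr_injective
    (fun _ _ => Sum.inl_ne_inr) (by rintro (a | b); exacts [Or.inl ⟨a, rfl⟩, Or.inr ⟨b, rfl⟩]) _
    (fun g y => by
      have h1 := fg g.1 (c, y)
      rw [Prod.smul_mk, show g.1 • c = c from g.2] at h1
      exact h1) hc]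
  by_cases h : Ok 𝒞 T c
  · have e1 : (fun v => f (c, Sum.inl v)) =
        fun v => sg 𝒞 c * X (Function.update c k (𝒞.iv k v)) := funext fun v => by
      simp only [f, if_pos h]
      change _ * (1 * X (Function.update c k (𝒞.iv k v))) = _
      rw [one_mul]
    have e2 : (fun e => f (c, Sum.inr e)) =
        fun e => (-sg 𝒞 c) * X (Function.update c k (𝒞.ie k e)) := funext fun e => by
      simp only [f, if_pos h]
      change _ * (-1 * X (Function.update c k (𝒞.ie k e))) = _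
      ring
    rw [e1, e2, hOS.2.2.2.1, hOS.2.2.2.1, wtT, if_pos h, hE c (h.2 k hk)]
    ring
  · simp only [f, if_neg h, wtT, osz, finsum_zero, add_zero]

theorem base (X : (I → W) → ℤ) : osz s.Γ (wtT 𝒞 X ∅) = X fun _ => 𝓕.star := by
  rw [osz_single (Γ := s.Γ) (fun _ : I => 𝓕.star) (fun g => funext fun _ => 𝓕.star_fix g)
    (wtT 𝒞 X ∅) fun c hc => if_neg fun h => hc (funext fun i => h.2 i (Finset.notMem_empty i))]
  have h : Ok 𝒞 ∅ fun _ : I => 𝓕.star := ⟨fun i hi => absurd hi (Finset.notMem_empty i),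
    fun _ _ => rfl⟩
  rw [wtT, if_pos h]
  simp [sg, 𝒞.lab_star]

end Main

end PSUM

open PSUM in
theorem p_sum (hOS : S_OS.{u}) (hQC : S_QC.{u}) (hINV : S_INV.{u}) : S_SUM.{u} := by
  intro hF hE s hs V W I _ _ _ _ _ _ _ 𝓕 𝒞
  have hf : CofOrb s.Γ fun c : I → W => chi (𝓕.Bc c) ≠ 0 := by
    obtain ⟨t, ht⟩ := (hF (Nat.card I) s hs V W 𝓕 I).2
    exact ⟨t, fun c hc => ht c ⟨Set.ncard_le_card _, fun h => hc h.chi⟩⟩
  have key : ∀ T : Finset I,
      osz s.Γ (wtT 𝒞 (fun c => chi (𝓕.Bc c)) T) = Module.finrank s.D V := by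
    intro T
    induction T using Finset.induction_on with
    | empty => rw [base]; exact ((hQC s V W I 𝓕).2 inferInstance hs.gen).2
    | insert k T hk ih =>
      rw [step 𝒞 hOS _ (fun g c => ((hINV s V W I 𝓕 g).1 c).2.2) hf k
        (fun c hc => hE s hs V W I 𝓕 𝒞 k c hc) T hk, ih]
  rw [← key Finset.univ]
  refine congrArg (osz s.Γ) (funext fun c => ?_)
  have h : Ok 𝒞 Finset.univ c ↔ 𝒞.IsSec c :=
    ⟨fun h i => h.1 i (Finset.mem_univ i),
      fun h => ⟨fun i _ => h i, fun i hi => absurd (Finset.mem_univ i) hi⟩⟩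
  by_cases hc : 𝒞.IsSec c
  · rw [wtT, if_pos (h.2 hc), Cells.wt, if_pos hc, sg]
  · rw [wtT, if_neg (mt h.1 hc), Cells.wt, if_neg hc]

end Pool.Agent.P.MP_0f25e6_al.VT
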