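import Pool.Agent.P.MP_0f25e6_al.VT.Spec

/-!
The symmetry under the overgroup gives divisibility of the signed sum by the index.
-/

set_option autoImplicit false

open MulAction

noncomputable section

namespace Pool.Agent.P.MP_0f25e6_al.VT

universe u

open Sys

namespace PSYM

/-- The map induced on a quotient by an additive map. -/
def qm {L M : Type*} [Ring L] [AddCommGroup M] [Module L M] (N : Submodule L M) (f : M →+ M)
    (h : ∀ x ∈ N, f x ∈ N) : (M ⧸ N) →+ (M ⧸ N) :=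
  QuotientAddGroup.map N.toAddSubgroup N.toAddSubgroup f h

theorem qm_mk {L M : Type*} [Ring L] [AddCommGroup M] [Module L M] (N : Submodule L M)
    (f : M →+ M) (h : ∀ x ∈ N, f x ∈ N) (x : M) :
    qm N f h (Submodule.Quotient.mk x) = Submodule.Quotient.mk (f x) := rfl

section Act

variable {G I W V : Type u} [Group G] [MulAction G I]

/-- The action on sections. -/
def tw [MulAction G W] (g : G) (c : I → W) : I → W := fun i => g • c (g⁻¹ • i)

theorem tw_one [MulAction G W] (c : I → W) : tw (1 : G) c = c := funext fun i => by simp [tw]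

theorem tw_mul [MulAction G W] (g g' : G) (c : I → W) : tw (g * g') c = tw g (tw g' c) :=
  funext fun i => by simp [tw, mul_smul]

theorem tw_inv [MulAction G W] (g : G) (c : I → W) : tw g⁻¹ (tw g c) = c := by
  rw [← tw_mul, inv_mul_cancel, tw_one]

variable (G I W) in
/-- The same as a group action. -/
@[reducible] def act [MulAction G W] : MulAction G (I → W) where
  smul := tw
  one_smul := tw_one
  mul_smul := tw_mul

theorem stab_act [MulAction G W] (c : I → W) :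
    @stabilizer G (I → W) _ (act G I W) c = secStab G c := by
  ext g
  refine ⟨fun h i => ?_, fun h => funext fun i => ?_⟩
  · have := congrFun (show tw g c = c from h) (g • i)
    rwa [tw, inv_smul_smul] at this
  · exact (h (g⁻¹ • i)).trans (by rw [smul_inv_smul])

variable [AddCommGroup V] [DistribMulAction G V]

/-- The action on cochains. -/
def rho (g : G) (n : ℕ) : Co I V n →+ Co I V n where
  toFun φ τ := g • φ fun a => g⁻¹ • τ a
  map_zero' := funext fun _ => smul_zero g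
  map_add' _ _ := funext fun _ => smul_add g _ _

theorem rho_one (n : ℕ) (φ : Co I V n) : rho (1 : G) n φ = φ :=
  funext fun τ => by simp [rho]

theorem rho_mul (g g' : G) (n : ℕ) (φ : Co I V n) : rho (g * g') n φ = rho g n (rho g' n φ) :=
  funext fun τ => by simp [rho, mul_smul]

theorem dd_rho (L : Type u) [DivisionRing L] [Module L V] (g : G) (n : ℕ) (φ : Co I V n) :
    dd L n (rho g n φ) = rho g (n + 1) (dd L n φ) := by
  funext τ
  change _ = g • dd L n φ fun a => g⁻¹ • τ a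
  rw [dd_apply, dd_apply, Finset.smul_sum]
  exact Finset.sum_congr rfl fun l _ => (map_zsmul (DistribSMul.toAddMonoidHom V g) _ _).symm

variable {L : Type u} [DivisionRing L] [Module L V] [DecidableEq I]
  {B : Finset I → Submodule L V} {g : G}

theorem rho_Cn (h : ∀ S S' : Finset I, (∀ i ∈ S, g • i ∈ S') → ∀ v ∈ B S, g • v ∈ B S') {n : ℕ}
    {φ : Co I V n} (hφ : φ ∈ Cn B n) : rho g n φ ∈ Cn B n := fun τ => by
  refine h _ _ (fun i hi => ?_) _ (hφ fun a => g⁻¹ • τ a)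
  obtain ⟨a, -, rfl⟩ := Finset.mem_image.1 hi
  rw [smul_inv_smul]
  exact Finset.mem_image_of_mem τ (Finset.mem_univ a)

theorem rho_Bn (h : ∀ S S' : Finset I, (∀ i ∈ S, g • i ∈ S') → ∀ v ∈ B S, g • v ∈ B S') {n : ℕ}
    {φ : Co I V n} (hφ : φ ∈ Bn B n) : rho g n φ ∈ Bn B n := by
  cases n with
  | zero => rw [mem_Bn_zero.1 hφ, map_zero]; exact zero_mem _
  | succ n =>
    obtain ⟨ψ, hψ, rfl⟩ := hφ
    exact ⟨rho g n ψ, rho_Cn h hψ, dd_rho L g n ψ⟩

/-- The action on cocycles. -/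
def rhoZ (h : ∀ S S' : Finset I, (∀ i ∈ S, g • i ∈ S') → ∀ v ∈ B S, g • v ∈ B S') (n : ℕ) :
    Zn B n →+ Zn B n where
  toFun z := ⟨rho g n z.1, mem_Zn.2 ⟨rho_Cn h z.2.1, by
    rw [dd_rho, (mem_Zn.1 z.2).2, map_zero]⟩⟩
  map_zero' := Subtype.ext (map_zero _)
  map_add' _ _ := Subtype.ext (map_add _ _ _)

/-- The action on cohomology. -/
def sig (K : Subgroup G)
    (h : ∀ b : K, ∀ S S' : Finset I, (∀ i ∈ S, (b : G) • i ∈ S') → ∀ v ∈ B S, (b : G) • v ∈ B S')
    (n : ℕ) : K →* AddMonoid.End (Hn B n) where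
  toFun b := qm _ (rhoZ (h b) n) fun _ hx => rho_Bn (h b) hx
  map_one' := AddMonoidHom.ext fun x => by
    obtain ⟨z, rfl⟩ := Submodule.Quotient.mk_surjective _ x
    exact congrArg Submodule.Quotient.mk (Subtype.ext (rho_one n z.1))
  map_mul' b b' := AddMonoidHom.ext fun x => by
    obtain ⟨z, rfl⟩ := Submodule.Quotient.mk_surjective _ x
    exact congrArg Submodule.Quotient.mk (Subtype.ext (rho_mul (b : G) b' n z.1))

end Act

variable {s : Sys.{u}} {V W I G : Type u} [AddCommGroup V] [Module s.D V] [Group G]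
  [DistribMulAction G V] [MulAction G I] {inc : s.Γ →* G} {𝒢 : s.GS G inc}

theorem div_hd [DecidableEq I] (hS : 𝒢.Semi V) (hI : ∀ (h : s.Γ) (i : I), inc h • i = i)
    {K : Subgroup G} (hD : 𝒢.DIV K) {A : Subgroup s.Γ} (hA : A = K.comap inc)
    {P : Finset I → AddSubgroup V} (hP : ∀ S, Stab (s.fld A) (P S))
    (h : ∀ b ∈ K, ∀ S S' : Finset I, (∀ i ∈ S, b • i ∈ S') → ∀ v ∈ P S, b • v ∈ P S') (n : ℕ)
    (hf : Module.Finite (s.fld A) (Hn (spF (s.fld A) P) n)) :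
    inc.range.relIndex K ∣ hd (spF (s.fld A) P) n := by
  subst hA
  refine hD _ (sig K (fun b S S' e v hv => (mem_spF (hP _)).2
    (h b b.2 S S' e v ((mem_spF (hP _)).1 hv))) n) (fun b l l' x e => ?_) fun b a l x e e' => ?_
  · obtain ⟨z, rfl⟩ := Submodule.Quotient.mk_surjective _ x
    refine congrArg Submodule.Quotient.mk (Subtype.ext (funext fun τ => ?_))
    exact (hS.smul b l _).trans (congrArg (· • _) e.symm)
  · obtain ⟨z, rfl⟩ := Submodule.Quotient.mk_surjective _ x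
    refine congrArg Submodule.Quotient.mk (Subtype.ext (funext fun τ => ?_))
    change (b : G) • z.1 (fun i => (b : G)⁻¹ • τ i) = (l : s.D) • z.1 τ
    rw [← e, e', hS.inc, ← map_inv]
    simp only [hI]

theorem alpha_mem {A A' : Subgroup s.Γ} {g : G}
    (h : ∀ a ∈ A, ∃ a' ∈ A', inc a' = g * inc a * g⁻¹) {d : s.D} (hd : d ∈ s.fld A) :
    𝒢.α g d ∈ s.fld A' :=
  fld_le (L := (s.fld A').comap (𝒢.α g : s.D →+* s.D)) (fun c => by
    change 𝒢.α g _ ∈ s.fld A'
    rw [𝒢.α_alg]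
    exact alg_mem _ c) (fun a ha => by
    obtain ⟨a', h1, h2⟩ := h a ha
    change 𝒢.α g _ ∈ s.fld A'
    rw [𝒢.α_ι g a a' h2]
    exact ι_mem h1) hd

variable [MulAction s.Γ W] [MulAction G W] {𝓕 : s.Fam V W} {𝒞 : Cells 𝓕 I}

theorem alpha_stab (hN : inc.range.Normal) (hE : Equi inc 𝒞) (g : G) (c : I → W) {d : s.D}
    (hd : d ∈ s.fld (stabilizer s.Γ c)) : 𝒢.α g d ∈ s.fld (stabilizer s.Γ (tw g c)) :=
  alpha_mem (fun a ha => by
    obtain ⟨a', e⟩ := hN.conj_mem _ ⟨a, rfl⟩ g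
    refine ⟨a', funext fun i => ?_, e⟩
    change a' • g • c (g⁻¹ • i) = g • c (g⁻¹ • i)
    rw [← hE.incW, e, mul_smul, inv_smul_smul, mul_smul, hE.incW]
    exact congrArg _ (congrFun ha _)) hd

theorem smul_sum (hE : Equi inc 𝒞) {g : G} {c c' : I → W} {S S' : Finset I}
    (h : ∀ i ∈ S, ∃ i' ∈ S', g • c i = c' i') {v : V} (hv : v ∈ 𝓕.sum c S) :
    g • v ∈ 𝓕.sum c' S' :=
  (iSup₂_le (a := (𝓕.sum c' S').comap (DistribSMul.toAddMonoidHom V g)) fun i hi v hv => by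
    obtain ⟨i', h1, h2⟩ := h i hi
    exact (le_iSup₂_of_le (f := fun i (_ : i ∈ S') => 𝓕.F (c' i)) i' h1 le_rfl :
      _ ≤ 𝓕.sum c' S') (h2 ▸ hE.F g (c i) v hv)) hv

theorem chi_tw [DecidableEq I] (hT : S_TR.{u}) (hN : inc.range.Normal) (hS : 𝒢.Semi V)
    (hE : Equi inc 𝒞) (g : G) (c : I → W) : chi (𝓕.Bc (tw g c)) = chi (𝓕.Bc c) := by
  refine (hT s.D s.D V V I I (𝒢.α g : s.D →+* s.D) _ _ (DistribSMul.toAddMonoidHom V g)
    (toPerm g) (𝓕.sum c) (𝓕.sum (tw g c)) (le_antisymm (fun d hd => ?_) ?_)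
    (MulAction.injective g) (fun d _ v => hS.smul g d v) (𝓕.stab_sum c)
    fun S => le_antisymm (fun v hv => ?_) ?_).2.2.symm
  · have := alpha_stab (𝒢 := 𝒢) hN hE g⁻¹ _ hd
    rw [tw_inv] at this
    refine ⟨_, this, ?_⟩
    change (𝒢.α g * 𝒢.α g⁻¹) d = d
    rw [← map_mul, mul_inv_cancel, map_one]
    rfl
  · rintro _ ⟨d, hd, rfl⟩
    exact alpha_stab hN hE g c hd
  · refine ⟨g⁻¹ • v, smul_sum hE (fun i hi => ?_) hv, smul_inv_smul g v⟩
    obtain ⟨i', h1, rfl⟩ := Finset.mem_map.1 hi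
    refine ⟨i', h1, ?_⟩
    change g⁻¹ • g • c (g⁻¹ • g • i') = c i'
    rw [inv_smul_smul, inv_smul_smul]
  · rintro _ ⟨v, hv, rfl⟩
    refine smul_sum hE (fun i hi => ⟨_, Finset.mem_map_of_mem _ hi, ?_⟩) hv
    change g • c i = g • c (g⁻¹ • g • i)
    rw [inv_smul_smul]

theorem lab_tw (hE : Equi inc 𝒞) (g : G) (c : I → W) (i : I) (b : Bool) :
    𝒞.lab (tw g c i) = some (i, b) ↔ 𝒞.lab (c (g⁻¹ • i)) = some (g⁻¹ • i, b) :=
  ⟨fun h => by simpa only [tw, inv_smul_smul] using hE.lab g⁻¹ _ _ _ h,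
    fun h => by simpa only [tw, smul_inv_smul] using hE.lab g _ _ _ h⟩

theorem wt_tw [DecidableEq I] (hT : S_TR.{u}) (hN : inc.range.Normal) (hS : 𝒢.Semi V)
    (hE : Equi inc 𝒞) (g : G) (c : I → W) : 𝒞.wt (tw g c) = 𝒞.wt c := by
  have h1 : 𝒞.IsSec (tw g c) ↔ 𝒞.IsSec c := by
    simp only [Cells.IsSec, lab_tw hE]
    exact ⟨fun h i => by simpa only [inv_smul_smul] using h (g • i), fun h i => h _⟩
  have h2 : {i | 𝒞.lab (tw g c i) = some (i, true)}.ncard =
      {i | 𝒞.lab (c i) = some (i, true)}.ncard :=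
    Set.ncard_congr (fun i _ => g⁻¹ • i) (fun i hi => (lab_tw hE g c i true).1 hi)
      (fun _ _ _ _ e => MulAction.injective g⁻¹ e) fun i hi =>
        ⟨g • i, (lab_tw hE g c _ true).2 (by rw [inv_smul_smul]; exact hi), inv_smul_smul g i⟩
  rw [Cells.wt, Cells.wt, h2, chi_tw hT hN hS hE, h1]

end PSYM

open PSYM in
theorem p_sym (hO : S_OD.{u}) (hT : S_TR.{u}) : S_SYM.{u} := by
  intro hF s hs V W I G _ _ _ _ _ _ _ _ _ _ _ inc 𝒢 𝓕 𝒞 hN hI hS hE hD
  obtain ⟨h1, t, h2⟩ := hF (Nat.card I) s hs V W 𝓕 I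
  have ha : ∀ c : I → W, 𝓕.act c ≤ Nat.card I := fun c => Set.ncard_le_card _
  refine @hO s.Γ G (I → W) _ _ _ (act G I W) inc 𝒞.wt hN hI (fun h c => funext fun i => ?_)
    (wt_tw hT hN hS hE) ⟨t, fun c hc => h2 c ⟨ha c, fun e => hc ?_⟩⟩ fun c => ?_
  · change inc h • c ((inc h)⁻¹ • i) = h • c i
    rw [← map_inv, hE.incI, hE.incW]
  · rw [Cells.wt, e.chi, mul_zero, ite_self]
  rw [stab_act, Cells.wt]
  split_ifs with hc
  swap
  · exact dvd_zero _
  refine Dvd.dvd.mul_left (finsum_induction (fun x => _ ∣ x) (dvd_zero _) (fun _ _ => dvd_add)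
    fun n => Dvd.dvd.mul_left (Int.natCast_dvd_natCast.2 ?_) _) _
  refine div_hd hS hE.incI (hD c hc) ?_ (𝓕.stab_sum c)
    (fun b hb S S' e v hv => smul_sum hE (fun i hi => ⟨_, e i hi, hb i⟩) hv) n ((h1 c (ha c)).1 n)
  ext a
  change a • c = c ↔ ∀ i, inc a • c i = c (inc a • i)
  simp only [hE.incI, hE.incW, funext_iff, Pi.smul_apply]

end Pool.Agent.P.MP_0f25e6_al.VT
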