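import Pool.Agent.P.MP_0f25e6_al.VT.Spec

/-!
The top degree of the Čech complex, and bases of the cohomology.
-/

set_option autoImplicit false

noncomputable section

namespace Pool.Agent.P.MP_0f25e6_al.VT

universe u

namespace PTOP

variable {I : Type u} [DecidableEq I] {n : ℕ}

/-- The sign of a tuple relative to an enumeration. -/
def sg (σ : Fin (n + 1) ≃ I) (τ : Fin (n + 1) → I) : ℤ :=
  (Matrix.of fun a b => if τ a = σ b then (1 : ℤ) else 0).det

theorem sg_self (σ : Fin (n + 1) ≃ I) : sg σ σ = 1 := by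
  rw [sg, ← Matrix.det_one (n := Fin (n + 1))]
  congr 1
  ext a b
  simp [Matrix.one_apply]

theorem sg_zero (σ : Fin (n + 1) ≃ I) {τ : Fin (n + 1) → I} {i : I}
    (h : i ∉ Finset.univ.image τ) : sg σ τ = 0 :=
  Matrix.det_eq_zero_of_column_eq_zero (σ.symm i) fun a => if_neg fun e =>
    h (Finset.mem_image.2 ⟨a, Finset.mem_univ _, by simpa using e⟩)

theorem sg_cocycle (σ : Fin (n + 1) ≃ I) (τ : Fin (n + 2) → I) :
    ∑ l : Fin (n + 2), (-1 : ℤ) ^ (l : ℕ) * sg σ (τ ∘ l.succAbove) = 0 := by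
  let M : Matrix (Fin (n + 2)) (Fin (n + 2)) ℤ :=
    Matrix.of fun a => Fin.cons 1 fun b => if τ a = σ b then 1 else 0
  have h0 : M.det = 0 := by
    refine Matrix.exists_mulVec_eq_zero_iff.1 ⟨Fin.cons 1 fun _ => -1, fun e => ?_, ?_⟩
    · simpa using congrFun e 0
    · funext a
      have : ∑ b, (if τ a = σ b then (1 : ℤ) else 0) = 1 := by
        simp only [← σ.symm_apply_eq]
        simp
      simp only [Matrix.mulVec, dotProduct, Fin.sum_univ_succ (n := n + 1), M, Matrix.of_apply,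
        Fin.cons_zero, Fin.cons_succ, mul_neg, mul_one, Finset.sum_neg_distrib, this,
        Pi.zero_apply, add_neg_cancel]
  rw [Matrix.det_succ_column_zero] at h0
  rw [← h0]
  refine Finset.sum_congr rfl fun l _ => ?_
  rw [show M l 0 = 1 from rfl, mul_one]
  rfl

variable {L E : Type u} [DivisionRing L] [AddCommGroup E] [Module L E]

variable (L) in
/-- The top cochain attached to a vector. -/
def ph (σ : Fin (n + 1) ≃ I) : E →ₗ[L] Co I E n where
  toFun y τ := sg σ τ • y
  map_add' _ _ := funext fun _ => smul_add _ _ _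
  map_smul' _ _ := funext fun _ => smul_comm _ _ _

variable [Fintype I] {B : Finset I → Submodule L E}

theorem ph_mem (σ : Fin (n + 1) ≃ I) {y : E} (hy : y ∈ B Finset.univ) : ph L σ y ∈ Zn B n := by
  refine ⟨fun τ => ?_, funext fun τ => ?_⟩
  · change sg σ τ • y ∈ _
    by_cases h : Finset.univ.image τ = Finset.univ
    · rw [h]
      exact zsmul_mem hy _
    · obtain ⟨i, hi⟩ := not_forall.1 fun e => h (Finset.eq_univ_iff_forall.2 e)
      rw [sg_zero σ hi, zero_smul]
      exact zero_mem _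
  · change ∑ l : Fin (n + 2), (-1 : ℤ) ^ (l : ℕ) • sg σ (τ ∘ l.succAbove) • y = 0
    simp only [smul_smul]
    rw [← Finset.sum_smul, sg_cocycle, zero_smul]

theorem of_ph (hB : Monotone B) (σ : Fin (n + 1) ≃ I) {y : E} (h : ph L σ y ∈ Bn B n) :
    y ∈ ⨆ j, B (Finset.univ.erase j) := by
  have e : ph L σ y σ = y := by
    change sg σ σ • y = y
    rw [sg_self, one_smul]
  cases n with
  | zero =>
    rw [← e, mem_Bn_zero.1 h]
    exact zero_mem _
  | succ n =>
    obtain ⟨ψ, hψ, h⟩ := mem_Bn_succ.1 h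
    rw [← e, ← h, dd_apply]
    refine Submodule.sum_mem _ fun l _ => zsmul_mem
      (Submodule.mem_iSup_of_mem (σ l) (hB ?_ (hψ (σ ∘ l.succAbove)))) _
    intro i hi
    obtain ⟨a, -, rfl⟩ := Finset.mem_image.1 hi
    exact Finset.mem_erase.2 ⟨fun e => Fin.succAbove_ne l a (σ.injective e), Finset.mem_univ _⟩

theorem mem_sp {J M : Type u} [AddCommGroup M] [Module L M] {v : J → M} {x : M} :
    x ∈ Submodule.span L (Set.range v) ↔ ∃ a, Finsupp.linearCombination L v a = x :=
  Finsupp.mem_span_range_iff_exists_finsupp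

omit [Fintype I] in
theorem hb_iff {J : Type u} (w : J → Zn B n) : HBasis B n (fun j => (w j).1) ↔
    LinearIndependent L (((Bn B n).submoduleOf (Zn B n)).mkQ ∘ w) ∧
      ⊤ ≤ Submodule.span L (Set.range (((Bn B n).submoduleOf (Zn B n)).mkQ ∘ w)) := by
  have e1 : ∀ a : J →₀ L, Finsupp.linearCombination L (fun j => (w j).1) a =
      (Finsupp.linearCombination L w a).1 := fun a =>
    (Finsupp.apply_linearCombination L (Zn B n).subtype w a).symm
  have e2 : ∀ a : J →₀ L, Finsupp.linearCombination L (((Bn B n).submoduleOf (Zn B n)).mkQ ∘ w) a =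
      Submodule.Quotient.mk (Finsupp.linearCombination L w a) := fun a =>
    (Finsupp.apply_linearCombination L ((Bn B n).submoduleOf (Zn B n)).mkQ w a).symm
  rw [HBasis, linearIndependent_iff, and_iff_right fun j => (w j).2, and_comm]
  refine and_congr (forall_congr' fun a => ?_) ⟨fun h x _ => ?_, fun h x hx => ?_⟩
  · rw [e1, e2, Submodule.Quotient.mk_eq_zero]
    rfl
  · obtain ⟨x, rfl⟩ := Submodule.Quotient.mk_surjective _ x
    obtain ⟨y, hy, b, hb, e⟩ := Submodule.mem_sup.1 (h x.2)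
    obtain ⟨a, rfl⟩ := mem_sp.1 hy
    refine mem_sp.2 ⟨a, ?_⟩
    rw [e2, eq_comm, Submodule.Quotient.eq]
    change x.1 - _ ∈ Bn B n
    rw [← e, e1, add_sub_cancel_left]
    exact hb
  · obtain ⟨a, ha⟩ := mem_sp.1
      (h (Submodule.mem_top (x := Submodule.Quotient.mk ⟨x, hx⟩)))
    rw [e2, eq_comm, Submodule.Quotient.eq] at ha
    exact Submodule.mem_sup.2 ⟨_, mem_sp.2 ⟨a, e1 a⟩, _, ha,
      add_sub_cancel _ _⟩

end PTOP

open PTOP in
theorem p_top : S_TOP.{u} := by
  intro L E I _ _ _ _ _ _ B hB _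
  obtain ⟨n, hn⟩ : ∃ n, Fintype.card I = n + 1 :=
    ⟨_, (Nat.succ_pred_eq_of_pos Fintype.card_pos).symm⟩
  let σ := (Fintype.equivFinOfCardEq hn).symm
  refine ⟨fun h => ?_, fun h y hy => of_ph hB σ (h n (ph_mem σ hy))⟩
  have := h.1 n
  let f : B Finset.univ →ₗ[L] Hn B n := ((Bn B n).submoduleOf (Zn B n)).mkQ ∘ₗ
    (ph L σ ∘ₗ (B Finset.univ).subtype).codRestrict (Zn B n) fun y => ph_mem σ y.2
  obtain ⟨g, hg⟩ := f.rangeRestrict.exists_rightInverse_of_surjective f.range_rangeRestrict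
  obtain ⟨t, ht⟩ : (LinearMap.range ((B Finset.univ).subtype ∘ₗ g)).FG := by
    rw [LinearMap.range_eq_map]
    exact Module.Finite.fg_top.map _
  refine ⟨t, fun x hx => ?_, fun y hy => ?_⟩
  · obtain ⟨v, rfl⟩ : x ∈ LinearMap.range ((B Finset.univ).subtype ∘ₗ g) :=
      ht ▸ Submodule.subset_span hx
    exact (g v).2
  · have e : f (⟨y, hy⟩ - g (f.rangeRestrict ⟨y, hy⟩)) = 0 := by
      rw [map_sub, sub_eq_zero]
      exact (congrArg Subtype.val (LinearMap.congr_fun hg (f.rangeRestrict ⟨y, hy⟩))).symm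
    refine Submodule.mem_sup.2 ⟨g (f.rangeRestrict ⟨y, hy⟩), ht ▸ ⟨_, rfl⟩, _,
      of_ph hB σ ?_, add_sub_cancel _ _⟩
    exact (Submodule.Quotient.mk_eq_zero ((Bn B n).submoduleOf (Zn B n))).1 e

open PTOP in
theorem p_hb : S_HB.{u} := by
  intro L E I _ _ _ _ B n
  refine ⟨?_, fun J z h => ?_⟩
  · let b := Module.Basis.ofVectorSpace L (Hn B n)
    choose w hw using fun j => Submodule.mkQ_surjective _ (b j)
    have e : ((Bn B n).submoduleOf (Zn B n)).mkQ ∘ w = b := funext hw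
    exact ⟨_, _, (hb_iff w).2 (by rw [e]; exact ⟨b.linearIndependent, b.span_eq.ge⟩)⟩
  · obtain ⟨h1, h2⟩ := (hb_iff fun j => ⟨z j, h.1 j⟩).1 h
    let b := Module.Basis.mk h1 h2
    refine ⟨⟨fun _ => Module.Finite.finite_basis b, fun _ => Module.Finite.of_basis b⟩,
      Module.finrank_eq_nat_card_basis b, fun e => ⟨fun j => ?_⟩, fun _ => ?_⟩
    · have := h.2.2 (Finsupp.single j 1) (by simpa using e (h.1 j))
      simp at this
    · simpa [Set.range_eq_empty] using h.2.1

end Pool.Agent.P.MP_0f25e6_al.VT
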