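import Pool.Agent.P.MP_0f25e6_al.VT.Spec

/-!
Transport of the Čech cohomology along a semilinear injection and a bijection of index sets.
-/

set_option autoImplicit false

open MulAction

noncomputable section

namespace Pool.Agent.P.MP_0f25e6_al.VT

universe u

open Sys

namespace TR

variable {L L' E E' I I' : Type u} [DivisionRing L] [DivisionRing L'] [AddCommGroup E]
  [Module L E] [AddCommGroup E'] [Module L' E']

/-- The map on cochains. -/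
def Φ (σ : L →+* L') (f : E →ₛₗ[σ] E') (π : I ≃ I') (n : ℕ) : Co I E n →ₛₗ[σ] Co I' E' n where
  toFun φ τ := f (φ (π.symm ∘ τ))
  map_add' φ ψ := by
    ext τ
    simp
  map_smul' a φ := by
    ext τ
    simp

variable {σ : L →+* L'} {f : E →ₛₗ[σ] E'} {π : I ≃ I'}

theorem Φ_apply (n : ℕ) (φ : Co I E n) (τ : Fin (n + 1) → I') :
    Φ σ f π n φ τ = f (φ (π.symm ∘ τ)) := rfl

theorem Φ_inj (hf : Function.Injective f) (n : ℕ) : Function.Injective (Φ σ f π n) := by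
  intro φ ψ h
  ext τ
  have h1 := congrFun h (π ∘ τ)
  rw [Φ_apply, Φ_apply] at h1
  have h2 : π.symm ∘ π ∘ τ = τ := by
    ext a
    simp
  rw [h2] at h1
  exact hf h1

theorem Φ_dd (n : ℕ) (φ : Co I E n) :
    Φ σ f π (n + 1) (dd L n φ) = dd L' n (Φ σ f π n φ) := by
  ext τ
  rw [Φ_apply, dd_apply, dd_apply, map_sum]
  refine Finset.sum_congr rfl fun l _ => ?_
  rw [map_zsmul, Φ_apply]
  rfl

variable [DecidableEq I] [DecidableEq I'] {B : Finset I → Submodule L E}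
  {B' : Finset I' → Submodule L' E'}

theorem image_map {n : ℕ} (τ : Fin (n + 1) → I') :
    (Finset.univ.image (π.symm ∘ τ)).map π.toEmbedding = Finset.univ.image τ := by
  ext i
  simp only [Finset.mem_map, Finset.mem_image, Finset.mem_univ, true_and, Function.comp_apply,
    Equiv.coe_toEmbedding]
  constructor
  · rintro ⟨_, ⟨a, rfl⟩, rfl⟩
    exact ⟨a, by simp⟩
  · rintro ⟨a, rfl⟩
    exact ⟨_, ⟨a, rfl⟩, by simp⟩

theorem mem_Cn' (hB : ∀ S y, y ∈ B' (S.map π.toEmbedding) ↔ ∃ x ∈ B S, f x = y) {n : ℕ}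
    {ψ : Co I' E' n} : ψ ∈ Cn B' n ↔ ∃ φ ∈ Cn B n, Φ σ f π n φ = ψ := by
  constructor
  · intro h
    have h1 : ∀ τ : Fin (n + 1) → I, ∃ x ∈ B (Finset.univ.image τ), f x = ψ (π ∘ τ) := by
      intro τ
      have h2 := h (π ∘ τ)
      have h3 : π.symm ∘ π ∘ τ = τ := by
        ext a
        simp
      rw [← image_map (π := π), h3] at h2
      exact (hB _ _).1 h2
    choose φ h2 h3 using h1
    refine ⟨φ, h2, ?_⟩
    ext τ
    rw [Φ_apply, h3]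
    congr 1
    ext a
    simp
  · rintro ⟨φ, h, rfl⟩ τ
    rw [← image_map (π := π)]
    exact (hB _ _).2 ⟨_, h _, rfl⟩

theorem mem_Zn' (hf : Function.Injective f)
    (hB : ∀ S y, y ∈ B' (S.map π.toEmbedding) ↔ ∃ x ∈ B S, f x = y) {n : ℕ}
    {ψ : Co I' E' n} : ψ ∈ Zn B' n ↔ ∃ φ ∈ Zn B n, Φ σ f π n φ = ψ := by
  constructor
  · rintro ⟨h1, h2⟩
    obtain ⟨φ, h3, rfl⟩ := (mem_Cn' hB).1 h1
    refine ⟨φ, mem_Zn.2 ⟨h3, Φ_inj (π := π) hf (n + 1) ?_⟩, rfl⟩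
    rw [Φ_dd, map_zero]
    exact h2
  · rintro ⟨φ, h, rfl⟩
    refine mem_Zn.2 ⟨(mem_Cn' hB).2 ⟨φ, h.1, rfl⟩, ?_⟩
    rw [← Φ_dd, (mem_Zn.1 h).2, map_zero]

theorem mem_Bn' (hB : ∀ S y, y ∈ B' (S.map π.toEmbedding) ↔ ∃ x ∈ B S, f x = y) {n : ℕ}
    {ψ : Co I' E' n} : ψ ∈ Bn B' n ↔ ∃ φ ∈ Bn B n, Φ σ f π n φ = ψ := by
  cases n with
  | zero =>
    constructor
    · intro h
      exact ⟨0, zero_mem _, by rw [map_zero, mem_Bn_zero.1 h]⟩
    · rintro ⟨φ, h, rfl⟩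
      rw [mem_Bn_zero.1 h, map_zero]
      exact zero_mem _
  | succ n =>
    constructor
    · intro h
      obtain ⟨χ, h1, rfl⟩ := mem_Bn_succ.1 h
      obtain ⟨φ, h3, rfl⟩ := (mem_Cn' hB).1 h1
      exact ⟨dd L n φ, mem_Bn_succ.2 ⟨φ, h3, rfl⟩, Φ_dd n φ⟩
    · rintro ⟨φ, h, rfl⟩
      obtain ⟨χ, h1, rfl⟩ := mem_Bn_succ.1 h
      exact mem_Bn_succ.2 ⟨_, (mem_Cn' hB).2 ⟨χ, h1, rfl⟩, (Φ_dd n χ).symm⟩

theorem Φ_mem_Bn (hf : Function.Injective f)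
    (hB : ∀ S y, y ∈ B' (S.map π.toEmbedding) ↔ ∃ x ∈ B S, f x = y) {n : ℕ} {φ : Co I E n} :
    Φ σ f π n φ ∈ Bn B' n ↔ φ ∈ Bn B n := by
  rw [mem_Bn' hB]
  constructor
  · rintro ⟨χ, h, e⟩
    rwa [← Φ_inj hf n e]
  · exact fun h => ⟨φ, h, rfl⟩

theorem le_iff (hf : Function.Injective f)
    (hB : ∀ S y, y ∈ B' (S.map π.toEmbedding) ↔ ∃ x ∈ B S, f x = y) (n : ℕ) :
    Zn B n ≤ Bn B n ↔ Zn B' n ≤ Bn B' n := by
  constructor
  · intro h ψ hψ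
    obtain ⟨φ, h1, rfl⟩ := (mem_Zn' hf hB).1 hψ
    exact (Φ_mem_Bn hf hB).2 (h h1)
  · intro h φ hφ
    exact (Φ_mem_Bn hf hB).1 (h ((mem_Zn' hf hB).2 ⟨φ, hφ, rfl⟩))

theorem rank_eq (hσ : Function.Bijective σ) (hf : Function.Injective f)
    (hB : ∀ S y, y ∈ B' (S.map π.toEmbedding) ↔ ∃ x ∈ B S, f x = y) (n : ℕ) :
    Module.rank L (Hn B n) = Module.rank L' (Hn B' n) := by
  let g : Zn B n →ₛₗ[σ] Zn B' n :=
    ((Φ σ f π n).domRestrict (Zn B n)).codRestrict (Zn B' n) fun φ =>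
      (mem_Zn' hf hB).2 ⟨φ, φ.2, rfl⟩
  have hg : ∀ φ : Zn B n, g φ ∈ (Bn B' n).submoduleOf (Zn B' n) ↔
      φ ∈ (Bn B n).submoduleOf (Zn B n) := fun φ => Φ_mem_Bn hf hB
  let k : Hn B n →ₛₗ[σ] Hn B' n :=
    Submodule.mapQ _ _ g fun φ hφ => (hg φ).2 hφ
  have hk : Function.Bijective k := by
    constructor
    · rw [injective_iff_map_eq_zero]
      intro x hx
      obtain ⟨φ, rfl⟩ := Submodule.Quotient.mk_surjective _ x
      rw [Submodule.mapQ_apply, Submodule.Quotient.mk_eq_zero] at hx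
      exact (Submodule.Quotient.mk_eq_zero _).2 ((hg φ).1 hx)
    · intro y
      obtain ⟨ψ, rfl⟩ := Submodule.Quotient.mk_surjective _ y
      obtain ⟨φ, h1, h2⟩ := (mem_Zn' hf hB).1 ψ.2
      refine ⟨Submodule.Quotient.mk ⟨φ, h1⟩, ?_⟩
      rw [Submodule.mapQ_apply]
      congr 1
      exact Subtype.ext h2
  exact rank_eq_of_equiv_equiv σ (AddEquiv.ofBijective k.toAddMonoidHom hk) hσ
    fun r m => k.map_smulₛₗ r m

theorem main (hσ : Function.Bijective σ) (hf : Function.Injective f)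
    (hB : ∀ S y, y ∈ B' (S.map π.toEmbedding) ↔ ∃ x ∈ B S, f x = y) :
    (Tame B ↔ Tame B') ∧ (Acyc B ↔ Acyc B') ∧ chi B = chi B' := by
  refine ⟨and_congr (forall_congr' fun n => ?_)
    (exists_congr fun N => forall₂_congr fun n _ => le_iff hf hB n),
    forall_congr' fun n => le_iff hf hB n, finsum_congr fun n => ?_⟩
  · rw [← Module.rank_lt_aleph0_iff, ← Module.rank_lt_aleph0_iff, rank_eq hσ hf hB]
  · rw [hd, hd, Module.finrank, Module.finrank, rank_eq hσ hf hB]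

end TR

theorem p_tr : S_TR.{u} := by
  intro D D' V V' I I' _ _ _ _ _ _ _ _ j L L' f π G G' hL hf hs hG hG'
  subst hL
  let σ : L →+* L.map j := (j.domRestrict L).codRestrict (L.map j) fun x => ⟨x, x.2, rfl⟩
  have hσ : Function.Bijective σ :=
    ⟨σ.injective, fun ⟨_, x, hx, rfl⟩ => ⟨⟨x, hx⟩, rfl⟩⟩
  let F : V →ₛₗ[σ] V' :=
    { toFun := f
      map_add' := map_add f
      map_smul' := fun a v => hs a a.2 v }
  refine TR.main (σ := σ) (f := F) (π := π) hσ hf fun S y => ?_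
  have h1 : Stab (L.map j) (G' (S.map π.toEmbedding)) := by
    rw [hG']
    rintro _ ⟨κ, hκ, rfl⟩ _ ⟨v, hv, rfl⟩
    exact ⟨κ • v, hG S κ hκ v hv, hs κ hκ v⟩
  rw [mem_spF h1, hG']
  exact ⟨fun ⟨x, hx, e⟩ => ⟨x, (mem_spF (hG S)).2 hx, e⟩,
    fun ⟨x, hx, e⟩ => ⟨x, (mem_spF (hG S)).1 hx, e⟩⟩

end Pool.Agent.P.MP_0f25e6_al.VT
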