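import Pool.Agent.P.MP_0f25e6_al.VT.Spec

/-!
The module presented by a matrix over the group ring.
-/

set_option autoImplicit false

open MulAction

noncomputable section

namespace Pool.Agent.P.MP_0f25e6_al.VT

universe u

open Sys

namespace VMOD

variable {s : Sys.{u}} {G : Type u} [Group G] {inc : s.Γ →* G} (𝒢 : s.GS G inc)

/-- The images of representatives of the right cosets. -/
def bs (q : G ⧸ inc.range) : 𝒢.R := 𝒢.ιG q.out⁻¹

theorem dec (g : G) : ∃ (h : s.Γ) (q : G ⧸ inc.range), g = inc h * q.out⁻¹ := by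
  obtain ⟨⟨_, h, rfl⟩, e⟩ := QuotientGroup.mk_out_eq_mul inc.range g⁻¹
  exact ⟨h, (g⁻¹ : G), by rw [e]; simp⟩

theorem ι_inc (h : s.Γ) (g : G) : 𝒢.ιG (inc h * g) = s.ι h • 𝒢.ιG g := by
  rw [map_mul, GS.smul_def, 𝒢.jι]

theorem li [inc.range.FiniteIndex] : LinearIndependent s.D (bs 𝒢) := by
  have := Fintype.ofFinite (G ⧸ inc.range)
  rw [Fintype.linearIndependent_iff]
  intro d hd q
  let e := (Fintype.equivFin (G ⧸ inc.range)).symm
  have := 𝒢.indep _ (fun a => d (e a)) (fun a => (e a).out⁻¹) (fun a b h => e.injective (by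
    rw [inv_inv] at h
    rw [← (e a).out_eq', ← (e b).out_eq']
    exact QuotientGroup.eq.2 h)) (by
      rw [← hd, ← e.sum_comp]
      rfl) (e.symm q)
  simpa using this

/-- The crossed product. -/
def R0 : Submodule s.D 𝒢.R := Submodule.span s.D (Set.range (bs 𝒢))

theorem ι_mem (g : G) : 𝒢.ιG g ∈ R0 𝒢 := by
  obtain ⟨h, q, rfl⟩ := dec (inc := inc) g
  rw [ι_inc]
  exact Submodule.smul_mem _ _ (Submodule.subset_span ⟨q, rfl⟩)

theorem mul_smul' (g : G) (d : s.D) (x : 𝒢.R) : 𝒢.ιG g * d • x = 𝒢.α g d • (𝒢.ιG g * x) := by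
  rw [GS.smul_def, GS.smul_def, ← mul_assoc, 𝒢.conj, mul_assoc]

theorem mul_mem' (g : G) {x : 𝒢.R} (hx : x ∈ R0 𝒢) : 𝒢.ιG g * x ∈ R0 𝒢 := by
  induction hx using Submodule.span_induction with
  | mem x hx =>
    obtain ⟨q, rfl⟩ := hx
    rw [bs, ← map_mul]
    exact ι_mem 𝒢 _
  | zero => rw [mul_zero]; exact zero_mem _
  | add x y _ _ hx hy => rw [mul_add]; exact add_mem hx hy
  | smul d x _ hx => rw [mul_smul']; exact Submodule.smul_mem _ _ hx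

variable {m n : ℕ}

/-- Left multiplication. -/
def lm (g : G) : (Fin n → R0 𝒢) →ₛₗ[(𝒢.α g : s.D →+* s.D)] (Fin n → R0 𝒢) where
  toFun w j := ⟨𝒢.ιG g * w j, mul_mem' 𝒢 g (w j).2⟩
  map_add' _ _ := funext fun _ => Subtype.ext (mul_add _ _ _)
  map_smul' d _ := funext fun _ => Subtype.ext (mul_smul' 𝒢 g d _)

/-- The generators. -/
def ee (g : G) (j : Fin n) : Fin n → R0 𝒢 := Pi.single j ⟨𝒢.ιG g, ι_mem 𝒢 g⟩

theorem lm_ee (g g' : G) (j : Fin n) : lm 𝒢 g (ee 𝒢 g' j) = ee 𝒢 (g * g') j := by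
  funext k
  refine Subtype.ext ?_
  change 𝒢.ιG g * (ee 𝒢 g' j k : 𝒢.R) = _
  by_cases h : k = j
  · subst h; simp [ee]
  · simp [ee, h]

theorem ee_inc (h : s.Γ) (g : G) (j : Fin n) : ee 𝒢 (inc h * g) j = s.ι h • ee 𝒢 g j := by
  rw [ee, ee, ← Pi.single_smul]
  congr 1
  exact Subtype.ext (ι_inc 𝒢 h g)

variable (A : Fin m → Fin n → G →₀ ℂ)

/-- The translates of the rows. -/
def row (g : G) (i : Fin m) : Fin n → R0 𝒢 :=
  ∑ j, ∑ k ∈ (A i j).support, algebraMap ℂ s.D (A i j k) • ee 𝒢 (g * k) j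

theorem lm_row (g g' : G) (i : Fin m) : lm 𝒢 g (row 𝒢 A g' i) = row 𝒢 A (g * g') i := by
  simp only [row, map_sum, map_smulₛₗ, lm_ee, RingHom.coe_coe, 𝒢.α_alg, mul_assoc]

theorem row_val (g : G) (i : Fin m) (j : Fin n) :
    (row 𝒢 A g i j : 𝒢.R) = 𝒢.ιG g * 𝒢.emb (A i j) := by
  rw [row, Finset.sum_apply, Finset.sum_eq_single j (fun b _ hb => by
    simp [Finset.sum_apply, ee, hb.symm]) (by simp), GS.emb, Finsupp.sum, Finset.mul_sum,
    Finset.sum_apply, Submodule.coe_sum]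
  refine Finset.sum_congr rfl fun k _ => ?_
  rw [← GS.smul_def, mul_smul', 𝒢.α_alg, ← map_mul]
  simp [ee]

/-- The relations. -/
def RR : Submodule s.D (Fin n → R0 𝒢) :=
  Submodule.span s.D {r | ∃ (g : G) (i : Fin m), r = row 𝒢 A g i}

theorem row_mem (g : G) (i : Fin m) : row 𝒢 A g i ∈ RR 𝒢 A := Submodule.subset_span ⟨g, i, rfl⟩

theorem map_RR : (RR 𝒢 A).map ((R0 𝒢).subtype.compLeft (Fin n)) = 𝒢.Rel A := by
  rw [RR, Submodule.map_span, GS.Rel]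
  congr 1
  ext r
  constructor
  · rintro ⟨_, ⟨g, i, rfl⟩, rfl⟩
    exact ⟨g, i, funext fun j => row_val 𝒢 A g i j⟩
  · rintro ⟨g, i, rfl⟩
    exact ⟨_, ⟨g, i, rfl⟩, funext fun j => row_val 𝒢 A g i j⟩

theorem RR_le (g : G) : RR 𝒢 A ≤ (RR 𝒢 A).comap (lm 𝒢 g) := by
  refine Submodule.span_le.2 ?_
  rintro _ ⟨g', i, rfl⟩
  change lm 𝒢 g _ ∈ RR 𝒢 A
  rw [lm_row]
  exact row_mem 𝒢 A _ i

/-- The action on the quotient. -/
@[reducible] def act : DistribMulAction G ((Fin n → R0 𝒢) ⧸ RR 𝒢 A) where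
  smul g := (RR 𝒢 A).mapQ (RR 𝒢 A) (lm 𝒢 g) (RR_le 𝒢 A g)
  one_smul v := by
    obtain ⟨w, rfl⟩ := (RR 𝒢 A).mkQ_surjective v
    refine congrArg (RR 𝒢 A).mkQ (funext fun j => Subtype.ext ?_)
    change 𝒢.ιG 1 * _ = _
    rw [map_one, one_mul]
  mul_smul g g' v := by
    obtain ⟨w, rfl⟩ := (RR 𝒢 A).mkQ_surjective v
    refine congrArg (RR 𝒢 A).mkQ (funext fun j => Subtype.ext ?_)
    change 𝒢.ιG (g * g') * _ = 𝒢.ιG g * (𝒢.ιG g' * _)
    rw [map_mul, mul_assoc]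
  smul_zero g := map_zero _
  smul_add g := map_add _

end VMOD

open VMOD in
theorem p_vmod : S_VMOD.{u} := by
  intro s G _ inc 𝒢 m n A _ hf
  have := Fintype.ofFinite (G ⧸ inc.range)
  let β : Module.Basis (Σ _ : Fin n, G ⧸ inc.range) s.D (Fin n → R0 𝒢) :=
    Pi.basis fun _ => Module.Basis.span (li 𝒢)
  have hβ : ∀ j (q : G ⧸ inc.range), β ⟨j, q⟩ = ee 𝒢 q.out⁻¹ j := fun j q => by
    refine (Pi.basis_apply _ _).trans ?_
    rw [ee]
    congr 1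
    exact Module.Basis.span_apply _ _
  have hfin : Module.Finite s.D (Fin n → R0 𝒢) := Module.Finite.of_basis β
  let _ := act 𝒢 A
  have hs : ∀ (g : G) (w : Fin n → R0 𝒢), g • (RR 𝒢 A).mkQ w = (RR 𝒢 A).mkQ (lm 𝒢 g w) :=
    fun _ _ => rfl
  have hy : ∀ (g : G) (j : Fin n), g • (RR 𝒢 A).mkQ (ee 𝒢 1 j) = (RR 𝒢 A).mkQ (ee 𝒢 g j) :=
    fun g j => by rw [hs, lm_ee, mul_one]
  refine ⟨(Fin n → R0 𝒢) ⧸ RR 𝒢 A, inferInstance, inferInstance, inferInstance, act 𝒢 A,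
    fun j => (RR 𝒢 A).mkQ (ee 𝒢 1 j), ⟨fun g d v => ?_, fun h v => ?_⟩,
    ⟨?_, fun g i => ?_, fun M _ _ ψ h1 h2 => ?_⟩, ?_⟩
  · exact map_smulₛₗ ((RR 𝒢 A).mapQ (RR 𝒢 A) (lm 𝒢 g) (RR_le 𝒢 A g)) d v
  · obtain ⟨w, rfl⟩ := (RR 𝒢 A).mkQ_surjective v
    rw [hs, ← map_smul]
    refine congrArg (RR 𝒢 A).mkQ (funext fun j => Subtype.ext ?_)
    change 𝒢.ιG (inc h) * _ = 𝒢.jR _ * _
    rw [𝒢.jι]
  · rw [eq_top_iff, ← (RR 𝒢 A).range_mkQ, ← Submodule.map_top, ← β.span_eq, Submodule.map_span]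
    refine Submodule.span_mono ?_
    rintro _ ⟨_, ⟨⟨j, q⟩, rfl⟩, rfl⟩
    exact ⟨_, j, by rw [hy, hβ]⟩
  · have := (Submodule.Quotient.mk_eq_zero _).2 (row_mem 𝒢 A g i)
    rw [← Submodule.mkQ_apply, row] at this
    simpa only [hy, map_sum, map_smul] using this
  · let Ψ := β.constr ℕ fun p => ψ p.2.out⁻¹ p.1
    have hΨ : ∀ g j, Ψ (ee 𝒢 g j) = ψ g j := fun g j => by
      obtain ⟨h, q, rfl⟩ := dec (inc := inc) g
      rw [ee_inc, map_smul, ← hβ, h1, Module.Basis.constr_basis]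
    have hk : RR 𝒢 A ≤ LinearMap.ker Ψ := Submodule.span_le.2 (by
      rintro _ ⟨g, i, rfl⟩
      change Ψ _ = 0
      simpa only [row, map_sum, map_smul, hΨ] using h2 g i)
    exact ⟨(RR 𝒢 A).liftQ Ψ hk, fun g j => by
      rw [hy]; exact ((RR 𝒢 A).liftQ_apply _ _).trans (hΨ g j)⟩
  · rw [← map_RR, ← (Submodule.equivMapOfInjective _ (fun a b h => funext fun j =>
      Subtype.ext (congrFun h j)) (RR 𝒢 A)).finrank_eq, Submodule.finrank_quotient_add_finrank,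
      Module.finrank_eq_card_basis β, Fintype.card_sigma, Subgroup.index_eq_card,
      Nat.card_eq_fintype_card]
    simp [mul_comm]

end Pool.Agent.P.MP_0f25e6_al.VT
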