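import Pool.Agent.P.MP_0f25e6_al.VT.Asm
import Pool.Agent.P.MP_0f25e6_al.VT.PSESa2
import Pool.Agent.P.MP_0f25e6_al.VT.PQI
import Pool.Agent.P.MP_0f25e6_al.VT.PTOP
import Pool.Agent.P.MP_0f25e6_al.VT.PTR
import Pool.Agent.P.MP_0f25e6_al.VT.POS
import Pool.Agent.P.MP_0f25e6_al.VT.POD
import Pool.Agent.P.MP_0f25e6_al.VT.PRB2
import Pool.Agent.P.MP_0f25e6_al.VT.PLDC
import Pool.Agent.P.MP_0f25e6_al.VT.PSPL
import Pool.Agent.P.MP_0f25e6_al.VT.PIND1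
import Pool.Agent.P.MP_0f25e6_al.VT.PIND2a
import Pool.Agent.P.MP_0f25e6_al.VT.PIND2
import Pool.Agent.P.MP_0f25e6_al.VT.PCL0
import Pool.Agent.P.MP_0f25e6_al.VT.PDER
import Pool.Agent.P.MP_0f25e6_al.VT.PKEY
import Pool.Agent.P.MP_0f25e6_al.VT.PRL
import Pool.Agent.P.MP_0f25e6_al.VT.PFAMS
import Pool.Agent.P.MP_0f25e6_al.VT.PINV
import Pool.Agent.P.MP_0f25e6_al.VT.PBM
import Pool.Agent.P.MP_0f25e6_al.VT.PSTAB
import Pool.Agent.P.MP_0f25e6_al.VT.PFINP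
import Pool.Agent.P.MP_0f25e6_al.VT.PMD
import Pool.Agent.P.MP_0f25e6_al.VT.PEULER
import Pool.Agent.P.MP_0f25e6_al.VT.PSUM
import Pool.Agent.P.MP_0f25e6_al.VT.PSYM
import Pool.Agent.P.MP_0f25e6_al.VT.PDIV
import Pool.Agent.P.MP_0f25e6_al.VT.PVMOD
import Pool.Agent.P.MP_0f25e6_al.VT.PFAM
import Pool.Agent.P.MP_0f25e6_al.VT.PRSAC

/-!
The algebraic part: the analytic input implies the statement on groups permuting trees.
-/

set_option autoImplicit false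

namespace Pool.Agent.P.MP_0f25e6_al.VT

universe u

theorem ppt_of_an (h : S_AN.{u}) : PPT.{u} := by
  have hI1 : S_IND1.{u} := p_ind1 p_qi p_qip
  have hI2 : S_IND2.{u} := p_ind2 (p_ind2a p_rb') p_hb p_tr
  have hQC : S_QC.{u} := p_qc p_qi p_qip p_const
  have hV : S_INV.{u} := p_inv p_tr
  obtain ⟨h1, h2, h3⟩ := all_steps (p_spl p_rb' p_rext') (p_rl (p_int p_rext'))
    (p_bm p_sesa' p_fams) (p_stab p_top)
    (p_finp p_fams (p_key p_sup0) p_bc hI1 hI2 p_qip p_tr hV) (p_fins hQC) (p_md p_top p_sup0 p_bc)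
  exact ppt_of h1 (p_sum p_os hQC hV h1 (p_euler hI1 hI2 p_sesb p_cl0 p_qip hQC p_os h1 h2 h3))
    (p_sym p_od p_tr) p_div p_vmod p_fam (h (p_ldc p_rext') (p_der p_cl0)) p_rsac

end Pool.Agent.P.MP_0f25e6_al.VT
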