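import Pool.Agent.P.MP_0f25e6_al.VT.AnSpec

/-!
Assembly of the analytic part from its steps.
-/

set_option autoImplicit false

open MulAction SemidirectProduct

noncomputable section

namespace Pool.Agent.P.MP_0f25e6_al.VT

universe u

open HN HR Sys

theorem an_of (hIND : S_IND.{u}) (hEX : S_EX.{u}) (hDENS : S_DENS.{u}) (hLD : S_LD.{u})
    (hHALF : S_HALF.{u}) (hCL1 : S_CL1.{u}) (hGS : S_GS.{u}) (hRANK : S_RANK.{u}) : S_AN.{u} := by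
  intro hLDC hDER G _ H hN hF hFull
  let P : Sys.{u} → Prop := fun s => s.Gen ∧ Nonempty (Rz s) ∧ Full s.Γ
  have cl1 : ∀ s, P s → s.CL1 := fun s ⟨h1, ⟨R⟩, h3⟩ => hCL1 s (hHALF s R (hDENS s R h1 h3))
  have hP : Closed P := by
    rintro s ⟨h1, ⟨R⟩, h3⟩
    refine ⟨h1, hLDC s (hLD s R (hDENS s R h1 h3)), fun W _ => ?_⟩
    have h4 : Full (FreeGroup (Tw W ℕ) ⋊[TP.actF s.Γ (Tw W ℕ)] s.Γ) := fun Γ _ r hr =>
      h3 Γ (rightHom.comp r) (PF.ker_comp (pf_ker_right s.Γ (Tw W ℕ)) hr)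
    obtain ⟨D, _, _, ι, hg, ⟨R'⟩⟩ := hEX _ h4.sac
    obtain ⟨I⟩ := hIND s.Γ (FreeGroup (Tw W ℕ) ⋊[TP.actF s.Γ (Tw W ℕ)] s.Γ) inr inr_injective
    obtain ⟨j, -, j1, j2⟩ := R.exists_hom R' h1 I
    have h5 : P (Sys.mk _ D ι) := ⟨hg, ⟨R'⟩, h4⟩
    exact ⟨_, h5, hDER s _ W (MulEquiv.refl _) j j1 j2 h1 hg (cl1 _ h5)⟩
  obtain ⟨D, _, _, ι, hg, ⟨R⟩⟩ := hEX H hFull.sac
  have h5 : P (Sys.mk H D ι) := ⟨hg, ⟨R⟩, hFull⟩
  obtain ⟨I⟩ := hIND H G H.subtype H.subtype_injective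
  have hr : H.subtype.range = H := H.range_subtype
  obtain ⟨𝒢, θ, h1, h2, h3⟩ := hGS (Sys.mk H D ι) R G H.subtype H.subtype_injective I hg
    (hr.symm ▸ hN)
  refine ⟨Sys.mk H D ι, H.subtype, H.subtype_injective, hr, ⟨P, hP, h5⟩, cl1 _ h5, 𝒢, h3,
    fun m n A W hW => ?_⟩
  have h6 := hRANK (Sys.mk H D ι) R G H.subtype H.subtype_injective I 𝒢 θ h1 h2 (hr.symm ▸ hF)
    m n A W hW
  rwa [hr] at h6

end Pool.Agent.P.MP_0f25e6_al.VT
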