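import Pool.Agent.P.MP_0f25e6_al.HR5

/-!
The algebra of operators affiliated to a group von Neumann algebra, as an Ore localisation.
-/

set_option autoImplicit false

open scoped InnerProductSpace ENNReal
open MulAction

noncomputable section

namespace Pool.Agent.P.MP_0f25e6_al.VT

universe u

open HN HR

section Ore

variable (G : Type u) [Group G]

/-- Bounded operators that commute with left translations. -/
def NN : Subalgebra ℂ (L2 G →L[ℂ] L2 G) where
  carrier := {T | Eqv G T}
  mul_mem' ha hb := Eqv.mul ha hb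
  add_mem' ha hb := Eqv.add ha hb
  algebraMap_mem' c := by
    rw [Algebra.algebraMap_eq_smul_one]
    exact Eqv.smul eqv_one c

/-- The injective ones. -/
def SS : Submonoid (NN G) where
  carrier := {T | ∀ x, T.1 x = 0 → x = 0}
  mul_mem' ha hb x hx := hb x (ha _ hx)
  one_mem' _ hx := hx

variable {G}

theorem NN.eqv (T : NN G) : Eqv G T.1 := T.2

theorem mem_SS {T : NN G} : T ∈ SS G ↔ ∀ x, T.1 x = 0 → x = 0 := Iff.rfl

theorem edim_top_tw (J : Type*) [Fintype J] :
    edim G (⊤ : Submodule ℂ (L2 (Tw G J))) = Fintype.card J := by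
  have e : orbitRel.Quotient G (Tw G J) ≃ J :=
    { toFun := Quotient.lift Tw.k (by rintro a b ⟨g, rfl⟩; rfl)
      invFun := fun k => Quotient.mk _ ⟨1, k⟩
      left_inv := by
        rintro ⟨y, k⟩
        exact Quotient.sound ⟨y⁻¹, Tw.ext (by simp) rfl⟩
      right_inv := fun _ => rfl }
  simp only [edim, osum, tau_top]
  rw [ENNReal.tsum_const, ENat.card_congr e]
  simp

theorem edim_top_self : edim G (⊤ : Submodule ℂ (L2 G)) = 1 := by
  have : Unique (orbitRel.Quotient G G) :=
    { default := Quotient.mk _ 1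
      uniq := by
        rintro ⟨y⟩
        exact Quotient.sound ⟨y, by simp⟩ }
  simp [edim, osum, tau_top]

/-- An injective equivariant operator has dense range. -/
theorem dense_of_inj {T : NN G} (h : T ∈ SS G) : cl (img T.1 ⊤) = ⊤ := by
  refine eq_of_edim_le (H := G) (cls_cl _) cls_top (inv_top.img (NN.eqv T)).cl inv_top le_top
    (edim_ne_top cofin_self _) ?_
  rw [edim_cl, edim_img_of_inj free_self free_self (NN.eqv T) h cls_top inv_top]

/-- An equivariant operator with dense range is injective. -/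
theorem inj_of_dense {T : NN G} (h : cl (img T.1 ⊤) = ⊤) : T ∈ SS G := by
  have h1 := rank_nullity free_self free_self (NN.eqv T) cls_top inv_top
  rw [← edim_cl (img _ _), h, edim_top_self, top_inf_eq] at h1
  have h2 : edim G (pre T.1 ⊥) = 0 := by
    have h3 : (0 : ℝ≥0∞) + 1 = edim G (pre T.1 ⊥) + 1 := by rwa [zero_add]
    exact ((ENNReal.add_left_inj ENNReal.one_ne_top).1 h3).symm
  intro x hx
  have h4 : x ∈ pre T.1 ⊥ := hx
  rwa [eq_bot_of_edim (inv_bot.pre (NN.eqv T)) h2] at h4

/-- The adjoint. -/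
def NN.ad (T : NN G) : NN G := ⟨adj T.1, (NN.eqv T).adj⟩

theorem NN.ad_ad (T : NN G) : NN.ad (NN.ad T) = T :=
  Subtype.ext (ContinuousLinearMap.adjoint_adjoint _)

theorem NN.ad_mul (S T : NN G) : NN.ad (S * T) = NN.ad T * NN.ad S :=
  Subtype.ext (ContinuousLinearMap.adjoint_comp S.1 T.1)

theorem ad_mem_SS {T : NN G} (h : T ∈ SS G) : NN.ad T ∈ SS G := fun x hx => by
  have h1 : x ∈ (img T.1 ⊤)ᗮ := by
    rintro _ ⟨y, -, rfl⟩
    have := inner_adj_right T.1 y x
    change ⟪T.1 y, x⟫_ℂ = 0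
    rw [← this]
    change ⟪y, (NN.ad T).1 x⟫_ℂ = 0
    rw [hx, inner_zero_right]
  rw [← orth_cl, dense_of_inj h, Submodule.top_orthogonal_eq_bot] at h1
  exact h1

theorem SS.right_cancel {a b s : NN G} (hs : s ∈ SS G) (h : a * s = b * s) : a = b := by
  refine Subtype.ext (ContinuousLinearMap.ext fun x => ?_)
  have h1 : cl (img s.1 ⊤) ≤ pre (a.1 - b.1) ⊥ := cl_img_le (cls_bot.pre _) fun y _ =>
    mem_ker_sub.2 (congrArg (fun T : NN G => T.1 y) h)
  rw [dense_of_inj hs] at h1
  exact mem_ker_sub.1 (h1 Submodule.mem_top)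

theorem SS.left_cancel {a b s : NN G} (hs : s ∈ SS G) (h : s * a = s * b) : a = b := by
  refine Subtype.ext (ContinuousLinearMap.ext fun x => sub_eq_zero.1 (hs _ ?_))
  rw [map_sub, sub_eq_zero]
  exact congrArg (fun T : NN G => T.1 x) h

theorem right_ore (r : NN G) {s : NN G} (hs : s ∈ SS G) :
    ∃ s' ∈ SS G, ∃ r' : NN G, r * s' = s * r' := by
  let P := fp r.1 s.1 ⊤ ⊤
  have hc : Cls P := ((cls_top.pre _).inf (cls_top.pre _)).inf (cls_bot.pre _)
  have hi : Inv G P := inv_fp (NN.eqv r) (NN.eqv s) inv_top inv_top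
  let Q : L2 G →L[ℂ] L2 (G ⊕ G) := proj P ∘L push Sum.inl Sum.inl_injective
  have hQ : Eqv G Q := (eqv_proj hi).comp eqv_push_inl
  have hm : ∀ x, Q x ∈ P := fun x => cl_eq hc ▸ proj_mem P _
  refine ⟨⟨pl ∘L Q, eqv_pull_inl.comp hQ⟩, fun x hx => ?_, ⟨pr ∘L Q, eqv_pull_inr.comp hQ⟩,
    Subtype.ext (ContinuousLinearMap.ext fun x => (mem_fp.1 (hm x)).2.2)⟩
  have h1 : ⟪Q x, Q x⟫_ℂ = 0 := by
    have h2 : ⟪push Sum.inl Sum.inl_injective x, Q x⟫_ℂ = 0 := by
      rw [inner_push_left]
      change ⟪x, (pl ∘L Q) x⟫_ℂ = 0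
      rw [show (pl ∘L Q) x = 0 from hx, inner_zero_right]
    change ⟪proj P _, Q x⟫_ℂ = 0
    rw [inner_proj_left, proj_eq_self (le_cl _ (hm x))]
    exact h2
  have h3 : Q x = 0 := inner_self_eq_zero.1 h1
  have h4 := mem_cl_fp free_self free_self free_self cofin_self cofin_self (NN.eqv r) (NN.eqv s) cls_top
    inv_top cls_top inv_top (fun n _ => by rw [dense_of_inj hs]; trivial)
  have h5 : x ∈ (img pl P)ᗮ := by
    rintro _ ⟨F, hF, rfl⟩
    change ⟪pl F, x⟫_ℂ = 0
    rw [← inner_push_right, ← proj_eq_self (le_cl _ hF), inner_proj_left]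
    change ⟪F, Q x⟫_ℂ = 0
    rw [h3, inner_zero_right]
  exact inner_self_eq_zero.1 (inner_mem_orth (h4 Submodule.mem_top) h5)

theorem left_ore (r : NN G) {s : NN G} (hs : s ∈ SS G) :
    ∃ s' ∈ SS G, ∃ r' : NN G, s' * r = r' * s := by
  obtain ⟨s', hs', r', h⟩ := right_ore (NN.ad r) (ad_mem_SS hs)
  refine ⟨NN.ad s', ad_mem_SS hs', NN.ad r', ?_⟩
  have := congrArg NN.ad h
  rwa [NN.ad_mul, NN.ad_mul, NN.ad_ad, NN.ad_ad] at this

instance oreSS : OreLocalization.OreSet (SS G) where
  ore_right_cancel _ _ s h := ⟨1, by rw [SS.right_cancel s.2 h]⟩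
  oreNum r s := (left_ore r s.2).choose_spec.2.choose
  oreDenom r s := ⟨(left_ore r s.2).choose, (left_ore r s.2).choose_spec.1⟩
  ore_eq r s := (left_ore r s.2).choose_spec.2.choose_spec

variable (G)

/-- Affiliated operators. -/
def UU : Type u := OreLocalization (SS G) (NN G)

instance : Ring (UU G) := inferInstanceAs (Ring (OreLocalization (SS G) (NN G)))

/-- Affiliated vectors. -/
def MM : Type u := OreLocalization (SS G) (L2 G)

instance : AddCommGroup (MM G) := inferInstanceAs (AddCommGroup (OreLocalization (SS G) (L2 G)))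

instance : Module (UU G) (MM G) :=
  inferInstanceAs (Module (OreLocalization (SS G) (NN G)) (OreLocalization (SS G) (L2 G)))

variable {G}

/-- Bounded operators as affiliated operators. -/
def nu : NN G →+* UU G := OreLocalization.numeratorRingHom (S := SS G)

/-- Vectors as affiliated vectors. -/
def vec : L2 G →+ MM G :=
  AddMonoidHom.mk' (fun x => OreLocalization.oreDiv x (1 : SS G)) fun _ _ =>
    OreLocalization.add_oreDiv.symm

theorem nu_smul_vec (T : NN G) (x : L2 G) : nu T • vec x = vec (T.1 x) :=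
  OreLocalization.smul_div_one (S := SS G)

theorem nu_unit {s : NN G} (hs : s ∈ SS G) : IsUnit (nu s) :=
  OreLocalization.numerator_isUnit (⟨s, hs⟩ : SS G)

theorem vec_inj : Function.Injective (vec : L2 G → MM G) := fun x y h => by
  obtain ⟨u, v, h1, h2⟩ := OreLocalization.oreDiv_eq_iff.1 h
  have h3 : (u : NN G) = v := by simpa using h2
  subst h3
  refine (sub_eq_zero.1 (u.2 _ ?_)).symm
  rw [map_sub, sub_eq_zero]
  exact h1

theorem vec_eq_zero {x : L2 G} : vec x = 0 ↔ x = 0 := map_eq_zero_iff _ vec_inj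

theorem nu_inj : Function.Injective (nu : NN G → UU G) := fun a b h =>
  Subtype.ext (ContinuousLinearMap.ext fun x => vec_inj (by rw [← nu_smul_vec, ← nu_smul_vec, h]))

theorem mem_SS_of_unit {s : NN G} (h : IsUnit (nu s)) : s ∈ SS G := fun x hx => by
  rw [← vec_eq_zero, ← h.smul_eq_zero, nu_smul_vec, hx, map_zero]

theorem exists_left1 (a : UU G) : ∃ s ∈ SS G, ∃ n, nu s * a = nu n := by
  induction a using OreLocalization.ind with
  | _ n s =>
    refine ⟨s, s.2, n, ?_⟩
    exact OreLocalization.mul_cancel (S := SS G) (r := n) (s := s) (t := 1)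

theorem exists_right1 (a : UU G) : ∃ t ∈ SS G, ∃ m, a * nu t = nu m := by
  obtain ⟨s, hs, n, h⟩ := exists_left1 a
  obtain ⟨t, ht, m, h'⟩ := right_ore n hs
  refine ⟨t, ht, m, (nu_unit hs).mul_left_cancel ?_⟩
  rw [← mul_assoc, h, ← map_mul, ← map_mul, h']

/-- Common left denominators. -/
theorem exists_left {J : Type*} [Finite J] (a : J → UU G) :
    ∃ s ∈ SS G, ∃ n : J → NN G, ∀ j, nu s * a j = nu (n j) := by
  suffices h : ∀ t : Finset J, ∃ s ∈ SS G, ∀ j ∈ t, ∃ n, nu s * a j = nu n by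
    have := Fintype.ofFinite J
    obtain ⟨s, hs, h⟩ := h Finset.univ
    choose n hn using fun j => h j (Finset.mem_univ j)
    exact ⟨s, hs, n, hn⟩
  classical
  intro t
  induction t using Finset.induction_on with
  | empty => exact ⟨1, one_mem _, by simp⟩
  | insert i t _ ih =>
    obtain ⟨s, hs, h⟩ := ih
    obtain ⟨s', hs', n, h'⟩ := exists_left1 (nu s * a i)
    refine ⟨s' * s, mul_mem hs' hs, fun j hj => ?_⟩
    rcases Finset.mem_insert.1 hj with rfl | hj
    · exact ⟨n, by rw [map_mul, mul_assoc, h']⟩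
    · obtain ⟨n', h''⟩ := h j hj
      exact ⟨s' * n', by rw [map_mul, mul_assoc, h'', map_mul]⟩

/-- Common right denominators. -/
theorem exists_right {J : Type*} [Finite J] (a : J → UU G) :
    ∃ t ∈ SS G, ∃ m : J → NN G, ∀ j, a j * nu t = nu (m j) := by
  suffices h : ∀ t : Finset J, ∃ s ∈ SS G, ∀ j ∈ t, ∃ n, a j * nu s = nu n by
    have := Fintype.ofFinite J
    obtain ⟨s, hs, h⟩ := h Finset.univ
    choose n hn using fun j => h j (Finset.mem_univ j)
    exact ⟨s, hs, n, hn⟩
  classical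
  intro t
  induction t using Finset.induction_on with
  | empty => exact ⟨1, one_mem _, by simp⟩
  | insert i t _ ih =>
    obtain ⟨s, hs, h⟩ := ih
    obtain ⟨s', hs', n, h'⟩ := exists_right1 (a i * nu s)
    refine ⟨s * s', mul_mem hs hs', fun j hj => ?_⟩
    rcases Finset.mem_insert.1 hj with rfl | hj
    · exact ⟨n, by rw [map_mul, ← mul_assoc, h']⟩
    · obtain ⟨n', h''⟩ := h j hj
      exact ⟨n' * s', by rw [map_mul, ← mul_assoc, h'', map_mul]⟩

/-- Clearing a left denominator in an equation between vectors. -/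
theorem sum_smul_vec_eq_iff {J : Type*} [Fintype J] {a : J → UU G} {s : NN G} (hs : s ∈ SS G)
    {n : J → NN G} (h : ∀ j, nu s * a j = nu (n j)) (x : J → L2 G) (y : L2 G) :
    ∑ j, a j • vec (x j) = vec y ↔ ∑ j, (n j).1 (x j) = s.1 y := by
  rw [← (nu_unit hs).smul_left_cancel, Finset.smul_sum, nu_smul_vec, ← vec_inj.eq_iff, map_sum]
  simp only [smul_smul, h, nu_smul_vec]

theorem smul_vec_eq_iff {a : UU G} {s : NN G} (hs : s ∈ SS G) {n : NN G} (h : nu s * a = nu n)
    (x y : L2 G) : a • vec x = vec y ↔ n.1 x = s.1 y := by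
  rw [← (nu_unit hs).smul_left_cancel, nu_smul_vec, smul_smul, h, nu_smul_vec, vec_inj.eq_iff]

/-- An equivariant operator is determined by one column. -/
theorem NN.eq_zero {T : NN G} (h : T.1 (delta 1) = 0) : T = 0 :=
  Subtype.ext (ext_delta fun g => by
    have h1 := NN.eqv T g (delta 1)
    rw [act_delta, smul_eq_mul, mul_one, h, map_zero] at h1
    exact h1)

/-- An equivariant operator is determined by one row. -/
theorem NN.eq_zero' {T : NN G} (h : ∀ x, T.1 x 1 = 0) : T = 0 :=
  Subtype.ext (ContinuousLinearMap.ext fun x => lp.ext (funext fun g => by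
    have h1 := h (act g⁻¹ x)
    rw [NN.eqv T, act_apply, inv_inv, smul_eq_mul, mul_one] at h1
    exact h1))

instance : Nontrivial (UU G) := ⟨0, 1, fun h => by
  have h1 : (0 : NN G) = 1 := nu_inj (by rw [map_zero, map_one, h])
  have h2 : (0 : ℂ) = delta (1 : G) 1 := congrArg (fun T : NN G => T.1 (delta 1) 1) h1
  rw [delta_self] at h2
  exact zero_ne_one h2⟩

/-- Scalars. -/
def sc : ℂ →+* UU G := nu.comp (algebraMap ℂ (NN G))

theorem sc_def (c : ℂ) : (sc c : UU G) = nu (algebraMap ℂ (NN G) c) := rfl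

theorem sc_comm (c : ℂ) (a : UU G) : sc c * a = a * sc c := by
  obtain ⟨s, hs, n, h⟩ := exists_left1 a
  refine (nu_unit hs).mul_left_cancel ?_
  rw [← mul_assoc, ← mul_assoc, h, sc_def, ← map_mul, ← map_mul, ← Algebra.commutes,
    ← Algebra.commutes, map_mul, map_mul, mul_assoc, h]

theorem sc_smul_vec (c : ℂ) (x : L2 G) : (sc c : UU G) • vec x = vec (c • x) := by
  rw [sc_def, nu_smul_vec, Algebra.algebraMap_eq_smul_one]
  rfl

/-- Right translations. -/
def rho : G →* NN G where
  toFun g := ⟨rt g, fun h f => lp.ext (funext fun x => by simp [mul_assoc])⟩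
  map_one' := Subtype.ext (ContinuousLinearMap.ext fun f => lp.ext (funext fun x => by simp))
  map_mul' a b := Subtype.ext (ContinuousLinearMap.ext fun f => lp.ext (funext fun x => by
    change f (x * (a * b)) = f (x * a * b)
    rw [mul_assoc]))

@[simp] theorem rho_apply (g : G) (f : L2 G) (x : G) : (rho g).1 f x = f (x * g) := rfl

theorem rho_delta (g y : G) : (rho g).1 (delta y) = delta (y * g⁻¹) := by
  classical
  ext x
  simp [delta_apply, eq_mul_inv_iff_mul_eq]

theorem finCols_rho (g : G) : FinCols (rho g).1 :=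
  finCols_of_delta fun y => by rw [rho_delta]; exact finS_delta _

end Ore

end Pool.Agent.P.MP_0f25e6_al.VT
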