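import Pool.Agent.P.MP_0f25e6_al.VT.Defs
import Pool.Agent.P.MP_0f25e6_al.HR5

/-!
Statements of the steps of the proof.
-/

set_option autoImplicit false

open MulAction SemidirectProduct

noncomputable section

namespace Pool.Agent.P.MP_0f25e6_al.VT

universe u

open Sys

/-! ### Čech complexes -/

/-- Termwise exactness of a sequence of families. -/
def Ses {L E' E E'' I : Type u} [DivisionRing L] [AddCommGroup E'] [Module L E'] [AddCommGroup E]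
    [Module L E] [AddCommGroup E''] [Module L E''] (f : E' →ₗ[L] E) (g : E →ₗ[L] E'')
    (B' : Finset I → Submodule L E') (B : Finset I → Submodule L E)
    (B'' : Finset I → Submodule L E'') : Prop :=
  Monotone B' ∧ Monotone B ∧ Monotone B'' ∧ ∀ S : Finset I, S.Nonempty →
    (∀ x ∈ B' S, f x = 0 → x = 0) ∧ (∀ x ∈ B' S, f x ∈ B S ∧ g (f x) = 0) ∧
    (∀ x ∈ B S, g x = 0 → ∃ y ∈ B' S, f y = x) ∧ (∀ x ∈ B S, g x ∈ B'' S) ∧
    ∀ y ∈ B'' S, ∃ x ∈ B S, g x = y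

def S_SESa : Prop :=
  ∀ (L E' E E'' I : Type u) [DivisionRing L] [AddCommGroup E'] [Module L E'] [AddCommGroup E]
    [Module L E] [AddCommGroup E''] [Module L E''] [DecidableEq I] (f : E' →ₗ[L] E)
    (g : E →ₗ[L] E'') (B' : Finset I → Submodule L E') (B : Finset I → Submodule L E)
    (B'' : Finset I → Submodule L E''), Ses f g B' B B'' →
    (Tame B → Tame B'' → Tame B') ∧ (Acyc B → Acyc B'' → Acyc B')

def S_SESb : Prop :=
  ∀ (L E' E E'' I : Type u) [DivisionRing L] [AddCommGroup E'] [Module L E'] [AddCommGroup E]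
    [Module L E] [AddCommGroup E''] [Module L E''] [DecidableEq I] (f : E' →ₗ[L] E)
    (g : E →ₗ[L] E'') (B' : Finset I → Submodule L E') (B : Finset I → Submodule L E)
    (B'' : Finset I → Submodule L E''), Ses f g B' B B'' →
    Tame B' → Tame B → Tame B'' → chi B = chi B' + chi B''

def S_QI : Prop :=
  ∀ (L E I : Type u) [DivisionRing L] [AddCommGroup E] [Module L E] [DecidableEq I]
    (B' B : Finset I → Submodule L E) (k : I), Monotone B' → Monotone B → B' ≤ B → B ∅ = ⊥ →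
    (∀ S, B (insert k S) ≤ B S ⊔ B' (insert k S)) → (∀ S, B S ⊓ B' (insert k S) ≤ B' S) →
    QIso B' B

def S_QIP : Prop :=
  ∀ (L E I : Type u) [DivisionRing L] [AddCommGroup E] [Module L E] [DecidableEq I]
    (B' B : Finset I → Submodule L E), Monotone B' → Monotone B → QIso B' B →
    (Tame B' ↔ Tame B) ∧ (Acyc B' ↔ Acyc B) ∧ chi B' = chi B ∧
      ∀ B'' : Finset I → Submodule L E, QIso B'' B' → QIso B'' B

def S_CONST : Prop :=
  ∀ (L E I : Type u) [DivisionRing L] [AddCommGroup E] [Module L E] [Module.Finite L E]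
    [DecidableEq I] [Nonempty I] (B : Finset I → Submodule L E), (∀ S, S.Nonempty → B S = ⊤) →
    Tame B ∧ chi B = Module.finrank L E

def S_TOP : Prop :=
  ∀ (L E I : Type u) [DivisionRing L] [AddCommGroup E] [Module L E] [Fintype I] [DecidableEq I]
    [Nonempty I] (B : Finset I → Submodule L E), Monotone B → B ∅ = ⊥ →
    (Tame B → ∃ t : Finset E, (∀ x ∈ t, x ∈ B Finset.univ) ∧
      B Finset.univ ≤ Submodule.span L (t : Set E) ⊔ ⨆ j, B (Finset.univ.erase j)) ∧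
    (Acyc B → B Finset.univ ≤ ⨆ j, B (Finset.univ.erase j))

def S_HB : Prop :=
  ∀ (L E I : Type u) [DivisionRing L] [AddCommGroup E] [Module L E] [DecidableEq I]
    (B : Finset I → Submodule L E) (n : ℕ),
    (∃ (J : Type u) (z : J → Co I E n), HBasis B n z) ∧
    ∀ (J : Type u) (z : J → Co I E n), HBasis B n z →
      (Module.Finite L (Hn B n) ↔ Finite J) ∧ hd B n = Nat.card J ∧
        (Zn B n ≤ Bn B n ↔ IsEmpty J)

/-- Transport of structure along a semilinear injection and a bijection of index sets. -/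
def S_TR : Prop :=
  ∀ (D D' V V' I I' : Type u) [DivisionRing D] [DivisionRing D'] [AddCommGroup V] [Module D V]
    [AddCommGroup V'] [Module D' V'] [DecidableEq I] [DecidableEq I'] (j : D →+* D')
    (L : Subfield D) (L' : Subfield D') (f : V →+ V') (π : I ≃ I')
    (G : Finset I → AddSubgroup V) (G' : Finset I' → AddSubgroup V'),
    L' = L.map j → Function.Injective f → (∀ d ∈ L, ∀ v, f (d • v) = j d • f v) →
    (∀ S, Stab L (G S)) → (∀ S : Finset I, G' (S.map π.toEmbedding) = (G S).map f) →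
    (Tame (spF L G) ↔ Tame (spF L' G')) ∧ (Acyc (spF L G) ↔ Acyc (spF L' G')) ∧
      chi (spF L G) = chi (spF L' G')

/-! ### Sums over orbits -/

def S_OS : Prop :=
  (∀ (Γ Y W : Type u) [Group Γ] [MulAction Γ Y] [MulAction Γ W] (f : Y × W → ℤ),
    (∀ (g : Γ) p, f (g • p) = f p) → CofOrb Γ (fun p => f p ≠ 0) →
    osz Γ f = osz Γ fun y => osz (stabilizer Γ y) fun w => f (y, w)) ∧
  (∀ (Γ X X' : Type u) [Group Γ] [MulAction Γ X] [MulAction Γ X'] (i : X' → X) (f : X → ℤ)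
    (f' : X' → ℤ), (∀ (g : Γ) x, i (g • x) = g • i x) → (∀ (g : Γ) x, f (g • x) = f x) →
    (∀ (g : Γ) x, f' (g • x) = f' x) → (∀ x, f' x ≠ 0 → f (i x) = f' x) →
    Set.InjOn i {x | f' x ≠ 0} → (∀ x, f x ≠ 0 → ∃ y, f' y ≠ 0 ∧ i y = x) →
    osz Γ f = osz Γ f') ∧
  (∀ (Γ X : Type u) [Group Γ] [MulAction Γ X] (f f' : X → ℤ),
    (∀ (g : Γ) x, f (g • x) = f x) → (∀ (g : Γ) x, f' (g • x) = f' x) →
    CofOrb Γ (fun x => f x ≠ 0) → CofOrb Γ (fun x => f' x ≠ 0) →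
    osz Γ (f + f') = osz Γ f + osz Γ f') ∧
  (∀ (Γ X : Type u) [Group Γ] [MulAction Γ X] (f : X → ℤ) (a : ℤ),
    osz Γ (fun x => a * f x) = a * osz Γ f) ∧
  (∀ (Γ Y W : Type u) [Group Γ] [MulAction Γ Y] [MulAction Γ W] (P : Y × W → Prop) (y : Y),
    (∀ (g : Γ) p, P p → P (g • p)) → CofOrb Γ P → CofOrb (stabilizer Γ y) fun w => P (y, w))

def S_OD : Prop :=
  ∀ (Γ G X : Type u) [Group Γ] [Group G] [MulAction Γ X] [MulAction G X] (inc : Γ →* G)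
    (f : X → ℤ), inc.range.Normal → inc.range.FiniteIndex →
    (∀ (h : Γ) (x : X), inc h • x = h • x) → (∀ (g : G) x, f (g • x) = f x) →
    CofOrb Γ (fun x => f x ≠ 0) → (∀ x, (inc.range.relIndex (stabilizer G x) : ℤ) ∣ f x) →
    (inc.range.index : ℤ) ∣ osz Γ f

/-! ### Right linear algebra over a subfield -/

/-- A right basis of `M` modulo `Y` over the subfield `L`, with coordinates defined on `D`. -/
def S_RB : Prop :=
  ∀ (D : Type u) [DivisionRing D] (L : Subfield D) (Y M : AddSubgroup D), Y ≤ M →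
    (∀ y ∈ Y, ∀ κ ∈ L, y * κ ∈ Y) → (∀ y ∈ M, ∀ κ ∈ L, y * κ ∈ M) →
    ∃ (J : Type u) (a : J → D) (l : J → D →+ D), (∀ j, a j ∈ M) ∧ (∀ j d, l j d ∈ L) ∧
      (∀ j d, ∀ κ ∈ L, l j (d * κ) = l j d * κ) ∧ (∀ j, l j (a j) = 1) ∧
      (∀ j j', j ≠ j' → l j' (a j) = 0) ∧ (∀ j, ∀ y ∈ Y, l j y = 0) ∧
      ∀ d ∈ M, {j | l j d ≠ 0}.Finite ∧ d - ∑ᶠ j, a j * l j d ∈ Y

/-- Right linear forms with prescribed values. -/
def S_REXT : Prop :=
  ∀ (D J : Type u) [DivisionRing D] (L : Subfield D) (p q : J → D), (∀ j, q j ∈ L) →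
    (∀ (t : Finset J) (κ : J → D), (∀ j, κ j ∈ L) → ∑ j ∈ t, p j * κ j = 0 →
      ∑ j ∈ t, q j * κ j = 0) →
    ∃ l : D →+ D, (∀ d, l d ∈ L) ∧ (∀ d, ∀ κ ∈ L, l (d * κ) = l d * κ) ∧ ∀ j, l (p j) = q j

def S_LDC : Prop := ∀ s : Sys.{u}, s.LD → s.LDC

def S_INT : Prop :=
  ∀ s : Sys.{u}, s.LDC → ∀ A K : Subgroup s.Γ, s.fld A ⊓ s.fld K ≤ s.fld (A ⊓ K)

def S_SPL : Prop := ∀ r, MD.{u} r → SPL.{u} (r + 1)

/-! ### Induced families -/

def S_IND1 : Prop :=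
  ∀ (s : Sys.{u}) (V W I : Type u) [AddCommGroup V] [Module s.D V] [MulAction s.Γ W] [Fintype I]
    [DecidableEq I] (A : I → Subgroup s.Γ) (F : s.Fam0 V W) (P : I → AddSubgroup V),
    s.Gen → Nonempty (s.Spl W A) → (∀ i, Stab (s.fld (A i)) (P i)) →
    QIso (spF (s.fld (⨅ i, A i)) fun S => s.T (⨅ i, A i) fun w => F.F w ⊓ ⨆ i ∈ S, P i)
      (spF (s.fld (⨅ i, A i)) fun S => s.T ⊤ F.F ⊓ ⨆ i ∈ S, s.T (A i) fun _ : W => P i)

/-- The hypotheses on a family that is induced from the stabilisers in `A`. -/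
structure IndData (s : Sys.{u}) {V W I : Type u} [AddCommGroup V] [Module s.D V]
    [MulAction s.Γ W] (A : Subgroup s.Γ) (G : W → Finset I → AddSubgroup V) : Prop where
  mono : ∀ w, Monotone (G w)
  stab : ∀ w S, Stab (s.fld (A ⊓ stabilizer s.Γ w)) (G w S)
  eqv : ∀ g ∈ A, ∀ w S, ∀ v ∈ G w S, s.ι g • v ∈ G (g • w) S

/-- Bases of the cohomology at orbit representatives give a basis for the induced family. -/
def S_IND2a : Prop :=
  ∀ (s : Sys.{u}) (V W I : Type u) [AddCommGroup V] [Module s.D V] [MulAction s.Γ W] [Fintype I]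
    [DecidableEq I] (A : Subgroup s.Γ) (G : W → Finset I → AddSubgroup V), s.LDC →
    IndData s A G →
    ∀ (n : ℕ) (J : orbitRel.Quotient A W → Type u) (z : ∀ q, J q → Co I V n),
      (∀ q, HBasis (spF (s.fld (A ⊓ stabilizer s.Γ q.out)) (G q.out)) n (z q)) →
      HBasis (spF (s.fld A) fun S => s.T A fun w => G w S) n
        fun (p : Σ q, J q) τ => s.t p.1.out (z p.1 p.2 τ)

def S_IND2 : Prop :=
  ∀ (s : Sys.{u}) (V W I : Type u) [AddCommGroup V] [Module s.D V] [MulAction s.Γ W] [Fintype I]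
    [DecidableEq I] (A : Subgroup s.Γ) (G : W → Finset I → AddSubgroup V), s.LDC →
    IndData s A G →
    (Tame (spF (s.fld A) fun S => s.T A fun w => G w S) ↔
      (∀ w, Tame (spF (s.fld (A ⊓ stabilizer s.Γ w)) (G w))) ∧
        CofOrb A fun w => ¬Acyc (spF (s.fld (A ⊓ stabilizer s.Γ w)) (G w))) ∧
    (Acyc (spF (s.fld A) fun S => s.T A fun w => G w S) →
      ∀ w, Acyc (spF (s.fld (A ⊓ stabilizer s.Γ w)) (G w))) ∧
    (Tame (spF (s.fld A) fun S => s.T A fun w => G w S) →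
      chi (spF (s.fld A) fun S => s.T A fun w => G w S) =
        osz A fun w => chi (spF (s.fld (A ⊓ stabilizer s.Γ w)) (G w)))

/-! ### Lamps -/

def S_CL0 : Prop :=
  ∀ (s : Sys.{u}) (V Vt E : Type u) [AddCommGroup V] [Module s.D V] [MulAction s.Γ Vt]
    [MulAction s.Γ E] (Tr : HN.TreeData s.Γ Vt E) (A : Subgroup s.Γ) (P : AddSubgroup V) (v₀ : Vt),
    Stab (s.fld A) P → ∀ ε ∈ s.T A fun _ : Vt => P,
      ∃ η ∈ s.T A fun _ : E => P, bd V Tr η = ε - s.t v₀ (s.mu Vt V ε)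

/-- Boundary maps of trees are injective. -/
def Sys.CL1 (s : Sys.{u}) : Prop :=
  ∀ (V Vt E : Type u) [AddCommGroup V] [Module s.D V] [MulAction s.Γ Vt] [MulAction s.Γ E]
    (Tr : HN.TreeData s.Γ Vt E), Function.Injective (bd V Tr)

def S_DER : Prop :=
  ∀ (s s' : Sys.{u}) (W : Type u) [MulAction s.Γ W]
    (φ : s'.Γ ≃* FreeGroup (HN.Tw W ℕ) ⋊[TP.actF s.Γ (HN.Tw W ℕ)] s.Γ) (j : s.D →+* s'.D),
    (∀ c, j (algebraMap ℂ s.D c) = algebraMap ℂ s'.D c) →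
    (∀ g, j (s.ι g) = s'.ι (φ.symm (inr g))) → s.Gen → s'.Gen → s'.CL1 → Nonempty (s.Lamp s' W)

def S_SUP0 : Prop :=
  ∀ (s s' : Sys.{u}) (W : Type u) [MulAction s.Γ W] (𝓛 : s.Lamp s' W),
    (∀ (i : ℕ) (A : Subgroup s.Γ), ∀ a ∈ s'.fld (A.comap 𝓛.p),
      𝓛.der i a ∈ s'.T (A.comap 𝓛.p) fun _ => (s'.fld (A.comap 𝓛.p)).toAddSubgroup) ∧
    (s'.Gen → ∀ d, ∃ N, ∀ i, N ≤ i → 𝓛.der i d = 0)

def S_BC : Prop :=
  ∀ (s s' : Sys.{u}) (W : Type u) [MulAction s.Γ W] (𝓛 : s.Lamp s' W),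
    (∀ (V : Type u) [AddCommGroup V] [Module s.D V] [Module.Finite s.D V],
      ∃ n : ℕ, Nonempty (𝓛.BC V (Fin n → s'.D))) ∧
    (∃ β : 𝓛.BC s.D s'.D, ∀ d, β.f d = 𝓛.j d) ∧
    ∀ (V V' : Type u) [AddCommGroup V] [Module s.D V] [AddCommGroup V'] [Module s'.D V']
      (β : 𝓛.BC V V'), Function.Injective β.f

def S_KEY : Prop :=
  ∀ (s s' : Sys.{u}) (W : Type u) [MulAction s.Γ W] (𝓛 : s.Lamp s' W) (V V' : Type u)
    [AddCommGroup V] [Module s.D V] [AddCommGroup V'] [Module s'.D V'] (β : 𝓛.BC V V'), s'.Gen →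
    ∃ 𝒟 : ℕ → V' →+ s'.Ten 𝓛.W' V', (∀ ε, ∃ N, ∀ i, N ≤ i → 𝒟 i (𝓛.mu V' i ε) = ε) ∧
      ∀ (i : ℕ) (A : Subgroup s.Γ) (P : AddSubgroup V), ∀ v ∈ β.til A P,
        𝒟 i v ∈ s'.T (A.comap 𝓛.p) fun _ => β.til A P

/-- Sums of extended subspaces meet the original space in the original sums. -/
def RL (n : ℕ) : Prop :=
  ∀ (s s' : Sys.{u}) (W : Type u) [MulAction s.Γ W] (𝓛 : s.Lamp s' W) (V V' : Type u)
    [AddCommGroup V] [Module s.D V] [AddCommGroup V'] [Module s'.D V'] (β : 𝓛.BC V V'),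
    s.Gen → s'.Good → ∀ (I : Type u) [Finite I] (A : I → Subgroup s.Γ) (P : I → AddSubgroup V),
    {i | A i ≠ ⊤}.ncard ≤ n → (∀ i, Stab (s.fld (A i)) (P i)) → ∀ (S : Finset I) (v : V),
    β.f v ∈ ⨆ i ∈ S, β.til (A i) (P i) → v ∈ ⨆ i ∈ S, P i

def S_RL : Prop := ∀ n, SPL.{u} n → RL.{u} n

def S_FAMS : Prop :=
  (∀ (s : Sys.{u}) (V W : Type u) [AddCommGroup V] [Module s.D V] [MulAction s.Γ W]
    (𝓕 : s.Fam V W) (m : ℕ), ∃ 𝓖 : s.Fam (Fin m → V) W, 𝓖.star = 𝓕.star ∧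
      ∀ w v, v ∈ 𝓖.F w ↔ ∀ i, v i ∈ 𝓕.F w) ∧
  (∀ (s : Sys.{u}) (V V₂ W : Type u) [AddCommGroup V] [Module s.D V] [AddCommGroup V₂]
    [Module s.D V₂] [MulAction s.Γ W] (𝓕 : s.Fam V W) (f : V →ₗ[s.D] V₂), Function.Surjective f →
    ∃ 𝓖 : s.Fam V₂ W, 𝓖.star = 𝓕.star ∧ ∀ w, 𝓖.F w = (𝓕.F w).map f.toAddMonoidHom) ∧
  ∀ (s s' : Sys.{u}) (W₀ : Type u) [MulAction s.Γ W₀] (𝓛 : s.Lamp s' W₀) (V V' W : Type u)
    [AddCommGroup V] [Module s.D V] [AddCommGroup V'] [Module s'.D V'] (β : 𝓛.BC V V')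
    [MulAction s.Γ W] [MulAction s'.Γ W] (𝓕 : s.Fam V W), s'.Gen →
    (∀ (g : s'.Γ) (w : W), g • w = 𝓛.p g • w) →
    ∃ 𝓖 : s'.Fam V' W, 𝓖.star = 𝓕.star ∧ ∀ w, 𝓖.F w = β.til (stabilizer s.Γ w) (𝓕.F w)

/-- Invariance of the cohomology of the families under the group. -/
def S_INV : Prop :=
  ∀ (s : Sys.{u}) (V W I : Type u) [AddCommGroup V] [Module s.D V] [MulAction s.Γ W]
    [DecidableEq I] (𝓕 : s.Fam V W) (g : s.Γ),
    (∀ c : I → W, (Tame (𝓕.Bc (g • c)) ↔ Tame (𝓕.Bc c)) ∧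
      (Acyc (𝓕.Bc (g • c)) ↔ Acyc (𝓕.Bc c)) ∧ chi (𝓕.Bc (g • c)) = chi (𝓕.Bc c)) ∧
    ∀ p : W × (I → W), (Tame (𝓕.Bp (g • p)) ↔ Tame (𝓕.Bp p)) ∧
      (Acyc (𝓕.Bp (g • p)) ↔ Acyc (𝓕.Bp p)) ∧ chi (𝓕.Bp (g • p)) = chi (𝓕.Bp p)

/-- Comparison of the two kinds of families, and the constant family. -/
def S_QC : Prop :=
  ∀ (s : Sys.{u}) (V W I : Type u) [AddCommGroup V] [Module s.D V] [MulAction s.Γ W]
    [DecidableEq I] (𝓕 : s.Fam V W),
    (∀ (k : I) (c : I → W) (w : W), c k = 𝓕.star →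
      (Tame (𝓕.Bc (Function.update c k w)) ↔ Tame (𝓕.Bp (w, c))) ∧
      (Acyc (𝓕.Bc (Function.update c k w)) ↔ Acyc (𝓕.Bp (w, c))) ∧
      chi (𝓕.Bc (Function.update c k w)) = chi (𝓕.Bp (w, c))) ∧
    (Nonempty I → s.Gen → Tame (𝓕.Bc fun _ : I => 𝓕.star) ∧
      chi (𝓕.Bc fun _ : I => 𝓕.star) = Module.finrank s.D V)

/-! ### The main induction -/

/-- The elements sent into the sums by all the maps `μ i`, `i ∈ J`. -/
def Sys.Fam.bm {s : Sys.{u}} {V W E I : Type u} [AddCommGroup V] [Module s.D V] [MulAction s.Γ W]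
    [AddCommGroup E] [Module s.D E] (𝓕 : s.Fam V W) (μ : ℕ → E →ₗ[s.D] V) (J : Set ℕ) (c : I → W)
    (S : Finset I) : AddSubgroup E := ⨅ i ∈ J, (𝓕.sum c S).comap (μ i).toAddMonoidHom

/-- Finiteness for the families `bm` with `J = {i < m}` (`m` finite) or `J = ℕ` (`m = ⊤`). -/
def BM (n : ℕ) (m : ℕ∞) : Prop :=
  ∀ (s : Sys.{u}), s.Good → ∀ (V W E : Type u) [AddCommGroup V] [Module s.D V]
    [Module.Finite s.D V] [MulAction s.Γ W] [AddCommGroup E] [Module s.D E] [Module.Finite s.D E]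
    (𝓕 : s.Fam V W) (μ : ℕ → E →ₗ[s.D] V), (∀ ε, (∀ i : ℕ, (i : ℕ∞) < m → μ i ε = 0) → ε = 0) →
    ∀ (I : Type u) [Fintype I] [DecidableEq I] [Nonempty I],
    (∀ c : I → W, 𝓕.act c ≤ n →
      Tame (spF (s.fld (stabilizer s.Γ c)) (𝓕.bm μ {i | (i : ℕ∞) < m} c))) ∧
    CofOrb s.Γ fun c : I → W => 𝓕.act c ≤ n ∧
      ¬Acyc (spF (s.fld (stabilizer s.Γ c)) (𝓕.bm μ {i | (i : ℕ∞) < m} c))

def S_BM : Prop := ∀ n, FIN.{u} n → ∀ m : ℕ, BM.{u} n m

def S_STAB : Prop := ∀ n, (∀ m : ℕ, BM.{u} n m) → BM.{u} n ⊤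

def S_FINP : Prop := ∀ n, BM.{u} n ⊤ → SPL.{u} n → RL.{u} n → FINP.{u} n

def S_FINS : Prop := FIN.{u} 0 ∧ ∀ n, FINP.{u} n → FIN.{u} (n + 1)

def S_MD : Prop := ∀ r, FINP.{u} (r + 1) → MD.{u} r → RL.{u} (r + 1) → MD.{u} (r + 1)

/-! ### The Euler characteristic -/

/-- One step of the Euler characteristic formula. -/
def EULER : Prop :=
  ∀ (s : Sys.{u}), s.Good → ∀ (V W I : Type u) [AddCommGroup V] [Module s.D V]
    [Module.Finite s.D V] [MulAction s.Γ W] [Fintype I] [DecidableEq I] [Nonempty I]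
    (𝓕 : s.Fam V W) (𝒞 : Cells 𝓕 I) (k : I) (c : I → W), c k = 𝓕.star →
    chi (𝓕.Bc c) =
      (osz (stabilizer s.Γ c) fun v => chi (𝓕.Bc (Function.update c k (𝒞.iv k v)))) -
        osz (stabilizer s.Γ c) fun e => chi (𝓕.Bc (Function.update c k (𝒞.ie k e)))

def S_EULER : Prop := (∀ n, FIN.{u} n) → (∀ n, FINP.{u} n) → (∀ n, SPL.{u} n) → EULER.{u}

/-- The dimension is the signed sum of the local Euler characteristics. -/
def SUM : Prop :=
  ∀ (s : Sys.{u}), s.Good → ∀ (V W I : Type u) [AddCommGroup V] [Module s.D V]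
    [Module.Finite s.D V] [MulAction s.Γ W] [Fintype I] [DecidableEq I] [Nonempty I]
    (𝓕 : s.Fam V W) (𝒞 : Cells 𝓕 I), (Module.finrank s.D V : ℤ) = osz s.Γ 𝒞.wt

def S_SUM : Prop := (∀ n, FIN.{u} n) → EULER.{u} → SUM.{u}

/-- The family and the cells are equivariant under the overgroup `G`. -/
structure Equi {s : Sys.{u}} {V W I G : Type u} [AddCommGroup V] [Module s.D V] [MulAction s.Γ W]
    [Group G] [DistribMulAction G V] [MulAction G W] [MulAction G I] (inc : s.Γ →* G)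
    {𝓕 : s.Fam V W} (𝒞 : Cells 𝓕 I) : Prop where
  incW : ∀ (h : s.Γ) (w : W), inc h • w = h • w
  incI : ∀ (h : s.Γ) (i : I), inc h • i = i
  F : ∀ (g : G) w, ∀ v ∈ 𝓕.F w, g • v ∈ 𝓕.F (g • w)
  lab : ∀ (g : G) w i b, 𝒞.lab w = some (i, b) → 𝒞.lab (g • w) = some (g • i, b)

def S_SYM : Prop :=
  (∀ n, FIN.{u} n) → ∀ (s : Sys.{u}), s.Good → ∀ (V W I G : Type u) [AddCommGroup V] [Module s.D V]
    [Module.Finite s.D V] [MulAction s.Γ W] [Fintype I] [DecidableEq I] [Nonempty I] [Group G]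
    [DistribMulAction G V] [MulAction G W] [MulAction G I] (inc : s.Γ →* G) (𝒢 : s.GS G inc)
    (𝓕 : s.Fam V W) (𝒞 : Cells 𝓕 I), inc.range.Normal → inc.range.FiniteIndex → 𝒢.Semi V →
    Equi inc 𝒞 → (∀ c, 𝒞.IsSec c → 𝒢.DIV (secStab G c)) → (inc.range.index : ℤ) ∣ osz s.Γ 𝒞.wt

def S_DIV : Prop :=
  ∀ (s : Sys.{u}) (G : Type u) [Group G] (inc : s.Γ →* G) (𝒢 : s.GS G inc) (B : Subgroup G),
    inc.range.Normal → inc.range.FiniteIndex → 𝒢.NZ B → 𝒢.DIV B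

/-- `V` is presented by the generators `y j` and the rows of `A`. -/
structure Pres {s : Sys.{u}} {V G : Type u} [AddCommGroup V] [Module s.D V] [Group G]
    [DistribMulAction G V] (inc : s.Γ →* G) {m n : ℕ} (A : Fin m → Fin n → G →₀ ℂ)
    (y : Fin n → V) : Prop where
  span : Submodule.span s.D {v | ∃ (g : G) (j : Fin n), v = g • y j} = ⊤
  rel : ∀ (g : G) i, ∑ j, ∑ k ∈ (A i j).support, algebraMap ℂ s.D (A i j k) • (g * k) • y j = 0
  univ : ∀ (M : Type u) [AddCommGroup M] [Module s.D M] (ψ : G → Fin n → M),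
    (∀ h g j, ψ (inc h * g) j = s.ι h • ψ g j) →
    (∀ g i, ∑ j, ∑ k ∈ (A i j).support, algebraMap ℂ s.D (A i j k) • ψ (g * k) j = 0) →
    ∃ Ψ : V →ₗ[s.D] M, ∀ g j, Ψ (g • y j) = ψ g j

def S_VMOD : Prop :=
  ∀ (s : Sys.{u}) (G : Type u) [Group G] (inc : s.Γ →* G) (𝒢 : s.GS G inc) (m n : ℕ)
    (A : Fin m → Fin n → G →₀ ℂ), Function.Injective inc → inc.range.FiniteIndex →
    ∃ (V : Type u) (_ : AddCommGroup V) (_ : Module s.D V) (_ : Module.Finite s.D V)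
      (_ : DistribMulAction G V) (y : Fin n → V), 𝒢.Semi V ∧ Pres inc A y ∧
      Module.finrank s.D V + Module.finrank s.D (𝒢.Rel A) = inc.range.index * n

def S_FAM : Prop :=
  ∀ (s : Sys.{u}) (V G : Type u) [AddCommGroup V] [Module s.D V] [Module.Finite s.D V] [Group G]
    [DistribMulAction G V] (inc : s.Γ →* G) (𝒢 : s.GS G inc) (m n : ℕ)
    (A : Fin m → Fin n → G →₀ ℂ) (y : Fin n → V) (P : PT G), s.Gen → s.CL1 → inc.range.Normal →
    inc.range.FiniteIndex → 𝒢.Semi V → Pres inc A y → (∀ (h : s.Γ) (i : P.I), inc h • i = i) →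
    ∃ (W : Type u) (_ : MulAction s.Γ W) (_ : MulAction G W) (𝓕 : s.Fam V W) (𝒞 : Cells 𝓕 P.I),
      Equi inc 𝒞 ∧ ∀ c, 𝒞.IsSec c → ∃ c', P.IsSec c' ∧ secStab G c = secStab G c'

/-! ### The analytic input and the final statements -/

/-- The kernel of a matrix acting by right convolution. -/
def IsKer {G : Type u} [Group G] {m n : ℕ} (A : Fin m → Fin n → G →₀ ℂ)
    (W : Submodule ℂ (L2 (HN.Tw G (Fin n)))) : Prop :=
  ∀ f, f ∈ W ↔ ∀ (g : G) i, ∑ j, ∑ k ∈ (A i j).support, A i j k * f ⟨g * k, j⟩ = 0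

/-- The analytic input. -/
def AN : Prop :=
  ∀ (G : Type u) [Group G] (H : Subgroup G), H.Normal → H.FiniteIndex → HR.Full H →
    ∃ (s : Sys.{u}) (inc : s.Γ →* G), Function.Injective inc ∧ inc.range = H ∧ s.Good ∧ s.CL1 ∧
      ∃ 𝒢 : s.GS G inc, (∀ B : Subgroup G, HN.SAC B → 𝒢.NZ B) ∧
        ∀ (m n : ℕ) (A : Fin m → Fin n → G →₀ ℂ) (W : Submodule ℂ (L2 (HN.Tw G (Fin n)))),
          IsKer A W →
          H.index * HN.edim G W + Module.finrank s.D (𝒢.Rel A) = ((H.index * n : ℕ) : ENNReal)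

def S_AN : Prop := S_LDC.{u} → S_DER.{u} → AN.{u}

def S_RSAC : Prop :=
  ∀ (G : Type u) [Group G], (∀ (m n : ℕ) (A : Fin m → Fin n → G →₀ ℂ)
    (W : Submodule ℂ (L2 (HN.Tw G (Fin n)))), IsKer A W → ∃ d : ℕ, HN.edim G W = d) → HN.SAC G

/-- Groups that permute finitely many trees. -/
def PPT : Prop :=
  ∀ (G : Type u) [Group G] (H : Subgroup G), H.Normal → H.FiniteIndex → HR.Full H →
    ∀ P : PT G, (∀ h ∈ H, ∀ i : P.I, h • i = i) →
    (∀ c, P.IsSec c → HN.SAC (secStab G c)) → HN.SAC G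

end Pool.Agent.P.MP_0f25e6_al.VT
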