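import Pool.Agent.P.MP_0f25e6_al.VT.AnOre
import Pool.Agent.P.MP_0f25e6_al.VT.Spec

/-!
Statements of the steps of the analytic part.
-/

set_option autoImplicit false

open scoped InnerProductSpace ENNReal
open MulAction

noncomputable section

namespace Pool.Agent.P.MP_0f25e6_al.VT

universe u

open HN HR Sys

section Co

variable {Y J : Type*}

/-- The coordinate `j` of a vector valued function. -/
def co (j : J) : L2 (Tw Y J) →L[ℂ] L2 Y := pull _ (tw_inj fun _ => j)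

@[simp] theorem co_apply (j : J) (f : L2 (Tw Y J)) (y : Y) : co j f y = f ⟨y, j⟩ := rfl

theorem finCols_co (j : J) : FinCols (co j : L2 (Tw Y J) →L[ℂ] L2 Y) := finCols_pull _ _

theorem ext_co {f g : L2 (Tw Y J)} (h : ∀ j, co j f = co j g) : f = g :=
  lp.ext (funext fun p => congrArg (fun x : L2 Y => x p.y) (h p.k))

theorem co_stack {W : Type*} [Fintype J] (T : J → L2 W →L[ℂ] L2 Y) (f : L2 W) (j : J) :
    co j (stack T f) = T j f := lp.ext (funext fun y => stack_apply T f y j)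

theorem eqv_co {G : Type*} [Group G] [MulAction G Y] (j : J) :
    Eqv G (co j : L2 (Tw Y J) →L[ℂ] L2 Y) := eqv_pull _ fun _ _ => rfl

end Co

section Graph

variable {G : Type u} [Group G] {J : Type*}

/-- The joint graph of a tuple of affiliated operators over the coordinate `j₀`. -/
def Jg (a : J → UU G) (j₀ : J) : Submodule ℂ (L2 (Tw G J)) where
  carrier := {F | ∀ j, a j • vec (co j₀ F) = vec (co j F)}
  add_mem' ha hb j := by rw [map_add, map_add, map_add, map_add, smul_add, ha j, hb j]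
  zero_mem' j := by simp only [map_zero, smul_zero]
  smul_mem' c F h j := by
    simp only [map_smul, ← sc_smul_vec]
    rw [← h j, smul_smul, smul_smul, sc_comm]

theorem mem_Jg {a : J → UU G} {j₀ : J} {F : L2 (Tw G J)} :
    F ∈ Jg a j₀ ↔ ∀ j, a j • vec (co j₀ F) = vec (co j F) := Iff.rfl

/-- The graph of `a` is rational. -/
def QR (a : UU G) : Prop := Rat G (Jg ![1, a] 0)

variable {D : Type*} [DivisionRing D] [Fintype J]

/-- The common solutions of a set of rows. -/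
def Ker (φ : D →+* UU G) (P : Set (J → D)) : Submodule ℂ (L2 (Tw G J)) where
  carrier := {f | ∀ r ∈ P, ∑ j, φ (r j) • vec (co j f) = 0}
  add_mem' ha hb r hr := by
    simp only [map_add, smul_add, Finset.sum_add_distrib, ha r hr, hb r hr, add_zero]
  zero_mem' r _ := by simp only [map_zero, smul_zero, Finset.sum_const_zero]
  smul_mem' c f h r hr := by
    simp only [map_smul, ← sc_smul_vec, smul_smul, ← sc_comm]
    simp only [mul_smul, ← Finset.smul_sum, h r hr, smul_zero]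

theorem mem_Ker {φ : D →+* UU G} {P : Set (J → D)} {f : L2 (Tw G J)} :
    f ∈ Ker φ P ↔ ∀ r ∈ P, ∑ j, φ (r j) • vec (co j f) = 0 := Iff.rfl

/-- One row is the kernel of a bounded equivariant operator. -/
theorem exists_row_op (a : J → UU G) : ∃ T : L2 (Tw G J) →L[ℂ] L2 G, Eqv G T ∧
    ∀ f, ∑ j, a j • vec (co j f) = 0 ↔ T f = 0 := by
  obtain ⟨s, hs, n, h⟩ := exists_left a
  refine ⟨∑ j, (n j).1 ∘L co j, eqv_sum _ fun j _ => (NN.eqv (n j)).comp (eqv_co j), fun f => ?_⟩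
  rw [← map_zero vec, sum_smul_vec_eq_iff hs h, map_zero, sum_apply]
  rfl

theorem cls_inv_Ker (φ : D →+* UU G) (P : Set (J → D)) : Cls (Ker φ P) ∧ Inv G (Ker φ P) := by
  choose T hT h using fun r : J → D => exists_row_op fun j => φ (r j)
  have e : Ker φ P = ⨅ r : P, pre (T r) ⊥ := by
    ext f
    simp only [mem_Ker, h, Submodule.mem_iInf, Subtype.forall]
    rfl
  rw [e]
  exact ⟨cls_iInf fun _ => cls_bot.pre _, inv_iInf fun r => inv_bot.pre (hT r)⟩

theorem Ker_span (φ : D →+* UU G) (P : Set (J → D)) :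
    Ker φ (Submodule.span D P : Set (J → D)) = Ker φ P := by
  refine le_antisymm (fun f hf r hr => hf r (Submodule.subset_span hr)) fun f hf r hr => ?_
  induction hr using Submodule.span_induction with
  | mem x hx => exact hf x hx
  | zero => simp only [Pi.zero_apply, map_zero, zero_smul, Finset.sum_const_zero]
  | add x y _ _ hx hy =>
    simp only [Pi.add_apply, map_add, add_smul, Finset.sum_add_distrib, hx, hy, add_zero]
  | smul a x _ hx =>
    simp only [Pi.smul_apply, smul_eq_mul, map_mul, mul_smul, ← Finset.smul_sum, hx, smul_zero]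

end Graph

/-- Induction of operators along an embedding of groups. -/
structure Ind {A G : Type u} [Group A] [Group G] (e : A →* G) (he : Function.Injective e) where
  /-- bounded operators -/
  N : NN A →+* NN G
  /-- affiliated operators -/
  U : UU A →+* UU G
  pull_N : ∀ T f, pull e he ((N T).1 f) = T.1 (pull e he f)
  res_N : ∀ T (Y : Set G), (∀ x a, x * e a ∈ Y ↔ x ∈ Y) → ∀ f,
    res Y ((N T).1 f) = (N T).1 (res Y f)
  N_rho : ∀ a, N (rho a) = rho (e a)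
  N_alg : ∀ c, N (algebraMap ℂ _ c) = algebraMap ℂ _ c
  N_SS : ∀ T, N T ∈ SS G ↔ T ∈ SS A
  U_nu : ∀ T, U (nu T) = nu (N T)

section Ind

variable {A G : Type u} [Group A] [Group G] {e : A →* G} {he : Function.Injective e}
  (I : Ind e he)

theorem Ind.U_sc (c : ℂ) : I.U (sc c) = sc c := by rw [sc_def, I.U_nu, I.N_alg, sc_def]

theorem Ind.U_rho (a : A) : I.U (nu (rho a)) = nu (rho (e a)) := by rw [I.U_nu, I.N_rho]

theorem Ind.left {J : Type*} [Finite J] {a : J → UU G} (h : ∀ j, a j ∈ I.U.range) :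
    ∃ s ∈ SS A, ∃ n : J → NN A, ∀ j, nu (I.N s) * a j = nu (I.N (n j)) := by
  choose b hb using h
  obtain ⟨s, hs, n, h⟩ := exists_left b
  exact ⟨s, hs, n, fun j => by rw [← hb, ← I.U_nu, ← map_mul, h, I.U_nu]⟩

theorem Ind.right {J : Type*} [Finite J] {a : J → UU G} (h : ∀ j, a j ∈ I.U.range) :
    ∃ t ∈ SS A, ∃ m : J → NN A, ∀ j, a j * nu (I.N t) = nu (I.N (m j)) := by
  choose b hb using h
  obtain ⟨s, hs, n, h⟩ := exists_right b
  exact ⟨s, hs, n, fun j => by rw [← hb, ← I.U_nu, ← map_mul, h, I.U_nu]⟩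

theorem Ind.unit_of_unit {y : UU A} (h : IsUnit (I.U y)) : IsUnit y := by
  obtain ⟨s, hs, n, h1⟩ := exists_left1 y
  have h2 : IsUnit (nu (I.N n)) := by
    rw [← I.U_nu, ← h1, map_mul]
    exact ((nu_unit hs).map _).mul h
  have h3 := nu_unit ((I.N_SS n).1 (mem_SS_of_unit h2))
  rw [← h1] at h3
  obtain ⟨v, hv⟩ := nu_unit hs
  rw [← hv] at h3
  exact (Units.isUnit_units_mul v y).1 h3

end Ind

/-- A realisation of the skew field by affiliated operators. -/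
structure Rz (s : Sys.{u}) where
  /-- the embedding -/
  φ : s.D →+* UU s.Γ
  φ_alg : ∀ c, φ (algebraMap ℂ s.D c) = sc c
  φ_ι : ∀ g, φ (s.ι g) = nu (rho g)

section Rz

variable {s : Sys.{u}}

/-- Closure induction into a subring that is closed under inverses. -/
theorem map_fld_mem {R : Type*} [Ring R] (ψ : s.D →+* R) (M : Subring R) {A : Subgroup s.Γ}
    (h1 : ∀ c, ψ (algebraMap ℂ s.D c) ∈ M) (h2 : ∀ a ∈ A, ψ (s.ι a) ∈ M)
    (h3 : ∀ x ∈ M, ∀ y, x * y = 1 → y * x = 1 → y ∈ M) {d : s.D} (hd : d ∈ s.fld A) : ψ d ∈ M :=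
  fld_induction (P := fun d => ψ d ∈ M) h1 h2
    (fun _ _ _ _ hx hy => by rw [map_add]; exact add_mem hx hy)
    (fun _ _ _ _ hx hy => by rw [map_mul]; exact mul_mem hx hy)
    (fun x _ h0 hx => h3 _ hx _ (by rw [← map_mul, mul_inv_cancel₀ h0, map_one])
      (by rw [← map_mul, inv_mul_cancel₀ h0, map_one])) hd

/-- The range of a homomorphism from a skew field is closed under inverses. -/
theorem inv_mem_range {D R : Type*} [DivisionRing D] [Ring R] [Nontrivial R] (χ : D →+* R) :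
    ∀ x ∈ χ.range, ∀ y, x * y = 1 → y * x = 1 → y ∈ χ.range := by
  rintro _ ⟨d, rfl⟩ y h1 h2
  have h0 : d ≠ 0 := by
    rintro rfl
    rw [map_zero, zero_mul] at h1
    exact zero_ne_one h1
  exact ⟨d⁻¹, by rw [← one_mul (χ d⁻¹), ← h2, mul_assoc, ← map_mul, mul_inv_cancel₀ h0, map_one,
    mul_one]⟩

/-- Elements of the skew field of a subgroup are induced. -/
theorem Rz.frac (R : Rz s) {A : Subgroup s.Γ} (I : Ind A.subtype A.subtype_injective) {d : s.D}
    (hd : d ∈ s.fld A) : R.φ d ∈ I.U.range := by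
  refine map_fld_mem R.φ I.U.range (fun c => ⟨sc c, by rw [I.U_sc, R.φ_alg]⟩)
    (fun a ha => ⟨nu (rho ⟨a, ha⟩), by rw [I.U_rho, R.φ_ι]; rfl⟩) ?_ hd
  rintro _ ⟨x, rfl⟩ y h1 h2
  obtain ⟨x, rfl⟩ := I.unit_of_unit ⟨⟨_, y, h1, h2⟩, rfl⟩
  exact ⟨(x⁻¹ : (UU A)ˣ), by
    rw [← one_mul (I.U _), ← h2, mul_assoc, ← map_mul, Units.mul_inv, map_one, mul_one]⟩

/-- Induction restricts to the skew fields. -/
theorem Rz.exists_hom {s' : Sys.{u}} (R : Rz s) (R' : Rz s') (hs : s.Gen) {e : s.Γ →* s'.Γ}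
    {he : Function.Injective e} (I : Ind e he) :
    ∃ j : s.D →+* s'.D, (∀ d, R'.φ (j d) = I.U (R.φ d)) ∧
      (∀ c, j (algebraMap ℂ s.D c) = algebraMap ℂ s'.D c) ∧ ∀ g, j (s.ι g) = s'.ι (e g) := by
  have h1 : ∀ c, I.U (R.φ (algebraMap ℂ s.D c)) = R'.φ (algebraMap ℂ s'.D c) := fun c => by
    rw [R.φ_alg, I.U_sc, R'.φ_alg]
  have h2 : ∀ g, I.U (R.φ (s.ι g)) = R'.φ (s'.ι (e g)) := fun g => by
    rw [R.φ_ι, I.U_rho, R'.φ_ι]
  have h : ∀ d, (I.U.comp R.φ) d ∈ R'.φ.range := fun d =>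
    map_fld_mem (I.U.comp R.φ) R'.φ.range (fun c => ⟨_, (h1 c).symm⟩)
      (fun g _ => ⟨_, (h2 g).symm⟩) (inv_mem_range _) (hs d)
  choose j hj using h
  have hi := R'.φ.injective
  refine ⟨⟨⟨⟨j, hi ?_⟩, fun x y => hi ?_⟩, hi ?_, fun x y => hi ?_⟩, hj, fun c => hi ?_,
    fun g => hi ?_⟩
  · rw [hj, map_one, map_one]
  · simp only [hj, map_mul]
  · simp only [hj, map_zero]
  · simp only [hj, map_add]
  · exact (hj _).trans (h1 c)
  · exact (hj _).trans (h2 g)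

/-- Density of restrictions to a subgroup. -/
def Rz.DENS (R : Rz s) : Prop :=
  ∀ (C : Subgroup s.Γ) (J : Type) [Fintype J] (k : J → s.D) (t : NN s.Γ) (m : J → NN s.Γ),
    t ∈ SS s.Γ → (∀ j, R.φ (k j) * nu t = nu (m j)) →
    (∀ c : J → s.D, (∀ j, c j ∈ s.fld C) → ∑ j, c j * k j = 0 → ∀ j, c j = 0) →
    ∀ (Z : Type u) (L : J → L2 C →L[ℂ] L2 Z),
      (∀ ξ, ∑ j, L j (pull C.subtype C.subtype_injective ((m j).1 ξ)) = 0) → ∀ j, L j = 0

end Rz

/-- Injectivity of the boundary map, one orbit of edges at a time. -/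
def Sys.HALF (s : Sys.{u}) : Prop :=
  ∀ (Vt E : Type u) [MulAction s.Γ Vt] [MulAction s.Γ E] (Tr : TreeData s.Γ Vt E) (e₀ : E) (n : ℕ)
    (d x : Fin n → s.D) (ζ : s.Ten E s.D),
    (∀ c : Fin n → s.D, (∀ j, c j ∈ s.fld (stabilizer s.Γ e₀)) → ∑ j, c j * x j = 0 →
      ∀ j, c j = 0) →
    ζ ∈ AddSubgroup.closure
      {y | ∃ (a : s.D) (e : E) (v : s.D), (∀ g : s.Γ, g • e₀ ≠ e) ∧ y = a • s.t e v} →
    bd s.D Tr (∑ j, d j • s.t e₀ (x j) + ζ) = 0 → ∀ j, d j = 0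

def S_IND : Prop :=
  ∀ (A G : Type u) [Group A] [Group G] (e : A →* G) (he : Function.Injective e),
    Nonempty (Ind e he)

def S_PRE : Prop :=
  ∀ (G Y Z : Type u) [Group G] [MulAction G Y] [MulAction G Z], Free G Y → Free G Z →
    Cofin G (Set.univ : Set Y) → ∀ T : L2 Y →L[ℂ] L2 Z, Eqv G T → FinCols T →
    ∀ W : Submodule ℂ (L2 Z), Rat G W → Rat G (pre T W)

def S_GRAPH : Prop :=
  ∀ (G : Type u) [Group G] (J : Type) [Fintype J] (a : J → UU G) (j₀ : J) (t : NN G)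
    (m : J → NN G), a j₀ = 1 → t ∈ SS G → (∀ j, a j * nu t = nu (m j)) →
    Jg a j₀ = cl (img (stack fun j => (m j).1) ⊤)

def S_JOINT : Prop :=
  ∀ (G : Type u) [Group G] (J : Type) [Fintype J] (a : J → UU G) (j₀ : J), (∀ j, QR (a j)) →
    Rat G (Jg a j₀)

def S_UNIT : Prop :=
  ∀ (G : Type u) [Group G], SAC G → ∀ a : UU G, QR a → a ≠ 0 → IsUnit a

def S_QR : Prop :=
  ∀ (G : Type u) [Group G], (∀ n : NN G, FinCols n.1 → QR (nu n)) ∧
    (∀ a b : UU G, QR a → QR b → QR (a + b)) ∧ (∀ a b : UU G, QR a → QR b → QR (a * b)) ∧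
    ∀ a b : UU G, a * b = 1 → b * a = 1 → QR a → QR b

def S_EX : Prop :=
  ∀ (G : Type u) [Group G], SAC G → ∃ (D : Type u) (_ : DivisionRing D) (_ : Algebra ℂ D)
    (ι : G →* D), (Sys.mk G D ι).Gen ∧ Nonempty (Rz (Sys.mk G D ι))

def S_RK : Prop :=
  ∀ (G D J : Type u) [Group G] [DivisionRing D] [Fintype J] (φ : D →+* UU G)
    (P : Submodule D (J → D)),
    edim G (Ker φ (P : Set (J → D))) + Module.finrank D P = Fintype.card J

def S_KILL : Prop :=
  ∀ (G D : Type u) [Group G] [DivisionRing D] (J : Type) [Fintype J] (φ : D →+* UU G), SAC G →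
    (∀ g, nu (rho g) ∈ φ.range) → (∀ c, sc c ∈ φ.range) →
    ∀ F : Submodule ℂ (L2 (Tw G J)), Rat G F → F ≠ ⊤ → ∃ r : J → D, r ≠ 0 ∧ F ≤ Ker φ {r}

def S_DENS : Prop := ∀ (s : Sys.{u}) (R : Rz s), s.Gen → Full s.Γ → R.DENS

def S_LD : Prop := ∀ (s : Sys.{u}) (R : Rz s), R.DENS → s.LD

def S_HALF : Prop := ∀ (s : Sys.{u}) (R : Rz s), R.DENS → s.HALF

def S_CL1 : Prop := ∀ s : Sys.{u}, s.HALF → s.CL1

def S_GS : Prop :=
  ∀ (s : Sys.{u}) (R : Rz s) (G : Type u) [Group G] (inc : s.Γ →* G)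
    (hinc : Function.Injective inc) (I : Ind inc hinc), s.Gen → inc.range.Normal →
    ∃ (𝒢 : s.GS G inc) (θ : 𝒢.R →+* UU G), (∀ d, θ (𝒢.jR d) = I.U (R.φ d)) ∧
      (∀ g, θ (𝒢.ιG g) = nu (rho g)) ∧ ∀ B : Subgroup G, SAC B → 𝒢.NZ B

def S_RANK : Prop :=
  ∀ (s : Sys.{u}) (R : Rz s) (G : Type u) [Group G] (inc : s.Γ →* G)
    (hinc : Function.Injective inc) (I : Ind inc hinc) (𝒢 : s.GS G inc) (θ : 𝒢.R →+* UU G),
    (∀ d, θ (𝒢.jR d) = I.U (R.φ d)) → (∀ g, θ (𝒢.ιG g) = nu (rho g)) → inc.range.FiniteIndex →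
    ∀ (m n : ℕ) (A : Fin m → Fin n → G →₀ ℂ) (W : Submodule ℂ (L2 (Tw G (Fin n)))), IsKer A W →
      inc.range.index * edim G W + Module.finrank s.D (𝒢.Rel A) =
        ((inc.range.index * n : ℕ) : ℝ≥0∞)

end Pool.Agent.P.MP_0f25e6_al.VT
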