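import Pool.Agent.P.MP_0f25e6_al.VT.Spec

/-!
The simultaneous induction and the assembly of the statement on groups permuting trees.
-/

set_option autoImplicit false

open MulAction

noncomputable section

namespace Pool.Agent.P.MP_0f25e6_al.VT

universe u

open Sys

theorem md_zero : MD.{u} 0 := fun s _ I S hS A₀ K A => by
  obtain rfl := Finset.card_eq_zero.1 (Nat.le_zero.1 hS)
  simp

theorem SPL.mono {m n : ℕ} (h : SPL.{u} n) (hm : m ≤ n) : SPL.{u} m :=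
  fun s hs W _ I _ A hA => h s hs W I A (hA.trans hm)

theorem all_steps (hSPL : S_SPL.{u}) (hRL : S_RL.{u}) (hBM : S_BM.{u}) (hST : S_STAB.{u})
    (hFP : S_FINP.{u}) (hFS : S_FINS.{u}) (hMD : S_MD.{u}) :
    (∀ n, FIN.{u} n) ∧ (∀ n, FINP.{u} n) ∧ ∀ n, SPL.{u} n := by
  have step : ∀ n, FIN.{u} n → SPL.{u} n → FINP.{u} n := fun n h1 h2 =>
    hFP n (hST n (hBM n h1)) h2 (hRL n h2)
  have main : ∀ r, MD.{u} r ∧ FIN.{u} (r + 1) := fun r => by
    induction r with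
    | zero => exact ⟨md_zero, hFS.2 0 (step 0 hFS.1 ((hSPL 0 md_zero).mono (Nat.zero_le _)))⟩
    | succ r ih =>
      have h1 := hSPL r ih.1
      have h2 := step (r + 1) ih.2 h1
      exact ⟨hMD r h2 ih.1 (hRL _ h1), hFS.2 _ h2⟩
  have hS : ∀ n, SPL.{u} n := fun n => (hSPL n (main n).1).mono (Nat.le_succ n)
  have hF : ∀ n, FIN.{u} n := fun n => by
    cases n with
    | zero => exact hFS.1
    | succ n => exact (main n).2
  exact ⟨hF, fun n => step n (hF n) (hS n), hS⟩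

theorem ppt_of (hF : ∀ n, FIN.{u} n) (hSUM : SUM.{u}) (hSYM : S_SYM.{u}) (hDIV : S_DIV.{u})
    (hV : S_VMOD.{u}) (hFAM : S_FAM.{u}) (hAN : AN.{u}) (hR : S_RSAC.{u}) : PPT.{u} := by
  classical
  intro G _ H hn hf hH P hI hS
  obtain ⟨s, inc, hinj, rfl, hg, hc, 𝒢, hNZ, hrk⟩ := hAN G H hn hf hH
  refine hR G fun m n A W hW => ?_
  obtain ⟨V, _, _, _, _, y, hs, hp, hd⟩ := hV s G inc 𝒢 m n A hinj hf
  obtain ⟨W', _, _, 𝓕, 𝒞, he, hsec⟩ := hFAM s V G inc 𝒢 m n A y P hg.gen hc hn hf hs hp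
    fun h i => hI _ ⟨h, rfl⟩ i
  let _ : Fintype P.I := Fintype.ofFinite _
  have h1 := hSYM hF s hg V W' P.I G inc 𝒢 𝓕 𝒞 hn hf hs he fun c hc => by
    obtain ⟨c', h2, h3⟩ := hsec c hc
    rw [h3]
    exact hDIV s G inc 𝒢 _ hn hf (hNZ _ (hS c' h2))
  rw [← hSUM s hg V W' P.I 𝓕 𝒞, Int.natCast_dvd_natCast] at h1
  obtain ⟨d, hd'⟩ := h1
  refine ⟨d, ?_⟩
  have h2 := hrk m n A W hW
  rw [← hd, hd', Nat.cast_add, Nat.cast_mul,
    ENNReal.add_left_inj (ENNReal.natCast_ne_top _)] at h2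
  exact (ENNReal.mul_right_inj (Nat.cast_ne_zero.2 hf.index_ne_zero) (ENNReal.natCast_ne_top _)).1 h2

end Pool.Agent.P.MP_0f25e6_al.VT
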