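import Pool.Agent.P.MP_0f25e6_al.VT.Spec

/-!
Equivariant operators on `L2 G` and their ring of quotients.
-/

set_option autoImplicit false

open scoped InnerProductSpace ENNReal
open MulAction

noncomputable section

namespace Pool.Agent.P.MP_0f25e6_al.VT.B

universe u

open HN HR OreLocalization

variable (G : Type u) [Group G]

/-- Equivariant bounded operators. -/
def NN : Subalgebra ℂ (L2 G →L[ℂ] L2 G) where
  carrier := {T | Eqv G T}
  mul_mem' := Eqv.mul
  add_mem' := Eqv.add
  algebraMap_mem' c := by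
    rw [Algebra.algebraMap_eq_smul_one]
    exact eqv_one.smul c

/-- Injective equivariant operators. -/
def SS : Submonoid (NN G) where
  carrier := {s | ∀ f, s.1 f = 0 → f = 0}
  mul_mem' ha hb f h := hb f (ha _ h)
  one_mem' _ h := h

variable {G}

theorem edim_top {J : Type*} [Fintype J] :
    edim G (⊤ : Submodule ℂ (L2 (Tw G J))) = Fintype.card J := by
  have e : orbitRel.Quotient G (Tw G J) ≃ J :=
    (Equiv.ofBijective (fun j => Quotient.mk (orbitRel G (Tw G J)) ⟨1, j⟩) ⟨fun a b h => by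
      obtain ⟨g, hg⟩ := Quotient.exact h
      exact (congrArg Tw.k hg).symm, fun q => by
      induction q using Quotient.inductionOn with
      | h p => exact ⟨p.k, Quotient.sound ⟨p.y⁻¹, Tw.ext (inv_mul_cancel _) rfl⟩⟩⟩).symm
  simp only [edim, osum, tau_top]
  rw [ENNReal.tsum_const, ENat.card_congr e]
  simp

theorem edim_top_self : edim G (⊤ : Submodule ℂ (L2 G)) = 1 := by
  have : Unique (orbitRel.Quotient G G) := (pretransitive_iff_unique_quotient_of_nonempty G G).1
    inferInstance |>.some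
  simp [edim, osum, tau_top]

theorem dense_of_inj {s : NN G} (hs : s ∈ SS G) : cl (img s.1 ⊤) = ⊤ :=
  eq_of_edim_le (H := G) (cls_cl _) cls_top (inv_top.img s.2).cl inv_top le_top
    (edim_ne_top cofin_self _) (by
      rw [edim_cl, edim_img_of_inj free_self free_self s.2 hs cls_top inv_top])

theorem eq_zero_of_orth {Y Z : Type*} {T : L2 Y →L[ℂ] L2 Z} {N : Submodule ℂ (L2 Y)}
    (h : cl (img T N) = ⊤) {a : L2 Z} (ha : ∀ f ∈ N, ⟪T f, a⟫_ℂ = 0) : a = 0 := by
  have h1 : a ∈ (img T N)ᗮ := by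
    rintro _ ⟨f, hf, rfl⟩
    exact ha f hf
  rwa [← orth_cl, h, Submodule.top_orthogonal_eq_bot] at h1

/-- The adjoint. -/
def ad (T : NN G) : NN G := ⟨adj T.1, Eqv.adj T.2⟩

theorem ad_ad (T : NN G) : ad (ad T) = T := Subtype.ext (ContinuousLinearMap.adjoint_adjoint _)

theorem ad_mul (S T : NN G) : ad (S * T) = ad T * ad S :=
  Subtype.ext (ContinuousLinearMap.adjoint_comp _ _)

theorem ad_mem {s : NN G} (hs : s ∈ SS G) : ad s ∈ SS G := fun a ha =>
  eq_zero_of_orth (dense_of_inj hs) fun f _ => by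
    rw [← inner_adj_right]
    exact (congrArg _ ha).trans (inner_zero_right _)

theorem ore_right (r : NN G) {s : NN G} (hs : s ∈ SS G) :
    ∃ x ∈ SS G, ∃ y : NN G, r * x = s * y := by
  let M := fp r.1 s.1 ⊤ ⊤
  have hi : Inv G M := inv_fp r.2 s.2 inv_top inv_top
  have hc : Cls M := ((Cls.pre cls_top _).inf (Cls.pre cls_top _)).inf (Cls.pre cls_bot _)
  have hd : cl (img pl M) = ⊤ := eq_top_iff.2 (mem_cl_fp free_self free_self free_self cofin_self
    cofin_self r.2 s.2 cls_top inv_top cls_top inv_top fun _ _ => (dense_of_inj hs).ge trivial)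
  let Q : L2 G →L[ℂ] L2 (G ⊕ G) := proj M ∘L push Sum.inl Sum.inl_injective
  have hQ : Eqv G Q := (eqv_proj hi).comp eqv_push_inl
  have hm : ∀ a, Q a ∈ M := fun a => cl_le le_rfl hc (proj_mem M _)
  refine ⟨⟨pl ∘L Q, eqv_pull_inl.comp hQ⟩, fun a ha => ?_, ⟨pr ∘L Q, eqv_pull_inr.comp hQ⟩,
    Subtype.ext (ContinuousLinearMap.ext fun a => (mem_fp.1 (hm a)).2.2)⟩
  have h1 : Q a = 0 := by
    rw [← inner_self_eq_zero (𝕜 := ℂ)]
    have h2 : ⟪Q a, Q a⟫_ℂ = ⟪push Sum.inl Sum.inl_injective a, Q a⟫_ℂ :=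
      (inner_proj_left M _ _).trans (congrArg _ (proj_eq_self (le_cl M (hm a))))
    rw [h2, inner_push_left]
    exact (congrArg _ ha).trans (inner_zero_right _)
  refine eq_zero_of_orth hd fun f hf => ?_
  rw [← inner_push_right, ← proj_eq_self (le_cl M hf), inner_proj_left]
  exact (congrArg _ h1).trans (inner_zero_right _)

theorem ore_left (r : NN G) {s : NN G} (hs : s ∈ SS G) :
    ∃ x ∈ SS G, ∃ y : NN G, x * r = y * s := by
  obtain ⟨x, hx, y, h⟩ := ore_right (ad r) (ad_mem hs)
  refine ⟨ad x, ad_mem hx, ad y, ?_⟩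
  rw [← ad_ad r, ← ad_ad s, ← ad_mul, ← ad_mul, h]

theorem eq_zero_of_mul {s : NN G} (hs : s ∈ SS G) {r : NN G} (h : s * r = 0) : r = 0 :=
  Subtype.ext (ContinuousLinearMap.ext fun f => hs _ (congrArg (fun T : NN G => T.1 f) h))

theorem eq_zero_of_mul' {s : NN G} (hs : s ∈ SS G) {r : NN G} (h : r * s = 0) : r = 0 := by
  have h1 : ad s * ad r = 0 := by
    rw [← ad_mul, h]
    exact Subtype.ext (map_zero _)
  rw [← ad_ad r, eq_zero_of_mul (ad_mem hs) h1]
  exact Subtype.ext (map_zero _)

instance : OreSet (SS G) := (nonempty_oreSet_iff.2 ⟨fun r₁ r₂ s h => ⟨1, by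
  rw [sub_eq_zero.1 (eq_zero_of_mul' (r := r₁ - r₂) s.2 (by rw [sub_mul, h, sub_self]))]⟩,
  fun r s =>
  let ⟨x, hx, y, h⟩ := ore_left r s.2
  ⟨y, ⟨x, hx⟩, h⟩⟩).some

variable (G)

/-- The ring of quotients. -/
def UU : Type u := OreLocalization (SS G) (NN G)

instance : Ring (UU G) := inferInstanceAs (Ring (OreLocalization (SS G) (NN G)))

instance : Algebra ℂ (UU G) := inferInstanceAs (Algebra ℂ (OreLocalization (SS G) (NN G)))

/-- The module of quotients. -/
def LL : Type u := OreLocalization (SS G) (L2 G)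

instance : AddCommGroup (LL G) := inferInstanceAs (AddCommGroup (OreLocalization (SS G) (L2 G)))

instance : Module (UU G) (LL G) :=
  inferInstanceAs (Module (OreLocalization (SS G) (NN G)) (OreLocalization (SS G) (L2 G)))

variable {G}

/-- Bounded operators in the ring of quotients. -/
def nu : NN G →+* UU G := numeratorRingHom

/-- Square summable functions in the module of quotients. -/
def eps : L2 G →+ LL G := AddMonoidHom.mk' (fun f => oreDiv f 1) fun _ _ => add_oreDiv.symm

theorem nu_alg (c : ℂ) : nu (algebraMap ℂ (NN G) c) = algebraMap ℂ (UU G) c := rfl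

theorem nu_inj : Function.Injective (nu : NN G → UU G) :=
  numeratorHom_inj fun _ hs _ h => eq_zero_of_mul hs h

theorem nu_unit {s : NN G} (hs : s ∈ SS G) : IsUnit (nu s) := numerator_isUnit ⟨s, hs⟩

theorem eps_app (n : NN G) (f : L2 G) : eps (n.1 f) = nu n • eps f := smul_div_one.symm

theorem eps_inj : Function.Injective (eps : L2 G → LL G) :=
  (injective_iff_map_eq_zero _).2 fun f h => by
    obtain ⟨s, r, h1, -⟩ := oreDiv_eq_iff.1 (h.trans OreLocalization.zero_def).symm
    exact s.2 f (h1.trans (smul_zero _))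

theorem eps_smul (c : ℂ) (f : L2 G) : eps (c • f) = algebraMap ℂ (UU G) c • eps f := by
  rw [← nu_alg, ← eps_app]
  rfl

theorem left_frac (u : UU G) : ∃ s ∈ SS G, ∃ n, nu s * u = nu n := by
  induction u using OreLocalization.ind with
  | c n s => exact ⟨s, s.2, n, OreLocalization.mul_cancel⟩

theorem right_frac (u : UU G) : ∃ s ∈ SS G, ∃ n, u * nu s = nu n := by
  obtain ⟨s, hs, n, h⟩ := left_frac u
  obtain ⟨x, hx, y, h'⟩ := ore_right n hs
  refine ⟨x, hx, y, (nu_unit hs).mul_left_cancel ?_⟩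
  rw [← mul_assoc, h, ← map_mul, ← map_mul, h']

theorem left_fracs {J : Type*} [Finite J] (u : J → UU G) :
    ∃ s ∈ SS G, ∃ n : J → NN G, ∀ j, nu s * u j = nu (n j) := by
  induction J using Finite.induction_empty_option with
  | of_equiv e ih =>
    obtain ⟨s, hs, n, h⟩ := ih (u ∘ e)
    exact ⟨s, hs, n ∘ e.symm, fun j => by simpa using h (e.symm j)⟩
  | h_empty => exact ⟨1, one_mem _, fun j => j.elim, fun j => j.elim⟩
  | h_option ih =>
    obtain ⟨s, hs, n, h⟩ := ih (u ∘ some)
    obtain ⟨x, hx, y, h'⟩ := left_frac (nu s * u none)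
    refine ⟨x * s, mul_mem hx hs, fun j => j.elim y fun j => x * n j, fun j => ?_⟩
    cases j with
    | none => rw [map_mul, mul_assoc]; exact h'
    | some j => exact by rw [map_mul, mul_assoc]; exact (congrArg _ (h j)).trans (map_mul _ _ _).symm

theorem right_fracs {J : Type*} [Finite J] (u : J → UU G) :
    ∃ s ∈ SS G, ∃ n : J → NN G, ∀ j, u j * nu s = nu (n j) := by
  induction J using Finite.induction_empty_option with
  | of_equiv e ih =>
    obtain ⟨s, hs, n, h⟩ := ih (u ∘ e)
    exact ⟨s, hs, n ∘ e.symm, fun j => by simpa using h (e.symm j)⟩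
  | h_empty => exact ⟨1, one_mem _, fun j => j.elim, fun j => j.elim⟩
  | h_option ih =>
    obtain ⟨s, hs, n, h⟩ := ih (u ∘ some)
    obtain ⟨x, hx, y, h'⟩ := right_frac (u none * nu s)
    refine ⟨s * x, mul_mem hs hx, fun j => j.elim y fun j => n j * x, fun j => ?_⟩
    cases j with
    | none => rw [map_mul, ← mul_assoc]; exact h'
    | some j =>
      rw [map_mul, ← mul_assoc]
      exact (congrArg (· * nu x) (h j)).trans (map_mul _ _ _).symm

theorem exists_lift {T : Type*} [Ring T] (f : NN G →+* T) (hf : ∀ s ∈ SS G, IsUnit (f s)) :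
    ∃ F : UU G →+* T, ∀ n, F (nu n) = f n :=
  ⟨universalHom f (IsUnit.liftRight ((f : NN G →* T).comp (SS G).subtype) fun s => hf s s.2)
    fun _ => rfl, fun _ => universalHom_commutes _ _ _⟩

theorem mem_SS_of_unit {n : NN G} (h : IsUnit (nu n)) : n ∈ SS G := fun f hf => eps_inj (by
  rw [map_zero, ← h.smul_eq_zero, ← eps_app, hf, map_zero])

/-- Right translations. -/
def rho : G →* NN G where
  toFun g := ⟨pull (· * g) (mul_left_injective g), eqv_pull _ fun a y => mul_assoc a y g⟩
  map_one' := Subtype.ext (ContinuousLinearMap.ext fun f => lp.ext (funext fun x =>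
    congrArg f (mul_one x)))
  map_mul' a b := Subtype.ext (ContinuousLinearMap.ext fun f => lp.ext (funext fun x =>
    congrArg f (mul_assoc x a b).symm))

theorem rho_apply (g : G) (f : L2 G) (x : G) : (rho g).1 f x = f (x * g) := rfl

theorem NN.eq_zero {T : NN G} {x : G} (h : T.1 (delta x) = 0) : T = 0 :=
  Subtype.ext (ext_delta' fun y => by
    have h1 := T.2 (y * x⁻¹) (delta x)
    rw [act_delta, h, map_zero, smul_eq_mul, inv_mul_cancel_right] at h1
    exact h1)

end Pool.Agent.P.MP_0f25e6_al.VT.B
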