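import Pool.Agent.P.MP_0f25e6_al.VT.B1

/-!
Realised systems, induction, graphs, and the statements of the analytic steps.
-/

set_option autoImplicit false

open scoped InnerProductSpace ENNReal
open MulAction

noncomputable section

namespace Pool.Agent.P.MP_0f25e6_al.VT.B

universe u

open HN HR Sys

variable {G Γ : Type u} [Group G] [Group Γ]

/-- The coordinates of a vector valued function. -/
def co {J : Type*} (j : J) : L2 (Tw G J) →L[ℂ] L2 G :=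
  pull (fun g => ⟨g, j⟩) (tw_inj fun _ => j)

omit [Group G] in
theorem co_apply {J : Type*} (j : J) (F : L2 (Tw G J)) (g : G) : co j F g = F ⟨g, j⟩ := rfl

theorem eqv_co {J : Type*} (j : J) : Eqv G (co j : L2 (Tw G J) →L[ℂ] L2 G) :=
  eqv_pull _ fun _ _ => rfl

omit [Group G] in
theorem co_stack {J Y : Type*} [Fintype J] (T : J → L2 Y →L[ℂ] L2 G) (f : L2 Y) (j : J) :
    co j (stack T f) = T j f := lp.ext (funext fun g => stack_apply T f g j)

/-- Restriction to a left coset. -/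
def cs (i : Γ →* G) (hi : Function.Injective i) (x : G) : L2 G →L[ℂ] L2 Γ :=
  pull (fun γ => x * i γ) ((mul_right_injective x).comp hi)

theorem cs_apply (i : Γ →* G) (hi : Function.Injective i) (x : G) (f : L2 G) (γ : Γ) :
    cs i hi x f γ = f (x * i γ) := rfl

theorem ext_cs (i : Γ →* G) (hi : Function.Injective i) {f g : L2 G}
    (h : ∀ x, cs i hi x f = cs i hi x g) : f = g :=
  lp.ext (funext fun x => by
    have h1 : cs i hi x f 1 = cs i hi x g 1 := by rw [h x]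
    rwa [cs_apply, cs_apply, map_one, mul_one] at h1)

/-- The operator commutes with restriction to unions of left cosets of `A`. -/
def SplitBy (A : Subgroup G) (T : NN G) : Prop :=
  ∀ Y : Set G, (∀ x ∈ Y, ∀ a ∈ A, x * a ∈ Y) → ∀ f, T.1 (res Y f) = res Y (T.1 f)

/-- Induction of operators along an injective homomorphism. -/
structure Ind (i : Γ →* G) (hi : Function.Injective i) where
  /-- on bounded operators -/
  N : NN Γ →+* NN G
  /-- on the rings of quotients -/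
  U : UU Γ →+* UU G
  cs_N : ∀ T x f, cs i hi x ((N T).1 f) = T.1 (cs i hi x f)
  U_nu : ∀ T, U (nu T) = nu (N T)

section Ind

variable {i : Γ →* G} {hi : Function.Injective i} (𝓘 : Ind i hi)

theorem Ind.N_mem {s : NN Γ} (hs : s ∈ SS Γ) : 𝓘.N s ∈ SS G := fun f hf =>
  ext_cs i hi fun x => by
    rw [map_zero]
    exact hs _ (by rw [← 𝓘.cs_N, hf, map_zero])

theorem Ind.U_rho (γ : Γ) : 𝓘.U (nu (rho γ)) = nu (rho (i γ)) := by
  rw [𝓘.U_nu]
  refine congrArg nu (Subtype.ext (ContinuousLinearMap.ext fun f => ext_cs i hi fun x => ?_))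
  rw [𝓘.cs_N]
  exact lp.ext (funext fun a => congrArg f (by simp only [map_mul, mul_assoc]))

theorem Ind.U_alg (c : ℂ) : 𝓘.U (algebraMap ℂ (UU Γ) c) = algebraMap ℂ (UU G) c := by
  rw [← nu_alg, 𝓘.U_nu, ← nu_alg]
  refine congrArg nu (Subtype.ext (ContinuousLinearMap.ext fun f => ext_cs i hi fun x => ?_))
  rw [𝓘.cs_N]
  rfl

theorem Ind.N_eq_zero {T : NN Γ} (h : 𝓘.N T = 0) : T = 0 :=
  Subtype.ext (ContinuousLinearMap.ext fun f => by
    have h1 := 𝓘.cs_N T 1 (push _ ((mul_right_injective (1 : G)).comp hi) f)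
    rw [h] at h1
    exact ((congrArg T.1 (pull_push _ _ f)).symm.trans h1.symm).trans (map_zero _))

theorem Ind.U_inj : Function.Injective 𝓘.U :=
  (injective_iff_map_eq_zero _).2 fun a ha => by
    obtain ⟨s, hs, n, h⟩ := left_frac a
    have h1 : nu (𝓘.N n) = nu 0 := by rw [← 𝓘.U_nu, ← h, map_mul, ha, mul_zero, map_zero]
    rw [𝓘.N_eq_zero (nu_inj h1), map_zero] at h
    exact (nu_unit hs).mul_right_eq_zero.1 h

theorem Ind.splitBy (T : NN Γ) : SplitBy i.range (𝓘.N T) := fun Y hY f =>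
  ext_cs i hi fun x => by
    classical
    rw [𝓘.cs_N]
    by_cases hx : x ∈ Y
    · have h1 : ∀ g, cs i hi x (res Y g) = cs i hi x g := fun g => lp.ext (funext fun a => by
        rw [cs_apply, cs_apply, res_apply, if_pos (hY x hx _ ⟨a, rfl⟩)])
      rw [h1, h1, 𝓘.cs_N]
    · have h1 : ∀ g, cs i hi x (res Y g) = 0 := fun g => lp.ext (funext fun a => by
        rw [cs_apply, res_apply, if_neg fun h => hx (by
          simpa using hY _ h _ (inv_mem ⟨a, rfl⟩))]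
        rfl)
      rw [h1, h1, map_zero]

end Ind

/-- A system realised in the ring of quotients of its group. -/
structure Real (s : Sys.{u}) where
  /-- the embedding -/
  φ : s.D →+* UU s.Γ
  φ_alg : ∀ c, φ (algebraMap ℂ s.D c) = algebraMap ℂ (UU s.Γ) c
  φ_ι : ∀ g, φ (s.ι g) = nu (rho g)
  gen : s.Gen

instance : Nontrivial (NN G) := ⟨1, 0, fun h => by
  have h1 : delta (1 : G) 1 = (0 : L2 G) 1 := congrArg (fun T : NN G => T.1 (delta 1) 1) h
  rw [delta_self] at h1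
  exact one_ne_zero h1⟩

instance : Nontrivial (UU G) := nu_inj.nontrivial

theorem Real.inj {s : Sys.{u}} (ℛ : Real s) : Function.Injective ℛ.φ := ℛ.φ.injective

/-- The graph of an element of the ring of quotients. -/
def Gr (a : UU G) : Submodule ℂ (L2 (G ⊕ G)) where
  carrier := {F | eps (pr F) = a • eps (pl F)}
  add_mem' {x y} hx hy := by
    change eps (pr (x + y)) = a • eps (pl (x + y))
    rw [map_add, map_add, map_add, map_add, smul_add, hx, hy]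
  zero_mem' := by
    change eps (pr 0) = a • eps (pl 0)
    simp only [map_zero, smul_zero]
  smul_mem' c x hx := by
    change eps (pr (c • x)) = a • eps (pl (c • x))
    rw [ContinuousLinearMap.map_smul, ContinuousLinearMap.map_smul, eps_smul, eps_smul, hx,
      smul_smul, smul_smul, Algebra.commutes]

theorem mem_Gr {a : UU G} {F : L2 (G ⊕ G)} : F ∈ Gr a ↔ eps (pr F) = a • eps (pl F) := Iff.rfl

theorem Gr_eq {a : UU G} {s n : NN G} (hs : s ∈ SS G) (h : nu s * a = nu n) :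
    Gr a = fp n.1 s.1 ⊤ ⊤ := by
  ext F
  rw [mem_Gr, mem_fp, ← (nu_unit hs).smul_left_cancel, smul_smul, h, ← eps_app, ← eps_app,
    eps_inj.eq_iff, eq_comm]
  simp

/-! ### Statements -/

def S_IND : Prop :=
  ∀ (Γ G : Type u) [Group Γ] [Group G] (i : Γ →* G) (hi : Function.Injective i),
    Nonempty (Ind i hi)

/-- Preimages of rational subspaces. -/
def S_RPRE : Prop :=
  ∀ (G Y Z : Type u) [Group G] [MulAction G Y] [MulAction G Z], Free G Y → Free G Z →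
    Cofin G (Set.univ : Set Y) → ∀ (T : L2 Y →L[ℂ] L2 Z), Eqv G T → FinCols T →
    ∀ W : Submodule ℂ (L2 Z), Rat G W → Rat G (pre T W)

/-- Elements with a rational graph. -/
def S_RATU : Prop :=
  ∀ (G : Type u) [Group G],
    (∀ c, Rat G (Gr (algebraMap ℂ (UU G) c))) ∧ (∀ g : G, Rat G (Gr (nu (rho g)))) ∧
    (∀ a b : UU G, Rat G (Gr a) → Rat G (Gr b) → Rat G (Gr (a + b)) ∧ Rat G (Gr (a * b))) ∧
    (∀ a b : UU G, a * b = 1 → b * a = 1 → Rat G (Gr a) → Rat G (Gr b)) ∧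
    (SAC G → ∀ a : UU G, Rat G (Gr a) → a ≠ 0 → IsUnit a)

def S_SKEW : Prop :=
  (∀ (G : Type u) [Group G], SAC G →
    ∃ (D : Type u) (_ : DivisionRing D) (_ : Algebra ℂ D) (ι : G →* D),
      Nonempty (Real ⟨G, D, ι⟩)) ∧
  ∀ (s : Sys.{u}) (ℛ : Real s) (d : s.D), Rat s.Γ (Gr (ℛ.φ d))

def S_JOINT : Prop :=
  ∀ (G J : Type u) [Group G] [Fintype J] (e : J → UU G) (t : NN G) (n : J → NN G), t ∈ SS G →
    (∀ j, e j * nu t = nu (n j)) → (∀ j, Rat G (Gr (e j))) →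
    Rat G (cl (img (stack fun j => (n j).1) ⊤))

def S_KILL : Prop :=
  ∀ (s : Sys.{u}) (ℛ : Real s) (J : Type u) [Fintype J] (W : Submodule ℂ (L2 (Tw s.Γ J))),
    SAC s.Γ → Rat s.Γ W → W ≠ ⊤ →
    ∃ l : J → s.D, l ≠ 0 ∧ ∀ F ∈ W, ∑ j, ℛ.φ (l j) • eps (co j F) = 0

def S_RANK : Prop :=
  ∀ (G D J : Type u) [Group G] [DivisionRing D] [Fintype J] (φ : D →+* UU G)
    (Λ : Submodule D (J → D)) (W : Submodule ℂ (L2 (Tw G J))),
    (∀ F, F ∈ W ↔ ∀ r ∈ Λ, ∑ j, φ (r j) • eps (co j F) = 0) →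
    edim G W + Module.finrank D Λ = Fintype.card J

def S_JH : Prop :=
  ∀ (s s' : Sys.{u}) (ℛ : Real s) (ℛ' : Real s') (i : s.Γ →* s'.Γ) (hi : Function.Injective i)
    (𝓘 : Ind i hi), ∃ j : s.D →+* s'.D, (∀ d, ℛ'.φ (j d) = 𝓘.U (ℛ.φ d)) ∧
      (∀ c, j (algebraMap ℂ s.D c) = algebraMap ℂ s'.D c) ∧ (∀ g, j (s.ι g) = s'.ι (i g)) ∧
      (∀ d, j d ∈ s'.fld i.range) ∧ ∀ d ∈ s'.fld i.range, ∃ a, j a = d

def S_FRAC : Prop :=
  ∀ (s : Sys.{u}) (ℛ : Real s) (A : Subgroup s.Γ) (J : Type u) [Finite J] (d : J → s.D),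
    SAC s.Γ → (∀ j, d j ∈ s.fld A) →
    (∃ t ∈ SS s.Γ, ∃ n : J → NN s.Γ, ∀ j, SplitBy A (n j) ∧ nu t * ℛ.φ (d j) = nu (n j)) ∧
    ∃ t ∈ SS s.Γ, ∃ n : J → NN s.Γ, ∀ j, SplitBy A (n j) ∧ ℛ.φ (d j) * nu t = nu (n j)

def S_DENS : Prop :=
  ∀ (s : Sys.{u}) (ℛ : Real s) (C : Subgroup s.Γ) (J : Type u) [Fintype J] (y : J → s.D)
    (t : NN s.Γ) (n m : J → NN s.Γ), Full s.Γ →
    (∀ c : J → s.D, (∀ j, c j ∈ s.fld C) → ∑ j, c j * y j = 0 → ∀ j, c j = 0) → t ∈ SS s.Γ →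
    (∀ j, ℛ.φ (y j) * nu t = nu (n j)) →
    (∀ ξ, ∑ j, (m j).1 (res (C : Set s.Γ) ((n j).1 ξ)) = 0) → ∀ j, m j = 0

def S_LD : Prop := ∀ s : Sys.{u}, Nonempty (Real s) → Full s.Γ → s.LD

/-- Linear maps out of an induced module with prescribed values. -/
def S_TREL : Prop :=
  ∀ (s : Sys.{u}) (W V M : Type u) [MulAction s.Γ W] [AddCommGroup V] [Module s.D V]
    [AddCommGroup M] [Module s.D M] (R : W → V → M → Prop),
    (∀ (g : s.Γ) w v m, R w v m → R (g • w) (s.ι g • v) (s.ι g • m)) →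
    (∀ (w : W) (J : Type u) [Fintype J] (κ : J → s.D) (v : J → V) (m : J → M),
      (∀ j, κ j ∈ s.fld (stabilizer s.Γ w)) → (∀ j, R w (v j) (m j)) → ∑ j, κ j • v j = 0 →
      ∑ j, κ j • m j = 0) →
    ∃ Φ : s.Ten W V →ₗ[s.D] M, ∀ w v m, R w v m → Φ (s.t w v) = m

/-- Injectivity of the boundary map on elements in normal form. -/
def CL1' (s : Sys.{u}) : Prop :=
  ∀ (Vt E : Type u) [MulAction s.Γ Vt] [MulAction s.Γ E] (Tr : TreeData s.Γ Vt E) (J : Type u)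
    [Fintype J] (e : J → E) (d y : J → s.D), (∀ (j j' : J) (g : s.Γ), g • e j = e j' → e j = e j') →
    (∀ (e₀ : E) (c : J → s.D), (∀ j, c j ∈ s.fld (stabilizer s.Γ e₀)) → (∀ j, e j ≠ e₀ → c j = 0) →
      ∑ j, c j * y j = 0 → ∀ j, c j = 0) →
    bd s.D Tr (∑ j, d j • s.t (e j) (y j)) = 0 → ∀ j, d j = 0

def S_NF : Prop := ∀ s : Sys.{u}, CL1' s → s.CL1

def S_CL1 : Prop := ∀ s : Sys.{u}, Nonempty (Real s) → Full s.Γ → CL1' s

/-- The ring of `𝒢` is the ring of quotients of `G`. -/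
structure Cmp {s : Sys.{u}} (ℛ : Real s) {inc : s.Γ →* G} {hi : Function.Injective inc}
    (𝓘 : Ind inc hi) (𝒢 : s.GS G inc) (ψ : 𝒢.R ≃+* UU G) : Prop where
  j : ∀ d, ψ (𝒢.jR d) = 𝓘.U (ℛ.φ d)
  i : ∀ g, ψ (𝒢.ιG g) = nu (rho g)

def S_GS : Prop :=
  ∀ (s : Sys.{u}) (ℛ : Real s) (G : Type u) [Group G] (inc : s.Γ →* G)
    (hi : Function.Injective inc) (𝓘 : Ind inc hi), inc.range.Normal →
    ∃ (𝒢 : s.GS G inc) (ψ : 𝒢.R ≃+* UU G), Cmp ℛ 𝓘 𝒢 ψ

def S_NZ : Prop :=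
  ∀ (s : Sys.{u}) (ℛ : Real s) (G : Type u) [Group G] (inc : s.Γ →* G)
    (hi : Function.Injective inc) (𝓘 : Ind inc hi) (𝒢 : s.GS G inc) (ψ : 𝒢.R ≃+* UU G),
    Cmp ℛ 𝓘 𝒢 ψ → ∀ B : Subgroup G, SAC B → 𝒢.NZ B

def S_RK : Prop :=
  ∀ (s : Sys.{u}) (ℛ : Real s) (G : Type u) [Group G] (inc : s.Γ →* G)
    (hi : Function.Injective inc) (𝓘 : Ind inc hi) (𝒢 : s.GS G inc) (ψ : 𝒢.R ≃+* UU G),
    Cmp ℛ 𝓘 𝒢 ψ → inc.range.FiniteIndex →
    ∀ (m n : ℕ) (A : Fin m → Fin n → G →₀ ℂ) (W : Submodule ℂ (L2 (Tw G (Fin n)))), IsKer A W →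
      inc.range.index * edim G W + Module.finrank s.D (𝒢.Rel A) =
        ((inc.range.index * n : ℕ) : ℝ≥0∞)

end Pool.Agent.P.MP_0f25e6_al.VT.B
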