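import Mathlib

/-!
The Čech complex of a monotone family of submodules indexed by the finite subsets of a set.
-/

set_option autoImplicit false

noncomputable section

namespace Pool.Agent.P.MP_0f25e6_al.VT

section Cech

/-- Cochains of degree `n`. -/
abbrev Co (I E : Type*) (n : ℕ) : Type _ := (Fin (n + 1) → I) → E

variable (L : Type*) [DivisionRing L] {E : Type*} [AddCommGroup E] [Module L E] {I : Type*}

/-- The differential. -/
def dd (n : ℕ) : Co I E n →ₗ[L] Co I E (n + 1) where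
  toFun φ τ := ∑ l : Fin (n + 2), (-1 : ℤ) ^ (l : ℕ) • φ (τ ∘ l.succAbove)
  map_add' φ ψ := by
    ext τ
    simp [Finset.sum_add_distrib]
  map_smul' a φ := by
    ext τ
    simp only [Pi.smul_apply, RingHom.id_apply, Finset.smul_sum]
    exact Finset.sum_congr rfl fun l _ => smul_comm _ _ _

theorem dd_apply (n : ℕ) (φ : Co I E n) (τ : Fin (n + 2) → I) :
    dd L n φ τ = ∑ l : Fin (n + 2), (-1 : ℤ) ^ (l : ℕ) • φ (τ ∘ l.succAbove) := rfl

/-- The cone operator. -/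
def cone (k : I) (n : ℕ) : Co I E (n + 1) →ₗ[L] Co I E n where
  toFun φ τ := φ (Fin.cons k τ)
  map_add' _ _ := rfl
  map_smul' _ _ := rfl

theorem cone_apply (k : I) (n : ℕ) (φ : Co I E (n + 1)) (τ : Fin (n + 1) → I) :
    cone L k n φ τ = φ (Fin.cons k τ) := rfl

theorem cons_comp_succAbove {n : ℕ} (k : I) (τ : Fin (n + 1) → I) (l : Fin (n + 1)) :
    (Fin.cons k τ : Fin (n + 2) → I) ∘ l.succ.succAbove = Fin.cons k (τ ∘ l.succAbove) := by
  ext a
  induction a using Fin.cases <;> simp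

theorem cone_dd_succ (k : I) (n : ℕ) (φ : Co I E (n + 1)) :
    cone L k (n + 1) (dd L (n + 1) φ) = φ - dd L n (cone L k n φ) := by
  ext τ
  rw [cone_apply, dd_apply, Fin.sum_univ_succ, Pi.sub_apply, dd_apply, sub_eq_add_neg,
    ← Finset.sum_neg_distrib]
  congr 1
  · simp only [Fin.val_zero, pow_zero, one_smul]
    congr 1
  · refine Finset.sum_congr rfl fun l _ => ?_
    rw [cons_comp_succAbove, Fin.val_succ, pow_succ, mul_neg_one, neg_smul, cone_apply]

theorem cone_dd_zero (k : I) (φ : Co I E 0) (τ : Fin 1 → I) :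
    cone L k 0 (dd L 0 φ) τ = φ τ - φ fun _ => k := by
  rw [cone_apply, dd_apply, Fin.sum_univ_two, sub_eq_add_neg]
  congr 1
  · simp only [Fin.val_zero, pow_zero, one_smul]
    congr 1
  · simp only [Fin.val_one, pow_one, neg_smul, one_smul]
    congr 2
    ext a
    rw [Fin.eq_zero a]
    rfl

theorem dd_dd (n : ℕ) (φ : Co I E n) : dd L (n + 1) (dd L n φ) = 0 := by
  induction n with
  | zero =>
    ext τ
    rw [← Fin.cons_self_tail τ]
    change cone L (τ 0) 1 (dd L 1 (dd L 0 φ)) (Fin.tail τ) = _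
    rw [cone_dd_succ, Pi.sub_apply, dd_apply, dd_apply,
      Fin.sum_univ_two, Fin.sum_univ_two, cone_dd_zero, cone_dd_zero]
    simp
  | succ n ih =>
    ext τ
    rw [← Fin.cons_self_tail τ]
    change cone L (τ 0) (n + 2) (dd L (n + 2) (dd L (n + 1) φ)) (Fin.tail τ) = _
    rw [cone_dd_succ, cone_dd_succ, map_sub, ih]
    simp

variable {L} [DecidableEq I] (B : Finset I → Submodule L E)

/-- Cochains with values in the family. -/
def Cn (n : ℕ) : Submodule L (Co I E n) where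
  carrier := {φ | ∀ τ, φ τ ∈ B (Finset.univ.image τ)}
  add_mem' ha hb τ := add_mem (ha τ) (hb τ)
  zero_mem' _ := zero_mem _
  smul_mem' a _ h τ := Submodule.smul_mem _ a (h τ)

/-- Cocycles. -/
def Zn (n : ℕ) : Submodule L (Co I E n) := Cn B n ⊓ LinearMap.ker (dd L n)

/-- Coboundaries. -/
def Bn : (n : ℕ) → Submodule L (Co I E n)
  | 0 => ⊥
  | n + 1 => (Cn B n).map (dd L n)

/-- Cohomology. -/
abbrev Hn (n : ℕ) : Type _ := Zn B n ⧸ (Bn B n).submoduleOf (Zn B n)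

/-- The dimension of the cohomology. -/
def hd (n : ℕ) : ℕ := Module.finrank L (Hn B n)

/-- All cohomology is finite dimensional and almost all of it vanishes. -/
def Tame : Prop := (∀ n, Module.Finite L (Hn B n)) ∧ ∃ N, ∀ n, N ≤ n → Zn B n ≤ Bn B n

/-- All cohomology vanishes. -/
def Acyc : Prop := ∀ n, Zn B n ≤ Bn B n

/-- The Euler characteristic. -/
def chi : ℤ := ∑ᶠ n : ℕ, (-1 : ℤ) ^ n * (hd B n : ℤ)

/-- The inclusion of `B'` in `B` is an isomorphism on cohomology. -/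
def QIso (B' B : Finset I → Submodule L E) : Prop :=
  B' ≤ B ∧ ∀ n, Zn B n ≤ Zn B' n ⊔ Bn B n ∧ Zn B' n ⊓ Bn B n ≤ Bn B' n

/-- The classes of the cocycles `z i` form a basis of the cohomology in degree `n`. -/
def HBasis (n : ℕ) {J : Type*} (z : J → Co I E n) : Prop :=
  (∀ j, z j ∈ Zn B n) ∧ (Zn B n ≤ Submodule.span L (Set.range z) ⊔ Bn B n) ∧
    ∀ a : J →₀ L, Finsupp.linearCombination L z a ∈ Bn B n → a = 0

variable {B}

theorem mem_Cn {n : ℕ} {φ : Co I E n} : φ ∈ Cn B n ↔ ∀ τ, φ τ ∈ B (Finset.univ.image τ) := Iff.rfl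

theorem mem_Zn {n : ℕ} {φ : Co I E n} : φ ∈ Zn B n ↔ φ ∈ Cn B n ∧ dd L n φ = 0 := Iff.rfl

theorem mem_Bn_zero {φ : Co I E 0} : φ ∈ Bn B 0 ↔ φ = 0 := Iff.rfl

theorem mem_Bn_succ {n : ℕ} {φ : Co I E (n + 1)} :
    φ ∈ Bn B (n + 1) ↔ ∃ ψ ∈ Cn B n, dd L n ψ = φ := Iff.rfl

theorem dd_mem_Cn (hB : Monotone B) {n : ℕ} {φ : Co I E n} (h : φ ∈ Cn B n) :
    dd L n φ ∈ Cn B (n + 1) := fun τ => by
  rw [dd_apply]
  refine Submodule.sum_mem _ fun l _ => zsmul_mem (hB ?_ (h (τ ∘ l.succAbove))) _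
  intro i hi
  obtain ⟨a, -, rfl⟩ := Finset.mem_image.1 hi
  exact Finset.mem_image_of_mem τ (Finset.mem_univ _)

theorem Bn_le_Zn (hB : Monotone B) (n : ℕ) : Bn B n ≤ Zn B n := by
  cases n with
  | zero => exact bot_le
  | succ n =>
    rintro _ ⟨ψ, hψ, rfl⟩
    exact ⟨dd_mem_Cn hB hψ, dd_dd L n ψ⟩

theorem Cn_mono {B' : Finset I → Submodule L E} (h : B' ≤ B) (n : ℕ) : Cn B' n ≤ Cn B n :=
  fun _ hφ τ => h _ (hφ τ)

theorem Zn_mono {B' : Finset I → Submodule L E} (h : B' ≤ B) (n : ℕ) : Zn B' n ≤ Zn B n :=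
  inf_le_inf_right _ (Cn_mono h n)

theorem Bn_mono {B' : Finset I → Submodule L E} (h : B' ≤ B) (n : ℕ) : Bn B' n ≤ Bn B n := by
  cases n with
  | zero => exact le_rfl
  | succ n => exact Submodule.map_mono (Cn_mono h n)

theorem hd_eq_zero {n : ℕ} (h : Zn B n ≤ Bn B n) : Subsingleton (Hn B n) :=
  Submodule.Quotient.subsingleton_iff.2 (eq_top_iff.2 fun x _ => h x.2)

theorem Acyc.tame (h : Acyc B) : Tame B :=
  ⟨fun n => have := hd_eq_zero (h n); inferInstance, 0, fun n _ => h n⟩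

theorem Acyc.chi (h : Acyc B) : chi B = 0 :=
  finsum_eq_zero_of_forall_eq_zero fun n => by
    have := hd_eq_zero (h n)
    rw [hd, Module.finrank_zero_of_subsingleton]
    simp

end Cech

end Pool.Agent.P.MP_0f25e6_al.VT
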