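import Pool.Agent.P.MP_0f25e6_al.HN8

/-!
The strong Atiyah property is local, and a countable group acts on the tree of cosets of a chain
of finitely generated subgroups.
-/

set_option autoImplicit false

open scoped InnerProductSpace
open MulAction

noncomputable section

namespace Pool.Agent.P.MP_0f25e6_al.VT

universe u

open HN

theorem sac_of_fg {G : Type u} [Group G] (h : ∀ K : Subgroup G, K.FG → SAC K) : SAC G := by
  classical
  refine MatSAC.sac fun m n A W hW => ?_
  let t : Finset G := Finset.univ.biUnion fun p : Fin m × Fin n => (A p.1 p.2).support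
  let K : Subgroup G := Subgroup.closure (t : Set G)
  have hK : ∀ i j, ∀ k ∈ (A i j).support, k ∈ K := fun i j k hk =>
    Subgroup.subset_closure (Finset.mem_coe.2
      (Finset.mem_biUnion.2 ⟨(i, j), Finset.mem_univ _, hk⟩))
  let A' : Fin m → Fin n → K →₀ ℂ := fun i j => (A i j).subtypeDomain (· ∈ K)
  have hs : ∀ i j (F : G → ℂ), ∑ k ∈ (A' i j).support, A' i j k * F k =
      ∑ k ∈ (A i j).support, A i j k * F k := fun i j F => by
    simp only [A', Finsupp.support_subtypeDomain, Finsupp.subtypeDomain_apply]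
    exact Finset.sum_subtype_of_mem (fun k => A i j k * F k) (hK i j)
  obtain ⟨W', hc, hW'⟩ := exists_matKer A'
  obtain ⟨d, hd⟩ := (h K ⟨t, rfl⟩).mat m n A' W' hW'
  let e : K × Fin n → G × Fin n := fun p => (p.1, p.2)
  have he : Function.Injective e := fun p q hpq =>
    Prod.ext (Subtype.ext (congrArg Prod.fst hpq)) (congrArg Prod.snd hpq :)
  have h1 : ∀ w ∈ W, pull e he w ∈ W' := fun w hw => (hW' _).2 fun g i => by
    rw [← (hW w).1 hw g i]
    exact Finset.sum_congr rfl fun j _ => hs i j fun k => w (k⁻¹ * g, j)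
  have h2 : ∀ p ∈ W', push e he p ∈ W := fun p hp => (hW _).2 fun g i => by
    by_cases hg : g ∈ K
    · rw [← (hW' p).1 hp ⟨g, hg⟩ i]
      refine Finset.sum_congr rfl fun j _ => ?_
      rw [← hs i j fun k => push e he p (k⁻¹ * g, j)]
      exact Finset.sum_congr rfl fun k _ =>
        congrArg _ (push_apply_self e he p (k⁻¹ * ⟨g, hg⟩, j))
    · refine Finset.sum_eq_zero fun j _ => Finset.sum_eq_zero fun k hk => ?_
      rw [push_apply_not e he p fun y hy => hg ?_, mul_zero]
      have h3 : (y.1 : G) = k⁻¹ * g := congrArg Prod.fst hy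
      rw [← mul_inv_cancel_left k g, ← h3]
      exact mul_mem (hK i j k hk) y.1.2
  have h3 : ∀ j, proj W (delta (1, j)) = push e he (proj W' (delta (1, j))) := fun j =>
    proj_delta_eq (h2 _ (cl_le le_rfl hc (proj_mem W' _))) fun w hw => by
      rw [← inner_eq_tsum', inner_push_right, inner_eq_tsum',
        proj_delta_spec W' _ _ (h1 w hw)]
      rfl
  refine ⟨d, Complex.ofReal_injective ?_⟩
  rw [← hd, Complex.ofReal_sum, Complex.ofReal_sum]
  refine Finset.sum_congr rfl fun j _ => ?_
  rw [← proj_delta_apply, ← proj_delta_apply, h3]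
  exact push_apply_self e he _ (1, j)

section Chain

variable {G : Type u} [Group G] (K : ℕ → Subgroup G)

/-- Cosets of the members of a chain of subgroups. -/
def Cos : Type u := Σ n : ℕ, G ⧸ K n

instance : MulAction G (Cos K) := inferInstanceAs (MulAction G (Σ n : ℕ, G ⧸ K n))

variable {K}

/-- The next coset in the chain. -/
def Cos.up (hK : Monotone K) (v : Cos K) : Cos K :=
  ⟨v.1 + 1, Subgroup.quotientMapOfLE (hK (Nat.le_succ _)) v.2⟩

theorem Cos.up_smul (hK : Monotone K) (g : G) (v : Cos K) :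
    Cos.up hK (g • v) = g • Cos.up hK v := by
  obtain ⟨n, q⟩ := v
  induction q using QuotientGroup.induction_on with
  | H a => rfl

theorem Cos.up_iter (hK : Monotone K) (k n : ℕ) (a : G) :
    (Cos.up hK)^[k] ⟨n, (a : G ⧸ K n)⟩ = ⟨n + k, (a : G ⧸ K (n + k))⟩ := by
  induction k with
  | zero => rfl
  | succ k ih => rw [Function.iterate_succ_apply', ih]; rfl

theorem Cos.up_iter_fst (hK : Monotone K) (k : ℕ) (v : Cos K) :
    ((Cos.up hK)^[k] v).1 = v.1 + k := by
  obtain ⟨n, q⟩ := v
  induction q using QuotientGroup.induction_on with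
  | H a => rw [Cos.up_iter]

/-- The tree of cosets. -/
def cosTree (hK : Monotone K) (hU : ∀ g, ∃ n, g ∈ K n) : TreeData G (Cos K) (Cos K) where
  o := id
  t := Cos.up hK
  o_smul _ _ := rfl
  t_smul := Cos.up_smul hK
  ne := ⟨⟨0, (1 : G)⟩⟩
  conn S hS := by
    have h1 : ∀ k v, v ∈ S ↔ (Cos.up hK)^[k] v ∈ S := fun k v => by
      induction k with
      | zero => rfl
      | succ k ih => rw [Function.iterate_succ_apply']; exact ih.trans (hS _)
    rintro ⟨n, q⟩ hv ⟨m, r⟩
    induction q using QuotientGroup.induction_on with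
    | H a =>
    induction r using QuotientGroup.induction_on with
    | H b =>
    obtain ⟨l, hl⟩ := hU (a⁻¹ * b)
    rw [h1 (n + l), Cos.up_iter]
    rw [h1 (m + l), Cos.up_iter] at hv
    have h2 : n + (m + l) = m + (n + l) := by omega
    rw [h2, QuotientGroup.eq.2 (hK (by omega : l ≤ m + (n + l)) hl)] at hv
    exact hv
  cut e := by
    refine ⟨{v | ∀ k, (Cos.up hK)^[k] v ≠ e}, fun k hk => ?_, fun h => h 0 rfl, fun e' he => ?_⟩
    · have h1 := congrArg Sigma.fst hk
      rw [Cos.up_iter_fst] at h1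
      change e.1 + 1 + k = e.1 at h1
      omega
    · refine ⟨fun h k => h (k + 1), fun h k => ?_⟩
      cases k with
      | zero => exact he
      | succ k => exact h k

theorem exists_stab_inj (v : Cos K) :
    ∃ f : stabilizer G v →* K v.1, Function.Injective f := by
  obtain ⟨n, q⟩ := v
  induction q using QuotientGroup.induction_on with
  | H a =>
  have h : ∀ g : stabilizer G (⟨n, (a : G ⧸ K n)⟩ : Cos K),
      ((MulAut.conj a⁻¹).toMonoidHom.comp (Subgroup.subtype _)) g ∈ K n := fun g => by
    have h1 : (⟨n, ((g.1 * a : G) : G ⧸ K n)⟩ : Σ n : ℕ, G ⧸ K n) = ⟨n, (a : G ⧸ K n)⟩ := g.2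
    have h2 := QuotientGroup.eq.1 (eq_of_heq (Sigma.mk.inj h1).2).symm
    simpa [mul_assoc] using h2
  exact ⟨MonoidHom.codRestrict _ _ h, fun x y hxy =>
    Subtype.ext ((MulAut.conj a⁻¹).injective (congrArg Subtype.val hxy))⟩

end Chain

theorem exists_chain (G : Type u) [Group G] [Countable G] :
    ∃ K : ℕ → Subgroup G, Monotone K ∧ (∀ g, ∃ n, g ∈ K n) ∧ ∀ n, (K n).FG := by
  classical
  obtain ⟨f, hf⟩ := exists_surjective_nat G
  refine ⟨fun n => Subgroup.closure ((Finset.range n).image f : Finset G), fun m n h =>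
    Subgroup.closure_mono (Finset.coe_subset.2
      (Finset.image_subset_image (Finset.range_mono h))), fun g => ?_, fun n => ⟨_, rfl⟩⟩
  obtain ⟨n, rfl⟩ := hf g
  exact ⟨n + 1, Subgroup.subset_closure (Finset.mem_coe.2
    (Finset.mem_image_of_mem f (Finset.self_mem_range_succ n)))⟩

end Pool.Agent.P.MP_0f25e6_al.VT
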