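import Pool.Agent.P.MP_0f25e6_al.VT.PZero
import Pool.Agent.P.MP_0f25e6_al.VT.Loc

/-!
Closure properties of the induction statement for countable subgroups.
-/

set_option autoImplicit false

open MulAction

namespace Pool.Agent.P.MP_0f25e6_al.VT

universe u

/-- The induction statement holds for all countable subgroups. -/
def PC (X : Type u) [Group X] : Prop :=
  ∀ (Y : Type u) [Group Y] [Countable Y] (f : Y →* X), Function.Injective f → PX Y

variable {X : Type u} [Group X]

theorem PC.sub {K : Subgroup X} (h : PC K) {Y : Type u} [Group Y] [Countable Y] {f : Y →* X}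
    (hf : Function.Injective f) {M : Subgroup Y} (hM : ∀ y ∈ M, f y ∈ K) : PX M :=
  h M ((f.comp M.subtype).codRestrict K fun y => hM y y.2) fun _ _ hab =>
    Subtype.ext (hf (congrArg Subtype.val hab))

theorem pc_finite [Finite X] : PC X := fun _ _ _ f hf => px_finite.of_inj f hf

theorem pc_virt (H : Subgroup X) [H.FiniteIndex] (h : PC H) : PC X := fun _ _ _ f hf =>
  have : (H.comap f).FiniteIndex := ⟨fun h0 => Subgroup.FiniteIndex.index_ne_zero (H := H)
    (Subgroup.index_eq_zero_of_relIndex_eq_zero ((H.index_comap f).symm.trans h0))⟩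
  px_virt (H.comap f) (h.sub hf fun _ hy => hy)

theorem pc_tree (hP : PPT.{u}) {V : Type u} [MulAction X V] {T : SimpleGraph V} (hT : T.IsTree)
    (hadj : ∀ (g : X) (u v : V), T.Adj u v → T.Adj (g • u) (g • v))
    (hst : ∀ (K : Subgroup X) (u v : V), u = v ∨ T.Adj u v →
      (∀ h ∈ K, s(h • u, h • v) = s(u, v)) → PC K) : PC X := fun Y _ _ f hf =>
  letI : MulAction Y V := MulAction.compHom V f
  px_tree hP hT (fun g => hadj (f g)) fun K u v huv hK =>
    (hst (K.map f) u v huv (by rintro _ ⟨y, hy, rfl⟩; exact hK y hy)).sub hf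
      fun _ hy => Subgroup.mem_map_of_mem f hy

theorem pc_loc (hP : PPT.{u}) (h : ∀ K : Subgroup X, K.FG → PC K) : PC X := fun Y _ _ f hf => by
  obtain ⟨K, h1, h2, h3⟩ := exists_chain Y
  refine px_treeData hP (cosTree h1 h2) fun v => ?_
  obtain ⟨i, hi⟩ := exists_stab_inj v
  obtain ⟨t, ht⟩ := h3 v.1
  classical
  exact ((h ((K v.1).map f) ⟨t.image f, by
    rw [← ht, MonoidHom.map_closure, Finset.coe_image]⟩).sub hf
      fun _ hy => Subgroup.mem_map_of_mem f hy).of_inj i hi

theorem PC.sac (h : PC X) (htf : ∀ (g : X) (k : ℕ), 0 < k → g ^ k = 1 → g = 1) : HN.SAC X :=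
  sac_of_fg fun K hK => by
    have : Group.FG K := (Group.fg_iff_subgroup_fg K).2 hK
    have : Countable K := by
      obtain ⟨α, _, φ, hφ⟩ := Group.fg_iff_exists_freeGroup_hom_surjective_finite.1 this
      exact hφ.countable
    exact ((h K K.subtype K.subtype_injective).full fun g k hk hg =>
      Subtype.ext (htf g k hk (congrArg Subtype.val hg))).sac

end Pool.Agent.P.MP_0f25e6_al.VT
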