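import Pool.Agent.P.MP_0f25e6_al.VT.Ten
import Pool.Agent.P.MP_0f25e6_al.VT.Cech

/-!
Families of subspaces, split bases, lamp extensions and the statements of the main induction.
-/

set_option autoImplicit false

open MulAction

noncomputable section

namespace Pool.Agent.P.MP_0f25e6_al.VT

universe u

section Sp

variable {D V : Type*} [DivisionRing D] [AddCommGroup V] [Module D V]

/-- The additive subgroup `P` is stable under the subfield `L`. -/
def Stab (L : Subfield D) (P : AddSubgroup V) : Prop := ∀ κ ∈ L, ∀ v ∈ P, κ • v ∈ P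

/-- A family of additive subgroups seen as a family of subspaces over the subfield `L`. -/
def spF {I : Type*} (L : Subfield D) (G : Finset I → AddSubgroup V) (S : Finset I) :
    Submodule L V := Submodule.span L (G S)

theorem mem_spF {I : Type*} {L : Subfield D} {G : Finset I → AddSubgroup V} {S : Finset I}
    (h : Stab L (G S)) {v : V} : v ∈ spF L G S ↔ v ∈ G S := by
  refine ⟨fun hv => ?_, fun hv => Submodule.subset_span hv⟩
  induction hv using Submodule.span_induction with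
  | mem x hx => exact hx
  | zero => exact zero_mem _
  | add x y _ _ hx hy => exact add_mem hx hy
  | smul a x _ hx => exact h a a.2 x hx

theorem spF_mono {I : Type*} (L : Subfield D) {G : Finset I → AddSubgroup V} (h : Monotone G) :
    Monotone (spF L G) := fun _ _ hS => Submodule.span_mono (h hS)

theorem Stab.mono {L L' : Subfield D} {P : AddSubgroup V} (h : Stab L P) (hL : L' ≤ L) :
    Stab L' P := fun κ hκ => h κ (hL hκ)

theorem Stab.inf {L : Subfield D} {P Q : AddSubgroup V} (h : Stab L P) (h' : Stab L Q) :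
    Stab L (P ⊓ Q) := fun κ hκ v hv => ⟨h κ hκ v hv.1, h' κ hκ v hv.2⟩

theorem stab_iSup {L : Subfield D} {J : Sort*} {P : J → AddSubgroup V} (h : ∀ j, Stab L (P j)) :
    Stab L (⨆ j, P j) := fun κ hκ _ hv =>
  (iSup_le (a := (⨆ j, P j).comap (DistribSMul.toAddMonoidHom V κ)) fun j v hv =>
    AddSubgroup.mem_iSup_of_mem j (h j κ hκ v hv)) hv

theorem stab_biSup {L : Subfield D} {I : Type*} {P : I → AddSubgroup V} {S : Finset I}
    (h : ∀ i ∈ S, Stab L (P i)) : Stab L (⨆ i ∈ S, P i) :=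
  stab_iSup fun i => stab_iSup fun hi => h i hi

theorem biSup_monotone {I : Type*} (P : I → AddSubgroup V) :
    Monotone fun S : Finset I => ⨆ i ∈ S, P i := fun _ _ h => biSup_mono fun _ hi => h hi

end Sp

/-- The set of points with property `P` meets only finitely many orbits. -/
def CofOrb (Γ : Type*) {X : Type*} [Group Γ] [MulAction Γ X] (P : X → Prop) : Prop :=
  ∃ t : Finset X, ∀ x, P x → ∃ g : Γ, g • x ∈ t

/-- Sum of an integer valued function over orbit representatives. -/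
def osz (Γ : Type*) {X : Type*} [Group Γ] [MulAction Γ X] (f : X → ℤ) : ℤ :=
  ∑ᶠ q : orbitRel.Quotient Γ X, f q.out

theorem stab_pi {Γ I W : Type*} [Group Γ] [MulAction Γ W] (c : I → W) :
    stabilizer Γ c = ⨅ i, stabilizer Γ (c i) := by
  ext g
  simp only [mem_stabilizer_iff, Subgroup.mem_iInf, funext_iff, Pi.smul_apply]

theorem stab_prod {Γ X Y : Type*} [Group Γ] [MulAction Γ X] [MulAction Γ Y] (x : X) (y : Y) :
    stabilizer Γ (x, y) = stabilizer Γ x ⊓ stabilizer Γ y := by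
  ext g
  simp only [mem_stabilizer_iff, Subgroup.mem_inf, Prod.smul_mk, Prod.mk.injEq]

namespace Sys

variable (s : Sys.{u})

/-- Linear disjointness, left form. -/
def LD : Prop :=
  ∀ (A K : Subgroup s.Γ) (n : ℕ) (a k : Fin n → s.D) (γ : Fin n → s.Γ),
    (∀ j, a j ∈ s.fld A) → (∀ j, k j ∈ s.fld K) →
    (∀ j, γ j = 1 ∨ ∀ α ∈ A, ∀ κ ∈ K, γ j ≠ α * κ) →
    (∀ c : Fin n → s.D, (∀ j, c j ∈ s.fld (A ⊓ K)) → (∀ j, γ j ≠ 1 → c j = 0) →
      ∑ j, c j * k j = 0 → ∀ j, c j = 0) →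
    ∑ j, a j * s.ι (γ j) * k j = 0 → ∀ j, γ j = 1 → a j = 0

/-- Linear disjointness, in the form of an extension property for coordinates. -/
def LDC : Prop :=
  ∀ (W : Type u) [MulAction s.Γ W] (w : W) (A : Subgroup s.Γ) (l : s.D →+ s.D),
    (∀ a ∈ s.fld A, l a ∈ s.fld (A ⊓ stabilizer s.Γ w)) →
    (∀ a ∈ s.fld A, ∀ κ ∈ s.fld (A ⊓ stabilizer s.Γ w), l (a * κ) = l a * κ) →
    ∃ C : s.Coord w, (∀ a ∈ s.fld A, C.c w a = l a) ∧
      ∀ a ∈ s.fld A, ∀ x, (∀ α ∈ A, α • w ≠ x) → C.c x a = 0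

/-- The right span over the skew field of `K` of the skew field of `A` times the group. -/
def X (A K : Subgroup s.Γ) : AddSubgroup s.D :=
  AddSubgroup.closure {d | ∃ a ∈ s.fld A, ∃ g : s.Γ, ∃ κ ∈ s.fld K, d = a * s.ι g * κ}

section Fam

variable (V W : Type u) [AddCommGroup V] [Module s.D V] [MulAction s.Γ W]

/-- An equivariant family of subspaces over the skew fields of the stabilisers. -/
structure Fam0 where
  /-- the subspaces -/
  F : W → AddSubgroup V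
  stab : ∀ w, Stab (s.fld (stabilizer s.Γ w)) (F w)
  eqv : ∀ (g : s.Γ) w, ∀ v ∈ F w, s.ι g • v ∈ F (g • w)

/-- A family of finite type with a base point. -/
structure Fam extends s.Fam0 V W where
  fd : ∀ w, ∃ t : Finset V, ∀ v,
    v ∈ F w ↔ v ∈ Submodule.span (s.fld (stabilizer s.Γ w)) (t : Set V)
  cof : CofOrb s.Γ fun w => F w ≠ ⊥
  /-- the base point -/
  star : W
  star_fix : ∀ g : s.Γ, g • star = star
  F_star : F star = ⊤

variable {s V W} {I : Type u}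

/-- Sums of the subspaces chosen by `c`. -/
def Fam.sum (𝓕 : s.Fam V W) (c : I → W) (S : Finset I) : AddSubgroup V := ⨆ i ∈ S, 𝓕.F (c i)

/-- The family `B_c`. -/
abbrev Fam.Bc (𝓕 : s.Fam V W) (c : I → W) :
    Finset I → Submodule (s.fld (stabilizer s.Γ c)) V := spF _ (𝓕.sum c)

/-- The family `B'_{w,c}`. -/
abbrev Fam.Bp (𝓕 : s.Fam V W) (p : W × (I → W)) :
    Finset I → Submodule (s.fld (stabilizer s.Γ p)) V := spF _ fun S => 𝓕.F p.1 ⊓ 𝓕.sum p.2 S

/-- The number of entries different from the base point. -/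
def Fam.act (𝓕 : s.Fam V W) (c : I → W) : ℕ := {i | c i ≠ 𝓕.star}.ncard

theorem Fam.sum_mono (𝓕 : s.Fam V W) (c : I → W) : Monotone (𝓕.sum c) := biSup_monotone _

theorem Fam.sum_empty (𝓕 : s.Fam V W) (c : I → W) : 𝓕.sum c ∅ = ⊥ := by simp [Fam.sum]

theorem Fam.stab_sum (𝓕 : s.Fam V W) (c : I → W) (S : Finset I) :
    Stab (s.fld (stabilizer s.Γ c)) (𝓕.sum c S) :=
  stab_biSup fun i _ => (𝓕.stab (c i)).mono (fld_mono fun _ hg => congrFun hg i)

theorem Fam.stab_inf_sum (𝓕 : s.Fam V W) (p : W × (I → W)) (S : Finset I) :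
    Stab (s.fld (stabilizer s.Γ p)) (𝓕.F p.1 ⊓ 𝓕.sum p.2 S) := by
  have h := stab_prod (Γ := s.Γ) p.1 p.2
  exact ((𝓕.stab p.1).mono (fld_mono (h.le.trans inf_le_left))).inf
    ((𝓕.stab_sum p.2 S).mono (fld_mono (h.le.trans inf_le_right)))

theorem Fam.smul_mem_sum (𝓕 : s.Fam V W) (g : s.Γ) (c : I → W) (S : Finset I) {v : V}
    (hv : v ∈ 𝓕.sum c S) : s.ι g • v ∈ 𝓕.sum (g • c) S :=
  (iSup₂_le (a := (𝓕.sum (g • c) S).comap (DistribSMul.toAddMonoidHom V (s.ι g)))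
    fun i hi v hv => (le_iSup₂_of_le (f := fun i (_ : i ∈ S) => 𝓕.F ((g • c) i)) i hi le_rfl :
      _ ≤ 𝓕.sum (g • c) S) (𝓕.eqv g (c i) v hv)) hv

theorem Fam.act_smul (𝓕 : s.Fam V W) (g : s.Γ) (c : I → W) : 𝓕.act (g • c) = 𝓕.act c := by
  simp only [Fam.act, Pi.smul_apply, ne_eq, smul_eq_iff_eq_inv_smul, 𝓕.star_fix]

theorem stab_T (A : Subgroup s.Γ) (Z : W → AddSubgroup V) : Stab (s.fld A) (s.T A Z) :=
  fun _ hκ _ hv => smul_mem_T hκ hv

end Fam

/-- A basis of `D` adapted to the subgroups `A i`, over every orbit of `W`. -/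
structure Spl (W : Type u) [MulAction s.Γ W] {I : Type u} (A : I → Subgroup s.Γ) where
  /-- index type -/
  B : Type u
  /-- the point -/
  w : B → W
  /-- the type of a basis element -/
  U : B → Finset I
  /-- the basis element -/
  a : B → s.D
  /-- the coordinate -/
  C : ∀ β, s.Coord (w β)
  a_mem : ∀ β, a β ∈ s.fld (⨅ i ∈ U β, A i)
  fin : ∀ x d, {β | (C β).c x d ≠ 0}.Finite
  sum : ∀ x d, ∑ᶠ β, a β * (C β).c x d = d
  orth_self : ∀ β, (C β).c (w β) (a β) = 1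
  orth : ∀ β β', β ≠ β' → (C β').c (w β) (a β) = 0
  ctl : ∀ (S : Finset I) x β, ∀ d ∈ s.fld (⨅ i ∈ S, A i), (C β).c x d ≠ 0 →
    S ⊆ U β ∧ (C β).c x d ∈ s.fld (⨅ i ∈ S, A i)

/-- A lamp extension of `s` along the set `W`, with its derivations. -/
structure Lamp (s' : Sys.{u}) (W : Type u) [MulAction s.Γ W] where
  /-- inclusion of groups -/
  e : s.Γ →* s'.Γ
  /-- retraction of groups -/
  p : s'.Γ →* s.Γ
  /-- inclusion of skew fields -/
  j : s.D →+* s'.D
  /-- the edge set -/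
  W' : Type u
  [act : MulAction s'.Γ W']
  /-- base edges -/
  sec : W → W'
  /-- projection of edges -/
  q : W' → W
  /-- lamps -/
  x : ℕ → W' → s'.Γ
  /-- derivations -/
  der : ℕ → s'.D →+ s'.Ten W' s'.D
  p_e : ∀ g, p (e g) = g
  j_alg : ∀ c, j (algebraMap ℂ s.D c) = algebraMap ℂ s'.D c
  j_ι : ∀ g, j (s.ι g) = s'.ι (e g)
  q_sec : ∀ w, q (sec w) = w
  q_smul : ∀ (g : s'.Γ) w, q (g • w) = p g • q w
  sec_smul : ∀ (g : s.Γ) w, sec (g • w) = e g • sec w
  surj : ∀ w, ∃ n : s'.Γ, p n = 1 ∧ w = n • sec (q w)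
  stab : ∀ w, stabilizer s'.Γ (sec w) = (stabilizer s.Γ w).map e
  p_x : ∀ i w, p (x i w) = 1
  x_smul : ∀ i (g : s'.Γ) w, x i (g • w) = g * x i w * g⁻¹
  ker : ∀ n, p n = 1 → n ∈ Subgroup.closure {y | ∃ i w, y = x i (sec w)}
  leib : ∀ i d d', der i (d * d') =
    d • der i d' + map W' (LinearMap.toSpanSingleton s'.D s'.D d') (der i d)
  der_j : ∀ i d, der i (j d) = 0
  der_alg : ∀ i c, der i (algebraMap ℂ s'.D c) = 0
  der_self : ∀ i w, der i (s'.ι (x i (sec w))) = s'.t (sec w) 1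
  der_ne : ∀ i i' w, i ≠ i' → der i (s'.ι (x i' (sec w))) = 0

attribute [instance] Lamp.act

section Lamp

variable {s} {s' : Sys.{u}} {W : Type u} [MulAction s.Γ W] (𝓛 : s.Lamp s' W)

theorem Lamp.e_inj : Function.Injective 𝓛.e := Function.LeftInverse.injective 𝓛.p_e

theorem Lamp.j_mem {A : Subgroup s.Γ} {B : Subgroup s'.Γ} (h : ∀ a ∈ A, 𝓛.e a ∈ B) {d : s.D}
    (hd : d ∈ s.fld A) : 𝓛.j d ∈ s'.fld B :=
  fld_le (L := (s'.fld B).comap 𝓛.j) (fun c => by
    change 𝓛.j _ ∈ s'.fld B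
    rw [𝓛.j_alg]
    exact alg_mem _ c) (fun g hg => by
    change 𝓛.j _ ∈ s'.fld B
    rw [𝓛.j_ι]
    exact ι_mem (h g hg)) hd

theorem Lamp.fld_map (A : Subgroup s.Γ) : s'.fld (A.map 𝓛.e) = (s.fld A).map 𝓛.j := by
  refine le_antisymm (fld_le (fun c => ⟨_, alg_mem A c, 𝓛.j_alg c⟩) ?_) ?_
  · rintro _ ⟨a, ha, rfl⟩
    exact ⟨_, ι_mem ha, 𝓛.j_ι a⟩
  · rintro _ ⟨d, hd, rfl⟩
    exact 𝓛.j_mem (fun a ha => Subgroup.mem_map_of_mem _ ha) hd

theorem Lamp.x_comm (i : ℕ) (w : 𝓛.W') {κ : s'.D} (h : κ ∈ s'.fld (stabilizer s'.Γ w)) :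
    s'.ι (𝓛.x i w) * κ = κ * s'.ι (𝓛.x i w) := by
  refine fld_induction (P := fun κ => s'.ι (𝓛.x i w) * κ = κ * s'.ι (𝓛.x i w))
    (fun c => (Algebra.commutes c _).symm) (fun g hg => ?_)
    (fun _ _ _ _ h h' => Commute.add_right h h') (fun _ _ _ _ h h' => Commute.mul_right h h')
    (fun _ _ _ h => Commute.inv_right₀ h) h
  have := 𝓛.x_smul i g w
  rw [hg, eq_mul_inv_iff_mul_eq] at this
  rw [← map_mul, ← map_mul, this]

/-- Multiplication through the lamps. -/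
def Lamp.mu (V' : Type u) [AddCommGroup V'] [Module s'.D V'] (i : ℕ) :
    s'.Ten 𝓛.W' V' →ₗ[s'.D] V' :=
  lift (fun w => DistribSMul.toAddMonoidHom V' (s'.ι (𝓛.x i w)))
    (fun w κ v h => by simp [smul_smul, 𝓛.x_comm i w h]) fun g w v => by
      simp [smul_smul, 𝓛.x_smul, mul_assoc, ι_ne_zero]

@[simp] theorem Lamp.mu_t {V' : Type u} [AddCommGroup V'] [Module s'.D V'] (i : ℕ) (w : 𝓛.W')
    (v : V') : 𝓛.mu V' i (s'.t w v) = s'.ι (𝓛.x i w) • v := lift_t _ _ _ _ _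

/-- Base change of a finite dimensional space along a lamp extension. -/
structure Lamp.BC (V V' : Type u) [AddCommGroup V] [Module s.D V] [AddCommGroup V']
    [Module s'.D V'] where
  /-- the map -/
  f : V →+ V'
  /-- the dimension -/
  n : ℕ
  /-- a basis -/
  b : Module.Basis (Fin n) s.D V
  /-- its image -/
  b' : Module.Basis (Fin n) s'.D V'
  f_smul : ∀ d v, f (d • v) = 𝓛.j d • f v
  f_b : ∀ k, f (b k) = b' k

variable {𝓛}

/-- The extension of a subspace to the skew field of the preimage of `A`. -/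
def Lamp.BC.til {V V' : Type u} [AddCommGroup V] [Module s.D V] [AddCommGroup V'] [Module s'.D V']
    (β : 𝓛.BC V V') (A : Subgroup s.Γ) (P : AddSubgroup V) : AddSubgroup V' :=
  AddSubgroup.closure {y | ∃ a ∈ s'.fld (A.comap 𝓛.p), ∃ v ∈ P, y = a • β.f v}

end Lamp

/-- A class of systems with linear disjointness that is closed under lamp extensions. -/
def Closed (P : Sys.{u} → Prop) : Prop :=
  ∀ s, P s → s.Gen ∧ s.LDC ∧ ∀ (W : Type u) [MulAction s.Γ W], ∃ s', P s' ∧ Nonempty (s.Lamp s' W)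

/-- Good systems. -/
def Good : Prop := ∃ P, Closed P ∧ P s

variable {s}

theorem Good.gen (h : s.Good) : s.Gen := let ⟨_, h1, h2⟩ := h; (h1 s h2).1

theorem Good.ldc (h : s.Good) : s.LDC := let ⟨_, h1, h2⟩ := h; (h1 s h2).2.1

theorem Good.lamp (h : s.Good) (W : Type u) [MulAction s.Γ W] :
    ∃ s', Good s' ∧ Nonempty (s.Lamp s' W) :=
  let ⟨P, h1, h2⟩ := h
  let ⟨s', h3, h4⟩ := (h1 s h2).2.2 W
  ⟨s', ⟨P, h1, h3⟩, h4⟩

end Sys

open Sys

/-- Distributivity of the spaces `X`. -/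
def MD (r : ℕ) : Prop :=
  ∀ (s : Sys.{u}), s.Good → ∀ (I : Type u) (S : Finset I), S.card ≤ r →
    ∀ (A₀ K : Subgroup s.Γ) (A : I → Subgroup s.Γ),
      s.X A₀ K ⊓ ⨆ i ∈ S, s.X (A i) K ≤ ⨆ i ∈ S, s.X (A₀ ⊓ A i) K

/-- Existence of adapted bases. -/
def SPL (n : ℕ) : Prop :=
  ∀ (s : Sys.{u}), s.Good → ∀ (W : Type u) [MulAction s.Γ W] (I : Type u) [Finite I]
    (A : I → Subgroup s.Γ), {i | A i ≠ ⊤}.ncard ≤ n → Nonempty (s.Spl W A)

/-- Finiteness of the cohomology of the families `B_c`. -/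
def FIN (n : ℕ) : Prop :=
  ∀ (s : Sys.{u}), s.Good → ∀ (V W : Type u) [AddCommGroup V] [Module s.D V] [Module.Finite s.D V]
    [MulAction s.Γ W] (𝓕 : s.Fam V W) (I : Type u) [Fintype I] [DecidableEq I] [Nonempty I],
    (∀ c : I → W, 𝓕.act c ≤ n → Tame (𝓕.Bc c)) ∧
      CofOrb s.Γ fun c : I → W => 𝓕.act c ≤ n ∧ ¬Acyc (𝓕.Bc c)

/-- Finiteness of the cohomology of the families `B'_{w,c}`. -/
def FINP (n : ℕ) : Prop :=
  ∀ (s : Sys.{u}), s.Good → ∀ (V W : Type u) [AddCommGroup V] [Module s.D V] [Module.Finite s.D V]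
    [MulAction s.Γ W] (𝓕 : s.Fam V W) (I : Type u) [Fintype I] [DecidableEq I] [Nonempty I],
    (∀ p : W × (I → W), 𝓕.act p.2 ≤ n → Tame (𝓕.Bp p)) ∧
      CofOrb s.Γ fun p : W × (I → W) => 𝓕.act p.2 ≤ n ∧ ¬Acyc (𝓕.Bp p)

namespace Sys

variable {s : Sys.{u}} {V W : Type u} [AddCommGroup V] [Module s.D V] [MulAction s.Γ W]

/-- Trees whose cells index the family. -/
structure Cells (𝓕 : s.Fam V W) (I : Type u) where
  /-- vertices -/
  Vt : I → Type u
  /-- edges -/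
  Ed : I → Type u
  [aV : ∀ i, MulAction s.Γ (Vt i)]
  [aE : ∀ i, MulAction s.Γ (Ed i)]
  /-- the trees -/
  Tr : ∀ i, HN.TreeData s.Γ (Vt i) (Ed i)
  /-- vertices as points of `W` -/
  iv : ∀ i, Vt i → W
  /-- edges as points of `W` -/
  ie : ∀ i, Ed i → W
  /-- the tree and the dimension of a cell -/
  lab : W → Option (I × Bool)
  iv_smul : ∀ i (g : s.Γ) v, iv i (g • v) = g • iv i v
  ie_smul : ∀ i (g : s.Γ) e, ie i (g • e) = g • ie i e
  iv_inj : ∀ i, Function.Injective (iv i)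
  ie_inj : ∀ i, Function.Injective (ie i)
  lab_iv : ∀ i w, lab w = some (i, false) ↔ ∃ v, iv i v = w
  lab_ie : ∀ i w, lab w = some (i, true) ↔ ∃ e, ie i e = w
  lab_star : lab 𝓕.star = none
  inj : ∀ i, Function.Injective (bd V (Tr i))
  t1 : ∀ i e, 𝓕.F (ie i e) ≤ 𝓕.F (iv i ((Tr i).o e)) ⊓ 𝓕.F (iv i ((Tr i).t e))
  t2 : ∀ i, ∀ ε ∈ s.T ⊤ fun v => 𝓕.F (iv i v), s.mu _ V ε = 0 →
    ∃ ζ ∈ s.T ⊤ fun e => 𝓕.F (ie i e), bd V (Tr i) ζ = ε
  t3 : ∀ i w, ∀ z ∈ 𝓕.F w, z ∈ Submodule.span (s.fld (stabilizer s.Γ w))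
    {y | y ∈ 𝓕.F w ∧ ∃ v, y ∈ 𝓕.F (iv i v)}

attribute [instance] Cells.aV Cells.aE

/-- `c` chooses a cell in each tree. -/
def Cells.IsSec {𝓕 : s.Fam V W} {I : Type u} (𝒞 : Cells 𝓕 I) (c : I → W) : Prop :=
  ∀ i, ∃ b, 𝒞.lab (c i) = some (i, b)

open Classical in
/-- The signed Euler characteristic of a cell of the product. -/
def Cells.wt {𝓕 : s.Fam V W} {I : Type u} [DecidableEq I] (𝒞 : Cells 𝓕 I) (c : I → W) : ℤ :=
  if 𝒞.IsSec c then (-1) ^ {i | 𝒞.lab (c i) = some (i, true)}.ncard * chi (𝓕.Bc c) else 0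

variable (s) in
/-- A ring that contains the skew field and an overgroup `G`. -/
structure GS (G : Type u) [Group G] (inc : s.Γ →* G) where
  /-- the ring -/
  R : Type u
  [ring : Ring R]
  /-- the skew field in the ring -/
  jR : s.D →+* R
  /-- the group in the ring -/
  ιG : G →* R
  /-- conjugation -/
  α : G →* RingAut s.D
  jι : ∀ h, jR (s.ι h) = ιG (inc h)
  conj : ∀ g d, ιG g * jR d = jR (α g d) * ιG g
  α_alg : ∀ g c, α g (algebraMap ℂ s.D c) = algebraMap ℂ s.D c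
  α_ι : ∀ g h h', inc h' = g * inc h * g⁻¹ → α g (s.ι h) = s.ι h'
  indep : ∀ (n : ℕ) (d : Fin n → s.D) (g : Fin n → G),
    (∀ a b, g a * (g b)⁻¹ ∈ inc.range → a = b) → ∑ a, jR (d a) * ιG (g a) = 0 → ∀ a, d a = 0

attribute [instance] GS.ring

section GS

variable {G : Type u} [Group G] {inc : s.Γ →* G} (𝒢 : s.GS G inc)

instance : Module s.D 𝒢.R := Module.compHom _ 𝒢.jR

theorem GS.smul_def (d : s.D) (r : 𝒢.R) : d • r = 𝒢.jR d * r := rfl

/-- Nonzero elements of the crossed product attached to `B` are units. -/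
def GS.NZ (B : Subgroup G) : Prop :=
  ∀ x ∈ AddSubgroup.closure {y | ∃ d ∈ s.fld (B.comap inc), ∃ b ∈ B, y = 𝒢.jR d * 𝒢.ιG b},
    x ≠ 0 → IsUnit x

/-- Divisibility of dimensions of spaces with a semilinear action of `B`. -/
def GS.DIV (B : Subgroup G) : Prop :=
  ∀ (E : Type u) [AddCommGroup E] [Module (s.fld (B.comap inc)) E]
    [Module.Finite (s.fld (B.comap inc)) E] (σ : B →* AddMonoid.End E),
    (∀ (b : B) (l l' : s.fld (B.comap inc)) v, (l' : s.D) = 𝒢.α b l → σ b (l • v) = l' • σ b v) →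
    (∀ (b : B) (h : s.Γ) (l : s.fld (B.comap inc)) v, inc h = b → (l : s.D) = s.ι h →
      σ b v = l • v) →
    inc.range.relIndex B ∣ Module.finrank (s.fld (B.comap inc)) E

/-- The image of an element of the group ring. -/
def GS.emb (a : G →₀ ℂ) : 𝒢.R := a.sum fun g c => 𝒢.jR (algebraMap ℂ s.D c) * 𝒢.ιG g

/-- The span of the translates of the rows of a matrix. -/
def GS.Rel {m n : ℕ} (A : Fin m → Fin n → G →₀ ℂ) : Submodule s.D (Fin n → 𝒢.R) :=
  Submodule.span s.D {r | ∃ (g : G) (i : Fin m), r = fun j => 𝒢.ιG g * 𝒢.emb (A i j)}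

/-- The action of `G` on `V` is semilinear and extends that of the skew field. -/
structure GS.Semi (V : Type u) [AddCommGroup V] [Module s.D V] [DistribMulAction G V] : Prop where
  smul : ∀ (g : G) (d : s.D) (v : V), g • d • v = 𝒢.α g d • g • v
  inc : ∀ (h : s.Γ) (v : V), inc h • v = s.ι h • v

end GS

end Sys

/-- The stabiliser of a section. -/
def secStab (G : Type*) {I W : Type*} [Group G] [MulAction G I] [MulAction G W] (c : I → W) :
    Subgroup G where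
  carrier := {g | ∀ i, g • c i = c (g • i)}
  one_mem' i := by simp
  mul_mem' {a b} ha hb i := by rw [mul_smul, hb, ha, mul_smul]
  inv_mem' {a} ha i := by rw [inv_smul_eq_iff, ha, smul_inv_smul]

/-- A finite family of trees permuted by `G`. -/
structure PT (G : Type u) [Group G] where
  /-- index set -/
  I : Type u
  /-- vertices -/
  Vt : Type u
  /-- edges -/
  Ed : Type u
  [fin : Finite I]
  [ne : Nonempty I]
  [aI : MulAction G I]
  [aV : MulAction G Vt]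
  [aE : MulAction G Ed]
  /-- the tree of a vertex -/
  π : Vt → I
  /-- origin -/
  o : Ed → Vt
  /-- terminus -/
  t : Ed → Vt
  π_smul : ∀ (g : G) v, π (g • v) = g • π v
  o_smul : ∀ (g : G) e, o (g • e) = g • o e
  t_smul : ∀ (g : G) e, t (g • e) = g • t e
  π_t : ∀ e, π (t e) = π (o e)
  surj : Function.Surjective π
  conn : ∀ S : Set Vt, (∀ e, o e ∈ S ↔ t e ∈ S) → ∀ v ∈ S, ∀ w, π w = π v → w ∈ S
  cut : ∀ e, ∃ S : Set Vt, t e ∈ S ∧ o e ∉ S ∧ ∀ e', e' ≠ e → (o e' ∈ S ↔ t e' ∈ S)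

attribute [instance] PT.fin PT.ne PT.aI PT.aV PT.aE

/-- `c` chooses a vertex or an edge in each tree. -/
def PT.IsSec {G : Type u} [Group G] (P : PT G) (c : P.I → P.Vt ⊕ P.Ed) : Prop :=
  ∀ i, Sum.elim P.π (fun e => P.π (P.o e)) (c i) = i

end Pool.Agent.P.MP_0f25e6_al.VT
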