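import Pool.Agent.P.MP_0f25e6_al.VT.B2

/-!
Assembly of the analytic input.
-/

set_option autoImplicit false

open MulAction SemidirectProduct

noncomputable section

namespace Pool.Agent.P.MP_0f25e6_al.VT.B

universe u

open HN HR Sys

theorem full_lamp {A : Type u} [Group A] (h : Full A) (L : Type u) [MulAction A L] :
    Full (FreeGroup L ⋊[TP.actF A L] A) := fun Γ _ r hr =>
  h Γ (rightHom.comp r) ((pf_ker_right A L).ker_comp hr)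

theorem good_of_real (hI : S_IND.{u}) (hS : S_SKEW.{u}) (hJ : S_JH.{u}) (hL : S_LD.{u})
    (hN : S_NF.{u}) (hC : S_CL1.{u}) (hLDC : S_LDC.{u}) (hD : S_DER.{u}) (s : Sys.{u})
    (h1 : Nonempty (Real s)) (h2 : Full s.Γ) : s.Good := by
  refine ⟨fun s => Nonempty (Real s) ∧ Full s.Γ, ?_, h1, h2⟩
  rintro s ⟨⟨ℛ⟩, hF⟩
  refine ⟨ℛ.gen, hLDC s (hL s ⟨ℛ⟩ hF), fun W _ => ?_⟩
  have hF' := full_lamp hF (Tw W ℕ)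
  obtain ⟨D, _, _, ι, ⟨ℛ'⟩⟩ := hS.1 _ hF'.sac
  obtain ⟨𝓘⟩ := hI s.Γ (FreeGroup (Tw W ℕ) ⋊[TP.actF s.Γ (Tw W ℕ)] s.Γ) inr inr_injective
  obtain ⟨j, -, h3, h4, -⟩ := hJ s _ ℛ ℛ' inr inr_injective 𝓘
  exact ⟨_, ⟨⟨ℛ'⟩, hF'⟩, hD s _ W (MulEquiv.refl _) j h3 h4 ℛ.gen ℛ'.gen
    (hN _ (hC _ ⟨ℛ'⟩ hF'))⟩

theorem q_an (hI : S_IND.{u}) (hS : S_SKEW.{u}) (hJ : S_JH.{u}) (hL : S_LD.{u})
    (hN : S_NF.{u}) (hC : S_CL1.{u}) (hG : S_GS.{u}) (hZ : S_NZ.{u}) (hR : S_RK.{u}) :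
    S_AN.{u} := by
  intro hLDC hD G _ H hn hf hH
  obtain ⟨D, _, _, ι, ⟨ℛ⟩⟩ := hS.1 H hH.sac
  obtain ⟨𝓘⟩ := hI H G H.subtype H.subtype_injective
  have hr : H.subtype.range = H := H.range_subtype
  obtain ⟨𝒢, ψ, h⟩ := hG ⟨H, D, ι⟩ ℛ G H.subtype H.subtype_injective 𝓘 (hr.symm ▸ hn)
  refine ⟨⟨H, D, ι⟩, H.subtype, H.subtype_injective, hr,
    good_of_real hI hS hJ hL hN hC hLDC hD _ ⟨ℛ⟩ hH, hN _ (hC _ ⟨ℛ⟩ hH), 𝒢,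
    hZ _ ℛ G _ _ 𝓘 𝒢 ψ h, fun m n A W hW => ?_⟩
  have h1 := hR _ ℛ G _ _ 𝓘 𝒢 ψ h (hr.symm ▸ hf) m n A W hW
  rwa [show (MonoidHom.range H.subtype).index = H.index from congrArg Subgroup.index hr] at h1

end Pool.Agent.P.MP_0f25e6_al.VT.B
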