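import Pool.Agent.P.MP_0f25e6_al.VT.B2

/-!
Injectivity of the boundary map of a tree on elements in normal form.
-/

set_option autoImplicit false

open scoped InnerProductSpace ENNReal
open MulAction

noncomputable section

namespace Pool.Agent.P.MP_0f25e6_al.VT.B

universe u

open HN HR Sys

namespace CL1

theorem key {G J : Type u} [Group G] [Fintype J] {t : NN G} (ht : t ∈ SS G) {a : J → UU G}
    {n : J → NN G} (h : ∀ j, nu t * a j = nu (n j)) (f : J → L2 G) :
    ∑ j, a j • eps (f j) = 0 ↔ ∑ j, (n j).1 (f j) = 0 := by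
  rw [← (nu_unit ht).smul_eq_zero, Finset.smul_sum, ← map_eq_zero_iff eps eps_inj, map_sum]
  simp only [smul_smul, h, eps_app]

theorem sum_sub {J M : Type*} [Fintype J] [AddCommMonoid M] (p : J → Prop) [DecidablePred p]
    (F : J → M) (h : ∀ j, ¬ p j → F j = 0) : ∑ j : {j // p j}, F j = ∑ j, F j := by
  rw [← Fintype.sum_subtype_add_sum_subtype p F,
    Finset.sum_eq_zero (s := Finset.univ) fun (j : {j // ¬ p j}) _ => h j j.2, add_zero]

theorem rho_res {G V : Type u} [Group G] [MulAction G V] (S : Set V) (g : G) (w : V) (f : L2 G) :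
    (rho g).1 (res {x | x • w ∈ S} f) = res {x | x • g • w ∈ S} ((rho g).1 f) := by
  classical
  ext x
  simp only [rho_apply, res_apply, Set.mem_ofPred_eq, mul_smul]

theorem res_sub {G V E : Type u} [Group G] [MulAction G V] [MulAction G E] (Tr : TreeData G V E)
    {e₀ : E} {S : Set V} (ht : Tr.t e₀ ∈ S) (ho : Tr.o e₀ ∉ S)
    (hS : ∀ e', e' ≠ e₀ → (Tr.o e' ∈ S ↔ Tr.t e' ∈ S)) (e : E) (f : L2 G) :
    res {x | x • Tr.t e ∈ S} f - res {x | x • Tr.o e ∈ S} f = res {x | x • e = e₀} f := by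
  classical
  ext x
  simp only [lp.coeFn_sub, Pi.sub_apply, res_apply, Set.mem_ofPred_eq, ← Tr.t_smul, ← Tr.o_smul]
  by_cases h : x • e = e₀
  · simp [h, ht, ho]
  · simp [h, hS _ h]

end CL1

open CL1 in
theorem q_cl1 (hFr : S_FRAC.{u}) (hD : S_DENS.{u}) (hT : S_TREL.{u}) : S_CL1.{u} := by
  classical
  rintro s ⟨ℛ⟩ hF Vt E _ _ Tr J _ e d y he hy h0 j₀
  have hsac : SAC s.Γ := (hF s.Γ (MonoidHom.id _) (pf_ker_of_inj Function.injective_id)).1
  let _ : Module s.D (LL s.Γ) := Module.compHom _ ℛ.φ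
  have hsm : ∀ (a : s.D) (x : LL s.Γ), a • x = ℛ.φ a • x := fun _ _ => rfl
  obtain ⟨S, ht, ho, hS⟩ := Tr.cut (e j₀)
  obtain ⟨Φ, hΦ⟩ := hT s Vt (LL s.Γ) (LL s.Γ)
    (fun w a b => ∃ f, a = eps f ∧ b = eps (res {x | x • w ∈ S} f))
    (by
      rintro g w _ _ ⟨f, rfl, rfl⟩
      exact ⟨(rho g).1 f, by rw [hsm, ℛ.φ_ι, eps_app], by
        rw [hsm, ℛ.φ_ι, ← eps_app, rho_res]⟩)
    (by
      intro w K _ κ v m hκ hR h
      choose f hf hf' using hR
      obtain ⟨⟨t, ht, n, hn⟩, -⟩ := hFr s ℛ (stabilizer s.Γ w) K κ hsac hκ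
      simp only [hsm, hf, hf'] at h ⊢
      rw [key ht fun j => (hn j).2] at h ⊢
      have h1 : ∀ j, (n j).1 (res {x | x • w ∈ S} (f j)) = res {x | x • w ∈ S} ((n j).1 (f j)) :=
        fun j => (hn j).1 _ (fun x hx a ha => by
          rwa [Set.mem_ofPred_eq, mul_smul, mem_stabilizer_iff.1 ha]) _
      simp only [h1]
      rw [← map_sum, h, map_zero])
  obtain ⟨t, htS, n, hn⟩ := right_fracs fun j => ℛ.φ (y j)
  obtain ⟨r, hr, m, hm⟩ := left_fracs fun j => ℛ.φ (d j)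
  have h1 : ∀ ξ, ∑ j, (m j).1 (res {x | x • e j = e j₀} ((n j).1 ξ)) = 0 := fun ξ => by
    have h2 := congrArg (fun z => Φ (Sys.map Vt
      (LinearMap.toSpanSingleton s.D (LL s.Γ) (eps (t.1 ξ))) z)) h0
    have h3 : ∀ j, y j • eps (t.1 ξ) = eps ((n j).1 ξ) := fun j => by
      rw [hsm, eps_app, smul_smul, hn, eps_app]
    simp only [map_sum, map_smul, bd_t, map_sub, map_t, LinearMap.toSpanSingleton_apply, h3,
      map_zero, fun w f => hΦ w _ _ ⟨f, rfl, rfl⟩] at h2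
    rw [← key hr hm]
    simpa only [← map_sub, res_sub Tr ht ho hS, hsm] using h2
  have h2 := hD s ℛ (stabilizer s.Γ (e j₀)) {j // e j = e j₀} (fun j => y j) t (fun j => n j)
    (fun j => m j) hF (fun c hc hs j => ?_) htS (fun j => hn j) (fun ξ => ?_) ⟨j₀, rfl⟩
  · have h3 := hm j₀
    rw [show m j₀ = 0 from h2, map_zero, (nu_unit hr).mul_right_eq_zero] at h3
    exact (map_eq_zero_iff _ ℛ.inj).1 h3
  · have h3 := hy (e j₀) (fun j => if h : e j = e j₀ then c ⟨j, h⟩ else 0) (fun j => by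
      split_ifs
      exacts [hc _, zero_mem _]) (fun j hj => dif_neg hj) (by
      rw [← sum_sub (fun j => e j = e j₀) _ fun j hj => by rw [dif_neg hj, zero_mul], ← hs]
      exact Finset.sum_congr rfl fun j _ => by rw [dif_pos j.2]) j
    rwa [dif_pos j.2] at h3
  · rw [← h1 ξ, ← sum_sub (fun j => e j = e j₀) _ fun j hj => ?_]
    · exact Finset.sum_congr rfl fun j _ => by rw [j.2]; rfl
    · have h3 : res {x : s.Γ | x • e j = e j₀} ((n j).1 ξ) = 0 := by
        ext x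
        exact res_apply_of_notMem _ fun hx => hj (he j j₀ x hx)
      rw [h3, map_zero]

end Pool.Agent.P.MP_0f25e6_al.VT.B
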