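import Pool.Agent.P.MP_0f25e6_al.VT.B2

/-!
The ring of quotients of an overgroup contains the crossed product.
-/

set_option autoImplicit false

open scoped InnerProductSpace ENNReal
open MulAction

noncomputable section

namespace Pool.Agent.P.MP_0f25e6_al.VT.B

universe u

open HN HR Sys

namespace QGS

variable {G : Type u} [Group G]

theorem rho_delta (g : G) : (rho g).1 (delta 1) = delta g⁻¹ := lp.ext (funext fun x => by
  classical
  rw [rho_apply, delta_apply, delta_apply]
  exact if_congr mul_eq_one_iff_eq_inv rfl rfl)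

omit [Group G] in
theorem res_in {Y : Set G} {y : G} (h : y ∈ Y) : res Y (delta y) = delta y :=
  lp.ext (funext fun x => by
    by_cases e : x = y
    · rw [res_apply_of_mem _ (e ▸ h)]
    · by_cases hx : x ∈ Y
      · rw [res_apply_of_mem _ hx]
      · rw [res_apply_of_notMem _ hx, delta_ne e])

omit [Group G] in
theorem res_out {Y : Set G} {y : G} (h : y ∉ Y) : res Y (delta y) = 0 :=
  lp.ext (funext fun x => by
    by_cases hx : x ∈ Y
    · rw [res_apply_of_mem _ hx, delta_ne fun e : x = y => h (e ▸ hx)]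
      rfl
    · rw [res_apply_of_notMem _ hx]
      rfl)

theorem ex {s : Sys.{u}} {R : Type u} [Ring R] [Nontrivial R] [Algebra ℂ R] {inc : s.Γ →* G}
    (J : s.D →+* R) (I : G →* R) (hg : s.Gen) (hn : inc.range.Normal)
    (h1 : ∀ c, J (algebraMap ℂ s.D c) = algebraMap ℂ R c) (h2 : ∀ h, J (s.ι h) = I (inc h))
    (g : G) (d : s.D) : ∃ d', J d' = I g * J d * I g⁻¹ := by
  have a1 : I g * I g⁻¹ = 1 := by rw [← map_mul, mul_inv_cancel, map_one]
  have a2 : I g⁻¹ * I g = 1 := by rw [← map_mul, inv_mul_cancel, map_one]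
  have a3 : ∀ x y : R, I g * x * I g⁻¹ * (I g * y * I g⁻¹) = I g * (x * y) * I g⁻¹ := fun x y => by
    simp only [mul_assoc]
    rw [← mul_assoc (I g⁻¹), a2, one_mul]
  refine fld_induction (P := fun d => ∃ d', J d' = I g * J d * I g⁻¹) (fun c => ?_)
    (fun h _ => ?_) ?_ ?_ ?_ (hg d)
  · exact ⟨algebraMap ℂ s.D c, by rw [h1, ← Algebra.commutes, mul_assoc, a1, mul_one]⟩
  · obtain ⟨h', e⟩ := hn.conj_mem _ ⟨h, rfl⟩ g
    exact ⟨s.ι h', by rw [h2, h2, e, map_mul, map_mul]⟩
  · rintro x - y - ⟨x', hx⟩ ⟨y', hy⟩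
    exact ⟨x' + y', by rw [map_add, map_add, hx, hy, mul_add, add_mul]⟩
  · rintro x - y - ⟨x', hx⟩ ⟨y', hy⟩
    exact ⟨x' * y', by rw [map_mul, map_mul, hx, hy, a3]⟩
  · rintro x - h0 ⟨x', hx⟩
    have b : J x' * (I g * J x⁻¹ * I g⁻¹) = 1 := by
      rw [hx, a3, ← map_mul, mul_inv_cancel₀ h0, map_one, mul_one, a1]
    have h0' : x' ≠ 0 := by
      rintro rfl
      rw [map_zero, zero_mul] at b
      exact zero_ne_one b
    exact ⟨x'⁻¹, left_inv_eq_right_inv (by rw [← map_mul, inv_mul_cancel₀ h0', map_one]) b⟩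

end QGS

open QGS in
theorem q_gs : S_GS.{u} := by
  intro s ℛ G _ inc hi 𝓘 hn
  let J : s.D →+* UU G := 𝓘.U.comp ℛ.φ
  let I : G →* UU G := (nu : NN G →+* UU G).toMonoidHom.comp rho
  have h1 : ∀ c, J (algebraMap ℂ s.D c) = algebraMap ℂ (UU G) c := fun c =>
    (congrArg 𝓘.U (ℛ.φ_alg c)).trans (𝓘.U_alg c)
  have h2 : ∀ h, J (s.ι h) = I (inc h) := fun h =>
    (congrArg 𝓘.U (ℛ.φ_ι h)).trans (𝓘.U_rho h)
  have hJ : Function.Injective J := J.injective
  choose α hα using ex J I ℛ.gen hn h1 h2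
  have a2 : ∀ g, I g⁻¹ * I g = 1 := fun g => by rw [← map_mul, inv_mul_cancel, map_one]
  have m1 : ∀ d, α 1 d = d := fun d => hJ (by rw [hα, inv_one, map_one, one_mul, mul_one])
  have m2 : ∀ g h d, α (g * h) d = α g (α h d) := fun g h d => hJ (by
    rw [hα, hα, hα, mul_inv_rev, map_mul, map_mul]
    simp only [mul_assoc])
  let A : G → RingAut s.D := fun g =>
    { toFun := α g
      invFun := α g⁻¹
      left_inv := fun d => by rw [← m2, inv_mul_cancel, m1]
      right_inv := fun d => by rw [← m2, mul_inv_cancel, m1]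
      map_mul' := fun x y => hJ (by
        rw [map_mul, hα, hα, hα, map_mul]
        simp only [mul_assoc]
        rw [← mul_assoc (I g⁻¹), a2, one_mul])
      map_add' := fun x y => hJ (by rw [map_add, hα, hα, hα, map_add, mul_add, add_mul]) }
  have hA : ∀ g d, J (A g d) = I g * J d * I g⁻¹ := hα
  refine ⟨{ R := UU G
            jR := J
            ιG := I
            α := ⟨⟨A, RingEquiv.ext m1⟩, fun g h => RingEquiv.ext (m2 g h)⟩
            jι := h2
            conj := fun g d => ?_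
            α_alg := fun g c => hJ ?_
            α_ι := fun g h h' e => hJ ?_
            indep := fun n d g hg h0 b => ?_ }, RingEquiv.refl _, fun _ => rfl, fun _ => rfl⟩
  · change _ = J (A g d) * _
    rw [hA, mul_assoc, a2, mul_one]
  · change J (A g _) = _
    rw [hA, h1, ← Algebra.commutes, mul_assoc, ← map_mul, mul_inv_cancel, map_one, mul_one]
  · change J (A g _) = _
    rw [hA, h2, h2, e, map_mul, map_mul]
  · obtain ⟨t, ht, m, hm⟩ := left_fracs fun a => ℛ.φ (d a)
    have e1 : ∑ a, 𝓘.N (m a) * rho (g a) = 0 := nu_inj (by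
      rw [map_zero, ← mul_zero (𝓘.U (nu t)), ← h0, Finset.mul_sum, map_sum]
      refine Finset.sum_congr rfl fun a _ => ?_
      rw [map_mul, ← 𝓘.U_nu, ← hm, map_mul, mul_assoc]
      rfl)
    have e2 : ∑ a, (𝓘.N (m a)).1 (delta (g a)⁻¹) = 0 := by
      have := congrArg (fun T : NN G => T.1 (delta 1)) e1
      simp only [AddSubmonoidClass.coe_finsetSum, sum_apply] at this
      refine Eq.trans (Finset.sum_congr rfl fun a _ => ?_) this
      rw [← rho_delta]
      rfl
    have hY : ∀ x ∈ {x | g b * x ∈ inc.range}, ∀ a ∈ inc.range,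
        x * a ∈ {x | g b * x ∈ inc.range} := fun x hx a ha => by
      change g b * (x * a) ∈ inc.range
      rw [← mul_assoc]
      exact mul_mem hx ha
    have e3 := congrArg (res {x | g b * x ∈ inc.range}) e2
    rw [map_zero, map_sum, Finset.sum_eq_single b, ← 𝓘.splitBy _ _ hY, res_in] at e3
    · have e4 := hm b
      rw [𝓘.N_eq_zero (NN.eq_zero e3), map_zero] at e4
      exact ℛ.inj (((nu_unit ht).mul_right_eq_zero.1 e4).trans (map_zero _).symm)
    · change g b * (g b)⁻¹ ∈ inc.range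
      rw [mul_inv_cancel]
      exact one_mem _
    · intro a _ hab
      rw [← 𝓘.splitBy _ _ hY, res_out (y := (g a)⁻¹) fun h => hab (hg b a h).symm, map_zero]
    · exact fun h => absurd (Finset.mem_univ _) h

end Pool.Agent.P.MP_0f25e6_al.VT.B
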