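import Pool.Agent.P.MP_0f25e6_al.VT.B2

/-!
Induction of equivariant operators along an injective homomorphism.
-/

set_option autoImplicit false

open scoped InnerProductSpace ENNReal
open MulAction

noncomputable section

namespace Pool.Agent.P.MP_0f25e6_al.VT.B

universe u

open HN HR Sys

namespace IND

variable {G Γ : Type u} [Group G] [Group Γ] (i : Γ →* G) (hi : Function.Injective i)

include hi in
theorem bij : Function.Bijective (fun p : (G ⧸ i.range) × Γ => p.1.out * i p.2) := by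
  constructor
  · rintro ⟨q, a⟩ ⟨r, b⟩ h
    simp only at h
    have h1 : q = r := by
      rw [← QuotientGroup.out_eq' q, ← QuotientGroup.out_eq' r, QuotientGroup.eq]
      refine ⟨a * b⁻¹, ?_⟩
      rw [map_mul, map_inv, eq_inv_mul_iff_mul_eq, ← mul_assoc, h, mul_inv_cancel_right]
    subst h1
    rw [hi (mul_left_cancel h)]
  · intro x
    obtain ⟨a, ha⟩ : ((x : G ⧸ i.range).out)⁻¹ * x ∈ i.range :=
      QuotientGroup.eq.1 (QuotientGroup.out_eq' _)
    exact ⟨⟨x, a⟩, by simp only [ha, mul_inv_cancel_left]⟩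

include hi in
theorem tsum_eq (F : G → ℝ≥0∞) : ∑' x, F x = ∑' q : G ⧸ i.range, ∑' γ : Γ, F (q.out * i γ) := by
  rw [← (Equiv.ofBijective _ (bij i hi)).tsum_eq, ENNReal.tsum_prod']
  rfl

theorem cs_mul (x : G) (γ : Γ) (f : L2 G) : cs i hi (x * i γ) f = act γ⁻¹ (cs i hi x f) :=
  lp.ext (funext fun a => by
    rw [cs_apply, act_apply, cs_apply, inv_inv, smul_eq_mul, map_mul, mul_assoc])

theorem cs_act (x g : G) (f : L2 G) : cs i hi x (act g f) = cs i hi (g⁻¹ * x) f :=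
  lp.ext (funext fun a => by
    rw [cs_apply, act_apply, cs_apply, smul_eq_mul, mul_assoc])

theorem val_mul (T : NN Γ) (x : G) (γ : Γ) (f : L2 G) :
    T.1 (cs i hi (x * i γ) f) 1 = T.1 (cs i hi x f) γ := by
  rw [cs_mul, T.2, act_apply, inv_inv, smul_eq_mul, mul_one]

theorem bound (T : NN Γ) (f : L2 G) :
    ∑' x, ‖T.1 (cs i hi x f) 1‖ₑ ^ 2 ≤ ‖T.1‖ₑ ^ 2 * ‖f‖ₑ ^ 2 := by
  rw [tsum_eq i hi, enorm_sq_eq, tsum_eq i hi, ← ENNReal.tsum_mul_left]
  refine ENNReal.tsum_le_tsum fun q => ?_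
  simp only [val_mul]
  rw [← enorm_sq_eq]
  have h1 : ∑' γ : Γ, ‖f (q.out * i γ)‖ₑ ^ 2 = ‖cs i hi q.out f‖ₑ ^ 2 :=
    (enorm_sq_eq (cs i hi q.out f)).symm
  rw [h1, ← mul_pow]
  gcongr
  exact T.1.le_opENorm _

theorem memlp (T : NN Γ) (f : L2 G) : Memℓp (fun x => T.1 (cs i hi x f) 1) 2 := by
  rw [memℓp_two_iff]
  have h1 : ∑' x, ‖T.1 (cs i hi x f) 1‖ₑ ^ 2 ≠ ⊤ :=
    ne_top_of_le_ne_top (by finiteness) (bound i hi T f)
  simpa using ENNReal.summable_toReal h1

/-- The induced operator as a linear map. -/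
def opL (T : NN Γ) : L2 G →ₗ[ℂ] L2 G where
  toFun f := ⟨fun x => T.1 (cs i hi x f) 1, memlp i hi T f⟩
  map_add' f g := lp.ext (funext fun x => by
    change T.1 (cs i hi x (f + g)) 1 = T.1 (cs i hi x f) 1 + T.1 (cs i hi x g) 1
    rw [map_add, map_add]
    rfl)
  map_smul' c f := lp.ext (funext fun x => by
    change T.1 (cs i hi x (c • f)) 1 = c • T.1 (cs i hi x f) 1
    rw [map_smul, map_smul]
    rfl)

/-- The induced operator. -/
def op (T : NN Γ) : L2 G →L[ℂ] L2 G :=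
  (opL i hi T).mkContinuous ‖T.1‖ fun f => by
    have h1 : ‖opL i hi T f‖ₑ ^ 2 ≤ ‖T.1‖ₑ ^ 2 * ‖f‖ₑ ^ 2 := by
      rw [enorm_sq_eq]
      exact bound i hi T f
    have h2 := ENNReal.toReal_mono (by finiteness) h1
    simp only [ENNReal.toReal_pow, toReal_enorm, ENNReal.toReal_mul] at h2
    refine (pow_le_pow_iff_left₀ (norm_nonneg _) (by positivity) two_ne_zero).1 ?_
    rwa [mul_pow]

theorem cs_op (T : NN Γ) (x : G) (f : L2 G) : cs i hi x (op i hi T f) = T.1 (cs i hi x f) :=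
  lp.ext (funext fun γ => val_mul i hi T x γ f)

theorem eqv_op (T : NN Γ) : Eqv G (op i hi T) := fun g f =>
  ext_cs i hi fun x => by rw [cs_op, cs_act, cs_act, cs_op]

theorem ext_op {S T : NN G} (h : ∀ f x, cs i hi x (S.1 f) = cs i hi x (T.1 f)) : S = T :=
  Subtype.ext (ContinuousLinearMap.ext fun f => ext_cs i hi (h f))

/-- Induction as a ring homomorphism. -/
def NH : NN Γ →+* NN G where
  toFun T := ⟨op i hi T, eqv_op i hi T⟩
  map_one' := ext_op i hi fun f x => cs_op i hi 1 x f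
  map_mul' S T := ext_op i hi fun f x => by
    change cs i hi x (op i hi (S * T) f) = cs i hi x (op i hi S (op i hi T f))
    rw [cs_op, cs_op, cs_op]
    rfl
  map_zero' := ext_op i hi fun f x => (cs_op i hi 0 x f).trans (map_zero _).symm
  map_add' S T := ext_op i hi fun f x => by
    change cs i hi x (op i hi (S + T) f) = cs i hi x (op i hi S f + op i hi T f)
    rw [map_add, cs_op, cs_op, cs_op]
    rfl

theorem NH_mem {s : NN Γ} (hs : s ∈ SS Γ) : NH i hi s ∈ SS G := fun f hf =>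
  ext_cs i hi fun x => by
    rw [map_zero]
    refine hs _ ?_
    rw [← cs_op]
    exact (congrArg _ hf).trans (map_zero _)

end IND

theorem q_ind : S_IND.{u} := fun Γ G _ _ i hi => by
  obtain ⟨U, hU⟩ := exists_lift ((nu : NN G →+* UU G).comp (IND.NH i hi))
    fun s hs => nu_unit (IND.NH_mem i hi hs)
  exact ⟨⟨IND.NH i hi, U, fun T x f => IND.cs_op i hi T x f, hU⟩⟩

end Pool.Agent.P.MP_0f25e6_al.VT.B
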