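import Pool.Agent.P.MP_0f25e6_al.VT.B2

/-!
Induction of realised skew fields, and fractions adapted to a subgroup.
-/

set_option autoImplicit false

noncomputable section

namespace Pool.Agent.P.MP_0f25e6_al.VT.B

universe u

open HN HR Sys

theorem q_jh' : S_JH.{u} := by
  intro s s' ℛ ℛ' i hi 𝓘
  have h : ∀ d, ∃ d' ∈ s'.fld i.range, ℛ'.φ d' = 𝓘.U (ℛ.φ d) := fun d => by
    refine fld_induction (P := fun d => ∃ d' ∈ s'.fld i.range, ℛ'.φ d' = 𝓘.U (ℛ.φ d))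
      (fun c => ⟨_, alg_mem _ c, by rw [ℛ'.φ_alg, ℛ.φ_alg, 𝓘.U_alg]⟩)
      (fun g _ => ⟨_, ι_mem ⟨g, rfl⟩, by rw [ℛ'.φ_ι, ℛ.φ_ι, 𝓘.U_rho]⟩) ?_ ?_ ?_ (ℛ.gen d)
    · rintro x - y - ⟨a, ha, e⟩ ⟨b, hb, e'⟩
      exact ⟨a + b, add_mem ha hb, by rw [map_add, map_add, map_add, e, e']⟩
    · rintro x - y - ⟨a, ha, e⟩ ⟨b, hb, e'⟩
      exact ⟨a * b, mul_mem ha hb, by rw [map_mul, map_mul, map_mul, e, e']⟩
    · rintro x - hx ⟨a, ha, e⟩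
      have h1 : ℛ'.φ a * 𝓘.U (ℛ.φ x⁻¹) = 1 := by
        rw [e, ← map_mul, ← map_mul, mul_inv_cancel₀ hx, map_one, map_one]
      have h2 : a ≠ 0 := fun h => by
        rw [h, map_zero, zero_mul] at h1
        exact zero_ne_one h1
      refine ⟨a⁻¹, inv_mem ha, ?_⟩
      rw [← mul_one (ℛ'.φ a⁻¹), ← h1, ← mul_assoc, ← map_mul, inv_mul_cancel₀ h2, map_one, one_mul]
  choose j h1 h2 using h
  let J : s.D →+* s'.D :=
    { toFun := j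
      map_one' := ℛ'.inj (by rw [h2, map_one, map_one, map_one])
      map_mul' := fun a b => ℛ'.inj (by rw [map_mul, h2, h2, h2, map_mul, map_mul])
      map_zero' := ℛ'.inj (by rw [h2, map_zero, map_zero, map_zero])
      map_add' := fun a b => ℛ'.inj (by rw [map_add, h2, h2, h2, map_add, map_add]) }
  have h3 : ∀ c, J (algebraMap ℂ s.D c) = algebraMap ℂ s'.D c := fun c =>
    ℛ'.inj ((h2 _).trans (by rw [ℛ'.φ_alg, ℛ.φ_alg, 𝓘.U_alg]))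
  have h4 : ∀ g, J (s.ι g) = s'.ι (i g) := fun g =>
    ℛ'.inj ((h2 _).trans (by rw [ℛ'.φ_ι, ℛ.φ_ι, 𝓘.U_rho]))
  refine ⟨J, h2, h3, h4, h1, fun d hd => fld_le (L := J.fieldRange) (fun c => ⟨_, h3 c⟩) ?_ hd⟩
  rintro _ ⟨g, rfl⟩
  exact ⟨_, h4 g⟩

theorem q_frac' (hS : S_SKEW.{u}) (hI : S_IND.{u}) (hJ : S_JH.{u}) : S_FRAC.{u} := by
  intro s ℛ A J _ d hs hd
  obtain ⟨D, _, _, ι, ⟨ℛ'⟩⟩ := hS.1 A (hs.of_injective A.subtype A.subtype_injective)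
  obtain ⟨𝓘⟩ := hI A s.Γ A.subtype A.subtype_injective
  obtain ⟨j, h1, -, -, -, h2⟩ := hJ ⟨A, D, ι⟩ s ℛ' ℛ A.subtype A.subtype_injective 𝓘
  have h3 : ∀ T, SplitBy A (𝓘.N T) := fun T Y hY =>
    𝓘.splitBy T Y fun x hx a ha => hY x hx a (A.range_subtype.le ha)
  choose a ha using fun k => h2 (d k) (fld_mono A.range_subtype.ge (hd k))
  obtain ⟨t, ht, n, h⟩ := left_fracs fun k => ℛ'.φ (a k)
  obtain ⟨t', ht', n', h'⟩ := right_fracs fun k => ℛ'.φ (a k)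
  exact ⟨⟨_, 𝓘.N_mem ht, fun k => 𝓘.N (n k), fun k => ⟨h3 _, by
      rw [← ha, h1, ← 𝓘.U_nu, ← map_mul, h, 𝓘.U_nu]⟩⟩,
    ⟨_, 𝓘.N_mem ht', fun k => 𝓘.N (n' k), fun k => ⟨h3 _, by
      rw [← ha, h1, ← 𝓘.U_nu, ← map_mul, h', 𝓘.U_nu]⟩⟩⟩

end Pool.Agent.P.MP_0f25e6_al.VT.B
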