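import Pool.Agent.P.MP_0f25e6_al.VT.B2

/-!
A proper rational subspace satisfies a nontrivial equation over the skew field.
-/

set_option autoImplicit false

open scoped InnerProductSpace ENNReal
open MulAction

noncomputable section

namespace Pool.Agent.P.MP_0f25e6_al.VT.B

universe u

open HN HR Sys

namespace KILL

variable {s : Sys.{u}} (ℛ : Real s) {K : Type u} [Fintype K]

/-- The pairing of a row with a vector valued function. -/
def pa (F : L2 (Tw s.Γ K)) : (K → s.D) →+ LL s.Γ where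
  toFun r := ∑ k, ℛ.φ (r k) • eps (co k F)
  map_zero' := by simp
  map_add' a b := by simp [add_smul, Finset.sum_add_distrib]

theorem pa_apply (F : L2 (Tw s.Γ K)) (r : K → s.D) :
    pa ℛ F r = ∑ k, ℛ.φ (r k) • eps (co k F) := rfl

theorem pa_smul (F : L2 (Tw s.Γ K)) (d : s.D) (r : K → s.D) :
    pa ℛ F (d • r) = ℛ.φ d • pa ℛ F r := by
  simp [pa_apply, Finset.smul_sum, mul_smul]

/-- The row of a finitely supported vector. -/
def Row (a : L2 (Tw s.Γ K)) (r : K → s.D) : Prop :=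
  ∀ F, ∃ f : L2 s.Γ, (∀ x : s.Γ, f x = ⟪act x a, F⟫_ℂ) ∧ pa ℛ F r = eps f

theorem exists_row {a : L2 (Tw s.Γ K)} (ha : FinS a) : ∃ r, Row ℛ a r := by
  classical
  rw [ha.eq_sum]
  refine Finset.sum_induction _ (fun a => ∃ r, Row ℛ a r) ?_ ⟨0, fun F => ⟨0, fun x => ?_, ?_⟩⟩ ?_
  · rintro a b ⟨r, hr⟩ ⟨r', hr'⟩
    refine ⟨r + r', fun F => ?_⟩
    obtain ⟨f, h1, h2⟩ := hr F
    obtain ⟨f', h1', h2'⟩ := hr' F
    exact ⟨f + f', fun x => by rw [map_add, inner_add_left, ← h1, ← h1']; rfl,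
      by rw [map_add, map_add, h2, h2']⟩
  · rw [map_zero, inner_zero_left]
    rfl
  · rw [map_zero, map_zero]
  · rintro ⟨g, k⟩ -
    refine ⟨algebraMap ℂ s.D (starRingEnd ℂ (a ⟨g, k⟩)) • Pi.single k (s.ι g), fun F =>
      ⟨starRingEnd ℂ (a ⟨g, k⟩) • (rho g).1 (co k F), fun x => ?_, ?_⟩⟩
    · rw [map_smul, inner_smul_left, act_delta, inner_delta_left]
      rfl
    · rw [pa_smul, eps_smul, ℛ.φ_alg, eps_app, ← ℛ.φ_ι, pa_apply, Finset.sum_eq_single k]
      · rw [Pi.single_eq_same]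
      · intro b _ hb
        rw [Pi.single_eq_of_ne hb, map_zero, zero_smul]
      · exact fun h => (h (Finset.mem_univ _)).elim

theorem dichotomy {D V I J : Type*} [DivisionRing D] [AddCommGroup V] [Module D V] [Fintype J]
    [DecidableEq J] (a : I → V) (b : J → V) :
    (∃ l : J → D, l ≠ 0 ∧ ∑ j, l j • b j ∈ Submodule.span D (Set.range a)) ∨
      ∃ g : V →ₗ[D] (J → D), (∀ i, g (a i) = 0) ∧ ∀ j, g (b j) = Pi.single j 1 := by
  refine or_iff_not_imp_left.2 fun h => ?_
  obtain ⟨g, hg⟩ := LinearMap.exists_leftInverse_of_injective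
    ((Submodule.span D (Set.range a)).mkQ ∘ₗ Fintype.linearCombination D b)
    (LinearMap.ker_eq_bot'.2 fun l hl => by
      by_contra h0
      exact h ⟨l, h0, (Submodule.Quotient.mk_eq_zero _).1 hl⟩)
  refine ⟨g ∘ₗ (Submodule.span D (Set.range a)).mkQ, fun i => ?_, fun j => ?_⟩
  · rw [LinearMap.comp_apply, Submodule.mkQ_apply, (Submodule.Quotient.mk_eq_zero _).2
      (Submodule.subset_span (Set.mem_range_self i)), map_zero]
  · simpa using LinearMap.congr_fun hg (Pi.single j 1)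

theorem cls_kill (l : K → s.D) :
    ∃ M : Submodule ℂ (L2 (Tw s.Γ K)), Cls M ∧ ∀ F, F ∈ M ↔ pa ℛ F l = 0 := by
  obtain ⟨t, ht, m, h⟩ := left_fracs fun k => ℛ.φ (l k)
  refine ⟨pre (∑ k, (m k).1 ∘L co k) ⊥, cls_bot.pre _, fun F => ?_⟩
  have h1 : nu t • pa ℛ F l = eps ((∑ k, (m k).1 ∘L co k) F) := by
    rw [pa_apply, Finset.smul_sum, sum_apply, map_sum]
    exact Finset.sum_congr rfl fun k _ => by rw [smul_smul, h, ← eps_app]; rfl
  rw [← (nu_unit ht).smul_eq_zero, h1, map_eq_zero_iff _ eps_inj]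
  rfl

end KILL

open KILL in
theorem q_kill : S_KILL.{u} := by
  classical
  intro s ℛ J _ W hS hW hne
  obtain ⟨K, _, N, T, hi, hc, hT, hf, rfl⟩ := hW.std
  have := Fintype.ofFinite K
  obtain ⟨Φ, -, h1, h2⟩ := TP.exists_finite_eqs hS (free_tw free_self) (cofin_tw cofin_self) hi hc
  choose ra hra using fun a : Φ => exists_row ℛ (h1 a a.2)
  have hE : ∀ j : J, Eqv s.Γ (co j ∘L T) := fun j => (eqv_co j).comp hT
  choose rb hrb using fun j : J => exists_row ℛ (finRows_of_finCols (cofin_tw cofin_self) free_self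
    (hE j) ((finCols_pull _ _).comp hf) _ (finS_delta 1))
  have hb : ∀ j F, pa ℛ F (rb j) = eps (co j (T F)) := fun j F => by
    obtain ⟨f, e1, e2⟩ := hrb j F
    refine e2.trans (congrArg eps (lp.ext (funext fun x => (e1 x).trans ?_)))
    rw [← (hE j).adj x, inner_adj_left, act_delta, inner_delta_left, smul_eq_mul, mul_one]
    rfl
  have ha : ∀ F, F ∈ N ↔ ∀ a, pa ℛ F (ra a) = 0 := fun F => by
    refine (h2 F).trans ⟨fun h a => ?_, fun h x a ha => ?_⟩
    · obtain ⟨f, e1, e2⟩ := hra a F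
      rw [e2, show f = 0 from lp.ext (funext fun x => (e1 x).trans (h x a a.2)), map_zero]
    · obtain ⟨f, e1, e2⟩ := hra ⟨a, ha⟩ F
      rw [← e1, (map_eq_zero_iff _ eps_inj).1 (e2.symm.trans (h _))]
      rfl
  rcases dichotomy (D := s.D) ra rb with ⟨l, hl, hm⟩ | ⟨g, g1, g2⟩
  · obtain ⟨M, hM, hM'⟩ := cls_kill ℛ l
    refine ⟨l, hl, fun F hF => (hM' F).1 (cl_img_le hM (fun f hf => (hM' _).2 ?_) hF)⟩
    have h3 : ∀ r ∈ Submodule.span s.D (Set.range ra), pa ℛ f r = 0 := fun r hr => by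
      induction hr using Submodule.span_induction with
      | mem r hr =>
        obtain ⟨a, rfl⟩ := hr
        exact (ha f).1 hf a
      | zero => exact map_zero _
      | add x y _ _ hx hy => rw [map_add, hx, hy, add_zero]
      | smul c x _ hx => rw [pa_smul, hx, smul_zero]
    rw [← h3 _ hm, map_sum]
    exact Finset.sum_congr rfl fun j _ => by rw [pa_smul, hb]
  refine (hne (eq_top_iff.2 fun A _ => mem_cl_of_orth fun B hB => ?_)).elim
  obtain ⟨t, ht, y, hy⟩ := right_fracs fun p : K × J =>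
    ℛ.φ (g (fun k => if p.1 = k then 1 else 0) p.2)
  have h3 : ∀ j ξ r, pa ℛ (stack (fun k => (y (k, j)).1) ξ) r = ℛ.φ (g r j) • eps (t.1 ξ) :=
    fun j ξ r => by
      rw [pa_apply, LinearMap.pi_apply_eq_sum_univ g r, Finset.sum_apply, map_sum, Finset.sum_smul]
      refine Finset.sum_congr rfl fun k _ => ?_
      rw [co_stack, eps_app, eps_app, ← hy, Pi.smul_apply, smul_eq_mul, map_mul, mul_smul, mul_smul]
  have h4 : ∀ j, co j B = 0 := fun j => eq_zero_of_orth (dense_of_inj ht) fun ξ _ => by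
    have e : T (stack (fun k => (y (k, j)).1) ξ) =
        HN.push (fun g => (⟨g, j⟩ : Tw s.Γ J)) (tw_inj fun _ => j) (t.1 ξ) := by
      refine lp.ext (funext fun ⟨x, l⟩ => ?_)
      have e1 := (hb l _).symm.trans (h3 j ξ (rb l))
      rw [g2] at e1
      by_cases hl : j = l
      · subst hl
        rw [Pi.single_eq_same, map_one, one_smul] at e1
        exact (congrArg (fun f : L2 s.Γ => f x) (eps_inj e1)).trans
          (push_apply_self _ (tw_inj fun _ => j) _ x).symm
      · rw [Pi.single_eq_of_ne hl, map_zero, zero_smul, map_eq_zero_iff _ eps_inj] at e1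
        exact (congrArg (fun f : L2 s.Γ => f x) e1).trans
          (push_apply_not _ _ _ fun z hz => hl (congrArg Tw.k hz)).symm
    have e2 := hB _ ⟨stack (fun k => (y (k, j)).1) ξ,
      (ha _).2 fun a => by rw [h3, g1, Pi.zero_apply, map_zero, zero_smul], e⟩
    rwa [inner_push_left] at e2
  have h5 : B = 0 := lp.ext (funext fun ⟨x, j⟩ => congrArg (fun f : L2 s.Γ => f x) (h4 j))
  rw [h5, inner_zero_left]

end Pool.Agent.P.MP_0f25e6_al.VT.B
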