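import Pool.Agent.P.MP_0f25e6_al.VT.B2

/-!
Linear disjointness in a realised system.
-/

set_option autoImplicit false

open scoped InnerProductSpace ENNReal
open MulAction

noncomputable section

namespace Pool.Agent.P.MP_0f25e6_al.VT.B

universe u

open HN HR Sys

namespace QLD

variable {G : Type u} [Group G]

theorem res_rho_res {A K : Subgroup G} {γ : G} (h : ∀ α ∈ A, ∀ κ ∈ K, γ ≠ α * κ) (η : L2 G) :
    res (A : Set G) ((rho γ).1 (res (K : Set G) η)) = 0 := by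
  ext x
  by_cases hx : x ∈ (A : Set G)
  · rw [res_apply_of_mem _ hx, rho_apply, res_apply_of_notMem _ fun hk =>
      h x⁻¹ (A.inv_mem hx) _ hk (inv_mul_cancel_left x γ).symm]
    rfl
  · exact res_apply_of_notMem _ hx

theorem sum_ext {I M : Type*} [Fintype I] [AddCommMonoid M] (p : I → Prop) [DecidablePred p]
    (f : I → M) (hf : ∀ i, ¬ p i → f i = 0) :
    ∑ j : ULift.{u} {i // p i}, f j.down.1 = ∑ i, f i := by
  refine ((Equiv.ulift.{u} (α := {i // p i})).sum_comp fun j => f j.1).trans ?_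
  rw [← Finset.sum_subtype (Finset.univ.filter p) (by simp) f, Finset.sum_filter]
  exact Finset.sum_congr rfl fun i _ => by
    split_ifs with h
    · rfl
    · exact (hf i h).symm

end QLD

open QLD in
theorem q_ld (hF : S_FRAC.{u}) (hD : S_DENS.{u}) : S_LD.{u} := by
  classical
  rintro s ⟨ℛ⟩ hfull A K N a k γ ha hk hγ hind hsum
  have hsac : SAC s.Γ := (hfull s.Γ (MonoidHom.id _) (pf_ker_of_inj Function.injective_id)).1
  obtain ⟨σ, hσ, m, hm⟩ := (hF s ℛ A (ULift.{u} (Fin N)) (fun j => a j.down) hsac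
    fun j => ha j.down).1
  obtain ⟨t, ht, n, hn⟩ := (hF s ℛ K (ULift.{u} (Fin N)) (fun j => k j.down) hsac
    fun j => hk j.down).2
  have h0 : ∑ j : Fin N, m ⟨j⟩ * rho (γ j) * n ⟨j⟩ = 0 := nu_inj (by
    have h1 := congrArg (fun d => nu σ * ℛ.φ d * nu t) hsum
    simp only [map_sum, map_mul, map_zero, mul_zero, zero_mul, Finset.mul_sum, Finset.sum_mul,
      ℛ.φ_ι] at h1 ⊢
    refine Eq.trans (Finset.sum_congr rfl fun j _ => ?_) h1
    rw [← (hm ⟨j⟩).2, ← (hn ⟨j⟩).2]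
    simp only [mul_assoc])
  have h2 : ∀ ξ, ∑ j : Fin N, (m ⟨j⟩).1 (res (A : Set s.Γ) ((rho (γ j)).1
      (res (K : Set s.Γ) ((n ⟨j⟩).1 ξ)))) = 0 := fun ξ => by
    have h3 := congrArg (fun T : NN s.Γ => res (A : Set s.Γ) (T.1 (res (K : Set s.Γ) ξ))) h0
    simp only [AddSubmonoidClass.coe_finsetSum, _root_.sum_apply, map_sum,
      ZeroMemClass.coe_zero, _root_.zero_apply, map_zero] at h3
    refine Eq.trans (Finset.sum_congr rfl fun j _ => ?_) h3
    rw [(hm ⟨j⟩).1 _ fun x hx a ha => A.mul_mem hx ha,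
      ← (hn ⟨j⟩).1 _ fun x hx a ha => K.mul_mem hx ha]
    rfl
  have h4 := hD s ℛ (A ⊓ K) (ULift.{u} {j : Fin N // γ j = 1}) (fun j => k j.down.1) t
    (fun j => n ⟨j.down.1⟩) (fun j => m ⟨j.down.1⟩) hfull (fun c hc hc0 j => ?_) ht
    (fun j => (hn ⟨j.down.1⟩).2) fun ξ => ?_
  · intro j hj
    have h5 := (hm ⟨j⟩).2
    rw [h4 ⟨⟨j, hj⟩⟩, map_zero, (nu_unit hσ).mul_right_eq_zero] at h5
    exact ℛ.inj (h5.trans (map_zero _).symm)
  · let c' : Fin N → s.D := fun i => if h : γ i = 1 then c ⟨⟨i, h⟩⟩ else 0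
    have e : ∀ j : ULift.{u} {j : Fin N // γ j = 1}, c' j.down.1 = c j := fun j => dif_pos j.down.2
    have z : ∀ i, γ i ≠ 1 → c' i = 0 := fun i h => dif_neg h
    rw [← e]
    refine hind c' (fun i => ?_) z ?_ _
    · by_cases h : γ i = 1
      · exact (e ⟨⟨i, h⟩⟩).symm ▸ hc _
      · exact (z i h).symm ▸ zero_mem _
    · rw [← sum_ext.{u} (fun i => γ i = 1) _ fun i h => by rw [z i h, zero_mul]]
      simpa only [e] using hc0
  · refine Eq.trans ?_ (h2 ξ)
    rw [← sum_ext.{u} (fun i => γ i = 1) _ fun i h => by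
      rw [res_rho_res ((hγ i).resolve_left h), map_zero]]
    refine Finset.sum_congr rfl fun j _ => ?_
    rw [j.down.2, map_one, Subgroup.coe_inf, ← res_res]
    rfl

end Pool.Agent.P.MP_0f25e6_al.VT.B
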