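import Pool.Agent.P.MP_0f25e6_al.VT.B2

/-!
Nonzero elements of the span attached to a subgroup are units.
-/

set_option autoImplicit false

open scoped InnerProductSpace ENNReal
open MulAction

noncomputable section

namespace Pool.Agent.P.MP_0f25e6_al.VT.B

universe u

open HN HR Sys

namespace NZ

theorem unit_of_range {D R : Type*} [DivisionRing D] [Ring R] (ω : D →+* R) {x : R}
    (hx : x ∈ ω.range) (h0 : x ≠ 0) : IsUnit x := by
  obtain ⟨a, rfl⟩ := hx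
  have ha : a ≠ 0 := fun h => h0 (by rw [h, map_zero])
  exact (IsUnit.mk0 a ha).map ω

theorem inv_mem_range {D D' R : Type*} [DivisionRing D] [DivisionRing D'] [Ring R] [Nontrivial R]
    (ω : D →+* R) (θ : D' →+* R) {x : D'} (h0 : x ≠ 0) (hx : θ x ∈ ω.range) :
    θ x⁻¹ ∈ ω.range := by
  obtain ⟨a, ha⟩ := hx
  have ha0 : a ≠ 0 := fun h => by
    rw [h, map_zero] at ha
    exact h0 (θ.injective (by rw [map_zero, ha]))
  refine ⟨a⁻¹, ?_⟩
  calc ω a⁻¹ = ω a⁻¹ * (θ x * θ x⁻¹) := by rw [← map_mul θ, mul_inv_cancel₀ h0, map_one, mul_one]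
    _ = θ x⁻¹ := by rw [← ha, ← mul_assoc, ← map_mul, inv_mul_cancel₀ ha0, map_one, one_mul]

end NZ

theorem q_nz (hS : S_SKEW.{u}) (hI : S_IND.{u}) : S_NZ.{u} := by
  intro s ℛ G _ inc hi 𝓘 𝒢 ψ hc B hB x hx hx0
  obtain ⟨D, _, _, ι, ⟨ℛB⟩⟩ := hS.1 B hB
  obtain ⟨𝓘B⟩ := hI B G B.subtype B.subtype_injective
  let ω : D →+* UU G := 𝓘B.U.comp ℛB.φ
  have hι : ∀ b ∈ B, nu (rho b) ∈ ω.range := fun b hb =>
    ⟨ι ⟨b, hb⟩, (congrArg 𝓘B.U (ℛB.φ_ι ⟨b, hb⟩)).trans (𝓘B.U_rho ⟨b, hb⟩)⟩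
  have hd : ∀ d ∈ s.fld (B.comap inc), (𝓘.U.comp ℛ.φ) d ∈ ω.range := by
    intro d hd
    refine fld_induction (P := fun d => (𝓘.U.comp ℛ.φ) d ∈ ω.range) (fun c => ?_)
      (fun g hg => ?_) (fun a _ b _ ha hb => ?_) (fun a _ b _ ha hb => ?_)
      (fun a _ h0 ha => NZ.inv_mem_range ω _ h0 ha) hd
    · refine ⟨algebraMap ℂ D c, ?_⟩
      exact ((congrArg 𝓘B.U (ℛB.φ_alg c)).trans (𝓘B.U_alg c)).trans
        ((congrArg 𝓘.U (ℛ.φ_alg c)).trans (𝓘.U_alg c)).symm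
    · have h1 : (𝓘.U.comp ℛ.φ) (s.ι g) = nu (rho (inc g)) :=
        (congrArg 𝓘.U (ℛ.φ_ι g)).trans (𝓘.U_rho g)
      rw [h1]
      exact hι _ hg
    · rw [map_add]; exact add_mem ha hb
    · rw [map_mul]; exact mul_mem ha hb
  have h1 : ψ x ∈ ω.range := by
    clear hx0
    induction hx using AddSubgroup.closure_induction with
    | mem y hy =>
      obtain ⟨d, hd1, b, hb, rfl⟩ := hy
      rw [map_mul, hc.j, hc.i]
      exact mul_mem (hd d hd1) (hι b hb)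
    | zero => rw [map_zero]; exact zero_mem _
    | add y z _ _ hy hz => rw [map_add]; exact add_mem hy hz
    | neg y _ hy => rw [map_neg]; exact neg_mem hy
  have h2 := NZ.unit_of_range ω h1 fun h => hx0 (ψ.injective (by rw [h, map_zero]))
  have h3 := h2.map ψ.symm
  rwa [RingEquiv.symm_apply_apply] at h3

end Pool.Agent.P.MP_0f25e6_al.VT.B
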