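import Pool.Agent.P.MP_0f25e6_al.VT.B2

/-!
The dimension of the solution space of a system of equations over a skew field.
-/

set_option autoImplicit false

open scoped InnerProductSpace ENNReal
open MulAction

noncomputable section

namespace Pool.Agent.P.MP_0f25e6_al.VT.B

universe u

open HN HR Sys

namespace RANK

variable {G : Type u} [Group G]

omit [Group G] in
theorem ext_co {J : Type*} {F F' : L2 (Tw G J)} (h : ∀ j, co j F = co j F') : F = F' :=
  lp.ext (funext fun p => by
    have h1 : co p.k F p.y = co p.k F' p.y := by rw [h p.k]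
    exact h1)

omit [Group G] in
theorem inner_co {J : Type*} [Fintype J] (F a : L2 (Tw G J)) :
    ⟪F, a⟫_ℂ = ∑ j, ⟪co j F, co j a⟫_ℂ := by
  have h : F = stack (fun j => co j) F := ext_co fun j => (co_stack _ F j).symm
  conv_lhs => rw [h]
  rw [stack, sum_apply, sum_inner]
  refine Finset.sum_congr rfl fun j _ => ?_
  rw [ContinuousLinearMap.comp_apply, inner_push_left]
  rfl

variable {D J : Type*} [DivisionRing D] [Fintype J]

theorem rel_add (φ : D →+* UU G) (x : J → LL G) (r r' : J → D) :
    ∑ j, φ ((r + r') j) • x j = ∑ j, φ (r j) • x j + ∑ j, φ (r' j) • x j := by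
  rw [← Finset.sum_add_distrib]
  exact Finset.sum_congr rfl fun j _ => by rw [Pi.add_apply, map_add, add_smul]

theorem rel_smul (φ : D →+* UU G) (x : J → LL G) (c : D) (r : J → D) :
    ∑ j, φ ((c • r) j) • x j = φ c • ∑ j, φ (r j) • x j := by
  rw [Finset.smul_sum]
  exact Finset.sum_congr rfl fun j _ => by rw [Pi.smul_apply, smul_eq_mul, map_mul, mul_smul]

theorem rel_basis (φ : D →+* UU G) (x : J → LL G) {Λ : Submodule D (J → D)} {K : Type*}
    (b : Module.Basis K D Λ) (h : ∀ l, ∑ j, φ ((b l : J → D) j) • x j = 0) (r : Λ) :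
    ∑ j, φ ((r : J → D) j) • x j = 0 := by
  have hr : r ∈ Submodule.span D (Set.range b) := b.span_eq.ge Submodule.mem_top
  induction hr using Submodule.span_induction with
  | mem y hy =>
    obtain ⟨l, rfl⟩ := hy
    exact h l
  | zero => simp
  | add y z _ _ hy hz => rw [Submodule.coe_add, rel_add, hy, hz, add_zero]
  | smul c y _ hy => rw [Submodule.coe_smul, rel_smul, hy, smul_zero]

theorem exists_dual {Λ : Submodule D (J → D)} {K : Type*} [DecidableEq K]
    (b : Module.Basis K D Λ) :
    ∃ x : K → J → D, ∀ l l', ∑ j, (b l : J → D) j * x l' j = if l = l' then 1 else 0 := by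
  classical
  choose f hf using fun l => LinearMap.exists_extend (b.coord l)
  refine ⟨fun l j => f l (Pi.single j 1), fun l l' => ?_⟩
  have h1 : f l' (b l : J → D) = if l = l' then 1 else 0 := by
    have h2 := LinearMap.congr_fun (hf l') (b l)
    rw [LinearMap.comp_apply, Submodule.subtype_apply] at h2
    rw [h2, Module.Basis.coord_apply, b.repr_self, Finsupp.single_apply]
  rw [← h1]
  conv_rhs => rw [pi_eq_sum_univ' (b l : J → D)]
  rw [map_sum]
  exact Finset.sum_congr rfl fun j _ => by rw [map_smul, smul_eq_mul]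

end RANK

open RANK in
theorem q_rank : S_RANK.{u} := by
  intro G D J _ _ _ φ Λ W hW
  classical
  let b := Module.finBasis D Λ
  obtain ⟨s, hs, m, hm⟩ := left_fracs fun p : Fin (Module.finrank D Λ) × J =>
    φ ((b p.1 : J → D) p.2)
  let B : L2 (Tw G J) →L[ℂ] L2 (Tw G (Fin (Module.finrank D Λ))) :=
    stack fun l => ∑ j, (m (l, j)).1 ∘L co j
  have hB : Eqv G B := eqv_stack fun l => eqv_sum _ fun j _ => Eqv.comp (m (l, j)).2 (eqv_co j)
  have hco : ∀ F l, eps (co l (B F)) = nu s • ∑ j, φ ((b l : J → D) j) • eps (co j F) := by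
    intro F l
    rw [co_stack, sum_apply, map_sum, Finset.smul_sum]
    refine Finset.sum_congr rfl fun j _ => ?_
    rw [ContinuousLinearMap.comp_apply, eps_app, smul_smul, hm (l, j)]
  have hker : (⊤ : Submodule ℂ (L2 (Tw G J))) ⊓ pre B ⊥ = W := by
    rw [top_inf_eq]
    ext F
    rw [hW, Submodule.mem_comap, Submodule.mem_bot]
    constructor
    · intro h r hr
      refine rel_basis φ (fun j => eps (co j F)) b (fun l => ?_) ⟨r, hr⟩
      have h1 := hco F l
      have h2 : B F = 0 := h
      rw [h2, map_zero, map_zero] at h1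
      exact (nu_unit hs).smul_eq_zero.1 h1.symm
    · intro h
      refine ext_co fun l => eps_inj ?_
      have h1 := hco F l
      rw [h _ (b l).2, smul_zero] at h1
      rw [map_zero, map_zero]
      exact h1
  obtain ⟨x, hx⟩ := exists_dual b
  obtain ⟨t, ht, y, hy⟩ := right_fracs fun p : Fin (Module.finrank D Λ) × J => φ (x p.1 p.2)
  have hval : ∀ l0 ξ l, co l (B (stack (fun j => (y (l0, j)).1) ξ)) =
      if l = l0 then (s * t).1 ξ else 0 := by
    intro l0 ξ l
    refine eps_inj ?_
    have h1 : ∑ j, φ ((b l : J → D) j) • eps (co j (stack (fun j => (y (l0, j)).1) ξ)) =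
        (φ (if l = l0 then 1 else 0) * nu t) • eps ξ := by
      rw [← hx l l0, map_sum, Finset.sum_mul, Finset.sum_smul]
      refine Finset.sum_congr rfl fun j _ => ?_
      rw [co_stack, eps_app, smul_smul, map_mul, mul_assoc, hy (l0, j)]
    rw [hco, h1]
    split_ifs
    · rw [map_one, one_mul, eps_app, map_mul, mul_smul]
    · rw [map_zero, zero_mul, zero_smul, smul_zero, map_zero]
  have hdense : cl (img B ⊤) = ⊤ := by
    rw [Submodule.topologicalClosure_eq_top_iff, eq_bot_iff]
    intro a ha
    rw [Submodule.mem_bot]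
    refine ext_co fun l0 => ?_
    rw [map_zero]
    refine eq_zero_of_orth (dense_of_inj (mul_mem hs ht)) fun ξ _ => ?_
    have h1 := ha (B (stack (fun j => (y (l0, j)).1) ξ)) ⟨_, Submodule.mem_top, rfl⟩
    rw [inner_co, Finset.sum_eq_single l0, hval, if_pos rfl] at h1
    · exact h1
    · intro l _ hl
      rw [hval, if_neg hl, inner_zero_left]
    · intro h
      exact absurd (Finset.mem_univ _) h
  have h := rank_nullity (H := G) (free_tw free_self) (free_tw free_self) hB cls_top inv_top
  rw [hker, ← edim_cl (img B ⊤), hdense, edim_top, edim_top, Fintype.card_fin] at h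
  exact h.symm

end Pool.Agent.P.MP_0f25e6_al.VT.B
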