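import Pool.Agent.P.MP_0f25e6_al.VT.B2

/-!
Elements of the ring of quotients with a rational graph.
-/

set_option autoImplicit false

open scoped InnerProductSpace ENNReal
open MulAction

noncomputable section

namespace Pool.Agent.P.MP_0f25e6_al.VT.B

universe u

open HN HR Sys

namespace RATU

variable {G : Type u} [Group G]

theorem edim_le_one (W : Submodule ℂ (L2 G)) : edim G W ≤ 1 :=
  (edim_mono le_top).trans edim_top_self.le

/-- Maximality of graphs with dense domain. -/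
theorem max_eq {Z : Type*} [MulAction G Z] (hZ : Free G Z) {M M' : Submodule ℂ (L2 Z)}
    (hc : Cls M) (hc' : Cls M') (hi : Inv G M) (hi' : Inv G M') (hle : M ≤ M')
    {P : L2 Z →L[ℂ] L2 G} (hP : Eqv G P) (hinj : ∀ f ∈ M', P f = 0 → f = 0)
    (hd : cl (img P M) = ⊤) : M = M' := by
  have h1 : edim G M' ≤ 1 := by
    have h0 : M' ⊓ pre P ⊥ = ⊥ := eq_bot_iff.2 fun f hf => hinj f hf.1 hf.2
    rw [rank_nullity hZ free_self hP hc' hi', h0, edim_bot, zero_add]
    exact edim_le_one _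
  have h2 : 1 ≤ edim G M := by
    rw [← edim_top_self (G := G), ← hd, edim_cl]
    exact edim_img_le hZ free_self hP hc hi
  exact eq_of_edim_le hc hc' hi hi' hle
    (ne_top_of_le_ne_top ENNReal.one_ne_top ((edim_mono hle).trans h1)) (h1.trans h2)

theorem eq_zero_sum {Y Z : Type*} {F : L2 (Y ⊕ Z)} (h1 : pl F = 0) (h2 : pr F = 0) : F = 0 :=
  lp.ext (funext fun p => by
    rcases p with y | z
    · exact congrArg (fun f : L2 Y => f y) h1
    · exact congrArg (fun f : L2 Z => f z) h2)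

theorem cls_Gr (a : UU G) : Cls (Gr a) := by
  obtain ⟨s, hs, n, h⟩ := left_frac a
  rw [Gr_eq hs h]
  exact ((cls_top.pre _).inf (cls_top.pre _)).inf (cls_bot.pre _)

theorem inv_Gr (a : UU G) : Inv G (Gr a) := by
  obtain ⟨s, hs, n, h⟩ := left_frac a
  rw [Gr_eq hs h]
  exact inv_fp n.2 s.2 inv_top inv_top

theorem mk2_mem {a : UU G} {f g : L2 G} : mk2 f g ∈ Gr a ↔ eps g = a • eps f := by
  rw [mem_Gr, pl_mk2, pr_mk2]

theorem mem_pre {a : UU G} {Z : Type*} {S T : L2 Z →L[ℂ] L2 G} {F : L2 Z} :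
    F ∈ pre (pair S T) (Gr a) ↔ eps (T F) = a • eps (S F) := mk2_mem

theorem finCols_pair {X Y Z : Type*} {S : L2 X →L[ℂ] L2 Y} {T : L2 X →L[ℂ] L2 Z}
    (hS : FinCols S) (hT : FinCols T) : FinCols (pair S T) :=
  ((finCols_push _ _).comp hS).add ((finCols_push _ _).comp hT)

theorem dense_of {Z : Type*} {S : L2 Z →L[ℂ] L2 G} {K : Submodule ℂ (L2 Z)} {t : NN G}
    (ht : t ∈ SS G) (h : ∀ ξ, t.1 ξ ∈ img S K) : cl (img S K) = ⊤ :=
  eq_top_iff.2 ((dense_of_inj ht).ge.trans (cl_mono (by rintro _ ⟨ξ, -, rfl⟩; exact h ξ)))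

theorem rat_top {Z : Type*} [MulAction G Z] (hZ : Free G Z) (hc : Cofin G (Set.univ : Set Z)) :
    Rat G (⊤ : Submodule ℂ (L2 Z)) := by
  have h := rat_supp hZ (S := Set.univ) (fun _ _ _ => trivial) hc
  rwa [supp_univ] at h

/-- A graph is rational once a densely defined part of it is parametrised rationally. -/
theorem rat_of {Z : Type*} [MulAction G Z] {K : Submodule ℂ (L2 Z)} (hK : Rat G K)
    {S T : L2 Z →L[ℂ] L2 G} (hS : Eqv G S) (hT : Eqv G T) (fS : FinCols S) (fT : FinCols T)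
    {a : UU G} (h : ∀ F ∈ K, eps (T F) = a • eps (S F)) {t : NN G} (ht : t ∈ SS G)
    (hd : ∀ ξ, ∃ F ∈ K, S F = t.1 ξ) : Rat G (Gr a) := by
  have h1 := hK.img (eqv_pair hS hT) (finCols_pair fS fT)
  rwa [max_eq (free_sum free_self free_self) h1.cls (cls_Gr a) h1.inv (inv_Gr a)
    (cl_img_le (cls_Gr a) fun F hF => mk2_mem.2 (h F hF)) eqv_pull_inl (fun F hF h0 => ?_)
    (dense_of ht fun ξ => ?_)] at h1
  · refine eq_zero_sum h0 (eps_inj ?_)
    rw [mem_Gr.1 hF, show pl F = 0 from h0, map_zero, smul_zero]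
  · obtain ⟨F, hF, h2⟩ := hd ξ
    exact ⟨_, mem_cl_img _ hF, (pl_mk2 _ _).trans h2⟩

theorem rat_nu {n : NN G} (hn : FinCols n.1) : Rat G (Gr (nu n)) :=
  rat_of (rat_top free_self cofin_self) eqv_one n.2 (fun _ h => h) hn (fun F _ => eps_app n F)
    (one_mem _) fun ξ => ⟨ξ, trivial, rfl⟩

theorem two_fracs (a b : UU G) :
    ∃ t ∈ SS G, ∃ n m : NN G, a * nu t = nu n ∧ b * nu t = nu m := by
  obtain ⟨t, ht, n, h⟩ := right_fracs ![a, b]
  exact ⟨t, ht, n 0, n 1, h 0, h 1⟩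

theorem eps_frac {a : UU G} {t n : NN G} (h : a * nu t = nu n) (ξ : L2 G) :
    eps (n.1 ξ) = a • eps (t.1 ξ) := by rw [eps_app, eps_app, smul_smul, h]

section Three

variable (G)

/-- The second of three coordinates. -/
abbrev p1 : L2 (G ⊕ (G ⊕ G)) →L[ℂ] L2 G := pl ∘L pr

/-- The third of three coordinates. -/
abbrev p2 : L2 (G ⊕ (G ⊕ G)) →L[ℂ] L2 G := pr ∘L pr

variable {G}

theorem eqv_p1 : Eqv G (p1 G) := eqv_pull_inl.comp eqv_pull_inr

theorem eqv_p2 : Eqv G (p2 G) := eqv_pull_inr.comp eqv_pull_inr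

omit [Group G] in
theorem fin_p1 : FinCols (p1 G) := (finCols_pull _ _).comp (finCols_pull _ _)

omit [Group G] in
theorem fin_p2 : FinCols (p2 G) := (finCols_pull _ _).comp (finCols_pull _ _)

omit [Group G] in
theorem p1_mk (f g h : L2 G) : p1 G (mk2 f (mk2 g h)) = g := by
  rw [ContinuousLinearMap.comp_apply, pr_mk2, pl_mk2]

omit [Group G] in
theorem p2_mk (f g h : L2 G) : p2 G (mk2 f (mk2 g h)) = h := by
  rw [ContinuousLinearMap.comp_apply, pr_mk2, pr_mk2]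

end Three

theorem rat_pre (hP : S_RPRE.{u}) {Z : Type u} [MulAction G Z] (hZ : Free G Z)
    (hc : Cofin G (Set.univ : Set Z)) {S T : L2 Z →L[ℂ] L2 G} (hS : Eqv G S) (hT : Eqv G T)
    (fS : FinCols S) (fT : FinCols T) {a : UU G} (ha : Rat G (Gr a)) :
    Rat G (pre (pair S T) (Gr a)) :=
  hP G Z _ hZ (free_sum free_self free_self) hc _ (eqv_pair hS hT) (finCols_pair fS fT) _ ha

theorem free3 : Free G (G ⊕ (G ⊕ G)) := free_sum free_self (free_sum free_self free_self)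

theorem cofin3 : Cofin G (Set.univ : Set (G ⊕ (G ⊕ G))) :=
  cofin_sum cofin_self (cofin_sum cofin_self cofin_self)

theorem rat_add (hP : S_RPRE.{u}) {a b : UU G} (ha : Rat G (Gr a)) (hb : Rat G (Gr b)) :
    Rat G (Gr (a + b)) := by
  obtain ⟨t, ht, n, m, h1, h2⟩ := two_fracs a b
  refine rat_of (Rat.inf free3
    (rat_pre hP free3 cofin3 eqv_pull_inl eqv_p1 (finCols_pull _ _) fin_p1 ha)
    (rat_pre hP free3 cofin3 eqv_pull_inl eqv_p2 (finCols_pull _ _) fin_p2 hb))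
    eqv_pull_inl (eqv_p1.add eqv_p2) (finCols_pull _ _) (fin_p1.add fin_p2) (fun F hF => ?_) ht
    fun ξ => ⟨mk2 (t.1 ξ) (mk2 (n.1 ξ) (m.1 ξ)), ⟨mem_pre.2 ?_, mem_pre.2 ?_⟩, pl_mk2 _ _⟩
  · rw [add_apply, map_add, add_smul, mem_pre.1 hF.1, mem_pre.1 hF.2]
  · rw [p1_mk, pl_mk2, eps_frac h1]
  · rw [p2_mk, pl_mk2, eps_frac h2]

theorem rat_mul (hP : S_RPRE.{u}) {a b : UU G} (ha : Rat G (Gr a)) (hb : Rat G (Gr b)) :
    Rat G (Gr (a * b)) := by
  obtain ⟨t, ht, n, m, h1, h2⟩ := two_fracs b (a * b)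
  refine rat_of (Rat.inf free3
    (rat_pre hP free3 cofin3 eqv_pull_inl eqv_p1 (finCols_pull _ _) fin_p1 hb)
    (rat_pre hP free3 cofin3 eqv_p1 eqv_p2 fin_p1 fin_p2 ha))
    eqv_pull_inl eqv_p2 (finCols_pull _ _) fin_p2 (fun F hF => ?_) ht
    fun ξ => ⟨mk2 (t.1 ξ) (mk2 (n.1 ξ) (m.1 ξ)), ⟨mem_pre.2 ?_, mem_pre.2 ?_⟩, pl_mk2 _ _⟩
  · rw [mul_smul, mem_pre.1 hF.2, mem_pre.1 hF.1]
  · rw [p1_mk, pl_mk2, eps_frac h1]
  · rw [p2_mk, p1_mk, eps_frac h2, eps_frac h1, mul_smul]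

theorem rat_inv (hP : S_RPRE.{u}) {a b : UU G} (h1 : a * b = 1) (h2 : b * a = 1)
    (ha : Rat G (Gr a)) : Rat G (Gr b) := by
  have h := rat_pre hP (free_sum free_self free_self) (cofin_sum cofin_self cofin_self)
    eqv_pull_inr eqv_pull_inl (finCols_pull _ _) (finCols_pull _ _) ha
  have e : pre (pair pr pl) (Gr a) = Gr b := by
    ext F
    rw [mem_pre, mem_Gr]
    exact ⟨fun h => by rw [h, smul_smul, h2, one_smul], fun h => by rw [h, smul_smul, h1, one_smul]⟩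
  rwa [e] at h

theorem unit_of (hP : S_RPRE.{u}) (hG : SAC G) {a : UU G} (ha : Rat G (Gr a)) (h0 : a ≠ 0) :
    IsUnit a := by
  obtain ⟨s, hs, n, h⟩ := left_frac a
  have h1 := hP G G _ free_self (free_sum free_self free_self) cofin_self _
    (eqv_push_inl (Z := G)) (finCols_push _ _) _ ha
  have e : pre (push Sum.inl Sum.inl_injective) (Gr a) = pre n.1 ⊥ := by
    ext f
    change push Sum.inl Sum.inl_injective f ∈ Gr a ↔ n.1 f = 0
    rw [Gr_eq hs h, mem_fp, pull_push, pull_inr_push_inl, map_zero]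
    simp
  rw [e] at h1
  obtain ⟨k, hk⟩ := h1.int hG free_self
  have h2 : k ≤ 1 := by exact_mod_cast hk ▸ edim_le_one (pre n.1 ⊥)
  obtain rfl | rfl : k = 0 ∨ k = 1 := by omega
  · have h3 : n ∈ SS G := fun f hf => by
      have h4 : f ∈ pre n.1 ⊥ := hf
      rwa [eq_bot_of_edim h1.inv (by simpa using hk)] at h4
    obtain ⟨v, hv⟩ := nu_unit hs
    exact (Units.isUnit_units_mul v a).1 (by rw [hv, h]; exact nu_unit h3)
  · have h3 : pre n.1 ⊥ = ⊤ := eq_of_edim_le h1.cls cls_top h1.inv inv_top le_top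
      (edim_ne_top cofin_self _) (by rw [hk, Nat.cast_one]; exact edim_le_one _)
    have h4 : n = 0 := Subtype.ext (ContinuousLinearMap.ext fun f => h3.ge trivial)
    rw [h4, map_zero] at h
    exact absurd ((nu_unit hs).mul_right_eq_zero.1 h) h0

theorem rat_iInf {Z J : Type*} [MulAction G Z] [Fintype J] (hZ : Free G Z)
    (hc : Cofin G (Set.univ : Set Z)) {W : J → Submodule ℂ (L2 Z)} (h : ∀ j, Rat G (W j)) :
    Rat G (⨅ j, W j) := by
  rw [← Finset.inf_univ_eq_iInf]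
  exact Finset.inf_induction (rat_top hZ hc) (fun _ h1 _ h2 => Rat.inf hZ h1 h2) fun j _ => h j

end RATU

open RATU

theorem q_ratu (hP : S_RPRE.{u}) : S_RATU.{u} := fun G _ =>
  ⟨fun c => by
      rw [← nu_alg]
      refine rat_nu ?_
      rw [Algebra.algebraMap_eq_smul_one]
      exact FinCols.smul (T := 1) (fun _ h => h) c,
    fun _ => rat_nu (finCols_pull _ _), fun _ _ ha hb => ⟨rat_add hP ha hb, rat_mul hP ha hb⟩,
    fun _ _ => rat_inv hP, fun hG _ => unit_of hP hG⟩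

theorem q_joint (hP : S_RPRE.{u}) : S_JOINT.{u} := by
  intro G J _ _ e t n ht h hr
  have hZ : Free G (G ⊕ Tw G J) := free_sum free_self (free_tw free_self)
  have hc : Cofin G (Set.univ : Set (G ⊕ Tw G J)) := cofin_sum cofin_self (cofin_tw cofin_self)
  have hK := rat_iInf hZ hc fun j => rat_pre hP hZ hc eqv_pull_inl
    ((eqv_co j).comp eqv_pull_inr) (finCols_pull _ _)
    ((finCols_pull _ _).comp (finCols_pull _ _)) (hr j)
  have hT : Eqv G (pair t.1 (stack fun j => (n j).1)) := eqv_pair t.2 (eqv_stack fun j => (n j).2)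
  rw [← max_eq hZ (cls_cl (img (pair t.1 (stack fun j => (n j).1)) ⊤)) hK.cls
    (inv_top.img hT).cl hK.inv (cl_img_le hK.cls fun ξ _ => ?_) eqv_pull_inl (fun F hF h0 => ?_)
    (dense_of ht fun ξ => ⟨_, mem_cl_img _ Submodule.mem_top, pl_mk2 _ _⟩)] at hK
  · have h1 := hK.img eqv_pull_inr (finCols_pull _ _)
    have e : img pr (img (pair t.1 (stack fun j => (n j).1)) ⊤) = img (stack fun j => (n j).1) ⊤ := by
      rw [img, img, ← Submodule.map_comp]
      congr 1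
      exact LinearMap.ext fun ξ => pr_mk2 _ _
    rwa [cl_img_cl, e] at h1
  · refine (Submodule.mem_iInf _).2 fun j => mem_pre.2 ?_
    rw [ContinuousLinearMap.comp_apply, pair_apply, pl_mk2, pr_mk2, co_stack, eps_frac (h j)]
  · refine eq_zero_sum h0 (lp.ext (funext fun p => ?_))
    have h2 := mem_pre.1 ((Submodule.mem_iInf _).1 hF p.k)
    rw [show pl F = 0 from h0, map_zero, smul_zero, ← map_zero eps] at h2
    exact congrArg (fun f : L2 G => f p.y) (eps_inj h2)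

end Pool.Agent.P.MP_0f25e6_al.VT.B
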