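import Pool.Agent.P.MP_0f25e6_al.VT.B2
import Pool.Agent.P.MP_0f25e6_al.VT.PVMOD

/-!
The rank formula.
-/

set_option autoImplicit false

open scoped InnerProductSpace ENNReal
open MulAction

noncomputable section

namespace Pool.Agent.P.MP_0f25e6_al.VT.B

universe u

open HN HR Sys

namespace RK

variable {s : Sys.{u}} {G : Type u} [Group G] {inc : s.Γ →* G} (𝒢 : s.GS G inc) {m n : ℕ}
  [Fintype (G ⧸ inc.range)] [DecidableEq (G ⧸ inc.range)]

/-- From coordinates to rows. -/
def Th (n : ℕ) : (Fin n × (G ⧸ inc.range) → s.D) →ₗ[s.D] (Fin n → 𝒢.R) :=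
  LinearMap.pi fun j => Fintype.linearCombination s.D (VMOD.bs 𝒢) ∘ₗ
    LinearMap.funLeft s.D s.D fun q => (j, q)

omit [DecidableEq (G ⧸ inc.range)] in
theorem Th_apply (r : Fin n × (G ⧸ inc.range) → s.D) (j : Fin n) :
    Th 𝒢 n r j = ∑ q, r (j, q) • VMOD.bs 𝒢 q := rfl

omit [DecidableEq (G ⧸ inc.range)] in
theorem Th_inj [inc.range.FiniteIndex] : Function.Injective (Th 𝒢 n) :=
  (injective_iff_map_eq_zero _).2 fun r h => funext fun p =>
    Fintype.linearIndependent_iff.1 (VMOD.li 𝒢) (fun q => r (p.1, q)) (congrFun h p.1) p.2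

theorem Th_single (j : Fin n) (q : G ⧸ inc.range) (d : s.D) :
    Th 𝒢 n (Pi.single (j, q) d) = Pi.single j (d • VMOD.bs 𝒢 q) := by
  funext k
  rw [Th_apply]
  by_cases h : k = j
  · subst h
    rw [Finset.sum_eq_single q (fun b _ hb => by simp [hb]) (by simp)]
    simp
  · simp [h]

variable (hh : G → s.Γ) (qq : G → G ⧸ inc.range) (A : Fin m → Fin n → G →₀ ℂ)

/-- The rows in coordinates. -/
def row (g : G) (i : Fin m) : Fin n × (G ⧸ inc.range) → s.D :=
  ∑ j, ∑ k ∈ (A i j).support,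
    Pi.single (j, qq (g * k)) (algebraMap ℂ s.D (A i j k) * s.ι (hh (g * k)))

theorem Th_row (hd : ∀ g, g = inc (hh g) * (qq g).out⁻¹) (g : G) (i : Fin m) :
    Th 𝒢 n (row hh qq A g i) = fun j => 𝒢.ιG g * 𝒢.emb (A i j) := by
  funext j
  rw [← VMOD.row_val, VMOD.row, row]
  simp only [map_sum, Th_single, Finset.sum_apply, Submodule.coe_sum]
  refine Finset.sum_congr rfl fun l _ => Finset.sum_congr rfl fun k _ => ?_
  rw [mul_smul, VMOD.bs, ← VMOD.ι_inc, ← hd]
  by_cases h : j = l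
  · subst h
    simp [VMOD.ee]
  · simp [VMOD.ee, h]

theorem sum_row (ℛ : Real s) (g : G) (i : Fin m) (F : L2 (Tw s.Γ (Fin n × (G ⧸ inc.range)))) :
    ∑ p, ℛ.φ (row hh qq A g i p) • eps (co p F) = eps (∑ j, ∑ k ∈ (A i j).support,
      A i j k • (rho (hh (g * k))).1 (co (j, qq (g * k)) F)) := by
  simp only [row, Finset.sum_apply, map_sum, Finset.sum_smul]
  rw [Finset.sum_comm]
  refine Finset.sum_congr rfl fun j _ => ?_
  rw [Finset.sum_comm]
  refine Finset.sum_congr rfl fun k _ => ?_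
  rw [Finset.sum_eq_single (j, qq (g * k)) (fun b _ hb => by simp [hb]) (by simp),
    Pi.single_eq_same, map_mul, ℛ.φ_alg, ℛ.φ_ι, eps_smul, eps_app, mul_smul]

end RK

open RK in
theorem q_rk (hR : S_RANK.{u}) : S_RK.{u} := by
  intro s ℛ G _ inc hi _ 𝒢 _ _ hf m n A W hW
  classical
  let _ := Fintype.ofFinite (G ⧸ inc.range)
  choose hh qq hd using VMOD.dec (inc := inc)
  let Λ : Submodule s.D (Fin n × (G ⧸ inc.range) → s.D) :=
    Submodule.span s.D {r | ∃ g i, r = row hh qq A g i}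
  have h1 : Λ.map (Th 𝒢 n) = 𝒢.Rel A := by
    rw [Submodule.map_span, GS.Rel]
    congr 1
    ext r
    constructor
    · rintro ⟨_, ⟨g, i, rfl⟩, rfl⟩
      exact ⟨g, i, Th_row 𝒢 hh qq A hd g i⟩
    · rintro ⟨g, i, rfl⟩
      exact ⟨_, ⟨g, i, rfl⟩, Th_row 𝒢 hh qq A hd g i⟩
  have h2 : Module.finrank s.D (𝒢.Rel A) = Module.finrank s.D Λ := by
    rw [← h1]
    exact (Submodule.equivMapOfInjective _ (Th_inj 𝒢) Λ).finrank_eq.symm
  let e₀ := Equiv.ofBijective _ (coset_bij inc hi)
  let e : Tw s.Γ (Fin n × (G ⧸ inc.range)) ≃ Tw G (Fin n) :=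
    { toFun := fun p => ⟨e₀ (p.k.2, p.y), p.k.1⟩
      invFun := fun p => ⟨(e₀.symm p.y).2, p.k, (e₀.symm p.y).1⟩
      left_inv := fun p => by simp
      right_inv := fun p => by simp }
  have he : ∀ (x : s.Γ) j q, e ⟨x, j, q⟩ = ⟨inc x * q.out⁻¹, j⟩ := fun _ _ _ => rfl
  have h3 : ∀ F g i, ∑ p, ℛ.φ (row hh qq A g i p) • eps (co p F) = 0 ↔ ∀ x : s.Γ,
      ∑ j, ∑ k ∈ (A i j).support, A i j k * push e e.injective F ⟨inc x * g * k, j⟩ = 0 := by
    intro F g i
    rw [sum_row, map_eq_zero_iff _ eps_inj, lp.ext_iff, funext_iff]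
    refine forall_congr' fun x => Eq.congr_left ?_
    simp only [lp.coeFn_sum, Finset.sum_apply]
    refine Finset.sum_congr rfl fun j _ => Finset.sum_congr rfl fun k _ => ?_
    have h4 : (⟨inc x * g * k, j⟩ : Tw G (Fin n)) = e ⟨x * hh (g * k), j, qq (g * k)⟩ := by
      rw [he, map_mul, mul_assoc (inc x) (inc _), ← hd, mul_assoc]
    rw [h4, push_apply_self]
    rfl
  have h4 := hR s.Γ s.D _ ℛ.φ Λ (pre (push e e.injective) W) fun F => by
    refine (hW _).trans ⟨fun h r hr => ?_, fun h g i => ?_⟩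
    · induction hr using Submodule.span_induction with
      | mem r hr =>
        obtain ⟨g, i, rfl⟩ := hr
        exact (h3 F g i).2 fun x => h _ i
      | zero => simp
      | add a b _ _ ha hb => simp only [Pi.add_apply, map_add, add_smul, Finset.sum_add_distrib,
          ha, hb, add_zero]
      | smul d a _ ha => simp only [Pi.smul_apply, smul_eq_mul, map_mul, mul_smul,
          ← Finset.smul_sum, ha, smul_zero]
    · have h5 := (h3 F g i).1 (h _ (Submodule.subset_span ⟨g, i, rfl⟩)) 1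
      rwa [map_one, one_mul] at h5
  have hi' : HN.Inv G W := fun a f hf' => (hW _).2 fun g i => by
    rw [← (hW f).1 hf' (a⁻¹ * g) i]
    exact Finset.sum_congr rfl fun j _ => Finset.sum_congr rfl fun k _ => by
      rw [mul_assoc]
      rfl
  let _ : MulAction s.Γ (Tw G (Fin n)) := MulAction.compHom _ inc
  have hι : ∀ (c : s.Γ) (z : Tw G (Fin n)), inc c • z = c • z := fun _ _ => rfl
  have h5 : img (push e e.injective) (pre (push e e.injective) W) = W :=
    Submodule.map_comap_eq_of_surjective (fun f => ⟨pull e e.injective f, lp.ext (funext fun z => by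
      obtain ⟨y, rfl⟩ := e.surjective z
      exact push_apply_self e e.injective _ y)⟩) W
  have h6 : ∀ (c : s.Γ) z, e (c • z) = c • e z := fun c z =>
    Tw.ext (show inc (c * z.y) * _ = inc c * (inc z.y * _) by rw [map_mul, mul_assoc]; rfl) rfl
  have h7 : edim s.Γ (pre (push e e.injective) W) = edim s.Γ W := by
    rw [edim, edim, ← osum_congr (H := s.Γ) e (fun z w => exists_congr fun c => by
      rw [← h6, e.injective.eq_iff]) (tau_smul (hi'.of_hom inc hι))]
    congr 1
    funext y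
    rw [← tau_img_push e e.injective, h5]
  rw [h7, edim_index inc (free_tw free_self) hi hι hi', ENat.card_eq_coe_natCard,
    Fintype.card_prod, Fintype.card_fin, ← Nat.card_eq_fintype_card, mul_comm n] at h4
  rw [h2]
  exact h4

end Pool.Agent.P.MP_0f25e6_al.VT.B
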