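import Pool.Agent.P.MP_0f25e6_al.VT.B2

/-!
Preimages of rational subspaces are rational.
-/

set_option autoImplicit false

open scoped InnerProductSpace ENNReal
open MulAction

noncomputable section

namespace Pool.Agent.P.MP_0f25e6_al.VT.B

universe u

open HN HR Sys

theorem q_rpre : S_RPRE.{u} := by
  intro G Y Z _ _ _ hY hZ cY T hT hf W hW
  have hc := hW.cls
  have hi := hW.inv
  obtain ⟨Y', _, hY', cY', N, T', hN, hcut, hT', hf', rfl⟩ := hW
  refine ⟨Y ⊕ Y', inferInstance, free_sum hY hY', cofin_sum cY cY', fp T T' ⊤ N, pl,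
    inv_fp hT hT' inv_top hN, cut_fp (finRows_of_finCols cY hZ hT hf)
      (finRows_of_finCols cY' hZ hT' hf') cut_top hcut, eqv_pull_inl, finCols_pull _ _,
    le_antisymm ?_ (cl_img_le (hc.pre _) fun f hf => ?_)⟩
  · refine (mem_cl_fp hY hZ hY' cY cY' hT hT' (hc.pre T) (hi.pre hT) hcut.cls hN
      fun n hn => hn).trans (cl_img_le (cls_cl _) fun f hf => mem_cl_img _ ?_)
    exact mem_fp.2 ⟨Submodule.mem_top, (mem_fp.1 hf).2⟩
  · obtain ⟨-, h2, h3⟩ := mem_fp.1 hf
    change T (pl f) ∈ cl (img T' N)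
    rw [h3]
    exact mem_cl_img _ h2

end Pool.Agent.P.MP_0f25e6_al.VT.B
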