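import Pool.Agent.P.MP_0f25e6_al.VT.B2

/-!
The skew field generated by the group inside the ring of quotients.
-/

set_option autoImplicit false

open scoped InnerProductSpace ENNReal
open MulAction

noncomputable section

namespace Pool.Agent.P.MP_0f25e6_al.VT.B

universe u

open HN HR Sys

namespace SKEW

variable {G : Type u} [Group G]

/-- Subrings that contain the scalars and the group and are closed under inverses. -/
def Cl (S : Subring (UU G)) : Prop :=
  (∀ c, algebraMap ℂ (UU G) c ∈ S) ∧ (∀ g : G, nu (rho g) ∈ S) ∧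
    ∀ a b : UU G, a * b = 1 → b * a = 1 → a ∈ S → b ∈ S

/-- The division closure of the group algebra. -/
def DD (G : Type u) [Group G] : Subring (UU G) := sInf {S | Cl S}

theorem cl_DD : Cl (DD G) :=
  ⟨fun c => Subring.mem_sInf.2 fun _ h => h.1 c, fun g => Subring.mem_sInf.2 fun _ h => h.2.1 g,
    fun a b h1 h2 h => Subring.mem_sInf.2 fun S hS =>
      hS.2.2 a b h1 h2 (Subring.mem_sInf.1 h S hS)⟩

/-- The elements with a rational graph. -/
def QQ (h : S_RATU.{u}) (G : Type u) [Group G] : Subring (UU G) where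
  carrier := {a | Rat G (Gr a)}
  mul_mem' ha hb := ((h G).2.2.1 _ _ ha hb).2
  add_mem' ha hb := ((h G).2.2.1 _ _ ha hb).1
  one_mem' := by simpa using (h G).1 1
  zero_mem' := by simpa using (h G).1 0
  neg_mem' ha := by simpa using ((h G).2.2.1 _ _ ((h G).1 (-1)) ha).2

theorem cl_QQ (h : S_RATU.{u}) : Cl (QQ h G) := ⟨(h G).1, (h G).2.1, (h G).2.2.2.1⟩

theorem unit_or (h : S_RATU.{u}) (hG : SAC G) (a : DD G) : IsUnit a ∨ a = 0 := by
  by_cases ha : a = 0
  · exact Or.inr ha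
  obtain ⟨v, hv⟩ := (h G).2.2.2.2 hG a (sInf_le (s := {S | Cl S}) (cl_QQ h) a.2)
    fun e => ha (Subtype.ext e)
  have h1 : (a : UU G) * ↑v⁻¹ = 1 := by rw [← hv, v.mul_inv]
  have h2 : ↑v⁻¹ * (a : UU G) = 1 := by rw [← hv, v.inv_mul]
  exact Or.inl ⟨⟨a, ⟨_, cl_DD.2.2 _ _ h1 h2 a.2⟩, Subtype.ext h1, Subtype.ext h2⟩, rfl⟩

/-- The image of the generated skew field is closed under inverses. -/
theorem cl_map (s : Sys.{u}) (φ : s.D →+* UU s.Γ)
    (h1 : ∀ c, φ (algebraMap ℂ s.D c) = algebraMap ℂ (UU s.Γ) c)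
    (h2 : ∀ g, φ (s.ι g) = nu (rho g)) : Cl ((s.fld ⊤).toSubring.map φ) := by
  refine ⟨fun c => ⟨_, alg_mem ⊤ c, h1 c⟩, fun g => ⟨_, ι_mem (Subgroup.mem_top g), h2 g⟩, ?_⟩
  rintro _ b e - ⟨d, hd, rfl⟩
  have h0 : d ≠ 0 := fun e' => by
    rw [e', map_zero, zero_mul] at e
    exact zero_ne_one e
  refine ⟨d⁻¹, inv_mem (show d ∈ s.fld ⊤ from hd), ?_⟩
  rw [← mul_one (φ d⁻¹), ← e, ← mul_assoc, ← map_mul, inv_mul_cancel₀ h0, map_one, one_mul]

end SKEW

open SKEW in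
theorem q_skew (h : S_RATU.{u}) : S_SKEW.{u} := by
  refine ⟨fun G _ hG => ?_, fun s ℛ d => ?_⟩
  · letI : DivisionRing (DD G) := DivisionRing.ofIsUnitOrEqZero (unit_or h hG)
    letI : Algebra ℂ (DD G) := ((algebraMap ℂ (UU G)).codRestrict (DD G) cl_DD.1).toAlgebra'
      fun c x => Subtype.ext (Algebra.commutes c (x : UU G))
    let ι : G →* DD G := ((nu : NN G →+* UU G).toMonoidHom.comp rho).codRestrict (DD G) cl_DD.2.1
    refine ⟨DD G, inferInstance, inferInstance, ι, ⟨⟨(DD G).subtype, fun _ => rfl, fun _ => rfl,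
      fun d => ?_⟩⟩⟩
    obtain ⟨d', h1, h2⟩ := sInf_le (s := {S | Cl S})
      (cl_map ⟨G, DD G, ι⟩ (DD G).subtype (fun _ => rfl) fun _ => rfl) d.2
    exact (show d' = d from Subtype.ext h2) ▸ h1
  · refine fld_induction (P := fun d => Rat s.Γ (Gr (ℛ.φ d))) (fun c => ?_) (fun g _ => ?_)
      (fun x _ y _ a b => ?_) (fun x _ y _ a b => ?_) (fun x _ h0 a => ?_) (ℛ.gen d)
    · rw [ℛ.φ_alg]
      exact (h _).1 c
    · rw [ℛ.φ_ι]
      exact (h _).2.1 g
    · rw [map_add]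
      exact ((h _).2.2.1 _ _ a b).1
    · rw [map_mul]
      exact ((h _).2.2.1 _ _ a b).2
    · exact (h _).2.2.2.1 _ _ (by rw [← map_mul, mul_inv_cancel₀ h0, map_one])
        (by rw [← map_mul, inv_mul_cancel₀ h0, map_one]) a

end Pool.Agent.P.MP_0f25e6_al.VT.B
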