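import Pool.Agent.P.MP_0f25e6_al.VT.B2

/-!
Linear maps out of induced modules with prescribed values, and normal forms.
-/

set_option autoImplicit false

open scoped InnerProductSpace ENNReal
open MulAction

noncomputable section

namespace Pool.Agent.P.MP_0f25e6_al.VT.B

universe u

open HN HR Sys

namespace TREL

/-- Representatives of the orbits. -/
theorem exists_rep (G W : Type u) [Group G] [MulAction G W] :
    ∃ (r : W → W) (a : W → G), (∀ w, a w • r w = w) ∧ ∀ (g : G) w, r (g • w) = r w := by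
  have h : ∀ w : W, ∃ g : G, g • (Quotient.mk (orbitRel G W) w).out = w := fun w =>
    (orbitRel G W).symm (Quotient.mk_out (s := orbitRel G W) w)
  choose a ha using h
  exact ⟨_, a, ha, fun g w => congrArg Quotient.out (Quotient.sound ⟨g, rfl⟩)⟩

/-- A consistent relation extends to a linear map. -/
theorem exists_lin {L V M : Type u} [DivisionRing L] [AddCommGroup V] [Module L V]
    [AddCommGroup M] [Module L M] (R : V → M → Prop)
    (h : ∀ (J : Type u) [Fintype J] (κ : J → L) (v : J → V) (m : J → M), (∀ j, R (v j) (m j)) →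
      ∑ j, κ j • v j = 0 → ∑ j, κ j • m j = 0) :
    ∃ ν : V →ₗ[L] M, ∀ v m, R v m → ν v = m := by
  let S : Submodule L (V × M) := Submodule.span L {p | R p.1 p.2}
  have hS : LinearMap.ker ((LinearMap.fst L V M).comp S.subtype) = ⊥ := by
    refine LinearMap.ker_eq_bot'.2 fun x hx => Subtype.ext ?_
    obtain ⟨c, hc, hx'⟩ := Submodule.mem_span_set.1 x.2
    have e : ∑ j : c.support, c j • (j : V × M) = x :=
      (Finset.sum_coe_sort c.support fun p => c p • p).trans hx'
    have e1 := congrArg (LinearMap.fst L V M) e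
    have e2 := congrArg (LinearMap.snd L V M) e
    simp only [map_sum, map_smul] at e1 e2
    exact Prod.ext hx (e2.symm.trans (h c.support (fun j => c j) (fun j => j.1.1) (fun j => j.1.2)
      (fun j => hc j.2) (e1.trans hx)))
  obtain ⟨g, hg⟩ := LinearMap.exists_leftInverse_of_injective _ hS
  refine ⟨(LinearMap.snd L V M).comp (S.subtype.comp g), fun v m hR => ?_⟩
  have h1 := LinearMap.congr_fun hg ⟨(v, m), Submodule.subset_span hR⟩
  exact congrArg (fun x : S => x.1.2) h1

variable {s : Sys.{u}}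

theorem bd_map {V V' Vt E : Type u} [AddCommGroup V] [Module s.D V] [AddCommGroup V']
    [Module s.D V'] [MulAction s.Γ Vt] [MulAction s.Γ E] (Tr : TreeData s.Γ Vt E)
    (f : V →ₗ[s.D] V') (x : s.Ten E V) : bd V' Tr (map E f x) = map Vt f (bd V Tr x) :=
  LinearMap.congr_fun (Ten.ext_lin (f := (bd V' Tr).comp (map E f))
    (g := (map Vt f).comp (bd V Tr)) fun w v => by simp) x

/-- An element all of whose coordinates vanish is zero. -/
theorem eq_zero_of_coord {V E : Type u} [AddCommGroup V] [Module s.D V] [MulAction s.Γ E]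
    (x : s.Ten E V) (hx : ∀ f : V →ₗ[s.D] s.D, map E f x = 0) : x = 0 := by
  classical
  let β := Module.Basis.ofVectorSpace s.D V
  have h : ∀ x : s.Ten E V, ∀ᶠ F in Filter.atTop, ∑ k ∈ F,
      map E (LinearMap.toSpanSingleton s.D V (β k)) (map E (β.coord k) x) = x := fun x => by
    induction x using Ten.ind with
    | h0 => exact Filter.Eventually.of_forall fun F => by simp
    | hadd x y hx hy =>
      filter_upwards [hx, hy] with F h1 h2
      simp only [map_add, Finset.sum_add_distrib, h1, h2]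
    | ht d w v =>
      filter_upwards [Filter.eventually_ge_atTop (β.repr v).support] with F hF
      simp only [map_smul, map_t]
      rw [← Finset.smul_sum, ← map_sum]
      refine congrArg (fun z => d • s.t w z) ?_
      refine Eq.trans ?_ (β.linearCombination_repr v)
      exact (Finsupp.sum_of_support_subset _ hF (fun i a => a • β i)
        fun _ _ => zero_smul _ _).symm
  obtain ⟨F, hF⟩ := (h x).exists
  rw [← hF]
  exact Finset.sum_eq_zero fun k _ => by rw [hx, map_zero]

/-- The case of the skew field itself. -/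
theorem nf_field (H : CL1' s) {Vt E : Type u} [MulAction s.Γ Vt] [MulAction s.Γ E]
    (Tr : TreeData s.Γ Vt E) (x : s.Ten E s.D) (hx : bd s.D Tr x = 0) : x = 0 := by
  classical
  obtain ⟨r, a, ha, hr⟩ := exists_rep s.Γ E
  let B : E → Set s.D := fun e =>
    Module.Basis.ofVectorSpaceIndex (s.fld (stabilizer s.Γ e)) s.D
  let S : Set (E × s.D) := {p | r p.1 = p.1 ∧ p.2 ∈ B p.1}
  let N := Submodule.span s.D ((fun p : E × s.D => s.t p.1 p.2) '' S)
  have h1 : ∀ e, r e = e → ∀ v, s.t e v ∈ N := fun e he v => by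
    have h2 := (Module.Basis.ofVectorSpace (s.fld (stabilizer s.Γ e)) s.D).mem_span v
    induction h2 using Submodule.span_induction with
    | mem y hy =>
      obtain ⟨k, rfl⟩ := hy
      rw [Module.Basis.ofVectorSpace_apply_self]
      exact Submodule.subset_span ⟨(e, k.1), ⟨he, k.2⟩, rfl⟩
    | zero => rw [map_zero]; exact N.zero_mem
    | add y z _ _ hy hz => rw [map_add]; exact N.add_mem hy hz
    | smul κ y _ hy => exact (t_smul κ.2 y).symm ▸ N.smul_mem κ.1 hy
  have h2 : ∀ x, x ∈ N := fun x => by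
    induction x using Ten.ind with
    | h0 => exact N.zero_mem
    | hadd y z hy hz => exact N.add_mem hy hz
    | ht d w v =>
      rw [← ha w, t_act']
      exact N.smul_mem _ (N.smul_mem _ (h1 _ ((hr (a w) (r w)).symm.trans (congrArg r (ha w))) _))
  obtain ⟨l, hl, hlx⟩ := (Finsupp.mem_span_image_iff_linearCombination _).1 (h2 x)
  have e : ∑ j : l.support, l j • s.t j.1.1 j.1.2 = x :=
    (Finset.sum_coe_sort l.support fun p => l p • s.t p.1 p.2).trans hlx
  have h3 := H Vt E Tr l.support (fun j => j.1.1) (fun j => l j) (fun j => j.1.2)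
    (fun j j' g hg => by rw [← (hl j.2).1, ← hr g, hg, (hl j'.2).1])
    (fun e₀ c hc h0 hs j => ?_) (by rw [e, hx])
  · rw [← e]
    exact Finset.sum_eq_zero fun j _ => by rw [h3 j, zero_smul]
  · by_cases hj : j.1.1 = e₀
    · have hli : LinearIndepOn (s.fld (stabilizer s.Γ e₀)) (fun j : l.support => j.1.2)
          {j | j.1.1 = e₀} :=
        (Module.Basis.ofVectorSpaceIndex.linearIndependent (s.fld (stabilizer s.Γ e₀)) s.D).comp
          (fun j : {j : l.support | j.1.1 = e₀} => ⟨j.1.1.2, by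
            have h4 := (hl j.1.2).2
            rwa [show j.1.1.1 = e₀ from j.2] at h4⟩)
          fun j j' h => Subtype.ext (Subtype.ext (Prod.ext (j.2.trans j'.2.symm)
            (congrArg Subtype.val h)))
      have h5 := linearIndepOn_iff'.1 hli (Finset.univ.filter fun j => j.1.1 = e₀)
        (fun j => ⟨c j, hc j⟩) (fun j hj => (Finset.mem_filter.1 hj).2) (by
          rw [← hs, Finset.sum_filter]
          refine Finset.sum_congr rfl fun j _ => ?_
          split_ifs with h
          · rfl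
          · rw [h0 j h, zero_mul]) j (Finset.mem_filter.2 ⟨Finset.mem_univ _, hj⟩)
      exact congrArg Subtype.val h5
    · exact h0 j hj

end TREL

theorem q_trel : S_TREL.{u} := by
  intro s W V M _ _ _ _ _ R hR hC
  obtain ⟨r, a, ha, hr⟩ := TREL.exists_rep s.Γ W
  have h : ∀ w : W, ∃ ν : V →ₗ[s.fld (stabilizer s.Γ w)] M, ∀ v m, R w v m → ν v = m := fun w =>
    TREL.exists_lin (R w) fun J _ κ v m => hC w J (fun j => κ j) v m fun j => (κ j).2
  choose ν hν using h
  have h2 : ∀ w, ∀ κ ∈ s.fld (stabilizer s.Γ w), ∀ v, ν w (κ • v) = κ • ν w v :=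
    fun w κ hκ v => (ν w).map_smul ⟨κ, hκ⟩ v
  let τ : W → V →+ M := fun w => (DistribSMul.toAddMonoidHom M (s.ι (a w))).comp
    ((ν (r w)).toAddMonoidHom.comp (DistribSMul.toAddMonoidHom V (s.ι (a w)⁻¹)))
  have hτ : ∀ (w w₀ : W) (g : s.Γ) v, r w = w₀ → g • w₀ = w →
      τ w v = s.ι g • ν w₀ (s.ι g⁻¹ • v) := fun w w₀ g v h0 hg => by
    subst h0
    have h3 : (a w)⁻¹ * g ∈ stabilizer s.Γ (r w) := by
      rw [mem_stabilizer_iff, mul_smul, hg, inv_smul_eq_iff, ha]
    have h4 := h2 _ _ (ι_mem h3) (s.ι g⁻¹ • v)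
    rw [smul_smul, ← map_mul, mul_inv_cancel_right] at h4
    change s.ι (a w) • ν (r w) (s.ι (a w)⁻¹ • v) = _
    rw [h4, smul_smul, ← map_mul, mul_inv_cancel_left]
  have hinv : ∀ w, (a w)⁻¹ • w = r w := fun w => inv_smul_eq_iff.2 (ha w).symm
  refine ⟨lift τ (fun w κ v hκ => ?_) fun g w v => ?_, fun w v m h => ?_⟩
  · have h3 := conj_stab (a w)⁻¹ hκ
    rw [hinv, inv_inv] at h3
    have h4 := h2 _ _ h3 (s.ι (a w)⁻¹ • v)
    rw [mul_smul, mul_smul, ι_smul_inv] at h4
    rw [hτ w _ _ _ rfl (ha w), hτ w _ _ _ rfl (ha w), h4, mul_smul, mul_smul, ι_smul_inv]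
  · rw [hτ (g • w) (r w) (g * a w) _ (hr g w) (by rw [mul_smul, ha]), hτ w _ _ _ rfl (ha w),
      mul_inv_rev, map_mul, map_mul, mul_smul, mul_smul, ι_inv_smul]
  · have h3 := hR (a w)⁻¹ w v m h
    rw [hinv] at h3
    rw [lift_t, hτ w _ _ _ rfl (ha w), hν _ _ _ h3, ι_smul_inv]

theorem q_nf : S_NF.{u} := by
  intro s H V Vt E _ _ _ _ Tr
  refine (injective_iff_map_eq_zero _).2 fun x hx => TREL.eq_zero_of_coord x fun f => ?_
  exact TREL.nf_field H Tr _ (by rw [TREL.bd_map, hx, map_zero])

end Pool.Agent.P.MP_0f25e6_al.VT.B
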