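import Pool.Agent.P.MP_0f25e6_al.VT.Alg
import Pool.Agent.P.MP_0f25e6_al.VT.Cnt
import Pool.Agent.P.MP_0f25e6_al.VT.QAN
import Pool.Agent.P.MP_0f25e6_al.VT.QIND
import Pool.Agent.P.MP_0f25e6_al.VT.QRPRE
import Pool.Agent.P.MP_0f25e6_al.VT.QRATU
import Pool.Agent.P.MP_0f25e6_al.VT.QSKEW
import Pool.Agent.P.MP_0f25e6_al.VT.QKILL
import Pool.Agent.P.MP_0f25e6_al.VT.QRANK
import Pool.Agent.P.MP_0f25e6_al.VT.QJH2
import Pool.Agent.P.MP_0f25e6_al.VT.QDENS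
import Pool.Agent.P.MP_0f25e6_al.VT.QLD
import Pool.Agent.P.MP_0f25e6_al.VT.QTREL
import Pool.Agent.P.MP_0f25e6_al.VT.QCL1
import Pool.Agent.P.MP_0f25e6_al.VT.QGS
import Pool.Agent.P.MP_0f25e6_al.VT.QNZ
import Pool.Agent.P.MP_0f25e6_al.VT.QRK

/-!
The statement on groups permuting finitely many trees.
-/

set_option autoImplicit false

namespace Pool.Agent.P.MP_0f25e6_al.VT

universe u

open B in
theorem ppt : PPT.{u} := by
  have hS : B.S_SKEW.{u} := q_skew (q_ratu q_rpre)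
  have hF : B.S_FRAC.{u} := q_frac' hS q_ind q_jh'
  have hD : B.S_DENS.{u} := q_dens hS (q_joint q_rpre) q_kill q_ind q_jh'
  exact ppt_of_an (q_an q_ind hS q_jh' (q_ld hF hD) q_nf (q_cl1 hF hD q_trel) q_gs (q_nz hS q_ind)
    (q_rk q_rank))

end Pool.Agent.P.MP_0f25e6_al.VT
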