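import Pool.Agent.P.MP_0f25e6_al.VT.AnSpec

/-!
Injectivity of the boundary map of a tree, from the case of one orbit of edges.
-/

set_option autoImplicit false

open scoped InnerProductSpace ENNReal
open MulAction

noncomputable section

namespace Pool.Agent.P.MP_0f25e6_al.VT

universe u

open HN HR Sys

namespace AnCL1

variable {s : Sys.{u}} {E : Type u} [MulAction s.Γ E]

/-- The part of the induced module that is carried by a set of edges. -/
def Sp (s : Sys.{u}) {E : Type u} [MulAction s.Γ E] (P : E → Prop) : AddSubgroup (s.Ten E s.D) :=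
  AddSubgroup.closure {y | ∃ (a : s.D) (e : E) (v : s.D), P e ∧ y = a • s.t e v}

theorem Sp_mono {P Q : E → Prop} (h : ∀ e, P e → Q e) : Sp s P ≤ Sp s Q :=
  AddSubgroup.closure_mono fun _ ⟨a, e, v, h1, h2⟩ => ⟨a, e, v, h e h1, h2⟩

theorem mem_Sp {P : E → Prop} (a : s.D) {e : E} (v : s.D) (h : P e) : a • s.t e v ∈ Sp s P :=
  AddSubgroup.subset_closure ⟨a, e, v, h, rfl⟩

theorem exists_fin (z : s.Ten E s.D) :
    ∃ Q : Finset E, z ∈ Sp s fun e => ∃ e₀ ∈ Q, ∃ g : s.Γ, g • e₀ = e := by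
  classical
  induction z using Ten.ind with
  | h0 => exact ⟨∅, zero_mem _⟩
  | hadd x y hx hy =>
    obtain ⟨Q, hQ⟩ := hx
    obtain ⟨R, hR⟩ := hy
    exact ⟨Q ∪ R, add_mem
      (Sp_mono (fun e ⟨a, h, h'⟩ => ⟨a, Finset.mem_union_left _ h, h'⟩) hQ)
      (Sp_mono (fun e ⟨a, h, h'⟩ => ⟨a, Finset.mem_union_right _ h, h'⟩) hR)⟩
  | ht d w v => exact ⟨{w}, mem_Sp d v ⟨w, Finset.mem_singleton_self w, 1, one_smul _ _⟩⟩

theorem t_mem_span (e₀ : E) {J : Type*} (b : Module.Basis J (s.fld (stabilizer s.Γ e₀)) s.D)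
    (v : s.D) : s.t e₀ v ∈ Submodule.span s.D (Set.range fun i => s.t e₀ (b i)) := by
  have hv : v ∈ Submodule.span (s.fld (stabilizer s.Γ e₀)) (Set.range b) := by
    rw [b.span_eq]
    trivial
  induction hv using Submodule.span_induction with
  | mem x hx =>
    obtain ⟨i, rfl⟩ := hx
    exact Submodule.subset_span ⟨i, rfl⟩
  | zero =>
    rw [map_zero]
    exact zero_mem _
  | add x y _ _ hx hy =>
    rw [map_add]
    exact add_mem hx hy
  | smul a x _ hx =>
    have h := t_smul (s := s) (V := s.D) a.2 x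
    change s.t e₀ ((a : s.D) • x) ∈ _
    rw [h]
    exact Submodule.smul_mem _ _ hx

theorem step (h : s.HALF) {Vt : Type u} [MulAction s.Γ Vt] (Tr : TreeData s.Γ Vt E) (e₀ : E)
    (P : E → Prop) {z : s.Ten E s.D} (hz : z ∈ Sp s fun e => (∃ g : s.Γ, g • e₀ = e) ∨ P e)
    (h0 : bd s.D Tr z = 0) : z ∈ Sp s P := by
  classical
  let b := Module.Basis.ofVectorSpace (s.fld (stabilizer s.Γ e₀)) s.D
  have h1 : (Sp s fun e => (∃ g : s.Γ, g • e₀ = e) ∨ P e) ≤
      (Submodule.span s.D (Set.range fun i => s.t e₀ (b i))).toAddSubgroup ⊔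
        Sp s fun e => (∀ g : s.Γ, g • e₀ ≠ e) ∧ P e := by
    refine (AddSubgroup.closure_le _).2 ?_
    rintro _ ⟨a, e, v, he, rfl⟩
    by_cases h2 : ∃ g : s.Γ, g • e₀ = e
    · obtain ⟨g, rfl⟩ := h2
      refine AddSubgroup.mem_sup_left ?_
      rw [t_act']
      exact Submodule.smul_mem _ _ (Submodule.smul_mem _ _ (t_mem_span e₀ b _))
    · exact AddSubgroup.mem_sup_right (mem_Sp a v ⟨fun g hg => h2 ⟨g, hg⟩, he.resolve_left h2⟩)
  obtain ⟨z₀, h2, ζ, h3, rfl⟩ := AddSubgroup.mem_sup.1 (h1 hz)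
  obtain ⟨c, rfl⟩ := Finsupp.mem_span_range_iff_exists_finsupp.1 h2
  let σ := c.support.equivFin.symm
  have h4 : (c.sum fun i a => a • s.t e₀ (b i)) = ∑ j, c (σ j) • s.t e₀ (b (σ j)) := by
    rw [Finsupp.sum, ← Finset.sum_coe_sort]
    exact (Equiv.sum_comp σ fun i : c.support => c i • s.t e₀ (b i)).symm
  have h5 : LinearIndependent (s.fld (stabilizer s.Γ e₀)) fun j => b (σ j) :=
    b.linearIndependent.comp _ (Subtype.val_injective.comp σ.injective)
  rw [h4] at h0 ⊢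
  have h6 := h Vt E Tr e₀ _ (fun j => c (σ j)) (fun j => b (σ j)) ζ (fun k hk h7 j =>
    congrArg Subtype.val (Fintype.linearIndependent_iff.1 h5 (fun j => ⟨k j, hk j⟩) h7 j))
    (Sp_mono (P := fun e => (∀ g : s.Γ, g • e₀ ≠ e) ∧ P e) (Q := fun e => ∀ g : s.Γ, g • e₀ ≠ e)
      (fun _ he => he.1) h3) h0
  simp only [h6, zero_smul, Finset.sum_const_zero, zero_add]
  exact Sp_mono (fun _ he => he.2) h3

theorem base (h : s.HALF) {Vt : Type u} [MulAction s.Γ Vt] (Tr : TreeData s.Γ Vt E)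
    {z : s.Ten E s.D} (h0 : bd s.D Tr z = 0) : z = 0 := by
  classical
  obtain ⟨Q, hQ⟩ := exists_fin z
  induction Q using Finset.induction_on with
  | empty =>
    have h1 : (Sp s fun e : E => ∃ e₀ ∈ (∅ : Finset E), ∃ g : s.Γ, g • e₀ = e) ≤ ⊥ := by
      refine (AddSubgroup.closure_le _).2 ?_
      rintro _ ⟨a, e, v, ⟨_, he, _⟩, rfl⟩
      exact absurd he (Finset.notMem_empty _)
    exact h1 hQ
  | insert e₀ Q _ ih =>
    refine ih (step h Tr e₀ _ (Sp_mono ?_ hQ) h0)
    rintro e ⟨a, ha, hg⟩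
    rcases Finset.mem_insert.1 ha with rfl | ha
    · exact Or.inl hg
    · exact Or.inr ⟨a, ha, hg⟩

theorem expand {V J : Type u} [AddCommGroup V] [Module s.D V] (b : Module.Basis J s.D V)
    (z : s.Ten E V) : ∃ Q : Finset J, ∀ R : Finset J, Q ⊆ R →
      ∑ i ∈ R, map E (LinearMap.toSpanSingleton s.D V (b i)) (map E (b.coord i) z) = z := by
  classical
  induction z using Ten.ind with
  | h0 => exact ⟨∅, fun R _ => by simp only [map_zero, Finset.sum_const_zero]⟩
  | hadd x y hx hy =>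
    obtain ⟨Q, hQ⟩ := hx
    obtain ⟨Q', hQ'⟩ := hy
    refine ⟨Q ∪ Q', fun R hR => ?_⟩
    simp only [map_add, Finset.sum_add_distrib]
    rw [hQ R (Finset.subset_union_left.trans hR), hQ' R (Finset.subset_union_right.trans hR)]
  | ht d w v =>
    refine ⟨(b.repr v).support, fun R hR => ?_⟩
    simp only [map_smul, map_t, LinearMap.toSpanSingleton_apply, Module.Basis.coord_apply]
    rw [← Finset.smul_sum, ← map_sum]
    congr 2
    conv_rhs => rw [← b.linearCombination_repr v, Finsupp.linearCombination_apply]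
    exact (Finsupp.sum_of_support_subset _ hR (fun i (a : s.D) => a • b i)
      fun i _ => zero_smul s.D _).symm

theorem bd_map {V V' Vt : Type u} [AddCommGroup V] [Module s.D V] [AddCommGroup V'] [Module s.D V']
    [MulAction s.Γ Vt] (Tr : TreeData s.Γ Vt E) (f : V →ₗ[s.D] V') (z : s.Ten E V) :
    bd V' Tr (map E f z) = map Vt f (bd V Tr z) :=
  LinearMap.congr_fun (Ten.ext_lin (f := bd V' Tr ∘ₗ map E f) (g := map Vt f ∘ₗ bd V Tr)
    fun w v => by simp only [LinearMap.comp_apply, map_t, bd_t, map_sub]) z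

end AnCL1

theorem p_cl1 : S_CL1.{u} := by
  intro s h V Vt E _ _ _ _ Tr
  rw [injective_iff_map_eq_zero]
  intro z hz
  let b := Module.Basis.ofVectorSpace s.D V
  obtain ⟨Q, hQ⟩ := AnCL1.expand b z
  rw [← hQ Q subset_rfl]
  refine Finset.sum_eq_zero fun i _ => ?_
  rw [AnCL1.base h Tr (z := map E (b.coord i) z) (by rw [AnCL1.bd_map, hz, map_zero]), map_zero]

end Pool.Agent.P.MP_0f25e6_al.VT
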