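import Pool.Agent.P.MP_0f25e6_al.VT.AnSpec

/-!
Density of the restrictions to a subgroup.
-/

set_option autoImplicit false

open scoped InnerProductSpace ENNReal
open MulAction

noncomputable section

namespace Pool.Agent.P.MP_0f25e6_al.VT

universe u

open HN HR Sys

namespace AnDens

variable {s : Sys.{u}}

theorem qr_phi (h3 : S_QR.{u}) (R : Rz s) (hs : s.Gen) (d : s.D) : QR (R.φ d) := by
  obtain ⟨q1, q2, q3, q4⟩ := h3 s.Γ
  refine fld_induction (P := fun d => QR (R.φ d)) (fun c => ?_) (fun g _ => ?_)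
    (fun x _ y _ hx hy => ?_) (fun x _ y _ hx hy => ?_) (fun x _ h0 hx => ?_) (hs d)
  · rw [R.φ_alg, sc_def]
    refine q1 _ fun a ha => ?_
    rw [Algebra.algebraMap_eq_smul_one]
    exact ha.smul c
  · rw [R.φ_ι]
    exact q1 _ (finCols_rho g)
  · rw [map_add]
    exact q2 _ _ hx hy
  · rw [map_mul]
    exact q3 _ _ hx hy
  · exact q4 _ _ (by rw [← map_mul, mul_inv_cancel₀ h0, map_one])
      (by rw [← map_mul, inv_mul_cancel₀ h0, map_one]) hx

theorem rat_stack {G : Type u} [Group G] (h3 : S_QR.{u}) (h4 : S_JOINT.{u}) (h5 : S_GRAPH.{u})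
    {J : Type} [Fintype J] {a : J → UU G} (ha : ∀ j, QR (a j)) {t : NN G} {m : J → NN G}
    (ht : t ∈ SS G) (hm : ∀ j, a j * nu t = nu (m j)) :
    Rat G (cl (img (stack fun j => (m j).1) ⊤)) := by
  have h1 : QR (1 : UU G) := by
    rw [← map_one nu]
    exact (h3 G).1 1 fun _ h => h
  have h2 := h4 G (Option J) (fun o => o.elim 1 a) none (fun o => by cases o <;> simp [h1, ha])
  rw [h5 G (Option J) (fun o => o.elim 1 a) none t (fun o => o.elim t m) rfl ht
    (fun o => by cases o <;> simp [hm])] at h2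
  have h6 := h2.img (S := stack fun j : J => co (some j)) (eqv_stack fun j => eqv_co _)
    (finCols_stack fun j => finCols_co _)
  rw [cl_img_cl] at h6
  have key : ∀ ξ, (stack fun j : J => co (some j))
      (stack (fun o : Option J => (o.elim t m).1) ξ) = stack (fun j => (m j).1) ξ := fun ξ =>
    ext_co fun j => by rw [co_stack, co_stack, co_stack]; rfl
  convert h6 using 2
  ext f
  constructor
  · rintro ⟨ξ, -, rfl⟩
    exact ⟨_, ⟨ξ, trivial, rfl⟩, key ξ⟩
  · rintro ⟨_, ⟨ξ, -, rfl⟩, rfl⟩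
    exact ⟨ξ, trivial, (key ξ).symm⟩

/-- The inclusion of the coordinates over a subgroup. -/
def tw {G J : Type*} [Group G] (C : Subgroup G) (p : Tw C J) : Tw G J := ⟨p.y, p.k⟩

theorem tw_injective {G J : Type*} [Group G] (C : Subgroup G) :
    Function.Injective (tw C : Tw C J → Tw G J) := fun _ _ h =>
  Tw.ext (Subtype.ext (congrArg Tw.y h)) (congrArg (Tw.k : Tw G J → J) h)

theorem rat_pull {G : Type u} [Group G] (hF : Full G) (C : Subgroup G) {J : Type} [Fintype J]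
    {W : Submodule ℂ (L2 (Tw G J))} (hW : Rat G W) :
    Rat C (cl (img (pull _ (tw_injective C)) W)) := by
  obtain ⟨h1, h2⟩ := hF G (MonoidHom.id G) (pf_ker_of_inj Function.injective_id)
  have hκ : ∀ p : Tw G J, ((p.y : G ⧸ C) = ((1 : G) : G ⧸ C)) ↔ p.y ∈ C := fun p => by
    rw [eq_comm, QuotientGroup.eq, inv_one, one_mul]
  have h3 := res_of_tp C.subtype_injective h1 (h2 C C.subtype C.subtype_injective) (Tw G J) (G ⧸ C)
    (fun p => (p.y : G ⧸ C)) ((1 : G) : G ⧸ C) (free_tw free_self) (fun _ _ => rfl)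
    (fun _ _ => rfl) (by rw [stabilizer_quotient, C.range_subtype])
    ⟨Set.range fun j => ⟨1, j⟩, Set.finite_range _, fun p hp =>
      ⟨⟨p.y⁻¹, inv_mem ((hκ p).1 hp)⟩, p.k, Tw.ext (inv_mul_cancel p.y).symm rfl⟩⟩ W hW
  have h4 := h3.img (S := pull _ (tw_injective C)) (eqv_pull _ fun _ _ => rfl) (finCols_pull _ _)
  rw [cl_img_cl] at h4
  have key : ∀ f : L2 (Tw G J), pull _ (tw_injective C)
      (res ((fun p : Tw G J => (p.y : G ⧸ C)) ⁻¹' {((1 : G) : G ⧸ C)}) f) =
      pull _ (tw_injective C) f := fun f =>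
    lp.ext (funext fun p => res_apply_of_mem f ((hκ (tw C p)).2 p.y.2))
  convert h4 using 2
  ext f
  constructor
  · rintro ⟨g, hg, rfl⟩
    exact ⟨_, ⟨g, hg, rfl⟩, key g⟩
  · rintro ⟨_, ⟨g, hg, rfl⟩, rfl⟩
    exact ⟨g, hg, (key g).symm⟩

theorem eq_zero_of_sum {Y Z J : Type*} [Fintype J] {L : J → L2 Y →L[ℂ] L2 Z}
    (h : ∀ F : L2 (Tw Y J), ∑ j, L j (co j F) = 0) (j : J) : L j = 0 := by
  classical
  refine ContinuousLinearMap.ext fun x => ?_
  have h1 := h (stack (fun i => if i = j then (1 : L2 Y →L[ℂ] L2 Y) else 0) x)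
  simp only [co_stack] at h1
  rw [Finset.sum_eq_single j (fun i _ hi => by simp [hi]) (by simp)] at h1
  simpa using h1

end AnDens

open AnDens

theorem p_dens (h1 : S_IND.{u}) (h2 : S_EX.{u}) (h3 : S_QR.{u}) (h4 : S_JOINT.{u})
    (h5 : S_GRAPH.{u}) (h6 : S_KILL.{u}) : S_DENS.{u} := by
  intro s R hs hF C J _ k t m ht hm hind Z L hL
  have hW := rat_pull hF C (rat_stack h3 h4 h5 (fun j => qr_phi h3 R hs (k j)) ht hm)
  rw [cl_img_cl] at hW
  have hco : ∀ ξ j, co j (pull _ (tw_injective C) (stack (fun j => (m j).1) ξ)) =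
      pull C.subtype C.subtype_injective ((m j).1 ξ) := fun ξ j =>
    lp.ext (funext fun y => stack_apply _ _ _ _)
  by_cases hT : cl (img (pull _ (tw_injective C)) (img (stack fun j => (m j).1) ⊤)) = ⊤
  · refine eq_zero_of_sum fun F => ?_
    have h7 : F ∈ pre (∑ j, L j ∘L co j) ⊥ := by
      refine (cl_img_le (cls_bot.pre _) ?_) (hT.ge Submodule.mem_top)
      rintro _ ⟨ξ, -, rfl⟩
      have h8 := hL ξ
      simp only [← hco] at h8
      simpa [sum_apply] using h8
    simpa [sum_apply] using h7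
  have hC : SAC C := SAC.of_injective C.subtype C.subtype_injective hF.sac
  obtain ⟨D, _, _, ι, hg, ⟨R'⟩⟩ := h2 C hC
  obtain ⟨I⟩ := h1 C s.Γ C.subtype C.subtype_injective
  obtain ⟨j, j0, j1, j2⟩ := Rz.exists_hom (s := Sys.mk C D ι) R' R hg I
  obtain ⟨r, hr, hk⟩ := h6 C D J R'.φ hC (fun g => ⟨_, R'.φ_ι g⟩) (fun c => ⟨_, R'.φ_alg c⟩) _ hW hT
  obtain ⟨σ, hσ, n, hn⟩ := exists_left fun i => R'.φ (r i)
  have h7 : ∑ i, I.N (n i) * m i = 0 := by
    refine NN.eq_zero' fun ξ => ?_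
    have h8 := hk (mem_cl_img (f := stack (fun j => (m j).1) ξ) _ ⟨ξ, trivial, rfl⟩) r rfl
    rw [← map_zero vec, sum_smul_vec_eq_iff hσ hn, map_zero] at h8
    simp only [hco, ← I.pull_N, ← map_sum] at h8
    have h10 := congrArg (fun x : L2 C => x 1) h8
    rw [AddSubmonoidClass.coe_finsetSum, sum_apply]
    exact h10
  have h8 : ∑ i, j (r i) * k i = 0 := by
    apply R.φ.injective
    have h9 : nu (I.N σ) * R.φ (∑ i, j (r i) * k i) * nu t = 0 := by
      rw [map_sum, Finset.mul_sum, Finset.sum_mul, ← map_zero nu, ← h7, map_sum]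
      refine Finset.sum_congr rfl fun i _ => ?_
      rw [map_mul, map_mul, j0, ← hm, ← I.U_nu, ← I.U_nu, ← hn, map_mul]
      simp only [mul_assoc]
    rw [(nu_unit ht).mul_left_eq_zero, (nu_unit ((I.N_SS σ).2 hσ)).mul_right_eq_zero] at h9
    rw [h9, map_zero]
  refine absurd (funext fun i => j.injective ?_) hr
  rw [hind _ (fun i => ?_) h8 i, Pi.zero_apply, map_zero]
  exact fld_le (s := Sys.mk C D ι) (A := ⊤) (L := (s.fld C).comap j)
    (fun c => Subfield.mem_comap.2 (j1 c ▸ alg_mem C c))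
    (fun g _ => Subfield.mem_comap.2 (j2 g ▸ ι_mem g.2)) (hg (r i))

end Pool.Agent.P.MP_0f25e6_al.VT
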