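import Pool.Agent.P.MP_0f25e6_al.VT.AnSpec

/-!
Existence of the division closure.
-/

set_option autoImplicit false

open scoped InnerProductSpace ENNReal
open MulAction

noncomputable section

namespace Pool.Agent.P.MP_0f25e6_al.VT

universe u

open HN HR Sys

namespace AnEx

variable (G : Type u) [Group G]

/-- Subrings that contain the group algebra and are closed under inverses. -/
def Good (M : Subring (UU G)) : Prop :=
  (∀ c, sc c ∈ M) ∧ (∀ g, nu (rho g) ∈ M) ∧ ∀ x ∈ M, ∀ y, x * y = 1 → y * x = 1 → y ∈ M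

/-- The division closure of the group algebra. -/
def DC : Subring (UU G) := sInf {M | Good G M}

theorem good_DC : Good G (DC G) :=
  ⟨fun c => Subring.mem_sInf.2 fun _ h => h.1 c, fun g => Subring.mem_sInf.2 fun _ h => h.2.1 g,
    fun x hx y h1 h2 => Subring.mem_sInf.2 fun M h =>
      h.2.2 x (Subring.mem_sInf.1 hx M h) y h1 h2⟩

variable {G}

theorem DC_le {M : Subring (UU G)} (h : Good G M) : DC G ≤ M := sInf_le h

theorem qr_sc (h1 : S_QR.{u}) (c : ℂ) : QR (sc c : UU G) := by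
  refine (h1 G).1 _ ?_
  rw [Algebra.algebraMap_eq_smul_one]
  exact FinCols.smul (T := 1) (fun _ ha => ha) c

theorem qr_of_mem (h1 : S_QR.{u}) {a : UU G} (ha : a ∈ DC G) : QR a := by
  let M : Subring (UU G) :=
    { carrier := {a | QR a}
      mul_mem' := fun ha hb => (h1 G).2.2.1 _ _ ha hb
      add_mem' := fun ha hb => (h1 G).2.1 _ _ ha hb
      one_mem' := by simpa using qr_sc (G := G) h1 1
      zero_mem' := by simpa using qr_sc (G := G) h1 0
      neg_mem' := fun {a} ha => by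
        simpa using (h1 G).2.2.1 _ _ (qr_sc (G := G) h1 (-1)) ha }
  exact DC_le (M := M) ⟨qr_sc h1, fun g => (h1 G).1 _ (finCols_rho g),
    fun x hx y h2 h3 => (h1 G).2.2.2 x y h2 h3 hx⟩ ha

theorem unit_or_zero (h1 : S_QR.{u}) (h2 : S_UNIT.{u}) (hG : SAC G) (a : DC G) :
    IsUnit a ∨ a = 0 := by
  refine or_iff_not_imp_right.2 fun h0 => ?_
  obtain ⟨v, hv⟩ := h2 G hG a.1 (qr_of_mem h1 a.2) fun h => h0 (Subtype.ext h)
  have e1 : a.1 * (v⁻¹ : (UU G)ˣ) = 1 := by rw [← hv, Units.mul_inv]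
  have e2 : (v⁻¹ : (UU G)ˣ) * a.1 = 1 := by rw [← hv, Units.inv_mul]
  exact ⟨⟨a, ⟨_, (good_DC G).2.2 _ a.2 _ e1 e2⟩, Subtype.ext e1, Subtype.ext e2⟩, rfl⟩

end AnEx

open AnEx in
theorem p_ex (h1 : S_QR.{u}) (h2 : S_UNIT.{u}) : S_EX.{u} := by
  intro G _ hG
  let dv : DivisionRing (DC G) := DivisionRing.ofIsUnitOrEqZero (unit_or_zero h1 h2 hG)
  let φ : DC G →+* UU G := (DC G).subtype
  let al : Algebra ℂ (DC G) := RingHom.toAlgebra' (sc.codRestrict (DC G) (good_DC G).1)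
    fun c x => Subtype.ext (sc_comm c x.1)
  let ι : G →* DC G := (nu.toMonoidHom.comp rho).codRestrict (DC G) (good_DC G).2.1
  refine ⟨DC G, dv, al, ι, fun d => ?_, ⟨⟨φ, fun _ => rfl, fun _ => rfl⟩⟩⟩
  let L := (Sys.mk G (DC G) ι).fld ⊤
  have hg : Good G (φ.comp L.subtype).range :=
    ⟨fun c => ⟨⟨_, alg_mem (s := Sys.mk G (DC G) ι) ⊤ c⟩, rfl⟩,
      fun g => ⟨⟨_, ι_mem (s := Sys.mk G (DC G) ι) (Subgroup.mem_top g)⟩, rfl⟩,
      inv_mem_range _⟩
  obtain ⟨x, hx⟩ := DC_le hg d.2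
  have : x.1 = d := Subtype.ext hx
  rw [← this]
  exact x.2

end Pool.Agent.P.MP_0f25e6_al.VT
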