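import Pool.Agent.P.MP_0f25e6_al.VT.AnSpec

/-!
The crossed product of the skew field of a normal subgroup, inside the affiliated operators.
-/

set_option autoImplicit false

open scoped InnerProductSpace ENNReal
open MulAction

noncomputable section

namespace Pool.Agent.P.MP_0f25e6_al.VT

universe u

open HN HR Sys

namespace AnGS

/-- The group inside the affiliated operators. -/
def io (G : Type u) [Group G] : G →* UU G := (nu : NN G →+* UU G).toMonoidHom.comp rho

theorem io_def {G : Type u} [Group G] (g : G) : io G g = nu (rho g) := rfl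

theorem io_mul_inv {G : Type u} [Group G] (g : G) : io G g * io G g⁻¹ = 1 := by
  rw [← map_mul, mul_inv_cancel, map_one]

theorem io_inv_mul {G : Type u} [Group G] (g : G) : io G g⁻¹ * io G g = 1 := by
  rw [← map_mul, inv_mul_cancel, map_one]

/-- Conjugation by a group element. -/
def cj {G : Type u} [Group G] (g : G) : UU G →+* UU G where
  toFun x := io G g * x * io G g⁻¹
  map_one' := by rw [mul_one, io_mul_inv]
  map_mul' x y := by
    rw [mul_assoc _ (io G g⁻¹), ← mul_assoc (io G g⁻¹), ← mul_assoc (io G g⁻¹), io_inv_mul, one_mul]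
    simp only [mul_assoc]
  map_zero' := by rw [mul_zero, zero_mul]
  map_add' x y := by rw [mul_add, add_mul]

theorem cj_def {G : Type u} [Group G] (g : G) (x : UU G) : cj g x = io G g * x * io G g⁻¹ := rfl

theorem cj_sc {G : Type u} [Group G] (g : G) (c : ℂ) : cj g (sc c) = sc c := by
  rw [cj_def, ← sc_comm, mul_assoc, io_mul_inv, mul_one]

theorem cj_io {G : Type u} [Group G] (g h : G) : cj g (io G h) = io G (g * h * g⁻¹) := by
  rw [cj_def, map_mul, map_mul]

theorem cj_mul {G : Type u} [Group G] (g h : G) (x : UU G) : cj (g * h) x = cj g (cj h x) := by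
  rw [cj_def, cj_def, cj_def, mul_inv_rev, map_mul, map_mul]
  simp only [mul_assoc]

theorem cj_one {G : Type u} [Group G] (x : UU G) : cj 1 x = x := by
  rw [cj_def, inv_one, map_one, mul_one, one_mul]

section

variable {s : Sys.{u}} (R : Rz s) {G : Type u} [Group G] {inc : s.Γ →* G}
  {hinc : Function.Injective inc} (I : Ind inc hinc)

/-- The skew field inside the affiliated operators of the big group. -/
def jj : s.D →+* UU G := I.U.comp R.φ

theorem jj_def (d : s.D) : jj R I d = I.U (R.φ d) := rfl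

theorem jj_alg (c : ℂ) : jj R I (algebraMap ℂ s.D c) = sc c := by
  rw [jj_def, R.φ_alg, I.U_sc]

theorem jj_io (h : s.Γ) : jj R I (s.ι h) = io G (inc h) := by
  rw [jj_def, R.φ_ι, I.U_rho, io_def]

theorem cj_mem (hs : s.Gen) (hn : inc.range.Normal) (g : G) (d : s.D) :
    cj g (jj R I d) ∈ (jj R I).range := by
  refine map_fld_mem ((cj g).comp (jj R I)) (jj R I).range (fun c => ⟨algebraMap ℂ s.D c, ?_⟩)
    (fun a _ => ?_) (inv_mem_range _) (hs d)
  · rw [RingHom.comp_apply, jj_alg, cj_sc]
  · obtain ⟨b, hb⟩ := hn.conj_mem (inc a) ⟨a, rfl⟩ g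
    exact ⟨s.ι b, by rw [RingHom.comp_apply, jj_io, jj_io, cj_io, hb]⟩

theorem exists_alpha (hs : s.Gen) (hn : inc.range.Normal) :
    ∃ α : G →* RingAut s.D, ∀ g d, jj R I (α g d) = cj g (jj R I d) := by
  choose a ha using cj_mem R I hs hn
  have hi := (jj R I).injective
  have h1 : ∀ d, a 1 d = d := fun d => hi (by rw [ha, cj_one])
  have h2 : ∀ g h d, a (g * h) d = a g (a h d) := fun g h d => hi (by rw [ha, ha, ha, cj_mul])
  let β : G → RingAut s.D := fun g =>
    { toFun := a g
      invFun := a g⁻¹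
      left_inv := fun d => by rw [← h2, inv_mul_cancel, h1]
      right_inv := fun d => by rw [← h2, mul_inv_cancel, h1]
      map_mul' := fun x y => hi (by simp only [ha, map_mul])
      map_add' := fun x y => hi (by simp only [ha, map_add]) }
  exact ⟨⟨⟨β, RingEquiv.ext h1⟩, fun g h => RingEquiv.ext (h2 g h)⟩, ha⟩

theorem indep (n : ℕ) (d : Fin n → s.D) (g : Fin n → G)
    (hg : ∀ a b, g a * (g b)⁻¹ ∈ inc.range → a = b)
    (h : ∑ a, jj R I (d a) * io G (g a) = 0) (b : Fin n) : d b = 0 := by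
  obtain ⟨t, ht, m, hm⟩ := I.left (a := fun a => jj R I (d a)) fun a => ⟨_, rfl⟩
  have h1 : ∑ a, I.N (m a) * rho (g a) = 0 := by
    refine nu_inj ?_
    rw [map_zero, map_sum, ← mul_zero (nu (I.N t)), ← h, Finset.mul_sum]
    exact Finset.sum_congr rfl fun a _ => by rw [map_mul, ← mul_assoc, hm, io_def]
  have h2 : ∑ a, (I.N (m a)).1 ((rho (g a)).1 (delta (g b))) = 0 := by
    have h3 := congrArg (fun T : NN G => T.1 (delta (g b))) h1
    simp only [AddSubmonoidClass.coe_finsetSum, sum_apply] at h3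
    exact h3
  have h4 := congrArg (pull inc hinc) h2
  rw [map_zero, map_sum, Finset.sum_eq_single b] at h4
  · rw [I.pull_N, rho_delta, mul_inv_cancel, ← map_one inc, pull_delta_self] at h4
    have h5 := hm b
    rw [NN.eq_zero h4, map_zero, map_zero,
      (nu_unit ((I.N_SS t).2 ht)).mul_right_eq_zero] at h5
    exact (map_eq_zero_iff _ (jj R I).injective).1 h5
  · intro a _ hab
    rw [I.pull_N, rho_delta, pull_delta_not _ _ fun y hy => hab (hg b a ⟨y, hy⟩).symm, map_zero]
  · intro hb
    exact absurd (Finset.mem_univ b) hb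

theorem nz (h1 : S_IND.{u}) (h2 : S_EX.{u}) (B : Subgroup G) (hB : SAC B) (x : UU G)
    (hx : x ∈ AddSubgroup.closure
      {y | ∃ d ∈ s.fld (B.comap inc), ∃ b ∈ B, y = jj R I d * io G b}) (h0 : x ≠ 0) :
    IsUnit x := by
  obtain ⟨D, _, _, ι, -, ⟨R'⟩⟩ := h2 B hB
  obtain ⟨I'⟩ := h1 B G B.subtype B.subtype_injective
  have h3 : ∀ b ∈ B, io G b ∈ (jj R' I').range := fun b hb => ⟨_, jj_io R' I' ⟨b, hb⟩⟩
  have h4 : x ∈ (jj R' I').range.toAddSubgroup := by
    refine (AddSubgroup.closure_le _).2 ?_ hx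
    rintro _ ⟨d, hd, b, hb, rfl⟩
    refine mul_mem (S := Subring (UU G)) ?_ (h3 b hb)
    refine map_fld_mem (jj R I) (jj R' I').range
      (fun c => ⟨_, (jj_alg R' I' c).trans (jj_alg R I c).symm⟩) (fun a ha => ?_)
      (inv_mem_range _) hd
    rw [jj_io]
    exact h3 _ ha
  obtain ⟨y, rfl⟩ := h4
  have hy : y ≠ 0 := by
    rintro rfl
    exact h0 (map_zero _)
  exact (IsUnit.mk0 y hy).map _

end

end AnGS

theorem p_gs (h1 : S_IND.{u}) (h2 : S_EX.{u}) : S_GS.{u} := by
  intro s R G _ inc hinc I hs hn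
  obtain ⟨α, hα⟩ := AnGS.exists_alpha R I hs hn
  have hi := (AnGS.jj R I).injective
  refine ⟨{ R := UU G
            jR := AnGS.jj R I
            ιG := AnGS.io G
            α := α
            jι := AnGS.jj_io R I
            conj := fun g d => ?_
            α_alg := fun g c => hi ?_
            α_ι := fun g h h' e => hi ?_
            indep := AnGS.indep R I }, RingHom.id _, fun _ => rfl, fun _ => rfl,
    fun B hB => AnGS.nz R I h1 h2 B hB⟩
  · rw [hα, AnGS.cj_def, mul_assoc, AnGS.io_inv_mul, mul_one]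
  · rw [hα, AnGS.jj_alg, AnGS.cj_sc]
  · rw [hα, AnGS.jj_io, AnGS.jj_io, AnGS.cj_io, e]

end Pool.Agent.P.MP_0f25e6_al.VT
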