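import Pool.Agent.P.MP_0f25e6_al.VT.AnSpec

/-!
The joint graph of a tuple of affiliated operators is the closure of the range of the stacked
numerators of a common right fraction.
-/

set_option autoImplicit false

open scoped InnerProductSpace ENNReal
open MulAction

noncomputable section

namespace Pool.Agent.P.MP_0f25e6_al.VT

universe u

open HN HR Sys

namespace AnGraph

variable {G : Type u} [Group G] {J : Type} [Fintype J]

/-- A joint graph is closed and invariant. -/
theorem cls_inv_Jg (a : J → UU G) (j₀ : J) : Cls (Jg a j₀) ∧ Inv G (Jg a j₀) := by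
  obtain ⟨s, hs, n, h⟩ := exists_left a
  have e : Jg a j₀ = ⨅ j, pre ((n j).1 ∘L co j₀ - s.1 ∘L co j) ⊥ := by
    ext F
    rw [mem_Jg, Submodule.mem_iInf]
    refine forall_congr' fun j => ?_
    rw [smul_vec_eq_iff hs (h j), mem_ker_sub]
    rfl
  rw [e]
  exact ⟨cls_iInf fun _ => cls_bot.pre _, inv_iInf fun j => inv_bot.pre
    (((NN.eqv (n j)).comp (eqv_co j₀)).sub ((NN.eqv s).comp (eqv_co j)))⟩

/-- A joint graph has dimension at most one. -/
theorem edim_Jg_le (a : J → UU G) (j₀ : J) : edim G (Jg a j₀) ≤ 1 := by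
  obtain ⟨hc, hi⟩ := cls_inv_Jg a j₀
  have h1 : Jg a j₀ ⊓ pre (co j₀) ⊥ = ⊥ := by
    refine eq_bot_iff.2 fun F hF => ?_
    have h0 : co j₀ F = 0 := hF.2
    refine (Submodule.mem_bot ℂ).2 (ext_co fun j => ?_)
    have h2 := mem_Jg.1 hF.1 j
    rw [h0, map_zero, smul_zero] at h2
    rw [map_zero]
    exact vec_eq_zero.1 h2.symm
  rw [rank_nullity (free_tw free_self) free_self (eqv_co j₀) hc hi, h1, edim_bot, zero_add,
    ← edim_top_self (G := G)]
  exact edim_mono le_top

end AnGraph

theorem p_graph : S_GRAPH.{u} := by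
  intro G _ J _ a j₀ t m h0 ht hm
  have hj : m j₀ = t := nu_inj (by rw [← hm, h0, one_mul])
  obtain ⟨hc, hi⟩ := AnGraph.cls_inv_Jg a j₀
  have hS : Eqv G (stack fun j => (m j).1) := eqv_stack fun j => NN.eqv (m j)
  have hinj : ∀ f, stack (fun j => (m j).1) f = 0 → f = 0 := fun f hf => by
    have h1 := co_stack (fun j => (m j).1) f j₀
    rw [hf, map_zero, hj] at h1
    exact ht f h1.symm
  have hd : edim G (cl (img (stack fun j => (m j).1) ⊤)) = 1 := by
    rw [edim_cl, edim_img_of_inj free_self (free_tw free_self) hS hinj cls_top inv_top,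
      edim_top_self]
  refine (eq_of_edim_le (H := G) (cls_cl _) hc (inv_top.img hS).cl hi
    (cl_img_le hc fun ξ _ => mem_Jg.2 fun j => ?_) ?_ ?_).symm
  · rw [co_stack, co_stack, hj, ← nu_smul_vec, smul_smul, hm, nu_smul_vec]
  · rw [hd]
    exact ENNReal.one_ne_top
  · rw [hd]
    exact AnGraph.edim_Jg_le a j₀

end Pool.Agent.P.MP_0f25e6_al.VT
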