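import Pool.Agent.P.MP_0f25e6_al.VT.AnSpec

/-!
Injectivity of the boundary map on one orbit of edges.
-/

set_option autoImplicit false

open scoped InnerProductSpace ENNReal
open MulAction

noncomputable section

namespace Pool.Agent.P.MP_0f25e6_al.VT

universe u

open HN HR Sys

namespace AnHalf

variable {G : Type u} [Group G]

open Classical in
/-- The value of an affiliated operator at a vector of its domain. -/
def pv (a : UU G) (η : L2 G) : L2 G := if h : ∃ y, a • vec η = vec y then h.choose else 0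

theorem pv_mul {a : UU G} {t m : NN G} (h : a * nu t = nu m) (η : L2 G) :
    pv a (t.1 η) = m.1 η := by
  have h1 : a • vec (t.1 η) = vec (m.1 η) := by rw [← nu_smul_vec, smul_smul, h, nu_smul_vec]
  have h2 : ∃ y, a • vec (t.1 η) = vec y := ⟨_, h1⟩
  rw [pv, dif_pos h2]
  exact vec_inj (h2.choose_spec.symm.trans h1)

variable (G) in
/-- Functions that vanish on the range of an injective operator. -/
def Null : AddSubgroup (L2 G → MM G) where
  carrier := {F | ∃ t ∈ SS G, ∀ η, F (t.1 η) = 0}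
  zero_mem' := ⟨1, one_mem _, fun _ => rfl⟩
  neg_mem' := fun ⟨t, ht, h⟩ => ⟨t, ht, fun η => by rw [Pi.neg_apply, h, neg_zero]⟩
  add_mem' := fun {F F'} ⟨t, ht, h⟩ ⟨t', ht', h'⟩ => by
    obtain ⟨r, hr, r', e⟩ := right_ore t ht'
    refine ⟨t * r, mul_mem ht hr, fun η => ?_⟩
    have h1 : F ((t * r).1 η) = 0 := h (r.1 η)
    have h2 : F' ((t * r).1 η) = 0 := e ▸ h' (r'.1 η)
    rw [Pi.add_apply, h1, h2, add_zero]

/-- The germ of the product of `d`, `P` and `x`. -/
def cls (P : L2 G →L[ℂ] L2 G) (d x : UU G) : (L2 G → MM G) ⧸ Null G :=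
  QuotientAddGroup.mk' (Null G) fun η => d • vec (P (pv x η))

theorem mk_eq {F F' : L2 G → MM G} {t : NN G} (ht : t ∈ SS G) (h : ∀ η, F (t.1 η) = F' (t.1 η)) :
    QuotientAddGroup.mk' (Null G) F = QuotientAddGroup.mk' (Null G) F' :=
  QuotientAddGroup.eq_iff_sub_mem.2 ⟨t, ht, fun η => by rw [Pi.sub_apply, h, sub_self]⟩

theorem cls_add_left (P : L2 G →L[ℂ] L2 G) (d d' x : UU G) :
    cls P (d + d') x = cls P d x + cls P d' x := by
  rw [cls, cls, cls, ← map_add]
  exact congrArg _ (funext fun η => add_smul _ _ _)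

theorem cls_add_right (P : L2 G →L[ℂ] L2 G) (d x x' : UU G) :
    cls P d (x + x') = cls P d x + cls P d x' := by
  obtain ⟨t, ht, m, h⟩ := exists_right ![x, x']
  have h0 : x * nu t = nu (m 0) := h 0
  have h1 : x' * nu t = nu (m 1) := h 1
  have h2 : (x + x') * nu t = nu (m 0 + m 1) := by rw [add_mul, h0, h1, map_add]
  rw [cls, cls, cls, ← map_add]
  refine mk_eq ht fun η => ?_
  rw [Pi.add_apply, pv_mul h0, pv_mul h1, pv_mul h2, ← smul_add, ← map_add, ← map_add]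
  rfl

theorem cls_mul {P P' : L2 G →L[ℂ] L2 G} {s n : NN G} (hs : s ∈ SS G) {κ : UU G}
    (h : nu s * κ = nu n) (hP : ∀ f f', n.1 f = s.1 f' → n.1 (P f) = s.1 (P' f')) (d x : UU G) :
    cls P' d (κ * x) = cls P (d * κ) x := by
  obtain ⟨t, ht, m, hm⟩ := exists_right ![x, κ * x]
  have h0 : x * nu t = nu (m 0) := hm 0
  have h1 : κ * x * nu t = nu (m 1) := hm 1
  have h2 : n * m 0 = s * m 1 :=
    nu_inj (by rw [map_mul, map_mul, ← h, ← h0, ← h1, mul_assoc, mul_assoc])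
  refine mk_eq ht fun η => ?_
  have h3 : n.1 ((m 0).1 η) = s.1 ((m 1).1 η) := congrArg (fun T : NN G => T.1 η) h2
  rw [pv_mul h0, pv_mul h1, mul_smul, (smul_vec_eq_iff hs h _ _).2 (hP _ _ h3)]

variable {s : Sys.{u}} (R : Rz s) {Vt : Type u} [MulAction s.Γ Vt] (S : Set Vt)

/-- The restriction to the elements that move `v` into `S`. -/
def PP (v : Vt) : L2 s.Γ →L[ℂ] L2 s.Γ := res {y : s.Γ | y • v ∈ S}

theorem PP_pos {v : Vt} {y : s.Γ} (f : L2 s.Γ) (h : y • v ∈ S) : PP S v f y = f y :=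
  res_apply_of_mem f h

theorem PP_neg {v : Vt} {y : s.Γ} (f : L2 s.Γ) (h : y • v ∉ S) : PP S v f y = 0 :=
  res_apply_of_notMem f h

/-- The biadditive map. -/
def β (v : Vt) : s.D →+ s.D →+ (L2 s.Γ → MM s.Γ) ⧸ Null s.Γ :=
  AddMonoidHom.mk' (fun d => AddMonoidHom.mk' (fun x => cls (PP S v) (R.φ d) (R.φ x))
    fun x x' => by rw [map_add, cls_add_right]) fun d d' => AddMonoidHom.ext fun x => by
      change cls _ _ _ = cls _ _ _ + cls _ _ _
      rw [map_add, cls_add_left]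

theorem β_apply (v : Vt) (d x : s.D) : β R S v d x = cls (PP S v) (R.φ d) (R.φ x) := rfl

theorem β_stab (h : S_IND.{u}) (v : Vt) (d κ x : s.D) (hκ : κ ∈ s.fld (stabilizer s.Γ v)) :
    β R S v d (κ • x) = β R S v (d * κ) x := by
  obtain ⟨I⟩ := h _ _ (stabilizer s.Γ v).subtype (Subgroup.subtype_injective _)
  obtain ⟨a, ha, n, hn⟩ := I.left (a := fun _ : Unit => R.φ κ) fun _ => R.frac I hκ
  have hc : ∀ T f, PP S v ((I.N T).1 f) = (I.N T).1 (PP S v f) := fun T f =>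
    I.res_N T _ (fun x c => by
      rw [Set.mem_ofPred_eq, Set.mem_ofPred_eq, mul_smul, Subgroup.subtype_apply,
        mem_stabilizer_iff.1 c.2]) f
  rw [β_apply, β_apply, smul_eq_mul, map_mul, map_mul]
  exact cls_mul ((I.N_SS a).2 ha) (hn ()) (fun f f' e => by rw [← hc, ← hc, e]) _ _

theorem β_act (g : s.Γ) (v : Vt) (d x : s.D) :
    β R S (g • v) d (s.ι g • x) = β R S v (d * s.ι g) x := by
  rw [β_apply, β_apply, smul_eq_mul, map_mul, map_mul, R.φ_ι]
  refine cls_mul (n := rho g) (one_mem _) (by rw [map_one, one_mul]) (fun f f' e => ?_) _ _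
  have e' : f' = (rho g).1 f := e.symm
  subst e'
  refine lp.ext (funext fun y => ?_)
  change PP S v f (y * g) = PP S (g • v) ((rho g).1 f) y
  by_cases hy : y • g • v ∈ S
  · rw [PP_pos S _ hy, PP_pos S _ ((mul_smul y g v).symm ▸ hy), rho_apply]
  · rw [PP_neg S _ hy, PP_neg S _ ((mul_smul y g v).symm ▸ hy)]

end AnHalf

open AnHalf in
theorem p_half (h : S_IND.{u}) : S_HALF.{u} := by
  intro s R hD Vt E _ _ Tr e₀ n d x ζ hx hζ hbd
  obtain ⟨S, h1, h2, h3⟩ := Tr.cut e₀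
  let Λ := (liftA (β R S) (β_stab R S h) (β_act R S)).comp (bd s.D Tr).toAddMonoidHom
  have hΛ : ∀ (a : s.D) (e : E) (v : s.D), Λ (a • s.t e v) =
      cls (PP S (Tr.t e)) (R.φ a) (R.φ v) - cls (PP S (Tr.o e)) (R.φ a) (R.φ v) := fun a e v => by
    change liftA (β R S) (β_stab R S h) (β_act R S) (bd s.D Tr _) = _
    rw [map_smul, bd_t, smul_sub, map_sub, liftA_t, liftA_t, β_apply, β_apply]
  have h4 : Λ ζ = 0 := by
    refine (AddSubgroup.closure_le Λ.ker).2 ?_ hζ
    rintro _ ⟨a, e, v, he, rfl⟩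
    have e1 : {y : s.Γ | y • Tr.t e ∈ S} = {y : s.Γ | y • Tr.o e ∈ S} := Set.ext fun y => by
      rw [Set.mem_ofPred_eq, Set.mem_ofPred_eq, ← Tr.t_smul, ← Tr.o_smul]
      exact (h3 _ fun h => he y⁻¹ (by rw [← h, inv_smul_smul])).symm
    change Λ _ = 0
    rw [hΛ, PP, PP, e1, sub_self]
  have h5 : Λ (∑ j, d j • s.t e₀ (x j) + ζ) = 0 := by
    change liftA (β R S) (β_stab R S h) (β_act R S) (bd s.D Tr _) = _
    rw [hbd, map_zero]
  have h6 : ∀ f, PP S (Tr.t e₀) f - PP S (Tr.o e₀) f =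
      HN.push _ (stabilizer s.Γ e₀).subtype_injective
        (pull _ (stabilizer s.Γ e₀).subtype_injective f) := fun f => by
    rw [push_pull]
    refine lp.ext (funext fun y => ?_)
    change PP S (Tr.t e₀) f y - PP S (Tr.o e₀) f y = _
    by_cases hy : y • e₀ = e₀
    · have h7 : y ∈ Set.range (stabilizer s.Γ e₀).subtype := ⟨⟨y, hy⟩, rfl⟩
      rw [PP_pos S f (by rwa [← Tr.t_smul, hy]), PP_neg S f (by rwa [← Tr.o_smul, hy]),
        res_apply_of_mem f h7, sub_zero]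
    · have h7 : y ∉ Set.range (stabilizer s.Γ e₀).subtype := fun ⟨c, hc⟩ => hy (hc ▸ c.2)
      have h8 := h3 _ hy
      rw [Tr.o_smul, Tr.t_smul] at h8
      rw [res_apply_of_notMem f h7]
      by_cases h9 : y • Tr.t e₀ ∈ S
      · rw [PP_pos S f h9, PP_pos S f (h8.2 h9), sub_self]
      · rw [PP_neg S f h9, PP_neg S f (mt h8.1 h9), sub_self]
  rw [map_add, h4, add_zero, map_sum] at h5
  simp only [hΛ, cls, ← map_sub] at h5
  rw [← map_sum] at h5
  obtain ⟨t₀, ht₀, h7⟩ := (QuotientAddGroup.eq_zero_iff _).1 h5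
  obtain ⟨t₁, ht₁, m, hm⟩ := exists_right fun j => R.φ (x j) * nu t₀
  have hm' : ∀ j, R.φ (x j) * nu (t₀ * t₁) = nu (m j) := fun j => by
    rw [map_mul, ← mul_assoc, hm]
  obtain ⟨a, ha, c, hc⟩ := exists_left fun j => R.φ (d j)
  have h8 := hD (stabilizer s.Γ e₀) (Fin n) x (t₀ * t₁) m (mul_mem ht₀ ht₁) hm' hx s.Γ
    (fun j => (c j).1 ∘L HN.push _ (stabilizer s.Γ e₀).subtype_injective) fun ξ => by
      have h9 := h7 (t₁.1 ξ)
      have h10 : ∀ j, pv (R.φ (x j)) (t₀.1 (t₁.1 ξ)) = (m j).1 ξ := fun j => pv_mul (hm' j) ξ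
      simp only [Finset.sum_apply, Pi.sub_apply, h10, ← smul_sub, ← map_sub, h6] at h9
      rw [← map_zero vec, sum_smul_vec_eq_iff ha hc, map_zero] at h9
      exact h9
  intro j
  have h9 : c j = 0 := NN.eq_zero (by
    have := congrArg (fun L => L (delta 1)) (h8 j)
    simp only [ContinuousLinearMap.comp_apply, push_delta, map_one] at this
    exact this)
  have h10 := hc j
  rw [h9, map_zero, (nu_unit ha).mul_right_eq_zero] at h10
  exact (map_eq_zero R.φ).1 h10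

end Pool.Agent.P.MP_0f25e6_al.VT
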