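import Pool.Agent.P.MP_0f25e6_al.VT.AnSpec

/-!
Induction of equivariant operators along an embedding of groups.
-/

set_option autoImplicit false

open scoped InnerProductSpace ENNReal
open MulAction

noncomputable section

namespace Pool.Agent.P.MP_0f25e6_al.VT

universe u

open HN HR Sys

namespace AnInd

variable {A G : Type u} [Group A] [Group G] (e : A →* G) (he : Function.Injective e)

/-- The slice of a function along a left coset. -/
def sl (γ : G) : L2 G →L[ℂ] L2 A :=
  pull (fun a => γ * e a) fun _ _ h => he (mul_left_cancel h)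

@[simp] theorem sl_apply (γ : G) (f : L2 G) (a : A) : sl e he γ f a = f (γ * e a) := rfl

theorem sl_one (f : L2 G) : sl e he 1 f = pull e he f := by
  ext a
  rw [sl_apply, one_mul, pull_apply]

theorem sl_mul (γ : G) (a : A) (f : L2 G) : sl e he (γ * e a) f = act a⁻¹ (sl e he γ f) := by
  ext b
  rw [act_apply, inv_inv, sl_apply, sl_apply, smul_eq_mul, map_mul, mul_assoc]

theorem sl_act (γ h : G) (f : L2 G) : sl e he γ (act h f) = sl e he (h⁻¹ * γ) f := by
  ext b
  rw [sl_apply, sl_apply, act_apply, smul_eq_mul, mul_assoc]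

include he in
theorem tsum_split (g : G → ℝ≥0∞) :
    ∑' x, g x = ∑' q : G ⧸ e.range, ∑' a : A, g (q.out * e a) := by
  have h1 := (Equiv.ofBijective _ (coset_bij e he)).tsum_eq fun x => g x⁻¹
  rw [← (Equiv.inv G).tsum_eq g]
  refine h1.symm.trans ?_
  rw [ENNReal.tsum_prod']
  refine tsum_congr fun q => ?_
  rw [← (Equiv.inv A).tsum_eq fun a => g (q.out * e a)]
  refine tsum_congr fun a => ?_
  simp

/-- The values of the induced operator. -/
def nf (T : NN A) (f : L2 G) (γ : G) : ℂ := T.1 (sl e he γ f) 1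

theorem nf_mul (T : NN A) (f : L2 G) (γ : G) (a : A) :
    nf e he T f (γ * e a) = T.1 (sl e he γ f) a := by
  rw [nf, sl_mul, NN.eqv T, act_apply, inv_inv, smul_eq_mul, mul_one]

theorem nf_bound (T : NN A) (f : L2 G) :
    ∑' γ, ‖nf e he T f γ‖ₑ ^ 2 ≤ ‖T.1‖ₑ ^ 2 * ‖f‖ₑ ^ 2 := by
  rw [tsum_split e he, enorm_sq_eq f, tsum_split e he, ← ENNReal.tsum_mul_left]
  refine ENNReal.tsum_le_tsum fun q => ?_
  simp only [nf_mul]
  rw [← enorm_sq_eq]
  refine le_trans ?_ (le_of_eq (congrArg _ (enorm_sq_eq (sl e he q.out f))))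
  rw [← mul_pow]
  gcongr
  exact T.1.le_opENorm _

theorem nf_mem (T : NN A) (f : L2 G) : Memℓp (nf e he T f) 2 := by
  rw [memℓp_two_iff]
  have h1 : ∑' y, ‖nf e he T f y‖ₑ ^ 2 ≠ ⊤ :=
    ne_top_of_le_ne_top (by finiteness) (nf_bound e he T f)
  simpa using ENNReal.summable_toReal h1

/-- The induced operator as a linear map. -/
def nl (T : NN A) : L2 G →ₗ[ℂ] L2 G where
  toFun f := ⟨nf e he T f, nf_mem e he T f⟩
  map_add' f g := lp.ext (funext fun γ => by
    change T.1 (sl e he γ (f + g)) 1 = T.1 (sl e he γ f) 1 + T.1 (sl e he γ g) 1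
    rw [map_add, map_add]
    rfl)
  map_smul' c f := lp.ext (funext fun γ => by
    change T.1 (sl e he γ (c • f)) 1 = c • T.1 (sl e he γ f) 1
    rw [map_smul, map_smul]
    rfl)

/-- The induced operator. -/
def nc (T : NN A) : L2 G →L[ℂ] L2 G :=
  (nl e he T).mkContinuous ‖T.1‖ fun f => by
    have h1 : ‖nl e he T f‖ₑ ^ 2 ≤ ‖T.1‖ₑ ^ 2 * ‖f‖ₑ ^ 2 := by
      rw [enorm_sq_eq]
      exact nf_bound e he T f
    have h2 := ENNReal.toReal_mono (by finiteness) h1
    simp only [ENNReal.toReal_pow, toReal_enorm, ENNReal.toReal_mul] at h2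
    refine (pow_le_pow_iff_left₀ (norm_nonneg _) (by positivity) two_ne_zero).1 ?_
    rwa [mul_pow]

theorem nc_apply (T : NN A) (f : L2 G) (γ : G) : nc e he T f γ = T.1 (sl e he γ f) 1 := rfl

theorem sl_nc (T : NN A) (f : L2 G) (γ : G) : sl e he γ (nc e he T f) = T.1 (sl e he γ f) :=
  lp.ext (funext fun a => nf_mul e he T f γ a)

theorem eqv_nc (T : NN A) : Eqv G (nc e he T) := fun h f => lp.ext (funext fun γ => by
  change nc e he T (act h f) γ = act h (nc e he T f) γ
  rw [act_apply, nc_apply, nc_apply, sl_act, smul_eq_mul])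

theorem ext_nn {S T : NN G} (h : ∀ f γ, S.1 f γ = T.1 f γ) : S = T :=
  Subtype.ext (ContinuousLinearMap.ext fun f => lp.ext (funext fun γ => h f γ))

/-- Induction of bounded operators. -/
def N : NN A →+* NN G where
  toFun T := ⟨nc e he T, eqv_nc e he T⟩
  map_one' := ext_nn fun f γ => by
    change f (γ * e 1) = f γ
    rw [map_one, mul_one]
  map_mul' S T := ext_nn fun f γ => by
    change S.1 (T.1 (sl e he γ f)) 1 = S.1 (sl e he γ (nc e he T f)) 1
    rw [sl_nc]
  map_zero' := ext_nn fun _ _ => rfl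
  map_add' _ _ := ext_nn fun _ _ => rfl

theorem N_val (T : NN A) : (N e he T).1 = nc e he T := rfl

theorem N_SS (T : NN A) : N e he T ∈ SS G ↔ T ∈ SS A := by
  refine ⟨fun h x hx => ?_, fun h f hf => ?_⟩
  · have h1 : push e he x = 0 := h _ (lp.ext (funext fun γ => by
      change nc e he T (push e he x) γ = 0
      by_cases hγ : ∃ a, e a = γ
      · obtain ⟨a, rfl⟩ := hγ
        have h2 := nf_mul e he T (push e he x) 1 a
        rw [one_mul, sl_one, pull_push, hx] at h2
        exact h2
      · have h2 : sl e he γ (push e he x) = 0 := lp.ext (funext fun a => by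
          change push e he x (γ * e a) = 0
          refine push_apply_not e he x fun b hb => hγ ⟨b * a⁻¹, ?_⟩
          rw [map_mul, map_inv, hb, mul_inv_cancel_right])
        rw [nc_apply, h2, map_zero]
        rfl))
    rw [← pull_push e he x, h1, map_zero]
  · refine lp.ext (funext fun γ => ?_)
    have h1 : sl e he γ f = 0 := h _ (by
      rw [← sl_nc, show nc e he T f = 0 from hf, map_zero])
    have h2 : f (γ * e 1) = 0 := congrArg (fun x : L2 A => x 1) h1
    rwa [map_one, mul_one] at h2

theorem res_N (T : NN A) (Y : Set G) (hY : ∀ x a, x * e a ∈ Y ↔ x ∈ Y) (f : L2 G) :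
    res Y (nc e he T f) = nc e he T (res Y f) := by
  refine lp.ext (funext fun γ => ?_)
  change res Y (nc e he T f) γ = nc e he T (res Y f) γ
  by_cases h : γ ∈ Y
  · have h1 : sl e he γ (res Y f) = sl e he γ f := lp.ext (funext fun a =>
      res_apply_of_mem f ((hY γ a).2 h))
    rw [res_apply_of_mem _ h, nc_apply, nc_apply, h1]
  · have h1 : sl e he γ (res Y f) = 0 := lp.ext (funext fun a =>
      res_apply_of_notMem f fun h' => h ((hY γ a).1 h'))
    rw [res_apply_of_notMem _ h, nc_apply, h1, map_zero]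
    rfl

/-- The denominators go to units. -/
def un : SS A →* (UU G)ˣ where
  toFun s := (nu_unit ((N_SS e he s).2 s.2)).unit
  map_one' := Units.ext (by simp)
  map_mul' s t := Units.ext (by simp)

/-- Induction of affiliated operators. -/
def U : UU A →+* UU G :=
  OreLocalization.universalHom (S := SS A) (nu.comp (N e he)) (un e he) fun _ => rfl

/-- The induction data. -/
def ind : Ind e he where
  N := N e he
  U := U e he
  pull_N T f := by rw [← sl_one, ← sl_one, N_val, sl_nc]
  res_N := res_N e he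
  N_rho a := ext_nn fun f γ => by
    change f (γ * e (1 * a)) = f (γ * e a)
    rw [one_mul]
  N_alg c := ext_nn fun f γ => by
    rw [Algebra.algebraMap_eq_smul_one, Algebra.algebraMap_eq_smul_one]
    change c • f (γ * e 1) = c • f γ
    rw [map_one, mul_one]
  N_SS := N_SS e he
  U_nu T := OreLocalization.universalHom_commutes (S := SS A) (nu.comp (N e he)) (un e he)
    (fun _ => rfl) (r := T)

end AnInd

theorem p_ind : S_IND.{u} := fun _ _ _ _ e he => ⟨AnInd.ind e he⟩

end Pool.Agent.P.MP_0f25e6_al.VT
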