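import Pool.Agent.P.MP_0f25e6_al.VT.AnSpec

/-!
Joint graphs are rational, and nonzero operators with rational graph are units.
-/

set_option autoImplicit false

open scoped InnerProductSpace ENNReal
open MulAction

noncomputable section

namespace Pool.Agent.P.MP_0f25e6_al.VT

universe u

open HN HR Sys

namespace AnJU

variable {G : Type u} [Group G]

theorem rat_top {Z : Type*} [MulAction G Z] (hZ : Free G Z) (hc : Cofin G (Set.univ : Set Z)) :
    Rat G (⊤ : Submodule ℂ (L2 Z)) := by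
  rw [← supp_univ]
  exact rat_supp hZ (fun _ _ _ => Set.mem_univ _) hc

theorem rat_iInf {Z J : Type*} [MulAction G Z] [Fintype J] (hZ : Free G Z)
    (hc : Cofin G (Set.univ : Set Z)) {W : J → Submodule ℂ (L2 Z)} (h : ∀ j, Rat G (W j)) :
    Rat G (⨅ j, W j) := by
  classical
  have h1 : ∀ s : Finset J, Rat G (s.inf W) := fun s => by
    induction s using Finset.induction_on with
    | empty => rw [Finset.inf_empty]; exact rat_top hZ hc
    | insert j s _ ih => rw [Finset.inf_insert]; exact (h j).inf hZ ih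
  have h2 := h1 Finset.univ
  rwa [Finset.inf_univ_eq_iInf] at h2

theorem Jg_eq {J : Type} [Fintype J] (a : J → UU G) (j₀ : J) :
    Jg a j₀ = ⨅ j, pre (stack ![co j₀, co j]) (Jg ![1, a j] 0) := by
  ext F
  simp only [Submodule.mem_iInf, Submodule.mem_comap, mem_Jg, ContinuousLinearMap.coe_coe,
    co_stack, Fin.forall_fin_two, Matrix.cons_val_zero, Matrix.cons_val_one, one_smul, true_and]

theorem img_co (t m : NN G) :
    img (co (1 : Fin 2)) (img (stack fun j => ((![t, m] : Fin 2 → NN G) j).1) ⊤) = img m.1 ⊤ := by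
  ext x
  constructor
  · rintro ⟨_, ⟨y, -, rfl⟩, rfl⟩
    exact ⟨y, Submodule.mem_top,
      (co_stack (fun j => ((![t, m] : Fin 2 → NN G) j).1) y (1 : Fin 2)).symm⟩
  · rintro ⟨y, -, rfl⟩
    exact ⟨_, ⟨y, Submodule.mem_top, rfl⟩, co_stack _ y (1 : Fin 2)⟩

end AnJU

theorem p_joint (h : S_PRE.{u}) : S_JOINT.{u} := by
  intro G _ J _ a j₀ ha
  rw [AnJU.Jg_eq]
  refine AnJU.rat_iInf (free_tw free_self) (cofin_tw cofin_self) fun j =>
    h G _ _ (free_tw free_self) (free_tw free_self) (cofin_tw cofin_self) _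
      (eqv_stack ?_) (finCols_stack ?_) _ (ha j)
  · exact Fin.forall_fin_two.2 ⟨eqv_co _, eqv_co _⟩
  · exact Fin.forall_fin_two.2 ⟨finCols_co _, finCols_co _⟩

theorem p_unit (h : S_GRAPH.{u}) : S_UNIT.{u} := by
  intro G _ hG a ha h0
  obtain ⟨t, ht, m, hm⟩ := exists_right1 a
  have h1 := h G (Fin 2) ![1, a] 0 t ![t, m] rfl ht
    (Fin.forall_fin_two.2 ⟨one_mul _, hm⟩)
  have h2 := Rat.img ha (eqv_co (G := G) (1 : Fin 2)) (finCols_co _)
  rw [h1, cl_img_cl, AnJU.img_co] at h2
  obtain ⟨n, hn⟩ := h2.int hG free_self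
  obtain ⟨v, hv⟩ := nu_unit ht
  rcases Nat.eq_zero_or_pos n with rfl | hpos
  · have h3 := eq_bot_of_edim h2.inv (hn.trans Nat.cast_zero)
    have h4 : m = 0 := Subtype.ext (ContinuousLinearMap.ext fun x => by
      have h5 : m.1 x ∈ cl (img m.1 ⊤) := le_cl _ ⟨x, Submodule.mem_top, rfl⟩
      rwa [h3, Submodule.mem_bot] at h5)
    rw [h4, map_zero, ← hv, Units.mul_left_eq_zero] at hm
    exact absurd hm h0
  · have h3 : cl (img m.1 ⊤) = ⊤ :=
      eq_of_edim_le (H := G) h2.cls cls_top h2.inv inv_top le_top (h2.edim_ne_top free_self)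
        (by rw [edim_top_self, hn]; exact_mod_cast hpos)
    have h4 := nu_unit (inj_of_dense h3)
    rw [← hm, ← hv] at h4
    exact (Units.isUnit_mul_units a v).1 h4

end Pool.Agent.P.MP_0f25e6_al.VT
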