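import Pool.Agent.P.MP_0f25e6_al.VT.AnSpec

/-!
A proper rational subspace is killed by a nonzero row.
-/

set_option autoImplicit false

open scoped InnerProductSpace ENNReal
open MulAction

noncomputable section

namespace Pool.Agent.P.MP_0f25e6_al.VT

universe u

open HN HR Sys

namespace AnKill

variable {G : Type u} [Group G] {D : Type*} [DivisionRing D] {K J : Type*} [Fintype K] [Fintype J]
  (φ : D →+* UU G)

/-- The value of a row on a vector. -/
def ev (f : L2 (Tw G K)) : (K → D) →+ MM G where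
  toFun r := ∑ k, φ (r k) • vec (co k f)
  map_zero' := by simp only [Pi.zero_apply, map_zero, zero_smul, Finset.sum_const_zero]
  map_add' x y := by simp only [Pi.add_apply, map_add, add_smul, Finset.sum_add_distrib]

theorem ev_apply (f : L2 (Tw G K)) (r : K → D) : ev φ f r = ∑ k, φ (r k) • vec (co k f) := rfl

theorem ev_smul (f : L2 (Tw G K)) (c : D) (r : K → D) : ev φ f (c • r) = φ c • ev φ f r := by
  simp only [ev_apply, Pi.smul_apply, smul_eq_mul, map_mul, mul_smul, Finset.smul_sum]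

theorem ev_zero (r : K → D) : ev φ (0 : L2 (Tw G K)) r = 0 := by
  simp only [ev_apply, map_zero, smul_zero, Finset.sum_const_zero]

/-- The row `r` computes the scalar products with the translates of `a`. -/
def Row (a : L2 (Tw G K)) (r : K → D) : Prop :=
  ∀ f, ∃ y : L2 G, ev φ f r = vec y ∧ ∀ h : G, y h = ⟪act h a, f⟫_ℂ

variable {φ}

theorem Row.zero : Row φ (0 : L2 (Tw G K)) 0 := fun f =>
  ⟨0, by rw [map_zero, map_zero], fun h => by rw [map_zero, inner_zero_left]; rfl⟩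

theorem Row.add {a a' : L2 (Tw G K)} {r r' : K → D} (h : Row φ a r) (h' : Row φ a' r') :
    Row φ (a + a') (r + r') := fun f => by
  obtain ⟨y, h1, h2⟩ := h f
  obtain ⟨y', h1', h2'⟩ := h' f
  refine ⟨y + y', by rw [map_add, map_add, h1, h1'], fun g => ?_⟩
  rw [map_add, inner_add_left, ← h2, ← h2']
  rfl

theorem exists_row (h1 : ∀ g, nu (rho g) ∈ φ.range) (h2 : ∀ c, sc c ∈ φ.range)
    {a : L2 (Tw G K)} (ha : FinS a) : ∃ r, Row φ a r := by
  classical
  rw [ha.eq_sum]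
  refine Finset.sum_induction _ (fun a => ∃ r, Row φ a r)
    (fun _ _ ⟨_, h⟩ ⟨_, h'⟩ => ⟨_, h.add h'⟩) ⟨0, Row.zero⟩ fun z _ => ?_
  obtain ⟨d, hd⟩ := mul_mem (h2 (starRingEnd ℂ (a z))) (h1 z.y)
  refine ⟨Pi.single z.k d, fun f => ⟨starRingEnd ℂ (a z) • (rho z.y).1 (co z.k f), ?_, fun g => ?_⟩⟩
  · rw [ev_apply, Finset.sum_eq_single z.k (fun k _ hk => by
      rw [Pi.single_eq_of_ne hk, map_zero, zero_smul]) fun h => absurd (Finset.mem_univ _) h,
      Pi.single_eq_same, hd, mul_smul, nu_smul_vec, sc_smul_vec]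
  · rw [map_smul, inner_smul_left, act_delta, inner_delta_left]
    rfl

/-- The rows of the finitely supported vectors orthogonal to `N`. -/
def Rows (φ : D →+* UU G) (N : Submodule ℂ (L2 (Tw G K))) : Set (K → D) :=
  {r | ∃ a, FinS a ∧ (∀ g ∈ N, ⟪a, g⟫_ℂ = 0) ∧ Row φ a r}

theorem ker_rows (h1 : ∀ g, nu (rho g) ∈ φ.range) (h2 : ∀ c, sc c ∈ φ.range)
    {N : Submodule ℂ (L2 (Tw G K))} (hi : Inv G N) (hc : Cut N) : Ker φ (Rows φ N) = N := by
  refine le_antisymm (fun f hf => hc f fun a ha hN => ?_) fun f hf r ⟨a, _, hN, hr⟩ => ?_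
  · obtain ⟨r, hr⟩ := exists_row h1 h2 ha
    obtain ⟨y, e1, e2⟩ := hr f
    have e3 : y = 0 := vec_eq_zero.1 (e1.symm.trans (hf r ⟨a, ha, hN, hr⟩))
    rw [← act_one (H := G) a, ← e2, e3]
    rfl
  · obtain ⟨y, e1, e2⟩ := hr f
    refine e1.trans (vec_eq_zero.2 (lp.ext (funext fun g => ?_)))
    rw [e2, inner_act_left, hN _ (hi _ f hf)]
    rfl

theorem exists_op (h1 : ∀ g, nu (rho g) ∈ φ.range) (h2 : ∀ c, sc c ∈ φ.range)
    {T : L2 (Tw G K) →L[ℂ] L2 (Tw G J)} (hT : Eqv G T) (hf : FinCols T) :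
    ∃ Λ : (J → D) →ₗ[D] (K → D), ∀ c f, ev φ f (Λ c) = ev φ (T f) c := by
  have hr := finRows_of_finCols (cofin_tw cofin_self) (free_tw free_self) hT hf
  choose τ hτ using fun j : J => exists_row h1 h2 (hr _ (finS_delta (⟨1, j⟩ : Tw G J)))
  refine ⟨Fintype.linearCombination D τ, fun c f => ?_⟩
  rw [Fintype.linearCombination_apply, map_sum, ev_apply]
  refine Finset.sum_congr rfl fun j _ => ?_
  obtain ⟨y, e1, e2⟩ := hτ j f
  rw [ev_smul, e1]
  congr 2
  refine lp.ext (funext fun g => ?_)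
  rw [e2, inner_act_left, inner_adj_left, hT, inner_delta_left, act_apply, inv_inv, co_apply]
  exact congrArg _ (Tw.ext (mul_one g) rfl)

end AnKill

open AnKill in
theorem p_kill (h : S_RK.{u}) : S_KILL.{u} := by
  intro G D _ _ J _ φ _ h1 h2 F hF hne
  obtain ⟨K, _, N, T, hi, hc, hT, hf, rfl⟩ := hF.std
  have := Fintype.ofFinite K
  obtain ⟨Λ, hΛ⟩ := exists_op h1 h2 hT hf
  have hN : Ker φ (Submodule.span D (Rows φ N) : Set (K → D)) = N := by
    rw [Ker_span, ker_rows h1 h2 hi hc]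
  generalize Submodule.span D (Rows φ N) = P at hN
  by_contra hcon
  have h0 : ∀ c, Λ c ∈ P → c = 0 := fun c hP => by
    by_contra h3
    refine hcon ⟨c, h3, cl_img_le (cls_inv_Ker φ _).1 fun g hg r hr => ?_⟩
    obtain rfl : r = c := hr
    exact (hΛ r g).symm.trans ((hN ▸ hg : g ∈ Ker φ (P : Set (K → D))) _ hP)
  have h3 : P ⊓ LinearMap.range Λ = ⊥ := by
    rw [eq_bot_iff]
    rintro _ ⟨hP, c, rfl⟩
    rw [h0 c hP, map_zero]
    exact Submodule.zero_mem _
  have h4 := Submodule.finrank_sup_add_finrank_inf_eq P (LinearMap.range Λ)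
  rw [h3, finrank_bot, add_zero, LinearMap.finrank_range_of_inj
    ((injective_iff_map_eq_zero Λ).2 fun c hc => h0 c (hc ▸ P.zero_mem)),
    Module.finrank_fintype_fun_eq_card] at h4
  have h5 : N ⊓ pre T ⊥ ≤ Ker φ (P ⊔ LinearMap.range Λ : Submodule D (K → D)) := by
    rintro f ⟨hf1, hf2⟩ r hr
    obtain ⟨p, hp, _, ⟨c, rfl⟩, rfl⟩ := Submodule.mem_sup.1 hr
    have e1 : ev φ f p = 0 := (hN ▸ hf1 : f ∈ Ker φ (P : Set (K → D))) _ hp
    have e2 : T f = 0 := hf2
    rw [← ev_apply, map_add, e1, hΛ, e2, ev_zero, add_zero]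
  have h6 := h G D K φ P
  have h7 := h G D K φ (P ⊔ LinearMap.range Λ)
  rw [hN, rank_nullity (free_tw free_self) (free_tw free_self) hT hc.cls hi] at h6
  rw [h4, ← h6, Nat.cast_add] at h7
  refine hne (eq_of_edim_le (H := G) (cls_cl _) cls_top (hi.img hT).cl inv_top le_top
    (edim_ne_top (cofin_tw cofin_self) _) ?_)
  rw [edim_top_tw, edim_cl]
  have h8 := edim_mono (H := G) h5
  refine (ENNReal.add_le_add_iff_left (a := edim G (N ⊓ pre T ⊥) + Module.finrank D P)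
    (ENNReal.add_ne_top.2 ⟨edim_ne_top (cofin_tw cofin_self) _, ENNReal.natCast_ne_top _⟩)).1 ?_
  rw [add_right_comm _ _ (edim G (img T N)), ← h7, add_assoc]
  exact add_le_add h8 le_rfl

end Pool.Agent.P.MP_0f25e6_al.VT
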