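import Pool.Agent.P.MP_0f25e6_al.VT.AnSpec

/-!
Preimages of rational subspaces are rational.
-/

set_option autoImplicit false

open scoped InnerProductSpace ENNReal
open MulAction

noncomputable section

namespace Pool.Agent.P.MP_0f25e6_al.VT

universe u

open HN HR Sys

theorem p_pre : S_PRE.{u} := by
  intro G Y Z _ _ _ hY hZ cY T hT hf W hW
  obtain ⟨Y', _, hY', cY', N, S, hN, hcut, hS, hSf, rfl⟩ := hW
  refine ⟨Y ⊕ Y', inferInstance, free_sum hY hY', cofin_sum cY cY', fp T S ⊤ N, pl,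
    inv_fp hT hS inv_top hN,
    cut_fp (finRows_of_finCols cY hZ hT hf) (finRows_of_finCols cY' hZ hS hSf) cut_top hcut,
    eqv_pull_inl, finCols_pull _ _, le_antisymm ?_ ?_⟩
  · refine (mem_cl_fp hY hZ hY' cY cY' hT hS ((cls_cl _).pre T) ((hN.img hS).cl.pre hT) hcut.cls hN
      fun n hn => hn).trans (cl_mono ?_)
    rintro _ ⟨f, hf', rfl⟩
    exact ⟨f, mem_fp.2 ⟨Submodule.mem_top, (mem_fp.1 hf').2⟩, rfl⟩
  · refine cl_img_le ((cls_cl _).pre T) fun g hg => ?_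
    obtain ⟨-, h1, h2⟩ := mem_fp.1 hg
    change T (pl g) ∈ cl (img S N)
    rw [h2]
    exact le_cl _ ⟨_, h1, rfl⟩

end Pool.Agent.P.MP_0f25e6_al.VT
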