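import Pool.Agent.P.MP_0f25e6_al.VT.AnSpec

/-!
Affiliated operators with rational graph are closed under sums, products and inverses.
-/

set_option autoImplicit false

open scoped InnerProductSpace ENNReal
open MulAction

noncomputable section

namespace Pool.Agent.P.MP_0f25e6_al.VT

universe u

open HN HR Sys

namespace AnQR

variable {G : Type u} [Group G]

theorem mem_two {a : UU G} {F : L2 (Tw G (Fin 2))} :
    F ∈ Jg ![1, a] 0 ↔ a • vec (co 0 F) = vec (co 1 F) := by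
  rw [mem_Jg, Fin.forall_fin_two]
  exact ⟨fun h => h.2, fun h => ⟨one_smul _ _, h⟩⟩

theorem mem_three {a b : UU G} {F : L2 (Tw G (Fin 3))} :
    F ∈ Jg ![1, a, b] 0 ↔
      a • vec (co 0 F) = vec (co 1 F) ∧ b • vec (co 0 F) = vec (co 2 F) := by
  rw [mem_Jg, Fin.forall_fin_succ, Fin.forall_fin_two]
  exact ⟨fun h => h.2, fun h => ⟨one_smul _ _, h⟩⟩

/-- A pair of operators. -/
def pair {W : Type u} (S T : L2 W →L[ℂ] L2 G) : L2 W →L[ℂ] L2 (Tw G (Fin 2)) := stack ![S, T]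

omit [Group G] in
theorem co_pair_zero {W : Type u} (S T : L2 W →L[ℂ] L2 G) (f : L2 W) :
    co 0 (pair S T f) = S f := co_stack _ f 0

omit [Group G] in
theorem co_pair_one {W : Type u} (S T : L2 W →L[ℂ] L2 G) (f : L2 W) :
    co 1 (pair S T f) = T f := co_stack _ f 1

theorem eqv_pair {W : Type u} [MulAction G W] {S T : L2 W →L[ℂ] L2 G} (hS : Eqv G S)
    (hT : Eqv G T) : Eqv G (pair S T) :=
  eqv_stack (Fin.forall_fin_two.2 ⟨hS, hT⟩)

omit [Group G] in
theorem finCols_pair {W : Type u} {S T : L2 W →L[ℂ] L2 G} (hS : FinCols S) (hT : FinCols T) :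
    FinCols (pair S T) :=
  finCols_stack (Fin.forall_fin_two.2 ⟨hS, hT⟩)

theorem graph_two (h2 : S_GRAPH.{u}) {b : UU G} {t m : NN G} (ht : t ∈ SS G)
    (h : b * nu t = nu m) : Jg ![1, b] 0 = cl (img (pair t.1 m.1) ⊤) := by
  rw [h2 G (Fin 2) ![1, b] 0 t ![t, m] rfl ht (Fin.forall_fin_two.2 ⟨one_mul _, h⟩)]
  have e : (fun j : Fin 2 => ((![t, m] : Fin 2 → NN G) j).1) = ![t.1, m.1] :=
    funext (Fin.forall_fin_two.2 ⟨rfl, rfl⟩)
  rw [e]
  rfl

theorem gen (h2 : S_GRAPH.{u}) (n : NN G) (hn : FinCols n.1) : QR (nu n) := by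
  rw [QR, graph_two h2 (t := 1) (m := n) (one_mem _) (by rw [map_one, mul_one])]
  exact ⟨G, inferInstance, free_self, cofin_self, ⊤, _, inv_top, cut_top,
    eqv_pair (NN.eqv 1) (NN.eqv n), finCols_pair (fun _ ha => ha) hn, rfl⟩

/-- Projection of a joint graph to the graph of a new operator. -/
theorem project (h2 : S_GRAPH.{u}) {J : Type} [Fintype J] {a : J → UU G} {j₀ : J}
    (h0 : a j₀ = 1) {t : NN G} (ht : t ∈ SS G) {m : J → NN G} (hm : ∀ j, a j * nu t = nu (m j))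
    {b : UU G} {m' : NN G} (hb : b * nu t = nu m') {T : L2 (Tw G J) →L[ℂ] L2 G} (hT : Eqv G T)
    (hf : FinCols T) (hTm : ∀ x, T (stack (fun j => (m j).1) x) = m'.1 x)
    (hR : Rat G (Jg a j₀)) : QR b := by
  have h1 := hR.img (eqv_pair (eqv_co j₀) hT) (finCols_pair (finCols_co j₀) hf)
  have h3 : m j₀ = t := nu_inj (by rw [← hm, h0, one_mul])
  have e : pair (co j₀) T ∘L stack (fun j => (m j).1) = pair t.1 m'.1 := by
    refine ContinuousLinearMap.ext fun x => ext_co (Fin.forall_fin_two.2 ⟨?_, ?_⟩)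
    · rw [ContinuousLinearMap.comp_apply, co_pair_zero, co_pair_zero, co_stack, h3]
    · rw [ContinuousLinearMap.comp_apply, co_pair_one, co_pair_one, hTm]
  rw [h2 G J a j₀ t m h0 ht hm, cl_img_cl, img, img, ← Submodule.map_comp] at h1
  rw [QR, graph_two h2 ht hb, ← e]
  exact h1

theorem add (h2 : S_GRAPH.{u}) (h3 : S_JOINT.{u}) {a b : UU G} (ha : QR a) (hb : QR b) :
    QR (a + b) := by
  have h1 : QR (1 : UU G) := by
    have := gen h2 (1 : NN G) (fun _ ha => ha)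
    rwa [map_one] at this
  have hJ := h3 G (Fin 3) ![1, a, b] 0
    (Fin.forall_fin_succ.2 ⟨h1, Fin.forall_fin_two.2 ⟨ha, hb⟩⟩)
  obtain ⟨t, ht, m, hm⟩ := exists_right (![1, a, b] : Fin 3 → UU G)
  refine project h2 rfl ht hm (m' := m 1 + m 2) ?_ (T := co 1 + co 2)
    ((eqv_co 1).add (eqv_co 2)) ((finCols_co 1).add (finCols_co 2)) (fun x => ?_) hJ
  · rw [map_add, ← hm, ← hm, add_mul]
    rfl
  · rw [add_apply, co_stack, co_stack]
    rfl

theorem mul (h1 : S_PRE.{u}) (h2 : S_GRAPH.{u}) {a b : UU G} (ha : QR a) (hb : QR b) :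
    QR (a * b) := by
  have hF : Free G (Tw G (Fin 3)) := free_tw free_self
  have hF' : Free G (Tw G (Fin 2)) := free_tw free_self
  have hC : Cofin G (Set.univ : Set (Tw G (Fin 3))) := cofin_tw cofin_self
  have r1 := h1 G _ _ hF hF' hC (pair (co 0) (co 1)) (eqv_pair (eqv_co 0) (eqv_co 1))
    (finCols_pair (finCols_co 0) (finCols_co 1)) _ hb
  have r2 := h1 G _ _ hF hF' hC (pair (co 1) (co 2)) (eqv_pair (eqv_co 1) (eqv_co 2))
    (finCols_pair (finCols_co 1) (finCols_co 2)) _ ha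
  have e : Jg ![1, b, a * b] 0 = pre (pair (co 0) (co 1)) (Jg ![1, b] 0) ⊓
      pre (pair (co 1) (co 2)) (Jg ![1, a] 0) := by
    ext F
    change _ ↔ pair (co 0) (co 1) F ∈ Jg ![1, b] 0 ∧ pair (co 1) (co 2) F ∈ Jg ![1, a] 0
    rw [mem_three, mem_two, mem_two, co_pair_zero, co_pair_one, co_pair_zero, co_pair_one]
    refine and_congr_right fun h => ?_
    rw [mul_smul, h]
  have hJ : Rat G (Jg ![1, b, a * b] 0) := e ▸ Rat.inf hF r1 r2
  obtain ⟨t, ht, m, hm⟩ := exists_right (![1, b, a * b] : Fin 3 → UU G)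
  exact project h2 rfl ht hm (m' := m 2) (hm 2) (T := co 2) (eqv_co 2) (finCols_co 2)
    (fun x => co_stack _ x 2) hJ

theorem inv (h1 : S_PRE.{u}) {a b : UU G} (hab : a * b = 1) (hba : b * a = 1) (ha : QR a) :
    QR b := by
  have hF : Free G (Tw G (Fin 2)) := free_tw free_self
  have r := h1 G _ _ hF hF (cofin_tw cofin_self) (pair (co 1) (co 0))
    (eqv_pair (eqv_co 1) (eqv_co 0)) (finCols_pair (finCols_co 1) (finCols_co 0)) _ ha
  have e : Jg ![1, b] 0 = pre (pair (co 1) (co 0)) (Jg ![1, a] 0) := by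
    ext F
    change _ ↔ pair (co 1) (co 0) F ∈ Jg ![1, a] 0
    rw [mem_two, mem_two, co_pair_zero, co_pair_one]
    constructor
    · intro h
      rw [← h, smul_smul, hab, one_smul]
    · intro h
      rw [← h, smul_smul, hba, one_smul]
  rw [QR, e]
  exact r

end AnQR

theorem p_qr (h1 : S_PRE.{u}) (h2 : S_GRAPH.{u}) (h3 : S_JOINT.{u}) : S_QR.{u} :=
  fun _ _ => ⟨AnQR.gen h2, fun _ _ => AnQR.add h2 h3, fun _ _ => AnQR.mul h1 h2,
    fun _ _ => AnQR.inv h1⟩

end Pool.Agent.P.MP_0f25e6_al.VT
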