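import Pool.Agent.P.MP_0f25e6_al.VT.AnSpec

/-!
The dimension of the solution space of a system of rows over a division ring.
-/

set_option autoImplicit false

open scoped InnerProductSpace ENNReal
open MulAction

noncomputable section

namespace Pool.Agent.P.MP_0f25e6_al.VT

universe u

open HN HR Sys

namespace AnRK

variable {G D J : Type u} [Group G] [DivisionRing D] [Fintype J] (φ : D →+* UU G)

theorem exists_op (P : Submodule D (J → D)) :
    ∃ T : L2 (Tw G J) →L[ℂ] L2 (Tw G (Fin (Module.finrank D P))), Eqv G T ∧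
      Ker φ (P : Set (J → D)) = pre T ⊥ := by
  let b := Module.finBasis D P
  choose T hT h using fun i => exists_row_op fun j => φ ((b i : J → D) j)
  have e : P = Submodule.span D (Set.range fun i => (b i : J → D)) := by
    rw [show (fun i => (b i : J → D)) = P.subtype ∘ b from rfl, Set.range_comp,
      ← Submodule.map_span, b.span_eq, Submodule.map_subtype_top]
  have e2 : Ker φ (P : Set (J → D)) = Ker φ (Set.range fun i => (b i : J → D)) := by
    rw [← Ker_span φ (Set.range _), ← e]
  refine ⟨stack T, eqv_stack hT, ?_⟩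
  rw [e2]
  ext f
  change _ ↔ stack T f = 0
  rw [mem_Ker, Set.forall_mem_range]
  simp only [h]
  constructor
  · intro hf
    exact ext_co fun i => by rw [co_stack, hf, map_zero]
  · intro hf i
    rw [← co_stack T f i, hf, map_zero]

theorem le_add (P : Submodule D (J → D)) {N : Submodule ℂ (L2 (Tw G J))} (hc : Cls N)
    (hi : Inv G N) :
    edim G N ≤ edim G (N ⊓ Ker φ (P : Set (J → D))) + Module.finrank D P := by
  obtain ⟨T, hT, e⟩ := exists_op φ P
  rw [rank_nullity (free_tw free_self) (free_tw free_self) hT hc hi, e]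
  refine add_le_add_right ((edim_mono le_top).trans ?_) _
  rw [edim_top_tw, Fintype.card_fin]

theorem inf_eq_bot {P Q : Submodule D (J → D)} (h : IsCompl P Q) :
    Ker φ (P : Set (J → D)) ⊓ Ker φ (Q : Set (J → D)) = ⊥ := by
  classical
  refine eq_bot_iff.2 fun f hf => ?_
  have h1 : f ∈ Ker φ ((P : Set (J → D)) ∪ Q) := fun r hr => hr.elim (hf.1 r) (hf.2 r)
  rw [← Ker_span, Submodule.span_union, Submodule.span_eq, Submodule.span_eq, h.sup_eq_top] at h1
  refine ext_co fun j => ?_
  have h2 := h1 (Pi.single j 1) Submodule.mem_top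
  rw [Finset.sum_eq_single j (fun i _ hi => by rw [Pi.single_eq_of_ne hi, map_zero, zero_smul])
    (fun hj => absurd (Finset.mem_univ j) hj), Pi.single_eq_same, map_one, one_smul,
    vec_eq_zero] at h2
  rw [h2, map_zero]

end AnRK

open AnRK in
theorem p_rk : S_RK.{u} := by
  intro G D J _ _ _ φ P
  refine le_antisymm ?_ ?_
  · obtain ⟨Q, hQ⟩ := P.exists_isCompl
    have h1 := le_add φ Q (cls_inv_Ker φ (P : Set (J → D))).1 (cls_inv_Ker φ _).2
    rw [inf_eq_bot φ hQ, edim_bot, zero_add] at h1
    refine (add_le_add_left h1 _).trans (le_of_eq ?_)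
    rw [← Nat.cast_add, add_comm, Submodule.finrank_add_eq_of_isCompl hQ,
      Module.finrank_fintype_fun_eq_card]
  · have h1 := le_add φ P cls_top inv_top
    rwa [edim_top_tw, top_inf_eq] at h1

end Pool.Agent.P.MP_0f25e6_al.VT
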