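import Pool.Agent.P.MP_0f25e6_al.VT.AnSpec

/-!
The rank formula for the crossed product.
-/

set_option autoImplicit false

open scoped InnerProductSpace ENNReal
open MulAction

noncomputable section

namespace Pool.Agent.P.MP_0f25e6_al.VT

universe u

open HN HR Sys

namespace AnRank

section V

variable {Γ G : Type u} [Group Γ] [Group G] (inc : Γ →* G) (hinc : Function.Injective inc) (n : ℕ)

/-- The coordinates along the cosets. -/
def bj (p : Tw Γ ((G ⧸ inc.range) × Fin n)) : Tw G (Fin n) := ⟨inc p.y * p.k.1.out⁻¹, p.k.2⟩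

include hinc in
theorem bj_inj : Function.Injective (bj inc n) := by
  rintro ⟨a, q, j⟩ ⟨b, r, k⟩ h
  have h1 : inc a * q.out⁻¹ = inc b * r.out⁻¹ := congrArg Tw.y h
  have h2 : j = k := congrArg Tw.k h
  have h3 : ((q, a) : (G ⧸ inc.range) × Γ) = (r, b) := (coset_bij inc hinc).1 h1
  obtain ⟨rfl, rfl⟩ := Prod.ext_iff.1 h3
  rw [h2]

include hinc in
theorem bj_surj : Function.Surjective (bj inc n) := by
  rintro ⟨x, j⟩
  obtain ⟨⟨q, a⟩, h⟩ := (coset_bij inc hinc).2 x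
  exact ⟨⟨a, q, j⟩, Tw.ext h rfl⟩

/-- The change of coordinates. -/
def VV : L2 (Tw G (Fin n)) →L[ℂ] L2 (Tw Γ ((G ⧸ inc.range) × Fin n)) :=
  pull (bj inc n) (bj_inj inc hinc n)

theorem co_VV (p : (G ⧸ inc.range) × Fin n) (f : L2 (Tw G (Fin n))) :
    co p (VV inc hinc n f) = pull inc hinc ((rho p.1.out⁻¹).1 (co p.2 f)) :=
  lp.ext (funext fun _ => rfl)

theorem VV_inj (f : L2 (Tw G (Fin n))) (h : VV inc hinc n f = 0) : f = 0 := by
  refine lp.ext (funext fun z => ?_)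
  obtain ⟨p, rfl⟩ := bj_surj inc hinc n z
  exact congrArg (fun F : L2 (Tw Γ ((G ⧸ inc.range) × Fin n)) => F p) h

theorem edim_VV {W : Submodule ℂ (L2 (Tw G (Fin n)))} (hc : Cls W) (hi : Inv G W) :
    edim Γ (img (VV inc hinc n) W) = (ENat.card (G ⧸ inc.range) : ℝ≥0∞) * edim G W := by
  let : MulAction Γ G := MulAction.compHom G inc
  have hι : ∀ (c : Γ) (z : Tw G (Fin n)), inc c • z = c • z := fun _ _ => rfl
  have hf : Free Γ (Tw G (Fin n)) := fun c z hz =>
    hinc ((free_tw free_self (inc c) z hz).trans (map_one inc).symm)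
  have he : Eqv Γ (VV inc hinc n) := eqv_pull _ fun a p => Tw.ext (by
    change inc (a * p.y) * p.k.1.out⁻¹ = inc a * (inc p.y * p.k.1.out⁻¹)
    rw [map_mul, mul_assoc]) rfl
  rw [edim_img_of_inj hf (free_tw free_self) he (VV_inj inc hinc n) hc (hi.of_hom inc hι),
    edim_index inc (free_tw free_self) hinc hι hi]

end V

section Row

variable {G : Type u} [Group G]

/-- The operator of a translated element of the group ring. -/
def opr (γ : G) (a : G →₀ ℂ) : NN G := rho γ * ∑ k ∈ a.support, algebraMap ℂ (NN G) (a k) * rho k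

theorem opr_apply (γ : G) (a : G →₀ ℂ) (ξ : L2 G) (x : G) :
    (opr γ a).1 ξ x = ∑ k ∈ a.support, a k * ξ (x * γ * k) := by
  have h : (opr γ a).1 ξ = (rho γ).1 (∑ k ∈ a.support, a k • (rho k).1 ξ) := by
    simp only [opr, ← Algebra.smul_def, MulMemClass.coe_mul, AddSubmonoidClass.coe_finsetSum,
      mul_apply_eq_comp, sum_apply, SetLike.val_smul,
      smul_apply]
  rw [h, rho_apply, lp.coeFn_sum, Finset.sum_apply]
  rfl

theorem row_apply {m n : ℕ} (A : Fin m → Fin n → G →₀ ℂ) (γ : G) (i : Fin m)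
    (f : L2 (Tw G (Fin n))) (x : G) :
    (∑ j, (opr γ (A i j)).1 (co j f) : L2 G) x =
      ∑ j, ∑ k ∈ (A i j).support, A i j k * f ⟨x * γ * k, j⟩ := by
  rw [lp.coeFn_sum, Finset.sum_apply]
  simp only [opr_apply, co_apply]

theorem inv_of_isKer {m n : ℕ} {A : Fin m → Fin n → G →₀ ℂ}
    {W : Submodule ℂ (L2 (Tw G (Fin n)))} (hW : IsKer A W) : Inv G W := fun h f hf =>
  (hW _).2 fun g i => by
    have h1 := (hW f).1 hf (h⁻¹ * g) i
    simp only [mul_assoc] at h1
    exact h1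

end Row

section Th

variable {s : Sys.{u}} {G : Type u} [Group G] {inc : s.Γ →* G} (𝒢 : s.GS G inc)
  [Fintype (G ⧸ inc.range)]

/-- Coordinates in the crossed product. -/
def th1 : ((G ⧸ inc.range) → s.D) →ₗ[s.D] 𝒢.R where
  toFun c := ∑ q, 𝒢.jR (c q) * 𝒢.ιG q.out⁻¹
  map_add' a b := by simp only [Pi.add_apply, map_add, add_mul, Finset.sum_add_distrib]
  map_smul' d a := by
    simp only [Pi.smul_apply, smul_eq_mul, map_mul, RingHom.id_apply, GS.smul_def, Finset.mul_sum,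
      mul_assoc]

theorem th1_apply (c : (G ⧸ inc.range) → s.D) :
    th1 𝒢 c = ∑ q, 𝒢.jR (c q) * 𝒢.ιG q.out⁻¹ := rfl

theorem th1_eq_zero {c : (G ⧸ inc.range) → s.D} (h : th1 𝒢 c = 0) (q : G ⧸ inc.range) :
    c q = 0 := by
  let e := (Fintype.equivFin (G ⧸ inc.range)).symm
  have h1 := 𝒢.indep _ (fun a => c (e a)) (fun a => (e a).out⁻¹) (fun a b hab => e.injective (by
    rw [← QuotientGroup.out_eq' (e a), ← QuotientGroup.out_eq' (e b), QuotientGroup.eq]
    simpa using hab))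
    ((e.sum_comp fun q => 𝒢.jR (c q) * 𝒢.ιG q.out⁻¹).trans h) (e.symm q)
  simpa using h1

theorem ιG_mem (hinc : Function.Injective inc) (x : G) : 𝒢.ιG x ∈ LinearMap.range (th1 𝒢) := by
  classical
  obtain ⟨⟨q, a⟩, rfl⟩ := (coset_bij inc hinc).2 x
  refine ⟨Pi.single q (s.ι a), ?_⟩
  rw [th1_apply, Finset.sum_eq_single q (fun b _ hb => by
    rw [Pi.single_eq_of_ne hb, map_zero, zero_mul]) (by simp), Pi.single_eq_same, 𝒢.jι, map_mul]

theorem row_mem (hinc : Function.Injective inc) (γ : G) (a : G →₀ ℂ) :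
    𝒢.ιG γ * 𝒢.emb a ∈ LinearMap.range (th1 𝒢) := by
  rw [GS.emb, Finsupp.sum, Finset.mul_sum]
  refine sum_mem fun k _ => ?_
  rw [← mul_assoc, 𝒢.conj, mul_assoc, ← map_mul, ← GS.smul_def]
  exact Submodule.smul_mem _ _ (ιG_mem 𝒢 hinc _)

variable (n : ℕ)

/-- Coordinates of rows. -/
def th : ((G ⧸ inc.range) × Fin n → s.D) →ₗ[s.D] (Fin n → 𝒢.R) :=
  LinearMap.pi fun j => (th1 𝒢).comp (LinearMap.funLeft s.D s.D fun q => (q, j))

theorem th_apply (c : (G ⧸ inc.range) × Fin n → s.D) (j : Fin n) :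
    th 𝒢 n c j = ∑ q, 𝒢.jR (c (q, j)) * 𝒢.ιG q.out⁻¹ := rfl

theorem th_inj : Function.Injective (th 𝒢 n) := by
  rw [injective_iff_map_eq_zero]
  intro c h
  funext p
  exact th1_eq_zero 𝒢 (c := fun q => c (q, p.2)) (congrFun h p.2) p.1

variable {n}

theorem row_range (hinc : Function.Injective inc) {m : ℕ} (A : Fin m → Fin n → G →₀ ℂ) (γ : G)
    (i : Fin m) : ∃ c, th 𝒢 n c = fun j => 𝒢.ιG γ * 𝒢.emb (A i j) := by
  choose c hc using fun j => row_mem 𝒢 hinc γ (A i j)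
  exact ⟨fun p => c p.2 p.1, funext hc⟩

theorem finrank_comap (hinc : Function.Injective inc) {m : ℕ} (A : Fin m → Fin n → G →₀ ℂ) :
    Module.finrank s.D ((𝒢.Rel A).comap (th 𝒢 n)) = Module.finrank s.D (𝒢.Rel A) := by
  have h : 𝒢.Rel A ≤ LinearMap.range (th 𝒢 n) := Submodule.span_le.2 (by
    rintro _ ⟨γ, i, rfl⟩
    exact row_range 𝒢 hinc A γ i)
  rw [(Submodule.equivMapOfInjective _ (th_inj 𝒢 n) _).finrank_eq, Submodule.map_comap_eq_self h]

variable {𝒢} {R : Rz s} {hinc : Function.Injective inc} {I : Ind inc hinc} {θ : 𝒢.R →+* UU G}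
  (h1 : ∀ d, θ (𝒢.jR d) = I.U (R.φ d)) (h2 : ∀ g, θ (𝒢.ιG g) = nu (rho g))

omit [Fintype (G ⧸ inc.range)] in
include h1 h2 in
theorem θ_row (γ : G) (a : G →₀ ℂ) : θ (𝒢.ιG γ * 𝒢.emb a) = nu (opr γ a) := by
  simp only [GS.emb, Finsupp.sum, opr, map_mul, map_sum, h1, h2, R.φ_alg, I.U_sc, ← sc_def]

include h1 h2 in
theorem θ_th {c : (G ⧸ inc.range) × Fin n → s.D} {t : NN s.Γ}
    {N : (G ⧸ inc.range) × Fin n → NN s.Γ} (h : ∀ p, nu t * R.φ (c p) = nu (N p)) (j : Fin n) :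
    nu (I.N t) * θ (th 𝒢 n c j) = nu (∑ q, I.N (N (q, j)) * rho q.out⁻¹) := by
  rw [th_apply, map_sum, map_sum, Finset.mul_sum]
  refine Finset.sum_congr rfl fun q _ => ?_
  rw [map_mul, h1, h2, ← mul_assoc, ← I.U_nu, ← map_mul, h, I.U_nu, map_mul]

theorem pull_sum (N : (G ⧸ inc.range) × Fin n → NN s.Γ) (f : L2 (Tw G (Fin n))) :
    pull inc hinc (∑ j, (∑ q, I.N (N (q, j)) * rho q.out⁻¹ : NN G).1 (co j f)) =
      ∑ p, (N p).1 (co p (VV inc hinc n f)) := by
  rw [Fintype.sum_prod_type_right, map_sum]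
  refine Finset.sum_congr rfl fun j _ => ?_
  simp only [AddSubmonoidClass.coe_finsetSum, sum_apply, map_sum,
    MulMemClass.coe_mul, mul_apply_eq_comp, I.pull_N, co_VV]

include h1 h2 in
theorem mem_iff {m : ℕ} {A : Fin m → Fin n → G →₀ ℂ} {W : Submodule ℂ (L2 (Tw G (Fin n)))}
    (hW : IsKer A W) (f : L2 (Tw G (Fin n))) :
    f ∈ W ↔ VV inc hinc n f ∈
      Ker R.φ ((𝒢.Rel A).comap (th 𝒢 n) : Set ((G ⧸ inc.range) × Fin n → s.D)) := by
  constructor
  · intro hf c hc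
    have h3 : ∀ r ∈ 𝒢.Rel A, ∑ j, θ (r j) • vec (co j f) = 0 := by
      intro r hr
      induction hr using Submodule.span_induction with
      | mem x hx =>
        obtain ⟨γ, i, rfl⟩ := hx
        simp only [θ_row h1 h2, nu_smul_vec, ← map_sum, vec_eq_zero]
        exact lp.ext (funext fun x => (row_apply A γ i f x).trans ((hW f).1 hf _ i))
      | zero => simp only [Pi.zero_apply, map_zero, zero_smul, Finset.sum_const_zero]
      | add x y _ _ hx hy =>
        simp only [Pi.add_apply, map_add, add_smul, Finset.sum_add_distrib, hx, hy, add_zero]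
      | smul a x _ hx =>
        simp only [Pi.smul_apply, GS.smul_def, map_mul, mul_smul, ← Finset.smul_sum, hx,
          smul_zero]
    obtain ⟨t, ht, N, h⟩ := exists_left fun p => R.φ (c p)
    have h4 := h3 _ hc
    rw [← map_zero vec, sum_smul_vec_eq_iff ((I.N_SS t).2 ht) (θ_th h1 h2 h), map_zero] at h4
    rw [← map_zero vec, sum_smul_vec_eq_iff ht h, map_zero, ← pull_sum (I := I), h4, map_zero]
  · intro hf
    refine (hW f).2 fun γ i => ?_
    obtain ⟨c, hc⟩ := row_range 𝒢 hinc A γ i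
    have h3 := hf c (show th 𝒢 n c ∈ 𝒢.Rel A from Submodule.subset_span ⟨γ, i, hc⟩)
    obtain ⟨t, ht, N, h⟩ := exists_left fun p => R.φ (c p)
    rw [← map_zero vec, sum_smul_vec_eq_iff ht h, map_zero, ← pull_sum (I := I)] at h3
    have h4 : ∀ j, (∑ q, I.N (N (q, j)) * rho q.out⁻¹ : NN G) = I.N t * opr γ (A i j) := fun j =>
      nu_inj (by rw [← θ_th h1 h2 h, hc, θ_row h1 h2, map_mul])
    simp only [h4, MulMemClass.coe_mul, mul_apply_eq_comp] at h3
    rw [← map_sum, I.pull_N] at h3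
    have h5 := congrArg (fun x : L2 s.Γ => x 1) (ht _ h3)
    simp only [pull_apply, map_one] at h5
    rw [row_apply, one_mul] at h5
    exact h5

end Th

end AnRank

open AnRank in
theorem p_rank (h : S_RK.{u}) : S_RANK.{u} := by
  intro s R G _ inc hinc I 𝒢 θ h1 h2 hfi m n A W hW
  let : Fintype (G ⧸ inc.range) := Fintype.ofFinite _
  have hm := mem_iff h1 h2 hW
  have hc : Cls W := by
    have e : W = pre (VV inc hinc n) (Ker R.φ
        ((𝒢.Rel A).comap (th 𝒢 n) : Set ((G ⧸ inc.range) × Fin n → s.D))) := Submodule.ext hm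
    rw [e]
    exact (cls_inv_Ker _ _).1.pre _
  have e : img (VV inc hinc n) W =
      Ker R.φ ((𝒢.Rel A).comap (th 𝒢 n) : Set ((G ⧸ inc.range) × Fin n → s.D)) := by
    refine le_antisymm ?_ fun F hF => ?_
    · rintro _ ⟨f, hf, rfl⟩
      exact (hm f).1 hf
    · have h3 : VV inc hinc n (push _ (bj_inj inc hinc n) F) = F := pull_push _ _ F
      exact ⟨_, (hm _).2 (by rwa [h3]), h3⟩
  have h4 := h s.Γ s.D ((G ⧸ inc.range) × Fin n) R.φ ((𝒢.Rel A).comap (th 𝒢 n))
  rw [← e, edim_VV inc hinc n hc (inv_of_isKer hW), finrank_comap 𝒢 hinc A, Fintype.card_prod,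
    Fintype.card_fin, ENat.card_eq_coe_fintype_card] at h4
  rw [Subgroup.index, Nat.card_eq_fintype_card]
  simpa using h4

end Pool.Agent.P.MP_0f25e6_al.VT
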