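import Pool.Agent.P.MP_0f25e6_al.VT.AnAsm
import Pool.Agent.P.MP_0f25e6_al.VT.PAnInd
import Pool.Agent.P.MP_0f25e6_al.VT.PAnPre
import Pool.Agent.P.MP_0f25e6_al.VT.PAnGraph
import Pool.Agent.P.MP_0f25e6_al.VT.PAnJU
import Pool.Agent.P.MP_0f25e6_al.VT.PAnQR
import Pool.Agent.P.MP_0f25e6_al.VT.PAnEx
import Pool.Agent.P.MP_0f25e6_al.VT.PAnRK
import Pool.Agent.P.MP_0f25e6_al.VT.PAnKill
import Pool.Agent.P.MP_0f25e6_al.VT.PAnDens
import Pool.Agent.P.MP_0f25e6_al.VT.PAnLD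
import Pool.Agent.P.MP_0f25e6_al.VT.PAnHalf
import Pool.Agent.P.MP_0f25e6_al.VT.PAnCL1
import Pool.Agent.P.MP_0f25e6_al.VT.PAnGS
import Pool.Agent.P.MP_0f25e6_al.VT.PAnRank

/-!
The analytic input.
-/

set_option autoImplicit false

namespace Pool.Agent.P.MP_0f25e6_al.VT

universe u

theorem p_an : S_AN.{u} :=
  have hJ : S_JOINT.{u} := p_joint p_pre
  have hQ : S_QR.{u} := p_qr p_pre p_graph hJ
  have hE : S_EX.{u} := p_ex hQ (p_unit p_graph)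
  an_of p_ind hE (p_dens p_ind hE hQ hJ p_graph (p_kill p_rk)) (p_ld p_ind) (p_half p_ind) p_cl1
    (p_gs p_ind hE) (p_rank p_rk)

end Pool.Agent.P.MP_0f25e6_al.VT
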