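import Pool.Agent.P.MP_0f25e6_al.VT.AnSpec

/-!
Linear disjointness from the density of restrictions.
-/

set_option autoImplicit false

open scoped InnerProductSpace ENNReal
open MulAction

noncomputable section

namespace Pool.Agent.P.MP_0f25e6_al.VT

universe u

open HN HR Sys

namespace AnLD

variable {G : Type u} [Group G]

/-- A translate outside the double coset contributes nothing. -/
theorem pull_rho_res {A K : Subgroup G} {g : G} (h : ∀ α ∈ A, ∀ κ ∈ K, g ≠ α * κ) (ζ : L2 G) :
    pull A.subtype A.subtype_injective ((rho g).1 (res (K : Set G) ζ)) = 0 := by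
  ext x
  rw [pull_apply, rho_apply, res_apply_of_notMem]
  · rfl
  · intro hx
    exact h _ (A.inv_mem x.2) _ hx (by simp)

/-- The inclusion of the intersection. -/
def incl (A K : Subgroup G) : (A ⊓ K : Subgroup G) → A := fun x => ⟨x.1, x.2.1⟩

theorem incl_inj (A K : Subgroup G) : Function.Injective (incl A K) := fun _ _ h =>
  Subtype.ext (congrArg (fun z : A => z.1) h)

theorem pull_res (A K : Subgroup G) (ζ : L2 G) :
    pull A.subtype A.subtype_injective (res (K : Set G) ζ) =
      push (incl A K) (incl_inj A K) (pull (A ⊓ K).subtype (A ⊓ K).subtype_injective ζ) := by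
  ext x
  by_cases hx : x.1 ∈ K
  · have e : x = incl A K ⟨x.1, x.2, hx⟩ := rfl
    rw [pull_apply, res_apply_of_mem _ (show A.subtype x ∈ (K : Set G) from hx)]
    conv_rhs => rw [e, push_apply_self]
    rfl
  · rw [pull_apply, res_apply_of_notMem _ (show A.subtype x ∉ (K : Set G) from hx),
      push_apply_not]
    intro y hy
    exact hx (hy ▸ y.2.2)

theorem sum_sub {ι M : Type*} [Fintype ι] [AddCommMonoid M] (p : ι → Prop) [DecidablePred p]
    (f : ι → M) (g : {j // p j} → M) (h1 : ∀ j, g j = f j.1) (h2 : ∀ j, ¬ p j → f j = 0) :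
    ∑ j, g j = ∑ j, f j := by
  rw [← Fintype.sum_subtype_add_sum_subtype p f, Finset.sum_congr rfl fun j _ => h1 j,
    Finset.sum_eq_zero fun (j : {j // ¬ p j}) _ => h2 j.1 j.2, add_zero]

end AnLD

theorem p_ld (h : S_IND.{u}) : S_LD.{u} := by
  classical
  intro s R hD A K n a k γ ha hk hγ hind hsum j₀ hj₀
  obtain ⟨IA⟩ := h A s.Γ A.subtype A.subtype_injective
  obtain ⟨IK⟩ := h K s.Γ K.subtype K.subtype_injective
  obtain ⟨σ, hσ, p, hp⟩ := IA.left (a := fun j => R.φ (a j)) fun j => R.frac IA (ha j)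
  obtain ⟨t, ht, m, hm⟩ := IK.right (a := fun j => R.φ (k j)) fun j => R.frac IK (hk j)
  have h1 : ∑ j, IA.N (p j) * rho (γ j) * IK.N (m j) = 0 := by
    refine nu_inj ?_
    have e : nu (IA.N σ) * R.φ (∑ j, a j * s.ι (γ j) * k j) * nu (IK.N t) = 0 := by
      rw [hsum, map_zero, mul_zero, zero_mul]
    rw [map_zero, ← e, map_sum, map_sum, Finset.mul_sum, Finset.sum_mul]
    refine Finset.sum_congr rfl fun j _ => ?_
    rw [map_mul, map_mul, map_mul, map_mul, ← hp, ← hm, R.φ_ι]
    simp only [mul_assoc]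
  let L : {j // γ j = 1} → L2 (A ⊓ K : Subgroup s.Γ) →L[ℂ] L2 A :=
    fun j => (p j.1).1 ∘L push (AnLD.incl A K) (AnLD.incl_inj A K)
  have h2 : ∀ ξ, ∑ j : {j // γ j = 1}, L j (pull (A ⊓ K).subtype (A ⊓ K).subtype_injective
      ((IK.N (m j.1)).1 ξ)) = 0 := by
    intro ξ
    have e1 : ∑ j, (IA.N (p j)).1 ((rho (γ j)).1 ((IK.N (m j)).1 (res (K : Set s.Γ) ξ))) = 0 := by
      have := congrArg (fun T : NN s.Γ => T.1 (res (K : Set s.Γ) ξ)) h1
      simp only [AddSubmonoidClass.coe_finsetSum, sum_apply] at this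
      exact this
    have e2 := congrArg (pull A.subtype A.subtype_injective) e1
    rw [map_sum, map_zero] at e2
    have e3 : ∀ j, (IK.N (m j)).1 (res (K : Set s.Γ) ξ) = res (K : Set s.Γ) ((IK.N (m j)).1 ξ) :=
      fun j => (IK.res_N (m j) K (fun x b => K.mul_mem_cancel_right b.2) ξ).symm
    rw [← e2]
    refine AnLD.sum_sub (fun j => γ j = 1) _ _ (fun j => ?_) fun j hj => ?_
    · rw [IA.pull_N, e3, j.2, map_one]
      exact congrArg (p j.1).1 (AnLD.pull_res A K _).symm
    · rw [IA.pull_N, e3, AnLD.pull_rho_res ((hγ j).resolve_left hj), map_zero]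
  have h3 := hD (A ⊓ K) {j // γ j = 1} (fun j => k j.1) (IK.N t) (fun j => IK.N (m j.1))
    ((IK.N_SS t).2 ht) (fun j => hm j.1) (fun c hc h0 j => by
      have := hind (fun i => if hi : γ i = 1 then c ⟨i, hi⟩ else 0)
        (fun i => by
          split_ifs with hi
          · exact hc _
          · exact zero_mem _)
        (fun i hi => dif_neg hi)
        (by
          refine Eq.trans ?_ h0
          exact (AnLD.sum_sub (fun j => γ j = 1) _ _ (fun i => by rw [dif_pos i.2])
            fun i hi => by rw [dif_neg hi, zero_mul]).symm) j.1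
      simpa [j.2] using this) A L h2 ⟨j₀, hj₀⟩
  have h4 : p j₀ = 0 := NN.eq_zero (by
    have := congrArg (fun T : L2 (A ⊓ K : Subgroup s.Γ) →L[ℂ] L2 A => T (delta 1)) h3
    simp only [L, ContinuousLinearMap.comp_apply, push_delta] at this
    exact this)
  have h5 := hp j₀
  rw [h4, map_zero, map_zero] at h5
  exact R.φ.injective (by
    rw [map_zero]
    exact (nu_unit ((IA.N_SS σ).2 hσ)).mul_right_eq_zero.1 h5)

end Pool.Agent.P.MP_0f25e6_al.VT
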