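import Pool.Agent.P.MP_0f25e6_al.VT.Spec

/-!
Finiteness for the families with one extra point, through a lamp extension.
-/

set_option autoImplicit false

open MulAction

noncomputable section

namespace Pool.Agent.P.MP_0f25e6_al.VT

universe u

open Sys

namespace PFINP

variable {s s' : Sys.{u}} {V V' W : Type u} [AddCommGroup V] [Module s.D V] [AddCommGroup V']
  [Module s'.D V'] [MulAction s.Γ W] {𝓛 : s.Lamp s' W} (β : 𝓛.BC V V') (𝓕 : s.Fam V W)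

/-- The family on the edge set. -/
def Fp (x : 𝓛.W') : AddSubgroup V' :=
  AddSubgroup.closure
    {y | ∃ (g : s'.Γ) (w : W), ∃ v ∈ 𝓕.F w, g • 𝓛.sec w = x ∧ y = s'.ι g • β.f v}

theorem Fp_sec (w : W) : Fp β 𝓕 (𝓛.sec w) = (𝓕.F w).map β.f := by
  refine le_antisymm ((AddSubgroup.closure_le _).2 ?_) ?_
  · rintro _ ⟨g, w1, v, hv, hg, rfl⟩
    have h1 : 𝓛.p g • w1 = w := by
      have := congrArg 𝓛.q hg
      rwa [𝓛.q_smul, 𝓛.q_sec, 𝓛.q_sec] at this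
    have h2 : (𝓛.e (𝓛.p g))⁻¹ * g ∈ stabilizer s'.Γ (𝓛.sec w1) := by
      rw [mem_stabilizer_iff, mul_smul, hg, inv_smul_eq_iff, ← 𝓛.sec_smul, h1]
    rw [𝓛.stab] at h2
    obtain ⟨h, -, hh⟩ := h2
    have h3 : g = 𝓛.e (𝓛.p g * h) := by rw [map_mul, hh, mul_inv_cancel_left]
    obtain ⟨a, rfl⟩ : ∃ a, g = 𝓛.e a := ⟨_, h3⟩
    rw [𝓛.p_e] at h1
    exact ⟨s.ι a • v, h1 ▸ 𝓕.eqv a w1 v hv, by rw [β.f_smul, 𝓛.j_ι]⟩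
  · rintro _ ⟨v, hv, rfl⟩
    exact AddSubgroup.subset_closure ⟨1, w, v, hv, one_smul _ _, by rw [map_one, one_smul]⟩

theorem Fp_eqv (g : s'.Γ) (x : 𝓛.W') : ∀ v ∈ Fp β 𝓕 x, s'.ι g • v ∈ Fp β 𝓕 (g • x) :=
  fun _ hv => (AddSubgroup.closure_le
    ((Fp β 𝓕 (g • x)).comap (DistribSMul.toAddMonoidHom V' (s'.ι g)))).2 (by
      rintro _ ⟨a, w, v, hv, ha, rfl⟩
      change s'.ι g • s'.ι a • β.f v ∈ Fp β 𝓕 (g • x)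
      exact AddSubgroup.subset_closure
        ⟨g * a, w, v, hv, by rw [mul_smul, ha], by rw [map_mul, mul_smul]⟩) hv

theorem j_stab {w : W} {k : s.D} (hk : k ∈ s.fld (stabilizer s.Γ w)) :
    𝓛.j k ∈ s'.fld (stabilizer s'.Γ (𝓛.sec w)) := by
  rw [𝓛.stab, 𝓛.fld_map]
  exact ⟨k, hk, rfl⟩

theorem Fp_stab (x : 𝓛.W') : Stab (s'.fld (stabilizer s'.Γ x)) (Fp β 𝓕 x) := by
  intro κ hκ v hv
  obtain ⟨n, -, hn⟩ := 𝓛.surj x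
  have h0 : n⁻¹ • x = 𝓛.sec (𝓛.q x) := by rw [inv_smul_eq_iff, ← hn]
  have h1 := Fp_eqv β 𝓕 n⁻¹ x v hv
  have h2 := conj_stab n⁻¹ hκ
  rw [h0] at h1 h2
  rw [Fp_sec] at h1
  rw [𝓛.stab, 𝓛.fld_map, inv_inv] at h2
  obtain ⟨v0, hv0, e1⟩ := h1
  obtain ⟨k, hk, e2⟩ := h2
  have h3 : β.f (k • v0) ∈ Fp β 𝓕 (𝓛.sec (𝓛.q x)) := by
    rw [Fp_sec]
    exact ⟨_, 𝓕.stab _ k hk v0 hv0, rfl⟩
  have h4 := Fp_eqv β 𝓕 n _ _ h3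
  rw [← hn, β.f_smul, e1, e2, mul_smul, mul_smul, ι_smul_inv, ι_smul_inv] at h4
  exact h4

/-- The family on the edge set, bundled. -/
def F0 : s'.Fam0 V' 𝓛.W' := ⟨Fp β 𝓕, Fp_stab β 𝓕, Fp_eqv β 𝓕⟩

/-- The induced space. -/
def EE (hg : s'.Gen) : Submodule s'.D (s'.Ten 𝓛.W' V') where
  toAddSubmonoid := (s'.T ⊤ (Fp β 𝓕)).toAddSubmonoid
  smul_mem' d _ hx := smul_mem_T (hg d) hx

theorem EE_fin (hg : s'.Gen) : Module.Finite s'.D (EE β 𝓕 hg) := by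
  classical
  obtain ⟨t, ht⟩ := 𝓕.cof
  choose fd hfd using 𝓕.fd
  let S : Finset (s'.Ten 𝓛.W' V') :=
    t.biUnion fun w => (fd w).image fun v => s'.t (𝓛.sec w) (β.f v)
  have h1 : ∀ w ∈ t, ∀ v ∈ 𝓕.F w,
      s'.t (𝓛.sec w) (β.f v) ∈ Submodule.span s'.D (S : Set (s'.Ten 𝓛.W' V')) := by
    intro w hw v hv
    rw [hfd] at hv
    induction hv using Submodule.span_induction with
    | mem y hy =>
      exact Submodule.subset_span (Finset.mem_coe.2 (Finset.mem_biUnion.2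
        ⟨w, hw, Finset.mem_image_of_mem _ hy⟩))
    | zero => simp
    | add y z _ _ hy hz =>
      rw [map_add, map_add]
      exact add_mem hy hz
    | smul a y _ hy =>
      change s'.t (𝓛.sec w) (β.f ((a : s.D) • y)) ∈ _
      rw [β.f_smul, t_smul (j_stab a.2)]
      exact Submodule.smul_mem _ _ hy
  have h2 : EE β 𝓕 hg ≤ Submodule.span s'.D (S : Set (s'.Ten 𝓛.W' V')) := by
    intro ε hε
    refine T_le (M := (Submodule.span s'.D (S : Set (s'.Ten 𝓛.W' V'))).toAddSubgroup)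
      (fun d _ x z hz => ?_) hε
    refine Submodule.smul_mem _ d ?_
    obtain ⟨n, -, hn⟩ := 𝓛.surj x
    have h0 : n⁻¹ • x = 𝓛.sec (𝓛.q x) := by rw [inv_smul_eq_iff, ← hn]
    have h3 := Fp_eqv β 𝓕 n⁻¹ x z hz
    rw [h0, Fp_sec] at h3
    obtain ⟨v, hv, e1⟩ := h3
    rw [hn, t_act', ← e1]
    refine Submodule.smul_mem _ _ ?_
    by_cases h : 𝓕.F (𝓛.q x) = ⊥
    · rw [h] at hv
      rw [AddSubgroup.mem_bot.1 hv]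
      simp
    · obtain ⟨g, hg'⟩ := ht _ h
      have h4 := h1 _ hg' _ (𝓕.eqv g _ v hv)
      rw [𝓛.sec_smul, β.f_smul, 𝓛.j_ι, t_act] at h4
      rw [← ι_inv_smul (𝓛.e g) (s'.t (𝓛.sec (𝓛.q x)) (β.f v))]
      exact Submodule.smul_mem _ _ h4
  exact Submodule.finiteDimensional_of_le h2

theorem til_stab (A : Subgroup s.Γ) (P : AddSubgroup V) :
    Stab (s'.fld (A.comap 𝓛.p)) (β.til A P) := fun κ hκ _ hv =>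
  (AddSubgroup.closure_le ((β.til A P).comap (DistribSMul.toAddMonoidHom V' κ))).2 (by
    rintro _ ⟨a, ha, v, hv, rfl⟩
    change κ • a • β.f v ∈ β.til A P
    exact AddSubgroup.subset_closure ⟨κ * a, mul_mem hκ ha, v, hv, by rw [mul_smul]⟩) hv

theorem f_mem_til {A : Subgroup s.Γ} {P : AddSubgroup V} {v : V} (hv : v ∈ P) :
    β.f v ∈ β.til A P :=
  AddSubgroup.subset_closure ⟨1, one_mem _, v, hv, by rw [one_smul]⟩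

theorem mu_mem (k : ℕ) (A : Subgroup s.Γ) (P : AddSubgroup V) :
    ∀ ε ∈ s'.T (A.comap 𝓛.p) fun _ : 𝓛.W' => β.til A P, 𝓛.mu V' k ε ∈ β.til A P := fun _ hε =>
  T_le (M := (β.til A P).comap (𝓛.mu V' k).toAddMonoidHom) (fun d hd x z hz => by
    change 𝓛.mu V' k (d • s'.t x z) ∈ β.til A P
    rw [map_smul, 𝓛.mu_t]
    refine til_stab β A P d hd _ (til_stab β A P _ (ι_mem ?_) z hz)
    rw [Subgroup.mem_comap, 𝓛.p_x]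
    exact one_mem _) hε

variable {I : Type u}

/-- The preimages of the stabilisers. -/
abbrev Ap (𝓛 : s.Lamp s' W) (c : I → W) (i : I) : Subgroup s'.Γ :=
  (stabilizer s.Γ (c i)).comap 𝓛.p

/-- The extended subspaces. -/
abbrev Pp (c : I → W) (i : I) : AddSubgroup V' := β.til (stabilizer s.Γ (c i)) (𝓕.F (c i))

/-- The local families. -/
abbrev loc (c : I → W) (x : 𝓛.W') (S : Finset I) : AddSubgroup V' :=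
  Fp β 𝓕 x ⊓ ⨆ i ∈ S, Pp β 𝓕 c i

theorem stab_P (c : I → W) (S : Finset I) :
    Stab (s'.fld (⨅ i, Ap 𝓛 c i)) (⨆ i ∈ S, Pp β 𝓕 c i) :=
  stab_biSup fun i _ => (til_stab β _ _).mono (fld_mono (iInf_le _ i))

theorem indData (c : I → W) : IndData s' (⨅ i, Ap 𝓛 c i) (loc β 𝓕 c) where
  mono _ _ _ h := inf_le_inf_left _ (biSup_monotone _ h)
  stab x S := ((Fp_stab β 𝓕 x).mono (fld_mono inf_le_right)).inf
    ((stab_P β 𝓕 c S).mono (fld_mono inf_le_left))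
  eqv g hg x S v hv := ⟨Fp_eqv β 𝓕 g x v hv.1, stab_P β 𝓕 c S _ (ι_mem hg) v hv.2⟩

theorem ncard_le [Finite I] {Γ : Type u} [Group Γ] (A : I → Subgroup Γ) (c : I → W)
    (h : ∀ i, c i = 𝓕.star → A i = ⊤) : {i | A i ≠ ⊤}.ncard ≤ 𝓕.act c :=
  Set.ncard_le_ncard (fun i hi hc => hi (h i hc)) (Set.toFinite _)

theorem stab_star {w : W} (h : w = 𝓕.star) : stabilizer s.Γ w = ⊤ :=
  eq_top_iff.2 fun g _ => by
    rw [mem_stabilizer_iff, h]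
    exact 𝓕.star_fix g

theorem inf_stab (c : I → W) (w : W) :
    (⨅ i, Ap 𝓛 c i) ⊓ stabilizer s'.Γ (𝓛.sec w) = (stabilizer s.Γ (w, c)).map 𝓛.e := by
  rw [𝓛.stab, stab_prod, stab_pi]
  ext g
  constructor
  · rintro ⟨h1, a, ha, rfl⟩
    refine ⟨a, ⟨ha, Subgroup.mem_iInf.2 fun i => ?_⟩, rfl⟩
    have := Subgroup.mem_iInf.1 h1 i
    rwa [Subgroup.mem_comap, 𝓛.p_e] at this
  · rintro ⟨a, ⟨h1, h2⟩, rfl⟩
    refine ⟨Subgroup.mem_iInf.2 fun i => ?_, a, h1, rfl⟩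
    rw [Subgroup.mem_comap, 𝓛.p_e]
    exact Subgroup.mem_iInf.1 h2 i

theorem loc_sec [Finite I] {n : ℕ} (hRL : RL.{u} n) (hs : s.Gen) (hs' : s'.Good) (c : I → W)
    (hc : 𝓕.act c ≤ n) (w : W) (S : Finset I) :
    loc β 𝓕 c (𝓛.sec w) S = (𝓕.F w ⊓ 𝓕.sum c S).map β.f := by
  rw [loc, Fp_sec]
  refine le_antisymm ?_ ?_
  · rintro _ ⟨⟨v, hv, rfl⟩, h2⟩
    exact ⟨v, ⟨hv, hRL s s' W 𝓛 V V' β hs hs' I (fun i => stabilizer s.Γ (c i))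
      (fun i => 𝓕.F (c i)) ((ncard_le 𝓕 _ c fun i h => stab_star 𝓕 h).trans hc)
      (fun i => 𝓕.stab (c i)) S v h2⟩, rfl⟩
  · rintro _ ⟨v, ⟨h1, h2⟩, rfl⟩
    exact ⟨⟨v, h1, rfl⟩, (iSup₂_le (a := (⨆ i ∈ S, Pp β 𝓕 c i).comap β.f) fun i hi v hv =>
      (le_iSup₂_of_le (f := fun i (_ : i ∈ S) => Pp β 𝓕 c i) i hi le_rfl :
        _ ≤ ⨆ i ∈ S, Pp β 𝓕 c i) (f_mem_til β hv)) h2⟩

/-- The global family. -/
abbrev glo (c : I → W) (S : Finset I) : AddSubgroup (s'.Ten 𝓛.W' V') :=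
  s'.T ⊤ (Fp β 𝓕) ⊓ ⨆ i ∈ S, s'.T (Ap 𝓛 c i) fun _ : 𝓛.W' => Pp β 𝓕 c i

/-- The induced family. -/
abbrev ind (c : I → W) (S : Finset I) : AddSubgroup (s'.Ten 𝓛.W' V') :=
  s'.T (⨅ i, Ap 𝓛 c i) fun x => loc β 𝓕 c x S

theorem glo_ind [Fintype I] [DecidableEq I] {n : ℕ} (hI1 : S_IND1.{u}) (hQ : S_QIP.{u})
    (hSPL : SPL.{u} n) (hs' : s'.Good) (c : I → W) (hc : 𝓕.act c ≤ n) :
    (Tame (spF (s'.fld (⨅ i, Ap 𝓛 c i)) (ind β 𝓕 c)) ↔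
      Tame (spF (s'.fld (⨅ i, Ap 𝓛 c i)) (glo β 𝓕 c))) ∧
    (Acyc (spF (s'.fld (⨅ i, Ap 𝓛 c i)) (ind β 𝓕 c)) ↔
      Acyc (spF (s'.fld (⨅ i, Ap 𝓛 c i)) (glo β 𝓕 c))) := by
  have h0 : {i | Ap 𝓛 c i ≠ ⊤}.ncard ≤ n := (ncard_le 𝓕 (Ap 𝓛 c) c fun i h => by
    rw [Ap, stab_star 𝓕 h, Subgroup.comap_top]).trans hc
  have h1 : QIso (spF (s'.fld (⨅ i, Ap 𝓛 c i)) (ind β 𝓕 c))
      (spF (s'.fld (⨅ i, Ap 𝓛 c i)) (glo β 𝓕 c)) :=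
    hI1 s' V' 𝓛.W' I (Ap 𝓛 c) (F0 β 𝓕) (Pp β 𝓕 c) hs'.gen
      (hSPL s' hs' 𝓛.W' I (Ap 𝓛 c) h0) fun i => til_stab β _ _
  have m1 : Monotone (ind β 𝓕 c) := fun _ _ h =>
    T_mono le_rfl fun x => (indData β 𝓕 c).mono x h
  have m2 : Monotone (glo β 𝓕 c) := fun _ _ h => inf_le_inf_left _
    (biSup_monotone (fun i => s'.T (Ap 𝓛 c i) fun _ : 𝓛.W' => Pp β 𝓕 c i) h)
  have h2 := hQ (s'.fld (⨅ i, Ap 𝓛 c i)) (s'.Ten 𝓛.W' V') I _ _ (spF_mono _ m1) (spF_mono _ m2) h1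
  exact ⟨h2.1, h2.2.1⟩

theorem loc_Bp [Fintype I] [DecidableEq I] {n : ℕ} (hT : S_TR.{u}) (hRL : RL.{u} n) (hs : s.Gen)
    (hs' : s'.Good) (hf : Function.Injective β.f) (c : I → W) (hc : 𝓕.act c ≤ n) (w : W) :
    (Tame (𝓕.Bp (w, c)) ↔ Tame (spF (s'.fld ((⨅ i, Ap 𝓛 c i) ⊓ stabilizer s'.Γ (𝓛.sec w)))
      (loc β 𝓕 c (𝓛.sec w)))) ∧
    (Acyc (𝓕.Bp (w, c)) ↔ Acyc (spF (s'.fld ((⨅ i, Ap 𝓛 c i) ⊓ stabilizer s'.Γ (𝓛.sec w)))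
      (loc β 𝓕 c (𝓛.sec w)))) := by
  have h4 := hT s.D s'.D V V' I I 𝓛.j (s.fld (stabilizer s.Γ (w, c)))
    (s'.fld ((⨅ i, Ap 𝓛 c i) ⊓ stabilizer s'.Γ (𝓛.sec w))) β.f (Equiv.refl I)
    (fun S => 𝓕.F w ⊓ 𝓕.sum c S) (loc β 𝓕 c (𝓛.sec w)) (by rw [inf_stab, 𝓛.fld_map]) hf
    (fun d _ v => β.f_smul d v) (𝓕.stab_inf_sum (w, c)) fun S => by
      rw [Equiv.refl_toEmbedding, Finset.map_refl]
      exact loc_sec β 𝓕 hRL hs hs' c hc w S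
  exact ⟨h4.1, h4.2.1⟩

/-- From the global family to the families on `V`. -/
theorem down [Fintype I] [DecidableEq I] {n : ℕ} (hI1 : S_IND1.{u}) (hI2 : S_IND2.{u})
    (hQ : S_QIP.{u}) (hT : S_TR.{u}) (hSPL : SPL.{u} n) (hRL : RL.{u} n) (hs : s.Gen)
    (hs' : s'.Good) (hf : Function.Injective β.f) (c : I → W) (hc : 𝓕.act c ≤ n) :
    (Tame (spF (s'.fld (⨅ i, Ap 𝓛 c i)) (glo β 𝓕 c)) → (∀ w, Tame (𝓕.Bp (w, c))) ∧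
      ∃ t : Finset W, ∀ w, ¬Acyc (𝓕.Bp (w, c)) → ∃ a : s.Γ, a • c = c ∧ a • w ∈ t) ∧
    (Acyc (spF (s'.fld (⨅ i, Ap 𝓛 c i)) (glo β 𝓕 c)) → ∀ w, Acyc (𝓕.Bp (w, c))) := by
  have h2 := glo_ind β 𝓕 hI1 hQ hSPL hs' c hc
  have h3 := hI2 s' V' 𝓛.W' I (⨅ i, Ap 𝓛 c i) (loc β 𝓕 c) hs'.ldc (indData β 𝓕 c)
  have h4 := loc_Bp β 𝓕 hT hRL hs hs' hf c hc
  refine ⟨fun h => ?_, fun h w => (h4 w).2.2 (h3.2.1 (h2.2.2 h) (𝓛.sec w))⟩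
  obtain ⟨h5, t, ht⟩ := h3.1.1 (h2.1.2 h)
  classical
  refine ⟨fun w => (h4 w).1.2 (h5 (𝓛.sec w)), t.image 𝓛.q, fun w hw => ?_⟩
  obtain ⟨a, ha⟩ := ht (𝓛.sec w) fun h => hw ((h4 w).2.2 h)
  refine ⟨𝓛.p a, funext fun i => Subgroup.mem_iInf.1 a.2 i, Finset.mem_image.2 ⟨_, ha, ?_⟩⟩
  rw [Subgroup.smul_def, 𝓛.q_smul, 𝓛.q_sec]

/-- The maps through the lamps on the induced space. -/
def μμ (hg : s'.Gen) (i : ℕ) : EE β 𝓕 hg →ₗ[s'.D] V' := (𝓛.mu V' i).comp (EE β 𝓕 hg).subtype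

/-- From the family of preimages to the global family. -/
theorem up [DecidableEq I] [MulAction s'.Γ W] (hT : S_TR.{u}) (hg : s'.Gen)
    (hact : ∀ (g : s'.Γ) (w : W), g • w = 𝓛.p g • w) (𝓖 : s'.Fam V' W)
    (h𝓖 : ∀ w, 𝓖.F w = β.til (stabilizer s.Γ w) (𝓕.F w)) (𝒟 : ℕ → V' →+ s'.Ten 𝓛.W' V')
    (hD1 : ∀ ε, ∃ N, ∀ i, N ≤ i → 𝒟 i (𝓛.mu V' i ε) = ε)
    (hD2 : ∀ (i : ℕ) (A : Subgroup s.Γ) (P : AddSubgroup V), ∀ v ∈ β.til A P,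
      𝒟 i v ∈ s'.T (A.comap 𝓛.p) fun _ => β.til A P) (c : I → W) :
    (Tame (spF (s'.fld (stabilizer s'.Γ c)) (𝓖.bm (μμ β 𝓕 hg) {i | (i : ℕ∞) < ⊤} c)) ↔
      Tame (spF (s'.fld (⨅ i, Ap 𝓛 c i)) (glo β 𝓕 c))) ∧
    (Acyc (spF (s'.fld (stabilizer s'.Γ c)) (𝓖.bm (μμ β 𝓕 hg) {i | (i : ℕ∞) < ⊤} c)) ↔
      Acyc (spF (s'.fld (⨅ i, Ap 𝓛 c i)) (glo β 𝓕 c))) := by
  have hst : stabilizer s'.Γ c = ⨅ i, Ap 𝓛 c i := by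
    rw [stab_pi]
    refine iInf_congr fun i => ?_
    ext g
    rw [Subgroup.mem_comap, mem_stabilizer_iff, mem_stabilizer_iff, hact]
  have hsum : ∀ S, 𝓖.sum c S = ⨆ i ∈ S, Pp β 𝓕 c i := fun S => by
    simp only [Fam.sum, h𝓖]
  have hmem : ∀ S (ε : EE β 𝓕 hg), ε ∈ 𝓖.bm (μμ β 𝓕 hg) {i | (i : ℕ∞) < ⊤} c S ↔
      ∀ i, 𝓛.mu V' i ε ∈ 𝓖.sum c S := fun S ε => by
    simp only [Fam.bm, AddSubgroup.mem_iInf, Set.mem_ofPred_eq, ENat.natCast_lt_top, forall_const,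
      AddSubgroup.mem_comap]
    rfl
  have h := hT s'.D s'.D (EE β 𝓕 hg) (s'.Ten 𝓛.W' V') I I (RingHom.id _)
    (s'.fld (stabilizer s'.Γ c)) (s'.fld (⨅ i, Ap 𝓛 c i)) (EE β 𝓕 hg).subtype.toAddMonoidHom
    (Equiv.refl I) (𝓖.bm (μμ β 𝓕 hg) {i | (i : ℕ∞) < ⊤} c) (glo β 𝓕 c)
    (by
      rw [hst]
      ext d
      simp) Subtype.val_injective (fun _ _ _ => rfl)
    (fun S κ hκ ε hε => (hmem S _).2 fun i => by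
      rw [Submodule.coe_smul, map_smul]
      exact 𝓖.stab_sum c S κ hκ _ ((hmem S ε).1 hε i)) fun S => by
      rw [Equiv.refl_toEmbedding, Finset.map_refl]
      refine le_antisymm ?_ ?_
      · rintro ε ⟨h1, h2⟩
        refine ⟨⟨ε, h1⟩, (hmem S _).2 fun k => ?_, rfl⟩
        rw [hsum]
        exact (iSup₂_le (a := (⨆ i ∈ S, Pp β 𝓕 c i).comap (𝓛.mu V' k).toAddMonoidHom)
          fun i hi v hv => (le_iSup₂_of_le (f := fun i (_ : i ∈ S) => Pp β 𝓕 c i) i hi le_rfl :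
            _ ≤ ⨆ i ∈ S, Pp β 𝓕 c i) (mu_mem β k _ _ v hv)) h2
      · rintro _ ⟨ε, hε, rfl⟩
        refine ⟨ε.2, ?_⟩
        obtain ⟨N, hN⟩ := hD1 ε
        have h3 := (hmem S ε).1 hε N
        rw [hsum] at h3
        have h4 := (iSup₂_le (a := (⨆ i ∈ S,
            s'.T (Ap 𝓛 c i) fun _ : 𝓛.W' => Pp β 𝓕 c i).comap (𝒟 N))
          fun i hi v hv => (le_iSup₂_of_le (f := fun i (_ : i ∈ S) =>
            s'.T (Ap 𝓛 c i) fun _ : 𝓛.W' => Pp β 𝓕 c i) i hi le_rfl :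
            _ ≤ ⨆ i ∈ S, s'.T (Ap 𝓛 c i) fun _ : 𝓛.W' => Pp β 𝓕 c i) (hD2 N _ _ v hv)) h3
        rw [AddSubgroup.mem_comap, hN N le_rfl] at h4
        exact h4
  exact ⟨h.1, h.2.1⟩

end PFINP

open PFINP in
theorem p_finp (hF : S_FAMS.{u}) (hK : S_KEY.{u}) (hB : S_BC.{u}) (hI1 : S_IND1.{u})
    (hI2 : S_IND2.{u}) (hQ : S_QIP.{u}) (hT : S_TR.{u}) (hV : S_INV.{u}) : S_FINP.{u} := by
  intro n hBM hSPL hRL s hs V W _ _ _ _ 𝓕 I _ _ _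
  classical
  obtain ⟨s', hs', ⟨𝓛⟩⟩ := hs.lamp W
  obtain ⟨m, ⟨β⟩⟩ := (hB s s' W 𝓛).1 V
  have hf := (hB s s' W 𝓛).2.2 V _ β
  let _ : MulAction s'.Γ W := MulAction.compHom W 𝓛.p
  have hact : ∀ (g : s'.Γ) (w : W), g • w = 𝓛.p g • w := fun _ _ => rfl
  obtain ⟨𝓖, hstar, h𝓖⟩ := hF.2.2 s s' W 𝓛 V _ W β 𝓕 hs'.gen hact
  obtain ⟨𝒟, hD1, hD2⟩ := hK s s' W 𝓛 V _ β hs'.gen
  have hE := EE_fin β 𝓕 hs'.gen
  have hact' : ∀ c : I → W, 𝓖.act c = 𝓕.act c := fun c => by rw [Fam.act, Fam.act, hstar]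
  obtain ⟨h1, t, ht⟩ := hBM s' hs' _ W (EE β 𝓕 hs'.gen) 𝓖 (μμ β 𝓕 hs'.gen) (fun ε hε => by
    obtain ⟨N, hN⟩ := hD1 ε
    have h2 : 𝓛.mu (Fin m → s'.D) N (ε : s'.Ten 𝓛.W' (Fin m → s'.D)) = 0 :=
      hε N (ENat.natCast_lt_top N)
    have h3 := hN N le_rfl
    rw [h2, map_zero] at h3
    exact Subtype.ext h3.symm) I
  have hu := fun c : I → W => up β 𝓕 hT hs'.gen hact 𝓖 h𝓖 𝒟 hD1 hD2 c
  have hd := fun (c : I → W) (hc : 𝓕.act c ≤ n) =>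
    down β 𝓕 hI1 hI2 hQ hT hSPL hRL hs.gen hs' hf c hc
  have h2 := fun (c : I → W) (hc : 𝓕.act c ≤ n) =>
    (hd c hc).1 ((hu c).1.1 (h1 c ((hact' c).le.trans hc)))
  refine ⟨fun p hp => (h2 p.2 hp).1 p.1, ?_⟩
  have h3 : ∀ c : I → W, ∃ t : Finset W, 𝓕.act c ≤ n →
      ∀ w, ¬Acyc (𝓕.Bp (w, c)) → ∃ a : s.Γ, a • c = c ∧ a • w ∈ t := fun c => by
    by_cases hc : 𝓕.act c ≤ n
    · obtain ⟨t, ht⟩ := (h2 c hc).2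
      exact ⟨t, fun _ => ht⟩
    · exact ⟨∅, fun h => absurd h hc⟩
  choose tt htt using h3
  refine ⟨t.biUnion fun c => (tt c).image fun w => (w, c), ?_⟩
  rintro ⟨w, c⟩ ⟨hc, hw⟩
  obtain ⟨g, hg⟩ := ht c ⟨(hact' c).le.trans hc, fun h => hw ((hd c hc).2 ((hu c).2.1 h) w)⟩
  have e : g • c = 𝓛.p g • c := rfl
  rw [e] at hg
  obtain ⟨a, ha1, ha2⟩ := htt (𝓛.p g • c) ((𝓕.act_smul _ c).le.trans hc) (𝓛.p g • w)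
    fun h => hw (((hV s V W I 𝓕 (𝓛.p g)).2 (w, c)).2.1.1 h)
  refine ⟨a * 𝓛.p g, Finset.mem_biUnion.2 ⟨_, hg, Finset.mem_image.2 ⟨_, ha2, ?_⟩⟩⟩
  rw [mul_smul, Prod.smul_mk, Prod.smul_mk, ha1]

end Pool.Agent.P.MP_0f25e6_al.VT
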