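import Pool.Agent.P.MP_0f25e6_al.VT.Spec

/-!
Reduction of an induced family to the common subgroup, through an adapted basis.
-/

set_option autoImplicit false

open MulAction

noncomputable section

namespace Pool.Agent.P.MP_0f25e6_al.VT

universe u

open Sys

namespace IND1

variable {s : Sys.{u}} {V W I : Type u} [AddCommGroup V] [Module s.D V] [MulAction s.Γ W]

theorem coord_form {w₀ : W} (C : s.Coord w₀) (x : W) (d : s.D) :
    C.c x d = 0 ∨ ∃ g : s.Γ, g • w₀ = x ∧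
      ∃ κ ∈ s.fld (stabilizer s.Γ w₀), C.c x d = κ * s.ι g⁻¹ := by
  by_cases h : ∃ g : s.Γ, g • w₀ = x
  · obtain ⟨g, rfl⟩ := h
    refine Or.inr ⟨g, rfl, _, C.val (d * s.ι g), ?_⟩
    rw [C.eqv, mul_assoc, ι_mul_inv, mul_one]
  · exact Or.inl (C.zero x d fun g hg => h ⟨g, hg⟩)

theorem t_coord {w₀ : W} (C : s.Coord w₀) (x : W) (d : s.D) (v : V) :
    s.t w₀ (C.c x d • v) = C.c x d • s.t x v := by
  rcases coord_form C x d with h | ⟨g, rfl, κ, hκ, h⟩
  · rw [h, zero_smul, zero_smul, map_zero]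
  · rw [h, mul_smul, t_smul hκ, t_act', mul_smul, ι_inv_smul]

variable {A : I → Subgroup s.Γ} (σ : s.Spl W A)

/-- The term of the expansion attached to a basis element. -/
def tb (β : σ.B) : V →+ s.Ten W V :=
  (DistribSMul.toAddMonoidHom _ (σ.a β)).comp (s.t (σ.w β))

theorem tb_apply (β : σ.B) (v : V) : tb σ β v = σ.a β • s.t (σ.w β) v := rfl

theorem expand (ε : s.Ten W V) : ∃ B0 : Finset σ.B, (∀ β, β ∉ B0 → (σ.C β).Λ V ε = 0) ∧
    ε = ∑ β ∈ B0, tb σ β ((σ.C β).Λ V ε) := by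
  classical
  refine Ten.ind (P := fun ε => ∃ B0 : Finset σ.B, (∀ β, β ∉ B0 → (σ.C β).Λ V ε = 0) ∧
    ε = ∑ β ∈ B0, tb σ β ((σ.C β).Λ V ε)) ⟨∅, fun β _ => map_zero _, by simp⟩ ?_ ?_ ε
  · rintro x y ⟨B1, h1, e1⟩ ⟨B2, h2, e2⟩
    refine ⟨B1 ∪ B2, fun β hβ => ?_, ?_⟩
    · rw [Finset.mem_union, not_or] at hβ
      rw [map_add, h1 β hβ.1, h2 β hβ.2, add_zero]
    · simp only [map_add, Finset.sum_add_distrib]
      rw [← Finset.sum_subset Finset.subset_union_left fun β _ hβ => by rw [h1 β hβ, map_zero],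
        ← Finset.sum_subset Finset.subset_union_right fun β _ hβ => by rw [h2 β hβ, map_zero],
        ← e1, ← e2]
  · intro d x v
    refine ⟨(σ.fin x d).toFinset, fun β hβ => ?_, ?_⟩
    · have h0 : (σ.C β).c x d = 0 := by
        by_contra h
        exact hβ ((σ.fin x d).mem_toFinset.2 h)
      rw [Coord.Λ_t, h0, zero_smul]
    · have h1 : ∑ β ∈ (σ.fin x d).toFinset, σ.a β * (σ.C β).c x d = d := by
        rw [← finsum_eq_sum_of_support_subset, σ.sum]
        intro β hβ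
        refine Finset.mem_coe.2 ((σ.fin x d).mem_toFinset.2 fun h => hβ ?_)
        simp only [h, mul_zero]
      conv_lhs => rw [← h1, Finset.sum_smul]
      refine Finset.sum_congr rfl fun β _ => ?_
      rw [Coord.Λ_t, tb_apply, t_coord, mul_smul]

theorem mem_of_terms {M : AddSubgroup (s.Ten W V)} {ε : s.Ten W V}
    (h : ∀ β, tb σ β ((σ.C β).Λ V ε) ∈ M) : ε ∈ M := by
  obtain ⟨B0, -, e⟩ := expand σ ε
  rw [e]
  exact sum_mem fun β _ => h β

theorem lam_F (F : s.Fam0 V W) (β : σ.B) {ε : s.Ten W V} (h : ε ∈ s.T ⊤ F.F) :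
    (σ.C β).Λ V ε ∈ F.F (σ.w β) :=
  T_le (M := (F.F (σ.w β)).comap ((σ.C β).Λ V)) (fun d _ x z hz => by
    change (σ.C β).Λ V _ ∈ F.F (σ.w β)
    rw [Coord.Λ_t]
    rcases coord_form (σ.C β) x d with h | ⟨g, rfl, κ, hκ, h⟩
    · rw [h, zero_smul]
      exact zero_mem _
    · rw [h, mul_smul]
      have h1 := F.eqv g⁻¹ _ z hz
      rw [inv_smul_smul] at h1
      exact F.stab _ κ hκ _ h1) h

theorem lam_T (T : Finset I) (β : σ.B) (hβ : ¬T ⊆ σ.U β) {ε : s.Ten W V}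
    (h : ε ∈ s.T (⨅ i ∈ T, A i) fun _ : W => (⊤ : AddSubgroup V)) : (σ.C β).Λ V ε = 0 :=
  T_le (M := ((σ.C β).Λ V).ker) (fun d hd x z _ => by
    change (σ.C β).Λ V _ = 0
    have h0 : (σ.C β).c x d = 0 := by
      by_contra h0
      exact hβ (σ.ctl T x β d hd h0).1
    rw [Coord.Λ_t, h0, zero_smul]) h

variable [DecidableEq I] {P : I → AddSubgroup V}

theorem lam_P (hP : ∀ i, Stab (s.fld (A i)) (P i)) (S : Finset I) (β : σ.B) {ε : s.Ten W V}
    (h : ε ∈ ⨆ i ∈ S, s.T (A i) fun _ : W => P i) :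
    (σ.C β).Λ V ε ∈ ⨆ i ∈ S ∩ σ.U β, P i :=
  (iSup₂_le (a := (⨆ i ∈ S ∩ σ.U β, P i).comap ((σ.C β).Λ V)) fun i hi =>
    T_le fun d hd x z hz => by
      change (σ.C β).Λ V _ ∈ ⨆ i ∈ S ∩ σ.U β, P i
      rw [Coord.Λ_t]
      by_cases h0 : (σ.C β).c x d = 0
      · rw [h0, zero_smul]
        exact zero_mem _
      · have e : (⨅ j ∈ ({i} : Finset I), A j) = A i := by simp
        have h1 := σ.ctl {i} x β d (by rwa [e]) h0
        rw [e] at h1
        have h2 : i ∈ S ∩ σ.U β := Finset.mem_inter.2 ⟨hi, Finset.singleton_subset_iff.1 h1.1⟩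
        exact (le_iSup₂_of_le (f := fun i (_ : i ∈ S ∩ σ.U β) => P i) i h2 le_rfl)
          (hP i _ h1.2 z hz)) h

theorem tb_P (S : Finset I) (β : σ.B) {v : V} (h : v ∈ ⨆ i ∈ S ∩ σ.U β, P i) :
    tb σ β v ∈ ⨆ i ∈ S, s.T (A i) fun _ : W => P i :=
  (iSup₂_le (a := (⨆ i ∈ S, s.T (A i) fun _ : W => P i).comap (tb σ β)) fun i hi z hz =>
    (le_iSup₂_of_le (f := fun i (_ : i ∈ S) => s.T (A i) fun _ : W => P i) i
      (Finset.mem_inter.1 hi).1 le_rfl)
      (mem_T (fld_mono (iInf₂_le i (Finset.mem_inter.1 hi).2) (σ.a_mem β)) hz)) h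

variable (A P) in
/-- The intermediate families. -/
def Gm (F : s.Fam0 V W) (T S : Finset I) : AddSubgroup (s.Ten W V) :=
  (s.T ⊤ F.F ⊓ ⨆ i ∈ S, s.T (A i) fun _ : W => P i) ⊓
    s.T (⨅ i ∈ T, A i) fun _ : W => (⊤ : AddSubgroup V)

theorem Gm_mono (F : s.Fam0 V W) (T : Finset I) : Monotone (Gm A P F T) := fun _ _ h =>
  inf_le_inf_right _ (inf_le_inf_left _ (biSup_mono fun _ hi => h hi))

theorem Gm_stab (F : s.Fam0 V W) (T S : Finset I) : Stab (s.fld (⨅ i, A i)) (Gm A P F T S) :=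
  (((stab_T ⊤ F.F).mono (fld_mono le_top)).inf
    (stab_biSup fun i _ => (stab_T (A i) _).mono (fld_mono (iInf_le _ i)))).inf
    ((stab_T _ _).mono (fld_mono (le_iInf₂ fun i _ => iInf_le _ i)))

theorem Gm_anti (F : s.Fam0 V W) {T T' : Finset I} (h : T ⊆ T') (S : Finset I) :
    Gm A P F T' S ≤ Gm A P F T S :=
  inf_le_inf_left _ (T_mono (le_iInf₂ fun i hi => iInf₂_le i (h hi)) fun _ => le_rfl)

theorem tb_Gm (hs : s.Gen) (F : s.Fam0 V W) {T S : Finset I} (β : σ.B) {v : V}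
    (h1 : v ∈ F.F (σ.w β)) (h2 : v ∈ ⨆ i ∈ S ∩ σ.U β, P i) (h3 : T ⊆ σ.U β) :
    tb σ β v ∈ Gm A P F T S :=
  ⟨⟨mem_T (hs _) h1, tb_P σ S β h2⟩,
    mem_T (fld_mono (le_iInf₂ fun i hi => iInf₂_le i (h3 hi)) (σ.a_mem β)) (AddSubgroup.mem_top v)⟩

include σ in
theorem step (hQ : S_QI.{u}) (hs : s.Gen) (F : s.Fam0 V W) (hP : ∀ i, Stab (s.fld (A i)) (P i))
    (T : Finset I) (k : I) :
    QIso (spF (s.fld (⨅ i, A i)) (Gm A P F (insert k T))) (spF (s.fld (⨅ i, A i)) (Gm A P F T)) := by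
  refine hQ _ _ _ _ _ k (spF_mono _ (Gm_mono F _)) (spF_mono _ (Gm_mono F _))
    (fun S => Submodule.span_mono (Gm_anti F (Finset.subset_insert k T) S)) ?_ ?_ ?_
  · refine eq_bot_iff.2 fun ε hε => ?_
    have h1 := ((mem_spF (Gm_stab F T ∅)).1 hε).1.2
    simpa using h1
  · intro S ε hε
    have h1 := (mem_spF (Gm_stab F T (insert k S))).1 hε
    refine mem_of_terms σ (M := (spF (s.fld (⨅ i, A i)) (Gm A P F T) S ⊔
      spF (s.fld (⨅ i, A i)) (Gm A P F (insert k T)) (insert k S)).toAddSubgroup) fun β => ?_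
    by_cases hT : T ⊆ σ.U β
    · have h2 := lam_F σ F β h1.1.1
      have h3 := lam_P σ hP _ β h1.1.2
      by_cases hk : k ∈ σ.U β
      · exact Submodule.mem_sup_right (Submodule.subset_span
          (tb_Gm σ hs F β h2 h3 (Finset.insert_subset hk hT)))
      · rw [Finset.insert_inter_of_notMem hk] at h3
        exact Submodule.mem_sup_left (Submodule.subset_span (tb_Gm σ hs F β h2 h3 hT))
    · rw [lam_T σ T β hT h1.2, map_zero]
      exact zero_mem _
  · intro S ε hε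
    have h1 := (mem_spF (Gm_stab F T S)).1 hε.1
    have h2 := (mem_spF (Gm_stab F (insert k T) (insert k S))).1 hε.2
    exact Submodule.subset_span (show ε ∈ Gm A P F (insert k T) S from ⟨h1.1, h2.2⟩)

theorem Gm_empty (hs : s.Gen) (F : s.Fam0 V W) (S : Finset I) :
    Gm A P F ∅ S = s.T ⊤ F.F ⊓ ⨆ i ∈ S, s.T (A i) fun _ : W => P i := by
  refine inf_eq_left.2 (inf_le_left.trans (T_mono ?_ fun _ => le_top))
  simp

include σ in
theorem Gm_univ [Fintype I] (F : s.Fam0 V W) (hP : ∀ i, Stab (s.fld (A i)) (P i)) (S : Finset I) :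
    Gm A P F Finset.univ S = s.T (⨅ i, A i) fun w => F.F w ⊓ ⨆ i ∈ S, P i := by
  refine le_antisymm (fun ε hε => mem_of_terms σ fun β => ?_) (le_inf (le_inf ?_ ?_) ?_)
  · by_cases hT : Finset.univ ⊆ σ.U β
    · refine mem_T (fld_mono (le_iInf fun i => iInf₂_le i (hT (Finset.mem_univ i))) (σ.a_mem β))
        ⟨lam_F σ F β hε.1.1, ?_⟩
      exact biSup_monotone P Finset.inter_subset_left (lam_P σ hP S β hε.1.2)
    · rw [lam_T σ _ β hT hε.2, map_zero]
      exact zero_mem _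
  · exact T_mono le_top fun _ => inf_le_left
  · refine T_le fun d hd w z hz => ?_
    exact (iSup₂_le (a := (⨆ i ∈ S, s.T (A i) fun _ : W => P i).comap
      ((DistribSMul.toAddMonoidHom _ d).comp (s.t w))) fun i hi y hy =>
      (le_iSup₂_of_le (f := fun i (_ : i ∈ S) => s.T (A i) fun _ : W => P i) i hi le_rfl)
        (mem_T (fld_mono (iInf_le _ i) hd) hy)) hz.2
  · exact T_mono (le_iInf₂ fun i _ => iInf_le _ i) fun _ => le_top

end IND1

open IND1

theorem p_ind1 (hQ : S_QI.{u}) (hP : S_QIP.{u}) : S_IND1.{u} := by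
  intro s V W I _ _ _ _ _ A F P hs hσ hst
  obtain ⟨σ⟩ := hσ
  have key : ∀ T : Finset I, QIso (spF (s.fld (⨅ i, A i)) (Gm A P F T))
      (spF (s.fld (⨅ i, A i)) (Gm A P F ∅)) := by
    intro T
    induction T using Finset.induction_on with
    | empty => exact ⟨le_rfl, fun n => ⟨le_sup_left, inf_le_right⟩⟩
    | insert k T _ ih =>
      exact (hP _ _ _ _ _ (spF_mono _ (Gm_mono F _)) (spF_mono _ (Gm_mono F _)) ih).2.2.2 _
        (step σ hQ hs F hst T k)
  have h := key Finset.univ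
  rwa [funext (Gm_univ σ F hst), funext (Gm_empty (A := A) (P := P) hs F)] at h

end Pool.Agent.P.MP_0f25e6_al.VT
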