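import Pool.Agent.P.MP_0f25e6_al.VT.Spec

/-!
Right bases and right linear forms over a subfield of a division ring.
-/

set_option autoImplicit false

noncomputable section

namespace Pool.Agent.P.MP_0f25e6_al.VT

universe u

namespace RB

variable {D : Type u} [DivisionRing D]

/-- `D` as a right vector space over the subfield `L`. -/
def RD (_L : Subfield D) : Type u := D

instance (L : Subfield D) : AddCommGroup (RD L) := inferInstanceAs (AddCommGroup D)

instance (L : Subfield D) : Module (↥L)ᵐᵒᵖ (RD L) :=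
  Module.compHom D (RingHom.op L.subtype : (↥L)ᵐᵒᵖ →+* Dᵐᵒᵖ)

/-- The identity map into the right vector space. -/
def toR (L : Subfield D) : D ≃+ RD L := AddEquiv.refl D

theorem smul_toR (L : Subfield D) (κ : (↥L)ᵐᵒᵖ) (d : D) :
    κ • toR L d = toR L (d * (κ.unop : D)) := rfl

/-- The additive map given by a linear form. -/
def form (L : Subfield D) (f : RD L →ₗ[(↥L)ᵐᵒᵖ] (↥L)ᵐᵒᵖ) : D →+ D where
  toFun d := ((f (toR L d)).unop : D)
  map_zero' := by simp
  map_add' x y := by simp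

theorem form_apply (L : Subfield D) (f : RD L →ₗ[(↥L)ᵐᵒᵖ] (↥L)ᵐᵒᵖ) (d : D) :
    form L f d = ((f (toR L d)).unop : D) := rfl

theorem form_mem (L : Subfield D) (f : RD L →ₗ[(↥L)ᵐᵒᵖ] (↥L)ᵐᵒᵖ) (d : D) : form L f d ∈ L :=
  (f (toR L d)).unop.2

theorem form_mul (L : Subfield D) (f : RD L →ₗ[(↥L)ᵐᵒᵖ] (↥L)ᵐᵒᵖ) (d κ : D) (hκ : κ ∈ L) :
    form L f (d * κ) = form L f d * κ := by
  have h : toR L (d * κ) = (MulOpposite.op (⟨κ, hκ⟩ : L)) • toR L d := rfl
  rw [form_apply, form_apply, h, map_smul, smul_eq_mul, MulOpposite.unop_mul]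
  simp

/-- A right stable additive subgroup as a subspace. -/
def sub (L : Subfield D) (Y : AddSubgroup D) (hY : ∀ y ∈ Y, ∀ κ ∈ L, y * κ ∈ Y) :
    Submodule (↥L)ᵐᵒᵖ (RD L) where
  carrier := {x | (toR L).symm x ∈ Y}
  add_mem' := fun ha hb => Y.add_mem ha hb
  zero_mem' := Y.zero_mem
  smul_mem' := fun κ _ hx => hY _ hx _ κ.unop.2

theorem mem_sub (L : Subfield D) (Y : AddSubgroup D) (hY : ∀ y ∈ Y, ∀ κ ∈ L, y * κ ∈ Y) (d : D) :
    toR L d ∈ sub L Y hY ↔ d ∈ Y := Iff.rfl

end RB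

open RB

theorem p_rext : S_REXT.{u} := by
  intro D J _ L p q hq h
  classical
  let φ : (J →₀ (↥L)ᵐᵒᵖ) →ₗ[(↥L)ᵐᵒᵖ] RD L :=
    Finsupp.linearCombination (↥L)ᵐᵒᵖ fun j => toR L (p j)
  let ψ : (J →₀ (↥L)ᵐᵒᵖ) →ₗ[(↥L)ᵐᵒᵖ] (↥L)ᵐᵒᵖ :=
    Finsupp.linearCombination (↥L)ᵐᵒᵖ fun j => MulOpposite.op (⟨q j, hq j⟩ : L)
  have hk : LinearMap.ker φ ≤ LinearMap.ker ψ := by
    intro c hc
    rw [LinearMap.mem_ker] at hc ⊢
    have h1 : ∑ j ∈ c.support, p j * ((c j).unop : D) = 0 := by
      apply (toR L).injective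
      rw [map_sum, map_zero, ← hc]
      simp only [φ, Finsupp.linearCombination_apply, Finsupp.sum, smul_toR]
    have h2 := h c.support (fun j => ((c j).unop : D)) (fun j => (c j).unop.2) h1
    apply MulOpposite.unop_injective
    apply Subtype.ext
    simp only [ψ, Finsupp.linearCombination_apply, Finsupp.sum, smul_eq_mul,
      Finset.unop_sum, MulOpposite.unop_mul, MulOpposite.unop_op]
    simpa using h2
  obtain ⟨g, hg⟩ := LinearMap.exists_extend
    (((LinearMap.ker φ).liftQ ψ hk).comp φ.quotKerEquivRange.symm.toLinearMap)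
  refine ⟨form L g, form_mem L g, form_mul L g, fun j => ?_⟩
  have h1 : φ (Finsupp.single j 1) = toR L (p j) := by simp [φ]
  have h2 := LinearMap.congr_fun hg ⟨φ (Finsupp.single j 1), LinearMap.mem_range_self _ _⟩
  simp only [LinearMap.comp_apply, Submodule.subtype_apply, LinearEquiv.coe_coe,
    LinearMap.quotKerEquivRange_symm_apply_image, Submodule.mkQ_apply,
    Submodule.liftQ_apply] at h2
  rw [form_apply, ← h1, h2]
  simp [ψ]

theorem p_rb : S_RB.{u} := by
  intro D _ L Y M _ hY hM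
  classical
  let π := (sub L Y hY).mkQ
  let N := (sub L M hM).map π
  let b := Module.Basis.ofVectorSpace (↥L)ᵐᵒᵖ N
  have ha : ∀ j, ∃ a : D, a ∈ M ∧ π (toR L a) = (b j : N) := by
    intro j
    obtain ⟨x, hx, hx'⟩ := (b j).2
    exact ⟨(toR L).symm x, hx, hx'⟩
  choose a haM ha using ha
  have hg : ∀ j, ∃ g : (RD L ⧸ sub L Y hY) →ₗ[(↥L)ᵐᵒᵖ] (↥L)ᵐᵒᵖ,
      g.comp N.subtype = b.coord j := fun j => LinearMap.exists_extend _
  choose g hg using hg
  have hgN : ∀ j (x : N), g j x = b.repr x j := fun j x => LinearMap.congr_fun (hg j) x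
  refine ⟨_, a, fun j => form L ((g j).comp π), haM, fun j => form_mem L _,
    fun j => form_mul L _, fun j => ?_, fun j j' hj => ?_, fun j y hy => ?_, fun d hd => ?_⟩
  · rw [form_apply, LinearMap.comp_apply, ha, hgN]
    simp
  · rw [form_apply, LinearMap.comp_apply, ha, hgN, b.repr_self, Finsupp.single_eq_of_ne' hj]
    simp
  · have h0 : π (toR L y) = 0 := (Submodule.Quotient.mk_eq_zero _).2 ((mem_sub L Y hY y).2 hy)
    rw [form_apply, LinearMap.comp_apply, h0, map_zero]
    simp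
  · let x : N := ⟨π (toR L d), Submodule.mem_map_of_mem ((mem_sub L M hM d).2 hd)⟩
    have hx : ∀ j, form L ((g j).comp π) d = ((b.repr x j).unop : D) := by
      intro j
      rw [form_apply, LinearMap.comp_apply, ← hgN]
    have hs : ∀ j, form L ((g j).comp π) d ≠ 0 → j ∈ (b.repr x).support := by
      intro j hj
      rw [Finsupp.mem_support_iff]
      intro h0
      apply hj
      rw [hx, h0]
      simp
    refine ⟨(b.repr x).support.finite_toSet.subset fun j hj => hs j hj, ?_⟩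
    rw [finsum_eq_sum_of_support_subset (s := (b.repr x).support) _
      (fun j hj => hs j (fun h0 => hj (by simp only [h0, mul_zero])))]
    rw [← mem_sub L Y hY, ← Submodule.Quotient.mk_eq_zero]
    change π _ = 0
    rw [map_sub, map_sum, map_sub, map_sum, sub_eq_zero]
    have h1 : (x : RD L ⧸ sub L Y hY) =
        ∑ j ∈ (b.repr x).support, b.repr x j • ((b j : N) : RD L ⧸ sub L Y hY) := by
      conv_lhs => rw [← b.linearCombination_repr x]
      rw [Finsupp.linearCombination_apply, Finsupp.sum, Submodule.coe_sum]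
      rfl
    refine h1.trans (Finset.sum_congr rfl fun j _ => ?_)
    rw [hx, ← smul_toR, map_smul, ha]

end Pool.Agent.P.MP_0f25e6_al.VT
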