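import Pool.Agent.P.MP_0f25e6_al.VT.PSESb

/-!
Finiteness and vanishing of cohomology pass to the kernel in short exact sequences of families.
-/

set_option autoImplicit false

open MulAction

noncomputable section

namespace Pool.Agent.P.MP_0f25e6_al.VT

universe u

open Sys

namespace PSESa

open PSESb

variable {L E' E E'' I : Type u} [DivisionRing L] [AddCommGroup E'] [Module L E'] [AddCommGroup E]
  [Module L E] [AddCommGroup E''] [Module L E'']
  [DecidableEq I] {f : E' →ₗ[L] E} {g : E →ₗ[L] E''} {B' : Finset I → Submodule L E'}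
  {B : Finset I → Submodule L E} {B'' : Finset I → Submodule L E''} (s : Ses f g B' B B'')

include s

theorem connE (n : ℕ) : Nonempty ((Hn B'' n ⧸ LinearMap.range (hm (gC s) n)) ≃ₗ[L]
    LinearMap.ker (hm (fC s) (n + 1))) := by
  let M : Submodule L (Cn B n × Zn B' (n + 1)) := LinearMap.eqLocus
    (dd L n ∘ₗ (Cn B n).subtype ∘ₗ LinearMap.fst L _ _)
    (cm I f (n + 1) ∘ₗ (Zn B' (n + 1)).subtype ∘ₗ LinearMap.snd L _ _)
  have hM : ∀ m : Cn B n × Zn B' (n + 1), m ∈ M ↔ dd L n m.1 = cm I f (n + 1) m.2 :=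
    fun _ => Iff.rfl
  have hz : ∀ m : M, cm I g n m.1.1 ∈ Zn B'' n := fun m =>
    mem_Zn.2 ⟨gC s n _ m.1.1.2, by rw [dd_cm, (hM _).1 m.2, gf s m.1.2.2.1]⟩
  let p : M →ₗ[L] Hn B'' n ⧸ LinearMap.range (hm (gC s) n) :=
    Submodule.mkQ _ ∘ₗ Submodule.mkQ _ ∘ₗ LinearMap.codRestrict (Zn B'' n)
      (cm I g n ∘ₗ (Cn B n).subtype ∘ₗ LinearMap.fst L _ _ ∘ₗ M.subtype) hz
  let q : M →ₗ[L] Hn B' (n + 1) := Submodule.mkQ _ ∘ₗ LinearMap.snd L _ _ ∘ₗ M.subtype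
  have hp : ∀ m, p m = Submodule.Quotient.mk (Submodule.Quotient.mk ⟨_, hz m⟩) := fun _ => rfl
  have hq : ∀ m, q m = Submodule.Quotient.mk m.1.2 := fun _ => rfl
  have p1 : Function.Surjective p := fun x => by
    obtain ⟨x, rfl⟩ := Submodule.Quotient.mk_surjective _ x
    obtain ⟨z, rfl⟩ := Submodule.Quotient.mk_surjective _ x
    obtain ⟨c, c1, c2⟩ := sur s z.2.1
    obtain ⟨y, y1, y2⟩ := mid s (dd_mem_Cn s.2.1 c1) (by rw [← dd_cm, c2, (mem_Zn.1 z.2).2])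
    refine ⟨⟨(⟨c, c1⟩, ⟨y, mem_Zn.2 ⟨y1, inj s (dd_mem_Cn s.1 y1) ?_⟩⟩), (hM _).2 y2.symm⟩, ?_⟩
    · rw [← dd_cm, y2, dd_dd]
    · rw [hp]
      congr 2
      exact Subtype.ext c2
  have q1 : LinearMap.range q = LinearMap.ker (hm (fC s) (n + 1)) := by
    ext x
    obtain ⟨y, rfl⟩ := Submodule.Quotient.mk_surjective _ x
    constructor
    · rintro ⟨m, h⟩
      rw [← h, hq, LinearMap.mem_ker, hm_mk, mk_zero]
      exact mem_Bn_succ.2 ⟨_, m.1.1.2, (hM _).1 m.2⟩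
    · intro h
      rw [LinearMap.mem_ker, hm_mk, mk_zero] at h
      obtain ⟨c, c1, c2⟩ := mem_Bn_succ.1 h
      exact ⟨⟨(⟨c, c1⟩, y), (hM _).2 c2⟩, rfl⟩
  have pq : LinearMap.ker p = LinearMap.ker q := by
    ext m
    rw [LinearMap.mem_ker, LinearMap.mem_ker, hp, hq, mk_zero, Submodule.Quotient.mk_eq_zero]
    constructor
    · rintro ⟨z, h⟩
      obtain ⟨z, rfl⟩ := Submodule.Quotient.mk_surjective _ z
      rw [hm_mk, mk_eq] at h
      obtain ⟨b, b1, b2⟩ := surB s h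
      have b3 := sub_mem z.2 (Bn_le_Zn s.2.1 n b1)
      obtain ⟨w, w1, w2⟩ := mid s (sub_mem m.1.1.2 b3.1) (by rw [map_sub, map_sub, b2]; simp)
      refine mem_Bn_succ.2 ⟨w, w1, sub_eq_zero.1 (inj s (sub_mem (dd_mem_Cn s.1 w1) m.1.2.2.1) ?_)⟩
      rw [map_sub, ← dd_cm, w2, map_sub, (mem_Zn.1 b3).2, sub_zero, (hM _).1 m.2, sub_self]
    · intro h
      obtain ⟨w, w1, w2⟩ := mem_Bn_succ.1 h
      refine ⟨Submodule.Quotient.mk ⟨m.1.1 - cm I f n w, mem_Zn.2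
        ⟨sub_mem m.1.1.2 (fC s n w w1), ?_⟩⟩, ?_⟩
      · rw [map_sub, dd_cm, w2, (hM _).1 m.2, sub_self]
      · rw [hm_mk, mk_eq]
        simp [gf s w1]
  have e1 := LinearMap.quotKerEquivOfSurjective (M := M)
    (M₂ := Hn B'' n ⧸ LinearMap.range (hm (gC s) n)) p p1
  have e2 := LinearMap.quotKerEquivRange (M := M) (M₂ := Hn B' (n + 1)) q
  rw [pq] at e1
  rw [q1] at e2
  exact ⟨e1.symm.trans e2⟩

theorem fin_of {n : ℕ} (h1 : Module.Finite L (Hn B n))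
    (h2 : Module.Finite L (LinearMap.ker (hm (fC s) n))) : Module.Finite L (Hn B' n) := by
  have : Module.Finite L (Hn B' n ⧸ LinearMap.ker (hm (fC s) n)) :=
    Module.Finite.equiv (LinearMap.quotKerEquivRange (hm (fC s) n)).symm
  exact Module.Finite.of_submodule_quotient (LinearMap.ker (hm (fC s) n))

theorem van_of {n : ℕ} (h1 : Zn B n ≤ Bn B n)
    (h2 : Subsingleton (LinearMap.ker (hm (fC s) n))) : Zn B' n ≤ Bn B' n := fun z hz => by
  have := hd_eq_zero h1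
  have h3 : (Submodule.Quotient.mk ⟨z, hz⟩ : Hn B' n) ∈ LinearMap.ker (hm (fC s) n) :=
    LinearMap.mem_ker.2 (Subsingleton.elim _ _)
  exact (mk_zero ⟨z, hz⟩).1 (congrArg Subtype.val (h2.elim ⟨_, h3⟩ 0))

theorem van_succ {n : ℕ} (h1 : Zn B (n + 1) ≤ Bn B (n + 1)) (h2 : Zn B'' n ≤ Bn B'' n) :
    Zn B' (n + 1) ≤ Bn B' (n + 1) := by
  obtain ⟨e⟩ := connE s n
  have := hd_eq_zero h2
  have : Subsingleton (Hn B'' n ⧸ LinearMap.range (hm (gC s) n)) :=
    (Submodule.Quotient.mk_surjective _).subsingleton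
  exact van_of s h1 e.symm.injective.subsingleton

theorem sub_zero : Subsingleton (LinearMap.ker (hm (fC s) 0)) := by
  rw [ker_zero s]
  infer_instance

end PSESa

open PSESa in
theorem p_sesa : S_SESa.{u} := by
  intro L E' E E'' I _ _ _ _ _ _ _ _ f g B' B B'' s
  refine ⟨fun ⟨f2, N2, h2⟩ ⟨f3, N3, h3⟩ => ⟨fun n => fin_of s (f2 n) ?_, N2 + N3 + 1,
    fun n hn => ?_⟩, fun h2 h3 n => ?_⟩
  · cases n with
    | zero =>
      have := PSESa.sub_zero s
      infer_instance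
    | succ n =>
      obtain ⟨e⟩ := connE s n
      have := f3 n
      exact Module.Finite.equiv e
  · obtain ⟨m, rfl⟩ : ∃ m, n = m + 1 := ⟨n - 1, by omega⟩
    exact van_succ s (h2 _ (by omega)) (h3 _ (by omega))
  · cases n with
    | zero => exact van_of s (h2 0) (PSESa.sub_zero s)
    | succ n => exact van_succ s (h2 _) (h3 _)

end Pool.Agent.P.MP_0f25e6_al.VT
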