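import Pool.Agent.P.MP_0f25e6_al.VT.Spec

/-!
Additivity of the Euler characteristic in short exact sequences of families.
-/

set_option autoImplicit false

open MulAction

noncomputable section

namespace Pool.Agent.P.MP_0f25e6_al.VT

universe u

open Sys

namespace PSESb

variable {L E' E E'' I : Type u} [DivisionRing L] [AddCommGroup E'] [Module L E'] [AddCommGroup E]
  [Module L E] [AddCommGroup E''] [Module L E'']

/-- The map on cochains. -/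
def cm (I : Type u) (f : E' →ₗ[L] E) (n : ℕ) : Co I E' n →ₗ[L] Co I E n := f.compLeft _

theorem cm_apply (f : E' →ₗ[L] E) (n : ℕ) (φ : Co I E' n) (τ : Fin (n + 1) → I) :
    cm I f n φ τ = f (φ τ) := rfl

theorem dd_cm (f : E' →ₗ[L] E) (n : ℕ) (φ : Co I E' n) :
    dd L n (cm I f n φ) = cm I f (n + 1) (dd L n φ) := by
  ext τ
  simp only [dd_apply, cm_apply, map_sum, map_zsmul]

variable [DecidableEq I] {f : E' →ₗ[L] E} {g : E →ₗ[L] E''} {B' : Finset I → Submodule L E'}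
  {B : Finset I → Submodule L E} {B'' : Finset I → Submodule L E''}

theorem ne {n : ℕ} (τ : Fin (n + 1) → I) : (Finset.univ.image τ).Nonempty :=
  Finset.univ_nonempty.image τ

theorem cm_Z (h : ∀ n, ∀ φ ∈ Cn B' n, cm I f n φ ∈ Cn B n) {n : ℕ} {φ : Co I E' n}
    (hφ : φ ∈ Zn B' n) : cm I f n φ ∈ Zn B n :=
  mem_Zn.2 ⟨h n φ hφ.1, by rw [dd_cm, (mem_Zn.1 hφ).2, map_zero]⟩

theorem cm_B (h : ∀ n, ∀ φ ∈ Cn B' n, cm I f n φ ∈ Cn B n) {n : ℕ} {φ : Co I E' n}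
    (hφ : φ ∈ Bn B' n) : cm I f n φ ∈ Bn B n := by
  cases n with
  | zero => rw [mem_Bn_zero.1 hφ, map_zero]; exact zero_mem _
  | succ n =>
    obtain ⟨ψ, h1, rfl⟩ := mem_Bn_succ.1 hφ
    exact mem_Bn_succ.2 ⟨_, h n ψ h1, dd_cm f n ψ⟩

/-- The map on cohomology. -/
def hm (h : ∀ n, ∀ φ ∈ Cn B' n, cm I f n φ ∈ Cn B n) (n : ℕ) : Hn B' n →ₗ[L] Hn B n :=
  Submodule.mapQ _ _ ((cm I f n).restrict fun _ hφ => cm_Z h hφ) fun _ hφ => cm_B h hφ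

theorem hm_mk (h : ∀ n, ∀ φ ∈ Cn B' n, cm I f n φ ∈ Cn B n) (n : ℕ) (z : Zn B' n) :
    hm h n (Submodule.Quotient.mk z) = Submodule.Quotient.mk ⟨cm I f n z, cm_Z h z.2⟩ := rfl

theorem mk_zero {n : ℕ} (z : Zn B n) :
    (Submodule.Quotient.mk z : Hn B n) = 0 ↔ (z : Co I E n) ∈ Bn B n :=
  Submodule.Quotient.mk_eq_zero _

theorem mk_eq {n : ℕ} (z z' : Zn B n) : (Submodule.Quotient.mk z : Hn B n) =
    Submodule.Quotient.mk z' ↔ (z : Co I E n) - z' ∈ Bn B n := Submodule.Quotient.eq _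

section

variable (s : Ses f g B' B B'')
include s

theorem fC : ∀ n, ∀ φ ∈ Cn B' n, cm I f n φ ∈ Cn B n := fun _ _ hφ τ =>
  ((s.2.2.2 _ (ne τ)).2.1 _ (hφ τ)).1

theorem gC : ∀ n, ∀ φ ∈ Cn B n, cm I g n φ ∈ Cn B'' n := fun _ _ hφ τ =>
  (s.2.2.2 _ (ne τ)).2.2.2.1 _ (hφ τ)

theorem gf {n : ℕ} {φ : Co I E' n} (hφ : φ ∈ Cn B' n) : cm I g n (cm I f n φ) = 0 :=
  funext fun τ => ((s.2.2.2 _ (ne τ)).2.1 _ (hφ τ)).2

theorem inj {n : ℕ} {φ : Co I E' n} (hφ : φ ∈ Cn B' n) (h : cm I f n φ = 0) : φ = 0 :=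
  funext fun τ => (s.2.2.2 _ (ne τ)).1 _ (hφ τ) (congrFun h τ)

theorem mid {n : ℕ} {φ : Co I E n} (hφ : φ ∈ Cn B n) (h : cm I g n φ = 0) :
    ∃ ψ ∈ Cn B' n, cm I f n ψ = φ := by
  choose ψ h1 h2 using fun τ => (s.2.2.2 _ (ne τ)).2.2.1 _ (hφ τ) (congrFun h τ)
  exact ⟨ψ, h1, funext h2⟩

theorem sur {n : ℕ} {φ : Co I E'' n} (hφ : φ ∈ Cn B'' n) : ∃ ψ ∈ Cn B n, cm I g n ψ = φ := by
  choose ψ h1 h2 using fun τ => (s.2.2.2 _ (ne τ)).2.2.2.2 _ (hφ τ)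
  exact ⟨ψ, h1, funext h2⟩

theorem surB {n : ℕ} {φ : Co I E'' n} (hφ : φ ∈ Bn B'' n) : ∃ ψ ∈ Bn B n, cm I g n ψ = φ := by
  cases n with
  | zero => exact ⟨0, zero_mem _, by rw [mem_Bn_zero.1 hφ, map_zero]⟩
  | succ n =>
    obtain ⟨ψ, h1, rfl⟩ := mem_Bn_succ.1 hφ
    obtain ⟨χ, h2, rfl⟩ := sur s h1
    exact ⟨_, mem_Bn_succ.2 ⟨χ, h2, rfl⟩, (dd_cm g n χ).symm⟩

theorem exact_mid (n : ℕ) : LinearMap.ker (hm (gC s) n) = LinearMap.range (hm (fC s) n) := by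
  ext x
  obtain ⟨z, rfl⟩ := Submodule.Quotient.mk_surjective _ x
  rw [LinearMap.mem_ker, hm_mk, mk_zero]
  constructor
  · intro h
    obtain ⟨b, b1, b2⟩ := surB s h
    have b3 := sub_mem z.2 (Bn_le_Zn s.2.1 n b1)
    obtain ⟨y, y1, y2⟩ := mid s b3.1 (by rw [map_sub, b2, sub_self])
    refine ⟨Submodule.Quotient.mk ⟨y, mem_Zn.2 ⟨y1, inj s (dd_mem_Cn s.1 y1) ?_⟩⟩, ?_⟩
    · rw [← dd_cm, y2, (mem_Zn.1 b3).2]
    · rw [hm_mk, mk_eq]
      simpa [y2] using b1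
  · rintro ⟨y, h⟩
    obtain ⟨y, rfl⟩ := Submodule.Quotient.mk_surjective _ y
    rw [hm_mk, mk_eq] at h
    have := cm_B (gC s) h
    rw [map_sub, gf s y.2.1, zero_sub] at this
    exact neg_mem_iff.1 this

theorem ker_zero : LinearMap.ker (hm (fC s) 0) = ⊥ := by
  refine eq_bot_iff.2 fun x hx => ?_
  obtain ⟨z, rfl⟩ := Submodule.Quotient.mk_surjective _ x
  rw [LinearMap.mem_ker, hm_mk, mk_zero] at hx
  exact (mk_zero z).2 (mem_Bn_zero.2 (inj s z.2.1 (mem_Bn_zero.1 hx)))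

theorem conn (n : ℕ) : Module.finrank L (Hn B'' n ⧸ LinearMap.range (hm (gC s) n)) =
    Module.finrank L (LinearMap.ker (hm (fC s) (n + 1))) := by
  let M : Submodule L (Cn B n × Zn B' (n + 1)) := LinearMap.eqLocus
    (dd L n ∘ₗ (Cn B n).subtype ∘ₗ LinearMap.fst L _ _)
    (cm I f (n + 1) ∘ₗ (Zn B' (n + 1)).subtype ∘ₗ LinearMap.snd L _ _)
  have hM : ∀ m : Cn B n × Zn B' (n + 1), m ∈ M ↔ dd L n m.1 = cm I f (n + 1) m.2 :=
    fun _ => Iff.rfl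
  have hz : ∀ m : M, cm I g n m.1.1 ∈ Zn B'' n := fun m =>
    mem_Zn.2 ⟨gC s n _ m.1.1.2, by rw [dd_cm, (hM _).1 m.2, gf s m.1.2.2.1]⟩
  let p : M →ₗ[L] Hn B'' n ⧸ LinearMap.range (hm (gC s) n) :=
    Submodule.mkQ _ ∘ₗ Submodule.mkQ _ ∘ₗ LinearMap.codRestrict (Zn B'' n)
      (cm I g n ∘ₗ (Cn B n).subtype ∘ₗ LinearMap.fst L _ _ ∘ₗ M.subtype) hz
  let q : M →ₗ[L] Hn B' (n + 1) := Submodule.mkQ _ ∘ₗ LinearMap.snd L _ _ ∘ₗ M.subtype
  have hp : ∀ m, p m = Submodule.Quotient.mk (Submodule.Quotient.mk ⟨_, hz m⟩) := fun _ => rfl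
  have hq : ∀ m, q m = Submodule.Quotient.mk m.1.2 := fun _ => rfl
  have p1 : Function.Surjective p := fun x => by
    obtain ⟨x, rfl⟩ := Submodule.Quotient.mk_surjective _ x
    obtain ⟨z, rfl⟩ := Submodule.Quotient.mk_surjective _ x
    obtain ⟨c, c1, c2⟩ := sur s z.2.1
    obtain ⟨y, y1, y2⟩ := mid s (dd_mem_Cn s.2.1 c1) (by rw [← dd_cm, c2, (mem_Zn.1 z.2).2])
    refine ⟨⟨(⟨c, c1⟩, ⟨y, mem_Zn.2 ⟨y1, inj s (dd_mem_Cn s.1 y1) ?_⟩⟩), (hM _).2 y2.symm⟩, ?_⟩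
    · rw [← dd_cm, y2, dd_dd]
    · rw [hp]
      congr 2
      exact Subtype.ext c2
  have q1 : LinearMap.range q = LinearMap.ker (hm (fC s) (n + 1)) := by
    ext x
    obtain ⟨y, rfl⟩ := Submodule.Quotient.mk_surjective _ x
    constructor
    · rintro ⟨m, h⟩
      rw [← h, hq, LinearMap.mem_ker, hm_mk, mk_zero]
      exact mem_Bn_succ.2 ⟨_, m.1.1.2, (hM _).1 m.2⟩
    · intro h
      rw [LinearMap.mem_ker, hm_mk, mk_zero] at h
      obtain ⟨c, c1, c2⟩ := mem_Bn_succ.1 h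
      exact ⟨⟨(⟨c, c1⟩, y), (hM _).2 c2⟩, rfl⟩
  have pq : LinearMap.ker p = LinearMap.ker q := by
    ext m
    rw [LinearMap.mem_ker, LinearMap.mem_ker, hp, hq, mk_zero, Submodule.Quotient.mk_eq_zero]
    constructor
    · rintro ⟨z, h⟩
      obtain ⟨z, rfl⟩ := Submodule.Quotient.mk_surjective _ z
      rw [hm_mk, mk_eq] at h
      obtain ⟨b, b1, b2⟩ := surB s h
      have b3 := sub_mem z.2 (Bn_le_Zn s.2.1 n b1)
      obtain ⟨w, w1, w2⟩ := mid s (sub_mem m.1.1.2 b3.1) (by rw [map_sub, map_sub, b2]; simp)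
      refine mem_Bn_succ.2 ⟨w, w1, sub_eq_zero.1 (inj s (sub_mem (dd_mem_Cn s.1 w1) m.1.2.2.1) ?_)⟩
      rw [map_sub, ← dd_cm, w2, map_sub, (mem_Zn.1 b3).2, sub_zero, (hM _).1 m.2, sub_self]
    · intro h
      obtain ⟨w, w1, w2⟩ := mem_Bn_succ.1 h
      refine ⟨Submodule.Quotient.mk ⟨m.1.1 - cm I f n w, mem_Zn.2
        ⟨sub_mem m.1.1.2 (fC s n w w1), ?_⟩⟩, ?_⟩
      · rw [map_sub, dd_cm, w2, (hM _).1 m.2, sub_self]
      · rw [hm_mk, mk_eq]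
        simp [gf s w1]
  have e1 := (LinearMap.quotKerEquivOfSurjective (M := M)
    (M₂ := Hn B'' n ⧸ LinearMap.range (hm (gC s) n)) p p1).finrank_eq
  have e2 := (LinearMap.quotKerEquivRange (M := M) (M₂ := Hn B' (n + 1)) q).finrank_eq
  rw [pq] at e1
  rw [q1] at e2
  exact e1.symm.trans e2

end

theorem chi_eq {N : ℕ} (h : ∀ n, N ≤ n → Zn B n ≤ Bn B n) :
    chi B = ∑ n ∈ Finset.range N, (-1 : ℤ) ^ n * (hd B n : ℤ) := by
  refine finsum_eq_sum_of_support_subset _ fun n hn => ?_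
  by_contra h'
  have := hd_eq_zero (h n (by simpa using h'))
  exact hn (by simp only [hd, Module.finrank_zero_of_subsingleton, Nat.cast_zero, mul_zero])

end PSESb

open PSESb in
theorem p_sesb : S_SESb.{u} := by
  intro L E' E E'' I _ _ _ _ _ _ _ _ f g B' B B'' s ⟨f1, N1, h1⟩ ⟨f2, N2, h2⟩ ⟨f3, N3, h3⟩
  obtain ⟨k, hk⟩ : ∃ k : ℕ → ℕ, ∀ n, k n = Module.finrank L (LinearMap.ker (hm (fC s) n)) :=
    ⟨_, fun _ => rfl⟩
  have step : ∀ n, (hd B' n : ℤ) + hd B'' n - hd B n = k n + k (n + 1) := fun n => by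
    have a1 := (hm (fC s) n).finrank_range_add_finrank_ker
    have a2 := (hm (gC s) n).finrank_range_add_finrank_ker
    have a3 := (LinearMap.range (hm (gC s) n)).finrank_quotient_add_finrank
    rw [exact_mid s] at a2
    rw [conn s] at a3
    rw [hk, hk, hd, hd, hd]
    omega
  have tel : ∀ N, ∑ n ∈ Finset.range N, (-1 : ℤ) ^ n * (k n + k (n + 1)) =
      k 0 - (-1) ^ N * k N := fun N => by
    induction N with
    | zero => simp
    | succ N ih => rw [Finset.sum_range_succ, ih]; ring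
  have k0 : k 0 = 0 := by rw [hk, ker_zero s, finrank_bot]
  have kN : k (N1 + N2 + N3) = 0 := by
    have := hd_eq_zero (h1 (N1 + N2 + N3) (by omega))
    rw [hk, Module.finrank_zero_of_subsingleton]
  have e := tel (N1 + N2 + N3)
  rw [k0, kN] at e
  rw [chi_eq (N := N1 + N2 + N3) fun n hn => h1 n (by omega),
    chi_eq (N := N1 + N2 + N3) fun n hn => h2 n (by omega),
    chi_eq (N := N1 + N2 + N3) fun n hn => h3 n (by omega)]
  simp only [← step, mul_add, mul_sub, Finset.sum_add_distrib, Finset.sum_sub_distrib] at e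
  push_cast at e
  linarith

end Pool.Agent.P.MP_0f25e6_al.VT
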