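import Pool.Agent.P.MP_0f25e6_al.HR5

/-!
Descent of the transfer property from a subgroup of finite index, and subdivision of trees.
-/

set_option autoImplicit false

open MulAction SemidirectProduct

noncomputable section

namespace Pool.Agent.P.MP_0f25e6_al.VT

open HN TP HR

universe u

theorem full_of_pf {A B : Type u} [Group A] [Group B] (h : Full A) (q : B →* A) (hq : PF q.ker) :
    Full B := fun Γ _ r hr => h Γ (q.comp r) (hq.ker_comp hr)

theorem full_comap {G Γ : Type u} [Group G] [Group Γ] {H : Subgroup G} (h : Full H) (r : Γ →* G)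
    (hr : PF r.ker) : Full (H.comap r) :=
  full_of_pf h ((r.comp (H.comap r).subtype).codRestrict H fun x => x.2) (by
    rw [MonoidHom.ker_codRestrict]
    exact hr.ker_comp (pf_ker_of_inj (Subgroup.subtype_injective _)))

theorem finiteIndex_comap {G Γ : Type*} [Group G] [Group Γ] (H : Subgroup G) [H.FiniteIndex]
    (r : Γ →* G) : (H.comap r).FiniteIndex :=
  ⟨by rw [Subgroup.index_comap]; exact Subgroup.FiniteIndex.index_ne_zero⟩

/-- A rational subspace is carried by finitely many orbits. -/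
theorem exists_carrier {A : Type u} {Z : Type*} [Group A] [MulAction A Z]
    {W : Submodule ℂ (L2 Z)} (h : Rat A W) :
    ∃ S : Set Z, (∀ (a : A) z, a • z ∈ S ↔ z ∈ S) ∧ Cofin A S ∧ W ≤ supp S := by
  obtain ⟨Y, _, -, cY, N, P, -, -, eP, fP, rfl⟩ := h
  have h1 : ∀ (g : A) z y, P (delta y) z ≠ 0 → P (delta (g • y)) (g • z) ≠ 0 := fun g z y hy => by
    rwa [← act_delta, eP, act_apply, inv_smul_smul]
  refine ⟨{z | ∃ y, P (delta y) z ≠ 0}, fun a z => ⟨fun ⟨y, hy⟩ => ⟨a⁻¹ • y, ?_⟩,
    fun ⟨y, hy⟩ => ⟨_, h1 a z y hy⟩⟩, ?_, cl_img_le (cls_supp _) fun n _ => ?_⟩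
  · have := h1 a⁻¹ _ y hy
    rwa [inv_smul_smul] at this
  · obtain ⟨F, hF, hF'⟩ := cY
    refine ⟨⋃ y ∈ F, {z | P (delta y) z ≠ 0}, hF.biUnion fun y _ => fP _ (finS_delta y), ?_⟩
    rintro z ⟨y, hy⟩
    obtain ⟨g, hg⟩ := hF' y trivial
    exact ⟨g, Set.mem_biUnion hg (h1 g z y hy)⟩
  · refine mem_of_hasSum (cls_supp _) ((hasSum_delta n).mapL P) fun y => ?_
    rw [map_smul]
    exact Submodule.smul_mem _ _ fun z hz => by_contra fun h => hz ⟨y, h⟩

theorem cofin_inter {C H Z X : Type*} [Group C] [Group H] [MulAction H Z] [MulAction C Z]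
    [MulAction H X] (ι : C →* H) (hι : ∀ (c : C) (z : Z), ι c • z = c • z) {κ : Z → X}
    (hκ : ∀ (a : H) (z : Z), κ (a • z) = a • κ z) {x₀ : X} (hx : stabilizer H x₀ ≤ ι.range)
    {S : Set Z} (hS : Cofin H S) : Cofin C (S ∩ κ ⁻¹' {x₀}) := by
  classical
  obtain ⟨F, hF, hF'⟩ := hS
  let g : Z → Z := fun f => if h : ∃ a : H, κ (a • f) = x₀ then h.choose • f else f
  refine ⟨g '' F, hF.image _, fun z hz => ?_⟩
  obtain ⟨a, ha⟩ := hF' z hz.1
  have h0 : κ z = x₀ := hz.2
  have h : ∃ b : H, κ (b • a • z) = x₀ := ⟨a⁻¹, by rw [inv_smul_smul, h0]⟩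
  have h1 := h.choose_spec
  rw [← mul_smul, hκ, h0] at h1
  obtain ⟨c, hc⟩ := hx h1
  exact ⟨c, _, ha, by rw [← hι, hc, mul_smul]; exact dif_pos h⟩

/-- Rationality of fibres descends from a subgroup of finite index. -/
theorem ri_of_virt {C A : Type u} [Group C] [Group A] {ι : C →* A} (hinj : Function.Injective ι)
    (H : Subgroup A) [H.FiniteIndex] (hH : Full H) : RI ι := by
  classical
  intro Z X _ _ _ κ x₀ hZ hι hκ hx W hW hs
  obtain ⟨S, hS, hSc, hWS⟩ := exists_carrier hW
  have : H.subtype.range.FiniteIndex := by rwa [Subgroup.range_subtype]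
  let ι' : H.comap ι →* H := (ι.comp (H.comap ι).subtype).codRestrict H fun x => x.2
  have hinj' : Function.Injective ι' := fun a b h => Subtype.ext (hinj (congrArg Subtype.val h))
  have hι' : ∀ (c : H.comap ι) (z : Z), ι' c • z = c • z := fun c z => hι c z
  have hx' : stabilizer H x₀ = ι'.range := le_antisymm (fun h hh => by
    obtain ⟨c, hc⟩ := hx.le (show (h : A) ∈ stabilizer A x₀ from hh)
    exact ⟨⟨c, by rw [Subgroup.mem_comap, hc]; exact h.2⟩, Subtype.ext hc⟩) (by
    rintro _ ⟨c, rfl⟩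
    exact hx.ge ⟨c, rfl⟩)
  let κ' : Z → Option X := fun z => if z ∈ S then some (κ z) else none
  have hκ' : ∀ (a : H) (z : Z), κ' (a • z) = a • κ' z := fun a z => by
    by_cases h : z ∈ S
    · simp only [κ', if_pos h, if_pos ((hS a z).2 h), Subgroup.smul_def, hκ]
      rfl
    · simp only [κ', if_neg h, if_neg fun h' => h ((hS a z).1 h'), Subgroup.smul_def]
      rfl
  have hfib : κ' ⁻¹' {some x₀} = S ∩ κ ⁻¹' {x₀} := by
    ext z
    by_cases h : z ∈ S <;> simp [κ', h]
  have hW' : Rat H W := by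
    have h1 := hW.transport H.subtype H.subtype_injective (S := 1)
      (fun h f => act_hom H.subtype (fun _ _ => rfl) h f) fun _ h => h
    rwa [show img (1 : L2 Z →L[ℂ] L2 Z) W = W from Submodule.map_id W, cl_eq hW.cls] at h1
  have hfull := hH H (MonoidHom.id H) (pf_ker_of_inj Function.injective_id)
  have h2 := res_of_tp hinj' hfull.1 (hfull.2 _ ι' hinj') Z (Option X) κ' (some x₀)
    (free_subgroup hZ H) hι' hκ' (by
      rw [← hx']
      ext h
      exact Option.some_inj) (by
      rw [hfib]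
      exact cofin_inter ι' hι' (fun a z => hκ a z) hx'.le
        (hSc.of_finiteIndex H.subtype fun _ _ => rfl)) W hW'
  have h3 : ∀ f ∈ W, res (κ' ⁻¹' {some x₀}) f = res (κ ⁻¹' {x₀}) f := fun f hf => by
    rw [hfib, Set.inter_comm, ← res_res, res_eq_self (hWS hf)]
  have h4 : cl (img (res (κ' ⁻¹' {some x₀})) W) = W ⊓ supp (κ ⁻¹' {x₀}) :=
    le_antisymm (cl_img_le (hW.cls.inf (cls_supp _)) fun f hf => by
      rw [h3 f hf]
      exact ⟨hs _ f hf, res_mem_supp _ _⟩) fun f hf =>
        mem_cl_img' f hf.1 ((h3 f hf.1).trans (res_eq_self hf.2))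
  rw [h4] at h2
  refine h2.of_inv (H.comap ι).subtype (hZ.of_hom ι hinj hι) (Subgroup.subtype_injective _)
    (fun _ _ => rfl) ((hW.inv.of_hom ι hι).inf (inv_supp fun c z hz => ?_))
  rw [Set.mem_preimage, ← hι, hκ, show κ z = x₀ from hz]
  exact hx.ge ⟨c, rfl⟩

/-- The strong property passes to an overgroup of finite index once integrality is known. -/
theorem full_of_virt {G : Type u} [Group G] (H : Subgroup G) [H.FiniteIndex] (hH : Full H)
    (hG : ∀ (Γ : Type u) [Group Γ] (r : Γ →* G), PF r.ker → SAC Γ) : Full G := by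
  intro Γ _ r hr
  refine ⟨hG Γ r hr, fun C _ ι hι => tp_of_ri ι hι fun L _ => ?_⟩
  have h1 := hr.ker_comp (pf_ker_right Γ L)
  have := finiteIndex_comap H (r.comp (rightHom : FreeGroup L ⋊[actF Γ L] Γ →* Γ))
  exact ⟨hG _ _ h1, ri_of_virt (inr_injective.comp hι) _ (full_comap hH _ h1)⟩

/-- The barycentric subdivision of a tree, in oriented form. -/
theorem exists_treeData {G V : Type u} [Group G] [MulAction G V] {T : SimpleGraph V}
    (hT : T.IsTree) (hadj : ∀ (g : G) (u v : V), T.Adj u v → T.Adj (g • u) (g • v)) :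
    ∃ (V' E' : Type u) (_ : MulAction G V') (_ : MulAction G E') (_ : TreeData G V' E'),
      ∀ c : V', ∃ u v, (u = v ∨ T.Adj u v) ∧ ∀ h ∈ stabilizer G c, s(h • u, h • v) = s(u, v) := by
  let _ := cellAction hadj
  let _ := dartAction hadj
  let dg : V → Cell T := fun v => ⟨s(v, v), Or.inl (Sym2.mk_isDiag_iff.2 rfl)⟩
  let ed : T.Dart → Cell T := fun d => ⟨s(d.fst, d.snd), Or.inr d.adj⟩
  have hcut := hasCuts_of_isAcyclic hT.isAcyclic
  let D : TreeData G (Cell T) T.Dart :=
    { o := fun d => dg d.fst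
      t := ed
      o_smul := fun _ _ => rfl
      t_smul := fun _ _ => rfl
      ne := hT.connected.nonempty.map dg
      conn := by
        intro S hS
        have h1 : ∀ a b, T.Adj a b → (dg a ∈ S ↔ dg b ∈ S) := by
          intro a b hab
          have h2 := hS ⟨(a, b), hab⟩
          have h3 := hS ⟨(b, a), hab.symm⟩
          have h4 : ed ⟨(b, a), hab.symm⟩ = ed ⟨(a, b), hab⟩ := Subtype.ext Sym2.eq_swap
          rw [h4] at h3
          exact h2.trans h3.symm
        have h2 : ∀ a b, dg a ∈ S → dg b ∈ S := by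
          intro a b
          obtain ⟨p⟩ := hT.connected.preconnected a b
          induction p with
          | nil => exact id
          | cons hab _ ih => exact fun h => ih ((h1 _ _ hab).1 h)
        have h3 : ∀ c : Cell T, ∃ a, (c ∈ S ↔ dg a ∈ S) := by
          rintro ⟨c, hc⟩
          induction c using Sym2.ind with
          | _ a b =>
            rcases hc with hc | hc
            · obtain rfl := Sym2.mk_isDiag_iff.1 hc
              exact ⟨a, Iff.rfl⟩
            · exact ⟨a, (hS ⟨(a, b), hc⟩).symm⟩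
        intro c hc c'
        obtain ⟨a, ha⟩ := h3 c
        obtain ⟨b, hb⟩ := h3 c'
        exact hb.2 (h2 a b (ha.1 hc))
      cut := by
        rintro ⟨⟨a, b⟩, hab⟩
        obtain ⟨side, h1, h2, h3⟩ := hcut a b hab
        have hdg : ∀ x, (s(x, x) = s(a, b) ∨ ∀ y ∈ s(x, x), side y) ↔ side x := by
          intro x
          constructor
          · rintro (h | h)
            · rcases Sym2.eq_iff.1 h with ⟨h4, h5⟩ | ⟨h4, h5⟩
              · exact absurd (h4.symm.trans h5) hab.ne
              · exact absurd (h5.symm.trans h4) hab.ne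
            · exact h x (Sym2.mem_mk_left _ _)
          · intro h
            refine Or.inr (fun y hy => ?_)
            rcases Sym2.mem_iff.1 hy with rfl | rfl <;> exact h
        refine ⟨{c | c.1 = s(a, b) ∨ ∀ y ∈ c.1, side y}, Or.inl rfl,
          fun h => h2 ((hdg a).1 h), ?_⟩
        rintro ⟨⟨x, y⟩, hxy⟩ hne
        refine (hdg x).trans ?_
        change side x ↔ (s(x, y) = s(a, b) ∨ ∀ z ∈ s(x, y), side z)
        by_cases he : s(x, y) = s(a, b)
        · rcases Sym2.eq_iff.1 he with ⟨rfl, rfl⟩ | ⟨rfl, rfl⟩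
          · exact absurd rfl hne
          · exact ⟨fun _ => Or.inl he, fun _ => h1⟩
        · have h4 := h3 x y hxy he
          refine ⟨fun h => Or.inr (fun z hz => ?_),
            fun h => (h.resolve_left he) x (Sym2.mem_mk_left _ _)⟩
          rcases Sym2.mem_iff.1 hz with rfl | rfl
          · exact h
          · exact h4.1 h }
  refine ⟨Cell T, T.Dart, _, _, D, ?_⟩
  rintro ⟨c, hc⟩
  induction c using Sym2.ind with
  | _ a b =>
    exact ⟨a, b, hc.imp Sym2.mk_isDiag_iff.1 id, fun h hh => congrArg Subtype.val hh⟩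

end Pool.Agent.P.MP_0f25e6_al.VT
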