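import Pool.Agent.P.MP_0f25e6_al.VT.Spec
import Pool.Agent.P.MP_0f25e6_al.VT.PZero0

/-!
Reduction of the theorem to groups that permute finitely many trees.
-/

set_option autoImplicit false

open MulAction

noncomputable section

namespace Pool.Agent.P.MP_0f25e6_al.VT

open HN HR

universe u

/-- Every torsion-free group that virtually embeds in `X` has the strong property. -/
def PX (X : Type u) [Group X] : Prop :=
  ∀ (G : Type u) [Group G] (G1 : Subgroup G) (f : G1 →* X), G1.FiniteIndex →
    Function.Injective f → (∀ (g : G) (k : ℕ), 0 < k → g ^ k = 1 → g = 1) → HR.Full G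

theorem PX.out {X : Type u} [Group X] (h : PX X) {G B : Type u} [Group G] [Group B] (i : B →* G)
    (f : B →* X) (hi : Function.Injective i) (hfi : i.range.FiniteIndex)
    (hf : Function.Injective f) (htf : ∀ (g : G) (k : ℕ), 0 < k → g ^ k = 1 → g = 1) : Full G :=
  h G i.range (f.comp ((MonoidHom.ofInjective hi).symm : i.range →* B)) hfi
    (hf.comp (MonoidHom.ofInjective hi).symm.injective) htf

theorem tf_of_inj {G B : Type*} [Group G] [Group B] (i : B →* G) (hi : Function.Injective i)
    (htf : ∀ (g : G) (k : ℕ), 0 < k → g ^ k = 1 → g = 1) (g : B) (k : ℕ) (hk : 0 < k)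
    (hg : g ^ k = 1) : g = 1 :=
  hi ((htf (i g) k hk (by rw [← map_pow, hg, map_one])).trans (map_one i).symm)

theorem PX.of_inj {X Y : Type u} [Group X] [Group Y] (h : PX X) (j : Y →* X)
    (hj : Function.Injective j) : PX Y := fun G _ G1 f hfi hf htf =>
  h G G1 (j.comp f) hfi (hj.comp hf) htf

theorem px_finite {X : Type u} [Group X] [Finite X] : PX X := by
  intro G _ G1 f hfi hf htf
  have := Finite.of_injective f hf
  have : Finite G := (Subgroup.finite_iff_finite_and_finiteIndex G1).2 ⟨this, hfi⟩
  have h1 : ∀ c : G, c = 1 := fun c => htf c (orderOf c) (orderOf_pos c) (pow_orderOf_eq_one c)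
  have : Subsingleton G := ⟨fun a b => by rw [h1 a, h1 b]⟩
  exact full_of_subsingleton G

theorem px_virt {X : Type u} [Group X] (H : Subgroup X) [H.FiniteIndex] (h : PX H) : PX X := by
  intro G _ G1 f hfi hf htf
  have := finiteIndex_comap H f
  refine h.out (G1.subtype.comp (H.comap f).subtype)
    ((f.comp (H.comap f).subtype).codRestrict H fun x => x.2)
    (G1.subtype_injective.comp (Subgroup.subtype_injective _)) ⟨?_⟩
    (fun a b hab => Subtype.ext (hf (congrArg Subtype.val hab))) htf
  rw [MonoidHom.range_comp, Subgroup.range_subtype, Subgroup.index_map_subtype]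
  exact mul_ne_zero Subgroup.FiniteIndex.index_ne_zero Subgroup.FiniteIndex.index_ne_zero

section Ind

variable {G X : Type u} [Group G] [Group X] {G1 : Subgroup G}

/-- The cocycle attached to a choice of coset representatives. -/
def coc (g : G) (q : G ⧸ G1) : G1 :=
  ⟨(g • q).out⁻¹ * (g * q.out), QuotientGroup.eq.1 (by
    rw [QuotientGroup.out_eq', ← smul_eq_mul, Quotient.coe_smul_out])⟩

theorem coc_one (q : G ⧸ G1) : coc 1 q = 1 := Subtype.ext (by simp [coc])

theorem coc_mul (g h : G) (q : G ⧸ G1) : coc (g * h) q = coc g (h • q) * coc h q :=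
  Subtype.ext (by simp [coc, mul_smul, mul_assoc])

/-- The induced set. -/
@[ext] structure Ind (f : G1 →* X) (Y : Type u) where
  /-- the coset -/
  q : G ⧸ G1
  /-- the point -/
  x : Y

instance (f : G1 →* X) (Y : Type u) [MulAction X Y] : MulAction G (Ind f Y) where
  smul g p := ⟨g • p.q, f (coc g p.q) • p.x⟩
  one_smul p := Ind.ext (one_smul G p.q) (by
    change f (coc 1 p.q) • p.x = p.x
    rw [coc_one, map_one, one_smul])
  mul_smul g h p := Ind.ext (mul_smul g h p.q) (by
    change f (coc (g * h) p.q) • p.x = f (coc g (h • p.q)) • f (coc h p.q) • p.x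
    rw [coc_mul, map_mul, mul_smul])

variable {V E : Type u} [MulAction X V] [MulAction X E]

/-- The induced family of trees. -/
def indPT [G1.FiniteIndex] (f : G1 →* X) (T : TreeData X V E) : PT G where
  I := G ⧸ G1
  Vt := Ind f V
  Ed := Ind f E
  π := Ind.q
  o e := ⟨e.q, T.o e.x⟩
  t e := ⟨e.q, T.t e.x⟩
  π_smul _ _ := rfl
  o_smul _ _ := Ind.ext rfl (T.o_smul _ _)
  t_smul _ _ := Ind.ext rfl (T.t_smul _ _)
  π_t _ := rfl
  surj q := T.ne.elim fun v => ⟨⟨q, v⟩, rfl⟩
  conn S hS := by
    rintro ⟨q, v⟩ hv ⟨_, w⟩ rfl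
    exact T.conn {x | (⟨_, x⟩ : Ind f V) ∈ S} (fun e => hS ⟨_, e⟩) v hv w
  cut e := by
    obtain ⟨S, h1, h2, h3⟩ := T.cut e.x
    refine ⟨{p | p.q = e.q ∧ p.x ∈ S}, ⟨rfl, h1⟩, fun h => h2 h.2, fun e' he' => ?_⟩
    exact and_congr_right fun h => h3 e'.x fun h' => he' (Ind.ext h h')

theorem core_smul (n : G1.normalCore) (q : G ⧸ G1) : (n : G) • q = q := by
  have h : (n : G) ∈ (MulAction.toPermHom G (G ⧸ G1)).ker := G1.normalCore_eq_ker ▸ n.2
  exact DFunLike.congr_fun (MonoidHom.mem_ker.1 h) q

/-- The cocycle is a homomorphism on the core. -/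
def cocHom (q : G ⧸ G1) : G1.normalCore →* G1 where
  toFun n := coc n q
  map_one' := coc_one q
  map_mul' a b := by rw [Subgroup.coe_mul, coc_mul, core_smul]

theorem cocHom_inj (q : G ⧸ G1) : Function.Injective (cocHom q) :=
  (injective_iff_map_eq_one _).2 fun n hn => by
    have h : ((n : G) • q).out⁻¹ * (n * q.out) = 1 := congrArg Subtype.val hn
    rw [core_smul, inv_mul_eq_one, right_eq_mul] at h
    exact Subtype.ext h

end Ind

/-- Pulling back a family of trees along a homomorphism. -/
def PT.comap {G Γ : Type u} [Group G] [Group Γ] (P : PT G) (r : Γ →* G) : PT Γ where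
  I := P.I
  Vt := P.Vt
  Ed := P.Ed
  aI := MulAction.compHom _ r
  aV := MulAction.compHom _ r
  aE := MulAction.compHom _ r
  π := P.π
  o := P.o
  t := P.t
  π_smul g := P.π_smul (r g)
  o_smul g := P.o_smul (r g)
  t_smul g := P.t_smul (r g)
  π_t := P.π_t
  surj := P.surj
  conn := P.conn
  cut := P.cut

/-- The strong form of the theorem on permuted trees. -/
theorem full_of_pt (hP : PPT.{u}) {G : Type u} [Group G] (H : Subgroup G) [H.Normal]
    [H.FiniteIndex] (hH : Full H) (P : PT G) (hI : ∀ h ∈ H, ∀ i : P.I, h • i = i)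
    (hc : ∀ c, P.IsSec c → Full (secStab G c)) : Full G := by
  refine full_of_virt H hH fun Γ _ r hr => hP Γ (H.comap r) inferInstance (finiteIndex_comap H r)
    (full_comap hH r hr) (P.comap r) (fun h hh i => hI (r h) hh i) fun c h => ?_
  have hle : secStab Γ c ≤ (secStab G (I := P.I) (W := P.Vt ⊕ P.Ed) c).comap r := fun g hg i => by
    refine Eq.trans ?_ (hg i)
    rcases c i with v | e <;> rfl
  exact (full_comap (hc c h) r hr).sac.of_injective (Subgroup.inclusion hle)
    (Subgroup.inclusion_injective _)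

theorem px_treeData (hP : PPT.{u}) {X V E : Type u} [Group X] [MulAction X V] [MulAction X E]
    (T : TreeData X V E) (hV : ∀ v : V, PX (stabilizer X v)) : PX X := by
  intro G _ G1 f hfi hf htf
  let q₀ : G ⧸ G1 := (1 : G)
  let ψ : G1.normalCore →* X := f.comp (cocHom q₀)
  have hψ : Function.Injective ψ := hf.comp (cocHom_inj q₀)
  have key : ∀ (K : Subgroup G) (v : V), (∀ n : G1.normalCore, (n : G) ∈ K → ψ n • v = v) →
      Full K := fun K v hv => by
    refine (hV v).out (G1.normalCore.subgroupOf K).subtype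
      ((ψ.comp ((K.subtype.comp (G1.normalCore.subgroupOf K).subtype).codRestrict _
        fun x => x.2)).codRestrict _ fun x => hv _ x.1.2)
      (Subgroup.subtype_injective _) (by rw [Subgroup.range_subtype]; infer_instance)
      (fun a b hab => Subtype.ext (Subtype.ext
        (congrArg Subtype.val (hψ (congrArg Subtype.val hab)) :)))
      (tf_of_inj K.subtype K.subtype_injective htf)
  refine full_of_pt hP G1.normalCore ?_ (indPT f T) (fun h hh i => core_smul ⟨h, hh⟩ i)
    fun c hc => ?_
  · let _ : MulAction G1.normalCore V := MulAction.compHom V ψ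
    let _ : MulAction G1.normalCore E := MulAction.compHom E ψ
    refine full_of_tree (TP.comap T ψ (fun _ _ => rfl) fun _ _ => rfl) fun v => ?_
    exact (hV v).out (MonoidHom.id _) ((ψ.comp (Subgroup.subtype _)).codRestrict _ fun x => x.2)
      Function.injective_id (by
        rw [MonoidHom.range_eq_top_of_surjective _ Function.surjective_id]; infer_instance)
      (fun a b hab => Subtype.ext (hψ (congrArg Subtype.val hab)))
      (tf_of_inj (G1.normalCore.subtype.comp (Subgroup.subtype _))
        (G1.normalCore.subtype_injective.comp (Subgroup.subtype_injective _)) htf)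
  · have h1 : ∀ n : G1.normalCore, (n : G) ∈ secStab G c → (n : G) • c q₀ = c q₀ := fun n hn =>
      (hn q₀).trans (congrArg c (core_smul n q₀))
    have h2 := hc q₀
    rcases h3 : c q₀ with ⟨q, v⟩ | ⟨q, e⟩ <;> rw [h3] at h1 h2 <;> obtain rfl : q = q₀ := h2
    · exact key _ v fun n hn => congrArg Ind.x (Sum.inl_injective (h1 n hn))
    · refine key _ (T.o e) fun n hn => ?_
      rw [← T.o_smul]
      exact congrArg T.o (congrArg Ind.x (Sum.inr_injective (h1 n hn)))

theorem px_tree (hP : PPT.{u}) {X V : Type u} [Group X] [MulAction X V] {T : SimpleGraph V}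
    (hT : T.IsTree) (hadj : ∀ (g : X) (u v : V), T.Adj u v → T.Adj (g • u) (g • v))
    (hst : ∀ (K : Subgroup X) (u v : V), u = v ∨ T.Adj u v →
      (∀ h ∈ K, s(h • u, h • v) = s(u, v)) → PX K) : PX X := by
  obtain ⟨V', E', _, _, D, hD⟩ := exists_treeData hT hadj
  refine px_treeData hP D fun c => ?_
  obtain ⟨a, b, h1, h2⟩ := hD c
  exact hst _ a b h1 h2

/-- The conclusion for the group itself. -/
theorem PX.full {X : Type u} [Group X] (h : PX X)
    (htf : ∀ (g : X) (k : ℕ), 0 < k → g ^ k = 1 → g = 1) : Full X :=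
  h X ⊤ (Subgroup.subtype ⊤) inferInstance (Subgroup.subtype_injective _) htf

end Pool.Agent.P.MP_0f25e6_al.VT
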