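import Pool.Agent.P.MP_0f25e6_al.VT.B2

/-!
Density of restrictions of independent families.
-/

set_option autoImplicit false

open scoped InnerProductSpace ENNReal
open MulAction

noncomputable section

namespace Pool.Agent.P.MP_0f25e6_al.VT.B

universe u

open HN HR Sys

namespace DENS

variable {Γ J : Type u} [Group Γ] (C : Subgroup Γ)

/-- The inclusion of index sets. -/
def e (z : Tw C J) : Tw Γ J := ⟨z.y.1, z.k⟩

theorem e_inj : Function.Injective (e C : Tw C J → Tw Γ J) := fun _ _ h =>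
  Tw.ext (Subtype.ext (congrArg Tw.y h)) (congrArg (Tw.k (Y := Γ)) h)

/-- Restriction to the subgroup. -/
def p : L2 (Tw Γ J) →L[ℂ] L2 (Tw C J) := pull (e C) (e_inj C)

/-- The coset of the first coordinate. -/
def κ (z : Tw Γ J) : Γ ⧸ C := (z.y : Γ ⧸ C)

theorem p_res (F : L2 (Tw Γ J)) : p C (res (κ C ⁻¹' {((1 : Γ) : Γ ⧸ C)}) F) = p C F :=
  lp.ext (funext fun z => res_apply_of_mem F (g := e C z) (QuotientGroup.eq.2 (by
    rw [mul_one]
    exact inv_mem z.y.2)))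

theorem rat_p [Finite J] (h : Full Γ) {W : Submodule ℂ (L2 (Tw Γ J))} (hW : Rat Γ W) :
    Rat C (cl (img (p C) W)) := by
  have h1 := res_of_tp C.subtype_injective h.sac
    ((h Γ (MonoidHom.id _) (pf_ker_of_inj Function.injective_id)).2 C C.subtype
      C.subtype_injective) (Tw Γ J) (Γ ⧸ C) (κ C) ((1 : Γ) : Γ ⧸ C) (free_tw free_self)
    (fun _ _ => rfl) (fun _ _ => rfl) (by rw [stabilizer_quotient, Subgroup.range_subtype])
    ⟨Set.range fun j => ⟨1, j⟩, Set.finite_range _, fun z hz =>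
      ⟨⟨z.y⁻¹, by simpa using QuotientGroup.eq.1 hz⟩, z.k,
        Tw.ext (inv_mul_cancel z.y).symm rfl⟩⟩ W hW
  have h2 := h1.img (S := p C) (eqv_pull _ fun _ _ => rfl) (finCols_pull _ _)
  rw [cl_img_cl] at h2
  have h3 : img (p C) (img (res (κ C ⁻¹' {((1 : Γ) : Γ ⧸ C)})) W) = img (p C) W := by
    refine le_antisymm ?_ ?_
    · rintro _ ⟨_, ⟨F, hF, rfl⟩, rfl⟩
      exact ⟨F, hF, (p_res C F).symm⟩
    · rintro _ ⟨F, hF, rfl⟩
      exact ⟨_, ⟨F, hF, rfl⟩, p_res C F⟩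
  rwa [h3] at h2

theorem co_p [Fintype J] (n : J → NN Γ) (x : Γ) (ξ : L2 Γ) (j : J) :
    co j (p C (stack (fun j => (n j).1) (act x⁻¹ ξ))) =
      cs C.subtype C.subtype_injective x ((n j).1 ξ) :=
  lp.ext (funext fun c => by
    refine (stack_apply (fun j => (n j).1) (act x⁻¹ ξ) c.1 j).trans ?_
    rw [(n j).2, act_apply, inv_inv]
    rfl)

theorem inner_stack {G Y : Type u} [Fintype J] (T : J → L2 Y →L[ℂ] L2 G) (F : L2 (Tw G J))
    (f : L2 Y) : ⟪F, stack T f⟫_ℂ = ∑ j, ⟪co j F, T j f⟫_ℂ := by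
  rw [stack, sum_apply, inner_sum]
  refine Finset.sum_congr rfl fun j _ => ?_
  rw [ContinuousLinearMap.comp_apply, inner_push_right, co]

theorem inner_cs (a b : L2 Γ) : ⟪cs C.subtype C.subtype_injective 1 a,
    cs C.subtype C.subtype_injective 1 b⟫_ℂ = ⟪res (C : Set Γ) a, b⟫_ℂ := by
  rw [cs, ← inner_push_left, push_pull]
  congr 3
  ext g
  simp

theorem orth_stack {G Y U : Type u} [Fintype J] {T : L2 U →L[ℂ] L2 (Tw G J)}
    (h : cl (img T ⊤) = ⊤) (S : J → L2 Y →L[ℂ] L2 G) (f : L2 Y)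
    (h0 : ∀ ξ, ∑ j, ⟪co j (T ξ), S j f⟫_ℂ = 0) (j : J) : S j f = 0 := by
  have h1 : stack S f = 0 := eq_zero_of_orth h fun ξ _ => by rw [inner_stack, h0]
  rw [← co_stack S f j, h1, map_zero]

theorem cl_comp {X Y Z : Type u} {P : L2 Y →L[ℂ] L2 Z} {S : L2 X →L[ℂ] L2 Y}
    (h : cl (img P (cl (img S ⊤))) = ⊤) : cl (img (P ∘L S) ⊤) = ⊤ :=
  eq_top_iff.2 (h.ge.trans (cl_img_le (cls_cl _) fun _ hF =>
    map_mem_cl_img (T := P) (S := S) (M := ⊤) (cls_cl _)
      (fun ξ hξ => mem_cl_img (P ∘L S) (f := ξ) hξ) hF))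

theorem eq_zero_of_cs {T : NN Γ}
    (h : cs C.subtype C.subtype_injective 1 (adj T.1 (T.1 (delta 1))) = 0) : T = 0 := by
  have h1 : ∀ a : L2 Γ, cs C.subtype C.subtype_injective 1 a = 0 → ⟪delta (1 : Γ), a⟫_ℂ = 0 := by
    intro a ha
    have h2 := cs_apply C.subtype C.subtype_injective 1 a 1
    rw [ha, map_one, mul_one] at h2
    rw [inner_delta_left, ← h2]
    rfl
  have h2 := h1 _ h
  rw [inner_adj_right] at h2
  exact NN.eq_zero (inner_self_eq_zero.1 h2)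

theorem top_case [Fintype J] (n m : J → NN Γ)
    (h : cl (img (p C) (cl (img (stack fun j => (n j).1) ⊤))) = ⊤)
    (h0 : ∀ ξ, ∑ j, (m j).1 (res (C : Set Γ) ((n j).1 ξ)) = 0) (j : J) : m j = 0 := by
  refine eq_zero_of_cs C (orth_stack (cl_comp h)
    (fun j => cs C.subtype C.subtype_injective 1 ∘L adj (m j).1) ((m j).1 (delta 1))
    (fun ξ => ?_) j)
  refine (Finset.sum_congr rfl fun j _ => ?_).trans
    ((sum_inner Finset.univ (fun j => (m j).1 (res (C : Set Γ) ((n j).1 ξ)))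
      ((m j).1 (delta 1))).symm.trans (by rw [h0, inner_zero_left]))
  have h4 := co_p C n 1 ξ j
  rw [inv_one, act_one] at h4
  rw [ContinuousLinearMap.comp_apply, h4, ContinuousLinearMap.comp_apply, inner_cs,
    inner_adj_right]

end DENS

open DENS in
theorem q_dens (hSK : S_SKEW.{u}) (hJ : S_JOINT.{u}) (hK : S_KILL.{u}) (hI : S_IND.{u})
    (hJH : S_JH.{u}) : S_DENS.{u} := by
  intro s ℛ C J _ y t n m hF hind ht hn h0
  have hW := rat_p C hF (hJ s.Γ J (fun j => ℛ.φ (y j)) t n ht hn fun j => hSK.2 s ℛ (y j))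
  by_cases htop : cl (img (p C) (cl (img (stack fun j => (n j).1) ⊤))) = ⊤
  · exact top_case C n m htop h0
  exfalso
  have hC : SAC C := hF.sac.of_injective C.subtype C.subtype_injective
  obtain ⟨D, _, _, ι, ⟨ℛ'⟩⟩ := hSK.1 C hC
  obtain ⟨l, hl, hl0⟩ := hK ⟨C, D, ι⟩ ℛ' J _ hC hW htop
  obtain ⟨σ, hσ, ν, hν⟩ := left_fracs fun j => ℛ'.φ (l j)
  obtain ⟨𝓘⟩ := hI C s.Γ C.subtype C.subtype_injective
  obtain ⟨k, hk, -, -, hk', -⟩ := hJH ⟨C, D, ι⟩ s ℛ' ℛ C.subtype C.subtype_injective 𝓘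
  have h1 : ∑ j, 𝓘.N (ν j) * n j = 0 := by
    refine Subtype.ext (ContinuousLinearMap.ext fun ξ =>
      ext_cs C.subtype C.subtype_injective fun x => eps_inj ?_)
    have h2 := congrArg (nu σ • ·) (hl0 _ (mem_cl_img (p C)
      (mem_cl_img (stack fun j => (n j).1) (f := act x⁻¹ ξ) Submodule.mem_top)))
    simp only [Finset.smul_sum, smul_smul, hν, smul_zero, co_p] at h2
    have h3 : (∑ j, 𝓘.N (ν j) * n j).1 ξ = ∑ j, (𝓘.N (ν j)).1 ((n j).1 ξ) := by
      rw [AddSubmonoidClass.coe_finsetSum, sum_apply]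
      rfl
    rw [h3, map_sum, map_sum]
    simp only [𝓘.cs_N, eps_app]
    exact h2.trans (by
      change (0 : LL C) = eps (cs C.subtype C.subtype_injective x 0)
      rw [map_zero, map_zero])
  have h2 : nu (𝓘.N σ) * (ℛ.φ (∑ j, k (l j) * y j) * nu t) = 0 := by
    rw [← map_zero (nu : NN s.Γ →+* UU s.Γ), ← h1, map_sum, map_sum, Finset.sum_mul,
      Finset.mul_sum]
    refine Finset.sum_congr rfl fun j _ => ?_
    rw [map_mul, map_mul, mul_assoc, hn, hk, ← mul_assoc, ← 𝓘.U_nu, ← map_mul, hν, 𝓘.U_nu]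
  have h3 := (nu_unit ht).mul_left_eq_zero.1 ((nu_unit (𝓘.N_mem hσ)).mul_right_eq_zero.1 h2)
  have h4 := hind (fun j => k (l j)) (fun j => by
    have h5 := hk' (l j)
    rwa [Subgroup.range_subtype] at h5) (ℛ.inj (h3.trans (map_zero _).symm))
  exact hl (funext fun j => k.injective ((h4 j).trans (map_zero k).symm))

end Pool.Agent.P.MP_0f25e6_al.VT.B
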