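import Pool.Agent.P.MP_0f25e6_al.VT.B2

/-!
Embeddings of realised systems along injective group homomorphisms, and common denominators.
-/

set_option autoImplicit false

open scoped InnerProductSpace ENNReal
open MulAction

noncomputable section

namespace Pool.Agent.P.MP_0f25e6_al.VT.B

universe u

open HN HR Sys

namespace JH

theorem ex_pre (s s' : Sys.{u}) (ℛ : Real s) (ℛ' : Real s') (i : s.Γ →* s'.Γ)
    (hi : Function.Injective i) (𝓘 : Ind i hi) (d : s.D) :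
    ∃ d' ∈ s'.fld i.range, ℛ'.φ d' = 𝓘.U (ℛ.φ d) := by
  refine fld_induction (A := ⊤)
    (P := fun d => ∃ d' ∈ s'.fld i.range, ℛ'.φ d' = 𝓘.U (ℛ.φ d)) (fun c => ?_) (fun g _ => ?_)
    (fun x _ y _ hx hy => ?_) (fun x _ y _ hx hy => ?_) (fun x _ h0 hx => ?_) (ℛ.gen d)
  · exact ⟨_, alg_mem _ c, by rw [ℛ'.φ_alg, ℛ.φ_alg, 𝓘.U_alg]⟩
  · exact ⟨_, ι_mem (g := i g) ⟨g, rfl⟩, by rw [ℛ'.φ_ι, ℛ.φ_ι, 𝓘.U_rho]⟩
  · obtain ⟨a, ha, ha'⟩ := hx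
    obtain ⟨b, hb, hb'⟩ := hy
    exact ⟨a + b, add_mem ha hb, by rw [map_add, map_add, map_add, ha', hb']⟩
  · obtain ⟨a, ha, ha'⟩ := hx
    obtain ⟨b, hb, hb'⟩ := hy
    exact ⟨a * b, mul_mem ha hb, by rw [map_mul, map_mul, map_mul, ha', hb']⟩
  · obtain ⟨a, ha, ha'⟩ := hx
    have h1 : ℛ'.φ a * 𝓘.U (ℛ.φ x⁻¹) = 1 := by
      rw [ha', ← map_mul, ← map_mul, mul_inv_cancel₀ h0, map_one, map_one]
    have h2 : a ≠ 0 := by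
      rintro rfl
      rw [map_zero, zero_mul] at h1
      exact zero_ne_one h1
    have h3 : ℛ'.φ a⁻¹ * ℛ'.φ a = 1 := by rw [← map_mul, inv_mul_cancel₀ h2, map_one]
    exact ⟨a⁻¹, inv_mem ha, left_inv_eq_right_inv h3 h1⟩

end JH

theorem q_jh : S_JH.{u} := by
  intro s s' ℛ ℛ' i hi 𝓘
  choose f hf hφ using JH.ex_pre s s' ℛ ℛ' i hi 𝓘
  let j : s.D →+* s'.D :=
    { toFun := f
      map_one' := ℛ'.inj (by rw [hφ, map_one, map_one, map_one])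
      map_mul' := fun x y => ℛ'.inj (by rw [hφ, map_mul, map_mul, map_mul, hφ, hφ])
      map_zero' := ℛ'.inj (by rw [hφ, map_zero, map_zero, map_zero])
      map_add' := fun x y => ℛ'.inj (by rw [hφ, map_add, map_add, map_add, hφ, hφ]) }
  have h1 : ∀ c, j (algebraMap ℂ s.D c) = algebraMap ℂ s'.D c := fun c =>
    ℛ'.inj ((hφ _).trans (by rw [ℛ'.φ_alg, ℛ.φ_alg, 𝓘.U_alg]))
  have h2 : ∀ g, j (s.ι g) = s'.ι (i g) := fun g =>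
    ℛ'.inj ((hφ _).trans (by rw [ℛ'.φ_ι, ℛ.φ_ι, 𝓘.U_rho]))
  refine ⟨j, hφ, h1, h2, hf, fun d hd => ?_⟩
  refine fld_le (L := j.fieldRange) (fun c => ⟨_, h1 c⟩) ?_ hd
  rintro _ ⟨g, rfl⟩
  exact ⟨_, h2 g⟩

theorem q_frac (h1 : S_SKEW.{u}) (h2 : S_IND.{u}) (h3 : S_JH.{u}) : S_FRAC.{u} := by
  intro s ℛ A J _ d hs hd
  obtain ⟨D, _, _, ι, ⟨ℛ₀⟩⟩ := h1.1 A (SAC.of_injective A.subtype A.subtype_injective hs)
  obtain ⟨𝓘⟩ := h2 A s.Γ A.subtype A.subtype_injective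
  obtain ⟨j, hj, -, -, -, hon⟩ := h3 ⟨A, D, ι⟩ s ℛ₀ ℛ A.subtype A.subtype_injective 𝓘
  have hr : A.subtype.range = A := Subgroup.range_subtype A
  have hsp : ∀ T, SplitBy A (𝓘.N T) := fun T => by
    have := 𝓘.splitBy T
    rwa [hr] at this
  choose a ha using fun k => hon (d k) (by
    change d k ∈ s.fld A.subtype.range
    rw [hr]
    exact hd k)
  constructor
  · obtain ⟨t, ht, n, h⟩ := left_fracs fun k => ℛ₀.φ (a k)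
    refine ⟨𝓘.N t, 𝓘.N_mem ht, fun k => 𝓘.N (n k), fun k => ⟨hsp _, ?_⟩⟩
    rw [← ha k, hj, ← 𝓘.U_nu, ← 𝓘.U_nu, ← map_mul]
    exact congrArg 𝓘.U (h k)
  · obtain ⟨t, ht, n, h⟩ := right_fracs fun k => ℛ₀.φ (a k)
    refine ⟨𝓘.N t, 𝓘.N_mem ht, fun k => 𝓘.N (n k), fun k => ⟨hsp _, ?_⟩⟩
    rw [← ha k, hj, ← 𝓘.U_nu, ← 𝓘.U_nu, ← map_mul]
    exact congrArg 𝓘.U (h k)

end Pool.Agent.P.MP_0f25e6_al.VT.B
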