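import Pool.Agent.P.MP_0f25e6_al.HNDefs

/-!
Systems of skew fields attached to a group, and induced modules.
-/

set_option autoImplicit false

open MulAction

noncomputable section

namespace Pool.Agent.P.MP_0f25e6_al.VT

universe u

/-- A group with a homomorphism to the multiplicative monoid of a skew field over `ℂ`. -/
structure Sys : Type (u + 1) where
  /-- the group -/
  Γ : Type u
  /-- the skew field -/
  D : Type u
  [grp : Group Γ]
  [div : DivisionRing D]
  [alg : Algebra ℂ D]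
  /-- the homomorphism -/
  ι : Γ →* D

attribute [instance] Sys.grp Sys.div Sys.alg

namespace Sys

variable (s : Sys.{u})

/-- The skew subfield generated by the scalars and a subgroup. -/
def fld (A : Subgroup s.Γ) : Subfield s.D :=
  Subfield.closure (Set.range (algebraMap ℂ s.D) ∪ s.ι '' A)

/-- The skew field is generated by the group. -/
def Gen : Prop := ∀ d : s.D, d ∈ s.fld ⊤

variable {s}

theorem ι_mul_inv (g : s.Γ) : s.ι g * s.ι g⁻¹ = 1 := by rw [← map_mul, mul_inv_cancel, map_one]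

theorem ι_inv_mul (g : s.Γ) : s.ι g⁻¹ * s.ι g = 1 := by rw [← map_mul, inv_mul_cancel, map_one]

theorem ι_ne_zero (g : s.Γ) : s.ι g ≠ 0 := left_ne_zero_of_mul_eq_one (ι_mul_inv g)

theorem ι_mem {A : Subgroup s.Γ} {g : s.Γ} (h : g ∈ A) : s.ι g ∈ s.fld A :=
  Subfield.subset_closure (Or.inr ⟨g, h, rfl⟩)

theorem alg_mem (A : Subgroup s.Γ) (c : ℂ) : algebraMap ℂ s.D c ∈ s.fld A :=
  Subfield.subset_closure (Or.inl ⟨c, rfl⟩)

theorem fld_mono {A B : Subgroup s.Γ} (h : A ≤ B) : s.fld A ≤ s.fld B :=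
  Subfield.closure_mono (Set.union_subset_union_right _ (Set.image_mono h))

theorem fld_le {A : Subgroup s.Γ} {L : Subfield s.D} (h1 : ∀ c, algebraMap ℂ s.D c ∈ L)
    (h2 : ∀ g ∈ A, s.ι g ∈ L) : s.fld A ≤ L :=
  Subfield.closure_le.2 (by
    rintro _ (⟨c, rfl⟩ | ⟨g, hg, rfl⟩)
    · exact h1 c
    · exact h2 g hg)

/-- Induction over the subfield generated by a subgroup. -/
theorem fld_induction {A : Subgroup s.Γ} {P : s.D → Prop} (h1 : ∀ c, P (algebraMap ℂ s.D c))
    (h2 : ∀ g ∈ A, P (s.ι g)) (hadd : ∀ x ∈ s.fld A, ∀ y ∈ s.fld A, P x → P y → P (x + y))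
    (hmul : ∀ x ∈ s.fld A, ∀ y ∈ s.fld A, P x → P y → P (x * y))
    (hinv : ∀ x ∈ s.fld A, x ≠ 0 → P x → P x⁻¹) {d : s.D} (hd : d ∈ s.fld A) : P d := by
  induction hd using Subfield.closure_induction with
  | mem x hx =>
    rcases hx with ⟨c, rfl⟩ | ⟨g, hg, rfl⟩
    · exact h1 c
    · exact h2 g hg
  | one => simpa using h1 1
  | add x y hx hy px py => exact hadd x hx y hy px py
  | neg x hx px => simpa using hmul _ (alg_mem A (-1)) x hx (h1 (-1)) px
  | inv x hx px =>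
    by_cases h : x = 0
    · subst h
      simpa using h1 0
    · exact hinv x hx h px
  | mul x y hx hy px py => exact hmul x hx y hy px py

theorem conj_mem {A B : Subgroup s.Γ} (g : s.Γ) (h : ∀ a ∈ A, g * a * g⁻¹ ∈ B) {d : s.D}
    (hd : d ∈ s.fld A) : s.ι g * d * s.ι g⁻¹ ∈ s.fld B := by
  refine fld_induction (P := fun d => s.ι g * d * s.ι g⁻¹ ∈ s.fld B) (fun c => ?_)
    (fun a ha => ?_) (fun x _ y _ hx hy => ?_) (fun x _ y _ hx hy => ?_) (fun x _ _ hx => ?_) hd
  · rw [← Algebra.commutes, mul_assoc, ι_mul_inv, mul_one]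
    exact alg_mem B c
  · rw [← map_mul, ← map_mul]
    exact ι_mem (h a ha)
  · rw [mul_add, add_mul]
    exact add_mem hx hy
  · have := mul_mem hx hy
    rwa [mul_assoc _ (s.ι g⁻¹), ← mul_assoc (s.ι g⁻¹), ← mul_assoc (s.ι g⁻¹), ι_inv_mul, one_mul,
      ← mul_assoc, mul_assoc (s.ι g)] at this
  · have := inv_mem hx
    rwa [mul_inv_rev, mul_inv_rev, map_inv, inv_inv, ← mul_assoc, ← map_inv] at this

theorem conj_stab {W : Type*} [MulAction s.Γ W] (g : s.Γ) {w : W} {d : s.D}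
    (hd : d ∈ s.fld (stabilizer s.Γ w)) : s.ι g * d * s.ι g⁻¹ ∈ s.fld (stabilizer s.Γ (g • w)) :=
  conj_mem g (fun a ha => by
    rw [mem_stabilizer_iff] at ha ⊢
    rw [mul_smul, mul_smul, inv_smul_smul, ha]) hd

theorem ι_smul_inv {V : Type*} [AddCommGroup V] [Module s.D V] (g : s.Γ) (v : V) :
    s.ι g • s.ι g⁻¹ • v = v := by rw [smul_smul, ι_mul_inv, one_smul]

theorem ι_inv_smul {V : Type*} [AddCommGroup V] [Module s.D V] (g : s.Γ) (v : V) :
    s.ι g⁻¹ • s.ι g • v = v := by rw [smul_smul, ι_inv_mul, one_smul]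

section Ten

variable (s) (W V : Type u) [MulAction s.Γ W] [AddCommGroup V] [Module s.D V]

/-- The relations of the induced module. -/
def rel : Submodule s.D (W × V →₀ s.D) :=
  Submodule.span s.D
    {x | (∃ w v v', x = Finsupp.single (w, v + v') 1 - Finsupp.single (w, v) 1 -
        Finsupp.single (w, v') 1) ∨
      (∃ w v κ, κ ∈ s.fld (stabilizer s.Γ w) ∧
        x = Finsupp.single (w, κ • v) 1 - Finsupp.single (w, v) κ) ∨
      ∃ w v g, x = Finsupp.single (g • w, s.ι g • v) 1 - Finsupp.single (w, v) (s.ι g)}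

/-- The sum over the orbits of `W` of `D ⊗ V` over the skew field of the stabiliser. -/
def Ten : Type u := (W × V →₀ s.D) ⧸ s.rel W V

instance : AddCommGroup (s.Ten W V) :=
  inferInstanceAs (AddCommGroup ((W × V →₀ s.D) ⧸ s.rel W V))

instance : Module s.D (s.Ten W V) := inferInstanceAs (Module s.D ((W × V →₀ s.D) ⧸ s.rel W V))

variable {W V}

/-- The quotient map. -/
def mkT : (W × V →₀ s.D) →ₗ[s.D] s.Ten W V := (s.rel W V).mkQ

theorem mkT_rel {x : W × V →₀ s.D} (h : x ∈ s.rel W V) : s.mkT x = 0 :=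
  (Submodule.Quotient.mk_eq_zero _).2 h

/-- The generator `1 ⊗ v` at the point `w`. -/
def t (w : W) : V →+ s.Ten W V :=
  AddMonoidHom.mk' (fun v => s.mkT (Finsupp.single (w, v) 1)) fun v v' => by
    have h := s.mkT_rel (Submodule.subset_span (Or.inl ⟨w, v, v', rfl⟩))
    rwa [map_sub, map_sub, sub_sub, sub_eq_zero] at h

theorem mkT_single (w : W) (v : V) (d : s.D) :
    s.mkT (Finsupp.single (w, v) d) = d • s.t w v := by
  change _ = d • s.mkT _
  rw [← map_smul, Finsupp.smul_single, smul_eq_mul, mul_one]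

variable {s}

theorem t_smul {w : W} {κ : s.D} (h : κ ∈ s.fld (stabilizer s.Γ w)) (v : V) :
    s.t w (κ • v) = κ • s.t w v := by
  have h := s.mkT_rel (Submodule.subset_span (Or.inr (Or.inl ⟨w, v, κ, h, rfl⟩)))
  rwa [map_sub, sub_eq_zero, mkT_single _ _ _ κ] at h

theorem t_act (g : s.Γ) (w : W) (v : V) : s.t (g • w) (s.ι g • v) = s.ι g • s.t w v := by
  have h := s.mkT_rel (Submodule.subset_span (Or.inr (Or.inr ⟨w, v, g, rfl⟩)))
  rwa [map_sub, sub_eq_zero, mkT_single _ _ _ (s.ι g)] at h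

theorem t_act' (g : s.Γ) (w : W) (v : V) : s.t (g • w) v = s.ι g • s.t w (s.ι g⁻¹ • v) := by
  rw [← t_act, ι_smul_inv]

theorem Ten.ind {P : s.Ten W V → Prop} (h0 : P 0) (hadd : ∀ x y, P x → P y → P (x + y))
    (ht : ∀ (d : s.D) w v, P (d • s.t w v)) (x : s.Ten W V) : P x := by
  obtain ⟨x, rfl⟩ := (s.rel W V).mkQ_surjective x
  change P (s.mkT x)
  induction x using Finsupp.induction_linear with
  | zero => rwa [map_zero]
  | add f g hf hg => rw [map_add]; exact hadd _ _ hf hg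
  | single p d => rw [mkT_single]; exact ht d _ _

theorem Ten.ext_add {M : Type*} [AddCommGroup M] {f g : s.Ten W V →+ M}
    (h : ∀ (d : s.D) w v, f (d • s.t w v) = g (d • s.t w v)) : f = g :=
  AddMonoidHom.ext fun x => Ten.ind (P := fun x => f x = g x) (by simp)
    (fun x y hx hy => by rw [map_add, map_add, hx, hy]) h x

theorem Ten.ext_lin {M : Type*} [AddCommGroup M] [Module s.D M] {f g : s.Ten W V →ₗ[s.D] M}
    (h : ∀ w v, f (s.t w v) = g (s.t w v)) : f = g :=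
  LinearMap.ext fun x => Ten.ind (P := fun x => f x = g x) (by simp)
    (fun x y hx hy => by rw [map_add, map_add, hx, hy])
    (fun d w v => by rw [map_smul, map_smul, h]) x

/-- Additive maps out of the induced module. -/
def liftA {M : Type*} [AddCommGroup M] (β : W → s.D →+ V →+ M)
    (h1 : ∀ w d κ v, κ ∈ s.fld (stabilizer s.Γ w) → β w d (κ • v) = β w (d * κ) v)
    (h2 : ∀ (g : s.Γ) w d v, β (g • w) d (s.ι g • v) = β w (d * s.ι g) v) : s.Ten W V →+ M :=
  QuotientAddGroup.lift (s.rel W V).toAddSubgroup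
    (Finsupp.liftAddHom fun p => (β p.1).flip p.2) (by
      intro x hx
      suffices h : ∀ d : s.D, Finsupp.liftAddHom (fun p : W × V => (β p.1).flip p.2) (d • x) = 0 by
        simpa using h 1
      induction hx using Submodule.span_induction with
      | mem x hx =>
        intro d
        rcases hx with ⟨w, v, v', rfl⟩ | ⟨w, v, κ, hκ, rfl⟩ | ⟨w, v, g, rfl⟩
        · simp only [smul_sub, map_sub, Finsupp.smul_single, Finsupp.liftAddHom_apply_single]
          simp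
        · simp only [smul_sub, map_sub, Finsupp.smul_single, Finsupp.liftAddHom_apply_single]
          simp [h1 w d κ v hκ]
        · simp only [smul_sub, map_sub, Finsupp.smul_single, Finsupp.liftAddHom_apply_single]
          simp [h2]
      | zero => simp
      | add x y _ _ hx hy => intro d; rw [smul_add, map_add, hx, hy, add_zero]
      | smul a x _ hx => intro d; rw [smul_smul, hx])

theorem liftA_t {M : Type*} [AddCommGroup M] (β : W → s.D →+ V →+ M) (h1) (h2) (d : s.D) (w : W)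
    (v : V) : liftA β h1 h2 (d • s.t w v) = β w d v := by
  rw [← mkT_single]
  exact Finsupp.liftAddHom_apply_single _ _ _

/-- Linear maps out of the induced module. -/
def lift {M : Type*} [AddCommGroup M] [Module s.D M] (τ : W → V →+ M)
    (h1 : ∀ w κ v, κ ∈ s.fld (stabilizer s.Γ w) → τ w (κ • v) = κ • τ w v)
    (h2 : ∀ (g : s.Γ) w v, τ (g • w) (s.ι g • v) = s.ι g • τ w v) : s.Ten W V →ₗ[s.D] M :=
  (s.rel W V).liftQ (Finsupp.linearCombination s.D fun p => τ p.1 p.2) (Submodule.span_le.2 (by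
    rintro _ (⟨w, v, v', rfl⟩ | ⟨w, v, κ, hκ, rfl⟩ | ⟨w, v, g, rfl⟩)
    · simp
    · simp [h1 w κ v hκ]
    · simp [h2]))

@[simp] theorem lift_t {M : Type*} [AddCommGroup M] [Module s.D M] (τ : W → V →+ M) (h1) (h2)
    (w : W) (v : V) : lift τ h1 h2 (s.t w v) = τ w v := by
  have h : lift τ h1 h2 (s.t w v) = Finsupp.linearCombination s.D (fun p : W × V => τ p.1 p.2)
    (Finsupp.single (w, v) 1) := rfl
  rw [h]
  simp

variable (W) in
/-- Functoriality in the module. -/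
def map {V' : Type u} [AddCommGroup V'] [Module s.D V'] (f : V →ₗ[s.D] V') :
    s.Ten W V →ₗ[s.D] s.Ten W V' :=
  lift (fun w => (s.t w).comp f.toAddMonoidHom)
    (fun w κ v h => by simpa using t_smul h (f v)) fun g w v => by simpa using t_act g w (f v)

@[simp] theorem map_t {V' : Type u} [AddCommGroup V'] [Module s.D V'] (f : V →ₗ[s.D] V') (w : W)
    (v : V) : map W f (s.t w v) = s.t w (f v) := lift_t _ _ _ _ _

variable (V) in
/-- Functoriality in the set. -/
def push {W' : Type u} [MulAction s.Γ W'] (f : W → W') (hf : ∀ (g : s.Γ) w, f (g • w) = g • f w) :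
    s.Ten W V →ₗ[s.D] s.Ten W' V :=
  lift (fun w => s.t (f w)) (fun w κ v h => t_smul (fld_mono (fun g hg => by
    rw [mem_stabilizer_iff] at hg ⊢
    rw [← hf, hg]) h) v) fun g w v => by rw [hf, t_act]

@[simp] theorem push_t {W' : Type u} [MulAction s.Γ W'] (f : W → W') (hf) (w : W) (v : V) :
    push V f hf (s.t w v) = s.t (f w) v := lift_t _ _ _ _ _

variable (s W V) in
/-- The multiplication map. -/
def mu : s.Ten W V →ₗ[s.D] V :=
  lift (fun _ => AddMonoidHom.id V) (fun _ _ _ _ => rfl) fun _ _ _ => rfl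

@[simp] theorem mu_t (w : W) (v : V) : s.mu W V (s.t w v) = v := lift_t _ _ _ _ _

variable (V) in
/-- The boundary map of a tree. -/
def bd {E : Type u} [MulAction s.Γ E] (T : HN.TreeData s.Γ W E) : s.Ten E V →ₗ[s.D] s.Ten W V :=
  push V T.t T.t_smul - push V T.o T.o_smul

@[simp] theorem bd_t {E : Type u} [MulAction s.Γ E] (T : HN.TreeData s.Γ W E) (e : E) (v : V) :
    bd V T (s.t e v) = s.t (T.t e) v - s.t (T.o e) v := by simp [bd]

variable (s) in
/-- The span of the elements `d ⊗ z` with `d` in the skew field of `A` and `z ∈ Z w`. -/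
def T (A : Subgroup s.Γ) (Z : W → AddSubgroup V) : AddSubgroup (s.Ten W V) :=
  AddSubgroup.closure {x | ∃ d ∈ s.fld A, ∃ w, ∃ z ∈ Z w, x = d • s.t w z}

theorem mem_T {A : Subgroup s.Γ} {Z : W → AddSubgroup V} {d : s.D} (hd : d ∈ s.fld A) {w : W}
    {z : V} (hz : z ∈ Z w) : d • s.t w z ∈ s.T A Z :=
  AddSubgroup.subset_closure ⟨d, hd, w, z, hz, rfl⟩

theorem T_le {A : Subgroup s.Γ} {Z : W → AddSubgroup V} {M : AddSubgroup (s.Ten W V)}
    (h : ∀ d ∈ s.fld A, ∀ w, ∀ z ∈ Z w, d • s.t w z ∈ M) : s.T A Z ≤ M :=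
  (AddSubgroup.closure_le _).2 (by rintro _ ⟨d, hd, w, z, hz, rfl⟩; exact h d hd w z hz)

theorem T_mono {A B : Subgroup s.Γ} {Z Z' : W → AddSubgroup V} (h : A ≤ B) (h' : ∀ w, Z w ≤ Z' w) :
    s.T A Z ≤ s.T B Z' := T_le fun _ hd w _ hz => mem_T (fld_mono h hd) (h' w hz)

theorem smul_mem_T {A : Subgroup s.Γ} {Z : W → AddSubgroup V} {d : s.D} (hd : d ∈ s.fld A)
    {x : s.Ten W V} (hx : x ∈ s.T A Z) : d • x ∈ s.T A Z :=
  T_le (M := (s.T A Z).comap (DistribSMul.toAddMonoidHom _ d)) (fun a ha w z hz => by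
    change d • a • s.t w z ∈ s.T A Z
    rw [smul_smul]
    exact mem_T (mul_mem hd ha) hz) hx

theorem dual_aux (w₀ : W) (ν : V →+ s.D)
    (h2 : ∀ κ ∈ s.fld (stabilizer s.Γ w₀), ∀ v, ν (κ • v) = κ * ν v) {g g' : s.Γ}
    (h : g • w₀ = g' • w₀) (v : V) : s.ι g * ν (s.ι g⁻¹ • v) = s.ι g' * ν (s.ι g'⁻¹ • v) := by
  have h3 : g⁻¹ * g' ∈ stabilizer s.Γ w₀ := by
    rw [mem_stabilizer_iff, mul_smul, ← h, inv_smul_smul]
  have h4 := h2 _ (ι_mem h3) (s.ι g'⁻¹ • v)
  rw [smul_smul, ← map_mul, mul_inv_cancel_right] at h4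
  rw [h4, ← mul_assoc, ← map_mul, mul_inv_cancel_left]

/-- The linear form attached to a form `ν` on `V` that is linear over the stabiliser of `w₀`. -/
theorem exists_dual (w₀ : W) (ν : V →+ s.D)
    (h2 : ∀ κ ∈ s.fld (stabilizer s.Γ w₀), ∀ v, ν (κ • v) = κ * ν v) :
    ∃ Φ : s.Ten W V →ₗ[s.D] s.D,
      (∀ (g : s.Γ) v, Φ (s.t (g • w₀) v) = s.ι g * ν (s.ι g⁻¹ • v)) ∧
      ∀ w v, (∀ g : s.Γ, g • w₀ ≠ w) → Φ (s.t w v) = 0 := by
  classical
  let τ : W → V →+ s.D := fun w => if h : ∃ g : s.Γ, g • w₀ = w then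
    (AddMonoidHom.mulLeft (s.ι h.choose)).comp (ν.comp (DistribSMul.toAddMonoidHom _
      (s.ι h.choose⁻¹))) else 0
  have hτ : ∀ (g : s.Γ) v, τ (g • w₀) v = s.ι g * ν (s.ι g⁻¹ • v) := fun g v => by
    have h : ∃ g' : s.Γ, g' • w₀ = g • w₀ := ⟨g, rfl⟩
    simp only [τ, dif_pos h]
    exact dual_aux w₀ ν h2 h.choose_spec v
  have hτ' : ∀ w, (∀ g : s.Γ, g • w₀ ≠ w) → τ w = 0 := fun w h =>
    dif_neg (fun ⟨g, hg⟩ => h g hg)
  refine ⟨lift τ (fun w κ v hκ => ?_) fun g w v => ?_, fun g v => by rw [lift_t, hτ],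
    fun w v h => by rw [lift_t, hτ' w h]; rfl⟩
  · by_cases h : ∃ g : s.Γ, g • w₀ = w
    · obtain ⟨g, rfl⟩ := h
      have h3 := conj_stab g⁻¹ hκ
      rw [inv_smul_smul, inv_inv] at h3
      rw [hτ, hτ, smul_eq_mul, ← ι_smul_inv g v, smul_smul, smul_smul, h2 _ h3, ι_smul_inv,
        ← mul_assoc, ← mul_assoc, ← mul_assoc, ι_mul_inv, one_mul, ← mul_assoc]
    · rw [hτ' w fun g hg => h ⟨g, hg⟩]
      simp
  · by_cases h : ∃ g : s.Γ, g • w₀ = w
    · obtain ⟨a, rfl⟩ := h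
      rw [smul_smul, hτ, hτ, smul_smul, ← map_mul, mul_inv_rev, inv_mul_cancel_right, map_mul,
        smul_eq_mul, mul_assoc]
    · rw [hτ' w fun g hg => h ⟨g, hg⟩, hτ' _ fun a ha => h ⟨g⁻¹ * a, by
        rw [mul_smul, ha, inv_smul_smul]⟩]
      simp

end Ten

section Coord

variable (s) {W : Type u} [MulAction s.Γ W]

/-- A coordinate at `w₀`: a form on `D` that is right linear over the stabiliser of `w₀`, spread
over the orbit by `c (g • w₀) d = l (d * g) * g⁻¹`. -/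
structure Coord (w₀ : W) where
  /-- the coefficient -/
  c : W → s.D →+ s.D
  bal : ∀ x d κ, κ ∈ s.fld (stabilizer s.Γ x) → c x (d * κ) = c x d * κ
  eqv : ∀ (g : s.Γ) x d, c x (d * s.ι g) = c (g • x) d * s.ι g
  val : ∀ d, c w₀ d ∈ s.fld (stabilizer s.Γ w₀)
  zero : ∀ x d, (∀ g : s.Γ, g • w₀ ≠ x) → c x d = 0

variable {s}

/-- The coordinate as a map on the induced module. -/
def Coord.Λ {w₀ : W} (C : s.Coord w₀) (V : Type u) [AddCommGroup V] [Module s.D V] :
    s.Ten W V →+ V :=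
  liftA (fun w => (smulAddHom s.D V).comp (C.c w))
    (fun w d κ v h => by simp [C.bal w d κ h, mul_smul]) fun g w d v => by
      simp [C.eqv, mul_smul]

theorem Coord.Λ_t {w₀ : W} (C : s.Coord w₀) {V : Type u} [AddCommGroup V] [Module s.D V]
    (d : s.D) (w : W) (v : V) : C.Λ V (d • s.t w v) = C.c w d • v := liftA_t _ _ _ _ _ _

/-- A right linear form gives a coordinate. -/
theorem exists_coord (w₀ : W) (l : s.D →+ s.D) (h1 : ∀ d, l d ∈ s.fld (stabilizer s.Γ w₀))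
    (h2 : ∀ d, ∀ κ ∈ s.fld (stabilizer s.Γ w₀), l (d * κ) = l d * κ) :
    ∃ C : s.Coord w₀, ∀ (g : s.Γ) d, C.c (g • w₀) d = l (d * s.ι g) * s.ι g⁻¹ := by
  classical
  have aux : ∀ {g g' : s.Γ}, g • w₀ = g' • w₀ → ∀ d,
      l (d * s.ι g) * s.ι g⁻¹ = l (d * s.ι g') * s.ι g'⁻¹ := fun {g g'} h d => by
    have h3 : g⁻¹ * g' ∈ stabilizer s.Γ w₀ := by
      rw [mem_stabilizer_iff, mul_smul, ← h, inv_smul_smul]
    have h4 := h2 (d * s.ι g) _ (ι_mem h3)
    rw [mul_assoc, ← map_mul, mul_inv_cancel_left] at h4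
    rw [h4, mul_assoc, ← map_mul, mul_inv_cancel_right]
  let c : W → s.D →+ s.D := fun w => if h : ∃ g : s.Γ, g • w₀ = w then
    (AddMonoidHom.mulRight (s.ι h.choose⁻¹)).comp (l.comp (AddMonoidHom.mulRight (s.ι h.choose)))
    else 0
  have hc : ∀ (g : s.Γ) d, c (g • w₀) d = l (d * s.ι g) * s.ι g⁻¹ := fun g d => by
    have h : ∃ g' : s.Γ, g' • w₀ = g • w₀ := ⟨g, rfl⟩
    simp only [c, dif_pos h]
    exact aux h.choose_spec d
  have hc' : ∀ w, (∀ g : s.Γ, g • w₀ ≠ w) → c w = 0 := fun w h => dif_neg (fun ⟨g, hg⟩ => h g hg)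
  refine ⟨⟨c, fun x d κ hκ => ?_, fun g x d => ?_, fun d => ?_,
    fun x d h => by rw [hc' x h]; rfl⟩, hc⟩
  · by_cases h : ∃ g : s.Γ, g • w₀ = x
    · obtain ⟨g, rfl⟩ := h
      have h3 := conj_stab g⁻¹ hκ
      rw [inv_smul_smul, inv_inv] at h3
      have h4 := h2 (d * s.ι g) _ h3
      rw [← mul_assoc, ← mul_assoc, mul_assoc d, ι_mul_inv, mul_one] at h4
      rw [hc, hc, h4]
      simp only [mul_assoc, ι_mul_inv, mul_one]
    · rw [hc' x fun g hg => h ⟨g, hg⟩]
      simp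
  · by_cases h : ∃ g : s.Γ, g • w₀ = x
    · obtain ⟨a, rfl⟩ := h
      rw [smul_smul, hc, hc, mul_assoc d, ← map_mul, mul_assoc, ← map_mul, mul_inv_rev,
        inv_mul_cancel_right]
    · rw [hc' x fun g hg => h ⟨g, hg⟩, hc' _ fun a ha => h ⟨g⁻¹ * a, by
        rw [mul_smul, ha, inv_smul_smul]⟩]
      simp
  · have := hc 1 d
    rw [one_smul, inv_one, map_one, mul_one, mul_one] at this
    rw [this]
    exact h1 d

end Coord

end Sys

end Pool.Agent.P.MP_0f25e6_al.VT
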